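import Mathlib

/-!
# Alternating one-way one-counter automata: definitions and lower bounds on the counter

(Proof plan by helper222; formalized by helper19.)
-/

namespace Pool.Agent.Q19.Aca

open Filter Asymptotics

/-- An alternating one-way one-counter automaton over the alphabet `Fin k`.  `tr q a z q' m d`:
in state `q`, with scanned symbol `a` (`none` = the head has passed the last letter) and
zero-test `z` (`true` iff the counter is `0`), the automaton may go to state `q'`, move its head
right iff `m = true`, and add `d ∈ {-1, 0, 1}` to the counter. States in `univ` are universal, the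
others existential; states in `final` are the (halting) accepting states. -/
structure ACA (k : ℕ) where
  Q : Type
  fin : Finite Q
  start : Q
  univ : Q → Prop
  final : Q → Prop
  tr : Q → Option (Fin k) → Bool → Q → Bool → ℤ → Prop
  tr_small : ∀ {q a z q' m d}, tr q a z q' m d → d = -1 ∨ d = 0 ∨ d = 1

variable {k : ℕ}

/-- A configuration: state, the part of the input that is not yet read (its first letter is
scanned), counter value. -/
abbrev ACA.Cfg (M : ACA k) : Type := M.Q × List (Fin k) × ℕ

/-- One computation step. Final states halt; the counter stays nonnegative; the head cannot leave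
the end of the input. -/
def ACA.Step (M : ACA k) (x x' : M.Cfg) : Prop :=
  ¬ M.final x.1 ∧ ∃ m d, M.tr x.1 x.2.1.head? (decide (x.2.2 = 0)) x'.1 m d ∧
    (x'.2.2 : ℤ) = x.2.2 + d ∧
    ((m = false ∧ x'.2.1 = x.2.1) ∨ (m = true ∧ ∃ a, x.2.1 = a :: x'.2.1))

/-- `M.Acc b x`: there is a (finite) accepting computation tree with root `x` all of whose
configurations have a counter value satisfying `b`. -/
inductive ACA.Acc (M : ACA k) (b : ℕ → Prop) : M.Cfg → Prop
  | final {x : M.Cfg} : M.final x.1 → b x.2.2 → ACA.Acc M b x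
  | exist {x x' : M.Cfg} : ¬ M.univ x.1 → b x.2.2 → M.Step x x' → ACA.Acc M b x' → ACA.Acc M b x
  | all {x : M.Cfg} : ¬ M.final x.1 → M.univ x.1 → b x.2.2 → (∀ x', M.Step x x' → ACA.Acc M b x') →
      ACA.Acc M b x

/-- The language recognized by `M`. -/
def ACA.lang (M : ACA k) : Language (Fin k) :=
  {w | M.Acc (fun _ => True) (M.start, w, 0)}

/-- The configuration `x` occurs in some computation of `M` on the input `w`. -/
def ACA.Occurs (M : ACA k) (w : List (Fin k)) (x : M.Cfg) : Prop :=
  Relation.ReflTransGen M.Step (M.start, w, 0) x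

/-- `n` consecutive steps lead from `x` to `z`. -/
def ACA.StepN (M : ACA k) : ℕ → M.Cfg → M.Cfg → Prop
  | 0, x, z => x = z
  | n + 1, x, z => ∃ y, M.Step x y ∧ M.StepN n y z

/-- The two modes. -/
inductive Mode
  | realtime
  | oneway

/-- `M` works in the given mode: every `ACA` is one-way; it is realtime if for some constant `c`
the head moves at least once in every `c` consecutive steps. -/
def ACA.Works (M : ACA k) : Mode → Prop
  | .realtime => ∃ c, ∀ x z : M.Cfg, M.StepN c x z → z.2.1.length < x.2.1.length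
  | .oneway => True

/-- The three notions of space. -/
inductive Notion
  | strong
  | middle
  | weak

/-- `M` works in space `s` (for the counter value). -/
def ACA.InSpace (M : ACA k) (s : ℕ → ℝ) : Notion → Prop
  | .strong => ∀ w x, M.Occurs w x → (x.2.2 : ℝ) ≤ s w.length
  | .middle => ∀ w ∈ M.lang, ∀ x, M.Occurs w x → (x.2.2 : ℝ) ≤ s w.length
  | .weak => ∀ w ∈ M.lang, M.Acc (fun c => (c : ℝ) ≤ s w.length) (M.start, w, 0)

/-- `s` is a tight space bound. -/
def Tight (mode : Mode) (k : ℕ) (nt : Notion) (s : ℕ → ℝ) : Prop :=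
  (∃ (M : ACA k) (t : ℕ → ℝ), M.Works mode ∧ ¬ M.lang.IsRegular ∧ t =O[atTop] s ∧
    M.InSpace t nt) ∧
  ∀ (M : ACA k) (t : ℕ → ℝ), M.Works mode → t =o[atTop] s → M.InSpace t nt → M.lang.IsRegular

/-! ### Basic facts -/

theorem ACA.Acc.mono {M : ACA k} {b b' : ℕ → Prop} (h : ∀ c, b c → b' c) {x : M.Cfg}
    (hx : M.Acc b x) : M.Acc b' x := by
  induction hx with
  | final h1 h2 => exact .final h1 (h _ h2)
  | exist h1 h2 h3 _ ih => exact .exist h1 (h _ h2) h3 ih
  | all h1 h2 h3 _ ih => exact .all h1 h2 (h _ h3) ih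

theorem ACA.Acc.bound {M : ACA k} {b : ℕ → Prop} {x : M.Cfg} (hx : M.Acc b x) : b x.2.2 := by
  cases hx <;> assumption

/-- If every configuration reachable from `x` satisfies `b`, acceptance within `b` is
acceptance. -/
theorem ACA.Acc.of_reach {M : ACA k} {b : ℕ → Prop} {x : M.Cfg} (hx : M.Acc (fun _ => True) x)
    (h : ∀ y, Relation.ReflTransGen M.Step x y → b y.2.2) : M.Acc b x := by
  induction hx with
  | final h1 _ => exact .final h1 (h _ .refl)
  | exist h1 _ h3 _ ih => exact .exist h1 (h _ .refl) h3 (ih fun y hy => h y (.head h3 hy))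
  | all h1 h2 _ _ ih =>
    exact .all h1 h2 (h _ .refl) fun x' hx' => ih x' hx' fun y hy => h y (.head hx' hy)

/-- The set of pairs (state, counter) from which the suffix `y` is accepted within `b`. -/
def ACA.prof (M : ACA k) (b : ℕ → Prop) (y : List (Fin k)) : Set (M.Q × ℕ) :=
  {p | M.Acc b (p.1, y, p.2)}

theorem ACA.prof_cons {M : ACA k} {b : ℕ → Prop} {y y' : List (Fin k)} (a : Fin k)
    (h : M.prof b y ⊆ M.prof b y') : M.prof b (a :: y) ⊆ M.prof b (a :: y') := by
  rintro ⟨q, c⟩ hp
  have key : ∀ x : M.Cfg, M.Acc b x → x.2.1 = a :: y → M.Acc b (x.1, a :: y', x.2.2) := by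
    intro x hx
    induction hx with
    | @final x h1 h2 => exact fun _ => .final h1 h2
    | @exist x x' h1 h2 h3 h4 ih =>
      intro hxy
      obtain ⟨hf, m, d, htr, hd, hm⟩ := h3
      rcases hm with ⟨hm, hs⟩ | ⟨hm, a', hs⟩
      · refine .exist h1 h2 (x' := (x'.1, a :: y', x'.2.2)) ⟨hf, m, d, ?_, hd, Or.inl ⟨hm, rfl⟩⟩
          (ih (by rw [hs, hxy]))
        simpa [hxy] using htr
      · have e : x'.2.1 = y := by
          rw [hxy] at hs; injection hs with _ h; exact h.symm
        refine .exist h1 h2 (x' := (x'.1, y', x'.2.2)) ⟨hf, m, d, ?_, hd, Or.inr ⟨hm, a, rfl⟩⟩ ?_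
        · simpa [hxy] using htr
        · have : (x'.1, x'.2.2) ∈ M.prof b y := by
            show M.Acc b (x'.1, y, x'.2.2)
            rw [← e]; exact h4
          exact h this
    | @all x h1 h2 h3 h4 ih =>
      intro hxy
      refine .all h1 h2 h3 ?_
      rintro ⟨q', z, c'⟩ ⟨hf, m, d, htr, hd, hm⟩
      rcases hm with ⟨hm, hs⟩ | ⟨hm, a', hs⟩
      · simp only at hs
        subst hs
        refine ih (q', a :: y, c') ⟨hf, m, d, ?_, hd, Or.inl ⟨hm, hxy.symm⟩⟩ rfl
        simpa [hxy] using htr
      · simp only [List.cons.injEq] at hs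
        obtain ⟨_, hs⟩ := hs
        subst hs
        have := h4 (q', y, c') ⟨hf, m, d, by simpa [hxy] using htr, hd, Or.inr ⟨hm, a, hxy⟩⟩
        exact h (show (q', c') ∈ M.prof b y from this)
  exact key (q, a :: y, c) hp rfl

theorem ACA.prof_append {M : ACA k} {b : ℕ → Prop} {y y' : List (Fin k)} (x : List (Fin k))
    (h : M.prof b y = M.prof b y') : M.prof b (x ++ y) = M.prof b (x ++ y') := by
  induction x with
  | nil => exact h
  | cons a x ih =>
    exact Set.Subset.antisymm (ACA.prof_cons a ih.le) (ACA.prof_cons a ih.ge)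

/-- The language accepted within the bound `b`. -/
def ACA.langB (M : ACA k) (b : ℕ → Prop) : Language (Fin k) := {w | M.Acc b (M.start, w, 0)}

theorem ACA.mem_langB_iff {M : ACA k} {b : ℕ → Prop} {w : List (Fin k)} :
    w ∈ M.langB b ↔ (M.start, 0) ∈ M.prof b w := Iff.rfl

/-- The bounded profile as a subset of a finite type. -/
def ACA.profF (M : ACA k) (h : ℕ) (y : List (Fin k)) : Set (M.Q × Fin (h + 1)) :=
  {p | M.Acc (· ≤ h) (p.1, y, (p.2 : ℕ))}

theorem ACA.prof_eq_of_profF {M : ACA k} {h : ℕ} {y y' : List (Fin k)}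
    (e : M.profF h y = M.profF h y') : M.prof (· ≤ h) y = M.prof (· ≤ h) y' := by
  ext ⟨q, c⟩
  constructor
  · intro hp
    have hc : c ≤ h := ACA.Acc.bound hp
    have : (q, (⟨c, by omega⟩ : Fin (h + 1))) ∈ M.profF h y := hp
    rw [e] at this
    exact this
  · intro hp
    have hc : c ≤ h := ACA.Acc.bound hp
    have : (q, (⟨c, by omega⟩ : Fin (h + 1))) ∈ M.profF h y' := hp
    rw [← e] at this
    exact this

/-- Acceptance within a constant counter bound is regular. -/
theorem ACA.isRegular_langB (M : ACA k) (h : ℕ) : (M.langB (· ≤ h)).IsRegular := by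
  have := M.fin
  rw [← Language.isRegular_reverse_iff]
  apply Language.IsRegular.of_finite_range_leftQuotient
  -- the left quotient by `x` depends only on the profile of `x.reverse`
  have hfac : ∃ F : Set (M.Q × Fin (h + 1)) → Language (Fin k),
      ∀ x, (M.langB (· ≤ h)).reverse.leftQuotient x = F (M.profF h x.reverse) := by
    classical
    refine ⟨fun S => {y | ∃ x : List (Fin k), M.profF h x.reverse = S ∧
      y ∈ (M.langB (· ≤ h)).reverse.leftQuotient x}, ?_⟩
    intro x
    ext y
    constructor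
    · intro hy
      exact ⟨x, rfl, hy⟩
    · rintro ⟨x', e, hy⟩
      have e' := ACA.prof_eq_of_profF e
      rw [Language.mem_leftQuotient, Language.mem_reverse, List.reverse_append,
        ACA.mem_langB_iff] at hy ⊢
      rw [← ACA.prof_append y.reverse e']
      exact hy
  obtain ⟨F, hF⟩ := hfac
  refine (Set.finite_range F).subset ?_
  rintro _ ⟨x, rfl⟩
  exact ⟨_, (hF x).symm⟩

/-! ### Climbing and pumping -/

/-- A step between configurations with counter values at least `l`. -/
def ACA.StepGe (M : ACA k) (l : ℕ) (x x' : M.Cfg) : Prop := M.Step x x' ∧ l ≤ x.2.2 ∧ l ≤ x'.2.2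

theorem ACA.Step.counter_le {M : ACA k} {x x' : M.Cfg} (h : M.Step x x') :
    x'.2.2 ≤ x.2.2 + 1 := by
  obtain ⟨_, m, d, htr, hd, _⟩ := h
  have := M.tr_small htr
  omega

theorem ACA.StepGe.mono {M : ACA k} {l l' : ℕ} (hl : l' ≤ l) {x x' : M.Cfg}
    (h : Relation.ReflTransGen (M.StepGe l) x x') : Relation.ReflTransGen (M.StepGe l') x x' :=
  Relation.ReflTransGen.mono (r := M.StepGe l) (p := M.StepGe l')
    (fun _ _ hs => ⟨hs.1, hl.trans hs.2.1, hl.trans hs.2.2⟩) _ _ h

theorem ACA.reachGe_zero {M : ACA k} {x x' : M.Cfg} (h : Relation.ReflTransGen M.Step x x') :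
    Relation.ReflTransGen (M.StepGe 0) x x' :=
  Relation.ReflTransGen.mono (r := M.Step) (p := M.StepGe 0)
    (fun _ _ hs => ⟨hs, Nat.zero_le _, Nat.zero_le _⟩) _ _ h

/-- The last visit of level `l`. -/
theorem ACA.last_visit {M : ACA k} {m l : ℕ} {x x' : M.Cfg}
    (h : Relation.ReflTransGen (M.StepGe m) x x') (h1 : x.2.2 ≤ l) (h2 : l ≤ x'.2.2) :
    ∃ z : M.Cfg, Relation.ReflTransGen (M.StepGe m) x z ∧ z.2.2 = l ∧
      Relation.ReflTransGen (M.StepGe l) z x' := by
  induction h with
  | refl => exact ⟨x, .refl, le_antisymm h1 h2, .refl⟩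
  | @tail y x' hxy hyx ih =>
    by_cases hly : l ≤ y.2.2
    · obtain ⟨z, hz1, hz2, hz3⟩ := ih hly
      exact ⟨z, hz1, hz2, hz3.tail ⟨hyx.1, hly, h2⟩⟩
    · refine ⟨x', hxy.tail hyx, ?_, .refl⟩
      have := hyx.1.counter_le
      omega

theorem ACA.chain {M : ACA k} {x0 p : M.Cfg} (h0 : x0.2.2 = 0)
    (h : Relation.ReflTransGen M.Step x0 p) (n : ℕ) (hn : n ≤ p.2.2) :
    ∃ f : ℕ → M.Cfg, ∀ l ≤ n, (f l).2.2 = l ∧ Relation.ReflTransGen (M.StepGe 0) x0 (f l) ∧
      Relation.ReflTransGen (M.StepGe l) (f l) p ∧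
      ∀ l', l < l' → l' ≤ n → Relation.ReflTransGen (M.StepGe l) (f l) (f l') := by
  classical
  induction n with
  | zero =>
    obtain ⟨z, hz1, hz2, hz3⟩ := ACA.last_visit (ACA.reachGe_zero h) (l := 0) (by omega) (by omega)
    refine ⟨fun _ => z, fun l hl => ?_⟩
    obtain rfl : l = 0 := by omega
    exact ⟨hz2, hz1, hz3, fun l' h1 h2 => by omega⟩
  | succ n ih =>
    obtain ⟨f, hf⟩ := ih (by omega)
    obtain ⟨hn1, hn2, hn3, -⟩ := hf n le_rfl
    obtain ⟨z, hz1, hz2, hz3⟩ := ACA.last_visit hn3 (l := n + 1) (by omega) hn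
    refine ⟨Function.update f (n + 1) z, fun l hl => ?_⟩
    rcases Nat.lt_or_ge l (n + 1) with hln | hln
    · obtain ⟨g1, g2, g3, g4⟩ := hf l (by omega)
      rw [Function.update_of_ne (by omega)]
      refine ⟨g1, g2, g3, fun l' h1 h2 => ?_⟩
      rcases Nat.lt_or_ge l' (n + 1) with hln' | hln'
      · rw [Function.update_of_ne (by omega)]
        exact g4 l' h1 (by omega)
      · obtain rfl : l' = n + 1 := by omega
        rw [Function.update_self]
        rcases Nat.lt_or_ge l n with h3 | h3
        · exact (g4 n h3 le_rfl).trans (ACA.StepGe.mono (by omega) hz1)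
        · obtain rfl : l = n := by omega
          exact hz1
    · obtain rfl : l = n + 1 := by omega
      rw [Function.update_self]
      exact ⟨hz2, hn2.trans (ACA.StepGe.mono (by omega) hz1), hz3, fun l' h1 h2 => by omega⟩

theorem ACA.suffix {M : ACA k} {m : ℕ} {x x' : M.Cfg}
    (h : Relation.ReflTransGen (M.StepGe m) x x') : ∃ v, x.2.1 = v ++ x'.2.1 := by
  induction h with
  | refl => exact ⟨[], rfl⟩
  | @tail y z _ hyz ih =>
    obtain ⟨v, hv⟩ := ih
    obtain ⟨⟨_, m, d, _, _, hm⟩, _⟩ := hyz
    rcases hm with ⟨_, hs⟩ | ⟨_, a, hs⟩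
    · exact ⟨v, by rw [hs]; exact hv⟩
    · exact ⟨v ++ [a], by rw [hv, hs]; simp⟩

/-- Changing the unread context and shifting the counter. -/
theorem ACA.ctx {M : ACA k} {l : ℕ} {x x' : M.Cfg} (h : Relation.ReflTransGen (M.StepGe l) x x')
    (t : ℕ) (ht : 1 ≤ l ∨ t = 0) {z' : List (Fin k)} (hz : z'.head? = x'.2.1.head?) :
    ∀ v, x.2.1 = v ++ x'.2.1 →
      Relation.ReflTransGen M.Step (x.1, v ++ z', x.2.2 + t) (x'.1, z', x'.2.2 + t) := by
  induction h using Relation.ReflTransGen.head_induction_on with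
  | refl =>
    intro v hv
    have : v = [] := by
      have := congrArg List.length hv
      simp only [List.length_append] at this
      exact List.length_eq_zero_iff.mp (by omega)
    subst this
    exact .refl
  | @head x x1 hstep hrest ih =>
    intro v hv
    obtain ⟨v1, hv1⟩ := ACA.suffix hrest
    obtain ⟨⟨hf, m, d, htr, hd, hm⟩, hl1, hl2⟩ := hstep
    have hhead : (v ++ z').head? = x.2.1.head? := by
      rw [hv]
      cases v with
      | nil => simpa using hz
      | cons a v => simp
    have hzero : decide (x.2.2 + t = 0) = decide (x.2.2 = 0) := by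
      rcases ht with ht | ht
      · have h1 : x.2.2 ≠ 0 := by omega
        simp [h1]
      · simp [ht]
    rcases hm with ⟨hm, hs⟩ | ⟨hm, a, hs⟩
    · refine .head (b := (x1.1, v ++ z', x1.2.2 + t))
        ⟨hf, m, d, ?_, ?_, Or.inl ⟨hm, rfl⟩⟩ (ih v (by rw [hs, hv]))
      · simp only
        rw [hhead, hzero]
        exact htr
      · push_cast
        omega
    · have hv' : v = a :: v1 := by
        have : v ++ x'.2.1 = (a :: v1) ++ x'.2.1 := by
          rw [← hv, hs, hv1]; rfl
        exact List.append_cancel_right this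
      subst hv'
      refine .head (b := (x1.1, v1 ++ z', x1.2.2 + t))
        ⟨hf, m, d, ?_, ?_, Or.inr ⟨hm, a, rfl⟩⟩ (ih v1 hv1)
      · simp only
        rw [hhead, hzero]
        exact htr
      · push_cast
        omega

/-- The `i`-th power of a word. -/
def pw (v : List (Fin k)) (i : ℕ) : List (Fin k) := (List.replicate i v).flatten

theorem pw_zero (v : List (Fin k)) : pw v 0 = [] := rfl

theorem pw_succ (v : List (Fin k)) (i : ℕ) : pw v (i + 1) = v ++ pw v i := by
  simp [pw, List.replicate_succ]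

theorem length_pw (v : List (Fin k)) (i : ℕ) : (pw v i).length = i * v.length := by
  simp [pw]

theorem ACA.pump {M : ACA k} {q : M.Q} {v z : List (Fin k)} {l d : ℕ} (hl : 1 ≤ l)
    (h : Relation.ReflTransGen (M.StepGe l) (q, v ++ z, l) (q, z, l + d))
    (hh : (v ++ z).head? = z.head?) (i : ℕ) :
    ∀ (t : ℕ) (z' : List (Fin k)), z'.head? = z.head? →
      Relation.ReflTransGen M.Step (q, pw v i ++ z', l + t) (q, z', l + t + i * d) := by
  induction i with
  | zero =>
    intro t z' _
    simp only [pw_zero, List.nil_append, Nat.zero_mul, Nat.add_zero]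
    exact .refl
  | succ i ih =>
    intro t z' hz'
    have h1 : (pw v i ++ z').head? = z.head? := by
      cases i with
      | zero => simpa [pw_zero] using hz'
      | succ i =>
        rw [pw_succ]
        cases v with
        | nil =>
          have : pw ([] : List (Fin k)) i = [] := by
            apply List.length_eq_zero_iff.mp
            rw [length_pw]; simp
          simpa [this] using hz'
        | cons a v => simpa using hh
    have h2 := ACA.ctx h t (Or.inl hl) h1 v rfl
    have h3 := ih (t + d) z' hz'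
    rw [pw_succ, List.append_assoc]
    refine h2.trans ?_
    simp only
    have e1 : l + d + t = l + (t + d) := by ring
    have e2 : l + t + (i + 1) * d = l + (t + d) + i * d := by ring
    rw [e1, e2]
    exact h3

theorem ACA.exists_pump (M : ACA k) : ∃ N : ℕ, ∀ (w : List (Fin k)) (x : M.Cfg), M.Occurs w x →
    N ≤ x.2.2 → ∃ (u v z : List (Fin k)) (q : M.Q) (l d : ℕ), w = u ++ (v ++ z) ∧ 1 ≤ d ∧
      (v ++ z).head? = z.head? ∧
      ∀ (i : ℕ) (z' : List (Fin k)), z'.head? = z.head? →
        M.Occurs (u ++ (pw v i ++ z')) (q, z', l + i * d) := by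
  have := M.fin
  have := Fintype.ofFinite M.Q
  refine ⟨Fintype.card (M.Q × Option (Fin k)) + 1, fun w x hx hN => ?_⟩
  obtain ⟨f, hf⟩ := ACA.chain (x0 := (M.start, w, 0)) rfl hx _ hN
  set N := Fintype.card (M.Q × Option (Fin k)) with hNdef
  have hcard : Fintype.card (M.Q × Option (Fin k)) < Fintype.card (Fin (N + 1)) := by
    rw [Fintype.card_fin]; omega
  obtain ⟨i, j, hij, he⟩ := Fintype.exists_ne_map_eq_of_card_lt
    (fun i : Fin (N + 1) => ((f (i + 1)).1, (f (i + 1)).2.1.head?)) hcard
  wlog hlt : (i : ℕ) < j generalizing i j with H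
  · exact H j i hij.symm he.symm (by
      have : (i : ℕ) ≠ j := fun h => hij (Fin.ext h)
      omega)
  have hi := i.isLt
  have hj := j.isLt
  obtain ⟨a1, a2, a3, a4⟩ := hf (i + 1) (by omega)
  obtain ⟨b1, b2, b3, b4⟩ := hf (j + 1) (by omega)
  have hseg := a4 (j + 1) (by omega) (by omega)
  obtain ⟨v, hv⟩ := ACA.suffix hseg
  obtain ⟨u, hu⟩ := ACA.suffix a2
  simp only [Prod.mk.injEq] at he
  obtain ⟨he1, he2⟩ := he
  have e1 : f (i + 1) = ((f (i + 1)).1, v ++ (f (j + 1)).2.1, (i : ℕ) + 1) :=
    Prod.ext rfl (Prod.ext hv a1)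
  have hd : ∃ d, 1 ≤ d ∧ (j : ℕ) + 1 = (i : ℕ) + 1 + d := ⟨j - i, by omega, by omega⟩
  obtain ⟨d, hd1, hd2⟩ := hd
  have e2 : f (j + 1) = ((f (i + 1)).1, (f (j + 1)).2.1, (i : ℕ) + 1 + d) :=
    Prod.ext he1.symm (Prod.ext rfl (b1.trans hd2))
  have hh : (v ++ (f (j + 1)).2.1).head? = (f (j + 1)).2.1.head? := by
    rw [← hv]; exact he2
  rw [e2, e1] at hseg
  simp only at hseg
  refine ⟨u, v, (f (j + 1)).2.1, (f (i + 1)).1, i + 1, d, ?_, hd1, hh, ?_⟩
  · rw [← hv]; exact hu
  · intro n z' hz'
    have h1 : (pw v n ++ z').head? = (f (i + 1)).2.1.head? := by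
      rw [hv]
      cases n with
      | zero => rw [pw_zero, List.nil_append, hz', hh]
      | succ n =>
        rw [pw_succ]
        cases v with
        | nil =>
          have : pw ([] : List (Fin k)) n = [] := by
            apply List.length_eq_zero_iff.mp
            rw [length_pw]; simp
          simpa [this] using hz'
        | cons a v => simp
    have h2 := ACA.ctx a2 0 (Or.inr rfl) h1 u hu
    have h3 := ACA.pump (Nat.le_add_left 1 _) hseg hh n 0 z' hz'
    simp only [Nat.add_zero] at h2 h3
    rw [a1] at h2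
    exact h2.trans h3

/-! ### Lower bounds -/

theorem isRegular_of_bounded {L : Language (Fin k)} {B : ℕ} (h : ∀ w ∈ L, w.length ≤ B) :
    L.IsRegular := by
  classical
  apply Language.IsRegular.of_finite_range_leftQuotient
  have hfin : {x : List (Fin k) | x.length ≤ B}.Finite := List.finite_length_le _ _
  refine ((hfin.image L.leftQuotient).union (Set.finite_singleton (0 : Language (Fin k)))).subset
    ?_
  rintro _ ⟨x, rfl⟩
  by_cases hx : x.length ≤ B
  · exact Or.inl ⟨x, hx, rfl⟩
  · refine Or.inr ?_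
    rw [Set.mem_singleton_iff]
    ext y
    refine ⟨fun hy => ?_, fun hy => absurd hy (Language.notMem_zero y)⟩
    have := h _ ((Language.mem_leftQuotient _ _).mp hy)
    rw [List.length_append] at this
    omega

theorem ACA.lang_eq_langB {M : ACA k} {N : ℕ}
    (h : ∀ w ∈ M.lang, ∀ x, M.Occurs w x → x.2.2 < N) : M.lang = M.langB (· ≤ N) := by
  ext w
  constructor
  · intro hw
    exact ACA.Acc.of_reach hw fun y hy => (h w hw y hy).le
  · intro hw
    exact ACA.Acc.mono (fun _ _ => trivial) hw

/-- No function of order `o(n)` grows linearly along an arithmetic progression. -/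
theorem not_littleO {t : ℕ → ℝ} (ht : t =o[atTop] fun n : ℕ => (n : ℝ)) {A B : ℕ}
    (h : ∀ i : ℕ, (i : ℝ) ≤ t (A + i * B)) : False := by
  rcases Nat.eq_zero_or_pos B with rfl | hB
  · obtain ⟨i, hi⟩ := exists_nat_gt (t A)
    have := h i
    simp only [Nat.mul_zero, Nat.add_zero] at this
    linarith
  · have hB' : (0 : ℝ) < B := by exact_mod_cast hB
    have h1 := ht.def (c := 1 / (2 * B)) (by positivity)
    rw [eventually_atTop] at h1
    obtain ⟨n0, hn0⟩ := h1
    have h2 := hn0 (A + (n0 + A + 1) * B) (by nlinarith)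
    have h3 := h (n0 + A + 1)
    have h4 := (le_abs_self _).trans h2
    rw [Real.norm_of_nonneg (by positivity)] at h4
    have h5 : ((n0 + A + 1 : ℕ) : ℝ) ≤ 1 / (2 * B) * ((A + (n0 + A + 1) * B : ℕ) : ℝ) :=
      h3.trans h4
    push_cast at h5
    have h6 : ((n0 : ℝ) + A + 1) * (2 * B) ≤ A + (n0 + A + 1) * B := by
      have := mul_le_mul_of_nonneg_right h5 (by positivity : (0 : ℝ) ≤ 2 * B)
      calc ((n0 : ℝ) + A + 1) * (2 * B) ≤ 1 / (2 * B) * (A + (n0 + A + 1) * B) * (2 * B) := this
        _ = A + (n0 + A + 1) * B := by field_simp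
    have h7 : (1 : ℝ) ≤ B := by exact_mod_cast hB
    have h8 : (0 : ℝ) ≤ n0 := Nat.cast_nonneg _
    have h9 : (0 : ℝ) ≤ A := Nat.cast_nonneg _
    nlinarith

theorem ACA.strong_lower (M : ACA k) {t : ℕ → ℝ} (ht : t =o[atTop] fun n : ℕ => (n : ℝ))
    (hs : M.InSpace t .strong) : M.lang.IsRegular := by
  obtain ⟨N, hN⟩ := M.exists_pump
  by_cases hb : ∀ w x, M.Occurs w x → x.2.2 < N
  · rw [ACA.lang_eq_langB fun w _ => hb w]
    exact M.isRegular_langB N
  · exfalso
    push Not at hb
    obtain ⟨w, x, hx, hxN⟩ := hb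
    obtain ⟨u, v, z, q, l, d, -, hd, -, hp⟩ := hN w x hx hxN
    refine not_littleO ht (A := u.length + z.length) (B := v.length) fun i => ?_
    have h1 := hs _ _ (hp i z rfl)
    have h2 : (u ++ (pw v i ++ z)).length = u.length + z.length + i * v.length := by
      simp only [List.length_append, length_pw]; ring
    rw [h2] at h1
    refine le_trans ?_ h1
    simp only
    have : i ≤ l + i * d := by nlinarith
    exact_mod_cast this

theorem unary_ext {x y : List (Fin 1)} (h : x.length = y.length) : x = y :=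
  List.ext_getElem h fun _ _ _ => Subsingleton.elim _ _

theorem ACA.middle_unary_lower (M : ACA 1) {t : ℕ → ℝ} (ht : t =o[atTop] fun n : ℕ => (n : ℝ))
    (hs : M.InSpace t .middle) : M.lang.IsRegular := by
  by_contra hreg
  obtain ⟨N, hN⟩ := M.exists_pump
  by_cases hb : ∀ w ∈ M.lang, ∀ x, M.Occurs w x → x.2.2 < N
  · rw [ACA.lang_eq_langB hb] at hreg
    exact hreg (M.isRegular_langB N)
  · push Not at hb
    obtain ⟨w, hw, x, hx, hxN⟩ := hb
    obtain ⟨u, v, z, q, l, d, hwu, hd, hh, hp⟩ := hN w x hx hxN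
    have hpow : ∀ i : ℕ, i ≤ l + i * d := fun i => by nlinarith
    rcases Nat.eq_zero_or_pos v.length with hv | hv
    · -- the counter is unbounded on the accepted word `w`
      have hv' : v = [] := List.length_eq_zero_iff.mp hv
      subst hv'
      obtain ⟨i, hi⟩ := exists_nat_gt (t w.length)
      have h1 := hp i z rfl
      have h2 : pw ([] : List (Fin 1)) i = [] := by
        apply List.length_eq_zero_iff.mp
        rw [length_pw]; simp
      rw [h2] at h1
      have h3 := hs w hw _ (hwu ▸ h1)
      have h4 : (i : ℝ) ≤ ((l + i * d : ℕ) : ℝ) := by exact_mod_cast hpow i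
      simp only at h3
      linarith
    · have hzne : z ≠ [] := by
        rintro rfl
        cases v with
        | nil => simp at hv
        | cons a v => simp at hh
      have hvR : (0 : ℝ) < v.length := by exact_mod_cast hv
      have h1 := ht.def (c := 1 / (4 * v.length)) (by positivity)
      rw [eventually_atTop] at h1
      obtain ⟨n0, hn0⟩ := h1
      -- a long accepted word
      have hlong : ∃ w' ∈ M.lang, n0 + 2 * (u.length + v.length + 1) < w'.length := by
        by_contra hcon
        push Not at hcon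
        exact hreg (isRegular_of_bounded hcon)
      obtain ⟨w', hw', hlen⟩ := hlong
      set n := w'.length with hn
      set i := (n - u.length - 1) / v.length with hi
      have hi1 : i * v.length ≤ n - u.length - 1 := Nat.div_mul_le_self _ _
      have hi2 : n - u.length - 1 < (i + 1) * v.length := by
        have := Nat.lt_div_mul_add (a := n - u.length - 1) hv
        rw [← hi] at this
        linarith
      have hsplit : w' = u ++ (pw v i ++ List.replicate (n - u.length - i * v.length) 0) := by
        apply unary_ext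
        simp only [List.length_append, length_pw, List.length_replicate]
        omega
      have hhead : (List.replicate (n - u.length - i * v.length) (0 : Fin 1)).head? = z.head? := by
        obtain ⟨a, z', rfl⟩ := List.exists_cons_of_ne_nil hzne
        have hpos : n - u.length - i * v.length ≠ 0 := by omega
        obtain ⟨m, hm⟩ := Nat.exists_eq_succ_of_ne_zero hpos
        rw [hm, List.replicate_succ]
        simp only [List.head?_cons]
        rw [Subsingleton.elim a 0]
      have h2 := hp i _ hhead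
      rw [← hsplit] at h2
      have h3 := hs w' hw' _ h2
      simp only at h3
      have h4 : (i : ℝ) ≤ ((l + i * d : ℕ) : ℝ) := by exact_mod_cast hpow i
      have h5 := (le_abs_self _).trans (hn0 n (by omega))
      rw [Real.norm_of_nonneg (by positivity)] at h5
      have h6 : (i : ℝ) ≤ 1 / (4 * v.length) * n := by
        have := h4.trans (h3.trans h5)
        exact this
      have h7 : (n : ℝ) < (i + 1) * v.length + u.length + 1 := by
        have : n < (i + 1) * v.length + u.length + 1 := by omega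
        exact_mod_cast this
      have h8 : (i : ℝ) * v.length ≤ n / 4 := by
        have := mul_le_mul_of_nonneg_right h6 hvR.le
        calc (i : ℝ) * v.length ≤ 1 / (4 * v.length) * n * v.length := this
          _ = n / 4 := by field_simp
      have h9 : (n0 : ℝ) + 2 * (u.length + v.length + 1) < n := by exact_mod_cast hlen
      have h10 : (0 : ℝ) ≤ n0 := Nat.cast_nonneg _
      have h11 : (0 : ℝ) ≤ u.length := Nat.cast_nonneg _
      nlinarith

theorem ACA.middle_le_weak {M : ACA k} {t : ℕ → ℝ} (hs : M.InSpace t .middle) :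
    M.InSpace t .weak :=
  fun w hw => ACA.Acc.of_reach hw fun y hy => hs w hw y hy

theorem ACA.strong_le_middle {M : ACA k} {t : ℕ → ℝ} (hs : M.InSpace t .strong) :
    M.InSpace t .middle :=
  fun w _ => hs w

/-- A shortest word of `L_{h+1} \ L_h` is short. -/
theorem ACA.short_witness (M : ACA k) (h : ℕ) {w : List (Fin k)}
    (h1 : w ∈ M.langB (· ≤ h + 1)) (h2 : w ∉ M.langB (· ≤ h))
    (hmin : ∀ w', w' ∈ M.langB (· ≤ h + 1) → w' ∉ M.langB (· ≤ h) → w.length ≤ w'.length) :
    w.length < 2 ^ (2 * (Nat.card M.Q * (h + 2))) := by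
  classical
  have := M.fin
  have := Fintype.ofFinite M.Q
  by_contra hcon
  push Not at hcon
  let F : Fin (w.length + 1) → Set (M.Q × Fin (h + 2)) × Set (M.Q × Fin (h + 2)) :=
    fun i => (M.profF (h + 1) (w.drop i),
      {p | M.Acc (· ≤ h) (p.1, w.drop i, (p.2 : ℕ))})
  have hcard : Fintype.card (Set (M.Q × Fin (h + 2)) × Set (M.Q × Fin (h + 2))) <
      Fintype.card (Fin (w.length + 1)) := by
    rw [Fintype.card_prod, Fintype.card_set, Fintype.card_prod, Fintype.card_fin, Fintype.card_fin,
      ← pow_add, ← Nat.card_eq_fintype_card, ← two_mul]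
    omega
  obtain ⟨i, j, hij, he⟩ := Fintype.exists_ne_map_eq_of_card_lt F hcard
  wlog hlt : (i : ℕ) < j generalizing i j with H
  · exact H j i hij.symm he.symm (by
      have : (i : ℕ) ≠ j := fun h => hij (Fin.ext h)
      omega)
  have hj := j.isLt
  simp only [F, Prod.mk.injEq] at he
  obtain ⟨he1, he2⟩ := he
  have e1 : M.prof (· ≤ h + 1) (w.drop i) = M.prof (· ≤ h + 1) (w.drop j) :=
    ACA.prof_eq_of_profF he1
  have e2 : M.prof (· ≤ h) (w.drop i) = M.prof (· ≤ h) (w.drop j) := by
    ext ⟨q, c⟩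
    constructor
    · intro hp
      have hc : c ≤ h := ACA.Acc.bound hp
      have : (q, (⟨c, by omega⟩ : Fin (h + 2))) ∈
          {p : M.Q × Fin (h + 2) | M.Acc (· ≤ h) (p.1, w.drop i, (p.2 : ℕ))} := hp
      rw [he2] at this
      exact this
    · intro hp
      have hc : c ≤ h := ACA.Acc.bound hp
      have : (q, (⟨c, by omega⟩ : Fin (h + 2))) ∈
          {p : M.Q × Fin (h + 2) | M.Acc (· ≤ h) (p.1, w.drop j, (p.2 : ℕ))} := hp
      rw [← he2] at this
      exact this
  have f1 := ACA.prof_append (w.take i) e1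
  have f2 := ACA.prof_append (w.take i) e2
  rw [List.take_append_drop] at f1 f2
  have g1 : w.take i ++ w.drop j ∈ M.langB (· ≤ h + 1) := by
    rw [ACA.mem_langB_iff, ← f1]; exact h1
  have g2 : w.take i ++ w.drop j ∉ M.langB (· ≤ h) := by
    rw [ACA.mem_langB_iff, ← f2]; exact h2
  have := hmin _ g1 g2
  rw [List.length_append, List.length_take, List.length_drop] at this
  omega

theorem ACA.weak_lower (M : ACA k) {t : ℕ → ℝ} (ht : t =o[atTop] fun n : ℕ => Real.log n)
    (hs : M.InSpace t .weak) : M.lang.IsRegular := by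
  by_contra hreg
  have := M.fin
  have hQ : 0 < Nat.card M.Q := by
    have : Nonempty M.Q := ⟨M.start⟩
    exact Nat.card_pos
  have hQR : (0 : ℝ) < Nat.card M.Q := by exact_mod_cast hQ
  -- infinitely many levels `h` where the bounded languages differ
  have hdiff : ∀ h0 : ℕ, ∃ h ≥ h0, ∃ w, w ∈ M.langB (· ≤ h + 1) ∧ w ∉ M.langB (· ≤ h) := by
    intro h0
    by_contra hcon
    push Not at hcon
    have hstab : ∀ j, ∀ w, w ∈ M.langB (· ≤ h0 + j) → w ∈ M.langB (· ≤ h0) := by
      intro j
      induction j with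
      | zero => exact fun w hw => hw
      | succ j ih => exact fun w hw => ih w (hcon (h0 + j) (by omega) w hw)
    have heq : M.lang = M.langB (· ≤ h0) := by
      ext w
      constructor
      · intro hw
        obtain ⟨j, hj⟩ := exists_nat_ge (t w.length)
        refine hstab j w (ACA.Acc.mono (fun c hc => ?_) (hs w hw))
        have : (c : ℝ) ≤ j := hc.trans hj
        have : c ≤ j := by exact_mod_cast this
        omega
      · intro hw
        exact ACA.Acc.mono (fun _ _ => trivial) hw
    exact hreg (heq ▸ M.isRegular_langB h0)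
  have h1 := ht.def (c := 1 / (8 * Nat.card M.Q)) (by positivity)
  rw [eventually_atTop] at h1
  obtain ⟨n0, hn0⟩ := h1
  -- a level above all values of `t` below `n0`
  obtain ⟨h0, hh0⟩ : ∃ h0 : ℕ, ∀ n < n0, t n ≤ h0 := by
    induction n0 with
    | zero => exact ⟨0, by simp⟩
    | succ n ih =>
      clear ih
      obtain ⟨j, hj⟩ := exists_nat_ge (∑ i ∈ Finset.range (n + 1), |t i|)
      refine ⟨j, fun m hm => (le_abs_self _).trans (le_trans ?_ hj)⟩
      exact Finset.single_le_sum (f := fun i => |t i|) (fun i _ => abs_nonneg _)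
        (Finset.mem_range.mpr hm)
  obtain ⟨h, hh, hex⟩ := hdiff (h0 + 1)
  -- a shortest witness
  classical
  have hmin : ∃ w, (w ∈ M.langB (· ≤ h + 1) ∧ w ∉ M.langB (· ≤ h)) ∧
      ∀ w', w' ∈ M.langB (· ≤ h + 1) → w' ∉ M.langB (· ≤ h) → w.length ≤ w'.length := by
    have hex' : ∃ n, ∃ w : List (Fin k), w.length = n ∧
        (w ∈ M.langB (· ≤ h + 1) ∧ w ∉ M.langB (· ≤ h)) := by
      obtain ⟨w, hw⟩ := hex
      exact ⟨_, w, rfl, hw⟩
    obtain ⟨w, hw1, hw2⟩ := Nat.find_spec hex'
    refine ⟨w, hw2, fun w' a b => ?_⟩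
    rw [hw1]
    exact Nat.find_min' hex' ⟨w', rfl, a, b⟩
  obtain ⟨w, ⟨hw1, hw2⟩, hw3⟩ := hmin
  have hlen := M.short_witness h hw1 hw2 hw3
  have hwL : w ∈ M.lang := ACA.Acc.mono (fun _ _ => trivial) hw1
  have hth : (h : ℝ) < t w.length := by
    by_contra hcon
    push Not at hcon
    exact hw2 (ACA.Acc.mono (fun c hc => by exact_mod_cast (hc.trans hcon)) (hs w hwL))
  have hwn0 : n0 ≤ w.length := by
    by_contra hcon
    push Not at hcon
    have := hh0 _ hcon
    have h5 : (h0 : ℝ) + 1 ≤ h := by exact_mod_cast hh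
    linarith
  have h2 := (le_abs_self _).trans (hn0 _ hwn0)
  have hpos : (0 : ℝ) < w.length ∨ w.length = 0 := by
    rcases Nat.eq_zero_or_pos w.length with h | h
    · exact Or.inr h
    · exact Or.inl (by exact_mod_cast h)
  have hlog : Real.log (w.length : ℝ) ≤ 2 * (Nat.card M.Q * ((h : ℝ) + 2)) := by
    rcases hpos with hpos | hpos
    · have h3 : (w.length : ℝ) ≤ 2 ^ (2 * (Nat.card M.Q * (h + 2))) := by
        exact_mod_cast hlen.le
      have h4 := Real.log_le_log hpos h3
      rw [Real.log_pow] at h4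
      push_cast at h4
      have h5 : Real.log 2 ≤ 1 := by
        have := Real.log_two_lt_d9
        linarith
      have h6 : (0 : ℝ) ≤ 2 * (Nat.card M.Q * ((h : ℝ) + 2)) := by positivity
      nlinarith
    · rw [hpos]
      simp only [Nat.cast_zero, Real.log_zero]
      positivity
  have hlog0 : 0 ≤ Real.log (w.length : ℝ) := Real.log_natCast_nonneg _
  rw [Real.norm_of_nonneg hlog0] at h2
  have h3 : (h : ℝ) < 1 / (8 * Nat.card M.Q) * (2 * (Nat.card M.Q * ((h : ℝ) + 2))) :=
    hth.trans_le (h2.trans (mul_le_mul_of_nonneg_left hlog (by positivity)))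
  have h4 : 1 / (8 * Nat.card M.Q) * (2 * (Nat.card M.Q * ((h : ℝ) + 2))) = ((h : ℝ) + 2) / 4 := by
    field_simp
    ring
  rw [h4] at h3
  have h5 : (h0 : ℝ) + 1 ≤ h := by exact_mod_cast hh
  have h6 : (0 : ℝ) ≤ h0 := Nat.cast_nonneg _
  linarith

end Pool.Agent.Q19.Aca
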