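import Pool.Agent.Q19.AcaUp

/-!
# Alternating one-way one-counter automata: evaluation of the two realtime automata, the table
-/

namespace Pool.Agent.Q19.Aca

open Filter Asymptotics

variable {k : ℕ} {un : Bool} {b : ℕ → Prop}

/-- Acceptance from the configuration with state `q`, unread part `y` and counter `c`. -/
def AccM (k : ℕ) (un : Bool) (b : ℕ → Prop) (q : St) (y : List (Fin k)) (c : ℕ) : Prop :=
  (mach k un).Acc b (q, y, c)

theorem accM_final {y : List (Fin k)} {c : ℕ} : AccM k un b .F y c ↔ b c := acc_final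

theorem accM_exist {q : St} {y : List (Fin k)} {c : ℕ} (hq : isUniv q = false)
    (hf : q ≠ .F) :
    AccM k un b q y c ↔ b c ∧ ∃ t ∈ next un q (sym y.head?) (decide (c = 0)),
      ∃ q' y' c', app y c t = some (q', y', c') ∧ AccM k un b q' y' c' := by
  unfold AccM
  rw [acc_exist hq hf]
  constructor
  · rintro ⟨h1, t, ht, x', h2, h3⟩
    exact ⟨h1, t, ht, x'.1, x'.2.1, x'.2.2, h2, h3⟩
  · rintro ⟨h1, t, ht, q', y', c', h2, h3⟩
    exact ⟨h1, t, ht, _, h2, h3⟩

theorem accM_all {q : St} {y : List (Fin k)} {c : ℕ} (hq : isUniv q = true)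
    (hf : q ≠ .F) :
    AccM k un b q y c ↔ b c ∧ ∀ t ∈ next un q (sym y.head?) (decide (c = 0)),
      ∀ q' y' c', app y c t = some (q', y', c') → AccM k un b q' y' c' := by
  unfold AccM
  rw [acc_all hq hf]
  constructor
  · rintro ⟨h1, h2⟩
    exact ⟨h1, fun t ht q' y' c' h => h2 t ht _ h⟩
  · rintro ⟨h1, h2⟩
    exact ⟨h1, fun t ht x' h => h2 t ht x'.1 x'.2.1 x'.2.2 h⟩

theorem sym_cons {a : Fin k} (ha : (a : ℕ) = 0) (y : List (Fin k)) :
    sym (a :: y).head? = .A := by simp [sym, ha]

theorem sym_cons' {a : Fin k} (ha : (a : ℕ) ≠ 0) (y : List (Fin k)) :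
    sym (a :: y).head? = .B := by simp [sym, ha]

theorem sym_nil : sym ([] : List (Fin k)).head? = .E := rfl

theorem acc_H10 {a : Fin k} (ha : (a : ℕ) = 0) (y : List (Fin k)) (i : ℕ) :
    AccM k un b .H10 (a :: y) i ↔ b i ∧ AccM k un b .B1 y i ∧
      AccM k un b .C0 y i := by
  rw [accM_all rfl (by decide), sym_cons ha]
  simp [next, app]

theorem acc_H01 {a : Fin k} (ha : (a : ℕ) = 0) (y : List (Fin k)) (i : ℕ) :
    AccM k un b .H01 (a :: y) i ↔ b i ∧ AccM k un b .B0 y i ∧
      AccM k un b .C1 y i := by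
  rw [accM_all rfl (by decide), sym_cons ha]
  simp [next, app]

theorem acc_H00 {a : Fin k} (ha : (a : ℕ) = 0) (y : List (Fin k)) (i : ℕ) :
    AccM k un b .H00 (a :: y) i ↔ b i ∧ AccM k un b .B0 y i ∧
      AccM k un b .C0 y i := by
  rw [accM_all rfl (by decide), sym_cons ha]
  simp [next, app]

theorem acc_H11 {a : Fin k} (ha : (a : ℕ) = 0) (y : List (Fin k)) (i : ℕ) :
    AccM k un b .H11 (a :: y) i ↔ b i ∧ AccM k un b .B1 y i ∧
      AccM k un b .C1 y i := by
  rw [accM_all rfl (by decide), sym_cons ha]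
  simp [next, app]

theorem acc_B1 {a : Fin k} (ha : (a : ℕ) = 0) (y : List (Fin k)) (i : ℕ) :
    AccM k un b .B1 (a :: y) i ↔ b i ∧
      ((AccM k un b .B1 y i ∧ AccM k un b .C0 y i) ∨
       (AccM k un b .B0 y i ∧ AccM k un b .C1 y i)) := by
  rw [accM_exist rfl (by decide), sym_cons ha]
  by_cases hbi : b i
  · simp [next, app, acc_H10 ha, acc_H01 ha, hbi]
  · simp [hbi]

theorem acc_B0 {a : Fin k} (ha : (a : ℕ) = 0) (y : List (Fin k)) (i : ℕ) :
    AccM k un b .B0 (a :: y) i ↔ b i ∧
      ((AccM k un b .B0 y i ∧ AccM k un b .C0 y i) ∨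
       (AccM k un b .B1 y i ∧ AccM k un b .C1 y i)) := by
  rw [accM_exist rfl (by decide), sym_cons ha]
  by_cases hbi : b i
  · simp [next, app, acc_H00 ha, acc_H11 ha, hbi]
  · simp [hbi]

theorem acc_C1_zero (y : List (Fin k)) :
    AccM k un b .C1 y 0 ↔ b 0 := by
  rw [accM_all rfl (by decide)]
  cases h : sym y.head? <;> simp [next, app, accM_final]

theorem acc_C0_zero (y : List (Fin k)) :
    ¬ AccM k un b .C0 y 0 := by
  rw [accM_exist rfl (by decide)]
  cases h : sym y.head? <;> simp [next]

theorem acc_C1_succ {a : Fin k} (ha : (a : ℕ) = 0) (y : List (Fin k)) (i : ℕ) :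
    AccM k un b .C1 (a :: y) (i + 1) ↔ b (i + 1) ∧ AccM k un b .C1 y i ∧
      AccM k un b .B1 y i := by
  rw [accM_all rfl (by decide), sym_cons ha]
  simp [next, app]

theorem acc_C0_succ {a : Fin k} (ha : (a : ℕ) = 0) (y : List (Fin k)) (i : ℕ) :
    AccM k un b .C0 (a :: y) (i + 1) ↔ b (i + 1) ∧ (AccM k un b .C0 y i ∨
      AccM k un b .B0 y i) := by
  rw [accM_exist rfl (by decide), sym_cons ha]
  simp [next, app]

theorem acc_B1_nil (i : ℕ) :
    AccM k un b .B1 [] i ↔ b i ∧ i ≠ 0 := by
  rw [accM_exist rfl (by decide), sym_nil]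
  by_cases h : i = 0 <;> simp [next, app, h, accM_final]

theorem acc_B0_nil (i : ℕ) :
    AccM k un b .B0 [] i ↔ b i ∧ i = 0 := by
  rw [accM_exist rfl (by decide), sym_nil]
  by_cases h : i = 0 <;> simp [next, app, h, accM_final]

theorem acc_T1 (y : List (Fin k)) (i : ℕ) :
    AccM k un b .T1 y i ↔ b i ∧ i = 0 := by
  rw [accM_exist rfl (by decide)]
  by_cases h : i = 0 <;> simp [next, app, h, accM_final]

theorem acc_T0 (y : List (Fin k)) (i : ℕ) :
    AccM k un b .T0 y i ↔ b i ∧ i ≠ 0 := by
  rw [accM_exist rfl (by decide)]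
  by_cases h : i = 0 <;> simp [next, app, h, accM_final]

theorem acc_C1_nil_succ (i : ℕ) :
    AccM k un b .C1 [] (i + 1) ↔ b (i + 1) ∧ b i ∧ i = 0 := by
  rw [accM_all rfl (by decide), sym_nil]
  simp [next, app, acc_T1]

theorem acc_C0_nil_succ (i : ℕ) :
    AccM k un b .C0 [] (i + 1) ↔ b (i + 1) ∧ b i ∧ i ≠ 0 := by
  rw [accM_exist rfl (by decide), sym_nil]
  simp [next, app, acc_T0]

theorem acc_X (y : List (Fin k)) (i : ℕ) : ¬ AccM k un b .X y i := by
  rw [accM_exist rfl (by decide)]
  simp [next]

theorem acc_E (y : List (Fin k)) (i : ℕ) :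
    AccM k un b .E y i ↔ b i ∧ (AccM k un b .C0 y i ∨
      AccM k un b .B1 y i) := by
  rw [accM_exist rfl (by decide)]
  simp [next, app]

theorem acc_G (y : List (Fin k)) (i : ℕ) :
    AccM k un b .G y i ↔ b i ∧ AccM k un b .C1 y i ∧
      AccM k un b .B0 y i ∧ AccM k un b .D y i := by
  rw [accM_all rfl (by decide)]
  simp [next, app]

theorem acc_D_nil (i : ℕ) : AccM k un b .D [] i ↔ b i := by
  rw [accM_all rfl (by decide), sym_nil]
  simp [next, app, accM_final]

theorem acc_D_cons {a : Fin k} (ha : (a : ℕ) = 0) (y : List (Fin k)) (i : ℕ) :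
    AccM k un b .D (a :: y) i ↔ b i ∧ AccM k un b .D y i ∧
      AccM k un b .E y i := by
  rw [accM_all rfl (by decide), sym_cons ha]
  simp [next, app]

theorem acc_D_cons' {a : Fin k} (ha : (a : ℕ) ≠ 0) (y : List (Fin k)) (i : ℕ) :
    ¬ AccM k un b .D (a :: y) i := by
  rw [accM_all rfl (by decide), sym_cons' ha]
  simp [next, app, acc_X]

/-- All letters are `0`. -/
def AllA (y : List (Fin k)) : Prop := ∀ a ∈ y, (a : ℕ) = 0

theorem prop_aux (B C : Prop) : ((¬ B ∧ ¬ C) ∨ (B ∧ C)) ↔ ¬ ((B ∧ ¬ C) ∨ (¬ B ∧ C)) := by tauto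

theorem eval {y : List (Fin k)} (hy : AllA y) : ∀ i : ℕ, (∀ j ≤ i, b j) →
    (AccM k un b .B1 y i ↔ bt i ((y.length : ℤ) - i)) ∧
    (AccM k un b .B0 y i ↔ ¬ bt i ((y.length : ℤ) - i)) ∧
    (AccM k un b .C1 y i ↔ ct i ((y.length : ℤ) - i)) ∧
    (AccM k un b .C0 y i ↔ ¬ ct i ((y.length : ℤ) - i)) := by
  induction y with
  | nil =>
    intro i hb
    have e : (([] : List (Fin k)).length : ℤ) - i = -i := by simp
    rw [e, acc_B1_nil, acc_B0_nil, bt_base, ct_base]
    have hbi := hb i le_rfl
    cases i with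
    | zero =>
      rw [acc_C1_zero]
      simp [acc_C0_zero, hbi]
    | succ j =>
      have hbj := hb j (by omega)
      rw [acc_C1_nil_succ, acc_C0_nil_succ]
      simp only [hbi, hbj, true_and]
      omega
  | cons a y ih =>
    intro i hb
    have ha : (a : ℕ) = 0 := hy a (List.mem_cons_self)
    have ih' := ih (fun c hc => hy c (List.mem_cons_of_mem _ hc))
    have hbi := hb i le_rfl
    have e : (((a :: y).length : ℕ) : ℤ) - i = ((y.length : ℤ) - i) + 1 := by
      rw [List.length_cons]; push_cast; ring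
    obtain ⟨h1, h2, h3, h4⟩ := ih' i hb
    rw [acc_B1 ha, acc_B0 ha, e, bt_step]
    rw [h1, h2, h3, h4, prop_aux]
    simp only [hbi, true_and]
    cases i with
    | zero =>
      rw [acc_C1_zero]
      have := ct_zero (((y.length : ℤ) - (0 : ℕ)) + 1)
      exact ⟨⟨fun _ => this, fun _ => hbi⟩, ⟨fun h => absurd h (acc_C0_zero _),
        fun h => absurd this h⟩⟩
    | succ j =>
      obtain ⟨g1, g2, g3, g4⟩ := ih' j fun j' hj' => hb j' (by omega)
      have e' : (y.length : ℤ) - ((j + 1 : ℕ) : ℤ) + 1 = (y.length : ℤ) - j := by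
        push_cast; ring
      rw [acc_C1_succ ha, acc_C0_succ ha, e', ct_succ, g1, g2, g3, g4, not_and_or]
      simp only [hbi, true_and]

theorem eval_D {y : List (Fin k)} (hy : AllA y) {i : ℕ} (hb : ∀ j ≤ i, b j) :
    AccM k un b .D y i ↔ ∀ m' < y.length, ¬ ct i ((m' : ℤ) - i) ∨ bt i ((m' : ℤ) - i) := by
  induction y with
  | nil =>
    rw [acc_D_nil]
    simp [hb i le_rfl]
  | cons a y ih =>
    have ha : (a : ℕ) = 0 := hy a (List.mem_cons_self)
    have hy' : AllA y := fun c hc => hy c (List.mem_cons_of_mem _ hc)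
    obtain ⟨h1, h2, h3, h4⟩ := eval (un := un) hy' i hb
    rw [acc_D_cons ha, acc_E, ih hy', h4, h1, List.length_cons]
    have hbi := hb i le_rfl
    simp only [hbi, true_and]
    constructor
    · rintro ⟨g1, g2⟩ m' hm'
      rcases Nat.lt_succ_iff_lt_or_eq.mp hm' with h | rfl
      · exact g1 m' h
      · exact g2
    · intro g
      exact ⟨fun m' hm' => g m' (by omega), g _ (by omega)⟩

theorem allA_of_D {y : List (Fin k)} {i : ℕ} (h : AccM k un b .D y i) : AllA y := by
  induction y with
  | nil => intro a ha; cases ha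
  | cons a y ih =>
    by_cases ha : (a : ℕ) = 0
    · rw [acc_D_cons ha] at h
      intro c hc
      rcases List.mem_cons.mp hc with rfl | hc
      · exact ha
      · exact ih h.2.1 c hc
    · exact absurd h (acc_D_cons' ha y i)

theorem eval_G {y : List (Fin k)} {i : ℕ} (hb : ∀ j ≤ i, b j) :
    AccM k un b .G y i ↔ AllA y ∧ y.length = 2 ^ i - 1 + i := by
  rw [acc_G]
  constructor
  · rintro ⟨_, h1, h2, h3⟩
    have hy := allA_of_D h3
    obtain ⟨g1, g2, g3, g4⟩ := eval (un := un) hy i hb
    exact ⟨hy, (chk_iff _ _).mp ⟨g3.mp h1, g2.mp h2, (eval_D hy hb).mp h3⟩⟩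
  · rintro ⟨hy, h⟩
    obtain ⟨g1, g2, g3, g4⟩ := eval (un := un) hy i hb
    obtain ⟨c1, c2, c3⟩ := (chk_iff _ _).mpr h
    exact ⟨hb i le_rfl, g3.mpr c1, g2.mpr c2, (eval_D hy hb).mpr c3⟩

/-! ### The unary automaton -/

theorem acc_PU_cons (a : Fin 1) (y : List (Fin 1)) (i : ℕ) :
    AccM 1 true b .P (a :: y) i ↔ b i ∧ (AccM 1 true b .P y (i + 1) ∨
      AccM 1 true b .G (a :: y) i) := by
  have ha : (a : ℕ) = 0 := by omega
  rw [accM_exist rfl (by decide), sym_cons ha]
  have e : ((i : ℤ) + 1).toNat = i + 1 := by omega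
  have e' : (0 : ℤ) ≤ (i : ℤ) + 1 := by omega
  simp [next, app, e, e']

theorem acc_PU_nil (i : ℕ) :
    AccM 1 true b .P [] i ↔ b i ∧ AccM 1 true b .G [] i := by
  rw [accM_exist rfl (by decide), sym_nil]
  simp [next, app]

/-- Lengths of the words of the unary language. -/
def fU (n : ℕ) : ℕ := 2 * n + 2 ^ n - 1

theorem allA_unary (y : List (Fin 1)) : AllA y := fun a _ => by omega

theorem acc_PU_sound {y : List (Fin 1)} {i : ℕ} (h : AccM 1 true (fun _ => True) .P y i) :
    ∃ n ≥ i, y.length + i = fU n := by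
  induction y generalizing i with
  | nil =>
    rw [acc_PU_nil, eval_G (fun _ _ => trivial)] at h
    refine ⟨i, le_rfl, ?_⟩
    have := h.2.2
    have h1 : 1 ≤ 2 ^ i := Nat.one_le_two_pow
    unfold fU
    omega
  | cons a y ih =>
    rw [acc_PU_cons, eval_G (fun _ _ => trivial)] at h
    rcases h.2 with h | h
    · obtain ⟨n, hn, hn'⟩ := ih h
      refine ⟨n, by omega, ?_⟩
      rw [List.length_cons]
      omega
    · refine ⟨i, le_rfl, ?_⟩
      have := h.2
      have h1 : 1 ≤ 2 ^ i := Nat.one_le_two_pow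
      unfold fU
      omega

theorem acc_PU_complete {n : ℕ} {y : List (Fin 1)} {i : ℕ} (hi : i ≤ n)
    (h : y.length + i = fU n) : AccM 1 true (· ≤ n) .P y i := by
  have h1 : 1 ≤ 2 ^ n := Nat.one_le_two_pow
  rcases Nat.lt_or_ge i n with hin | hin
  · induction y generalizing i with
    | nil =>
      simp only [List.length_nil] at h
      unfold fU at h
      omega
    | cons a y ih =>
      rw [acc_PU_cons]
      refine ⟨hi, Or.inl ?_⟩
      rw [List.length_cons] at h
      rcases Nat.lt_or_ge (i + 1) n with h2 | h2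
      · exact ih (by omega) (by omega) h2
      · have h3 : i + 1 = n := by omega
        rw [h3]
        have h4 : y.length = 2 ^ n - 1 + n := by
          unfold fU at h
          omega
        cases y with
        | nil => rw [acc_PU_nil, eval_G (fun _ hj => hj)]; exact ⟨le_rfl, allA_unary _, h4⟩
        | cons c y =>
          rw [acc_PU_cons, eval_G (fun _ hj => hj)]
          exact ⟨le_rfl, Or.inr ⟨allA_unary _, h4⟩⟩
  · have h3 : i = n := by omega
    subst h3
    have h4 : y.length = 2 ^ i - 1 + i := by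
      unfold fU at h
      omega
    cases y with
    | nil => rw [acc_PU_nil, eval_G (fun _ hj => hj)]; exact ⟨le_rfl, allA_unary _, h4⟩
    | cons c y =>
      rw [acc_PU_cons, eval_G (fun _ hj => hj)]
      exact ⟨le_rfl, Or.inr ⟨allA_unary _, h4⟩⟩

theorem mem_langU (w : List (Fin 1)) : w ∈ (mach 1 true).lang ↔ ∃ n, w.length = fU n := by
  constructor
  · intro h
    obtain ⟨n, _, hn⟩ := acc_PU_sound (y := w) (i := 0) h
    exact ⟨n, by omega⟩
  · rintro ⟨n, hn⟩
    exact ACA.Acc.mono (fun _ _ => trivial) (acc_PU_complete (y := w) (Nat.zero_le n) (by omega))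

theorem fU_strictMono : StrictMono fU := by
  apply strictMono_nat_of_lt_succ
  intro n
  have h1 : 1 ≤ 2 ^ n := Nat.one_le_two_pow
  have h2 : 2 ^ (n + 1) = 2 * 2 ^ n := by ring
  unfold fU
  omega

theorem not_isRegular_U : ¬ (mach 1 true).lang.IsRegular := by
  intro h
  have hfin := h.finite_range_leftQuotient
  have hinj : Function.Injective
      (fun n : ℕ => (mach 1 true).lang.leftQuotient (List.replicate (fU n) 0)) := by
    intro n m hnm
    by_contra hne
    wlog hlt : n < m generalizing n m with H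
    · exact H hnm.symm (Ne.symm hne) (by omega)
    simp only at hnm
    have h1 : List.replicate (fU (n + 1) - fU n) 0 ∈
        (mach 1 true).lang.leftQuotient (List.replicate (fU n) 0) := by
      rw [Language.mem_leftQuotient, mem_langU]
      refine ⟨n + 1, ?_⟩
      rw [List.length_append, List.length_replicate, List.length_replicate]
      have := fU_strictMono (Nat.lt_succ_self n)
      simp only [Nat.succ_eq_add_one] at this
      omega
    rw [hnm, Language.mem_leftQuotient, mem_langU] at h1
    obtain ⟨j, hj⟩ := h1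
    rw [List.length_append, List.length_replicate, List.length_replicate] at hj
    have h2 : fU (n + 1) - fU n = 2 + 2 ^ n := by
      have h1 : 1 ≤ 2 ^ n := Nat.one_le_two_pow
      have h2 : 2 ^ (n + 1) = 2 * 2 ^ n := by ring
      unfold fU
      omega
    have h3 : fU (m + 1) = fU m + (2 + 2 ^ m) := by
      have h1 : 1 ≤ 2 ^ m := Nat.one_le_two_pow
      have h2 : 2 ^ (m + 1) = 2 * 2 ^ m := by ring
      unfold fU
      omega
    have h4 : 2 ^ n < 2 ^ m := Nat.pow_lt_pow_right (by norm_num) hlt
    rw [h2] at hj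
    have h5 : fU m < fU j := by
      have : 0 < 2 ^ n := by positivity
      omega
    have h6 : fU j < fU (m + 1) := by rw [← hj, h3]; omega
    have h7 : m < j := fU_strictMono.lt_iff_lt.mp h5
    have h8 : j < m + 1 := fU_strictMono.lt_iff_lt.mp h6
    omega
  exact Set.infinite_range_of_injective hinj
    (hfin.subset (by rintro _ ⟨n, rfl⟩; exact ⟨_, rfl⟩))

theorem weakU : (mach 1 true).InSpace (fun n => Real.log n / Real.log 2) .weak := by
  intro w hw
  obtain ⟨n, hn⟩ := (mem_langU w).mp hw
  have h1 := acc_PU_complete (y := w) (Nat.zero_le n) (by omega)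
  refine ACA.Acc.mono (fun c hc => ?_) h1
  have hcn : (c : ℝ) ≤ n := by exact_mod_cast hc
  refine hcn.trans ?_
  rcases Nat.eq_zero_or_pos n with rfl | hpos
  · simp [fU] at hn
    simp [hn]
  · have h2 : 2 ^ n ≤ w.length := by
      rw [hn]
      unfold fU
      omega
    have hl2 : 0 < Real.log 2 := Real.log_pos (by norm_num)
    rw [le_div_iff₀ hl2, ← Real.log_pow]
    exact Real.log_le_log (by positivity) (by exact_mod_cast h2)

/-! ### The binary automaton -/

theorem acc_PV_zero (y : List (Fin 2)) (i : ℕ) :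
    AccM 2 false b .P (0 :: y) i ↔ b i ∧ AccM 2 false b .G y i := by
  rw [accM_exist rfl (by decide), sym_cons (by rfl)]
  simp [next, app]

theorem acc_PV_one (y : List (Fin 2)) (i : ℕ) :
    AccM 2 false b .P (1 :: y) i ↔ b i ∧ AccM 2 false b .P y (i + 1) := by
  rw [accM_exist rfl (by decide), sym_cons' (by decide)]
  have e : ((i : ℤ) + 1).toNat = i + 1 := by omega
  have e' : (0 : ℤ) ≤ (i : ℤ) + 1 := by omega
  simp [next, app, e, e']

theorem acc_PV_nil (i : ℕ) : ¬ AccM 2 false b .P [] i := by
  rw [accM_exist rfl (by decide), sym_nil]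
  simp [next]

/-- The words of the binary language. -/
def vw (n : ℕ) : List (Fin 2) := List.replicate n 1 ++ 0 :: List.replicate (2 ^ n - 1 + n) 0

theorem eq_replicate_of_allA {y : List (Fin 2)} (h : AllA y) : y = List.replicate y.length 0 :=
  List.eq_replicate_iff.mpr ⟨rfl, fun a ha => Fin.ext (h a ha)⟩

theorem allA_replicate (m : ℕ) : AllA (List.replicate m (0 : Fin 2)) := fun a ha => by
  rw [(List.mem_replicate.mp ha).2]
  rfl

theorem acc_PV_sound {y : List (Fin 2)} {i : ℕ} (h : AccM 2 false (fun _ => True) .P y i) :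
    ∃ n, List.replicate i 1 ++ y = vw n := by
  induction y generalizing i with
  | nil => exact absurd h (acc_PV_nil i)
  | cons a y ih =>
    fin_cases a
    · change AccM 2 false (fun _ => True) .P (0 :: y) i at h
      rw [acc_PV_zero, eval_G (fun _ _ => trivial)] at h
      refine ⟨i, ?_⟩
      obtain ⟨_, hy, hl⟩ := h
      unfold vw
      rw [eq_replicate_of_allA hy, hl]
      rfl
    · change AccM 2 false (fun _ => True) .P (1 :: y) i at h
      rw [acc_PV_one] at h
      obtain ⟨n, hn⟩ := ih h.2
      refine ⟨n, ?_⟩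
      rw [← hn, List.replicate_succ']
      simp

theorem acc_PV_complete {n : ℕ} : ∀ (j i : ℕ), i + j = n →
    AccM 2 false (· ≤ n) .P (List.replicate j 1 ++ 0 :: List.replicate (2 ^ n - 1 + n) 0) i := by
  intro j
  induction j with
  | zero =>
    rintro i rfl
    simp only [Nat.add_zero, List.replicate_zero, List.nil_append]
    rw [acc_PV_zero, eval_G (fun _ hj => hj)]
    exact ⟨le_rfl, allA_replicate _, by simp⟩
  | succ j ih =>
    intro i hi
    rw [List.replicate_succ, List.cons_append, acc_PV_one]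
    exact ⟨by omega, ih (i + 1) (by omega)⟩

theorem mem_langV (w : List (Fin 2)) : w ∈ (mach 2 false).lang ↔ ∃ n, w = vw n := by
  constructor
  · intro h
    obtain ⟨n, hn⟩ := acc_PV_sound (y := w) (i := 0) h
    exact ⟨n, by simpa using hn⟩
  · rintro ⟨n, rfl⟩
    exact ACA.Acc.mono (fun _ _ => trivial) (acc_PV_complete (n := n) n 0 (by omega))

theorem count_vw (n : ℕ) : (vw n).count 1 = n := by
  unfold vw
  rw [List.count_append, List.count_replicate_self, List.count_cons, List.count_replicate]
  simp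

theorem length_vw (n : ℕ) : (vw n).length = n + 1 + (2 ^ n - 1 + n) := by
  unfold vw
  rw [List.length_append, List.length_replicate, List.length_cons, List.length_replicate]
  omega

theorem not_isRegular_V : ¬ (mach 2 false).lang.IsRegular := by
  intro h
  have hfin := h.finite_range_leftQuotient
  have hinj : Function.Injective
      (fun n : ℕ => (mach 2 false).lang.leftQuotient (List.replicate n 1)) := by
    intro n m hnm
    simp only at hnm
    have h1 : (0 :: List.replicate (2 ^ n - 1 + n) 0) ∈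
        (mach 2 false).lang.leftQuotient (List.replicate n 1) := by
      rw [Language.mem_leftQuotient, mem_langV]
      exact ⟨n, rfl⟩
    rw [hnm, Language.mem_leftQuotient, mem_langV] at h1
    obtain ⟨j, hj⟩ := h1
    have h2 := congrArg (List.count 1) hj
    rw [count_vw, List.count_append, List.count_replicate_self, List.count_cons,
      List.count_replicate] at h2
    have h3 : m = j := by simpa using h2
    subst h3
    have h4 := congrArg List.length hj
    rw [length_vw, List.length_append, List.length_replicate, List.length_cons,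
      List.length_replicate] at h4
    have p1 : 1 ≤ 2 ^ n := Nat.one_le_two_pow
    have p2 : 1 ≤ 2 ^ m := Nat.one_le_two_pow
    rcases Nat.lt_trichotomy n m with h5 | h5 | h5
    · have := Nat.pow_lt_pow_right (a := 2) (by norm_num) h5
      omega
    · exact h5
    · have := Nat.pow_lt_pow_right (a := 2) (by norm_num) h5
      omega
  exact Set.infinite_range_of_injective hinj
    (hfin.subset (by rintro _ ⟨n, rfl⟩; exact ⟨_, rfl⟩))

theorem next_mid : ∀ q s z, ∀ t ∈ next false q s z,
    (t.1 = .P ∧ q = .P ∧ s = .B ∧ t.2.1 = true ∧ t.2.2 = 1) ∨ (t.1 ≠ .P ∧ t.2.2 ≤ 0) := by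
  decide

theorem counter_le_V {w : List (Fin 2)} {x : (mach 2 false).Cfg}
    (h : (mach 2 false).Occurs w x) :
    x.2.2 + (if (show St from x.1) = St.P then x.2.1.count 1 else 0) ≤ w.count 1 := by
  induction h with
  | refl =>
    show 0 + (if St.P = St.P then w.count 1 else 0) ≤ w.count 1
    simp
  | @tail y x _ hs ih =>
    obtain ⟨_, m, d, htr, hd, hm⟩ := hs
    rcases next_mid _ _ _ _ htr with ⟨h1, h2, h3, h4, h5⟩ | ⟨h1, h2⟩
    · simp only at h1 h4 h5
      rcases hm with ⟨hm, _⟩ | ⟨_, a, hs⟩
      · rw [h4] at hm; cases hm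
      · rw [if_pos h1]
        rw [if_pos h2, hs] at ih
        rw [hs] at h3
        have ha : a = 1 := by
          by_contra hne
          have : a = 0 := by omega
          subst this
          simp [sym] at h3
        subst ha
        rw [List.count_cons_self] at ih
        omega
    · simp only at h1 h2
      rw [if_neg h1]
      omega

theorem middleV : (mach 2 false).InSpace (fun n => Real.log n / Real.log 2) .middle := by
  intro w hw x hx
  obtain ⟨n, rfl⟩ := (mem_langV w).mp hw
  have h1 := counter_le_V hx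
  rw [count_vw] at h1
  have h2 : (x.2.2 : ℝ) ≤ n := by
    have : x.2.2 ≤ n := by omega
    exact_mod_cast this
  refine h2.trans ?_
  have h3 : 2 ^ n ≤ (vw n).length := by
    rw [length_vw]
    omega
  have hl2 : 0 < Real.log 2 := Real.log_pos (by norm_num)
  show (n : ℝ) ≤ Real.log ((vw n).length : ℝ) / Real.log 2
  rw [le_div_iff₀ hl2, ← Real.log_pow]
  exact Real.log_le_log (by positivity) (by exact_mod_cast h3)

/-! ### The table -/

/-- The table: linear for strong space, and for middle space over the unary alphabet;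
logarithmic for middle space over the binary alphabet and for weak space. -/
noncomputable def table : ℕ → Notion → ℕ → ℝ
  | _, .strong => fun n => (n : ℝ)
  | k, .middle => if k = 1 then fun n => (n : ℝ) else fun n => Real.log n
  | _, .weak => fun n => Real.log n

theorem log_bigO : (fun n : ℕ => Real.log n / Real.log 2) =O[atTop] fun n : ℕ => Real.log n := by
  have : (fun n : ℕ => Real.log n / Real.log 2) = fun n : ℕ => (1 / Real.log 2) * Real.log n := by
    funext n; ring
  rw [this]
  exact (isBigO_refl _ _).const_mul_left _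

theorem works_any (mode : Mode) : (mach k un).Works mode := by
  cases mode with
  | realtime => exact works_realtime
  | oneway => trivial

theorem tight_table (mode : Mode) (k : ℕ) (hk : k = 1 ∨ k = 2) (nt : Notion) :
    Tight mode k nt (table k nt) := by
  rcases hk with rfl | rfl
  · cases nt with
    | strong =>
      exact ⟨⟨mach 1 true, fun n => (n : ℝ), works_any mode, not_isRegular_U, isBigO_refl _ _,
        inSpace_strong⟩, fun M t _ ht hs => M.strong_lower ht hs⟩
    | middle =>
      exact ⟨⟨mach 1 true, fun n => (n : ℝ), works_any mode, not_isRegular_U, by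
        simp only [table, if_true]; exact isBigO_refl _ _,
        ACA.strong_le_middle inSpace_strong⟩, fun M t _ ht hs => by
        simp only [table, if_true] at ht
        exact M.middle_unary_lower ht hs⟩
    | weak =>
      exact ⟨⟨mach 1 true, fun n => Real.log n / Real.log 2, works_any mode, not_isRegular_U,
        log_bigO, weakU⟩, fun M t _ ht hs => M.weak_lower ht hs⟩
  · cases nt with
    | strong =>
      exact ⟨⟨mach 2 false, fun n => (n : ℝ), works_any mode, not_isRegular_V, isBigO_refl _ _,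
        inSpace_strong⟩, fun M t _ ht hs => M.strong_lower ht hs⟩
    | middle =>
      exact ⟨⟨mach 2 false, fun n => Real.log n / Real.log 2, works_any mode, not_isRegular_V, by
        simp only [table]; exact log_bigO, middleV⟩, fun M t _ ht hs => by
        have ht' : t =o[atTop] fun n : ℕ => Real.log n := ht
        exact M.weak_lower ht' (ACA.middle_le_weak hs)⟩
    | weak =>
      exact ⟨⟨mach 2 false, fun n => Real.log n / Real.log 2, works_any mode, not_isRegular_V,
        log_bigO, ACA.middle_le_weak middleV⟩, fun M t _ ht hs => M.weak_lower ht hs⟩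

end Pool.Agent.Q19.Aca
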