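import Pool.Agent.Q19.Aca

/-!
# Alternating one-way one-counter automata: the two realtime automata of the upper bounds
-/

namespace Pool.Agent.Q19.Aca

open Filter Asymptotics

/-- States: `P` push phase, `G` start of the check, `D` check of all later positions, `E` its
existential branch; `B1`/`B0`: bit number `i` of `m - i` is `1`/`0`; `C1`/`C0`: the low `i` bits of
`m - i` are all `1` / not all `1` (`i` the counter, `m` the number of remaining letters);
`Hxy` universal branching into `Bx` and `Cy`; `T1`/`T0` zero / nonzero test; `X` dead; `F` final. -/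
inductive St
  | P | G | D | E | B1 | B0 | C1 | C0 | H10 | H01 | H00 | H11 | T1 | T0 | X | F
  deriving DecidableEq, Fintype

/-- Scanned symbols: the letter `0`, another letter, end of the input. -/
inductive Sym
  | A | B | E
  deriving DecidableEq, Fintype

def sym {k : ℕ} : Option (Fin k) → Sym
  | none => .E
  | some a => if (a : ℕ) = 0 then .A else .B

/-- The transitions. -/
def next (un : Bool) : St → Sym → Bool → List (St × Bool × ℤ)
  | .P, .A, _ => if un then [(.P, true, 1), (.G, false, 0)] else [(.G, true, 0)]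
  | .P, .B, _ => if un then [] else [(.P, true, 1)]
  | .P, .E, _ => if un then [(.G, false, 0)] else []
  | .G, _, _ => [(.C1, false, 0), (.B0, false, 0), (.D, false, 0)]
  | .D, .A, _ => [(.D, true, 0), (.E, true, 0)]
  | .D, .E, _ => [(.F, false, 0)]
  | .D, .B, _ => [(.X, false, 0)]
  | .E, _, _ => [(.C0, false, 0), (.B1, false, 0)]
  | .B1, .A, _ => [(.H10, false, 0), (.H01, false, 0)]
  | .B1, .E, z => if z then [] else [(.F, false, 0)]
  | .B1, .B, _ => []
  | .B0, .A, _ => [(.H00, false, 0), (.H11, false, 0)]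
  | .B0, .E, z => if z then [(.F, false, 0)] else []
  | .B0, .B, _ => []
  | .H10, .A, _ => [(.B1, true, 0), (.C0, true, 0)]
  | .H01, .A, _ => [(.B0, true, 0), (.C1, true, 0)]
  | .H00, .A, _ => [(.B0, true, 0), (.C0, true, 0)]
  | .H11, .A, _ => [(.B1, true, 0), (.C1, true, 0)]
  | .H10, _, _ => [(.X, false, 0)]
  | .H01, _, _ => [(.X, false, 0)]
  | .H00, _, _ => [(.X, false, 0)]
  | .H11, _, _ => [(.X, false, 0)]
  | .C1, .A, z => if z then [(.F, false, 0)] else [(.C1, true, -1), (.B1, true, -1)]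
  | .C1, .E, z => if z then [(.F, false, 0)] else [(.T1, false, -1)]
  | .C1, .B, z => if z then [(.F, false, 0)] else [(.X, false, 0)]
  | .C0, .A, z => if z then [] else [(.C0, true, -1), (.B0, true, -1)]
  | .C0, .E, z => if z then [] else [(.T0, false, -1)]
  | .C0, .B, _ => []
  | .T1, _, z => if z then [(.F, false, 0)] else []
  | .T0, _, z => if z then [] else [(.F, false, 0)]
  | .X, _, _ => []
  | .F, _, _ => []

def isUniv : St → Bool
  | .G | .D | .H10 | .H01 | .H00 | .H11 | .C1 => true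
  | _ => false

theorem next_small : ∀ un q s z, ∀ t ∈ next un q s z, t.2.2 = -1 ∨ t.2.2 = 0 ∨ t.2.2 = 1 := by
  decide

/-- The automaton. -/
def mach (k : ℕ) (un : Bool) : ACA k where
  Q := St
  fin := inferInstance
  start := .P
  univ q := isUniv q = true
  final q := q = .F
  tr q a z q' m d := (q', m, d) ∈ next un q (sym a) z
  tr_small {q a z q' m d} h := next_small un q (sym a) z (q', m, d) h

variable {k : ℕ} {un : Bool}

/-- Result of a transition. -/
def app (y : List (Fin k)) (c : ℕ) : St × Bool × ℤ → Option (St × List (Fin k) × ℕ)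
  | (q', false, d) => if 0 ≤ (c : ℤ) + d then some (q', y, ((c : ℤ) + d).toNat) else none
  | (q', true, d) =>
    match y with
    | [] => none
    | _ :: ys => if 0 ≤ (c : ℤ) + d then some (q', ys, ((c : ℤ) + d).toNat) else none

theorem step_iff (q : St) (y : List (Fin k)) (c : ℕ) (x' : (mach k un).Cfg) :
    (mach k un).Step (q, y, c) x' ↔ q ≠ .F ∧
      ∃ t ∈ next un q (sym y.head?) (decide (c = 0)), app y c t = some x' := by
  obtain ⟨q', y', c'⟩ := x'
  constructor
  · rintro ⟨hf, m, d, htr, hd, hm⟩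
    refine ⟨hf, (q', m, d), htr, ?_⟩
    simp only at hd hm
    rcases hm with ⟨rfl, rfl⟩ | ⟨rfl, a, rfl⟩
    · have h0 : 0 ≤ (c : ℤ) + d := by omega
      simp only [app, h0, if_true]
      have : ((c : ℤ) + d).toNat = c' := by omega
      rw [this]
      rfl
    · have h0 : 0 ≤ (c : ℤ) + d := by omega
      simp only [app, h0, if_true]
      have : ((c : ℤ) + d).toNat = c' := by omega
      rw [this]
      rfl
  · rintro ⟨hf, ⟨q1, m, d⟩, ht, happ⟩
    cases m with
    | false =>
      simp only [app] at happ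
      split_ifs at happ with h0
      obtain ⟨e1, e2⟩ := Prod.mk.inj (Option.some.inj happ)
      obtain ⟨e2, hc⟩ := Prod.mk.inj e2
      subst e1 e2
      refine ⟨hf, false, d, ht, ?_, Or.inl ⟨rfl, rfl⟩⟩
      simp only
      omega
    | true =>
      cases y with
      | nil => simp [app] at happ
      | cons a ys =>
        simp only [app] at happ
        split_ifs at happ with h0
        obtain ⟨e1, e2⟩ := Prod.mk.inj (Option.some.inj happ)
        obtain ⟨e2, hc⟩ := Prod.mk.inj e2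
        subst e1 e2
        refine ⟨hf, true, d, ht, ?_, Or.inr ⟨rfl, a, rfl⟩⟩
        simp only
        omega

theorem acc_final {b : ℕ → Prop} {y : List (Fin k)} {c : ℕ} :
    (mach k un).Acc b (St.F, y, c) ↔ b c :=
  ⟨fun h => ACA.Acc.bound h, fun h => .final rfl h⟩

theorem acc_exist {b : ℕ → Prop} {q : St} {y : List (Fin k)} {c : ℕ} (hq : isUniv q = false)
    (hf : q ≠ .F) :
    (mach k un).Acc b (q, y, c) ↔ b c ∧ ∃ t ∈ next un q (sym y.head?) (decide (c = 0)),
      ∃ x', app y c t = some x' ∧ (mach k un).Acc b x' := by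
  constructor
  · intro h
    cases h with
    | final h1 h2 => exact absurd h1 hf
    | exist h1 h2 h3 h4 =>
      obtain ⟨_, t, ht, happ⟩ := (step_iff _ _ _ _).mp h3
      exact ⟨h2, t, ht, _, happ, h4⟩
    | all h1 h2 h3 h4 =>
      exfalso
      have : isUniv q = true := h2
      rw [hq] at this
      cases this
  · rintro ⟨h1, t, ht, x', happ, h2⟩
    refine .exist ?_ h1 ((step_iff _ _ _ _).mpr ⟨hf, t, ht, happ⟩) h2
    intro (h : isUniv q = true)
    rw [hq] at h
    cases h

theorem acc_all {b : ℕ → Prop} {q : St} {y : List (Fin k)} {c : ℕ} (hq : isUniv q = true)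
    (hf : q ≠ .F) :
    (mach k un).Acc b (q, y, c) ↔ b c ∧ ∀ t ∈ next un q (sym y.head?) (decide (c = 0)),
      ∀ x', app y c t = some x' → (mach k un).Acc b x' := by
  constructor
  · intro h
    cases h with
    | final h1 h2 => exact absurd h1 hf
    | exist h1 h2 h3 h4 => exact absurd hq h1
    | all h1 h2 h3 h4 =>
      exact ⟨h3, fun t ht x' happ => h4 x' ((step_iff _ _ _ _).mpr ⟨hf, t, ht, happ⟩)⟩
  · rintro ⟨h1, h2⟩
    refine .all hf hq h1 fun x' hx' => ?_
    obtain ⟨_, t, ht, happ⟩ := (step_iff _ _ _ _).mp hx'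
    exact h2 t ht x' happ

/-! ### Modes and strong space -/

/-- Rank: a step without head move decreases it. -/
def rank : St → ℕ
  | .X => 0
  | .F => 0
  | .T1 => 1
  | .T0 => 1
  | .H10 => 1
  | .H01 => 1
  | .H00 => 1
  | .H11 => 1
  | .D => 1
  | .C1 => 2
  | .C0 => 2
  | .B1 => 2
  | .B0 => 2
  | .E => 3
  | .G => 3
  | .P => 4

theorem next_rank : ∀ un q s z, ∀ t ∈ next un q s z, t.2.1 = false → rank t.1 < rank q := by
  decide

theorem rank_le : ∀ q, rank q ≤ 4 := by decide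

theorem works_realtime : (mach k un).Works .realtime := by
  refine ⟨5, ?_⟩
  have key : ∀ n, ∀ x z : (mach k un).Cfg, (mach k un).StepN n x z →
      z.2.1.length < x.2.1.length ∨ (z.2.1.length ≤ x.2.1.length ∧ n + rank z.1 ≤ rank x.1) := by
    intro n
    induction n with
    | zero =>
      rintro x z (rfl : x = z)
      exact Or.inr ⟨le_rfl, by omega⟩
    | succ n ih =>
      rintro x z ⟨y, ⟨_, m, d, htr, _, hm⟩, hyz⟩
      rcases ih y z hyz with h | ⟨h, h'⟩
      · left
        rcases hm with ⟨_, hs⟩ | ⟨_, a, hs⟩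
        · rw [hs] at h; exact h
        · rw [hs, List.length_cons]; omega
      · rcases hm with ⟨hm, hs⟩ | ⟨_, a, hs⟩
        · right
          have := next_rank un _ _ _ _ htr hm
          simp only at this
          rw [hs] at h
          exact ⟨h, by omega⟩
        · left
          rw [hs, List.length_cons]; omega
  intro x z h
  rcases key 5 x z h with h | ⟨_, h⟩
  · exact h
  · have := rank_le x.1
    omega

theorem next_len : ∀ un q s z, ∀ t ∈ next un q s z,
    (t.2.1 = true → t.2.2 ≤ 1) ∧ (t.2.1 = false → t.2.2 ≤ 0) := by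
  decide

theorem counter_le {w : List (Fin k)} {x : (mach k un).Cfg} (h : (mach k un).Occurs w x) :
    x.2.2 + x.2.1.length ≤ w.length := by
  induction h with
  | refl => simp
  | tail _ hs ih =>
    obtain ⟨_, m, d, htr, hd, hm⟩ := hs
    have := next_len un _ _ _ _ htr
    simp only at this
    rcases hm with ⟨hm, hs⟩ | ⟨hm, a, hs⟩
    · have := this.2 hm
      rw [hs]
      omega
    · have := this.1 hm
      rw [hs, List.length_cons] at ih
      omega

theorem inSpace_strong : (mach k un).InSpace (fun n => (n : ℝ)) .strong := by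
  intro w x h
  have := counter_le h
  have : x.2.2 ≤ w.length := by omega
  show (x.2.2 : ℝ) ≤ (w.length : ℝ)
  exact_mod_cast this

/-! ### Arithmetic of the gadget -/

/-- Bit number `i` of the integer `M` is `1`. -/
def bt (i : ℕ) (M : ℤ) : Prop := (2 : ℤ) ^ i ≤ M % 2 ^ (i + 1)

/-- The low `i` bits of `M` are all `1`. -/
def ct (i : ℕ) (M : ℤ) : Prop := M % 2 ^ i = 2 ^ i - 1

theorem emod_char {p : ℤ} (hp : 0 < p) (M : ℤ) : ∃ j r : ℤ, M = 2 * p * j + r ∧ 0 ≤ r ∧
    r < 2 * p ∧ M % (2 * p) = r ∧ ((r < p ∧ M % p = r) ∨ (p ≤ r ∧ M % p = r - p)) := by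
  have h2 : 0 < 2 * p := by omega
  refine ⟨M / (2 * p), M % (2 * p), (Int.mul_ediv_add_emod M (2 * p)).symm, Int.emod_nonneg _ h2.ne',
    Int.emod_lt_of_pos _ h2, rfl, ?_⟩
  have h0 := Int.emod_nonneg M h2.ne'
  have h1 := Int.emod_lt_of_pos M h2
  have h3 : M % p = (M % (2 * p)) % p := (Int.emod_emod_of_dvd M (Dvd.intro_left 2 rfl)).symm
  rcases lt_or_ge (M % (2 * p)) p with h | h
  · exact Or.inl ⟨h, by rw [h3, Int.emod_eq_of_lt h0 h]⟩
  · refine Or.inr ⟨h, ?_⟩
    rw [h3, ← Int.sub_emod_right (M % (2 * p)) p, Int.emod_eq_of_lt (by omega) (by omega)]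

theorem bt_step (i : ℕ) (M : ℤ) :
    bt i (M + 1) ↔ (bt i M ∧ ¬ ct i M) ∨ (¬ bt i M ∧ ct i M) := by
  have hp : (0 : ℤ) < 2 ^ i := by positivity
  have e : (2 : ℤ) ^ (i + 1) = 2 * 2 ^ i := by ring
  obtain ⟨j, r, h1, h2, h3, h4, h5⟩ := emod_char hp M
  have h6 : (M + 1) % (2 * 2 ^ i) = if r + 1 < 2 * 2 ^ i then r + 1 else 0 := by
    have : M + 1 = (r + 1) + 2 * 2 ^ i * j := by rw [h1]; ring
    rw [this, Int.add_mul_emod_self_left]
    split_ifs with h
    · exact Int.emod_eq_of_lt (by omega) h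
    · have : r + 1 = 2 * 2 ^ i := by omega
      rw [this, Int.emod_self]
  unfold bt ct
  rw [e, h4, h6]
  generalize (2 : ℤ) ^ i = p at *
  split_ifs with h
  · rcases h5 with ⟨h5, h7⟩ | ⟨h5, h7⟩ <;> rw [h7] <;> omega
  · rcases h5 with ⟨h5, h7⟩ | ⟨h5, h7⟩ <;> rw [h7] <;> omega

theorem ct_succ (j : ℕ) (M : ℤ) : ct (j + 1) M ↔ ct j M ∧ bt j M := by
  have hp : (0 : ℤ) < 2 ^ j := by positivity
  have e : (2 : ℤ) ^ (j + 1) = 2 * 2 ^ j := by ring
  obtain ⟨i, r, h1, h2, h3, h4, h5⟩ := emod_char hp M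
  unfold bt ct
  rw [e, h4]
  generalize (2 : ℤ) ^ j = p at *
  rcases h5 with ⟨h5, h7⟩ | ⟨h5, h7⟩ <;> rw [h7] <;> omega

theorem ct_zero (M : ℤ) : ct 0 M := by
  unfold ct
  simp

theorem lt_two_pow_int (i : ℕ) : (i : ℤ) < 2 ^ i := by exact_mod_cast Nat.lt_two_pow_self

theorem bt_base (i : ℕ) : bt i (-i) ↔ i ≠ 0 := by
  unfold bt
  rcases Nat.eq_zero_or_pos i with rfl | hi
  · simp
  · have h1 := lt_two_pow_int i
    have e : (2 : ℤ) ^ (i + 1) = 2 * 2 ^ i := by ring
    have h2 : (-(i : ℤ)) % 2 ^ (i + 1) = 2 * 2 ^ i - i := by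
      rw [← Int.add_emod_right, e]
      rw [Int.emod_eq_of_lt] <;> omega
    rw [h2]
    have : i ≠ 0 := by omega
    simp only [this, ne_eq, not_false_eq_true, iff_true]
    omega

theorem ct_base (i : ℕ) : ct i (-i) ↔ i ≤ 1 := by
  unfold ct
  rcases Nat.eq_zero_or_pos i with rfl | hi
  · simp
  · have h1 := lt_two_pow_int i
    have h2 : (-(i : ℤ)) % 2 ^ i = 2 ^ i - i := by
      rw [← Int.add_emod_right]
      rw [Int.emod_eq_of_lt] <;> omega
    rw [h2]
    omega

/-- The condition checked by the state `G`. -/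
def chk (i : ℕ) (m : ℕ) : Prop :=
  ct i (m - i) ∧ ¬ bt i (m - i) ∧ ∀ m' < m, ¬ ct i ((m' : ℤ) - i) ∨ bt i ((m' : ℤ) - i)

theorem ct_not_bt (i : ℕ) (M : ℤ) : (ct i M ∧ ¬ bt i M) ↔ ∃ t : ℤ, M = 2 ^ i - 1 + 2 ^ (i + 1) * t := by
  have hp : (0 : ℤ) < 2 ^ i := by positivity
  have e : (2 : ℤ) ^ (i + 1) = 2 * 2 ^ i := by ring
  constructor
  · obtain ⟨j, r, h1, h2, h3, h4, h5⟩ := emod_char hp M
    unfold bt ct
    rw [e, h4]
    rintro ⟨h6, h7⟩
    refine ⟨j, ?_⟩
    rw [h1]
    rcases h5 with ⟨h5, h8⟩ | ⟨h5, h8⟩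
    · rw [h8] at h6
      rw [h6]; ring
    · exact absurd h5 h7
  · rintro ⟨t, rfl⟩
    unfold bt ct
    constructor
    · rw [e, show (2 : ℤ) ^ i - 1 + 2 * 2 ^ i * t = 2 ^ i - 1 + 2 ^ i * (2 * t) by ring,
        Int.add_mul_emod_self_left, Int.emod_eq_of_lt (by omega) (by omega)]
    · rw [Int.add_mul_emod_self_left, Int.emod_eq_of_lt (by omega) (by rw [e]; omega)]
      omega

theorem chk_iff (i m : ℕ) : chk i m ↔ m = 2 ^ i - 1 + i := by
  have h1 := lt_two_pow_int i
  have hp : (0 : ℤ) < 2 ^ i := by positivity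
  have e : (2 : ℤ) ^ (i + 1) = 2 * 2 ^ i := by ring
  have hcast : ((2 ^ i - 1 + i : ℕ) : ℤ) = 2 ^ i - 1 + i := by
    have : 1 ≤ 2 ^ i := Nat.one_le_two_pow
    push_cast [this]
    ring
  constructor
  · rintro ⟨h2, h3, h4⟩
    obtain ⟨t, ht⟩ := (ct_not_bt i _).mp ⟨h2, h3⟩
    have ht0 : 0 ≤ t := by
      by_contra hcon
      have : t ≤ -1 := by omega
      have : (2 : ℤ) ^ (i + 1) * t ≤ 2 ^ (i + 1) * (-1) :=
        mul_le_mul_of_nonneg_left this (by positivity)
      omega
    have ht1 : t = 0 := by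
      by_contra hcon
      have h5 : 1 ≤ t := by omega
      have h6 : (2 : ℤ) ^ (i + 1) * 1 ≤ 2 ^ (i + 1) * t :=
        mul_le_mul_of_nonneg_left h5 (by positivity)
      have h7 : 2 ^ i - 1 + i < m := by
        have : ((2 ^ i - 1 + i : ℕ) : ℤ) < m := by rw [hcast]; omega
        exact_mod_cast this
      have h8 := (ct_not_bt i (((2 ^ i - 1 + i : ℕ) : ℤ) - i)).mpr ⟨0, by rw [hcast]; ring⟩
      rcases h4 _ h7 with h9 | h9
      · exact h9 h8.1
      · exact h8.2 h9
    subst ht1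
    have : (m : ℤ) = ((2 ^ i - 1 + i : ℕ) : ℤ) := by rw [hcast]; omega
    exact_mod_cast this
  · rintro rfl
    have h8 := (ct_not_bt i (((2 ^ i - 1 + i : ℕ) : ℤ) - i)).mpr ⟨0, by rw [hcast]; ring⟩
    refine ⟨h8.1, h8.2, fun m' hm' => ?_⟩
    by_contra hcon
    push Not at hcon
    obtain ⟨t, ht⟩ := (ct_not_bt i _).mp hcon
    have hm'' : (m' : ℤ) < 2 ^ i - 1 + i := by rw [← hcast]; exact_mod_cast hm'
    have ht0 : t ≤ -1 := by
      by_contra h
      have : 0 ≤ t := by omega
      have : 0 ≤ (2 : ℤ) ^ (i + 1) * t := mul_nonneg (by positivity) this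
      omega
    have : (2 : ℤ) ^ (i + 1) * t ≤ 2 ^ (i + 1) * (-1) :=
      mul_le_mul_of_nonneg_left ht0 (by positivity)
    omega

end Pool.Agent.Q19.Aca
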