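import Mathlib

/-!
# Commutative lattice-ordered bimonoids

Definitions for MP_edd14c_al, elementary facts on complements, and the uniqueness of the
complemented Dedekind-MacNeille completion.
-/

set_option autoImplicit false

universe u

namespace Pool.Agent.Q19.Bim

/-- A commutative `ℓ`-bimonoid: a lattice with two commutative monoid structures `(*, 1)` and
`(+, 0)`, where `*` distributes over binary joins, `+` over binary meets, and
`a * (b + c) ≤ a * b + c`. (Both operations are then monotone.) -/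
class CLB (A : Type u) extends Lattice A, CommMonoid A, AddCommMonoid A where
  mul_sup' : ∀ x y z : A, x * (y ⊔ z) = x * y ⊔ x * z
  add_inf' : ∀ x y z : A, x + (y ⊓ z) = (x + y) ⊓ (x + z)
  hemi : ∀ a b c : A, a * (b + c) ≤ a * b + c

section basic

variable {A : Type u} [CLB A]

theorem mul_mono {a b c d : A} (h : a ≤ b) (h' : c ≤ d) : a * c ≤ b * d := by
  have h1 : a * c ≤ a * d := by
    have := CLB.mul_sup' a c d
    rw [sup_eq_right.2 h'] at this
    rw [this]; exact le_sup_left
  have h2 : a * d ≤ b * d := by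
    have := CLB.mul_sup' d a b
    rw [sup_eq_right.2 h] at this
    rw [mul_comm a d, mul_comm b d, this]; exact le_sup_left
  exact h1.trans h2

theorem add_mono {a b c d : A} (h : a ≤ b) (h' : c ≤ d) : a + c ≤ b + d := by
  have h1 : a + c ≤ a + d := by
    have := CLB.add_inf' a c d
    rw [inf_eq_left.2 h'] at this
    rw [this]; exact inf_le_right
  have h2 : a + d ≤ b + d := by
    have := CLB.add_inf' d a b
    rw [inf_eq_left.2 h] at this
    rw [add_comm a d, add_comm b d, this]; exact inf_le_right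
  exact h1.trans h2

/-- `b` is a complement of `a`: `a * b ≤ 0` and `1 ≤ a + b`. -/
def IsComp (a b : A) : Prop := a * b ≤ 0 ∧ 1 ≤ a + b

theorem IsComp.symm {a b : A} (h : IsComp a b) : IsComp b a :=
  ⟨by rw [mul_comm]; exact h.1, by rw [add_comm]; exact h.2⟩

/-- residuation -/
theorem IsComp.mul_le_iff {a a' : A} (h : IsComp a a') (x y : A) :
    a * x ≤ y ↔ x ≤ a' + y := by
  constructor
  · intro hx
    calc x = x * 1 := (mul_one x).symm
      _ ≤ x * (a + a') := mul_mono le_rfl h.2
      _ ≤ x * a + a' := CLB.hemi _ _ _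
      _ = a * x + a' := by rw [mul_comm]
      _ ≤ y + a' := add_mono hx le_rfl
      _ = a' + y := add_comm _ _
  · intro hx
    calc a * x ≤ a * (a' + y) := mul_mono le_rfl hx
      _ ≤ a * a' + y := CLB.hemi _ _ _
      _ ≤ 0 + y := add_mono h.1 le_rfl
      _ = y := zero_add y

theorem IsComp.unique {a b c : A} (h : IsComp a b) (h' : IsComp a c) : b = c := by
  have key : ∀ {b c : A}, IsComp a b → IsComp a c → b ≤ c := by
    intro b c h h'
    have := (h'.mul_le_iff b 0).1 h.1
    rwa [add_zero] at this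
  exact le_antisymm (key h h') (key h' h)

theorem IsComp.mul {a a' b b' : A} (h : IsComp a a') (h' : IsComp b b') :
    IsComp (a * b) (a' + b') := by
  constructor
  · rw [mul_assoc, h.mul_le_iff, h'.mul_le_iff, add_zero, add_comm b']
  · have := (h.mul_le_iff 1 (a * b + b')).1 (by
      rw [mul_one]
      calc a = a * 1 := (mul_one a).symm
        _ ≤ a * (b + b') := mul_mono le_rfl h'.2
        _ ≤ a * b + b' := CLB.hemi _ _ _)
    calc 1 ≤ a' + (a * b + b') := this
      _ = a * b + (a' + b') := by abel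

theorem IsComp.add {a a' b b' : A} (h : IsComp a a') (h' : IsComp b b') :
    IsComp (a + b) (a' * b') := (h.symm.mul h'.symm).symm

theorem isComp_one : IsComp (1 : A) 0 := ⟨by rw [one_mul], by rw [add_zero]⟩

theorem IsComp.anti {a a' b b' : A} (h : IsComp a a') (h' : IsComp b b') (hab : a ≤ b) :
    b' ≤ a' := by
  have h1 : a * b' ≤ 0 := (mul_mono hab le_rfl).trans h'.1
  have := (h.mul_le_iff b' 0).1 h1
  rwa [add_zero] at this

end basic

/-- Every element has a complement. -/
def Complemented (A : Type u) [CLB A] : Prop := ∀ a : A, ∃ b : A, IsComp a b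

/-- Homomorphisms of commutative `ℓ`-bimonoids. -/
structure IsHom {A B : Type*} [CLB A] [CLB B] (f : A → B) : Prop where
  map_sup : ∀ x y, f (x ⊔ y) = f x ⊔ f y
  map_inf : ∀ x y, f (x ⊓ y) = f x ⊓ f y
  map_mul : ∀ x y, f (x * y) = f x * f y
  map_add : ∀ x y, f (x + y) = f x + f y
  map_one : f 1 = 1
  map_zero : f 0 = 0

/-- `e : A → B` is a complemented Dedekind-MacNeille completion: an embedding into a complete
complemented commutative `ℓ`-bimonoid in which every element is a join of elements
`e a * c` with `c` the complement of `e b`. -/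
structure IsCDM {A B : Type u} [CLB A] [CLB B] (e : A → B) : Prop where
  hom : IsHom e
  inj : Function.Injective e
  complete : ∀ S : Set B, (∃ s, IsLUB S s) ∧ (∃ s, IsGLB S s)
  compl : Complemented B
  dense : ∀ x : B, ∃ S : Set (A × A),
    IsLUB {y : B | ∃ s ∈ S, ∃ c, IsComp (e s.2) c ∧ y = e s.1 * c} x

theorem IsHom.mono {A B : Type*} [CLB A] [CLB B] {f : A → B} (h : IsHom f) {x y : A}
    (hxy : x ≤ y) : f x ≤ f y := by
  rw [← sup_eq_right, ← h.map_sup, sup_eq_right.2 hxy]

theorem IsHom.le_iff {A B : Type*} [CLB A] [CLB B] {f : A → B} (h : IsHom f)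
    (hi : Function.Injective f) {x y : A} : f x ≤ f y ↔ x ≤ y := by
  refine ⟨fun hxy => ?_, fun hxy => h.mono hxy⟩
  rw [← sup_eq_right, ← h.map_sup] at hxy
  rw [← sup_eq_right]
  exact hi hxy

theorem IsHom.comp {A B C : Type*} [CLB A] [CLB B] [CLB C] {g : B → C} {f : A → B}
    (hg : IsHom g) (hf : IsHom f) : IsHom (fun x => g (f x)) :=
  ⟨fun x y => by rw [hf.map_sup, hg.map_sup], fun x y => by rw [hf.map_inf, hg.map_inf],
   fun x y => by rw [hf.map_mul, hg.map_mul], fun x y => by rw [hf.map_add, hg.map_add],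
   by rw [hf.map_one, hg.map_one], by rw [hf.map_zero, hg.map_zero]⟩

/-! ### Uniqueness -/

section uniq

variable {A B : Type u} [CLB A] [CLB B] {e : A → B}

/-- the complement -/
noncomputable def cmp (h : IsCDM e) (x : B) : B := (h.compl x).choose

theorem cmp_spec (h : IsCDM e) (x : B) : IsComp x (cmp h x) := (h.compl x).choose_spec

/-- generators -/
noncomputable def gen (h : IsCDM e) (a b : A) : B := e a * cmp h (e b)

/-- dual generators -/
noncomputable def dgen (h : IsCDM e) (p q : A) : B := e p + cmp h (e q)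

theorem gen_le_dgen (h : IsCDM e) (a b p q : A) :
    gen h a b ≤ dgen h p q ↔ a * q ≤ p + b := by
  unfold gen dgen
  have hb := cmp_spec h (e b)
  have hq := cmp_spec h (e q)
  rw [← h.hom.le_iff h.inj, h.hom.map_mul, h.hom.map_add, add_comm (e p), ← hq.mul_le_iff,
    mul_comm (e a), ← mul_assoc, mul_comm (e q), mul_assoc, hb.symm.mul_le_iff, mul_comm (e a),
    add_comm (e p), mul_comm (e q)]

theorem gen_zero (h : IsCDM e) (a : A) : gen h a 0 = e a := by
  unfold gen
  have : cmp h (e 0) = 1 := by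
    rw [h.hom.map_zero]
    exact (cmp_spec h 0).unique isComp_one.symm
  rw [this, mul_one]

theorem gen_mul (h : IsCDM e) (a b c d : A) :
    gen h a b * gen h c d = gen h (a * c) (b + d) := by
  unfold gen
  have : cmp h (e (b + d)) = cmp h (e b) * cmp h (e d) := by
    rw [h.hom.map_add]
    exact (cmp_spec h _).unique ((cmp_spec h (e b)).add (cmp_spec h (e d)))
  rw [this, h.hom.map_mul]
  exact mul_mul_mul_comm _ _ _ _

theorem dgen_add (h : IsCDM e) (a b c d : A) :
    dgen h a b + dgen h c d = dgen h (a + c) (b * d) := by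
  unfold dgen
  have : cmp h (e (b * d)) = cmp h (e b) + cmp h (e d) := by
    rw [h.hom.map_mul]
    exact (cmp_spec h _).unique ((cmp_spec h (e b)).mul (cmp_spec h (e d)))
  rw [this, h.hom.map_add]
  exact add_add_add_comm _ _ _ _

theorem isLUB_gen (h : IsCDM e) (x : B) : IsLUB {y | ∃ a b, gen h a b ≤ x ∧ y = gen h a b} x := by
  constructor
  · rintro y ⟨a, b, hab, rfl⟩
    exact hab
  · intro w hw
    obtain ⟨S, hS⟩ := h.dense x
    refine hS.2 ?_
    rintro y ⟨s, hs, c, hc, rfl⟩
    have hcc : c = cmp h (e s.2) := hc.unique (cmp_spec h _)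
    have : e s.1 * c ≤ x := hS.1 ⟨s, hs, c, hc, rfl⟩
    rw [hcc] at this ⊢
    exact hw ⟨s.1, s.2, this, rfl⟩

theorem le_iff_gen (h : IsCDM e) (x y : B) : x ≤ y ↔ ∀ a b, gen h a b ≤ x → gen h a b ≤ y := by
  constructor
  · exact fun hxy a b hab => hab.trans hxy
  · intro hxy
    refine (isLUB_gen h x).2 ?_
    rintro z ⟨a, b, hab, rfl⟩
    exact hxy a b hab

theorem cmp_gen (h : IsCDM e) (a b : A) : cmp h (gen h a b) = dgen h b a := by
  unfold gen dgen
  have h1 := (cmp_spec h (e a)).mul (cmp_spec h (e b)).symm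
  rw [add_comm] at h1
  exact (cmp_spec h _).unique h1

theorem le_iff_dgen (h : IsCDM e) (x y : B) :
    x ≤ y ↔ ∀ p q, y ≤ dgen h p q → x ≤ dgen h p q := by
  constructor
  · exact fun hxy a b hab => hxy.trans hab
  · intro hxy
    have hx := cmp_spec h x
    have hy := cmp_spec h y
    refine IsComp.anti hy.symm hx.symm ?_
    rw [le_iff_gen h]
    intro a b hab
    have h1 := IsComp.anti (cmp_spec h (gen h a b)) hy.symm hab
    rw [cmp_gen] at h1
    have h2 := hxy _ _ h1
    have h3 := IsComp.anti hx (cmp_spec h (dgen h b a)) h2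
    have h4 : cmp h (dgen h b a) = gen h a b := by
      rw [← cmp_gen]
      exact (cmp_spec h _).unique (cmp_spec h _).symm
    rwa [h4] at h3

theorem mul_le_iff_gen (h : IsCDM e) (x y z : B) :
    x * y ≤ z ↔ ∀ a b c d, gen h a b ≤ x → gen h c d ≤ y → gen h (a * c) (b + d) ≤ z := by
  constructor
  · intro hz a b c d h1 h2
    rw [← gen_mul]
    exact (mul_mono h1 h2).trans hz
  · intro hz
    have hx := cmp_spec h x
    rw [hx.mul_le_iff, le_iff_gen h]
    intro c d hcd
    rw [← hx.mul_le_iff]
    have hcd' := cmp_spec h (gen h c d)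
    rw [mul_comm, hcd'.mul_le_iff, le_iff_gen h]
    intro a b hab
    rw [← hcd'.mul_le_iff, mul_comm, gen_mul]
    exact hz a b c d hab hcd

theorem le_add_iff_dgen (h : IsCDM e) (x y z : B) :
    z ≤ x + y ↔ ∀ a b c d, x ≤ dgen h a b → y ≤ dgen h c d → z ≤ dgen h (a + c) (b * d) := by
  constructor
  · intro hz a b c d h1 h2
    rw [← dgen_add]
    exact hz.trans (add_mono h1 h2)
  · intro hz
    have hx := cmp_spec h x
    rw [← hx.symm.mul_le_iff, le_iff_dgen h]
    intro c d hcd
    rw [hx.symm.mul_le_iff]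
    have hcd' := cmp_spec h (dgen h c d)
    rw [add_comm, ← hcd'.symm.mul_le_iff, le_iff_dgen h]
    intro a b hab
    rw [hcd'.symm.mul_le_iff, add_comm, dgen_add]
    exact hz a b c d hab hcd

end uniq

/-- Two complemented DM completions of `A` are isomorphic over `A`. -/
theorem uniqueness {A B B' : Type u} [CLB A] [CLB B] [CLB B'] {e : A → B} {e' : A → B'}
    (h : IsCDM e) (h' : IsCDM e') :
    ∃ θ : B → B', IsHom θ ∧ Function.Bijective θ ∧ ∀ a, θ (e a) = e' a := by
  have hex : ∀ x : B, ∃ s : B', IsLUB {y | ∃ a b, gen h a b ≤ x ∧ y = gen h' a b} s :=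
    fun x => (h'.complete _).1
  choose θ hθ using hex
  have hex' : ∀ x : B', ∃ s : B, IsLUB {y | ∃ a b, gen h' a b ≤ x ∧ y = gen h a b} s :=
    fun x => (h.complete _).1
  choose η hη using hex'
  -- dual description
  have hθd : ∀ x p q, θ x ≤ dgen h' p q ↔ x ≤ dgen h p q := by
    intro x p q
    rw [isLUB_le_iff (hθ x)]
    constructor
    · intro hub
      rw [le_iff_gen h]
      intro a b hab
      have := hub ⟨a, b, hab, rfl⟩
      rw [gen_le_dgen] at this ⊢
      exact this
    · intro hx
      rintro y ⟨a, b, hab, rfl⟩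
      have := hab.trans hx
      rw [gen_le_dgen] at this ⊢
      exact this
  have hηd : ∀ x p q, η x ≤ dgen h p q ↔ x ≤ dgen h' p q := by
    intro x p q
    rw [isLUB_le_iff (hη x)]
    constructor
    · intro hub
      rw [le_iff_gen h']
      intro a b hab
      have := hub ⟨a, b, hab, rfl⟩
      rw [gen_le_dgen] at this ⊢
      exact this
    · intro hx
      rintro y ⟨a, b, hab, rfl⟩
      have := hab.trans hx
      rw [gen_le_dgen] at this ⊢
      exact this
  have hηθ : ∀ x, η (θ x) = x := by
    intro x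
    apply le_antisymm
    · rw [le_iff_dgen h]
      intro p q hpq
      rw [hηd, hθd]
      exact hpq
    · rw [le_iff_dgen h]
      intro p q hpq
      rw [hηd, hθd] at hpq
      exact hpq
  have hθη : ∀ x, θ (η x) = x := by
    intro x
    apply le_antisymm
    · rw [le_iff_dgen h']
      intro p q hpq
      rw [hθd, hηd]
      exact hpq
    · rw [le_iff_dgen h']
      intro p q hpq
      rw [hθd, hηd] at hpq
      exact hpq
  have hmono : ∀ x y, θ x ≤ θ y ↔ x ≤ y := by
    intro x y
    rw [le_iff_dgen h', le_iff_dgen h]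
    simp only [hθd]
  have hsurj : ∀ y, ∃ x, θ x = y := fun y => ⟨η y, hθη y⟩
  have hgen : ∀ a b, θ (gen h a b) = gen h' a b := by
    intro a b
    apply le_antisymm
    · rw [le_iff_dgen h']
      intro p q hpq
      rw [hθd, gen_le_dgen]
      rwa [gen_le_dgen] at hpq
    · rw [le_iff_dgen h']
      intro p q hpq
      rw [hθd, gen_le_dgen] at hpq
      rwa [gen_le_dgen]
  have hgen' : ∀ a b x, gen h' a b ≤ θ x ↔ gen h a b ≤ x := by
    intro a b x
    rw [← hgen, hmono]
  refine ⟨θ, ⟨?_, ?_, ?_, ?_, ?_, ?_⟩, ⟨?_, hsurj⟩, ?_⟩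
  · intro x y
    apply le_antisymm
    · obtain ⟨z, hz⟩ := hsurj (θ x ⊔ θ y)
      rw [← hz, hmono]
      apply sup_le
      · rw [← hmono, hz]; exact le_sup_left
      · rw [← hmono, hz]; exact le_sup_right
    · exact sup_le ((hmono _ _).2 le_sup_left) ((hmono _ _).2 le_sup_right)
  · intro x y
    apply le_antisymm
    · exact le_inf ((hmono _ _).2 inf_le_left) ((hmono _ _).2 inf_le_right)
    · obtain ⟨z, hz⟩ := hsurj (θ x ⊓ θ y)
      rw [← hz, hmono]
      apply le_inf
      · rw [← hmono, hz]; exact inf_le_left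
      · rw [← hmono, hz]; exact inf_le_right
  · intro x y
    have key : ∀ z, θ x * θ y ≤ θ z ↔ x * y ≤ z := by
      intro z
      rw [mul_le_iff_gen h', mul_le_iff_gen h]
      simp only [hgen']
    apply le_antisymm
    · obtain ⟨z, hz⟩ := hsurj (θ x * θ y)
      rw [← hz, hmono, ← key, hz]
    · rw [key]
  · intro x y
    have key : ∀ z, θ z ≤ θ x + θ y ↔ z ≤ x + y := by
      intro z
      rw [le_add_iff_dgen h', le_add_iff_dgen h]
      simp only [hθd]
    apply le_antisymm
    · rw [key]
    · obtain ⟨z, hz⟩ := hsurj (θ x + θ y)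
      rw [← hz, hmono, ← key, hz]
  · rw [← h.hom.map_one, ← gen_zero h, hgen, gen_zero h', h'.hom.map_one]
  · have := hgen 0 0
    rw [gen_zero, gen_zero, h.hom.map_zero, h'.hom.map_zero] at this
    exact this
  · intro x y hxy
    rw [← hηθ x, ← hηθ y, hxy]
  · intro a
    rw [← gen_zero h, hgen, gen_zero]

end Pool.Agent.Q19.Bim
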