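import Mathlib

/-!
# Sikorski extension for distributive lattices, and complete Boolean hulls
-/

set_option autoImplicit false

universe u

namespace Pool.Agent.Q19.Bim

theorem lat_sup {L : Type*} [DistribLattice L] (a b a' b' x : L) :
    (a ⊔ b ⊓ x) ⊔ (a' ⊔ b' ⊓ x) = (a ⊔ a') ⊔ (b ⊔ b') ⊓ x := by
  rw [inf_sup_right]
  ac_rfl

theorem lat_inf {L : Type*} [DistribLattice L] (a b a' b' x : L) :
    (a ⊔ b ⊓ x) ⊓ (a' ⊔ b' ⊓ x) = (a ⊓ a') ⊔ ((a ⊓ b') ⊔ (b ⊓ a') ⊔ (b ⊓ b')) ⊓ x := by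
  simp only [inf_sup_right, inf_sup_left]
  have : b ⊓ x ⊓ (b' ⊓ x) = b ⊓ b' ⊓ x := by
    rw [inf_inf_inf_comm, inf_idem]
  rw [this]
  ac_rfl

/-- A monotone bounded sublattice of `Y × C`. -/
structure Good {Y C : Type*} [Lattice Y] [BooleanAlgebra C] (bot top : Y)
    (G : Set (Y × C)) : Prop where
  hbot : (bot, ⊥) ∈ G
  htop : (top, ⊤) ∈ G
  sup : ∀ a ∈ G, ∀ b ∈ G, a ⊔ b ∈ G
  inf : ∀ a ∈ G, ∀ b ∈ G, a ⊓ b ∈ G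
  mono : ∀ a ∈ G, ∀ b ∈ G, a.1 ≤ b.1 → a.2 ≤ b.2

theorem good_extend {Y C : Type*} [DistribLattice Y] [BooleanAlgebra C]
    (hC : ∀ S : Set C, ∃ c, IsLUB S c) {bot top : Y} (hb : ∀ y, bot ≤ y) (ht : ∀ y, y ≤ top)
    {G : Set (Y × C)} (hG : Good bot top G) (x : Y) :
    ∃ G' : Set (Y × C), Good bot top G' ∧ G ⊆ G' ∧ ∃ c, (x, c) ∈ G' := by
  obtain ⟨c, hc⟩ := hC {d | ∃ a ∈ G, ∃ b ∈ G, a.1 ≤ b.1 ⊔ x ∧ d = a.2 ⊓ b.2ᶜ}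
  have h1 : ∀ a ∈ G, ∀ b ∈ G, a.1 ≤ b.1 ⊔ x → a.2 ≤ b.2 ⊔ c := by
    intro a ha b hb' hab
    have := hc.1 ⟨a, ha, b, hb', hab, rfl⟩
    rw [← sdiff_eq, sdiff_le_iff] at this
    exact this
  have h2 : ∀ a ∈ G, ∀ b ∈ G, a.1 ⊓ x ≤ b.1 → a.2 ⊓ c ≤ b.2 := by
    intro a ha b hb' hab
    have : c ≤ a.2ᶜ ⊔ b.2 := by
      refine hc.2 ?_
      rintro d ⟨a', ha', b', hb'', hab', rfl⟩
      have h3 : (a ⊓ a').2 ≤ (b ⊔ b').2 := by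
        apply hG.mono _ (hG.inf _ ha _ ha') _ (hG.sup _ hb' _ hb'')
        calc a.1 ⊓ a'.1 ≤ a.1 ⊓ (b'.1 ⊔ x) := inf_le_inf_left _ hab'
          _ = a.1 ⊓ b'.1 ⊔ a.1 ⊓ x := inf_sup_left _ _ _
          _ ≤ b'.1 ⊔ b.1 := sup_le_sup inf_le_right hab
          _ = b.1 ⊔ b'.1 := sup_comm _ _
      rw [← sdiff_eq, sdiff_le_iff]
      have h4 : a'.2 ≤ a.2ᶜ ⊔ (b.2 ⊔ b'.2) := by
        rw [sup_comm, ← himp_eq, le_himp_iff, inf_comm]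
        exact h3
      calc a'.2 ≤ a.2ᶜ ⊔ (b.2 ⊔ b'.2) := h4
        _ = b'.2 ⊔ (a.2ᶜ ⊔ b.2) := by ac_rfl
    calc a.2 ⊓ c ≤ a.2 ⊓ (a.2ᶜ ⊔ b.2) := inf_le_inf_left _ this
      _ = a.2 ⊓ b.2 := by rw [inf_sup_left, inf_compl_self, bot_sup_eq]
      _ ≤ b.2 := inf_le_right
  let E : Y × C → Y × C → Y × C := fun a b => (a.1 ⊔ (b.1 ⊓ x), a.2 ⊔ (b.2 ⊓ c))
  refine ⟨{z | ∃ a ∈ G, ∃ b ∈ G, z = E a b}, ⟨?_, ?_, ?_, ?_, ?_⟩, ?_, ?_⟩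
  · refine ⟨(bot, ⊥), hG.hbot, (bot, ⊥), hG.hbot, ?_⟩
    simp only [E, Prod.mk.injEq]
    constructor
    · rw [inf_eq_left.2 (hb x), sup_idem]
    · simp
  · refine ⟨(top, ⊤), hG.htop, (bot, ⊥), hG.hbot, ?_⟩
    simp only [E, Prod.mk.injEq]
    constructor
    · rw [inf_eq_left.2 (hb x), sup_eq_left.2 (hb top)]
    · simp
  · rintro _ ⟨a, ha, b, hb', rfl⟩ _ ⟨a', ha', b', hb'', rfl⟩
    refine ⟨a ⊔ a', hG.sup _ ha _ ha', b ⊔ b', hG.sup _ hb' _ hb'', ?_⟩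
    apply Prod.ext
    · exact lat_sup _ _ _ _ _
    · exact lat_sup _ _ _ _ _
  · rintro _ ⟨a, ha, b, hb', rfl⟩ _ ⟨a', ha', b', hb'', rfl⟩
    refine ⟨a ⊓ a', hG.inf _ ha _ ha', (a ⊓ b') ⊔ (b ⊓ a') ⊔ (b ⊓ b'),
      hG.sup _ (hG.sup _ (hG.inf _ ha _ hb'') _ (hG.inf _ hb' _ ha')) _ (hG.inf _ hb' _ hb''), ?_⟩
    apply Prod.ext
    · exact lat_inf _ _ _ _ _
    · exact lat_inf _ _ _ _ _
  · rintro _ ⟨a, ha, b, hb', rfl⟩ _ ⟨a', ha', b', hb'', rfl⟩ hle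
    change a.1 ⊔ b.1 ⊓ x ≤ a'.1 ⊔ b'.1 ⊓ x at hle
    change a.2 ⊔ b.2 ⊓ c ≤ a'.2 ⊔ b'.2 ⊓ c
    have e1 : a.1 ≤ (a' ⊔ b').1 := (le_sup_left.trans hle).trans (sup_le_sup_left inf_le_left _)
    have e2 : a.1 ≤ a'.1 ⊔ x := (le_sup_left.trans hle).trans (sup_le_sup_left inf_le_right _)
    have e3 : b.1 ⊓ x ≤ (a' ⊔ b').1 :=
      (le_sup_right.trans hle).trans (sup_le_sup_left inf_le_left _)
    have f1 := hG.mono _ ha _ (hG.sup _ ha' _ hb'') e1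
    have f2 := h1 _ ha _ ha' e2
    have f3 := h2 _ hb' _ (hG.sup _ ha' _ hb'') e3
    rw [sup_inf_left a'.2]
    refine sup_le (le_inf f1 f2) (le_inf f3 (inf_le_right.trans le_sup_right))
  · intro a ha
    refine ⟨a, ha, (bot, ⊥), hG.hbot, ?_⟩
    apply Prod.ext
    · change a.1 = a.1 ⊔ bot ⊓ x
      rw [inf_eq_left.2 (hb x), sup_eq_left.2 (hb _)]
    · change a.2 = a.2 ⊔ ⊥ ⊓ c
      simp
  · refine ⟨c, (bot, ⊥), hG.hbot, (top, ⊤), hG.htop, ?_⟩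
    apply Prod.ext
    · change x = bot ⊔ top ⊓ x
      rw [inf_eq_right.2 (ht x), sup_eq_right.2 (hb x)]
    · change c = ⊥ ⊔ ⊤ ⊓ c
      simp

/-- Sikorski's extension theorem for bounded distributive lattices. -/
theorem sikorski {Y C : Type*} [DistribLattice Y] [BooleanAlgebra C]
    (hC : ∀ S : Set C, ∃ c, IsLUB S c) {bot top : Y} (hb : ∀ y, bot ≤ y) (ht : ∀ y, y ≤ top)
    {G : Set (Y × C)} (hG : Good bot top G) :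
    ∃ g : Y → C, (∀ x y, g (x ⊔ y) = g x ⊔ g y) ∧ (∀ x y, g (x ⊓ y) = g x ⊓ g y) ∧
      ∀ z ∈ G, g z.1 = z.2 := by
  obtain ⟨M, hGM, hM⟩ := zorn_subset_nonempty {G : Set (Y × C) | Good bot top G} (by
    intro c hc hchain hne
    refine ⟨⋃₀ c, ?_, fun s hs => Set.subset_sUnion_of_mem hs⟩
    obtain ⟨G0, hG0⟩ := hne
    have hdir : ∀ a ∈ ⋃₀ c, ∀ b ∈ ⋃₀ c, ∃ H ∈ c, a ∈ H ∧ b ∈ H := by
      rintro a ⟨H1, hH1, ha⟩ b ⟨H2, hH2, hb'⟩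
      rcases hchain.total hH1 hH2 with h | h
      · exact ⟨H2, hH2, h ha, hb'⟩
      · exact ⟨H1, hH1, ha, h hb'⟩
    refine ⟨⟨G0, hG0, (hc hG0).hbot⟩, ⟨G0, hG0, (hc hG0).htop⟩, ?_, ?_, ?_⟩
    · intro a ha b hb'
      obtain ⟨H, hH, h1, h2⟩ := hdir a ha b hb'
      exact ⟨H, hH, (hc hH).sup _ h1 _ h2⟩
    · intro a ha b hb'
      obtain ⟨H, hH, h1, h2⟩ := hdir a ha b hb'
      exact ⟨H, hH, (hc hH).inf _ h1 _ h2⟩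
    · intro a ha b hb'
      obtain ⟨H, hH, h1, h2⟩ := hdir a ha b hb'
      exact (hc hH).mono _ h1 _ h2) G hG
  have hMG : Good bot top M := hM.prop
  have htot : ∀ x : Y, ∃ c, (x, c) ∈ M := by
    intro x
    obtain ⟨G', hG', hsub, c, hc⟩ := good_extend hC hb ht hMG x
    exact ⟨c, hM.le_of_ge hG' hsub hc⟩
  choose g hg using htot
  have huniq : ∀ z ∈ M, g z.1 = z.2 := by
    intro z hz
    exact le_antisymm (hMG.mono _ (hg z.1) _ hz le_rfl) (hMG.mono _ hz _ (hg z.1) le_rfl)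
  refine ⟨g, ?_, ?_, ?_⟩
  · intro x y
    exact huniq _ (hMG.sup _ (hg x) _ (hg y))
  · intro x y
    exact huniq _ (hMG.inf _ (hg x) _ (hg y))
  · intro z hz
    exact huniq z (hGM hz)

end Pool.Agent.Q19.Bim
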