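import Mathlib

/-!
# The complete Boolean hull of the range of a lattice homomorphism
-/

set_option autoImplicit false

universe u

namespace Pool.Agent.Q19.Bim

section hull

variable {A M : Type u} [Lattice A] [DistribLattice M]

/-- pairs with `p z.1 ≰ p z.2` -/
structure PP (p : A → M) : Type u where
  /-- the pair -/
  val : A × A
  /-- not below -/
  prop : ¬ p val.1 ≤ p val.2

variable (p : A → M)

instance : Preorder (PP p) where
  le z w := p z.val.1 ≤ p w.val.1 ⊔ p z.val.2 ∧ p z.val.1 ⊓ p w.val.2 ≤ p z.val.2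
  le_refl z := ⟨le_sup_left, inf_le_right⟩
  le_trans z w t h h' := by
    obtain ⟨h1, h2⟩ := h
    obtain ⟨h3, h4⟩ := h'
    constructor
    · calc p z.val.1 ≤ p z.val.1 ⊓ (p w.val.1 ⊔ p z.val.2) := le_inf le_rfl h1
        _ ≤ p z.val.1 ⊓ ((p t.val.1 ⊔ p w.val.2) ⊔ p z.val.2) := by gcongr
        _ = (p z.val.1 ⊓ p t.val.1 ⊔ p z.val.1 ⊓ p w.val.2) ⊔ p z.val.1 ⊓ p z.val.2 := by
            rw [inf_sup_left, inf_sup_left]
        _ ≤ (p t.val.1 ⊔ p z.val.2) ⊔ p z.val.2 :=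
            sup_le_sup (sup_le_sup inf_le_right h2) inf_le_right
        _ = p t.val.1 ⊔ p z.val.2 := by rw [sup_assoc, sup_idem]
    · calc p z.val.1 ⊓ p t.val.2 ≤ (p z.val.1 ⊓ (p w.val.1 ⊔ p z.val.2)) ⊓ p t.val.2 :=
            inf_le_inf_right _ (le_inf le_rfl h1)
        _ = p z.val.1 ⊓ (p w.val.1 ⊓ p t.val.2) ⊔ p z.val.1 ⊓ (p z.val.2 ⊓ p t.val.2) := by
            rw [inf_assoc, inf_sup_right, inf_sup_left]
        _ ≤ p z.val.1 ⊓ p w.val.2 ⊔ p z.val.2 :=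
            sup_le_sup (inf_le_inf_left _ h4) (inf_le_right.trans inf_le_left)
        _ ≤ p z.val.2 := sup_le h2 le_rfl

theorem PP_le (z w : PP p) :
    z ≤ w ↔ p z.val.1 ≤ p w.val.1 ⊔ p z.val.2 ∧ p z.val.1 ⊓ p w.val.2 ≤ p z.val.2 := Iff.rfl

/-- `{x - y : x - y ≤ a}` -/
def phi (a : A) : LowerSet (PP p) where
  carrier := {z | p z.val.1 ≤ p a ⊔ p z.val.2}
  lower' := by
    intro z w hwz hz
    obtain ⟨h1, h2⟩ := hwz
    change p w.val.1 ≤ p a ⊔ p w.val.2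
    change p z.val.1 ≤ p a ⊔ p z.val.2 at hz
    calc p w.val.1 ≤ p w.val.1 ⊓ (p z.val.1 ⊔ p w.val.2) := le_inf le_rfl h1
      _ ≤ p w.val.1 ⊓ ((p a ⊔ p z.val.2) ⊔ p w.val.2) := by gcongr
      _ = (p w.val.1 ⊓ p a ⊔ p w.val.1 ⊓ p z.val.2) ⊔ p w.val.1 ⊓ p w.val.2 := by
          rw [inf_sup_left, inf_sup_left]
      _ ≤ (p a ⊔ p w.val.2) ⊔ p w.val.2 := sup_le_sup (sup_le_sup inf_le_right h2) inf_le_right
      _ = p a ⊔ p w.val.2 := by rw [sup_assoc, sup_idem]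

/-- `{x - y : x - y ≤ 1 - a}` -/
def cophi (a : A) : LowerSet (PP p) where
  carrier := {z | p z.val.1 ⊓ p a ≤ p z.val.2}
  lower' := by
    intro z w hwz hz
    obtain ⟨h1, h2⟩ := hwz
    change p w.val.1 ⊓ p a ≤ p w.val.2
    change p z.val.1 ⊓ p a ≤ p z.val.2 at hz
    calc p w.val.1 ⊓ p a ≤ (p w.val.1 ⊓ (p z.val.1 ⊔ p w.val.2)) ⊓ p a :=
          inf_le_inf_right _ (le_inf le_rfl h1)
      _ = p w.val.1 ⊓ (p z.val.1 ⊓ p a) ⊔ p w.val.1 ⊓ (p w.val.2 ⊓ p a) := by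
          rw [inf_assoc, inf_sup_right, inf_sup_left]
      _ ≤ p w.val.1 ⊓ p z.val.2 ⊔ p w.val.2 :=
          sup_le_sup (inf_le_inf_left _ hz) (inf_le_right.trans inf_le_left)
      _ ≤ p w.val.2 := sup_le h2 le_rfl

theorem mem_phi (a : A) (z : PP p) : z ∈ phi p a ↔ p z.val.1 ≤ p a ⊔ p z.val.2 := Iff.rfl

theorem mem_cophi (a : A) (z : PP p) : z ∈ cophi p a ↔ p z.val.1 ⊓ p a ≤ p z.val.2 := Iff.rfl

theorem mem_compl_lower {P : Type u} [Preorder P] (U : LowerSet P) (z : P) :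
    z ∈ Uᶜ ↔ ∀ w, w ≤ z → w ∉ U := by
  rw [← LowerSet.Iic_le, le_compl_iff_disjoint_right, disjoint_iff_inf_le]
  constructor
  · intro h w hw hwU
    have : w ∈ LowerSet.Iic z ⊓ U := ⟨hw, hwU⟩
    exact h this
  · rintro h w ⟨hw, hwU⟩
    exact (h w hw hwU).elim

variable {p}

theorem phi_compl (hi : ∀ x y, p (x ⊓ y) = p x ⊓ p y) (a : A) : (phi p a)ᶜ = cophi p a := by
  ext z
  rw [SetLike.mem_coe, mem_compl_lower, SetLike.mem_coe, mem_cophi]
  constructor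
  · intro h
    by_contra hcon
    have hP : ¬ p (z.val.1 ⊓ a) ≤ p z.val.2 := by rwa [hi]
    refine h ⟨(z.val.1 ⊓ a, z.val.2), hP⟩ ⟨?_, ?_⟩ ?_
    · change p (z.val.1 ⊓ a) ≤ p z.val.1 ⊔ p z.val.2
      rw [hi]
      exact inf_le_left.trans le_sup_left
    · change p (z.val.1 ⊓ a) ⊓ p z.val.2 ≤ p z.val.2
      exact inf_le_right
    · rw [mem_phi]
      change p (z.val.1 ⊓ a) ≤ p a ⊔ p z.val.2
      rw [hi]
      exact inf_le_right.trans le_sup_left
  · intro h w hw hwa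
    have h1 : w ∈ cophi p a := (cophi p a).lower hw h
    rw [mem_cophi] at h1
    rw [mem_phi] at hwa
    apply w.prop
    calc p w.val.1 ≤ p w.val.1 ⊓ (p a ⊔ p w.val.2) := le_inf le_rfl hwa
      _ = p w.val.1 ⊓ p a ⊔ p w.val.1 ⊓ p w.val.2 := inf_sup_left _ _ _
      _ ≤ p w.val.2 := sup_le h1 inf_le_right

theorem cophi_compl (hs : ∀ x y, p (x ⊔ y) = p x ⊔ p y) (a : A) : (cophi p a)ᶜ = phi p a := by
  ext z
  rw [SetLike.mem_coe, mem_compl_lower, SetLike.mem_coe, mem_phi]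
  constructor
  · intro h
    by_contra hcon
    have hP : ¬ p z.val.1 ≤ p (a ⊔ z.val.2) := by rwa [hs]
    refine h ⟨(z.val.1, a ⊔ z.val.2), hP⟩ ⟨?_, ?_⟩ ?_
    · change p z.val.1 ≤ p z.val.1 ⊔ p (a ⊔ z.val.2)
      exact le_sup_left
    · change p z.val.1 ⊓ p z.val.2 ≤ p (a ⊔ z.val.2)
      rw [hs]
      exact inf_le_right.trans le_sup_right
    · rw [mem_cophi]
      change p z.val.1 ⊓ p a ≤ p (a ⊔ z.val.2)
      rw [hs]
      exact inf_le_right.trans le_sup_left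
  · intro h w hw hwa
    have h1 : w ∈ phi p a := (phi p a).lower hw h
    rw [mem_phi] at h1
    rw [mem_cophi] at hwa
    apply w.prop
    calc p w.val.1 ≤ p w.val.1 ⊓ (p a ⊔ p w.val.2) := le_inf le_rfl h1
      _ = p w.val.1 ⊓ p a ⊔ p w.val.1 ⊓ p w.val.2 := inf_sup_left _ _ _
      _ ≤ p w.val.2 := sup_le hwa inf_le_right

/-- The complete Boolean hull of the range of `p`. -/
theorem hull (hs : ∀ x y, p (x ⊔ y) = p x ⊔ p y) (hi : ∀ x y, p (x ⊓ y) = p x ⊓ p y)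
    (bot top : A) (hb : ∀ y, p bot ≤ p y) (ht : ∀ y, p y ≤ p top) :
    ∃ (C : Type u) (_ : BooleanAlgebra C) (ψ : A → C),
      (∀ S : Set C, ∃ c, IsLUB S c) ∧ (∀ x y, ψ (x ⊔ y) = ψ x ⊔ ψ y) ∧
      (∀ x y, ψ (x ⊓ y) = ψ x ⊓ ψ y) ∧ ψ bot = ⊥ ∧ ψ top = ⊤ ∧
      (∀ x y, ψ x ≤ ψ y ↔ p x ≤ p y) ∧
      (∀ c : C, IsLUB {d | ∃ x y, d = ψ x ⊓ (ψ y)ᶜ ∧ d ≤ c} c) := by
  have hreg : ∀ a, Heyting.IsRegular (phi p a) := by
    intro a
    unfold Heyting.IsRegular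
    rw [phi_compl hi, cophi_compl hs]
  let ψ : A → Heyting.Regular (LowerSet (PP p)) := fun a => ⟨phi p a, hreg a⟩
  have hψ : ∀ a, (ψ a : LowerSet (PP p)) = phi p a := fun a => rfl
  have hψc : ∀ a, (((ψ a)ᶜ : Heyting.Regular (LowerSet (PP p))) : LowerSet (PP p)) =
      cophi p a := by
    intro a
    rw [Heyting.Regular.coe_compl, hψ, phi_compl hi]
  have k1 : ∀ S : Set (Heyting.Regular (LowerSet (PP p))), ∃ c, IsLUB S c := by
    intro S
    refine ⟨⟨(sSup ((fun c : Heyting.Regular (LowerSet (PP p)) => (c : LowerSet (PP p))) '' S))ᶜᶜ,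
      Heyting.isRegular_compl _⟩, ?_, ?_⟩
    · intro x hx
      rw [← Heyting.Regular.coe_le_coe]
      change (x : LowerSet (PP p)) ≤ (sSup _)ᶜᶜ
      exact le_trans (le_sSup (Set.mem_image_of_mem _ hx)) le_compl_compl
    · intro b hb'
      rw [← Heyting.Regular.coe_le_coe]
      change (sSup _)ᶜᶜ ≤ (b : LowerSet (PP p))
      have h1 : (b : LowerSet (PP p))ᶜᶜ = b := b.2
      rw [← h1]
      apply compl_le_compl
      apply compl_le_compl
      apply sSup_le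
      rintro _ ⟨x, hx, rfl⟩
      exact Heyting.Regular.coe_le_coe.2 (hb' hx)
  have k2 : ∀ x y, ψ (x ⊔ y) = ψ x ⊔ ψ y := by
    intro x y
    apply compl_injective
    have e1 : ((ψ x ⊔ ψ y)ᶜ) = (ψ x)ᶜ ⊓ (ψ y)ᶜ := compl_sup
    refine Eq.trans ?_ e1.symm
    rw [← Heyting.Regular.coe_inj, Heyting.Regular.coe_inf, hψc, hψc, hψc]
    ext z
    simp only [SetLike.mem_coe, LowerSet.mem_inf_iff, mem_cophi, hs]
    rw [inf_sup_left]
    exact ⟨fun h => ⟨le_sup_left.trans h, le_sup_right.trans h⟩, fun h => sup_le h.1 h.2⟩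
  have k3 : ∀ x y, ψ (x ⊓ y) = ψ x ⊓ ψ y := by
    intro x y
    rw [← Heyting.Regular.coe_inj, Heyting.Regular.coe_inf, hψ, hψ, hψ]
    ext z
    simp only [SetLike.mem_coe, LowerSet.mem_inf_iff, mem_phi, hi]
    rw [sup_inf_right]
    exact ⟨fun h => ⟨h.trans inf_le_left, h.trans inf_le_right⟩, fun h => le_inf h.1 h.2⟩
  have k4 : ψ bot = ⊥ := by
    rw [← Heyting.Regular.coe_inj, Heyting.Regular.coe_bot, hψ]
    ext z
    simp only [SetLike.mem_coe, mem_phi, LowerSet.notMem_bot, iff_false]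
    rw [sup_eq_right.2 (hb _)]
    exact z.prop
  have k5 : ψ top = ⊤ := by
    rw [← Heyting.Regular.coe_inj, Heyting.Regular.coe_top, hψ]
    ext z
    simp only [SetLike.mem_coe, mem_phi, LowerSet.mem_top, iff_true]
    exact (ht _).trans le_sup_left
  have k6 : ∀ x y, ψ x ≤ ψ y ↔ p x ≤ p y := by
    intro x y
    rw [← Heyting.Regular.coe_le_coe, hψ, hψ]
    constructor
    · intro h
      by_contra hcon
      have h1 : (PP.mk (x, y) hcon : PP p) ∈ phi p x := by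
        rw [mem_phi]
        exact le_sup_left
      have h2 := h h1
      rw [SetLike.mem_coe, mem_phi] at h2
      change p x ≤ p y ⊔ p y at h2
      rw [sup_idem] at h2
      exact hcon h2
    · intro h z hz
      rw [SetLike.mem_coe, mem_phi] at hz ⊢
      exact hz.trans (sup_le_sup_right h _)
  have k7 : ∀ c : Heyting.Regular (LowerSet (PP p)),
      IsLUB {d | ∃ x y, d = ψ x ⊓ (ψ y)ᶜ ∧ d ≤ c} c := by
    intro c
    constructor
    · rintro d ⟨x, y, _, hd⟩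
      exact hd
    · intro b hb'
      rw [← Heyting.Regular.coe_le_coe]
      intro z hz
      have hd : (ψ z.val.1 ⊓ (ψ z.val.2)ᶜ : Heyting.Regular (LowerSet (PP p))) ≤ c := by
        rw [← Heyting.Regular.coe_le_coe, Heyting.Regular.coe_inf, hψ, hψc]
        rintro w ⟨hw1, hw2⟩
        exact (c : LowerSet (PP p)).lower (show w ≤ z from ⟨hw1, hw2⟩) hz
      have := hb' ⟨z.val.1, z.val.2, rfl, hd⟩
      rw [← Heyting.Regular.coe_le_coe, Heyting.Regular.coe_inf, hψ, hψc] at this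
      exact this ⟨(le_sup_left : p z.val.1 ≤ _), (inf_le_right : _ ≤ p z.val.2)⟩
  exact ⟨Heyting.Regular (LowerSet (PP p)), inferInstance, ψ, k1, k2, k3, k4, k5, k6, k7⟩

end hull

end Pool.Agent.Q19.Bim
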