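import Pool.Agent.Q19.Bim
import Pool.Agent.Q19.BimHull
import Pool.Agent.Q19.BimHull2

/-!
# The algebras `K C v`
-/

set_option autoImplicit false

universe u

namespace Pool.Agent.Q19.Bim

/-- pairs `(p, q)` with `q ≤ v` -/
@[ext] structure K (C : Type u) [BooleanAlgebra C] (v : C) : Type u where
  /-- first coordinate -/
  a : C
  /-- second coordinate -/
  b : C
  /-- second coordinate below `v` -/
  hb : b ≤ v

namespace K

variable {C : Type u} [BooleanAlgebra C] {v : C}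

instance : Max (K C v) := ⟨fun x y => ⟨x.a ⊔ y.a, x.b ⊔ y.b, sup_le x.hb y.hb⟩⟩
instance : Min (K C v) := ⟨fun x y => ⟨x.a ⊓ y.a, x.b ⊓ y.b, inf_le_left.trans x.hb⟩⟩
instance : LE (K C v) := ⟨fun x y => x.a ≤ y.a ∧ x.b ≤ y.b⟩
instance : LT (K C v) := ⟨fun x y => x ≤ y ∧ ¬ y ≤ x⟩
instance : Mul (K C v) := ⟨fun x y => ⟨(x.a ⊓ y.a) ⊔ (x.b ⊓ y.b), (x.a ⊓ y.b) ⊔ (x.b ⊓ y.a),
  sup_le (inf_le_right.trans y.hb) (inf_le_left.trans x.hb)⟩⟩
instance : One (K C v) := ⟨⟨⊤, ⊥, bot_le⟩⟩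
instance : Zero (K C v) := ⟨⟨⊥, v, le_rfl⟩⟩

/-- negation -/
def neg (x : K C v) : K C v := ⟨x.aᶜ, x.bᶜ ⊓ v, inf_le_right⟩

instance : Add (K C v) := ⟨fun x y => neg (neg x * neg y)⟩

@[simp] theorem sup_a (x y : K C v) : (x ⊔ y).a = x.a ⊔ y.a := rfl
@[simp] theorem sup_b (x y : K C v) : (x ⊔ y).b = x.b ⊔ y.b := rfl
@[simp] theorem inf_a (x y : K C v) : (x ⊓ y).a = x.a ⊓ y.a := rfl
@[simp] theorem inf_b (x y : K C v) : (x ⊓ y).b = x.b ⊓ y.b := rfl
@[simp] theorem mul_a (x y : K C v) : (x * y).a = (x.a ⊓ y.a) ⊔ (x.b ⊓ y.b) := rfl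
@[simp] theorem mul_b (x y : K C v) : (x * y).b = (x.a ⊓ y.b) ⊔ (x.b ⊓ y.a) := rfl
@[simp] theorem one_a : (1 : K C v).a = ⊤ := rfl
@[simp] theorem one_b : (1 : K C v).b = ⊥ := rfl
@[simp] theorem zero_a : (0 : K C v).a = ⊥ := rfl
@[simp] theorem zero_b : (0 : K C v).b = v := rfl
@[simp] theorem neg_a (x : K C v) : (neg x).a = x.aᶜ := rfl
@[simp] theorem neg_b (x : K C v) : (neg x).b = x.bᶜ ⊓ v := rfl
theorem add_def (x y : K C v) : x + y = neg (neg x * neg y) := rfl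
theorem le_def (x y : K C v) : x ≤ y ↔ x.a ≤ y.a ∧ x.b ≤ y.b := Iff.rfl

theorem neg_neg' (x : K C v) : neg (neg x) = x := by
  ext1
  · simp
  · rw [neg_b, neg_b, compl_inf, compl_compl, inf_sup_right, compl_inf_eq_bot, sup_bot_eq]
    exact inf_eq_left.2 x.hb

theorem neg_inj {x y : K C v} (h : neg x = neg y) : x = y := by
  rw [← neg_neg' x, ← neg_neg' y, h]

theorem neg_one : neg (1 : K C v) = 0 := by ext1 <;> simp

theorem neg_zero : neg (0 : K C v) = 1 := by ext1 <;> simp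

theorem mul_assoc' (x y z : K C v) : x * y * z = x * (y * z) := by
  ext1
  · simp only [mul_a, mul_b, inf_sup_left, inf_sup_right]; ac_rfl
  · simp only [mul_a, mul_b, inf_sup_left, inf_sup_right]; ac_rfl

theorem mul_comm' (x y : K C v) : x * y = y * x := by
  ext1
  · simp only [mul_a, mul_b]; ac_rfl
  · simp only [mul_a, mul_b]; ac_rfl

theorem one_mul' (x : K C v) : 1 * x = x := by ext1 <;> simp

theorem le_neg_iff (x y : K C v) : x ≤ neg y ↔ x * y ≤ 0 := by
  rw [le_def, le_def]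
  simp only [neg_a, neg_b, mul_a, mul_b, zero_a, zero_b, le_inf_iff, sup_le_iff, le_bot_iff,
    x.hb, and_true]
  rw [le_compl_iff_disjoint_right, le_compl_iff_disjoint_right, disjoint_iff, disjoint_iff,
    sup_eq_bot_iff]
  constructor
  · rintro ⟨h1, h2⟩
    exact ⟨⟨h1, h2⟩, inf_le_right.trans y.hb, inf_le_left.trans x.hb⟩
  · rintro ⟨h1, _⟩
    exact h1

instance : Lattice (K C v) where
  sup := (· ⊔ ·)
  inf := (· ⊓ ·)
  le_refl _ := ⟨le_rfl, le_rfl⟩
  le_trans _ _ _ h h' := ⟨h.1.trans h'.1, h.2.trans h'.2⟩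
  lt_iff_le_not_ge _ _ := Iff.rfl
  le_antisymm _ _ h h' := K.ext (le_antisymm h.1 h'.1) (le_antisymm h.2 h'.2)
  le_sup_left _ _ := ⟨le_sup_left, le_sup_left⟩
  le_sup_right _ _ := ⟨le_sup_right, le_sup_right⟩
  sup_le _ _ _ h h' := ⟨sup_le h.1 h'.1, sup_le h.2 h'.2⟩
  inf_le_left _ _ := ⟨inf_le_left, inf_le_left⟩
  inf_le_right _ _ := ⟨inf_le_right, inf_le_right⟩
  le_inf _ _ _ h h' := ⟨le_inf h.1 h'.1, le_inf h.2 h'.2⟩

theorem mul_mono' {x y z : K C v} (h : x ≤ y) : x * z ≤ y * z :=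
  ⟨sup_le_sup (inf_le_inf_right _ h.1) (inf_le_inf_right _ h.2),
   sup_le_sup (inf_le_inf_right _ h.1) (inf_le_inf_right _ h.2)⟩

instance : CLB (K C v) where
  mul_assoc := mul_assoc'
  one_mul := one_mul'
  mul_one x := by rw [mul_comm', one_mul']
  mul_comm := mul_comm'
  add_assoc x y z := by
    rw [add_def, add_def, add_def, add_def, neg_neg', neg_neg', mul_assoc']
  zero_add x := by rw [add_def, neg_zero, one_mul', neg_neg']
  add_zero x := by rw [add_def, neg_zero, mul_comm', one_mul', neg_neg']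
  add_comm x y := by rw [add_def, add_def, mul_comm']
  nsmul := nsmulRec
  mul_sup' x y z := by
    ext1
    · simp only [mul_a, sup_a, sup_b, inf_sup_left]; ac_rfl
    · simp only [mul_b, sup_a, sup_b, inf_sup_left]; ac_rfl
  add_inf' x y z := by
    apply neg_inj
    have h : ∀ s t : K C v, neg (s ⊓ t) = neg s ⊔ neg t := by
      intro s t
      ext1
      · simp only [neg_a, inf_a, sup_a, compl_inf]
      · simp only [neg_b, inf_b, sup_b, compl_inf, inf_sup_right]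
    rw [h]
    simp only [add_def, neg_neg', h]
    ext1
    · simp only [mul_a, sup_a, sup_b, inf_sup_left]; ac_rfl
    · simp only [mul_b, sup_a, sup_b, inf_sup_left]; ac_rfl
  hemi x y z := by
    rw [add_def, add_def, le_neg_iff]
    have e1 : neg (neg y * neg z) * neg z ≤ y := by
      rw [← neg_neg' y, le_neg_iff, neg_neg', mul_assoc', mul_comm' (neg z)]
      rw [← le_neg_iff]
    have e2 : (x * y) * neg (x * y) ≤ 0 := by
      rw [← le_neg_iff, neg_neg']
    calc x * neg (neg y * neg z) * (neg (x * y) * neg z)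
        = (neg (neg y * neg z) * neg z) * (x * neg (x * y)) := by
          rw [mul_assoc', mul_assoc']
          rw [mul_comm' (neg (x * y)) (neg z), ← mul_assoc' x, ← mul_assoc' (x * _),
            mul_comm' x, mul_assoc' _ x, mul_comm' x, mul_assoc', mul_assoc']
      _ ≤ y * (x * neg (x * y)) := mul_mono' e1
      _ = (x * y) * neg (x * y) := by rw [← mul_assoc', mul_comm' y]
      _ ≤ 0 := e2

end K

end Pool.Agent.Q19.Bim
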