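import Pool.Agent.Q19.BimV

/-!
# The complemented DM completion is the injective hull in the variety
-/

set_option autoImplicit false

universe u

namespace Pool.Agent.Q19.Bim

/-- `e : A → E` is an injective hull of `A` in the variety `Mod S` (algebras in `Type u`). -/
structure IsInjHull (S : Set (Tm × Tm)) {A E : Type u} [CLB A] [CLB E] (e : A → E) : Prop where
  mod : Mod S E
  hom : IsHom e
  inj : Function.Injective e
  essential : ∀ (Z : Type u) [CLB Z], Mod S Z → ∀ f : E → Z, IsHom f →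
    Function.Injective (fun a => f (e a)) → Function.Injective f
  injective : ∀ (X Y : Type u) [CLB X] [CLB Y], Mod S X → Mod S Y → ∀ i : X → Y, IsHom i →
    Function.Injective i → ∀ h : X → E, IsHom h → ∃ H : Y → E, IsHom H ∧ ∀ x, H (i x) = h x

section homterms

variable {A B : Type*} [CLB A] [CLB B] {f : A → B}

theorem IsHom.TT (h : IsHom f) : f (TT A) = TT B := by
  unfold Bim.TT; rw [h.map_sup, h.map_one, h.map_zero]

theorem IsHom.BB (h : IsHom f) : f (BB A) = BB B := by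
  unfold Bim.BB; rw [h.map_inf, h.map_one, h.map_zero]

theorem IsHom.vv (h : IsHom f) : f (vv A) = vv B := by
  unfold Bim.vv; rw [h.map_mul, h.TT, h.map_zero]

theorem IsHom.pp (h : IsHom f) (x : A) : f (pp x) = pp (f x) := by
  unfold Bim.pp; rw [h.map_mul, h.TT, h.map_inf, h.map_one]

theorem IsHom.qq (h : IsHom f) (x : A) : f (qq x) = qq (f x) := by
  unfold Bim.qq; rw [h.map_mul, h.TT, h.map_inf, h.map_zero]

end homterms

section Kterms

variable {C : Type u} [BooleanAlgebra C] (v : C)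

theorem K_TT_a : (TT (K C v)).a = ⊤ := by
  change (⊤ ⊔ ⊥ : C) = ⊤; simp
theorem K_TT_b : (TT (K C v)).b = v := by
  change (⊥ ⊔ v : C) = v; simp
theorem K_BB_a : (BB (K C v)).a = ⊥ := by
  change (⊤ ⊓ ⊥ : C) = ⊥; simp
theorem K_BB_b : (BB (K C v)).b = ⊥ := by
  change (⊥ ⊓ v : C) = ⊥; simp
theorem K_vv_a : (vv (K C v)).a = v := by
  change (⊥ ⊓ (TT (K C v)).a) ⊔ (v ⊓ (TT (K C v)).b) = v
  rw [K_TT_b]; simp
theorem K_pp_a (z : K C v) : (pp z).a = z.a := by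
  change ((z.a ⊓ ⊤) ⊓ (TT (K C v)).a) ⊔ ((z.b ⊓ ⊥) ⊓ (TT (K C v)).b) = z.a
  rw [K_TT_a, K_TT_b]; simp
theorem K_pp_b (z : K C v) : (pp z).b = z.a ⊓ v := by
  change ((z.a ⊓ ⊤) ⊓ (TT (K C v)).b) ⊔ ((z.b ⊓ ⊥) ⊓ (TT (K C v)).a) = z.a ⊓ v
  rw [K_TT_a, K_TT_b]; simp
theorem K_qq_a (z : K C v) : (qq z).a = z.b := by
  change ((z.a ⊓ ⊥) ⊓ (TT (K C v)).a) ⊔ ((z.b ⊓ v) ⊓ (TT (K C v)).b) = z.b
  rw [K_TT_a, K_TT_b]; simp [z.hb]
theorem K_qq_b (z : K C v) : (qq z).b = z.b := by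
  change ((z.a ⊓ ⊥) ⊓ (TT (K C v)).b) ⊔ ((z.b ⊓ v) ⊓ (TT (K C v)).a) = z.b
  rw [K_TT_a, K_TT_b]; simp [z.hb]

/-- the diagonal `C → K C v` -/
def iot (c : C) : K C v := ⟨c, c ⊓ v, inf_le_right⟩

theorem pp_eq (z : K C v) : pp z = iot v z.a := K.ext (K_pp_a v z) (K_pp_b v z)

theorem qq_eq (z : K C v) : qq z = iot v z.b :=
  K.ext (K_qq_a v z) ((K_qq_b v z).trans (inf_eq_left.2 z.hb).symm)

theorem iot_inf (c d : C) : iot v (c ⊓ d) = iot v c ⊓ iot v d :=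
  K.ext rfl (by
    change c ⊓ d ⊓ v = (c ⊓ v) ⊓ (d ⊓ v)
    rw [inf_inf_inf_comm, inf_idem])

theorem iot_sup (c d : C) : iot v (c ⊔ d) = iot v c ⊔ iot v d :=
  K.ext rfl (by
    change (c ⊔ d) ⊓ v = (c ⊓ v) ⊔ (d ⊓ v)
    rw [inf_sup_right])

end Kterms

/-- A bounded lattice homomorphism `g : Y → C` with `g v = v` gives a homomorphism to
`K C v`. -/
theorem lift {Y : Type u} [CLB Y] (hY : Mod Sig Y) {C : Type u} [BooleanAlgebra C] (v : C)
    (g : Y → C) (gs : ∀ x y, g (x ⊔ y) = g x ⊔ g y) (gi : ∀ x y, g (x ⊓ y) = g x ⊓ g y)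
    (gT : g (TT Y) = ⊤) (gB : g (BB Y) = ⊥) (gv : g (vv Y) = v) :
    ∃ H : Y → K C v, IsHom H ∧ (∀ y, (H y).a = g (pp y)) ∧ (∀ y, (H y).b = g (qq y)) := by
  have hle : ∀ y, g (qq y) ≤ v := by
    intro y
    rw [← gv, ← id_qq_vv hY y, gi]
    exact inf_le_right
  have gu : g (uu Y) = vᶜ := by
    rw [← gv]
    symm
    apply IsCompl.compl_eq
    constructor
    · rw [disjoint_iff, inf_comm, ← gi, id_uv_inf hY, gB]
    · rw [codisjoint_iff, sup_comm, ← gs, id_uv_sup hY, gT]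
  refine ⟨fun y => ⟨g (pp y), g (qq y), hle y⟩, ⟨?_, ?_, ?_, ?_, ?_, ?_⟩, fun _ => rfl,
    fun _ => rfl⟩
  · intro x y
    apply K.ext
    · change g (pp (x ⊔ y)) = g (pp x) ⊔ g (pp y)
      rw [id_pp_sup hY, gs]
    · change g (qq (x ⊔ y)) = g (qq x) ⊔ g (qq y)
      rw [id_qq_sup hY, gs]
  · intro x y
    apply K.ext
    · change g (pp (x ⊓ y)) = g (pp x) ⊓ g (pp y)
      rw [id_pp_inf hY, gi]
    · change g (qq (x ⊓ y)) = g (qq x) ⊓ g (qq y)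
      rw [id_qq_inf hY, gi]
  · intro x y
    apply K.ext
    · change g (pp (x * y)) = (g (pp x) ⊓ g (pp y)) ⊔ (g (qq x) ⊓ g (qq y))
      rw [id_pp_mul hY, gs, gi, gi]
    · change g (qq (x * y)) = (g (pp x) ⊓ g (qq y)) ⊔ (g (qq x) ⊓ g (pp y))
      rw [id_qq_mul hY, gs, gi, gi]
  · intro x y
    have hqx := hle x
    have hqy := hle y
    apply K.ext
    · change g (pp (x + y)) = (((g (pp x))ᶜ ⊓ (g (pp y))ᶜ) ⊔
        (((g (qq x))ᶜ ⊓ v) ⊓ ((g (qq y))ᶜ ⊓ v)))ᶜ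
      rw [id_pp_add hY, gi, gs, gs, gs, gu, compl_sup, compl_inf, compl_compl, compl_compl]
      congr 1
      rw [inf_inf_inf_comm, inf_idem, compl_inf, compl_inf, compl_compl, compl_compl]
    · change g (qq (x + y)) = (((g (pp x))ᶜ ⊓ ((g (qq y))ᶜ ⊓ v)) ⊔
        (((g (qq x))ᶜ ⊓ v) ⊓ (g (pp y))ᶜ))ᶜ ⊓ v
      rw [id_qq_add hY, gi, gi, gs, gs, gv, compl_sup, compl_inf, compl_inf, compl_compl,
        compl_inf, compl_inf, compl_compl, compl_compl, compl_compl]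
      have e3 : ∀ X Y : C, X ⊓ Y ⊓ v = (X ⊓ v) ⊓ (Y ⊓ v) :=
        fun X Y => inf_inf_distrib_right X Y v
      have e1 : (g (pp x) ⊔ (g (qq y) ⊔ vᶜ)) ⊓ v = (g (pp x) ⊔ g (qq y)) ⊓ v := by
        rw [← sup_assoc, inf_sup_right, compl_inf_self, sup_bot_eq]
      have e2 : ((g (qq x) ⊔ vᶜ) ⊔ g (pp y)) ⊓ v = (g (qq x) ⊔ g (pp y)) ⊓ v := by
        rw [sup_right_comm, inf_sup_right _ vᶜ, compl_inf_self, sup_bot_eq]
      rw [e3 (g (pp x) ⊔ (g (qq y) ⊔ vᶜ)), e1, e2, ← e3]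
  · apply K.ext
    · change g (pp 1) = ⊤
      rw [id_pp_one hY, gT]
    · change g (qq 1) = ⊥
      rw [id_qq_one hY, gB]
  · apply K.ext
    · change g (pp 0) = ⊥
      rw [id_pp_zero hY, gB]
    · change g (qq 0) = v
      rw [id_qq_zero hY, gv]

theorem K_comp {C : Type u} [BooleanAlgebra C] {v : C} (x : K C v) : IsComp x (K.neg x) := by
  have h : x * K.neg x ≤ 0 := by rw [← K.le_neg_iff, K.neg_neg']
  refine ⟨h, ?_⟩
  rw [K.add_def, K.le_neg_iff, one_mul, K.neg_neg', mul_comm]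
  exact h

theorem K_complete {C : Type u} [BooleanAlgebra C] {v : C} (hC : ∀ S : Set C, ∃ c, IsLUB S c)
    (S : Set (K C v)) : ∃ s, IsLUB S s := by
  obtain ⟨a, ha⟩ := hC (K.a '' S)
  obtain ⟨b, hb⟩ := hC (K.b '' S)
  have hbv : b ≤ v := by
    refine hb.2 ?_
    rintro _ ⟨z, _, rfl⟩
    exact z.hb
  refine ⟨⟨a, b, hbv⟩, ?_, ?_⟩
  · intro z hz
    exact ⟨ha.1 ⟨z, hz, rfl⟩, hb.1 ⟨z, hz, rfl⟩⟩
  · intro w hw
    constructor
    · refine ha.2 ?_
      rintro _ ⟨z, hz, rfl⟩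
      exact (hw hz).1
    · refine hb.2 ?_
      rintro _ ⟨z, hz, rfl⟩
      exact (hw hz).2

/-- The concrete completion and hull. -/
theorem concrete {A : Type u} [CLB A] (hA : Mod Sig A) :
    ∃ (E : Type u) (_ : CLB E) (e : A → E), IsCDM e ∧ IsInjHull Sig e := by
  letI : DistribLattice A := { (inferInstance : Lattice A) with
    le_sup_inf := by
      intro x y z
      have key := id_distrib hA
      have : (x ⊔ y) ⊓ (x ⊔ z) = x ⊔ y ⊓ z := by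
        rw [key, inf_comm (x ⊔ y) x, inf_sup_self, inf_comm (x ⊔ y) z, key,
          inf_comm z x, ← sup_assoc, sup_inf_self, inf_comm]
      rw [this] }
  obtain ⟨C, instC, ψ, hC, ψs, ψi, ψB, ψT, ψle, ψd⟩ := hull (A := A) (M := A) (p := pp)
    (id_pp_sup hA) (id_pp_inf hA) (BB A) (TT A)
    (fun y => by rw [id_pp_BB hA]; exact BB_le hA _)
    (fun y => by rw [id_pp_TT hA]; exact le_TT hA _)
  have ψpp : ∀ a, ψ (pp a) = ψ a := by
    intro a
    apply le_antisymm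
    · rw [ψle, id_pp_pp hA]
    · rw [ψle, id_pp_pp hA]
  obtain ⟨v, hv⟩ : ∃ v, v = ψ (vv A) := ⟨_, rfl⟩
  obtain ⟨e, he, hea, heb⟩ := lift hA v ψ ψs ψi ψT ψB hv.symm
  have hea' : ∀ a, (e a).a = ψ a := fun a => by rw [hea, ψpp]
  have hinj : Function.Injective e := by
    intro x y hxy
    have h1 : pp x = pp y := by
      have h2 : ψ x = ψ y := by rw [← hea' x, ← hea' y, hxy]
      exact le_antisymm ((ψle _ _).1 h2.le) ((ψle _ _).1 h2.ge)
    have h3 : qq x = qq y := by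
      have h4 : ψ (qq x) = ψ (qq y) := by rw [← heb x, ← heb y, hxy]
      have h5 : pp (qq x) = pp (qq y) := le_antisymm ((ψle _ _).1 h4.le) ((ψle _ _).1 h4.ge)
      rwa [id_pp_qq hA, id_pp_qq hA] at h5
    rw [id_decomp hA x, id_decomp hA y, h1, h3]
  -- values of `e`
  have e1 : ∀ x, e (1 ⊓ x) = ⟨ψ x, ⊥, bot_le⟩ := by
    intro x
    apply K.ext
    · rw [hea', ← ψpp, id_pp_inf hA, ψi, id_pp_one hA, ψT, top_inf_eq, ψpp]
    · rw [heb, id_qq_inf hA, ψi, id_qq_one hA, ψB, bot_inf_eq]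
  have e2 : ∀ y, e ((1 ⊓ y) ⊔ 0) = ⟨ψ y, v, le_rfl⟩ := by
    intro y
    apply K.ext
    · rw [he.map_sup, e1, he.map_zero, K.sup_a, K.zero_a, sup_bot_eq]
    · rw [he.map_sup, e1, he.map_zero, K.sup_b, K.zero_b, bot_sup_eq]
  have e2n : ∀ y, K.neg (e ((1 ⊓ y) ⊔ 0)) = ⟨(ψ y)ᶜ, ⊥, bot_le⟩ := by
    intro y
    rw [e2]
    apply K.ext
    · rfl
    · change vᶜ ⊓ v = ⊥
      exact compl_inf_self v
  have e3 : ∀ x, e (0 ⊓ pp x) = ⟨⊥, ψ x ⊓ v, inf_le_right⟩ := by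
    intro x
    apply K.ext
    · rw [hea', ← ψpp, id_pp_inf hA, ψi, id_pp_zero hA, ψB, bot_inf_eq]
    · rw [heb, id_qq_inf hA, ψi, id_qq_zero hA, id_qq_pp hA, ψi, ψpp, ← hv]
      change v ⊓ (ψ x ⊓ v) = ψ x ⊓ v
      exact inf_eq_right.2 inf_le_right
  have g1 : ∀ x y, e (1 ⊓ x) * K.neg (e ((1 ⊓ y) ⊔ 0)) = ⟨ψ x ⊓ (ψ y)ᶜ, ⊥, bot_le⟩ := by
    intro x y
    rw [e1, e2n]
    apply K.ext
    · change (ψ x ⊓ (ψ y)ᶜ) ⊔ (⊥ ⊓ ⊥) = _
      simp
    · change (ψ x ⊓ ⊥) ⊔ (⊥ ⊓ (ψ y)ᶜ) = ⊥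
      simp
  have g2 : ∀ x y, e (0 ⊓ pp x) * K.neg (e ((1 ⊓ y) ⊔ 0)) =
      ⟨⊥, (ψ x ⊓ (ψ y)ᶜ) ⊓ v, inf_le_right⟩ := by
    intro x y
    rw [e3, e2n]
    apply K.ext
    · change (⊥ ⊓ (ψ y)ᶜ) ⊔ ((ψ x ⊓ v) ⊓ ⊥) = ⊥
      simp
    · change (⊥ ⊓ ⊥) ⊔ ((ψ x ⊓ v) ⊓ (ψ y)ᶜ) = (ψ x ⊓ (ψ y)ᶜ) ⊓ v
      simp only [bot_inf_eq, bot_sup_eq]
      ac_rfl
  have hcompl : ∀ z : K C v, ∀ c, IsComp z c → c = K.neg z := fun z c hc => hc.unique (K_comp z)
  have hcdm : IsCDM e := by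
    refine ⟨he, hinj, fun S => ⟨K_complete hC S, ?_⟩, fun z => ⟨_, K_comp z⟩, ?_⟩
    · obtain ⟨s, hs⟩ := K_complete hC (lowerBounds S)
      exact ⟨s, isLUB_lowerBounds.1 hs⟩
    · intro z
      refine ⟨{s | e s.1 * K.neg (e s.2) ≤ z}, ?_, ?_⟩
      · rintro _ ⟨s, hs, c, hc, rfl⟩
        rw [hcompl _ _ hc]
        exact hs
      · intro w hw
        have hw' : ∀ s : A × A, e s.1 * K.neg (e s.2) ≤ z → e s.1 * K.neg (e s.2) ≤ w :=
          fun s hs => hw ⟨s, hs, K.neg (e s.2), K_comp _, rfl⟩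
        constructor
        · refine (ψd z.a).2 ?_
          rintro _ ⟨x, y, rfl, hle⟩
          have := hw' (1 ⊓ x, (1 ⊓ y) ⊔ 0) (by
            rw [g1]
            exact ⟨hle, bot_le⟩)
          rw [g1] at this
          exact this.1
        · refine (ψd z.b).2 ?_
          rintro _ ⟨x, y, rfl, hle⟩
          have hv' : (ψ x ⊓ (ψ y)ᶜ) ⊓ v = ψ x ⊓ (ψ y)ᶜ := inf_eq_left.2 (hle.trans z.hb)
          have := hw' (0 ⊓ pp x, (1 ⊓ y) ⊔ 0) (by
            rw [g2]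
            refine ⟨bot_le, ?_⟩
            change (ψ x ⊓ (ψ y)ᶜ) ⊓ v ≤ z.b
            rw [hv']
            exact hle)
          rw [g2] at this
          have h2 := this.2
          change (ψ x ⊓ (ψ y)ᶜ) ⊓ v ≤ w.b at h2
          rwa [hv'] at h2
  refine ⟨K C v, inferInstance, e, hcdm, ⟨mod_K v, he, hinj, ?_, ?_⟩⟩
  · -- essential
    intro Z _ _ f hf hfe
    have hpp : ∀ a, iot v (ψ a) = e (pp a) := by
      intro a
      apply K.ext
      · rw [hea', ψpp]; rfl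
      · rw [heb, id_qq_pp hA, ψi, ψpp, ← hv]; rfl
    have key : ∀ c d : C, f (iot v c) = f (iot v d) → c ≤ d := by
      intro c d hcd
      have hbot : c ⊓ dᶜ ≤ ⊥ := by
        refine (ψd (c ⊓ dᶜ)).2 ?_
        rintro _ ⟨a, b, rfl, hle⟩
        set g := ψ a ⊓ (ψ b)ᶜ with hg
        have hgc : g ⊓ c = g := inf_eq_left.2 (hle.trans inf_le_left)
        have hgd : g ⊓ d = ⊥ := by
          rw [← le_bot_iff]
          calc g ⊓ d ≤ dᶜ ⊓ d := inf_le_inf_right _ (hle.trans inf_le_right)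
            _ = ⊥ := compl_inf_self d
        have h1 : f (iot v g) = f (iot v ⊥) := by
          conv_lhs => rw [← hgc]
          rw [iot_inf, hf.map_inf, hcd, ← hf.map_inf, ← iot_inf, hgd]
        have h2 : f (iot v (ψ a)) = f (iot v (ψ a ⊓ ψ b)) := by
          have h3 : ψ a = (ψ a ⊓ ψ b) ⊔ g := by
            rw [hg, ← inf_sup_left, sup_compl_eq_top, inf_top_eq]
          conv_lhs => rw [h3]
          rw [iot_sup, hf.map_sup, h1, ← hf.map_sup, ← iot_sup, sup_bot_eq]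
        rw [← ψi, hpp, hpp] at h2
        have h4 : pp a = pp (a ⊓ b) := hfe h2
        rw [id_pp_inf hA] at h4
        have h5 : pp a ≤ pp b := by rw [h4]; exact inf_le_right
        have h6 : ψ a ≤ ψ b := (ψle _ _).2 h5
        calc g ≤ ψ b ⊓ (ψ b)ᶜ := inf_le_inf_right _ h6
          _ = ⊥ := inf_compl_self _
          _ ≤ ⊥ := le_rfl
      rw [← sdiff_eq, sdiff_le_iff, sup_bot_eq] at hbot
      exact hbot
    intro z w hzw
    have hp : f (iot v z.a) = f (iot v w.a) := by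
      rw [← pp_eq, ← pp_eq, hf.pp, hf.pp, hzw]
    have hq : f (iot v z.b) = f (iot v w.b) := by
      rw [← qq_eq, ← qq_eq, hf.qq, hf.qq, hzw]
    exact K.ext (le_antisymm (key _ _ hp) (key _ _ hp.symm))
      (le_antisymm (key _ _ hq) (key _ _ hq.symm))
  · -- injective
    intro X Y _ _ hX hY i hi hii h hh
    letI : DistribLattice Y := { (inferInstance : Lattice Y) with
      le_sup_inf := by
        intro x y z
        have key := id_distrib hY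
        have : (x ⊔ y) ⊓ (x ⊔ z) = x ⊔ y ⊓ z := by
          rw [key, inf_comm (x ⊔ y) x, inf_sup_self, inf_comm (x ⊔ y) z, key,
            inf_comm z x, ← sup_assoc, sup_inf_self, inf_comm]
        rw [this] }
    have hG : Good (BB Y) (TT Y) {z : Y × C | ∃ x, z = (i x, (h x).a)} := by
      refine ⟨⟨BB X, ?_⟩, ⟨TT X, ?_⟩, ?_, ?_, ?_⟩
      · rw [hi.BB, hh.BB, K_BB_a]
      · rw [hi.TT, hh.TT, K_TT_a]
      · rintro _ ⟨x, rfl⟩ _ ⟨y, rfl⟩
        refine ⟨x ⊔ y, ?_⟩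
        rw [hi.map_sup, hh.map_sup]
        rfl
      · rintro _ ⟨x, rfl⟩ _ ⟨y, rfl⟩
        refine ⟨x ⊓ y, ?_⟩
        rw [hi.map_inf, hh.map_inf]
        rfl
      · rintro _ ⟨x, rfl⟩ _ ⟨y, rfl⟩ hle
        have hxy : x ≤ y := (hi.le_iff hii).1 hle
        exact (hh.mono hxy).1
    obtain ⟨g, gs, gi, gG⟩ := sikorski hC (BB_le hY) (le_TT hY) hG
    have gx : ∀ x, g (i x) = (h x).a := fun x => gG (i x, (h x).a) ⟨x, rfl⟩
    obtain ⟨H, hH, Ha, Hb⟩ := lift hY v g gs gi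
      (by rw [← hi.TT, gx, hh.TT, K_TT_a]) (by rw [← hi.BB, gx, hh.BB, K_BB_a])
      (by rw [← hi.vv, gx, hh.vv, K_vv_a])
    refine ⟨H, hH, fun x => K.ext ?_ ?_⟩
    · rw [Ha, ← hi.pp, gx, hh.pp, K_pp_a]
    · rw [Hb, ← hi.qq, gx, hh.qq, K_qq_a]

/-- Transfer along the isomorphism of completions. -/
theorem every {A : Type u} [CLB A] (hA : Mod Sig A) {B : Type u} [CLB B] (e : A → B)
    (he : IsCDM e) : IsInjHull Sig e := by
  obtain ⟨E, _, e', he', hE⟩ := concrete hA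
  obtain ⟨θ, hθ, hbij, hθe⟩ := uniqueness he he'
  obtain ⟨η, hη1, hη2⟩ := Function.bijective_iff_has_inverse.1 hbij
  have hη : IsHom η := by
    refine ⟨?_, ?_, ?_, ?_, ?_, ?_⟩
    · intro x y
      apply hbij.1
      rw [hθ.map_sup, hη2, hη2, hη2]
    · intro x y
      apply hbij.1
      rw [hθ.map_inf, hη2, hη2, hη2]
    · intro x y
      apply hbij.1
      rw [hθ.map_mul, hη2, hη2, hη2]
    · intro x y
      apply hbij.1
      rw [hθ.map_add, hη2, hη2, hη2]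
    · apply hbij.1
      rw [hθ.map_one, hη2]
    · apply hbij.1
      rw [hθ.map_zero, hη2]
  refine ⟨?_, he.hom, he.inj, ?_, ?_⟩
  · intro st hst ρ
    apply hbij.1
    rw [hθ.eval, hθ.eval]
    exact hE.mod st hst _
  · intro Z _ hZ f hf hfe
    have h1 := hE.essential Z hZ (fun x => f (η x)) (hf.comp hη) (by
      have : (fun a => f (η (e' a))) = fun a => f (e a) := by
        funext a
        rw [← hθe, hη1]
      rw [this]
      exact hfe)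
    intro x y hxy
    apply hbij.1
    apply h1
    change f (η (θ x)) = f (η (θ y))
    rw [hη1, hη1, hxy]
  · intro X Y _ _ hX hY i hi hii h hh
    obtain ⟨H, hH, hHi⟩ := hE.injective X Y hX hY i hi hii (fun x => θ (h x)) (hθ.comp hh)
    refine ⟨fun y => η (H y), hη.comp hH, fun x => ?_⟩
    change η (H (i x)) = h x
    rw [hHi, hη1]

end Pool.Agent.Q19.Bim
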