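import Pool.Agent.Q19.BimK

/-!
# Terms, the variety, and its identities
-/

set_option autoImplicit false

universe u

namespace Pool.Agent.Q19.Bim

/-- Terms in the language `⊔, ⊓, *, +, 1, 0` with variables indexed by `ℕ`. -/
inductive Tm : Type
  | var (n : ℕ)
  | sup (s t : Tm)
  | inf (s t : Tm)
  | mul (s t : Tm)
  | add (s t : Tm)
  | one
  | zero

/-- Value of a term under an assignment of the variables. -/
def Tm.eval {A : Type*} [CLB A] (ρ : ℕ → A) : Tm → A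
  | .var n => ρ n
  | .sup s t => s.eval ρ ⊔ t.eval ρ
  | .inf s t => s.eval ρ ⊓ t.eval ρ
  | .mul s t => s.eval ρ * t.eval ρ
  | .add s t => s.eval ρ + t.eval ρ
  | .one => 1
  | .zero => 0

/-- `A` satisfies all the identities of `Σ`. -/
def Mod (S : Set (Tm × Tm)) (A : Type*) [CLB A] : Prop :=
  ∀ st ∈ S, ∀ ρ : ℕ → A, st.1.eval ρ = st.2.eval ρ

theorem IsHom.eval {A B : Type*} [CLB A] [CLB B] {f : A → B} (h : IsHom f) (ρ : ℕ → A)
    (t : Tm) : f (t.eval ρ) = t.eval (fun n => f (ρ n)) := by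
  induction t with
  | var n => rfl
  | sup s t hs ht => simp only [Tm.eval, h.map_sup, hs, ht]
  | inf s t hs ht => simp only [Tm.eval, h.map_inf, hs, ht]
  | mul s t hs ht => simp only [Tm.eval, h.map_mul, hs, ht]
  | add s t hs ht => simp only [Tm.eval, h.map_add, hs, ht]
  | one => exact h.map_one
  | zero => exact h.map_zero

/-- The identities valid in the two algebras `K Bool false` and `K Bool true`. -/
def Sig : Set (Tm × Tm) :=
  {st | ∀ (b : Bool) (ρ : ℕ → K Bool b), st.1.eval ρ = st.2.eval ρ}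

/-- separation by homomorphisms to `Bool` -/
theorem sep {D : Type*} [DistribLattice D] [BoundedOrder D] {a b : D}
    (h : ∀ F : D → Bool, (∀ x y, F (x ⊔ y) = (F x ⊔ F y)) → (∀ x y, F (x ⊓ y) = (F x ⊓ F y)) →
      F ⊤ = true → F ⊥ = false → F a = F b) : a = b := by
  classical
  have key : ∀ {a b : D}, (∀ F : D → Bool, (∀ x y, F (x ⊔ y) = (F x ⊔ F y)) →
      (∀ x y, F (x ⊓ y) = (F x ⊓ F y)) → F ⊤ = true → F ⊥ = false → F a = F b) → a ≤ b := by
    intro a b h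
    by_contra hab
    have hdis : Disjoint ((Order.PFilter.principal a : Order.PFilter D) : Set D)
        (Order.Ideal.principal b : Order.Ideal D) := by
      rw [Set.disjoint_left]
      intro x hx hx'
      rw [SetLike.mem_coe, Order.PFilter.mem_principal] at hx
      rw [SetLike.mem_coe, Order.Ideal.mem_principal] at hx'
      exact hab (hx.trans hx')
    obtain ⟨J, hJ, hIJ, hFJ⟩ := DistribLattice.prime_ideal_of_disjoint_filter_ideal hdis
    have hbJ : b ∈ J := hIJ (Order.Ideal.mem_principal.2 le_rfl)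
    have haJ : a ∉ J := fun h' =>
      Set.disjoint_left.1 hFJ (Order.PFilter.mem_principal.2 le_rfl) h'
    have htop : (⊤ : D) ∉ J := fun h' => haJ (J.lower le_top h')
    have hF := h (fun x => decide (x ∉ J)) (by
        intro x y
        by_cases hx : x ∈ J
        · by_cases hy : y ∈ J
          · simp [Order.Ideal.sup_mem_iff, hx, hy]
          · simp [Order.Ideal.sup_mem_iff, hx, hy]
        · simp [Order.Ideal.sup_mem_iff, hx]) (by
        intro x y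
        by_cases hx : x ∈ J
        · have : x ⊓ y ∈ J := J.lower inf_le_left hx
          simp [hx, this]
        · by_cases hy : y ∈ J
          · have : x ⊓ y ∈ J := J.lower inf_le_right hy
            simp [hy, this]
          · have : x ⊓ y ∉ J := by
              intro hxy
              rcases hJ.mem_or_mem hxy with h' | h'
              · exact hx h'
              · exact hy h'
            simp [hx, hy, this]) (by simp [htop]) (by simp [J.bot_mem])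
    simp [hbJ, haJ] at hF
  exact le_antisymm (key h) (key (fun F h1 h2 h3 h4 => (h F h1 h2 h3 h4).symm))

/-- The algebras `K C v` belong to the variety. -/
theorem mod_K {C : Type u} [BooleanAlgebra C] (v : C) : Mod Sig (K C v) := by
  intro st hst ρ
  have key : ∀ F : C → Bool, (∀ x y, F (x ⊔ y) = (F x ⊔ F y)) →
      (∀ x y, F (x ⊓ y) = (F x ⊓ F y)) → F ⊤ = true → F ⊥ = false →
      F (st.1.eval ρ).a = F (st.2.eval ρ).a ∧ F (st.1.eval ρ).b = F (st.2.eval ρ).b := by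
    intro F hs hi ht hb
    have hmono : ∀ x y, x ≤ y → F x ≤ F y := by
      intro x y hxy
      have := hs x y
      rw [sup_eq_right.2 hxy] at this
      rw [this]
      exact le_sup_left
    have hc : ∀ x, F xᶜ = (F x)ᶜ := by
      intro x
      have h1 := hs x xᶜ
      have h2 := hi x xᶜ
      rw [sup_compl_eq_top, ht] at h1
      rw [inf_compl_self, hb] at h2
      revert h1 h2
      cases F x <;> cases F xᶜ <;> decide
    let g : K C v → K Bool (F v) := fun z => ⟨F z.a, F z.b, hmono _ _ z.hb⟩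
    have hneg : ∀ z, g (K.neg z) = K.neg (g z) := by
      intro z
      apply K.ext
      · exact hc _
      · change F (z.bᶜ ⊓ v) = (F z.b)ᶜ ⊓ F v
        rw [hi, hc]
    have hmul : ∀ x y, g (x * y) = g x * g y := by
      intro x y
      apply K.ext
      · change F (x.a ⊓ y.a ⊔ x.b ⊓ y.b) = F x.a ⊓ F y.a ⊔ F x.b ⊓ F y.b
        rw [hs, hi, hi]
      · change F (x.a ⊓ y.b ⊔ x.b ⊓ y.a) = F x.a ⊓ F y.b ⊔ F x.b ⊓ F y.a
        rw [hs, hi, hi]
    have hg : IsHom g := by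
      refine ⟨?_, ?_, hmul, ?_, ?_, ?_⟩
      · intro x y
        exact K.ext (hs _ _) (hs _ _)
      · intro x y
        exact K.ext (hi _ _) (hi _ _)
      · intro x y
        rw [K.add_def, hneg, hmul, hneg, hneg, ← K.add_def]
      · exact K.ext ht hb
      · exact K.ext hb rfl
    have h1 := hg.eval ρ st.1
    have h2 := hg.eval ρ st.2
    have h3 := hst (F v) (fun n => g (ρ n))
    have h4 : g (st.1.eval ρ) = g (st.2.eval ρ) := by rw [h1, h2, h3]
    exact ⟨congrArg K.a h4, congrArg K.b h4⟩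
  apply K.ext
  · exact sep (fun F h1 h2 h3 h4 => (key F h1 h2 h3 h4).1)
  · exact sep (fun F h1 h2 h3 h4 => (key F h1 h2 h3 h4).2)

/-- `A` is a bounded distributive lattice: `* = ⊓` and `+ = ⊔` (so `1` is the top and `0` the
bottom element, and the lattice is distributive). -/
def IsBDL (A : Type*) [CLB A] : Prop := (∀ x y : A, x * y = x ⊓ y) ∧ (∀ x y : A, x + y = x ⊔ y)

theorem mod_BDL {A : Type u} [CLB A] (h : IsBDL A) : Mod Sig A := by
  intro st hst ρ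
  letI : DistribLattice A := { (inferInstance : Lattice A) with
    le_sup_inf := by
      intro x y z
      have key : ∀ a b c : A, a ⊓ (b ⊔ c) = a ⊓ b ⊔ a ⊓ c := by
        intro a b c
        rw [← h.1, ← h.1, ← h.1, CLB.mul_sup']
      have : (x ⊔ y) ⊓ (x ⊔ z) = x ⊔ y ⊓ z := by
        rw [key, inf_comm (x ⊔ y) x, inf_sup_self, inf_comm (x ⊔ y) z, key,
          inf_comm z x, ← sup_assoc, sup_inf_self, inf_comm]
      rw [this] }
  letI : BoundedOrder A :=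
    { top := 1
      le_top := fun x => by
        have := h.1 x 1
        rw [mul_one] at this
        rw [this]; exact inf_le_right
      bot := 0
      bot_le := fun x => by
        have := h.2 x 0
        rw [add_zero] at this
        rw [this]; exact le_sup_right }
  apply sep
  intro F hs hi ht hb
  let g : A → K Bool false := fun z => ⟨F z, false, le_rfl⟩
  have hg : IsHom g := by
    refine ⟨?_, ?_, ?_, ?_, ?_, ?_⟩
    · intro x y
      exact K.ext (hs _ _) rfl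
    · intro x y
      exact K.ext (hi _ _) rfl
    · intro x y
      rw [h.1]
      apply K.ext
      · change F (x ⊓ y) = (F x ⊓ F y) ⊔ (false ⊓ false)
        rw [hi]; simp
      · change false = (F x ⊓ false) ⊔ (false ⊓ F y)
        simp
    · intro x y
      rw [h.2]
      apply K.ext
      · change F (x ⊔ y) = ((F x)ᶜ ⊓ (F y)ᶜ ⊔ ((falseᶜ ⊓ false) ⊓ (falseᶜ ⊓ false)))ᶜ
        rw [hs]
        cases F x <;> cases F y <;> decide
      · change false = ((F x)ᶜ ⊓ (falseᶜ ⊓ false) ⊔ ((falseᶜ ⊓ false) ⊓ (F y)ᶜ))ᶜ ⊓ false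
        cases F x <;> cases F y <;> decide
    · exact K.ext ht rfl
    · exact K.ext hb rfl
  have h1 := hg.eval ρ st.1
  have h2 := hg.eval ρ st.2
  have h3 := hst false (fun n => g (ρ n))
  have h4 : g (st.1.eval ρ) = g (st.2.eval ρ) := by rw [h1, h2, h3]
  exact congrArg K.a h4

/-! ### identities -/

section terms

/-- top -/
def TT (A : Type*) [CLB A] : A := 1 ⊔ 0
/-- bottom -/
def BB (A : Type*) [CLB A] : A := 1 ⊓ 0
/-- `u` -/
def uu (A : Type*) [CLB A] : A := 1 + BB A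
/-- `v` -/
def vv (A : Type*) [CLB A] : A := 0 * TT A
/-- `p` -/
def pp {A : Type*} [CLB A] (x : A) : A := (x ⊓ 1) * TT A
/-- `q` -/
def qq {A : Type*} [CLB A] (x : A) : A := (x ⊓ 0) * TT A

namespace Tm
/-- term -/
def T : Tm := .sup .one .zero
/-- term -/
def B : Tm := .inf .one .zero
/-- term -/
def U : Tm := .add .one B
/-- term -/
def W : Tm := .mul .zero T
/-- term -/
def P (x : Tm) : Tm := .mul (.inf x .one) T
/-- term -/
def Q (x : Tm) : Tm := .mul (.inf x .zero) T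
end Tm

/-- assignment -/
def asg {A : Type*} (x y z : A) : ℕ → A := fun n => if n = 0 then x else if n = 1 then y else z

variable {A : Type*} [CLB A]

theorem id_distrib (hA : Mod Sig A) (x y z : A) : x ⊓ (y ⊔ z) = (x ⊓ y) ⊔ (x ⊓ z) :=
  hA (.inf (.var 0) (.sup (.var 1) (.var 2)),
    .sup (.inf (.var 0) (.var 1)) (.inf (.var 0) (.var 2))) (by
    intro b ρ
    generalize h0 : ρ 0 = x
    generalize h1 : ρ 1 = y
    generalize h2 : ρ 2 = z
    obtain ⟨x1, x2, hx⟩ := x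
    obtain ⟨y1, y2, hy⟩ := y
    obtain ⟨z1, z2, hz⟩ := z
    simp only [Tm.T, Tm.B, Tm.U, Tm.W, Tm.P, Tm.Q, Tm.eval, h0, h1, h2]
    apply K.ext <;>
    · simp only [K.sup_a, K.sup_b, K.inf_a, K.inf_b, K.mul_a, K.mul_b, K.one_a, K.one_b,
        K.zero_a, K.zero_b, K.add_def, K.neg_a, K.neg_b]
      clear h0 h1 h2 ρ
      revert b x1 x2 y1 y2 z1 z2
      decide) (asg x y z)

theorem id_top (hA : Mod Sig A) (x : A) : x ⊔ TT A = TT A :=
  hA (.sup (.var 0) .T, .T) (by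
    intro b ρ
    generalize h0 : ρ 0 = x
    generalize h1 : ρ 1 = y
    generalize h2 : ρ 2 = z
    obtain ⟨x1, x2, hx⟩ := x
    obtain ⟨y1, y2, hy⟩ := y
    obtain ⟨z1, z2, hz⟩ := z
    simp only [Tm.T, Tm.B, Tm.U, Tm.W, Tm.P, Tm.Q, Tm.eval, h0, h1, h2]
    apply K.ext <;>
    · simp only [K.sup_a, K.sup_b, K.inf_a, K.inf_b, K.mul_a, K.mul_b, K.one_a, K.one_b,
        K.zero_a, K.zero_b, K.add_def, K.neg_a, K.neg_b]
      clear h0 h1 h2 ρ
      revert b x1 x2 y1 y2 z1 z2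
      decide) (asg x x x)

theorem id_bot (hA : Mod Sig A) (x : A) : x ⊓ BB A = BB A :=
  hA (.inf (.var 0) .B, .B) (by
    intro b ρ
    generalize h0 : ρ 0 = x
    generalize h1 : ρ 1 = y
    generalize h2 : ρ 2 = z
    obtain ⟨x1, x2, hx⟩ := x
    obtain ⟨y1, y2, hy⟩ := y
    obtain ⟨z1, z2, hz⟩ := z
    simp only [Tm.T, Tm.B, Tm.U, Tm.W, Tm.P, Tm.Q, Tm.eval, h0, h1, h2]
    apply K.ext <;>
    · simp only [K.sup_a, K.sup_b, K.inf_a, K.inf_b, K.mul_a, K.mul_b, K.one_a, K.one_b,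
        K.zero_a, K.zero_b, K.add_def, K.neg_a, K.neg_b]
      clear h0 h1 h2 ρ
      revert b x1 x2 y1 y2 z1 z2
      decide) (asg x x x)

theorem le_TT (hA : Mod Sig A) (x : A) : x ≤ TT A := by
  rw [← id_top hA x]; exact le_sup_left

theorem BB_le (hA : Mod Sig A) (x : A) : BB A ≤ x := by
  rw [← id_bot hA x]; exact inf_le_left

theorem id_pp_sup (hA : Mod Sig A) (x y : A) : pp (x ⊔ y) = pp x ⊔ pp y :=
  hA (.P (.sup (.var 0) (.var 1)), .sup (.P (.var 0)) (.P (.var 1))) (by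
    intro b ρ
    generalize h0 : ρ 0 = x
    generalize h1 : ρ 1 = y
    generalize h2 : ρ 2 = z
    obtain ⟨x1, x2, hx⟩ := x
    obtain ⟨y1, y2, hy⟩ := y
    obtain ⟨z1, z2, hz⟩ := z
    simp only [Tm.T, Tm.B, Tm.U, Tm.W, Tm.P, Tm.Q, Tm.eval, h0, h1, h2]
    apply K.ext <;>
    · simp only [K.sup_a, K.sup_b, K.inf_a, K.inf_b, K.mul_a, K.mul_b, K.one_a, K.one_b,
        K.zero_a, K.zero_b, K.add_def, K.neg_a, K.neg_b]
      clear h0 h1 h2 ρ
      revert b x1 x2 y1 y2 z1 z2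
      decide) (asg x y y)

theorem id_pp_inf (hA : Mod Sig A) (x y : A) : pp (x ⊓ y) = pp x ⊓ pp y :=
  hA (.P (.inf (.var 0) (.var 1)), .inf (.P (.var 0)) (.P (.var 1))) (by
    intro b ρ
    generalize h0 : ρ 0 = x
    generalize h1 : ρ 1 = y
    generalize h2 : ρ 2 = z
    obtain ⟨x1, x2, hx⟩ := x
    obtain ⟨y1, y2, hy⟩ := y
    obtain ⟨z1, z2, hz⟩ := z
    simp only [Tm.T, Tm.B, Tm.U, Tm.W, Tm.P, Tm.Q, Tm.eval, h0, h1, h2]
    apply K.ext <;>
    · simp only [K.sup_a, K.sup_b, K.inf_a, K.inf_b, K.mul_a, K.mul_b, K.one_a, K.one_b,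
        K.zero_a, K.zero_b, K.add_def, K.neg_a, K.neg_b]
      clear h0 h1 h2 ρ
      revert b x1 x2 y1 y2 z1 z2
      decide) (asg x y y)

theorem id_qq_sup (hA : Mod Sig A) (x y : A) : qq (x ⊔ y) = qq x ⊔ qq y :=
  hA (.Q (.sup (.var 0) (.var 1)), .sup (.Q (.var 0)) (.Q (.var 1))) (by
    intro b ρ
    generalize h0 : ρ 0 = x
    generalize h1 : ρ 1 = y
    generalize h2 : ρ 2 = z
    obtain ⟨x1, x2, hx⟩ := x
    obtain ⟨y1, y2, hy⟩ := y
    obtain ⟨z1, z2, hz⟩ := z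
    simp only [Tm.T, Tm.B, Tm.U, Tm.W, Tm.P, Tm.Q, Tm.eval, h0, h1, h2]
    apply K.ext <;>
    · simp only [K.sup_a, K.sup_b, K.inf_a, K.inf_b, K.mul_a, K.mul_b, K.one_a, K.one_b,
        K.zero_a, K.zero_b, K.add_def, K.neg_a, K.neg_b]
      clear h0 h1 h2 ρ
      revert b x1 x2 y1 y2 z1 z2
      decide) (asg x y y)

theorem id_qq_inf (hA : Mod Sig A) (x y : A) : qq (x ⊓ y) = qq x ⊓ qq y :=
  hA (.Q (.inf (.var 0) (.var 1)), .inf (.Q (.var 0)) (.Q (.var 1))) (by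
    intro b ρ
    generalize h0 : ρ 0 = x
    generalize h1 : ρ 1 = y
    generalize h2 : ρ 2 = z
    obtain ⟨x1, x2, hx⟩ := x
    obtain ⟨y1, y2, hy⟩ := y
    obtain ⟨z1, z2, hz⟩ := z
    simp only [Tm.T, Tm.B, Tm.U, Tm.W, Tm.P, Tm.Q, Tm.eval, h0, h1, h2]
    apply K.ext <;>
    · simp only [K.sup_a, K.sup_b, K.inf_a, K.inf_b, K.mul_a, K.mul_b, K.one_a, K.one_b,
        K.zero_a, K.zero_b, K.add_def, K.neg_a, K.neg_b]
      clear h0 h1 h2 ρ
      revert b x1 x2 y1 y2 z1 z2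
      decide) (asg x y y)

theorem id_pp_pp (hA : Mod Sig A) (x : A) : pp (pp x) = pp x :=
  hA (.P (.P (.var 0)), .P (.var 0)) (by
    intro b ρ
    generalize h0 : ρ 0 = x
    generalize h1 : ρ 1 = y
    generalize h2 : ρ 2 = z
    obtain ⟨x1, x2, hx⟩ := x
    obtain ⟨y1, y2, hy⟩ := y
    obtain ⟨z1, z2, hz⟩ := z
    simp only [Tm.T, Tm.B, Tm.U, Tm.W, Tm.P, Tm.Q, Tm.eval, h0, h1, h2]
    apply K.ext <;>
    · simp only [K.sup_a, K.sup_b, K.inf_a, K.inf_b, K.mul_a, K.mul_b, K.one_a, K.one_b,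
        K.zero_a, K.zero_b, K.add_def, K.neg_a, K.neg_b]
      clear h0 h1 h2 ρ
      revert b x1 x2 y1 y2 z1 z2
      decide) (asg x x x)

theorem id_pp_qq (hA : Mod Sig A) (x : A) : pp (qq x) = qq x :=
  hA (.P (.Q (.var 0)), .Q (.var 0)) (by
    intro b ρ
    generalize h0 : ρ 0 = x
    generalize h1 : ρ 1 = y
    generalize h2 : ρ 2 = z
    obtain ⟨x1, x2, hx⟩ := x
    obtain ⟨y1, y2, hy⟩ := y
    obtain ⟨z1, z2, hz⟩ := z
    simp only [Tm.T, Tm.B, Tm.U, Tm.W, Tm.P, Tm.Q, Tm.eval, h0, h1, h2]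
    apply K.ext <;>
    · simp only [K.sup_a, K.sup_b, K.inf_a, K.inf_b, K.mul_a, K.mul_b, K.one_a, K.one_b,
        K.zero_a, K.zero_b, K.add_def, K.neg_a, K.neg_b]
      clear h0 h1 h2 ρ
      revert b x1 x2 y1 y2 z1 z2
      decide) (asg x x x)

theorem id_qq_pp (hA : Mod Sig A) (x : A) : qq (pp x) = pp x ⊓ vv A :=
  hA (.Q (.P (.var 0)), .inf (.P (.var 0)) .W) (by
    intro b ρ
    generalize h0 : ρ 0 = x
    generalize h1 : ρ 1 = y
    generalize h2 : ρ 2 = z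
    obtain ⟨x1, x2, hx⟩ := x
    obtain ⟨y1, y2, hy⟩ := y
    obtain ⟨z1, z2, hz⟩ := z
    simp only [Tm.T, Tm.B, Tm.U, Tm.W, Tm.P, Tm.Q, Tm.eval, h0, h1, h2]
    apply K.ext <;>
    · simp only [K.sup_a, K.sup_b, K.inf_a, K.inf_b, K.mul_a, K.mul_b, K.one_a, K.one_b,
        K.zero_a, K.zero_b, K.add_def, K.neg_a, K.neg_b]
      clear h0 h1 h2 ρ
      revert b x1 x2 y1 y2 z1 z2
      decide) (asg x x x)

theorem id_qq_qq (hA : Mod Sig A) (x : A) : qq (qq x) = qq x :=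
  hA (.Q (.Q (.var 0)), .Q (.var 0)) (by
    intro b ρ
    generalize h0 : ρ 0 = x
    generalize h1 : ρ 1 = y
    generalize h2 : ρ 2 = z
    obtain ⟨x1, x2, hx⟩ := x
    obtain ⟨y1, y2, hy⟩ := y
    obtain ⟨z1, z2, hz⟩ := z
    simp only [Tm.T, Tm.B, Tm.U, Tm.W, Tm.P, Tm.Q, Tm.eval, h0, h1, h2]
    apply K.ext <;>
    · simp only [K.sup_a, K.sup_b, K.inf_a, K.inf_b, K.mul_a, K.mul_b, K.one_a, K.one_b,
        K.zero_a, K.zero_b, K.add_def, K.neg_a, K.neg_b]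
      clear h0 h1 h2 ρ
      revert b x1 x2 y1 y2 z1 z2
      decide) (asg x x x)

theorem id_qq_vv (hA : Mod Sig A) (x : A) : qq x ⊓ vv A = qq x :=
  hA (.inf (.Q (.var 0)) .W, .Q (.var 0)) (by
    intro b ρ
    generalize h0 : ρ 0 = x
    generalize h1 : ρ 1 = y
    generalize h2 : ρ 2 = z
    obtain ⟨x1, x2, hx⟩ := x
    obtain ⟨y1, y2, hy⟩ := y
    obtain ⟨z1, z2, hz⟩ := z
    simp only [Tm.T, Tm.B, Tm.U, Tm.W, Tm.P, Tm.Q, Tm.eval, h0, h1, h2]
    apply K.ext <;>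
    · simp only [K.sup_a, K.sup_b, K.inf_a, K.inf_b, K.mul_a, K.mul_b, K.one_a, K.one_b,
        K.zero_a, K.zero_b, K.add_def, K.neg_a, K.neg_b]
      clear h0 h1 h2 ρ
      revert b x1 x2 y1 y2 z1 z2
      decide) (asg x x x)

theorem id_decomp (hA : Mod Sig A) (x : A) : x = (1 ⊓ pp x) ⊔ (0 ⊓ qq x) :=
  hA (.var 0, .sup (.inf .one (.P (.var 0))) (.inf .zero (.Q (.var 0)))) (by
    intro b ρ
    generalize h0 : ρ 0 = x
    generalize h1 : ρ 1 = y
    generalize h2 : ρ 2 = z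
    obtain ⟨x1, x2, hx⟩ := x
    obtain ⟨y1, y2, hy⟩ := y
    obtain ⟨z1, z2, hz⟩ := z
    simp only [Tm.T, Tm.B, Tm.U, Tm.W, Tm.P, Tm.Q, Tm.eval, h0, h1, h2]
    apply K.ext <;>
    · simp only [K.sup_a, K.sup_b, K.inf_a, K.inf_b, K.mul_a, K.mul_b, K.one_a, K.one_b,
        K.zero_a, K.zero_b, K.add_def, K.neg_a, K.neg_b]
      clear h0 h1 h2 ρ
      revert b x1 x2 y1 y2 z1 z2
      decide) (asg x x x)

theorem id_pp_mul (hA : Mod Sig A) (x y : A) :
    pp (x * y) = (pp x ⊓ pp y) ⊔ (qq x ⊓ qq y) :=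
  hA (.P (.mul (.var 0) (.var 1)), .sup (.inf (.P (.var 0)) (.P (.var 1)))
    (.inf (.Q (.var 0)) (.Q (.var 1)))) (by
    intro b ρ
    generalize h0 : ρ 0 = x
    generalize h1 : ρ 1 = y
    generalize h2 : ρ 2 = z
    obtain ⟨x1, x2, hx⟩ := x
    obtain ⟨y1, y2, hy⟩ := y
    obtain ⟨z1, z2, hz⟩ := z
    simp only [Tm.T, Tm.B, Tm.U, Tm.W, Tm.P, Tm.Q, Tm.eval, h0, h1, h2]
    apply K.ext <;>
    · simp only [K.sup_a, K.sup_b, K.inf_a, K.inf_b, K.mul_a, K.mul_b, K.one_a, K.one_b,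
        K.zero_a, K.zero_b, K.add_def, K.neg_a, K.neg_b]
      clear h0 h1 h2 ρ
      revert b x1 x2 y1 y2 z1 z2
      decide) (asg x y y)

theorem id_qq_mul (hA : Mod Sig A) (x y : A) :
    qq (x * y) = (pp x ⊓ qq y) ⊔ (qq x ⊓ pp y) :=
  hA (.Q (.mul (.var 0) (.var 1)), .sup (.inf (.P (.var 0)) (.Q (.var 1)))
    (.inf (.Q (.var 0)) (.P (.var 1)))) (by
    intro b ρ
    generalize h0 : ρ 0 = x
    generalize h1 : ρ 1 = y
    generalize h2 : ρ 2 = z
    obtain ⟨x1, x2, hx⟩ := x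
    obtain ⟨y1, y2, hy⟩ := y
    obtain ⟨z1, z2, hz⟩ := z
    simp only [Tm.T, Tm.B, Tm.U, Tm.W, Tm.P, Tm.Q, Tm.eval, h0, h1, h2]
    apply K.ext <;>
    · simp only [K.sup_a, K.sup_b, K.inf_a, K.inf_b, K.mul_a, K.mul_b, K.one_a, K.one_b,
        K.zero_a, K.zero_b, K.add_def, K.neg_a, K.neg_b]
      clear h0 h1 h2 ρ
      revert b x1 x2 y1 y2 z1 z2
      decide) (asg x y y)

theorem id_pp_add (hA : Mod Sig A) (x y : A) :
    pp (x + y) = (pp x ⊔ pp y) ⊓ (qq x ⊔ qq y ⊔ uu A) :=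
  hA (.P (.add (.var 0) (.var 1)), .inf (.sup (.P (.var 0)) (.P (.var 1)))
    (.sup (.sup (.Q (.var 0)) (.Q (.var 1))) .U)) (by
    intro b ρ
    generalize h0 : ρ 0 = x
    generalize h1 : ρ 1 = y
    generalize h2 : ρ 2 = z
    obtain ⟨x1, x2, hx⟩ := x
    obtain ⟨y1, y2, hy⟩ := y
    obtain ⟨z1, z2, hz⟩ := z
    simp only [Tm.T, Tm.B, Tm.U, Tm.W, Tm.P, Tm.Q, Tm.eval, h0, h1, h2]
    apply K.ext <;>
    · simp only [K.sup_a, K.sup_b, K.inf_a, K.inf_b, K.mul_a, K.mul_b, K.one_a, K.one_b,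
        K.zero_a, K.zero_b, K.add_def, K.neg_a, K.neg_b]
      clear h0 h1 h2 ρ
      revert b x1 x2 y1 y2 z1 z2
      decide) (asg x y y)

theorem id_qq_add (hA : Mod Sig A) (x y : A) :
    qq (x + y) = ((pp x ⊔ qq y) ⊓ (qq x ⊔ pp y)) ⊓ vv A :=
  hA (.Q (.add (.var 0) (.var 1)), .inf (.inf (.sup (.P (.var 0)) (.Q (.var 1)))
    (.sup (.Q (.var 0)) (.P (.var 1)))) .W) (by
    intro b ρ
    generalize h0 : ρ 0 = x
    generalize h1 : ρ 1 = y
    generalize h2 : ρ 2 = z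
    obtain ⟨x1, x2, hx⟩ := x
    obtain ⟨y1, y2, hy⟩ := y
    obtain ⟨z1, z2, hz⟩ := z
    simp only [Tm.T, Tm.B, Tm.U, Tm.W, Tm.P, Tm.Q, Tm.eval, h0, h1, h2]
    apply K.ext <;>
    · simp only [K.sup_a, K.sup_b, K.inf_a, K.inf_b, K.mul_a, K.mul_b, K.one_a, K.one_b,
        K.zero_a, K.zero_b, K.add_def, K.neg_a, K.neg_b]
      clear h0 h1 h2 ρ
      revert b x1 x2 y1 y2 z1 z2
      decide) (asg x y y)

theorem id_uv_sup (hA : Mod Sig A) : uu A ⊔ vv A = TT A :=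
  hA (.sup .U .W, .T) (by
    intro b ρ
    generalize h0 : ρ 0 = x
    generalize h1 : ρ 1 = y
    generalize h2 : ρ 2 = z
    obtain ⟨x1, x2, hx⟩ := x
    obtain ⟨y1, y2, hy⟩ := y
    obtain ⟨z1, z2, hz⟩ := z
    simp only [Tm.T, Tm.B, Tm.U, Tm.W, Tm.P, Tm.Q, Tm.eval, h0, h1, h2]
    apply K.ext <;>
    · simp only [K.sup_a, K.sup_b, K.inf_a, K.inf_b, K.mul_a, K.mul_b, K.one_a, K.one_b,
        K.zero_a, K.zero_b, K.add_def, K.neg_a, K.neg_b]
      clear h0 h1 h2 ρ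
      revert b x1 x2 y1 y2 z1 z2
      decide) (asg 1 1 1)

theorem id_uv_inf (hA : Mod Sig A) : uu A ⊓ vv A = BB A :=
  hA (.inf .U .W, .B) (by
    intro b ρ
    generalize h0 : ρ 0 = x
    generalize h1 : ρ 1 = y
    generalize h2 : ρ 2 = z
    obtain ⟨x1, x2, hx⟩ := x
    obtain ⟨y1, y2, hy⟩ := y
    obtain ⟨z1, z2, hz⟩ := z
    simp only [Tm.T, Tm.B, Tm.U, Tm.W, Tm.P, Tm.Q, Tm.eval, h0, h1, h2]
    apply K.ext <;>
    · simp only [K.sup_a, K.sup_b, K.inf_a, K.inf_b, K.mul_a, K.mul_b, K.one_a, K.one_b,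
        K.zero_a, K.zero_b, K.add_def, K.neg_a, K.neg_b]
      clear h0 h1 h2 ρ
      revert b x1 x2 y1 y2 z1 z2
      decide) (asg 1 1 1)

theorem id_pp_one (hA : Mod Sig A) : pp (1 : A) = TT A :=
  hA (.P .one, .T) (by
    intro b ρ
    generalize h0 : ρ 0 = x
    generalize h1 : ρ 1 = y
    generalize h2 : ρ 2 = z
    obtain ⟨x1, x2, hx⟩ := x
    obtain ⟨y1, y2, hy⟩ := y
    obtain ⟨z1, z2, hz⟩ := z
    simp only [Tm.T, Tm.B, Tm.U, Tm.W, Tm.P, Tm.Q, Tm.eval, h0, h1, h2]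
    apply K.ext <;>
    · simp only [K.sup_a, K.sup_b, K.inf_a, K.inf_b, K.mul_a, K.mul_b, K.one_a, K.one_b,
        K.zero_a, K.zero_b, K.add_def, K.neg_a, K.neg_b]
      clear h0 h1 h2 ρ
      revert b x1 x2 y1 y2 z1 z2
      decide) (asg 1 1 1)

theorem id_qq_one (hA : Mod Sig A) : qq (1 : A) = BB A :=
  hA (.Q .one, .B) (by
    intro b ρ
    generalize h0 : ρ 0 = x
    generalize h1 : ρ 1 = y
    generalize h2 : ρ 2 = z
    obtain ⟨x1, x2, hx⟩ := x
    obtain ⟨y1, y2, hy⟩ := y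
    obtain ⟨z1, z2, hz⟩ := z
    simp only [Tm.T, Tm.B, Tm.U, Tm.W, Tm.P, Tm.Q, Tm.eval, h0, h1, h2]
    apply K.ext <;>
    · simp only [K.sup_a, K.sup_b, K.inf_a, K.inf_b, K.mul_a, K.mul_b, K.one_a, K.one_b,
        K.zero_a, K.zero_b, K.add_def, K.neg_a, K.neg_b]
      clear h0 h1 h2 ρ
      revert b x1 x2 y1 y2 z1 z2
      decide) (asg 1 1 1)

theorem id_pp_zero (hA : Mod Sig A) : pp (0 : A) = BB A :=
  hA (.P .zero, .B) (by
    intro b ρ
    generalize h0 : ρ 0 = x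
    generalize h1 : ρ 1 = y
    generalize h2 : ρ 2 = z
    obtain ⟨x1, x2, hx⟩ := x
    obtain ⟨y1, y2, hy⟩ := y
    obtain ⟨z1, z2, hz⟩ := z
    simp only [Tm.T, Tm.B, Tm.U, Tm.W, Tm.P, Tm.Q, Tm.eval, h0, h1, h2]
    apply K.ext <;>
    · simp only [K.sup_a, K.sup_b, K.inf_a, K.inf_b, K.mul_a, K.mul_b, K.one_a, K.one_b,
        K.zero_a, K.zero_b, K.add_def, K.neg_a, K.neg_b]
      clear h0 h1 h2 ρ
      revert b x1 x2 y1 y2 z1 z2
      decide) (asg 1 1 1)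

theorem id_qq_zero (hA : Mod Sig A) : qq (0 : A) = vv A :=
  hA (.Q .zero, .W) (by
    intro b ρ
    generalize h0 : ρ 0 = x
    generalize h1 : ρ 1 = y
    generalize h2 : ρ 2 = z
    obtain ⟨x1, x2, hx⟩ := x
    obtain ⟨y1, y2, hy⟩ := y
    obtain ⟨z1, z2, hz⟩ := z
    simp only [Tm.T, Tm.B, Tm.U, Tm.W, Tm.P, Tm.Q, Tm.eval, h0, h1, h2]
    apply K.ext <;>
    · simp only [K.sup_a, K.sup_b, K.inf_a, K.inf_b, K.mul_a, K.mul_b, K.one_a, K.one_b,
        K.zero_a, K.zero_b, K.add_def, K.neg_a, K.neg_b]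
      clear h0 h1 h2 ρ
      revert b x1 x2 y1 y2 z1 z2
      decide) (asg 1 1 1)

theorem id_pp_TT (hA : Mod Sig A) : pp (TT A) = TT A :=
  hA (.P .T, .T) (by
    intro b ρ
    generalize h0 : ρ 0 = x
    generalize h1 : ρ 1 = y
    generalize h2 : ρ 2 = z
    obtain ⟨x1, x2, hx⟩ := x
    obtain ⟨y1, y2, hy⟩ := y
    obtain ⟨z1, z2, hz⟩ := z
    simp only [Tm.T, Tm.B, Tm.U, Tm.W, Tm.P, Tm.Q, Tm.eval, h0, h1, h2]
    apply K.ext <;>
    · simp only [K.sup_a, K.sup_b, K.inf_a, K.inf_b, K.mul_a, K.mul_b, K.one_a, K.one_b,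
        K.zero_a, K.zero_b, K.add_def, K.neg_a, K.neg_b]
      clear h0 h1 h2 ρ
      revert b x1 x2 y1 y2 z1 z2
      decide) (asg 1 1 1)

theorem id_pp_BB (hA : Mod Sig A) : pp (BB A) = BB A :=
  hA (.P .B, .B) (by
    intro b ρ
    generalize h0 : ρ 0 = x
    generalize h1 : ρ 1 = y
    generalize h2 : ρ 2 = z
    obtain ⟨x1, x2, hx⟩ := x
    obtain ⟨y1, y2, hy⟩ := y
    obtain ⟨z1, z2, hz⟩ := z
    simp only [Tm.T, Tm.B, Tm.U, Tm.W, Tm.P, Tm.Q, Tm.eval, h0, h1, h2]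
    apply K.ext <;>
    · simp only [K.sup_a, K.sup_b, K.inf_a, K.inf_b, K.mul_a, K.mul_b, K.one_a, K.one_b,
        K.zero_a, K.zero_b, K.add_def, K.neg_a, K.neg_b]
      clear h0 h1 h2 ρ
      revert b x1 x2 y1 y2 z1 z2
      decide) (asg 1 1 1)

end terms

end Pool.Agent.Q19.Bim
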