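import Mathlib

/-!
# Chains of centralizers in finite groups
-/

set_option autoImplicit false

namespace Q19.CentChain

variable {G : Type*} [Group G]

/-- centralizer of the first `i` members of a sequence -/
def C (X : ℕ → G) (i : ℕ) : Subgroup G := Subgroup.centralizer {g | ∃ k < i, g = X k}

theorem mem_C {X : ℕ → G} {i : ℕ} {g : G} : g ∈ C X i ↔ ∀ k < i, Commute (X k) g := by
  unfold C
  rw [Subgroup.mem_centralizer_iff]
  constructor
  · intro h k hk
    exact h _ ⟨k, hk, rfl⟩
  · rintro h _ ⟨k, hk, rfl⟩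
    exact h k hk

theorem C_anti (X : ℕ → G) {i j : ℕ} (h : i ≤ j) : C X j ≤ C X i := by
  intro g hg
  rw [mem_C] at hg ⊢
  exact fun k hk => hg k (hk.trans_le h)

theorem C_zero (X : ℕ → G) : C X 0 = ⊤ := by
  rw [eq_top_iff]
  intro g _
  rw [mem_C]
  exact fun k hk => absurd hk (Nat.not_lt_zero _)

theorem two_mul_card_le [Finite G] {H K : Subgroup G} (h : H < K) :
    2 * Nat.card H ≤ Nat.card K := by
  obtain ⟨c, hc⟩ := Subgroup.card_dvd_of_le h.le
  have hH : 0 < Nat.card H := Nat.card_pos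
  have hK : 0 < Nat.card K := Nat.card_pos
  have h0 : c ≠ 0 := by rintro rfl; simp at hc; omega
  have h1 : c ≠ 1 := by
    rintro rfl
    rw [mul_one] at hc
    exact h.ne (Subgroup.eq_of_le_of_card_ge h.le hc.le)
  rw [hc, mul_comm]
  exact Nat.mul_le_mul_left _ (by omega)

/-- the hypotheses on the two sequences -/
structure Staircase (m : ℕ) (X Y : ℕ → G) : Prop where
  comm : ∀ i j, i < j → j < m → Commute (X i) (Y j)
  ncomm : ∀ i, i < m → ¬ Commute (X i) (Y i)

theorem Staircase.step [Finite G] {m : ℕ} {X Y : ℕ → G} (h : Staircase m X Y) {i : ℕ} (hi : i < m) :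
    2 * Nat.card (C X (i + 1)) ≤ Nat.card (C X i) := by
  apply two_mul_card_le
  refine lt_of_le_of_ne (C_anti X (Nat.le_succ i)) fun heq => ?_
  have h1 : Y i ∈ C X i := mem_C.2 fun k hk => h.comm k i hk hi
  rw [← heq, mem_C] at h1
  exact h.ncomm i hi (h1 i (Nat.lt_succ_self i))

theorem Staircase.top [Finite G] {m : ℕ} {X Y : ℕ → G} (h : Staircase m X Y) :
    ∀ i ≤ m, 2 ^ i * Nat.card (C X i) ≤ Nat.card G := by
  intro i
  induction i with
  | zero => intro _; rw [C_zero]; simp
  | succ i ih =>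
    intro hi
    have h1 := ih (by omega)
    have h2 := h.step (i := i) (by omega)
    calc 2 ^ (i + 1) * Nat.card (C X (i + 1)) = 2 ^ i * (2 * Nat.card (C X (i + 1))) := by ring
      _ ≤ 2 ^ i * Nat.card (C X i) := Nat.mul_le_mul_left _ h2
      _ ≤ _ := h1

theorem Staircase.bot [Finite G] {m : ℕ} {X Y : ℕ → G} (h : Staircase m X Y) :
    ∀ k ≤ m, 2 ^ k * Nat.card (C X m) ≤ Nat.card (C X (m - k)) := by
  intro k
  induction k with
  | zero => intro _; simp
  | succ k ih =>
    intro hk
    have h1 := ih (by omega)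
    have h2 := h.step (i := m - (k + 1)) (by omega)
    rw [show m - (k + 1) + 1 = m - k by omega] at h2
    calc 2 ^ (k + 1) * Nat.card (C X m) = 2 * (2 ^ k * Nat.card (C X m)) := by ring
      _ ≤ 2 * Nat.card (C X (m - k)) := Nat.mul_le_mul_left _ h1
      _ ≤ _ := h2

/-- the order is `2 ^ m` or `3 * 2 ^ (m - 1)` if it is less than `2 ^ (m + 1)` and the last
centralizer is trivial -/
theorem Staircase.card [Finite G] {m : ℕ} {X Y : ℕ → G} (h : Staircase m X Y)
    (hb : C X m = ⊥) (hG : Nat.card G < 2 ^ (m + 1)) :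
    Nat.card G = 2 ^ m ∨ (1 ≤ m ∧ Nat.card G = 3 * 2 ^ (m - 1)) := by
  have key : ∀ k ≤ m, Nat.card (C X (m - k)) = 2 ^ k ∨
      (1 ≤ k ∧ Nat.card (C X (m - k)) = 3 * 2 ^ (k - 1)) := by
    intro k
    induction k with
    | zero => intro _; left; simp [hb]
    | succ k ih =>
      intro hk
      have h1 := ih (by omega)
      have h2 := h.step (i := m - (k + 1)) (by omega)
      have h3 := h.top (m - (k + 1)) (by omega)
      have h4 : Nat.card (C X (m - k)) ∣ Nat.card (C X (m - (k + 1))) :=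
        Subgroup.card_dvd_of_le (C_anti X (by omega))
      rw [show m - (k + 1) + 1 = m - k by omega] at h2
      have h5 : Nat.card (C X (m - (k + 1))) < 2 ^ (k + 2) := by
        have h6 : 2 ^ (m - (k + 1)) * Nat.card (C X (m - (k + 1))) < 2 ^ (m - (k + 1)) * 2 ^ (k + 2) := by
          rw [← pow_add, show m - (k + 1) + (k + 2) = m + 1 by omega]
          exact lt_of_le_of_lt h3 hG
        exact Nat.lt_of_mul_lt_mul_left h6
      obtain ⟨c, hc⟩ := h4
      rcases h1 with h1 | ⟨hk1, h1⟩
      · rw [h1] at hc h2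
        have hp : 0 < 2 ^ k := by positivity
        have hc4 : c < 4 := by
          rw [hc, show 2 ^ (k + 2) = 2 ^ k * 4 by ring] at h5
          exact Nat.lt_of_mul_lt_mul_left h5
        have hc2 : 2 ≤ c := by
          rw [hc, mul_comm] at h2
          exact Nat.le_of_mul_le_mul_left h2 hp
        have : c = 2 ∨ c = 3 := by omega
        rcases this with rfl | rfl
        · left; rw [hc]; ring
        · right; refine ⟨by omega, ?_⟩; rw [hc]; simp; ring
      · obtain ⟨k', rfl⟩ : ∃ k', k = k' + 1 := ⟨k - 1, by omega⟩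
        simp only [Nat.add_sub_cancel] at h1 ⊢
        rw [h1] at hc h2
        have hp : 0 < 2 ^ k' := by positivity
        have hc3 : c < 3 := by
          rw [hc, show 2 ^ (k' + 1 + 2) = 2 ^ k' * 8 by ring,
            show 3 * 2 ^ k' * c = 2 ^ k' * (3 * c) by ring] at h5
          have := Nat.lt_of_mul_lt_mul_left h5
          omega
        have hc2 : 2 ≤ c := by
          rw [hc, show 2 * (3 * 2 ^ k') = (3 * 2 ^ k') * 2 by ring] at h2
          exact Nat.le_of_mul_le_mul_left h2 (by positivity)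
        have : c = 2 := by omega
        subst this
        right; refine ⟨by omega, ?_⟩; rw [hc]; ring
  have := key m le_rfl
  rwa [Nat.sub_self, C_zero, Subgroup.card_top] at this

/-- If `V` is a subgroup of order at least `4` such that every member of the sequence centralizes
`V` or no nontrivial element of `V`, and the last centralizer is trivial, then the order is at
least `2 ^ (m + 1)`. -/
theorem Staircase.big [Finite G] {m : ℕ} {X Y : ℕ → G} (h : Staircase m X Y)
    (hb : C X m = ⊥) (V : Subgroup G) (hV : 4 ≤ Nat.card V)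
    (hX : ∀ k < m, (∀ v ∈ V, Commute (X k) v) ∨ (∀ v ∈ V, Commute (X k) v → v = 1)) :
    2 ^ (m + 1) ≤ Nat.card G := by
  classical
  -- there is a first index not centralizing `V`
  have hex : ∃ k, k < m ∧ ¬ (∀ v ∈ V, Commute (X k) v) := by
    by_contra hcon
    push Not at hcon
    have hle : V ≤ C X m := fun v hv => mem_C.2 fun k hk => hcon k hk v hv
    rw [hb] at hle
    have : Nat.card V ≤ 1 := by
      have := Subgroup.card_le_of_le hle
      simpa using this
    omega
  obtain ⟨⟨hk1, hk2⟩, hmin⟩ := (⟨Nat.find_spec hex, fun j hj => Nat.find_min hex hj⟩ :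
    (Nat.find hex < m ∧ ¬ (∀ v ∈ V, Commute (X (Nat.find hex)) v)) ∧
      ∀ j < Nat.find hex, ¬ (j < m ∧ ¬ (∀ v ∈ V, Commute (X j) v)))
  set k := Nat.find hex with hk
  have hVle : V ≤ C X k := by
    intro v hv
    rw [mem_C]
    intro j hj
    have := hmin j hj
    push Not at this
    exact this (by omega) v hv
  have hfree : ∀ v ∈ V, Commute (X k) v → v = 1 := (hX k hk1).resolve_left hk2
  -- `|C_k| ≥ |V| |C_{k+1}|`
  have hinj : Function.Injective (fun p : V × C X (k + 1) => (⟨p.1.1 * p.2.1,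
      (C X k).mul_mem (hVle p.1.2) (C_anti X (Nat.le_succ k) p.2.2)⟩ : C X k)) := by
    rintro ⟨⟨v, hv⟩, ⟨c, hc⟩⟩ ⟨⟨v', hv'⟩, ⟨c', hc'⟩⟩ heq
    have h1 : v * c = v' * c' := congrArg Subtype.val heq
    have h2 : v'⁻¹ * v = c' * c⁻¹ := by
      rw [inv_mul_eq_iff_eq_mul, ← mul_assoc, ← h1, mul_inv_cancel_right]
    have h3 : c' * c⁻¹ ∈ C X (k + 1) := (C X (k + 1)).mul_mem hc' ((C X (k + 1)).inv_mem hc)
    have h4 : v'⁻¹ * v = 1 := by
      apply hfree _ (V.mul_mem (V.inv_mem hv') hv)
      rw [h2]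
      exact mem_C.1 h3 k (Nat.lt_succ_self k)
    have h5 : v = v' := by rw [inv_mul_eq_one] at h4; exact h4.symm
    have h6 : c = c' := by
      rw [h5] at h1
      exact mul_left_cancel h1
    subst h5; subst h6; rfl
  have hcard : Nat.card V * Nat.card (C X (k + 1)) ≤ Nat.card (C X k) := by
    rw [← Nat.card_prod]
    exact Nat.card_le_card_of_injective _ hinj
  have h1 := h.top k hk1.le
  have h2 := h.bot (m - (k + 1)) (by omega)
  rw [show m - (m - (k + 1)) = k + 1 by omega, hb] at h2
  simp only [Subgroup.card_bot, mul_one] at h2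
  calc 2 ^ (m + 1) = 2 ^ k * (4 * 2 ^ (m - (k + 1))) := by
        rw [show (4 : ℕ) = 2 ^ 2 by norm_num, ← pow_add, ← pow_add]
        congr 1; omega
    _ ≤ 2 ^ k * (Nat.card V * Nat.card (C X (k + 1))) :=
        Nat.mul_le_mul_left _ (Nat.mul_le_mul hV h2)
    _ ≤ 2 ^ k * Nat.card (C X k) := Nat.mul_le_mul_left _ hcard
    _ ≤ _ := h1

end Q19.CentChain
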