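import Mathlib

open Classical

namespace Pool.Agent.Q19.EdgeCov

open SimpleGraph Sum

/-- `G` together with `d` universal vertices. -/
def addUniv {V : Type*} (G : SimpleGraph V) (d : ℕ) : SimpleGraph (V ⊕ Fin d) where
  Adj x y := x ≠ y ∧ ∀ a b, x = inl a → y = inl b → G.Adj a b
  symm := ⟨fun _ _ h => ⟨h.1.symm, fun a b ha hb => (h.2 b a hb ha).symm⟩⟩
  loopless := ⟨fun _ h => h.1 rfl⟩

theorem no_perfect {V : Type*} [Fintype V] (G : SimpleGraph V)
    (hdeg : ∀ v, ∃ w, G.Adj v w) (r : ℕ)
    (hr : ∀ S : Finset (Sym2 V), (∀ e ∈ S, e ∈ G.edgeSet) → (∀ v, ∃ e ∈ S, v ∈ e) → r < S.card)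
    (d : ℕ) (hd : Fintype.card V + d = 2 * r) (M : (addUniv G d).Subgraph)
    (hM : M.IsPerfectMatching) : False := by
  obtain ⟨hm, hs⟩ := hM
  have hp : ∀ x, ∃! y, M.Adj x y := fun x => hm (hs x)
  choose q hq using hdeg
  let F : V → Sym2 V := fun v =>
    if h : ∃ w, M.Adj (inl v) (inl w) then s(v, h.choose) else s(v, q v)
  have hFmem : ∀ v, v ∈ F v := by
    intro v
    by_cases h : ∃ w, M.Adj (inl v) (inl w)
    · simp [F, h]
    · simp [F, h]
  have hFedge : ∀ v, F v ∈ G.edgeSet := by
    intro v
    by_cases h : ∃ w, M.Adj (inl v) (inl w)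
    · have := M.adj_sub h.choose_spec
      have h2 := this.2 _ _ rfl rfl
      simpa [F, h] using h2
    · simpa [F, h] using hq v
  have hF1 : ∀ v w, M.Adj (inl v) (inl w) → F v = s(v, w) := by
    intro v w h
    have hex : ∃ w, M.Adj (inl v) (inl w) := ⟨w, h⟩
    have h1 : F v = s(v, hex.choose) := by simp only [F, dif_pos hex]
    have h2 : hex.choose = w := Sum.inl.inj ((hp (inl v)).unique hex.choose_spec h)
    rw [h1, h2]
  have key := hr (Finset.univ.image F) (by
    intro e he
    obtain ⟨v, _, rfl⟩ := Finset.mem_image.1 he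
    exact hFedge v) (fun v => ⟨F v, Finset.mem_image_of_mem _ (Finset.mem_univ v), hFmem v⟩)
  let V1 : Finset V := Finset.univ.filter (fun v => ∃ w, M.Adj (inl v) (inl w))
  let V2 : Finset V := Finset.univ.filter (fun v => ¬ ∃ w, M.Adj (inl v) (inl w))
  have h12 : V1.card + V2.card = Fintype.card V := by
    simpa [V1, V2] using Finset.card_filter_add_card_filter_not (s := (Finset.univ : Finset V))
      (fun v => ∃ w, M.Adj (inl v) (inl w))
  have hV2 : V2.card ≤ d := by
    have h1 : ∀ v : V2, ∃ i : Fin d, M.Adj (inl v.1) (inr i) := by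
      rintro ⟨v, hv⟩
      simp only [V2, Finset.mem_filter, Finset.mem_univ, true_and] at hv
      obtain ⟨y, hy, _⟩ := hp (inl v)
      rcases y with y | y
      · exact absurd ⟨y, hy⟩ hv
      · exact ⟨y, hy⟩
    choose f hf using h1
    have := Fintype.card_le_of_injective f (by
        intro v w hvw
        have a1 := (hf v).symm
        have a2 := (hf w).symm
        rw [← hvw] at a2
        have := (hp (inr (f v))).unique a1 a2
        exact Subtype.ext (Sum.inl.inj this))
    simpa using this
  have hV1 : 2 * (V1.image F).card ≤ V1.card := by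
    apply Finset.mul_card_image_le_card
    intro e he
    obtain ⟨v, hv, rfl⟩ := Finset.mem_image.1 he
    simp only [V1, Finset.mem_filter, Finset.mem_univ, true_and] at hv
    obtain ⟨w, hw⟩ := hv
    have hne : v ≠ w := by
      rintro rfl
      exact (M.adj_sub hw).1 rfl
    have : ({v, w} : Finset V) ⊆ V1.filter (fun a => F a = F v) := by
      intro x hx
      simp only [Finset.mem_insert, Finset.mem_singleton] at hx
      rcases hx with rfl | rfl
      · simp only [V1, Finset.mem_filter, Finset.mem_univ, true_and, and_true]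
        exact ⟨w, hw⟩
      · simp only [V1, Finset.mem_filter, Finset.mem_univ, true_and]
        refine ⟨⟨v, hw.symm⟩, ?_⟩
        rw [hF1 _ _ hw, hF1 _ _ hw.symm, Sym2.eq_swap]
    have h2 := Finset.card_le_card this
    rwa [Finset.card_pair hne] at h2
  have hun : (Finset.univ.image F) ⊆ V1.image F ∪ V2.image F := by
    intro e he
    obtain ⟨v, _, rfl⟩ := Finset.mem_image.1 he
    by_cases h : ∃ w, M.Adj (inl v) (inl w)
    · exact Finset.mem_union_left _ (Finset.mem_image_of_mem _ (by simpa [V1] using h))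
    · exact Finset.mem_union_right _ (Finset.mem_image_of_mem _ (by simpa [V2] using h))
  have h3 := Finset.card_le_card hun
  have h4 := Finset.card_union_le (V1.image F) (V2.image F)
  have h5 : (V2.image F).card ≤ V2.card := Finset.card_image_le
  omega

/-- Berge's formula, in the form of disjoint closed sets. -/
theorem berge {V : Type*} [Fintype V] (G : SimpleGraph V)
    (hdeg : ∀ v, ∃ w, G.Adj v w) (r : ℕ)
    (hr : ∀ S : Finset (Sym2 V), (∀ e ∈ S, e ∈ G.edgeSet) → (∀ v, ∃ e ∈ S, v ∈ e) → r < S.card)
    (d : ℕ) (hd : Fintype.card V + d = 2 * r) :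
    ∃ (A : Finset V) (K : Finset (Finset V)),
      (∀ k ∈ K, k.Nonempty ∧ Disjoint k A ∧ ∀ v ∈ k, ∀ w, G.Adj v w → w ∈ k ∨ w ∈ A) ∧
      (∀ k ∈ K, ∀ l ∈ K, k ≠ l → Disjoint k l) ∧ A.card + d + 2 ≤ K.card := by
  have hnp : ¬ ∃ M : (addUniv G d).Subgraph, M.IsPerfectMatching :=
    fun ⟨M, hM⟩ => no_perfect G hdeg r hr d hd M hM
  rw [SimpleGraph.tutte] at hnp
  push Not at hnp
  obtain ⟨U, hU⟩ := hnp
  unfold IsTutteViolator at hU
  set H := ((⊤ : (addUniv G d).Subgraph).deleteVerts U) with hH
  set C := H.coe with hC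
  have hverts : ∀ x, x ∈ H.verts ↔ x ∉ U := by
    intro x
    simp [hH]
  have hadj : ∀ x y : H.verts, C.Adj x y ↔ (addUniv G d).Adj x y := by
    intro x y
    have hx := (hverts x.1).1 x.2
    have hy := (hverts y.1).1 y.2
    simp [hC, hH, Subgraph.coe_adj]
  have hpar := odd_ncard_oddComponents C
  have hcardH : Nat.card H.verts + U.ncard = 2 * r := by
    have : H.verts = Uᶜ := by
      ext x
      simp [hverts]
    rw [Nat.card_coe_set_eq, this]
    have h1 := Set.ncard_add_ncard_compl U
    have h2 : Nat.card (V ⊕ Fin d) = 2 * r := by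
      rw [Nat.card_eq_fintype_card, Fintype.card_sum, Fintype.card_fin, hd]
    omega
  have hge : U.ncard + 2 ≤ C.oddComponents.ncard := by
    by_contra hcon
    have h1 : C.oddComponents.ncard = U.ncard + 1 := by omega
    rw [h1] at hpar
    have h2 : Nat.card H.verts = 2 * r - U.ncard := by omega
    rcases Nat.even_or_odd U.ncard with he | ho
    · have h3 : Odd (U.ncard + 1) := he.add_one
      have h4 := hpar.1 h3
      obtain ⟨a, ha⟩ := he
      obtain ⟨b, hb⟩ := h4
      omega
    · have h3 : ¬ Odd (U.ncard + 1) := by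
        rw [Nat.not_odd_iff_even]; exact ho.add_one
      have h4 : ¬ Odd (Nat.card H.verts) := fun h => h3 (hpar.2 h)
      rw [Nat.not_odd_iff_even] at h4
      obtain ⟨a, ha⟩ := ho
      obtain ⟨b, hb⟩ := h4
      omega
  have hall : ∀ i : Fin d, inr i ∈ U := by
    intro i
    by_contra hi
    have hi' : inr i ∈ H.verts := (hverts _).2 hi
    have hsub : ∀ c : C.ConnectedComponent, c = C.connectedComponentMk ⟨inr i, hi'⟩ := by
      intro c
      induction c using ConnectedComponent.ind with
      | _ x =>
        by_cases hx : x = ⟨inr i, hi'⟩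
        · rw [hx]
        · apply ConnectedComponent.sound
          apply Adj.reachable
          rw [hadj]
          refine ⟨fun h => hx (Subtype.ext h), ?_⟩
          rintro a b h1 h2
          cases h2
    have : C.oddComponents ⊆ {C.connectedComponentMk ⟨inr i, hi'⟩} := by
      intro c _
      exact hsub c
    have h2 := Set.ncard_le_ncard this
    rw [Set.ncard_singleton] at h2
    omega
  let A : Finset V := Finset.univ.filter (fun v => inl v ∈ U)
  have hUcard : U.ncard = A.card + d := by
    have : U = ((A.map ⟨inl, Sum.inl_injective⟩ ∪ (Finset.univ : Finset (Fin d)).map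
        ⟨inr, Sum.inr_injective⟩ : Finset (V ⊕ Fin d)) : Set (V ⊕ Fin d)) := by
      ext x
      rcases x with x | x
      · simp [A]
      · simp [hall x]
    rw [this, Set.ncard_coe_finset, Finset.card_union_of_disjoint, Finset.card_map,
      Finset.card_map, Finset.card_univ, Fintype.card_fin]
    rw [Finset.disjoint_left]
    intro x hx hx2
    simp only [Finset.mem_map, Function.Embedding.coeFn_mk] at hx hx2
    obtain ⟨a, _, rfl⟩ := hx
    obtain ⟨b, _, hb⟩ := hx2
    cases hb
  let g : C.ConnectedComponent → Finset V := fun c =>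
    Finset.univ.filter (fun v => ∃ h : inl v ∈ H.verts, C.connectedComponentMk ⟨inl v, h⟩ = c)
  have hgmem : ∀ c v, v ∈ g c ↔ ∃ h : inl v ∈ H.verts, C.connectedComponentMk ⟨inl v, h⟩ = c := by
    intro c v
    simp [g]
  have hgne : ∀ c, (g c).Nonempty := by
    intro c
    induction c using ConnectedComponent.ind with
    | _ x =>
      obtain ⟨x, hx⟩ := x
      rcases x with x | x
      · exact ⟨x, (hgmem _ _).2 ⟨hx, rfl⟩⟩
      · exact absurd (hall x) ((hverts _).1 hx)
  have hgdis : ∀ c c', c ≠ c' → Disjoint (g c) (g c') := by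
    intro c c' hne
    rw [Finset.disjoint_left]
    intro v hv hv'
    obtain ⟨h1, h2⟩ := (hgmem _ _).1 hv
    obtain ⟨h3, h4⟩ := (hgmem _ _).1 hv'
    exact hne (h2.symm.trans h4)
  have hginj : Function.Injective g := by
    intro c c' h
    by_contra hne
    have := hgdis c c' hne
    rw [h] at this
    have h2 := hgne c'
    rw [disjoint_self] at this
    rw [this] at h2
    exact Finset.not_nonempty_empty h2
  have hfin : C.oddComponents.Finite := Set.toFinite _
  refine ⟨A, hfin.toFinset.image g, ?_, ?_, ?_⟩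
  · intro k hk
    obtain ⟨c, _, rfl⟩ := Finset.mem_image.1 hk
    refine ⟨hgne c, ?_, ?_⟩
    · rw [Finset.disjoint_left]
      intro v hv hvA
      obtain ⟨h1, _⟩ := (hgmem _ _).1 hv
      rw [hverts] at h1
      simp only [A, Finset.mem_filter, Finset.mem_univ, true_and] at hvA
      exact h1 hvA
    · intro v hv w hvw
      obtain ⟨h1, h2⟩ := (hgmem _ _).1 hv
      by_cases hw : inl w ∈ U
      · right
        simp only [A, Finset.mem_filter, Finset.mem_univ, true_and]
        exact hw
      · left
        rw [hgmem]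
        refine ⟨(hverts _).2 hw, ?_⟩
        rw [← h2]
        apply ConnectedComponent.sound
        apply Adj.reachable
        rw [hadj]
        refine ⟨fun h => hvw.ne (Sum.inl.inj h).symm, ?_⟩
        intro a b ha hb
        rw [← Sum.inl.inj ha, ← Sum.inl.inj hb]
        exact hvw.symm
  · intro k hk l hl hne
    obtain ⟨c, _, rfl⟩ := Finset.mem_image.1 hk
    obtain ⟨c', _, rfl⟩ := Finset.mem_image.1 hl
    exact hgdis c c' (fun h => hne (by rw [h]))
  · rw [Finset.card_image_of_injective _ hginj, ← Set.ncard_eq_toFinset_card _ hfin]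
    omega

end Pool.Agent.Q19.EdgeCov
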