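import Mathlib

open Classical

namespace Pool.Agent.Q19.EdgeCov

open SimpleGraph

set_option linter.unusedSectionVars false

variable {V : Type*} [Fintype V]

/-- number of neighbours of `v` in `A` -/
noncomputable def nb (G : SimpleGraph V) (A : Finset V) (v : V) : ℕ :=
  (A.filter (fun w => G.Adj v w)).card

theorem nb_le (G : SimpleGraph V) (A : Finset V) (v : V) : nb G A v ≤ A.card :=
  Finset.card_filter_le _ _

theorem nb_univ (G : SimpleGraph V) (v : V) : nb G Finset.univ v = G.degree v := by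
  unfold nb
  rw [← SimpleGraph.card_neighborFinset_eq_degree]
  congr 1
  ext w
  simp

theorem nb_union (G : SimpleGraph V) (A B : Finset V) (h : Disjoint A B) (v : V) :
    nb G (A ∪ B) v = nb G A v + nb G B v := by
  unfold nb
  rw [Finset.filter_union, Finset.card_union_of_disjoint]
  exact Finset.disjoint_filter_filter h

theorem nb_mono (G : SimpleGraph V) {A B : Finset V} (h : A ⊆ B) (v : V) :
    nb G A v ≤ nb G B v :=
  Finset.card_le_card (Finset.filter_subset_filter _ h)

theorem sum_nb_comm (G : SimpleGraph V) (A B : Finset V) :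
    ∑ v ∈ A, nb G B v = ∑ w ∈ B, nb G A w := by
  unfold nb
  simp only [Finset.card_filter]
  rw [Finset.sum_comm]
  simp only [G.adj_comm]

theorem even_sum_nb (G : SimpleGraph V) (A : Finset V) : Even (∑ v ∈ A, nb G A v) := by
  induction A using Finset.induction_on with
  | empty => simp
  | insert a s ha ih =>
    rw [Finset.insert_eq, Finset.union_comm]
    have hdis : Disjoint s {a} := by simpa using ha
    rw [Finset.sum_union hdis]
    simp only [nb_union G s {a} hdis]
    rw [Finset.sum_add_distrib, Finset.sum_singleton, sum_nb_comm G s {a}, Finset.sum_singleton]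
    have : nb G {a} a = 0 := by
      unfold nb
      rw [Finset.card_eq_zero, Finset.filter_eq_empty_iff]
      intro x hx
      rw [Finset.mem_singleton.1 hx]
      exact G.loopless.irrefl a
    rw [this]
    obtain ⟨b, hb⟩ := ih
    exact ⟨b + nb G s a, by omega⟩

/-- A family of disjoint closed sets. -/
structure Fam (G : SimpleGraph V) (A : Finset V) (K : Finset (Finset V)) : Prop where
  ne : ∀ k ∈ K, k.Nonempty
  dA : ∀ k ∈ K, Disjoint k A
  cl : ∀ k ∈ K, ∀ v ∈ k, ∀ w, G.Adj v w → w ∈ k ∨ w ∈ A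
  dd : ∀ k ∈ K, ∀ l ∈ K, k ≠ l → Disjoint k l

theorem deg_eq {G : SimpleGraph V} {A : Finset V} {K : Finset (Finset V)} (h : Fam G A K)
    {k : Finset V} (hk : k ∈ K) {v : V} (hv : v ∈ k) :
    G.degree v = nb G k v + nb G A v := by
  rw [← nb_union G k A (h.dA k hk), ← nb_univ]
  unfold nb
  congr 1
  ext w
  simp only [Finset.mem_filter, Finset.mem_univ, true_and, Finset.mem_union]
  exact ⟨fun hw => ⟨h.cl k hk v hv w hw, hw⟩, fun hw => hw.2⟩

theorem one_le_delta {G : SimpleGraph V} (hc : G.Connected) {A : Finset V} (hA : A.Nonempty)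
    {K : Finset (Finset V)} (h : Fam G A K) {k : Finset V} (hk : k ∈ K) :
    1 ≤ ∑ v ∈ k, nb G A v := by
  obtain ⟨v, hv⟩ := h.ne k hk
  obtain ⟨a, ha⟩ := hA
  have hak : a ∉ k := fun h' => Finset.disjoint_left.1 (h.dA k hk) h' ha
  obtain ⟨p⟩ := hc.preconnected v a
  obtain ⟨d, _, h1, h2⟩ := p.exists_boundary_dart (k : Set V) hv hak
  have h3 := h.cl k hk d.fst h1 d.snd d.adj
  have h4 : d.snd ∈ A := h3.resolve_left h2
  have h5 : 1 ≤ nb G A d.fst := by
    unfold nb
    rw [Nat.one_le_iff_ne_zero, Ne, Finset.card_eq_zero]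
    intro h6
    have : d.snd ∈ A.filter (fun w => G.Adj d.fst w) := Finset.mem_filter.2 ⟨h4, d.adj⟩
    rw [h6] at this
    exact Finset.notMem_empty _ this
  exact h5.trans (Finset.single_le_sum (f := fun v => nb G A v) (fun _ _ => Nat.zero_le _) h1)

theorem parity {G : SimpleGraph V} {A : Finset V} {K : Finset (Finset V)} (h : Fam G A K)
    (hdeg : ∀ v, 2 ≤ G.degree v) {k : Finset V} (hk : k ∈ K) :
    ∃ j, (∑ v ∈ k, (G.degree v - 2)) + 2 * k.card = (∑ v ∈ k, nb G A v) + 2 * j := by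
  obtain ⟨j, hj⟩ := even_sum_nb G k
  refine ⟨j, ?_⟩
  have h1 : (∑ v ∈ k, (G.degree v - 2)) + 2 * k.card = ∑ v ∈ k, G.degree v := by
    rw [mul_comm, ← smul_eq_mul, ← Finset.sum_const, ← Finset.sum_add_distrib]
    exact Finset.sum_congr rfl (fun v _ => Nat.sub_add_cancel (hdeg v))
  have h2 : ∑ v ∈ k, G.degree v = (∑ v ∈ k, nb G k v) + ∑ v ∈ k, nb G A v := by
    rw [← Finset.sum_add_distrib]
    exact Finset.sum_congr rfl (fun v hv => deg_eq h hk hv)
  omega

theorem two_le {G : SimpleGraph V} (hc : G.Connected) {A : Finset V} (hA : A.Nonempty)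
    {K : Finset (Finset V)} (h : Fam G A K)
    (hdeg : ∀ v, 2 ≤ G.degree v) {k : Finset V} (hk : k ∈ K) :
    2 ≤ (∑ v ∈ k, (G.degree v - 2)) + ∑ v ∈ k, nb G A v := by
  obtain ⟨j, hj⟩ := parity h hdeg hk
  have := one_le_delta hc hA h hk
  omega

theorem sum_family {G : SimpleGraph V} {A : Finset V} {K : Finset (Finset V)} (h : Fam G A K)
    (f : V → ℕ) : ∑ k ∈ K, ∑ v ∈ k, f v = ∑ v ∈ K.biUnion id, f v := by
  rw [Finset.sum_biUnion]
  · rfl
  · intro k hk l hl hne
    exact h.dd k hk l hl hne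

theorem biUnion_disj {G : SimpleGraph V} {A : Finset V} {K : Finset (Finset V)} (h : Fam G A K) :
    Disjoint (K.biUnion id) A := by
  rw [Finset.disjoint_biUnion_left]
  intro k hk
  exact h.dA k hk

theorem total {G : SimpleGraph V} (A : Finset V) (hdeg : ∀ v, 2 ≤ G.degree v) :
    (∑ v ∈ Aᶜ, (G.degree v - 2)) + (∑ v ∈ Aᶜ, nb G A v) + (∑ v ∈ A, nb G A v) +
      2 * Fintype.card V = 2 * G.edgeFinset.card + 2 * A.card := by
  have h1 : ∑ v ∈ Aᶜ, nb G A v = ∑ v ∈ A, nb G Aᶜ v := sum_nb_comm G _ _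
  have h2 : (∑ v ∈ A, nb G Aᶜ v) + (∑ v ∈ A, nb G A v) = ∑ v ∈ A, G.degree v := by
    rw [← Finset.sum_add_distrib]
    refine Finset.sum_congr rfl (fun v _ => ?_)
    rw [← nb_union G Aᶜ A disjoint_compl_left, Finset.union_comm, Finset.union_compl, nb_univ]
  have h3 : (∑ v ∈ Aᶜ, (G.degree v - 2)) + 2 * (Aᶜ).card = ∑ v ∈ Aᶜ, G.degree v := by
    rw [mul_comm, ← smul_eq_mul, ← Finset.sum_const, ← Finset.sum_add_distrib]
    exact Finset.sum_congr rfl (fun v _ => Nat.sub_add_cancel (hdeg v))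
  have h4 : (∑ v ∈ A, G.degree v) + (∑ v ∈ Aᶜ, G.degree v) = 2 * G.edgeFinset.card := by
    rw [Finset.sum_add_sum_compl, SimpleGraph.sum_degrees_eq_twice_card_edges]
  have h5 := Finset.card_add_card_compl A
  omega

theorem fam_le {G : SimpleGraph V} (hc : G.Connected) {A : Finset V} (hA : A.Nonempty)
    {K : Finset (Finset V)} (h : Fam G A K) (hdeg : ∀ v, 2 ≤ G.degree v) :
    K.card + Fintype.card V ≤ A.card + G.edgeFinset.card := by
  have h1 : 2 * K.card ≤ ∑ k ∈ K, ((∑ v ∈ k, (G.degree v - 2)) + ∑ v ∈ k, nb G A v) := by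
    rw [mul_comm, ← smul_eq_mul, ← Finset.sum_const]
    exact Finset.sum_le_sum (fun k hk => two_le hc hA h hdeg hk)
  rw [Finset.sum_add_distrib, sum_family h, sum_family h] at h1
  have hsub : K.biUnion id ⊆ Aᶜ := by
    rw [Finset.subset_compl_iff_disjoint_right]
    exact biUnion_disj h
  have h2 := Finset.sum_le_sum_of_subset (f := fun v => G.degree v - 2) hsub
  have h3 := Finset.sum_le_sum_of_subset (f := fun v => nb G A v) hsub
  have h4 := total A hdeg
  omega

/-- Equality case: the family covers the complement of `A`. -/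
theorem fam_cover {G : SimpleGraph V} (hc : G.Connected) {A : Finset V} (hA : A.Nonempty)
    {K : Finset (Finset V)} (h : Fam G A K) (hdeg : ∀ v, 2 ≤ G.degree v)
    (heq : A.card + G.edgeFinset.card ≤ K.card + Fintype.card V) : K.biUnion id = Aᶜ := by
  by_contra hne
  have hsub : K.biUnion id ⊆ Aᶜ := by
    rw [Finset.subset_compl_iff_disjoint_right]
    exact biUnion_disj h
  let R : Finset V := Aᶜ \ K.biUnion id
  have hR : R.Nonempty := by
    rw [Finset.sdiff_nonempty]
    intro h'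
    exact hne (Finset.Subset.antisymm hsub h')
  have hRK : ∀ k ∈ K, Disjoint k R := by
    intro k hk
    rw [Finset.disjoint_left]
    intro v hv hvR
    have := (Finset.mem_sdiff.1 hvR).2
    exact this (Finset.mem_biUnion.2 ⟨k, hk, hv⟩)
  have hRn : R ∉ K := by
    intro h'
    have := hRK R h'
    rw [disjoint_self] at this
    rw [this] at hR
    exact Finset.not_nonempty_empty hR
  have hF : Fam G A (insert R K) := by
    refine ⟨?_, ?_, ?_, ?_⟩
    · intro k hk
      rcases Finset.mem_insert.1 hk with rfl | hk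
      · exact hR
      · exact h.ne k hk
    · intro k hk
      rcases Finset.mem_insert.1 hk with rfl | hk
      · rw [Finset.disjoint_left]
        intro v hv hvA
        exact (Finset.mem_compl.1 (Finset.mem_sdiff.1 hv).1) hvA
      · exact h.dA k hk
    · intro k hk v hv w hvw
      rcases Finset.mem_insert.1 hk with rfl | hk
      · by_cases hw : w ∈ A
        · exact Or.inr hw
        · left
          refine Finset.mem_sdiff.2 ⟨Finset.mem_compl.2 hw, ?_⟩
          intro hw2
          obtain ⟨k, hk, hwk⟩ := Finset.mem_biUnion.1 hw2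
          rcases h.cl k hk w hwk v hvw.symm with h5 | h5
          · exact (Finset.disjoint_left.1 (hRK k hk) h5) hv
          · exact (Finset.mem_compl.1 (Finset.mem_sdiff.1 hv).1) h5
      · exact h.cl k hk v hv w hvw
    · intro k hk l hl hkl
      rcases Finset.mem_insert.1 hk with rfl | hk
      · rcases Finset.mem_insert.1 hl with rfl | hl
        · exact absurd rfl hkl
        · exact (hRK l hl).symm
      · rcases Finset.mem_insert.1 hl with rfl | hl
        · exact hRK k hk
        · exact h.dd k hk l hl hkl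
  have := fam_le hc hA hF hdeg
  rw [Finset.card_insert_of_notMem hRn] at this
  omega

theorem card_ge {G : SimpleGraph V} {A : Finset V} {K : Finset (Finset V)} (h : Fam G A K)
    {k : Finset V} (hk : k ∈ K) (h1 : 1 ≤ ∑ v ∈ k, nb G A v)
    (h2 : (∑ v ∈ k, (G.degree v - 2)) + ∑ v ∈ k, nb G A v = 2) :
    1 + 2 * (∑ v ∈ k, (G.degree v - 2)) ≤ k.card := by
  have hne := h.ne k hk
  have hcard := Finset.card_pos.2 hne
  rcases Nat.eq_zero_or_pos (∑ v ∈ k, (G.degree v - 2)) with h3 | h3
  · omega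
  · have h4 : ∑ v ∈ k, (G.degree v - 2) = 1 := by omega
    have h5 : ∑ v ∈ k, nb G A v = 1 := by omega
    obtain ⟨w, hw, hw2⟩ : ∃ w ∈ k, G.degree w - 2 ≠ 0 := by
      by_contra hcon
      push Not at hcon
      rw [Finset.sum_eq_zero hcon] at h4
      omega
    have h6 : nb G A w ≤ 1 := by
      rw [← h5]
      exact Finset.single_le_sum (f := fun v => nb G A v) (fun _ _ => Nat.zero_le _) hw
    have h7 := deg_eq h hk hw
    have h8 : nb G k w ≤ k.card - 1 := by
      rw [← Finset.card_erase_of_mem hw]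
      unfold nb
      apply Finset.card_le_card
      intro x hx
      obtain ⟨hx1, hx2⟩ := Finset.mem_filter.1 hx
      exact Finset.mem_erase.2 ⟨hx2.ne.symm, hx1⟩
    omega

/-- The structure in the equality case. -/
theorem struct {G : SimpleGraph V} (hc : G.Connected) {A : Finset V} (hA : A.Nonempty)
    {K : Finset (Finset V)} (h : Fam G A K) (hdeg : ∀ v, 2 ≤ G.degree v)
    (heq : A.card + G.edgeFinset.card ≤ K.card + Fintype.card V)
    (hlow : 2 * (Finset.univ.filter (fun v => G.degree v = 2)).card = G.edgeFinset.card) :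
    (∀ a ∈ A, ∀ b ∈ A, ¬ G.Adj a b) ∧
    (∀ k ∈ K, (∑ v ∈ k, (G.degree v - 2)) + ∑ v ∈ k, nb G A v = 2) ∧
    (∀ k ∈ K, 1 ≤ ∑ v ∈ k, nb G A v) ∧
    (∀ k ∈ K, k.card = 1 + 2 * (∑ v ∈ k, (G.degree v - 2))) ∧
    (Finset.univ.filter (fun v => G.degree v = 2)).card =
      ∑ k ∈ K, (1 + ∑ v ∈ k, (G.degree v - 2)) := by
  have hcov := fam_cover hc hA h hdeg heq
  have htot := total A hdeg
  have hsum : (∑ k ∈ K, ((∑ v ∈ k, (G.degree v - 2)) + ∑ v ∈ k, nb G A v)) =
      (∑ v ∈ Aᶜ, (G.degree v - 2)) + (∑ v ∈ Aᶜ, nb G A v) := by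
    rw [Finset.sum_add_distrib, sum_family h, sum_family h, hcov]
  have hge : 2 * K.card ≤ ∑ k ∈ K, ((∑ v ∈ k, (G.degree v - 2)) + ∑ v ∈ k, nb G A v) := by
    rw [mul_comm, ← smul_eq_mul, ← Finset.sum_const]
    exact Finset.sum_le_sum (fun k hk => two_le hc hA h hdeg hk)
  have hA0 : ∑ v ∈ A, nb G A v = 0 := by omega
  have hsum2 : ∑ k ∈ K, ((∑ v ∈ k, (G.degree v - 2)) + ∑ v ∈ k, nb G A v) = ∑ k ∈ K, 2 := by
    rw [Finset.sum_const, smul_eq_mul]
    omega
  have heach : ∀ k ∈ K, (∑ v ∈ k, (G.degree v - 2)) + ∑ v ∈ k, nb G A v = 2 := by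
    intro k hk
    have := (Finset.sum_eq_sum_iff_of_le (fun k hk => two_le hc hA h hdeg hk)).1 hsum2.symm k hk
    exact this.symm
  have hone : ∀ k ∈ K, 1 ≤ ∑ v ∈ k, nb G A v := fun k hk => one_le_delta hc hA h hk
  have hcards : ∀ k ∈ K, 1 + 2 * (∑ v ∈ k, (G.degree v - 2)) ≤ k.card :=
    fun k hk => card_ge h hk (hone k hk) (heach k hk)
  -- counting
  have hcompl : ∑ k ∈ K, k.card = (Aᶜ).card := by
    have := sum_family h (fun _ => 1)
    simp only [Finset.sum_const, smul_eq_mul, mul_one] at this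
    rw [this, hcov]
  have hD : ∑ k ∈ K, ∑ v ∈ k, (G.degree v - 2) = ∑ v ∈ Aᶜ, (G.degree v - 2) := by
    rw [sum_family h, hcov]
  -- high vertices outside A : each has excess one
  have hx1 : ∀ v ∈ Aᶜ, G.degree v - 2 = if G.degree v = 2 then 0 else 1 := by
    intro v hv
    rw [← hcov] at hv
    obtain ⟨k, hk, hvk⟩ := Finset.mem_biUnion.1 hv
    change v ∈ k at hvk
    have h1 := Finset.single_le_sum (f := fun v => G.degree v - 2) (fun _ _ => Nat.zero_le _) hvk
    have h2 := heach k hk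
    have h3 := hone k hk
    have h4 := hdeg v
    split_ifs with h5
    · omega
    · omega
  have hDA : ∑ v ∈ Aᶜ, (G.degree v - 2) =
      (Aᶜ.filter (fun v => ¬ G.degree v = 2)).card := by
    rw [Finset.sum_congr rfl hx1, Finset.card_filter]
    refine Finset.sum_congr rfl (fun v _ => ?_)
    by_cases h : G.degree v = 2 <;> simp [h]
  have hlowsplit : (Finset.univ.filter (fun v => G.degree v = 2)).card =
      (A.filter (fun v => G.degree v = 2)).card + (Aᶜ.filter (fun v => G.degree v = 2)).card := by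
    rw [← Finset.card_union_of_disjoint, ← Finset.filter_union, Finset.union_compl]
    exact Finset.disjoint_filter_filter disjoint_compl_right
  have hcsplit : (Aᶜ.filter (fun v => G.degree v = 2)).card +
      (Aᶜ.filter (fun v => ¬ G.degree v = 2)).card = (Aᶜ).card :=
    Finset.card_filter_add_card_filter_not _
  have hcc := Finset.card_add_card_compl A
  have hsumc : K.card + 2 * (∑ k ∈ K, ∑ v ∈ k, (G.degree v - 2)) ≤ ∑ k ∈ K, k.card := by
    have : K.card + 2 * (∑ k ∈ K, ∑ v ∈ k, (G.degree v - 2)) =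
        ∑ k ∈ K, (1 + 2 * (∑ v ∈ k, (G.degree v - 2))) := by
      rw [Finset.sum_add_distrib, Finset.mul_sum]
      simp
    rw [this]
    exact Finset.sum_le_sum hcards
  have hsumeq : ∑ k ∈ K, (1 + 2 * (∑ v ∈ k, (G.degree v - 2))) = ∑ k ∈ K, k.card := by
    have : K.card + 2 * (∑ k ∈ K, ∑ v ∈ k, (G.degree v - 2)) =
        ∑ k ∈ K, (1 + 2 * (∑ v ∈ k, (G.degree v - 2))) := by
      rw [Finset.sum_add_distrib, Finset.mul_sum]
      simp
    omega
  refine ⟨?_, heach, hone, ?_, ?_⟩
  · intro a ha b hb hab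
    have h1 : nb G A a = 0 := (Finset.sum_eq_zero_iff.1 hA0) a ha
    unfold nb at h1
    rw [Finset.card_eq_zero, Finset.filter_eq_empty_iff] at h1
    exact h1 hb hab
  · intro k hk
    exact ((Finset.sum_eq_sum_iff_of_le hcards).1 hsumeq k hk).symm
  · have h1 : ∑ k ∈ K, (1 + ∑ v ∈ k, (G.degree v - 2)) =
        K.card + ∑ k ∈ K, ∑ v ∈ k, (G.degree v - 2) := by
      rw [Finset.sum_add_distrib, Finset.card_eq_sum_ones]
    rw [h1]
    have hle : (A.filter (fun v => G.degree v = 2)).card ≤ A.card := Finset.card_filter_le _ _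
    omega

end Pool.Agent.Q19.EdgeCov
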