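import Pool.Agent.Q19.EdgeCovB

open Classical

namespace Pool.Agent.Q19.EdgeCov

open SimpleGraph

variable {V : Type*} [Fintype V]

/-- The edge covers. -/
noncomputable def cov (G : SimpleGraph V) : Finset (Finset (Sym2 V)) :=
  G.edgeFinset.powerset.filter (fun S => ∀ v, ∃ e ∈ S, v ∈ e)

omit [Fintype V] in
theorem card_le_of_enum {n : ℕ} (e : Fin n → Sym2 V) (B : Finset (Sym2 V))
    (hB : ∀ b ∈ B, ∃ i, e i = b) (Q : Finset (Finset (Sym2 V))) (hQ : ∀ T ∈ Q, T ⊆ B)
    (P : Finset (Fin n) → Prop) [DecidablePred P]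
    (hP : ∀ T ∈ Q, P (Finset.univ.filter (fun i => e i ∈ T))) :
    Q.card ≤ (Finset.univ.filter P).card := by
  refine Finset.card_le_card_of_injOn (fun T => Finset.univ.filter (fun i => e i ∈ T)) ?_ ?_
  · intro T hT
    simpa using hP T hT
  · intro T hT T' hT' h
    have key : ∀ i, e i ∈ T ↔ e i ∈ T' := by
      intro i
      have : i ∈ Finset.univ.filter (fun i => e i ∈ T) ↔
          i ∈ Finset.univ.filter (fun i => e i ∈ T') := by
        simp only at h
        rw [h]
      simpa using this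
    ext b
    constructor
    · intro hb
      obtain ⟨i, rfl⟩ := hB b (hQ T hT hb)
      exact (key i).1 hb
    · intro hb
      obtain ⟨i, rfl⟩ := hB b (hQ T' hT' hb)
      exact (key i).2 hb

theorem mem_edge_cases (G : SimpleGraph V) {e : Sym2 V} (he : e ∈ G.edgeFinset) {v : V}
    (hv : v ∈ e) : ∃ w, G.Adj v w ∧ e = s(v, w) := by
  obtain ⟨w, rfl⟩ := Sym2.mem_iff_exists.1 hv
  exact ⟨w, by simpa using he, rfl⟩

/-- edges meeting `k` -/
noncomputable def Bk (G : SimpleGraph V) (k : Finset V) : Finset (Sym2 V) :=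
  G.edgeFinset.filter (fun e => ∃ v ∈ k, v ∈ e)

/-- covers of `k` inside `Bk` -/
noncomputable def Wk (G : SimpleGraph V) (k : Finset V) : Finset (Finset (Sym2 V)) :=
  (Bk G k).powerset.filter (fun T => ∀ v ∈ k, ∃ e ∈ T, v ∈ e)

theorem Wk_one (G : SimpleGraph V) (v : V) (hv : G.degree v = 2) : (Wk G {v}).card ≤ 3 := by
  rw [← SimpleGraph.card_neighborFinset_eq_degree, Finset.card_eq_two] at hv
  obtain ⟨x, y, hxy, hN⟩ := hv
  have hadj : ∀ w, G.Adj v w → w = x ∨ w = y := by
    intro w hw
    have : w ∈ G.neighborFinset v := by simpa using hw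
    rw [hN] at this
    simpa using this
  have hedge : ∀ e ∈ G.edgeFinset, v ∈ e → e = s(v, x) ∨ e = s(v, y) := by
    intro e he hve
    obtain ⟨w, hw, rfl⟩ := mem_edge_cases G he hve
    rcases hadj w hw with rfl | rfl
    · exact Or.inl rfl
    · exact Or.inr rfl
  have := card_le_of_enum ![s(v, x), s(v, y)] (Bk G {v}) (by
      intro b hb
      obtain ⟨hb1, w, hw, hb2⟩ := Finset.mem_filter.1 hb
      rw [Finset.mem_singleton.1 hw] at hb2
      rcases hedge b hb1 hb2 with h | h
      · exact ⟨0, h.symm⟩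
      · exact ⟨1, h.symm⟩) (Wk G {v}) (fun T hT => by
        exact Finset.mem_powerset.1 (Finset.mem_filter.1 hT).1)
    (fun s => 0 ∈ s ∨ 1 ∈ s) (by
      intro T hT
      obtain ⟨hT1, hT2⟩ := Finset.mem_filter.1 hT
      obtain ⟨e, he, hve⟩ := hT2 v (Finset.mem_singleton_self v)
      have heE : e ∈ G.edgeFinset := (Finset.mem_filter.1 (Finset.mem_powerset.1 hT1 he)).1
      rcases hedge e heE hve with h | h
      · left
        rw [h] at he
        simpa using he
      · right
        rw [h] at he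
        simpa using he)
  refine this.trans ?_
  have h3 : (Finset.univ.filter (fun s : Finset (Fin 2) => 0 ∈ s ∨ 1 ∈ s)).card = 3 := by decide
  convert h3.le

theorem Wk_three (G : SimpleGraph V) (u v w a : V)
    (hu : ∀ x, G.Adj u x → x = v ∨ x = w) (hv : ∀ x, G.Adj v x → x = u ∨ x = w)
    (hw : ∀ x, G.Adj w x → x = u ∨ x = v ∨ x = a) :
    (Wk G {u, v, w}).card ≤ 9 := by
  have hedgeu : ∀ e ∈ G.edgeFinset, u ∈ e → e = s(u, v) ∨ e = s(u, w) := by
    intro e he hve
    obtain ⟨x, hx, rfl⟩ := mem_edge_cases G he hve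
    rcases hu x hx with rfl | rfl
    · exact Or.inl rfl
    · exact Or.inr rfl
  have hedgev : ∀ e ∈ G.edgeFinset, v ∈ e → e = s(u, v) ∨ e = s(v, w) := by
    intro e he hve
    obtain ⟨x, hx, rfl⟩ := mem_edge_cases G he hve
    rcases hv x hx with rfl | rfl
    · exact Or.inl Sym2.eq_swap
    · exact Or.inr rfl
  have hedgew : ∀ e ∈ G.edgeFinset, w ∈ e → e = s(u, w) ∨ e = s(v, w) ∨ e = s(w, a) := by
    intro e he hve
    obtain ⟨x, hx, rfl⟩ := mem_edge_cases G he hve
    rcases hw x hx with rfl | rfl | rfl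
    · exact Or.inl Sym2.eq_swap
    · exact Or.inr (Or.inl Sym2.eq_swap)
    · exact Or.inr (Or.inr rfl)
  have := card_le_of_enum ![s(u, v), s(u, w), s(v, w), s(w, a)] (Bk G {u, v, w}) (by
      intro b hb
      obtain ⟨hb1, x, hx, hb2⟩ := Finset.mem_filter.1 hb
      simp only [Finset.mem_insert, Finset.mem_singleton] at hx
      rcases hx with rfl | rfl | rfl
      · rcases hedgeu b hb1 hb2 with h | h
        · exact ⟨0, h.symm⟩
        · exact ⟨1, h.symm⟩
      · rcases hedgev b hb1 hb2 with h | h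
        · exact ⟨0, h.symm⟩
        · exact ⟨2, h.symm⟩
      · rcases hedgew b hb1 hb2 with h | h | h
        · exact ⟨1, h.symm⟩
        · exact ⟨2, h.symm⟩
        · exact ⟨3, h.symm⟩) (Wk G {u, v, w}) (fun T hT => by
        exact Finset.mem_powerset.1 (Finset.mem_filter.1 hT).1)
    (fun s => (0 ∈ s ∨ 1 ∈ s) ∧ (0 ∈ s ∨ 2 ∈ s) ∧ (1 ∈ s ∨ 2 ∈ s ∨ 3 ∈ s)) (by
      intro T hT
      obtain ⟨hT1, hT2⟩ := Finset.mem_filter.1 hT
      have hsub := Finset.mem_powerset.1 hT1
      refine ⟨?_, ?_, ?_⟩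
      · obtain ⟨e, he, hve⟩ := hT2 u (by simp)
        have heE : e ∈ G.edgeFinset := (Finset.mem_filter.1 (hsub he)).1
        rcases hedgeu e heE hve with h | h
        · left; rw [h] at he; simpa using he
        · right; rw [h] at he; simpa using he
      · obtain ⟨e, he, hve⟩ := hT2 v (by simp)
        have heE : e ∈ G.edgeFinset := (Finset.mem_filter.1 (hsub he)).1
        rcases hedgev e heE hve with h | h
        · left; rw [h] at he; simpa using he
        · right; rw [h] at he; simpa using he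
      · obtain ⟨e, he, hve⟩ := hT2 w (by simp)
        have heE : e ∈ G.edgeFinset := (Finset.mem_filter.1 (hsub he)).1
        rcases hedgew e heE hve with h | h | h
        · left; rw [h] at he; simpa using he
        · right; left; rw [h] at he; simpa using he
        · right; right; rw [h] at he; simpa using he)
  refine this.trans ?_
  have h3 : (Finset.univ.filter (fun s : Finset (Fin 4) =>
    (0 ∈ s ∨ 1 ∈ s) ∧ (0 ∈ s ∨ 2 ∈ s) ∧ (1 ∈ s ∨ 2 ∈ s ∨ 3 ∈ s))).card = 9 := by decide
  convert h3.le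

theorem nb_self_le (G : SimpleGraph V) {k : Finset V} {w : V} (hw : w ∈ k) :
    nb G k w ≤ k.card - 1 := by
  rw [← Finset.card_erase_of_mem hw]
  unfold nb
  apply Finset.card_le_card
  intro x hx
  obtain ⟨hx1, hx2⟩ := Finset.mem_filter.1 hx
  exact Finset.mem_erase.2 ⟨hx2.ne.symm, hx1⟩

/-- Bound for the number of local covers. -/
theorem Wk_le {G : SimpleGraph V} {A : Finset V} {K : Finset (Finset V)} (h : Fam G A K)
    (hdeg : ∀ v, 2 ≤ G.degree v) {k : Finset V} (hk : k ∈ K)
    (h1 : (∑ v ∈ k, (G.degree v - 2)) + ∑ v ∈ k, nb G A v = 2)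
    (h2 : 1 ≤ ∑ v ∈ k, nb G A v)
    (h3 : k.card = 1 + 2 * (∑ v ∈ k, (G.degree v - 2))) :
    (Wk G k).card ≤ 3 ^ (1 + ∑ v ∈ k, (G.degree v - 2)) := by
  rcases Nat.eq_zero_or_pos (∑ v ∈ k, (G.degree v - 2)) with h4 | h4
  · rw [h4] at h3 ⊢
    obtain ⟨v, rfl⟩ := Finset.card_eq_one.1 h3
    rw [Finset.sum_singleton] at h4
    have h5 := hdeg v
    simpa using Wk_one G v (by omega)
  · have h5 : ∑ v ∈ k, (G.degree v - 2) = 1 := by omega
    have h6 : ∑ v ∈ k, nb G A v = 1 := by omega
    rw [h5] at h3 ⊢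
    -- each vertex of `k` has two neighbours in `k`
    have h7 : (∑ v ∈ k, (G.degree v - 2)) + 2 * k.card = ∑ v ∈ k, G.degree v := by
      rw [mul_comm, ← smul_eq_mul, ← Finset.sum_const, ← Finset.sum_add_distrib]
      exact Finset.sum_congr rfl (fun v _ => Nat.sub_add_cancel (hdeg v))
    have h8 : ∑ v ∈ k, G.degree v = (∑ v ∈ k, nb G k v) + ∑ v ∈ k, nb G A v := by
      rw [← Finset.sum_add_distrib]
      exact Finset.sum_congr rfl (fun v hv => deg_eq h hk hv)
    have h9 : ∀ v ∈ k, nb G k v ≤ 2 := by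
      intro v hv
      have := nb_self_le G hv
      omega
    have h10 : ∑ v ∈ k, nb G k v = ∑ v ∈ k, 2 := by
      rw [Finset.sum_const, smul_eq_mul]
      omega
    have h11 : ∀ v ∈ k, nb G k v = 2 := (Finset.sum_eq_sum_iff_of_le h9).1 h10
    obtain ⟨w, hw, hw2⟩ : ∃ w ∈ k, G.degree w - 2 ≠ 0 := by
      by_contra hcon
      push Not at hcon
      rw [Finset.sum_eq_zero hcon] at h5
      omega
    have h12 := Finset.single_le_sum (f := fun v => G.degree v - 2)
      (fun _ _ => Nat.zero_le _) hw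
    have h13 := Finset.add_sum_erase k (fun v => G.degree v - 2) hw
    have h14 : ∀ x ∈ k.erase w, G.degree x - 2 = 0 := by
      have : ∑ x ∈ k.erase w, (G.degree x - 2) = 0 := by omega
      exact Finset.sum_eq_zero_iff.1 this
    have h15 : (k.erase w).card = 2 := by
      rw [Finset.card_erase_of_mem hw]
      omega
    obtain ⟨u, v, huv, hk2⟩ := Finset.card_eq_two.1 h15
    have hku : u ∈ k := Finset.mem_of_mem_erase (by rw [hk2]; simp)
    have hkv : v ∈ k := Finset.mem_of_mem_erase (by rw [hk2]; simp)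
    have hk3 : k = {u, v, w} := by
      rw [← Finset.insert_erase hw, hk2]
      ext x
      simp only [Finset.mem_insert, Finset.mem_singleton]
      tauto
    have hmemk : ∀ x, x ∈ k ↔ x = u ∨ x = v ∨ x = w := by
      intro x
      rw [hk3]
      simp
    have hdu := h14 u (by rw [hk2]; simp)
    have hdv := h14 v (by rw [hk2]; simp)
    have hA0 : ∀ x ∈ k, G.degree x - 2 = 0 → ∀ y, G.Adj x y → y ∈ k := by
      intro x hx hx0 y hxy
      have e1 := deg_eq h hk hx
      have e2 := h11 x hx
      have e3 := hdeg x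
      have e4 : nb G A x = 0 := by omega
      rcases h.cl k hk x hx y hxy with h' | h'
      · exact h'
      · unfold nb at e4
        rw [Finset.card_eq_zero, Finset.filter_eq_empty_iff] at e4
        exact absurd hxy (e4 h')
    have hAw : nb G A w = 1 := by
      have e1 := deg_eq h hk hw
      have e2 := h11 w hw
      have e3 := hdeg w
      have e4 := Finset.single_le_sum (f := fun v => nb G A v)
        (fun _ _ => Nat.zero_le _) hw
      omega
    unfold nb at hAw
    obtain ⟨a, ha⟩ := Finset.card_eq_one.1 hAw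
    rw [hk3]
    have := Wk_three G u v w a (by
      intro x hx
      have := hA0 u hku hdu x hx
      rw [hmemk] at this
      rcases this with h' | h' | h'
      · exact absurd h' hx.ne.symm
      · exact Or.inl h'
      · exact Or.inr h') (by
      intro x hx
      have := hA0 v hkv hdv x hx
      rw [hmemk] at this
      rcases this with h' | h' | h'
      · exact Or.inl h'
      · exact absurd h' hx.ne.symm
      · exact Or.inr h') (by
      intro x hx
      rcases h.cl k hk w hw x hx with h' | h'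
      · rw [hmemk] at h'
        rcases h' with h' | h' | h'
        · exact Or.inl h'
        · exact Or.inr (Or.inl h')
        · exact absurd h' hx.ne.symm
      · have : x ∈ A.filter (fun y => G.Adj w y) := Finset.mem_filter.2 ⟨h', hx⟩
        rw [ha] at this
        exact Or.inr (Or.inr (Finset.mem_singleton.1 this)))
    simpa using this

/-- sets of edges covering the complement of `A` -/
noncomputable def WA (G : SimpleGraph V) (A : Finset V) : Finset (Finset (Sym2 V)) :=
  G.edgeFinset.powerset.filter (fun S => ∀ v, v ∉ A → ∃ e ∈ S, v ∈ e)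

theorem WA_le {G : SimpleGraph V} {A : Finset V} {K : Finset (Finset V)} (h : Fam G A K)
    (hcov : K.biUnion id = Aᶜ) (hA : ∀ a ∈ A, ∀ b ∈ A, ¬ G.Adj a b) :
    (WA G A).card ≤ ∏ k ∈ K, (Wk G k).card := by
  rw [← Finset.card_pi]
  refine Finset.card_le_card_of_injOn
    (fun S k _ => S.filter (fun e => ∃ v ∈ k, v ∈ e)) ?_ ?_
  · intro S hS
    obtain ⟨hS1, hS2⟩ := Finset.mem_filter.1 (Finset.mem_coe.1 hS)
    rw [Finset.mem_coe, Finset.mem_pi]
    intro k hk
    refine Finset.mem_filter.2 ⟨?_, ?_⟩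
    · rw [Finset.mem_powerset]
      exact Finset.filter_subset_filter _ (Finset.mem_powerset.1 hS1)
    · intro v hv
      have hvA : v ∉ A := Finset.disjoint_left.1 (h.dA k hk) hv
      obtain ⟨e, he, hve⟩ := hS2 v hvA
      exact ⟨e, Finset.mem_filter.2 ⟨he, v, hv, hve⟩, hve⟩
  · intro S hS S' hS' hSS
    obtain ⟨hS1, _⟩ := Finset.mem_filter.1 (Finset.mem_coe.1 hS)
    obtain ⟨hS1', _⟩ := Finset.mem_filter.1 (Finset.mem_coe.1 hS')
    have hlem : ∀ e ∈ G.edgeFinset, ∃ k ∈ K, ∃ v ∈ k, v ∈ e := by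
      intro e he
      induction e using Sym2.ind with
      | _ x y =>
        have hxy : G.Adj x y := by simpa using he
        by_cases hx : x ∈ A
        · have hy : y ∉ A := fun hy => hA x hx y hy hxy
          have : y ∈ K.biUnion id := by rw [hcov]; exact Finset.mem_compl.2 hy
          obtain ⟨k, hk, hyk⟩ := Finset.mem_biUnion.1 this
          exact ⟨k, hk, y, hyk, by simp⟩
        · have : x ∈ K.biUnion id := by rw [hcov]; exact Finset.mem_compl.2 hx
          obtain ⟨k, hk, hyk⟩ := Finset.mem_biUnion.1 this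
          exact ⟨k, hk, x, hyk, by simp⟩
    have hfun : ∀ k ∈ K, S.filter (fun e => ∃ v ∈ k, v ∈ e) =
        S'.filter (fun e => ∃ v ∈ k, v ∈ e) := by
      intro k hk
      exact congrFun (congrFun hSS k) hk
    ext e
    constructor
    · intro he
      obtain ⟨k, hk, hke⟩ := hlem e (Finset.mem_powerset.1 hS1 he)
      have : e ∈ S.filter (fun e => ∃ v ∈ k, v ∈ e) := Finset.mem_filter.2 ⟨he, hke⟩
      rw [hfun k hk] at this
      exact (Finset.mem_filter.1 this).1
    · intro he
      obtain ⟨k, hk, hke⟩ := hlem e (Finset.mem_powerset.1 hS1' he)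
      have : e ∈ S'.filter (fun e => ∃ v ∈ k, v ∈ e) := Finset.mem_filter.2 ⟨he, hke⟩
      rw [← hfun k hk] at this
      exact (Finset.mem_filter.1 this).1

theorem cov_lt_WA {G : SimpleGraph V} {A : Finset V} (hA : A.Nonempty)
    (hdeg : ∀ v, 2 ≤ G.degree v) : (cov G).card < (WA G A).card := by
  obtain ⟨a, ha⟩ := hA
  apply Finset.card_lt_card
  rw [Finset.ssubset_iff_of_subset]
  · refine ⟨G.edgeFinset.filter (fun e => a ∉ e), ?_, ?_⟩
    · refine Finset.mem_filter.2 ⟨Finset.mem_powerset.2 (Finset.filter_subset _ _), ?_⟩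
      intro v hv
      have hva : v ≠ a := fun h => hv (h ▸ ha)
      have h2 := hdeg v
      rw [← SimpleGraph.card_neighborFinset_eq_degree] at h2
      obtain ⟨x, hx, y, hy, hxy⟩ := Finset.one_lt_card.1 (show 1 < (G.neighborFinset v).card by omega)
      rw [SimpleGraph.mem_neighborFinset] at hx hy
      by_cases hxa : x = a
      · have hya : y ≠ a := fun h => hxy (hxa.trans h.symm)
        refine ⟨s(v, y), Finset.mem_filter.2 ⟨by simpa using hy, ?_⟩, by simp⟩
        simp only [Sym2.mem_iff, not_or]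
        exact ⟨hva.symm, hya.symm⟩
      · refine ⟨s(v, x), Finset.mem_filter.2 ⟨by simpa using hx, ?_⟩, by simp⟩
        simp only [Sym2.mem_iff, not_or]
        exact ⟨hva.symm, fun h => hxa h.symm⟩
    · intro hcon
      obtain ⟨_, h2⟩ := Finset.mem_filter.1 hcon
      obtain ⟨e, he, hae⟩ := h2 a
      exact (Finset.mem_filter.1 he).2 hae
  · intro S hS
    obtain ⟨h1, h2⟩ := Finset.mem_filter.1 hS
    exact Finset.mem_filter.2 ⟨h1, fun v _ => h2 v⟩

/-- In the equality case the number of edge covers is smaller than `3 ^ n₂`. -/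
theorem cov_lt {G : SimpleGraph V} (hc : G.Connected) {A : Finset V} (hA : A.Nonempty)
    {K : Finset (Finset V)} (h : Fam G A K) (hdeg : ∀ v, 2 ≤ G.degree v)
    (heq : A.card + G.edgeFinset.card ≤ K.card + Fintype.card V)
    (hlow : 2 * (Finset.univ.filter (fun v => G.degree v = 2)).card = G.edgeFinset.card) :
    (cov G).card < 3 ^ (Finset.univ.filter (fun v => G.degree v = 2)).card := by
  obtain ⟨s1, s2, s3, s4, s5⟩ := struct hc hA h hdeg heq hlow
  have hcov := fam_cover hc hA h hdeg heq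
  calc (cov G).card < (WA G A).card := cov_lt_WA hA hdeg
    _ ≤ ∏ k ∈ K, (Wk G k).card := WA_le h hcov s1
    _ ≤ ∏ k ∈ K, 3 ^ (1 + ∑ v ∈ k, (G.degree v - 2)) :=
        Finset.prod_le_prod' (fun k hk => Wk_le h hdeg hk (s2 k hk) (s3 k hk) (s4 k hk))
    _ = 3 ^ (Finset.univ.filter (fun v => G.degree v = 2)).card := by
        rw [Finset.prod_pow_eq_pow_sum, s5]

end Pool.Agent.Q19.EdgeCov
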