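import Pool.Agent.Q19.EdgeCovA
import Pool.Agent.Q19.EdgeCovC

open Classical

namespace Pool.Agent.Q19.EdgeCov

open SimpleGraph

variable {V : Type*} [Fintype V]

theorem house (G : SimpleGraph V) (a b u v w : V)
    (hall : ∀ x, x = a ∨ x = b ∨ x = u ∨ x = v ∨ x = w)
    (ha : ∀ x, G.Adj a x → x = b ∨ x = w ∨ x = u)
    (hb : ∀ x, G.Adj b x → x = a ∨ x = w ∨ x = v)
    (hw : ∀ x, G.Adj w x → x = a ∨ x = b)
    (hu : ∀ x, G.Adj u x → x = a ∨ x = v)
    (hv : ∀ x, G.Adj v x → x = b ∨ x = u) : (cov G).card ≤ 26 := by
  have ea : ∀ e ∈ G.edgeFinset, a ∈ e → e = s(a, b) ∨ e = s(a, w) ∨ e = s(a, u) := by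
    intro e he hve
    obtain ⟨x, hx, rfl⟩ := mem_edge_cases G he hve
    rcases ha x hx with rfl | rfl | rfl
    · exact Or.inl rfl
    · exact Or.inr (Or.inl rfl)
    · exact Or.inr (Or.inr rfl)
  have eb : ∀ e ∈ G.edgeFinset, b ∈ e → e = s(a, b) ∨ e = s(b, w) ∨ e = s(b, v) := by
    intro e he hve
    obtain ⟨x, hx, rfl⟩ := mem_edge_cases G he hve
    rcases hb x hx with rfl | rfl | rfl
    · exact Or.inl Sym2.eq_swap
    · exact Or.inr (Or.inl rfl)
    · exact Or.inr (Or.inr rfl)
  have ew : ∀ e ∈ G.edgeFinset, w ∈ e → e = s(a, w) ∨ e = s(b, w) := by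
    intro e he hve
    obtain ⟨x, hx, rfl⟩ := mem_edge_cases G he hve
    rcases hw x hx with rfl | rfl
    · exact Or.inl Sym2.eq_swap
    · exact Or.inr Sym2.eq_swap
  have eu : ∀ e ∈ G.edgeFinset, u ∈ e → e = s(a, u) ∨ e = s(u, v) := by
    intro e he hve
    obtain ⟨x, hx, rfl⟩ := mem_edge_cases G he hve
    rcases hu x hx with rfl | rfl
    · exact Or.inl Sym2.eq_swap
    · exact Or.inr rfl
  have ev : ∀ e ∈ G.edgeFinset, v ∈ e → e = s(b, v) ∨ e = s(u, v) := by
    intro e he hve
    obtain ⟨x, hx, rfl⟩ := mem_edge_cases G he hve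
    rcases hv x hx with rfl | rfl
    · exact Or.inl Sym2.eq_swap
    · exact Or.inr Sym2.eq_swap
  have := card_le_of_enum ![s(a, b), s(a, w), s(b, w), s(a, u), s(b, v), s(u, v)]
    G.edgeFinset (by
      intro e he
      obtain ⟨x, hx⟩ : ∃ x, x ∈ e := by
        induction e using Sym2.ind with
        | _ x y => exact ⟨x, by simp⟩
      rcases hall x with rfl | rfl | rfl | rfl | rfl
      · rcases ea e he hx with h | h | h
        · exact ⟨0, h.symm⟩
        · exact ⟨1, h.symm⟩
        · exact ⟨3, h.symm⟩
      · rcases eb e he hx with h | h | h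
        · exact ⟨0, h.symm⟩
        · exact ⟨2, h.symm⟩
        · exact ⟨4, h.symm⟩
      · rcases eu e he hx with h | h
        · exact ⟨3, h.symm⟩
        · exact ⟨5, h.symm⟩
      · rcases ev e he hx with h | h
        · exact ⟨4, h.symm⟩
        · exact ⟨5, h.symm⟩
      · rcases ew e he hx with h | h
        · exact ⟨1, h.symm⟩
        · exact ⟨2, h.symm⟩) (cov G) (fun T hT => by
        exact Finset.mem_powerset.1 (Finset.mem_filter.1 hT).1)
    (fun s => (0 ∈ s ∨ 1 ∈ s ∨ 3 ∈ s) ∧ (0 ∈ s ∨ 2 ∈ s ∨ 4 ∈ s) ∧ (1 ∈ s ∨ 2 ∈ s) ∧
      (3 ∈ s ∨ 5 ∈ s) ∧ (4 ∈ s ∨ 5 ∈ s)) (by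
      intro T hT
      obtain ⟨hT1, hT2⟩ := Finset.mem_filter.1 hT
      have hsub := Finset.mem_powerset.1 hT1
      refine ⟨?_, ?_, ?_, ?_, ?_⟩
      · obtain ⟨e, he, hve⟩ := hT2 a
        rcases ea e (hsub he) hve with h | h | h
        · left; rw [h] at he; simpa using he
        · right; left; rw [h] at he; simpa using he
        · right; right; rw [h] at he; simpa using he
      · obtain ⟨e, he, hve⟩ := hT2 b
        rcases eb e (hsub he) hve with h | h | h
        · left; rw [h] at he; simpa using he
        · right; left; rw [h] at he; simpa using he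
        · right; right; rw [h] at he; simpa using he
      · obtain ⟨e, he, hve⟩ := hT2 w
        rcases ew e (hsub he) hve with h | h
        · left; rw [h] at he; simpa using he
        · right; rw [h] at he; simpa using he
      · obtain ⟨e, he, hve⟩ := hT2 u
        rcases eu e (hsub he) hve with h | h
        · left; rw [h] at he; simpa using he
        · right; rw [h] at he; simpa using he
      · obtain ⟨e, he, hve⟩ := hT2 v
        rcases ev e (hsub he) hve with h | h
        · left; rw [h] at he; simpa using he
        · right; rw [h] at he; simpa using he)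
  refine this.trans ?_
  have h3 : (Finset.univ.filter (fun s : Finset (Fin 6) =>
    (0 ∈ s ∨ 1 ∈ s ∨ 3 ∈ s) ∧ (0 ∈ s ∨ 2 ∈ s ∨ 4 ∈ s) ∧ (1 ∈ s ∨ 2 ∈ s) ∧
      (3 ∈ s ∨ 5 ∈ s) ∧ (4 ∈ s ∨ 5 ∈ s))).card = 26 := by decide +kernel
  convert h3.le

/-- If the vertices of degree two form an independent set, the number of covers is small. -/
theorem indep_low {G : SimpleGraph V} (hc : G.Connected) (hdeg : ∀ v, 2 ≤ G.degree v)
    (hhigh : ∃ v, G.degree v ≠ 2)
    (hlow : 2 * (Finset.univ.filter (fun v => G.degree v = 2)).card = G.edgeFinset.card)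
    (hind : ∀ u v, G.degree u = 2 → G.degree v = 2 → ¬ G.Adj u v) :
    (cov G).card < 3 ^ (Finset.univ.filter (fun v => G.degree v = 2)).card := by
  let A : Finset V := Finset.univ.filter (fun v => ¬ G.degree v = 2)
  let K : Finset (Finset V) :=
    (Finset.univ.filter (fun v => G.degree v = 2)).image (fun v => ({v} : Finset V))
  have hKc : K.card = (Finset.univ.filter (fun v => G.degree v = 2)).card :=
    Finset.card_image_of_injective _ Finset.singleton_injective
  have hsum := Finset.card_filter_add_card_filter_not (s := (Finset.univ : Finset V))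
    (fun v => G.degree v = 2)
  rw [Finset.card_univ] at hsum
  have hF : Fam G A K := by
    refine ⟨?_, ?_, ?_, ?_⟩
    · intro k hk
      obtain ⟨v, _, rfl⟩ := Finset.mem_image.1 hk
      simp
    · intro k hk
      obtain ⟨v, hv, rfl⟩ := Finset.mem_image.1 hk
      have := (Finset.mem_filter.1 hv).2
      simp [A, this]
    · intro k hk x hx y hxy
      obtain ⟨v, hv, rfl⟩ := Finset.mem_image.1 hk
      have h1 := (Finset.mem_filter.1 hv).2
      rw [Finset.mem_singleton] at hx
      rw [hx] at hxy
      right
      refine Finset.mem_filter.2 ⟨Finset.mem_univ _, fun h2 => hind v y h1 h2 hxy⟩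
    · intro k hk l hl hne
      obtain ⟨v, _, rfl⟩ := Finset.mem_image.1 hk
      obtain ⟨w, _, rfl⟩ := Finset.mem_image.1 hl
      rw [Finset.disjoint_singleton]
      intro h
      exact hne (by rw [h])
  have hA : A.Nonempty := by
    obtain ⟨v, hv⟩ := hhigh
    exact ⟨v, by simpa [A] using hv⟩
  refine cov_lt hc hA hF hdeg ?_ hlow
  have : A.card = (Finset.univ.filter (fun v => ¬ G.degree v = 2)).card := rfl
  omega

theorem two_nbrs {G : SimpleGraph V} {v x y : V} (h : G.degree v = 2) (hx : G.Adj v x)
    (hy : G.Adj v y) (hxy : x ≠ y) : ∀ z, G.Adj v z → z = x ∨ z = y := by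
  intro z hz
  rw [← SimpleGraph.card_neighborFinset_eq_degree] at h
  by_contra hcon
  push Not at hcon
  have : ({x, y, z} : Finset V) ⊆ G.neighborFinset v := by
    intro t ht
    simp only [Finset.mem_insert, Finset.mem_singleton] at ht
    rw [SimpleGraph.mem_neighborFinset]
    rcases ht with rfl | rfl | rfl
    · exact hx
    · exact hy
    · exact hz
  have h2 := Finset.card_le_card this
  have h3 : ({x, y, z} : Finset V).card = 3 := by
    rw [Finset.card_eq_three]
    exact ⟨x, y, z, hxy, hcon.1.symm, hcon.2.symm, rfl⟩
  omega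

/-- The case of five vertices. -/
theorem small {G : SimpleGraph V} (hc : G.Connected) (hdeg : ∀ v, 2 ≤ G.degree v)
    (hn : Fintype.card V = 5)
    (hl : (Finset.univ.filter (fun v => G.degree v = 2)).card = 3)
    (hm : G.edgeFinset.card = 6) : (cov G).card < 27 := by
  set L : Finset V := Finset.univ.filter (fun v => G.degree v = 2) with hL
  set H : Finset V := Finset.univ.filter (fun v => ¬ G.degree v = 2) with hH
  have hsum : L.card + H.card = 5 := by
    rw [← hn, ← Finset.card_univ, hL, hH]
    exact Finset.card_filter_add_card_filter_not _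
  have hHc : H.card = 2 := by omega
  obtain ⟨a, b, hab, hHab⟩ := Finset.card_eq_two.1 hHc
  have hmemL : ∀ x, x ∈ L ↔ G.degree x = 2 := by intro x; simp [hL]
  have hmemH : ∀ x, x ∈ H ↔ ¬ G.degree x = 2 := by intro x; simp [hH]
  have hLH : ∀ x, x ∈ L ∨ x = a ∨ x = b := by
    intro x
    by_cases hx : G.degree x = 2
    · exact Or.inl ((hmemL x).2 hx)
    · right
      have := (hmemH x).2 hx
      rw [hHab] at this
      simpa using this
  have haH : ¬ G.degree a = 2 := (hmemH a).1 (by rw [hHab]; simp)
  have hbH : ¬ G.degree b = 2 := (hmemH b).1 (by rw [hHab]; simp)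
  have hdegs : ∑ v, G.degree v = 12 := by
    rw [SimpleGraph.sum_degrees_eq_twice_card_edges, hm]
  have hsplit : (∑ v ∈ L, G.degree v) + (∑ v ∈ H, G.degree v) = 12 := by
    rw [← hdegs, hL, hH]
    exact Finset.sum_filter_add_sum_filter_not _ _ _
  have hLs : ∑ v ∈ L, G.degree v = 6 := by
    rw [Finset.sum_congr rfl (fun v hv => (hmemL v).1 hv), Finset.sum_const, hl]
    rfl
  have hHs : G.degree a + G.degree b = 6 := by
    rw [hHab, Finset.sum_pair hab] at hsplit
    omega
  have hda : G.degree a = 3 := by
    have := hdeg a
    have := hdeg b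
    omega
  have hdb : G.degree b = 3 := by omega
  by_cases hadj : G.Adj a b
  · -- the house
    let P : Finset V := (G.neighborFinset a).erase b
    let Q : Finset V := (G.neighborFinset b).erase a
    have hPm : ∀ x, x ∈ P ↔ x ≠ b ∧ G.Adj a x := by intro x; simp [P]
    have hQm : ∀ x, x ∈ Q ↔ x ≠ a ∧ G.Adj b x := by intro x; simp [Q]
    have hPc : P.card = 2 := by
      rw [Finset.card_erase_of_mem (by simpa using hadj), SimpleGraph.card_neighborFinset_eq_degree,
        hda]
    have hQc : Q.card = 2 := by
      rw [Finset.card_erase_of_mem (by simpa using hadj.symm),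
        SimpleGraph.card_neighborFinset_eq_degree, hdb]
    have hPL : P ⊆ L := by
      intro x hx
      obtain ⟨h1, h2⟩ := (hPm x).1 hx
      rcases hLH x with h | h | h
      · exact h
      · exact absurd h h2.ne.symm
      · exact absurd h h1
    have hQL : Q ⊆ L := by
      intro x hx
      obtain ⟨h1, h2⟩ := (hQm x).1 hx
      rcases hLH x with h | h | h
      · exact h
      · exact absurd h h1
      · exact absurd h h2.ne.symm
    have hPQ : (P ∩ Q).Nonempty := by
      rw [← Finset.card_pos]
      have h1 := Finset.card_union_add_card_inter P Q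
      have h2 := Finset.card_le_card (Finset.union_subset hPL hQL)
      omega
    obtain ⟨w, hw⟩ := hPQ
    obtain ⟨hwP, hwQ⟩ := Finset.mem_inter.1 hw
    obtain ⟨u, hu⟩ := Finset.card_eq_one.1 (show (P.erase w).card = 1 by
      rw [Finset.card_erase_of_mem hwP, hPc])
    obtain ⟨v, hv⟩ := Finset.card_eq_one.1 (show (Q.erase w).card = 1 by
      rw [Finset.card_erase_of_mem hwQ, hQc])
    have huP : u ∈ P.erase w := by rw [hu]; simp
    have hvQ : v ∈ Q.erase w := by rw [hv]; simp
    obtain ⟨huw, huP⟩ := Finset.mem_erase.1 huP
    obtain ⟨hvw, hvQ⟩ := Finset.mem_erase.1 hvQ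
    have hPx : ∀ x ∈ P, x = w ∨ x = u := by
      intro x hx
      by_cases hxw : x = w
      · exact Or.inl hxw
      · right
        have : x ∈ P.erase w := Finset.mem_erase.2 ⟨hxw, hx⟩
        rw [hu] at this
        simpa using this
    have hQx : ∀ x ∈ Q, x = w ∨ x = v := by
      intro x hx
      by_cases hxw : x = w
      · exact Or.inl hxw
      · right
        have : x ∈ Q.erase w := Finset.mem_erase.2 ⟨hxw, hx⟩
        rw [hv] at this
        simpa using this
    have hNa : ∀ x, G.Adj a x → x = b ∨ x = w ∨ x = u := by
      intro x hx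
      by_cases hxb : x = b
      · exact Or.inl hxb
      · exact Or.inr (hPx x ((hPm x).2 ⟨hxb, hx⟩))
    have hNb : ∀ x, G.Adj b x → x = a ∨ x = w ∨ x = v := by
      intro x hx
      by_cases hxb : x = a
      · exact Or.inl hxb
      · exact Or.inr (hQx x ((hQm x).2 ⟨hxb, hx⟩))
    have hdw := (hmemL w).1 (hPL hwP)
    have hdu := (hmemL u).1 (hPL huP)
    have hdv := (hmemL v).1 (hQL hvQ)
    have hwa := ((hPm w).1 hwP).2.symm
    have hwb := ((hQm w).1 hwQ).2.symm
    have hua := ((hPm u).1 huP).2.symm
    have hvb := ((hQm v).1 hvQ).2.symm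
    have hNw := two_nbrs hdw hwa hwb hab
    have huv : u ≠ v := by
      intro huv
      rw [← huv] at hvb
      have hNu := two_nbrs hdu hua hvb hab
      -- the third low vertex
      obtain ⟨z, hzL, hz⟩ : ∃ z ∈ L, z ∉ ({u, w} : Finset V) := by
        by_contra hcon
        push Not at hcon
        have h1 : L ⊆ {u, w} := hcon
        have h2 := Finset.card_le_card h1
        rw [Finset.card_pair huw] at h2
        omega
      simp only [Finset.mem_insert, Finset.mem_singleton, not_or] at hz
      have hz2 := (hmemL z).1 hzL
      rw [← SimpleGraph.card_neighborFinset_eq_degree] at hz2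
      have hza : z ≠ a := fun h => haH (h ▸ (hmemL z).1 hzL)
      have hzb : z ≠ b := fun h => hbH (h ▸ (hmemL z).1 hzL)
      have hsub2 : ∀ y, G.Adj z y → False := by
        intro y hy
        rcases hLH y with h | h | h
        · by_cases hyu : y = u
          · rw [hyu] at hy
            rcases hNu z hy.symm with h' | h'
            · exact hza h'
            · exact hzb h'
          · by_cases hyw : y = w
            · rw [hyw] at hy
              rcases hNw z hy.symm with h' | h'
              · exact hza h'
              · exact hzb h'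
            · have h4 : ({u, w, z, y} : Finset V) ⊆ L := by
                intro t ht
                simp only [Finset.mem_insert, Finset.mem_singleton] at ht
                rcases ht with rfl | rfl | rfl | rfl
                · exact hPL huP
                · exact hPL hwP
                · exact hzL
                · exact h
              have h5 := Finset.card_le_card h4
              rw [Finset.card_insert_of_notMem, Finset.card_insert_of_notMem,
                Finset.card_pair hy.ne] at h5
              · omega
              · simp only [Finset.mem_insert, Finset.mem_singleton, not_or]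
                exact ⟨fun h => hz.2 h.symm, fun h => hyw h.symm⟩
              · simp only [Finset.mem_insert, Finset.mem_singleton, not_or]
                exact ⟨huw, fun h => hz.1 h.symm, fun h => hyu h.symm⟩
        · rw [h] at hy
          rcases hNa z hy.symm with h' | h' | h'
          · exact hzb h'
          · exact hz.2 h'
          · exact hz.1 h'
        · rw [h] at hy
          rcases hNb z hy.symm with h' | h' | h'
          · exact hza h'
          · exact hz.2 h'
          · exact hz.1 (h'.trans huv.symm)
      have : G.neighborFinset z = ∅ := by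
        rw [Finset.eq_empty_iff_forall_notMem]
        intro y hy
        rw [SimpleGraph.mem_neighborFinset] at hy
        exact hsub2 y hy
      rw [this] at hz2
      simp at hz2
    have hL3 : L = {u, v, w} := by
      symm
      apply Finset.eq_of_subset_of_card_le
      · intro t ht
        simp only [Finset.mem_insert, Finset.mem_singleton] at ht
        rcases ht with rfl | rfl | rfl
        · exact hPL huP
        · exact hQL hvQ
        · exact hPL hwP
      · rw [hl, Finset.card_insert_of_notMem, Finset.card_pair hvw]
        simp only [Finset.mem_insert, Finset.mem_singleton, not_or]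
        exact ⟨huv, huw⟩
    have hall : ∀ x, x = a ∨ x = b ∨ x = u ∨ x = v ∨ x = w := by
      intro x
      rcases hLH x with h | h | h
      · rw [hL3] at h
        simp only [Finset.mem_insert, Finset.mem_singleton] at h
        tauto
      · exact Or.inl h
      · exact Or.inr (Or.inl h)
    have hune : u ≠ a := hua.ne
    have hunb : u ≠ b := fun h => hbH (h ▸ hdu)
    have hvna : v ≠ a := fun h => haH (h ▸ hdv)
    have hvnb : v ≠ b := hvb.ne
    have hub : ¬ G.Adj u b := by
      intro h
      rcases hNb u h.symm with h' | h' | h'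
      · exact hune h'
      · exact huw h'
      · exact huv h'
    have hva : ¬ G.Adj v a := by
      intro h
      rcases hNa v h.symm with h' | h' | h'
      · exact hvnb h'
      · exact hvw h'
      · exact huv h'.symm
    have huw' : ¬ G.Adj u w := by
      intro h
      rcases hNw u h.symm with h' | h'
      · exact hune h'
      · exact hunb h'
    have hvw' : ¬ G.Adj v w := by
      intro h
      rcases hNw v h.symm with h' | h'
      · exact hvna h'
      · exact hvnb h'
    refine lt_of_le_of_lt (house G a b u v w hall hNa hNb hNw ?_ ?_) (by norm_num)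
    · intro x hx
      rcases hall x with h | h | h | h | h
      · exact Or.inl h
      · exact absurd (h ▸ hx) hub
      · exact absurd h hx.ne.symm
      · exact Or.inr h
      · exact absurd (h ▸ hx) huw'
    · intro x hx
      rcases hall x with h | h | h | h | h
      · exact absurd (h ▸ hx) hva
      · exact Or.inl h
      · exact Or.inr h
      · exact absurd h hx.ne.symm
      · exact absurd (h ▸ hx) hvw'
  · -- independent low vertices
    have hNL : ∀ x, x ∈ L → G.Adj a x ∧ G.Adj b x := by
      have h1 : G.neighborFinset a ⊆ L := by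
        intro x hx
        rw [SimpleGraph.mem_neighborFinset] at hx
        rcases hLH x with h | h | h
        · exact h
        · exact absurd h hx.ne.symm
        · exact absurd (h ▸ hx) hadj
      have h2 : G.neighborFinset b ⊆ L := by
        intro x hx
        rw [SimpleGraph.mem_neighborFinset] at hx
        rcases hLH x with h | h | h
        · exact h
        · exact absurd (h ▸ hx).symm hadj
        · exact absurd h hx.ne.symm
      have h3 := Finset.eq_of_subset_of_card_le h1 (by
        rw [SimpleGraph.card_neighborFinset_eq_degree, hda, hl])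
      have h4 := Finset.eq_of_subset_of_card_le h2 (by
        rw [SimpleGraph.card_neighborFinset_eq_degree, hdb, hl])
      intro x hx
      constructor
      · rw [← h3] at hx
        simpa using hx
      · rw [← h4] at hx
        simpa using hx
    have := indep_low hc hdeg ⟨a, haH⟩ (by rw [← hL, hl, hm]) (by
      intro x y hx hy hxy
      obtain ⟨h1, h2⟩ := hNL x ((hmemL x).2 hx)
      rcases two_nbrs hx h1.symm h2.symm hab y hxy with h | h
      · exact haH (h ▸ hy)
      · exact hbH (h ▸ hy))
    rw [← hL, hl] at this
    simpa using this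

end Pool.Agent.Q19.EdgeCov
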