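import Pool.Agent.Q19.EdgeCovD

open Classical

namespace Pool.Agent.Q19.EdgeCov

open SimpleGraph

variable {V : Type*} [Fintype V]

theorem closed_univ {G : SimpleGraph V} (hc : G.Connected) {k : Finset V} (hk : k.Nonempty)
    (hcl : ∀ v ∈ k, ∀ w, G.Adj v w → w ∈ k) (x : V) : x ∈ k := by
  obtain ⟨v, hv⟩ := hk
  by_contra hx
  obtain ⟨p⟩ := hc.preconnected v x
  obtain ⟨d, _, h1, h2⟩ := p.exists_boundary_dart (k : Set V) hv hx
  exact h2 (hcl d.fst h1 d.snd d.adj)

theorem main_family {G : SimpleGraph V} (hc : G.Connected) (hdeg : ∀ v, 2 ≤ G.degree v)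
    (r : ℕ) (hr : ∀ S ∈ cov G, r < S.card) (d : ℕ) (hd : Fintype.card V + d = 2 * r) :
    ∃ (A : Finset V) (K : Finset (Finset V)), A.Nonempty ∧ Fam G A K ∧
      A.card + d + 2 ≤ K.card := by
  obtain ⟨A, K, h1, h2, h3⟩ := berge G (fun v => by
      have := hdeg v
      rw [← SimpleGraph.card_neighborFinset_eq_degree] at this
      obtain ⟨w, hw⟩ := Finset.card_pos.1 (show 0 < (G.neighborFinset v).card by omega)
      exact ⟨w, by simpa using hw⟩) r (fun S hS1 hS2 => hr S (Finset.mem_filter.2
        ⟨Finset.mem_powerset.2 (fun e he => by simpa using hS1 e he), hS2⟩)) d hd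
  have hF : Fam G A K := ⟨fun k hk => (h1 k hk).1, fun k hk => (h1 k hk).2.1,
    fun k hk => (h1 k hk).2.2, h2⟩
  refine ⟨A, K, ?_, hF, h3⟩
  by_contra hA
  rw [Finset.not_nonempty_iff_eq_empty] at hA
  obtain ⟨k, hk, l, hl, hkl⟩ := Finset.one_lt_card.1 (show 1 < K.card by omega)
  have hcl : ∀ k ∈ K, ∀ x, x ∈ k := by
    intro k hk
    refine closed_univ hc (hF.ne k hk) ?_
    intro v hv w hvw
    rcases hF.cl k hk v hv w hvw with h | h
    · exact h
    · rw [hA] at h
      exact absurd h (Finset.notMem_empty _)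
  obtain ⟨x, hx⟩ := hF.ne k hk
  exact Finset.disjoint_left.1 (hF.dd k hk l hl hkl) hx (hcl l hl x)

theorem card_ge_three {G : SimpleGraph V} (hdeg : ∀ v, 2 ≤ G.degree v) [Nonempty V] :
    3 ≤ Fintype.card V := by
  obtain ⟨v⟩ := ‹Nonempty V›
  have h1 := hdeg v
  have h2 := G.degree_lt_card_verts v
  omega

theorem case2 {G : SimpleGraph V} (hc : G.Connected) (hdeg : ∀ v, 2 ≤ G.degree v)
    (hlow : 2 * (Finset.univ.filter (fun v => G.degree v = 2)).card = G.edgeFinset.card)
    (hr : ∀ S ∈ cov G, (Finset.univ.filter (fun v => G.degree v = 2)).card ≤ S.card) :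
    (cov G).card < 3 ^ (Finset.univ.filter (fun v => G.degree v = 2)).card := by
  have hne := hc.nonempty
  have hn3 := card_ge_three hdeg
  set k := (Finset.univ.filter (fun v => G.degree v = 2)).card with hk
  set h := (Finset.univ.filter (fun v => ¬ G.degree v = 2)).card with hh
  have hkh : k + h = Fintype.card V := by
    rw [hk, hh, ← Finset.card_univ]
    exact Finset.card_filter_add_card_filter_not _
  have hdegs : ∑ v, G.degree v = 4 * k := by
    rw [SimpleGraph.sum_degrees_eq_twice_card_edges, ← hlow]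
    ring
  have hsplit : (∑ v ∈ Finset.univ.filter (fun v => G.degree v = 2), G.degree v) +
      (∑ v ∈ Finset.univ.filter (fun v => ¬ G.degree v = 2), G.degree v) = 4 * k := by
    rw [← hdegs]
    exact Finset.sum_filter_add_sum_filter_not _ _ _
  have hL : (∑ v ∈ Finset.univ.filter (fun v => G.degree v = 2), G.degree v) = 2 * k := by
    rw [Finset.sum_congr rfl (fun v hv => (Finset.mem_filter.1 hv).2), Finset.sum_const, ← hk]
    rw [smul_eq_mul, mul_comm]
  have hH : 3 * h ≤ (∑ v ∈ Finset.univ.filter (fun v => ¬ G.degree v = 2), G.degree v) := by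
    rw [mul_comm, ← smul_eq_mul, hh, ← Finset.sum_const]
    refine Finset.sum_le_sum (fun v hv => ?_)
    have h1 := (Finset.mem_filter.1 hv).2
    have h2 := hdeg v
    omega
  by_cases hbig : h + 2 ≤ k
  · obtain ⟨A, K, hA, hF, hK⟩ := main_family hc hdeg (k - 1) (fun S hS => by
      have := hr S hS
      omega) (k - h - 2) (by omega)
    exact cov_lt hc hA hF hdeg (by omega) hlow
  · have hcase : h = 0 ∨ h = 1 ∨ h = 2 := by omega
    rcases hcase with h0 | h1 | h2
    · omega
    · exfalso
      have hn : Fintype.card V = 3 := by omega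
      have : 0 < (Finset.univ.filter (fun v => ¬ G.degree v = 2)).card := by omega
      obtain ⟨v, hv⟩ := Finset.card_pos.1 this
      have e1 := (Finset.mem_filter.1 hv).2
      have e2 := hdeg v
      have e3 := G.degree_lt_card_verts v
      omega
    · have hk3 : k = 3 := by omega
      have := small hc hdeg (by omega) (by omega) (by omega)
      rw [hk3]
      norm_num
      exact this

theorem case3 {G : SimpleGraph V} (hc : G.Connected) (hdeg : ∀ v, 2 ≤ G.degree v)
    (hnm : Fintype.card V = G.edgeFinset.card) (c : ℕ) (hm : G.edgeFinset.card = 3 * c)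
    (hr : ∀ S ∈ cov G, 2 * c ≤ S.card) : Fintype.card V = 3 := by
  have hne := hc.nonempty
  have hn3 := card_ge_three hdeg
  by_contra hcon
  obtain ⟨A, K, hA, hF, hK⟩ := main_family hc hdeg (2 * c - 1) (fun S hS => by
      have := hr S hS
      omega) (c - 2) (by omega)
  have := fam_le hc hA hF hdeg
  omega

/-- the complement form of the cover condition -/
theorem cov_compl {G : SimpleGraph V} {T : Finset (Sym2 V)} (hT : T ⊆ G.edgeFinset) :
    G.edgeFinset \ T ∈ cov G ↔ ∀ v, ¬ G.incidenceFinset v ⊆ T := by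
  unfold cov
  rw [Finset.mem_filter, Finset.mem_powerset]
  constructor
  · rintro ⟨_, h⟩ v hv
    obtain ⟨e, he, hve⟩ := h v
    obtain ⟨h1, h2⟩ := Finset.mem_sdiff.1 he
    apply h2
    apply hv
    rw [SimpleGraph.mem_incidenceFinset]
    exact ⟨by simpa using h1, hve⟩
  · intro h
    refine ⟨Finset.sdiff_subset, fun v => ?_⟩
    obtain ⟨e, he, heT⟩ := Finset.not_subset.1 (h v)
    rw [SimpleGraph.mem_incidenceFinset] at he
    exact ⟨e, Finset.mem_sdiff.2 ⟨by simpa using he.1, heT⟩, he.2⟩

/-- number of covers of size `i` -/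
noncomputable def num (G : SimpleGraph V) (i : ℕ) : ℕ :=
  ((cov G).filter (fun S => S.card = i)).card

theorem num_compl (G : SimpleGraph V) (j : ℕ) (hj : j ≤ G.edgeFinset.card) :
    num G (G.edgeFinset.card - j) = ((G.edgeFinset.powersetCard j).filter
      (fun T => ∀ v, ¬ G.incidenceFinset v ⊆ T)).card := by
  unfold num
  refine Finset.card_bij' (fun S _ => G.edgeFinset \ S) (fun T _ => G.edgeFinset \ T) ?_ ?_ ?_ ?_
  · intro S hS
    obtain ⟨h1, h2⟩ := Finset.mem_filter.1 hS
    have hsub : S ⊆ G.edgeFinset := Finset.mem_powerset.1 (Finset.mem_filter.1 h1).1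
    rw [Finset.mem_filter, Finset.mem_powersetCard]
    refine ⟨⟨Finset.sdiff_subset, ?_⟩, ?_⟩
    · rw [Finset.card_sdiff_of_subset hsub]
      omega
    · rw [← cov_compl Finset.sdiff_subset]
      rw [Finset.sdiff_sdiff_eq_self hsub]
      exact h1
  · intro T hT
    obtain ⟨h1, h2⟩ := Finset.mem_filter.1 hT
    obtain ⟨h3, h4⟩ := Finset.mem_powersetCard.1 h1
    rw [Finset.mem_filter]
    refine ⟨(cov_compl h3).2 h2, ?_⟩
    rw [Finset.card_sdiff_of_subset h3]
    omega
  · intro S hS
    obtain ⟨h1, h2⟩ := Finset.mem_filter.1 hS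
    have hsub : S ⊆ G.edgeFinset := Finset.mem_powerset.1 (Finset.mem_filter.1 h1).1
    exact Finset.sdiff_sdiff_eq_self hsub
  · intro T hT
    obtain ⟨h1, h2⟩ := Finset.mem_filter.1 hT
    obtain ⟨h3, h4⟩ := Finset.mem_powersetCard.1 h1
    exact Finset.sdiff_sdiff_eq_self h3

theorem num_zero {G : SimpleGraph V} (hdeg : ∀ v, 2 ≤ G.degree v) :
    num G G.edgeFinset.card = 1 := by
  have := num_compl G 0 (Nat.zero_le _)
  rw [Nat.sub_zero] at this
  rw [this, Finset.powersetCard_zero, Finset.filter_true_of_mem, Finset.card_singleton]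
  intro T hT v hv
  rw [Finset.mem_singleton.1 hT] at hv
  have h1 := Finset.card_le_card hv
  rw [SimpleGraph.card_incidenceFinset_eq_degree, Finset.card_empty] at h1
  have := hdeg v
  omega

theorem num_one {G : SimpleGraph V} (hdeg : ∀ v, 2 ≤ G.degree v) (hm : 1 ≤ G.edgeFinset.card) :
    num G (G.edgeFinset.card - 1) = G.edgeFinset.card := by
  rw [num_compl G 1 hm, Finset.filter_true_of_mem, Finset.card_powersetCard, Nat.choose_one_right]
  intro T hT v hv
  have h1 := Finset.card_le_card hv
  rw [SimpleGraph.card_incidenceFinset_eq_degree, (Finset.mem_powersetCard.1 hT).2] at h1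
  have := hdeg v
  omega

theorem num_two {G : SimpleGraph V} (hdeg : ∀ v, 2 ≤ G.degree v) (hm : 2 ≤ G.edgeFinset.card) :
    num G (G.edgeFinset.card - 2) + (Finset.univ.filter (fun v => G.degree v = 2)).card =
      G.edgeFinset.card.choose 2 := by
  rw [num_compl G 2 hm, ← Finset.card_powersetCard, ← Finset.card_filter_add_card_filter_not
    (s := G.edgeFinset.powersetCard 2) (fun T => ∀ v, ¬ G.incidenceFinset v ⊆ T)]
  congr 1
  symm
  have : (G.edgeFinset.powersetCard 2).filter (fun T => ¬ ∀ v, ¬ G.incidenceFinset v ⊆ T) =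
      (Finset.univ.filter (fun v => G.degree v = 2)).image (fun v => G.incidenceFinset v) := by
    ext T
    rw [Finset.mem_filter, Finset.mem_powersetCard, Finset.mem_image]
    constructor
    · rintro ⟨⟨h1, h2⟩, h3⟩
      push Not at h3
      obtain ⟨v, hv⟩ := h3
      have h4 := Finset.card_le_card hv
      rw [SimpleGraph.card_incidenceFinset_eq_degree, h2] at h4
      have h5 := hdeg v
      refine ⟨v, by simp; omega, ?_⟩
      apply Finset.eq_of_subset_of_card_le hv
      rw [SimpleGraph.card_incidenceFinset_eq_degree, h2]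
      exact h5
    · rintro ⟨v, hv, rfl⟩
      refine ⟨⟨?_, ?_⟩, ?_⟩
      · intro e he
        rw [SimpleGraph.mem_incidenceFinset] at he
        simpa using he.1
      · rw [SimpleGraph.card_incidenceFinset_eq_degree]
        simpa using hv
      · push Not
        exact ⟨v, Finset.Subset.refl _⟩
  rw [this, Finset.card_image_of_injOn]
  intro u hu v hv huv
  have hu2 : G.degree u = 2 := by simpa using hu
  by_contra hne
  rw [← SimpleGraph.card_incidenceFinset_eq_degree] at hu2
  obtain ⟨e, f, hef, hI⟩ := Finset.card_eq_two.1 hu2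
  have huv' : G.incidenceFinset u = G.incidenceFinset v := huv
  have key : ∀ e ∈ G.incidenceFinset u, e = s(u, v) := by
    intro e he
    have h1 : u ∈ e := by
      rw [SimpleGraph.mem_incidenceFinset] at he
      exact he.2
    have h2 : v ∈ e := by
      rw [huv', SimpleGraph.mem_incidenceFinset] at he
      exact he.2
    exact (Sym2.mem_and_mem_iff hne).1 ⟨h1, h2⟩
  have h1 := key e (by rw [hI]; simp)
  have h2 := key f (by rw [hI]; simp)
  exact hef (h1.trans h2.symm)

end Pool.Agent.Q19.EdgeCov
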