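import Mathlib

/-!
# Integer certificates for positive semidefiniteness
-/

set_option autoImplicit false

namespace Q19.Psd

open Matrix Finset

/-- the diagonal dominance check of a symmetric integer matrix -/
def DD {n : ℕ} (E : Fin n → Fin n → ℤ) : Prop :=
  (∀ i j, E i j = E j i) ∧ ∀ i, ∑ j, |E i j| ≤ 2 * E i i

instance {n : ℕ} (E : Fin n → Fin n → ℤ) : Decidable (DD E) := by unfold DD; infer_instance

theorem dd_nonneg {n : ℕ} (E : Fin n → Fin n → ℤ) (h : DD E) (z : Fin n → ℝ) :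
    0 ≤ ∑ i, ∑ j, (E i j : ℝ) * (z i * z j) := by
  obtain ⟨hs, hd⟩ := h
  have hE0 : ∀ i, 0 ≤ E i i := by
    intro i
    have h1 : |E i i| ≤ ∑ j, |E i j| :=
      Finset.single_le_sum (f := fun j => |E i j|) (fun j _ => abs_nonneg _) (Finset.mem_univ i)
    have := abs_nonneg (E i i)
    linarith [hd i]
  -- termwise bound
  have h1 : ∀ i j, -((|E i j| : ℤ) : ℝ) * (z i ^ 2 + z j ^ 2) / 2 +
      (if i = j then 2 * (E i i : ℝ) * z i ^ 2 else 0) ≤ (E i j : ℝ) * (z i * z j) := by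
    intro i j
    by_cases hij : i = j
    · subst hij
      rw [if_pos rfl, abs_of_nonneg (hE0 i)]
      apply le_of_eq; ring
    · rw [if_neg hij, add_zero, Int.cast_abs]
      have h2 := neg_abs_le ((E i j : ℝ) * (z i * z j))
      have h3 : |(E i j : ℝ) * (z i * z j)| ≤ |(E i j : ℝ)| * (z i ^ 2 + z j ^ 2) / 2 := by
        rw [abs_mul, mul_div_assoc]
        apply mul_le_mul_of_nonneg_left _ (abs_nonneg _)
        rw [abs_le]
        constructor <;> nlinarith [sq_nonneg (z i + z j), sq_nonneg (z i - z j)]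
      have h4 : -|(E i j : ℝ)| * (z i ^ 2 + z j ^ 2) / 2 = -(|(E i j : ℝ)| * (z i ^ 2 + z j ^ 2) / 2) := by
        ring
      rw [h4]; linarith
  have h2 := Finset.sum_le_sum (fun i (_ : i ∈ Finset.univ) =>
    Finset.sum_le_sum (fun j (_ : j ∈ Finset.univ) => h1 i j))
  refine le_trans ?_ h2
  have h3 : ∑ i, ∑ j, (-((|E i j| : ℤ) : ℝ) * (z i ^ 2 + z j ^ 2) / 2 +
      (if i = j then 2 * (E i i : ℝ) * z i ^ 2 else 0)) =
      ∑ i, ((2 * E i i - ∑ j, |E i j| : ℤ) : ℝ) * z i ^ 2 := by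
    have e1 : ∀ i, ∑ j, (-((|E i j| : ℤ) : ℝ) * (z i ^ 2 + z j ^ 2) / 2 +
      (if i = j then 2 * (E i i : ℝ) * z i ^ 2 else 0)) =
        -(1 / 2) * (∑ j, ((|E i j| : ℤ) : ℝ) * z i ^ 2) - (1 / 2) * (∑ j, ((|E i j| : ℤ) : ℝ) * z j ^ 2)
          + 2 * (E i i : ℝ) * z i ^ 2 := by
      intro i
      rw [Finset.sum_add_distrib, Finset.sum_ite_eq, if_pos (Finset.mem_univ _), Finset.mul_sum,
        Finset.mul_sum, ← Finset.sum_sub_distrib]
      congr 1
      apply Finset.sum_congr rfl; intro j _; ring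
    rw [Finset.sum_congr rfl fun i _ => e1 i, Finset.sum_add_distrib, Finset.sum_sub_distrib,
      ← Finset.mul_sum, ← Finset.mul_sum]
    have e2 : ∑ i, ∑ j, ((|E i j| : ℤ) : ℝ) * z j ^ 2 = ∑ i, ∑ j, ((|E i j| : ℤ) : ℝ) * z i ^ 2 := by
      rw [Finset.sum_comm]
      apply Finset.sum_congr rfl; intro i _
      apply Finset.sum_congr rfl; intro j _
      rw [hs i j]
    rw [e2]
    have e3 : ∑ i, ((2 * E i i - ∑ j, |E i j| : ℤ) : ℝ) * z i ^ 2 =
        ∑ i, 2 * (E i i : ℝ) * z i ^ 2 - ∑ i, ∑ j, ((|E i j| : ℤ) : ℝ) * z i ^ 2 := by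
      rw [← Finset.sum_sub_distrib]
      apply Finset.sum_congr rfl; intro i _
      rw [← Finset.sum_mul]
      push_cast; ring
    rw [e3]; ring
  rw [h3]
  apply Finset.sum_nonneg
  intro i _
  apply mul_nonneg _ (sq_nonneg _)
  have := hd i
  exact_mod_cast sub_nonneg.2 this

/-- the certificate: `M - RᵀR` is symmetric and diagonally dominant -/
def Cert {n : ℕ} (M R : Fin n → Fin n → ℤ) : Prop :=
  DD (fun i j => M i j - ∑ k, R k i * R k j)

instance {n : ℕ} (M R : Fin n → Fin n → ℤ) : Decidable (Cert M R) := by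
  unfold Cert; infer_instance

theorem cert_nonneg {n : ℕ} (M R : Fin n → Fin n → ℤ) (h : Cert M R) (z : Fin n → ℝ) :
    0 ≤ ∑ i, ∑ j, (M i j : ℝ) * (z i * z j) := by
  have h1 := dd_nonneg _ h z
  have h2 : ∑ i, ∑ j, (M i j : ℝ) * (z i * z j) =
      ∑ i, ∑ j, ((M i j - ∑ k, R k i * R k j : ℤ) : ℝ) * (z i * z j) +
        ∑ k, (∑ i, (R k i : ℝ) * z i) ^ 2 := by
    have e1 : ∑ k, (∑ i, (R k i : ℝ) * z i) ^ 2 =
        ∑ i, ∑ j, ((∑ k, R k i * R k j : ℤ) : ℝ) * (z i * z j) := by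
      simp_rw [sq, Finset.sum_mul_sum]
      rw [Finset.sum_comm]
      apply Finset.sum_congr rfl; intro i _
      rw [Finset.sum_comm]
      apply Finset.sum_congr rfl; intro j _
      push_cast
      rw [Finset.sum_mul]
      apply Finset.sum_congr rfl; intro k _
      ring
    rw [e1, ← Finset.sum_add_distrib]
    apply Finset.sum_congr rfl; intro i _
    rw [← Finset.sum_add_distrib]
    apply Finset.sum_congr rfl; intro j _
    push_cast; ring
  rw [h2]
  exact add_nonneg h1 (Finset.sum_nonneg fun k _ => sq_nonneg _)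

/-- read a list of lists as a function of two indices -/
def rd (n : ℕ) (l : List (List ℤ)) : Fin n → Fin n → ℤ := fun i j => (l.getD i []).getD j 0

/-- read a list as a function -/
def rd1 (n : ℕ) (l : List ℤ) : Fin n → ℤ := fun i => l.getD i 0

end Q19.Psd
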