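import Pool.Agent.Q19.Fied
import Pool.Agent.Q19.Psd

/-!
# Bounds for the sum of the absolute values of the eigenvalues
-/

set_option autoImplicit false

namespace Q19.Energy

open Matrix Finset

variable {ι : Type} [Fintype ι] [DecidableEq ι]

/-- the trace in an orthonormal basis -/
theorem trace_basis {κ : Type} [Fintype κ] (b : κ → ι → ℝ)
    (hb : ∀ x : ι → ℝ, x = ∑ i, (b i ⬝ᵥ x) • b i) (M : Matrix ι ι ℝ) :
    ∑ k, b k ⬝ᵥ (M *ᵥ b k) = M.trace := by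
  have h1 : ∀ i j : ι, ∑ k, b k i * b k j = if i = j then 1 else 0 := by
    intro i j
    have := congrFun (hb (Pi.single j 1)) i
    simp only [dotProduct_single, mul_one, Finset.sum_apply, Pi.smul_apply, smul_eq_mul] at this
    rw [Pi.single_apply] at this
    rw [this]
    apply Finset.sum_congr rfl; intro k _; ring
  have h2 : ∑ k, b k ⬝ᵥ (M *ᵥ b k) = ∑ i, ∑ j, M i j * ∑ k, b k i * b k j := by
    simp only [dotProduct, mulVec, Finset.mul_sum]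
    rw [Finset.sum_comm]
    apply Finset.sum_congr rfl; intro i _
    rw [Finset.sum_comm]
    apply Finset.sum_congr rfl; intro j _
    apply Finset.sum_congr rfl; intro k _
    ring
  rw [h2, trace]
  apply Finset.sum_congr rfl; intro i _
  simp [h1]

variable {A : Matrix ι ι ℝ} (hA : A.IsHermitian)

include hA

theorem sum_abs (f : ℝ → ℝ) : ∑ k, f (hA.eigenvalues k) = ∑ k, f (hA.eigenvalues₀ k) := by
  simp only [Matrix.IsHermitian.eigenvalues]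
  exact Equiv.sum_comp (Fintype.equivOfCardEq (Fintype.card_fin _) : _ ≃ ι).symm
    (fun k => f (hA.eigenvalues₀ k))

theorem le_upper (X Y : Matrix ι ι ℝ) (hX : ∀ z : ι → ℝ, 0 ≤ z ⬝ᵥ (X *ᵥ z))
    (hY : ∀ z : ι → ℝ, 0 ≤ z ⬝ᵥ (Y *ᵥ z)) (h : A = X - Y) :
    ∑ k, |hA.eigenvalues k| ≤ X.trace + Y.trace := by
  rw [sum_abs hA]
  obtain ⟨b, hb1, hb2, hb3⟩ := Q19.Fied.exists_basis hA
  rw [← trace_basis b hb3 X, ← trace_basis b hb3 Y, ← Finset.sum_add_distrib]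
  apply Finset.sum_le_sum
  intro k _
  have h1 : hA.eigenvalues₀ k = b k ⬝ᵥ (X *ᵥ b k) - b k ⬝ᵥ (Y *ᵥ b k) := by
    have h2 : b k ⬝ᵥ (A *ᵥ b k) = hA.eigenvalues₀ k := by
      rw [hb1, dotProduct_smul, hb2, if_pos rfl]; simp
    rw [← h2]
    conv_lhs => rw [h]
    rw [sub_mulVec, dotProduct_sub]
  rw [h1, abs_le]
  constructor
  · linarith [hX (b k), hY (b k)]
  · linarith [hX (b k), hY (b k)]

theorem lower_le (S : Matrix ι ι ℝ) (h1 : ∀ z : ι → ℝ, 0 ≤ z ⬝ᵥ z - z ⬝ᵥ (S *ᵥ z))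
    (h2 : ∀ z : ι → ℝ, 0 ≤ z ⬝ᵥ z + z ⬝ᵥ (S *ᵥ z)) :
    (A * S).trace ≤ ∑ k, |hA.eigenvalues k| := by
  rw [sum_abs hA]
  obtain ⟨b, hb1, hb2, hb3⟩ := Q19.Fied.exists_basis hA
  rw [← trace_basis b hb3 (A * S)]
  apply Finset.sum_le_sum
  intro k _
  rw [← mulVec_mulVec, ← Q19.Fied.form_symm hA, hb1, smul_dotProduct, smul_eq_mul]
  have h3 := h1 (b k)
  have h4 := h2 (b k)
  have h5 := hb2 k k
  rw [if_pos rfl] at h5
  rw [h5] at h3 h4
  calc hA.eigenvalues₀ k * (b k ⬝ᵥ (S *ᵥ b k)) ≤ |hA.eigenvalues₀ k * (b k ⬝ᵥ (S *ᵥ b k))| :=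
        le_abs_self _
    _ = |hA.eigenvalues₀ k| * |b k ⬝ᵥ (S *ᵥ b k)| := abs_mul _ _
    _ ≤ |hA.eigenvalues₀ k| * 1 := by
        apply mul_le_mul_of_nonneg_left _ (abs_nonneg _)
        rw [abs_le]; constructor <;> linarith
    _ = _ := mul_one _

end Q19.Energy
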