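import Mathlib

/-!
# Almost invariant colourings of the plane (helper19)

Tools for the distinguishing extension number of the plane: a two-colouring `s : ℂ → ZMod 2`
which changes only at finitely many points under two independent translations is a finite
modification of a periodic colouring.
-/

namespace Pool.Agent.Q19.ExtA

open Complex

/-- `s` is a finite modification of a periodic colouring. -/
def NearPer (s : ℂ → ZMod 2) : Prop :=
  ∃ a : ℂ, a ≠ 0 ∧ ∃ p q : ℂ → ZMod 2, (∀ z, p (z + a) = p z) ∧ q.support.Finite ∧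
    ∀ z, s z = p z + q z

theorem zmod2_add_self (x : ZMod 2) : x + x = 0 := by
  revert x; decide

theorem zmod2_cases (x : ZMod 2) : x = 0 ∨ x = 1 := by
  revert x; decide

/-- a finitely supported periodic function vanishes -/
theorem per_fin {q : ℂ → ZMod 2} (hq : q.support.Finite) {a : ℂ} (ha : a ≠ 0)
    (h : ∀ z, q (z + a) = q z) : ∀ z, q z = 0 := by
  intro z
  by_contra hz
  have h1 : ∀ n : ℕ, q (z + n * a) = q z := by
    intro n
    induction n with
    | zero => simp
    | succ n ih =>
      have : z + ((n + 1 : ℕ) : ℂ) * a = (z + n * a) + a := by push_cast; ring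
      rw [this, h, ih]
  have h2 : Set.range (fun n : ℕ => z + n * a) ⊆ q.support := by
    rintro _ ⟨n, rfl⟩
    simp only [Function.mem_support]
    rw [h1]; exact hz
  have h3 : Function.Injective (fun n : ℕ => z + n * a) := by
    intro m n hmn
    simp only [add_right_inj] at hmn
    have := mul_right_cancel₀ ha hmn
    exact_mod_cast this
  exact (Set.infinite_range_of_injective h3) (hq.subset h2)

/-- If `s` is periodic and `s + q` is invariant under an affine map with `q` finitely supported,
then both `s` and `q` are invariant. -/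
theorem split_inv {s q : ℂ → ZMod 2} {a α β : ℂ} (ha : a ≠ 0) (hα : α ≠ 0)
    (hs : ∀ z, s (z + a) = s z) (hq : q.support.Finite)
    (h : ∀ z, s (α * z + β) + q (α * z + β) = s z + q z) :
    ∀ z, q (α * z + β) = q z := by
  have hinj : Function.Injective (fun z : ℂ => α * z + β) := by
    intro x y hxy
    simp only [add_left_inj] at hxy
    exact mul_left_cancel₀ hα hxy
  set N : ℂ → ZMod 2 := fun z => s (α * z + β) - s z with hN
  have hNq : ∀ z, N z = q z - q (α * z + β) := by
    intro z
    simp only [hN]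
    linear_combination h z
  have hNfin : N.support.Finite := by
    refine ((hq.union (hq.preimage hinj.injOn))).subset ?_
    intro z hz
    by_contra hcon
    simp only [Set.mem_union, Function.mem_support, Set.mem_preimage, not_or, not_not] at hcon
    apply hz
    rw [hNq, hcon.1, hcon.2]; simp
  set N' : ℂ → ZMod 2 := fun z => N (z + a) - N z with hN'
  have hN'fin : N'.support.Finite := by
    have hinj2 : Function.Injective (fun z : ℂ => z + a) := add_left_injective a
    refine ((hNfin.union (hNfin.preimage hinj2.injOn))).subset ?_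
    intro z hz
    by_contra hcon
    simp only [Set.mem_union, Function.mem_support, Set.mem_preimage, not_or, not_not] at hcon
    apply hz
    simp only [hN']
    rw [hcon.1, hcon.2]; simp
  have hN'per : ∀ z, N' (z + α⁻¹ * a) = N' z := by
    intro z
    have e1 : α * (z + α⁻¹ * a + a) + β = (α * (z + a) + β) + a := by
      linear_combination a * mul_inv_cancel₀ hα
    have e2 : α * (z + α⁻¹ * a) + β = (α * z + β) + a := by
      linear_combination a * mul_inv_cancel₀ hα
    have e3 : z + α⁻¹ * a + a = (z + α⁻¹ * a) + a := rfl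
    have f1 : ∀ z, N' z = s (α * (z + a) + β) - s (α * z + β) := by
      intro z
      simp only [hN', hN, hs]
      ring
    rw [f1, f1, e1, e2, hs, hs]
  have hN'0 : ∀ z, N' z = 0 := per_fin hN'fin (mul_ne_zero (inv_ne_zero hα) ha) hN'per
  have hN0 : ∀ z, N z = 0 := by
    apply per_fin hNfin ha
    intro z
    have := hN'0 z
    simp only [hN'] at this
    linear_combination this
  intro z
  have := hN0 z
  rw [hNq] at this
  linear_combination -this

/-- existence of the limit along a translation orbit -/
theorem exists_lim {s : ℂ → ZMod 2} {a : ℂ} (ha : a ≠ 0)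
    (hE : {z | s (z + a) ≠ s z}.Finite) (z : ℂ) :
    ∃ c : ZMod 2, ∃ J : ℕ, ∀ j : ℕ, J ≤ j → s (z + j * a) = c := by
  have hinj : Function.Injective (fun n : ℕ => z + n * a) := by
    intro m n hmn
    simp only [add_right_inj] at hmn
    have := mul_right_cancel₀ ha hmn
    exact_mod_cast this
  have hfin : {n : ℕ | s (z + n * a + a) ≠ s (z + n * a)}.Finite :=
    hE.preimage (f := fun n : ℕ => z + n * a) hinj.injOn
  obtain ⟨J, hJ⟩ := hfin.bddAbove
  refine ⟨s (z + (J + 1 : ℕ) * a), J + 1, ?_⟩
  intro j hj
  induction j, hj using Nat.le_induction with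
  | base => rfl
  | succ n hn ih =>
    rw [← ih]
    have hn' : n ∉ {n : ℕ | s (z + n * a + a) ≠ s (z + n * a)} := by
      intro hmem
      have := hJ hmem
      omega
    simp only [Set.mem_setOf_eq, not_not] at hn'
    have e : z + ((n + 1 : ℕ) : ℂ) * a = z + n * a + a := by push_cast; ring
    rw [e, hn']

theorem lim_unique {s : ℂ → ZMod 2} {a z : ℂ} {c d : ZMod 2}
    (h1 : ∃ J : ℕ, ∀ j : ℕ, J ≤ j → s (z + j * a) = c)
    (h2 : ∃ J : ℕ, ∀ j : ℕ, J ≤ j → s (z + j * a) = d) : c = d := by
  obtain ⟨J1, h1⟩ := h1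
  obtain ⟨J2, h2⟩ := h2
  rw [← h1 (max J1 J2) (le_max_left _ _), ← h2 (max J1 J2) (le_max_right _ _)]

theorem neg_E {s : ℂ → ZMod 2} {a : ℂ} (hE : {z | s (z + a) ≠ s z}.Finite) :
    {z | s (z + -a) ≠ s z}.Finite := by
  have hinj : Function.Injective (fun z : ℂ => z + -a) := add_left_injective _
  refine (hE.preimage hinj.injOn).subset ?_
  intro z hz
  simp only [Set.mem_preimage, Set.mem_setOf_eq] at hz ⊢
  intro h
  apply hz
  rw [← h]
  congr 1
  ring

/-- Two independent almost periods force near periodicity. -/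
theorem nearPer_of_two {s : ℂ → ZMod 2} {a b : ℂ} (ha : a ≠ 0)
    (hEa : {z | s (z + a) ≠ s z}.Finite) (hEb : {z | s (z + b) ≠ s z}.Finite)
    (hind : ∀ k l : ℤ, (k : ℂ) * b = l * a → k = 0) : NearPer s := by
  have hna : -a ≠ 0 := neg_ne_zero.mpr ha
  choose sp hsp using exists_lim ha hEa
  choose sm hsm using exists_lim hna (neg_E hEa)
  -- invariance of the limits
  have spa : ∀ z, sp (z + a) = sp z := by
    intro z
    apply lim_unique (s := s) (a := a) (z := z + a) (hsp _)
    obtain ⟨J, hJ⟩ := hsp z
    refine ⟨J, fun j hj => ?_⟩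
    rw [← hJ (j + 1) (by omega)]
    congr 1; push_cast; ring
  have spb : ∀ z, sp (z + b) = sp z := by
    intro z
    apply lim_unique (s := s) (a := a) (z := z + b) (hsp _)
    obtain ⟨J, hJ⟩ := hsp z
    have hinj : Function.Injective (fun n : ℕ => z + n * a) := by
      intro m n hmn
      simp only [add_right_inj] at hmn
      have := mul_right_cancel₀ ha hmn
      exact_mod_cast this
    have hfin : {n : ℕ | s (z + n * a + b) ≠ s (z + n * a)}.Finite :=
      hEb.preimage (f := fun n : ℕ => z + n * a) hinj.injOn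
    obtain ⟨K, hK⟩ := hfin.bddAbove
    refine ⟨max J (K + 1), fun j hj => ?_⟩
    have hn' : j ∉ {n : ℕ | s (z + n * a + b) ≠ s (z + n * a)} := by
      intro hmem
      have := hK hmem
      have := le_trans (le_max_right J (K + 1)) hj
      omega
    simp only [Set.mem_setOf_eq, not_not] at hn'
    rw [← hJ j (le_trans (le_max_left _ _) hj), ← hn']
    congr 1; ring
  have smb : ∀ z, sm (z + b) = sm z := by
    intro z
    apply lim_unique (s := s) (a := -a) (z := z + b) (hsm _)
    obtain ⟨J, hJ⟩ := hsm z
    have hinj : Function.Injective (fun n : ℕ => z + n * -a) := by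
      intro m n hmn
      simp only [add_right_inj] at hmn
      have := mul_right_cancel₀ hna hmn
      exact_mod_cast this
    have hfin : {n : ℕ | s (z + n * -a + b) ≠ s (z + n * -a)}.Finite :=
      hEb.preimage (f := fun n : ℕ => z + n * -a) hinj.injOn
    obtain ⟨K, hK⟩ := hfin.bddAbove
    refine ⟨max J (K + 1), fun j hj => ?_⟩
    have hn' : j ∉ {n : ℕ | s (z + n * -a + b) ≠ s (z + n * -a)} := by
      intro hmem
      have := hK hmem
      have := le_trans (le_max_right J (K + 1)) hj
      omega
    simp only [Set.mem_setOf_eq, not_not] at hn'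
    rw [← hJ j (le_trans (le_max_left _ _) hj), ← hn']
    congr 1; ring
  -- changes on an orbit
  have chp : ∀ z, sp z ≠ s z → ∃ j : ℕ, s (z + j * a + a) ≠ s (z + j * a) := by
    intro z hz
    by_contra hcon
    push Not at hcon
    apply hz
    apply lim_unique (s := s) (a := a) (z := z) (hsp _)
    refine ⟨0, fun j _ => ?_⟩
    induction j with
    | zero => simp
    | succ n ih =>
      have e : z + ((n + 1 : ℕ) : ℂ) * a = z + n * a + a := by push_cast; ring
      rw [e, hcon, ih (Nat.zero_le _)]
  have chm : ∀ z, sm z ≠ s z → ∃ j : ℕ, s (z - (j + 1 : ℕ) * a + a) ≠ s (z - (j + 1 : ℕ) * a) := by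
    intro z hz
    by_contra hcon
    push Not at hcon
    apply hz
    apply lim_unique (s := s) (a := -a) (z := z) (hsm _)
    refine ⟨0, fun j _ => ?_⟩
    induction j with
    | zero => simp
    | succ n ih =>
      have e : z + ((n + 1 : ℕ) : ℂ) * -a = z - (n + 1 : ℕ) * a := by push_cast; ring
      rw [e, ← hcon n, ← ih (Nat.zero_le _)]
      congr 1; push_cast; ring
  -- the limits agree
  have hpm : ∀ z, sp z = sm z := by
    intro z
    by_contra hne
    have hk : ∀ k : ℕ, sp (z + k * b) ≠ sm (z + k * b) := by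
      intro k
      have e1 : sp (z + k * b) = sp z := by
        induction k with
        | zero => simp
        | succ n ih =>
          have e : z + ((n + 1 : ℕ) : ℂ) * b = z + n * b + b := by push_cast; ring
          rw [e, spb, ih]
      have e2 : sm (z + k * b) = sm z := by
        clear e1
        induction k with
        | zero => simp
        | succ n ih =>
          have e : z + ((n + 1 : ℕ) : ℂ) * b = z + n * b + b := by push_cast; ring
          rw [e, smb, ih]
      rw [e1, e2]; exact hne
    have hj : ∀ k : ℕ, ∃ j : ℤ, s (z + k * b + j * a + a) ≠ s (z + k * b + j * a) := by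
      intro k
      by_cases h1 : sp (z + k * b) = s (z + k * b)
      · have h2 : sm (z + k * b) ≠ s (z + k * b) := by
          rw [← h1]; exact fun h => hk k h.symm
        obtain ⟨j, hj⟩ := chm _ h2
        refine ⟨-(j + 1 : ℤ), ?_⟩
        have e : z + k * b + ((-(j + 1 : ℤ) : ℤ) : ℂ) * a = z + k * b - (j + 1 : ℕ) * a := by
          push_cast; ring
        rw [e]; exact hj
      · obtain ⟨j, hj⟩ := chp _ h1
        exact ⟨j, by exact_mod_cast hj⟩
    choose j hj using hj
    have : Finite {z | s (z + a) ≠ s z} := hEa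
    obtain ⟨k, l, hkl, hEq⟩ := Finite.exists_ne_map_eq_of_infinite
      (fun k : ℕ => (⟨z + k * b + j k * a, hj k⟩ : {z | s (z + a) ≠ s z}))
    simp only [Subtype.mk.injEq] at hEq
    have := hind ((k : ℤ) - l) (j l - j k) (by push_cast; linear_combination hEq)
    omega
  -- conclusion
  refine ⟨a, ha, sp, fun z => s z - sp z, spa, ?_, fun z => by ring⟩
  obtain ⟨R, hR⟩ : ∃ R : ℝ, ∀ z ∈ {z | s (z + a) ≠ s z}, ‖z‖ ≤ R := by
    obtain ⟨R, hR⟩ := (hEa.image norm).bddAbove
    exact ⟨R, fun z hz => hR ⟨z, hz, rfl⟩⟩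
  obtain ⟨N, hN⟩ := exists_nat_gt (2 * R / ‖a‖)
  have hfinS : ((fun p : ℂ × ℕ => p.1 - p.2 * a) '' ({z | s (z + a) ≠ s z} ×ˢ Set.Iio N)).Finite :=
    (hEa.prod (Set.finite_Iio N)).image _
  refine hfinS.subset ?_
  intro z hz
  simp only [Function.mem_support] at hz
  have h1 : sp z ≠ s z := fun h => hz (by rw [h]; ring)
  have h2 : sm z ≠ s z := fun h => h1 (by rw [hpm, h])
  obtain ⟨i, hi⟩ := chp z h1
  obtain ⟨j, hj⟩ := chm z h2
  refine ⟨(z + i * a, i), ⟨hi, ?_⟩, by simp⟩
  simp only [Set.mem_Iio]
  have hapos : 0 < ‖a‖ := norm_pos_iff.mpr ha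
  have hb1 := hR _ hi
  have hb2 := hR _ hj
  have hb3 : (i + j + 1 : ℝ) * ‖a‖ ≤ 2 * R := by
    have : ‖((i + j + 1 : ℕ) : ℂ) * a‖ ≤ 2 * R := by
      have e : ((i + j + 1 : ℕ) : ℂ) * a = (z + i * a) - (z - (j + 1 : ℕ) * a) := by
        push_cast; ring
      rw [e]
      calc ‖(z + i * a) - (z - (j + 1 : ℕ) * a)‖ ≤ ‖z + i * a‖ + ‖z - (j + 1 : ℕ) * a‖ :=
            norm_sub_le _ _
        _ ≤ 2 * R := by linarith
    rw [norm_mul, Complex.norm_natCast] at this
    push_cast at this
    exact this
  have hb4 : (i + j + 1 : ℝ) ≤ 2 * R / ‖a‖ := by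
    rw [le_div_iff₀ hapos]; exact hb3
  have : (i : ℝ) < N := by
    have : (0 : ℝ) ≤ j := Nat.cast_nonneg _
    linarith
  exact_mod_cast this

end Pool.Agent.Q19.ExtA
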