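import Mathlib

/-!
# Finite plane sets all of whose small extensions are symmetric (helper19)

`finite_case`: if `Q` is a finite plane set and `W` has four points outside `Q`, then some
`Q ∪ F` with `F ⊆ W` is invariant under no nontrivial orientation preserving isometry.
-/

namespace Pool.Agent.Q19.ExtB

open Finset

/-- `X` is mapped into itself by some half-turn. -/
def HT (X : Finset ℂ) : Prop := ∃ c : ℂ, ∀ z ∈ X, 2 * c - z ∈ X

/-- second moment zero, or half-turn symmetric -/
def Good (X : Finset ℂ) : Prop :=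
  (X.card : ℂ) * ∑ z ∈ X, z ^ 2 - (∑ z ∈ X, z) ^ 2 = 0 ∨ HT X

theorem sum_inv {X : Finset ℂ} {α β : ℂ} (hα : α ≠ 0) (h : ∀ z ∈ X, α * z + β ∈ X) (f : ℂ → ℂ) :
    ∑ z ∈ X, f (α * z + β) = ∑ z ∈ X, f z := by
  have hinj : Function.Injective (fun z : ℂ => α * z + β) := by
    intro x y hxy
    simp only [add_left_inj] at hxy
    exact mul_left_cancel₀ hα hxy
  have himg : X.image (fun z : ℂ => α * z + β) = X := by
    apply Finset.eq_of_subset_of_card_le
    · intro z hz
      obtain ⟨y, hy, rfl⟩ := Finset.mem_image.mp hz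
      exact h y hy
    · rw [Finset.card_image_of_injective _ hinj]
  conv_rhs => rw [← himg]
  rw [Finset.sum_image (fun x _ y _ hxy => hinj hxy)]

theorem good_of_inv {X : Finset ℂ} (hX : X.Nonempty) {α β : ℂ} (hα : ‖α‖ = 1)
    (hne : ¬ (α = 1 ∧ β = 0)) (h : ∀ z ∈ X, α * z + β ∈ X) : Good X := by
  have hα0 : α ≠ 0 := by
    intro h0; rw [h0] at hα; simp at hα
  have hm : (X.card : ℂ) ≠ 0 := by
    exact_mod_cast hX.card_pos.ne'
  set m : ℂ := (X.card : ℂ) with hmdef
  set S1 := ∑ z ∈ X, z with hS1
  set S2 := ∑ z ∈ X, z ^ 2 with hS2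
  have e1 : α * S1 + m * β = S1 := by
    have := sum_inv hα0 h (fun z => z)
    rw [Finset.sum_add_distrib, ← Finset.mul_sum, Finset.sum_const, nsmul_eq_mul] at this
    exact this
  have e2 : α ^ 2 * S2 + 2 * α * β * S1 + m * β ^ 2 = S2 := by
    have := sum_inv hα0 h (fun z => z ^ 2)
    have e : ∀ z : ℂ, (α * z + β) ^ 2 = α ^ 2 * z ^ 2 + 2 * α * β * z + β ^ 2 := by
      intro z; ring
    simp only [e] at this
    rw [Finset.sum_add_distrib, Finset.sum_add_distrib, ← Finset.mul_sum, ← Finset.mul_sum,
      Finset.sum_const, nsmul_eq_mul] at this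
    exact this
  have hα1 : α ≠ 1 := by
    intro h1
    apply hne
    refine ⟨h1, ?_⟩
    rw [h1] at e1
    have : m * β = 0 := by linear_combination e1
    rcases mul_eq_zero.mp this with h | h
    · exact absurd h hm
    · exact h
  have key : (1 - α ^ 2) * (m * S2 - S1 ^ 2) = 0 := by
    linear_combination (-m) * e2 + (S1 * (1 - α) + m * β + 2 * α * S1) * e1
  by_cases hα2 : α ^ 2 = 1
  · right
    have hαm : α = -1 := by
      have : (α - 1) * (α + 1) = 0 := by linear_combination hα2
      rcases mul_eq_zero.mp this with h | h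
      · exact absurd (by linear_combination h) hα1
      · linear_combination h
    refine ⟨β / 2, fun z hz => ?_⟩
    have := h z hz
    rw [hαm] at this
    have e : 2 * (β / 2) - z = -1 * z + β := by ring
    rw [e]; exact this
  · left
    rcases mul_eq_zero.mp key with h | h
    · exact absurd (by linear_combination -h) hα2
    · exact h

theorem sum_lin (w e : ℂ) (n : ℕ) :
    ∑ j ∈ Finset.Icc 1 n, (w - (j : ℂ) * e) = n * w - e * (n * (n + 1) / 2) := by
  induction n with
  | zero => simp
  | succ n ih =>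
    rw [Finset.sum_Icc_succ_top (by omega), ih]
    push_cast; ring

theorem sum_sq (w e : ℂ) (n : ℕ) :
    ∑ j ∈ Finset.Icc 1 n, (w - (j : ℂ) * e) ^ 2 =
      n * w ^ 2 - 2 * w * e * (n * (n + 1) / 2) + e ^ 2 * (n * (n + 1) * (2 * n + 1) / 6) := by
  induction n with
  | zero => simp
  | succ n ih =>
    rw [Finset.sum_Icc_succ_top (by omega), ih]
    push_cast; ring

/-- two half-turn symmetric sets differing by one point: the new point is the centre or extends
an arithmetic progression; the consequence for the second moment. -/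
theorem ap_formula {X : Finset ℂ} {w : ℂ} (hw : w ∉ X) (h1 : HT X) (h2 : HT (insert w X))
    {n c V : ℂ} (hn : (X.card : ℂ) = n) (hn0 : n ≠ 0) (hS1 : ∑ z ∈ X, z = n * c)
    (hS2 : ∑ z ∈ X, z ^ 2 = V + n * c ^ 2) :
    w = c ∨ n * (n - 1) * (w - c) ^ 2 = 3 * (n + 1) * V := by
  by_cases hwc : w = c
  · exact Or.inl hwc
  right
  obtain ⟨c1, h1⟩ := h1
  obtain ⟨c2, h2⟩ := h2
  have hc1 : c1 = c := by
    have := sum_inv (X := X) (α := -1) (β := 2 * c1) (by norm_num)
      (fun z hz => by have := h1 z hz; rwa [show -1 * z + 2 * c1 = 2 * c1 - z by ring])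
      (fun z => z)
    rw [Finset.sum_add_distrib, ← Finset.mul_sum, Finset.sum_const, nsmul_eq_mul, hn, hS1] at this
    have h3 : n * (c1 - c) = 0 := by linear_combination this / 2
    rcases mul_eq_zero.mp h3 with h | h
    · exact absurd h hn0
    · linear_combination h
  subst hc1
  set e : ℂ := 2 * (c2 - c1) with he
  have step : ∀ z ∈ X, z + e ∈ insert w X := by
    intro z hz
    have h3 := h2 (2 * c1 - z) (Finset.mem_insert_of_mem (h1 z hz))
    have : 2 * c2 - (2 * c1 - z) = z + e := by rw [he]; ring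
    rwa [this] at h3
  have he0 : e ≠ 0 := by
    intro h0
    have hcc : c2 = c1 := by
      have : 2 * (c2 - c1) = 0 := by rw [← he]; exact h0
      linear_combination this / 2
    have h3 := h2 w (Finset.mem_insert_self _ _)
    rw [hcc] at h3
    rcases Finset.mem_insert.mp h3 with h | h
    · apply hwc; linear_combination -h / 2
    · have := h1 _ h
      apply hw
      rwa [show 2 * c1 - (2 * c1 - w) = w by ring] at this
  have hJ : ∀ z ∈ X, ∃ j : ℕ, 1 ≤ j ∧ z + j * e = w ∧ ∀ i : ℕ, i < j → z + i * e ∈ X := by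
    intro z hz
    have hex : ∃ j : ℕ, z + j * e ∉ X := by
      by_contra hcon
      push Not at hcon
      have hinj : Function.Injective (fun j : ℕ => z + j * e) := by
        intro x y hxy
        simp only [add_right_inj] at hxy
        have := mul_right_cancel₀ he0 hxy
        exact_mod_cast this
      have : Finite (X : Set ℂ) := X.finite_toSet
      obtain ⟨k, l, hkl, hEq⟩ := Finite.exists_ne_map_eq_of_infinite
        (fun k : ℕ => (⟨z + k * e, hcon k⟩ : (X : Set ℂ)))
      simp only [Subtype.mk.injEq] at hEq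
      exact hkl (hinj hEq)
    classical
    have hspec := Nat.find_spec hex
    have hmin : ∀ i : ℕ, i < Nat.find hex → z + i * e ∈ X := by
      intro i hi
      have := Nat.find_min hex hi
      push Not at this
      exact this
    have hpos : 1 ≤ Nat.find hex := by
      rcases Nat.eq_zero_or_pos (Nat.find hex) with h | h
      · rw [h] at hspec
        exact absurd (by simpa using hz) hspec
      · exact h
    refine ⟨Nat.find hex, hpos, ?_, hmin⟩
    have h3 := step _ (hmin (Nat.find hex - 1) (by omega))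
    have h4 : z + ((Nat.find hex - 1 : ℕ) : ℂ) * e + e = z + (Nat.find hex : ℂ) * e := by
      rw [Nat.cast_sub hpos]; push_cast; ring
    rw [h4] at h3
    rcases Finset.mem_insert.mp h3 with h | h
    · exact h
    · exact absurd h hspec
  choose! J hJ using hJ
  have hJinj : Set.InjOn J (X : Set ℂ) := by
    intro x hx y hy hxy
    have hx' := (hJ x hx).2.1
    have hy' := (hJ y hy).2.1
    rw [hxy] at hx'
    linear_combination hx' - hy'
  set A := X.image J with hA
  have hAcard : A.card = X.card := Finset.card_image_of_injOn hJinj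
  have hdown : ∀ j ∈ A, ∀ i, 1 ≤ i → i ≤ j → i ∈ A := by
    intro j hj i hi hij
    obtain ⟨z, hz, rfl⟩ := Finset.mem_image.mp hj
    have h3 := (hJ z hz).2.2 (J z - i) (by omega)
    refine Finset.mem_image.mpr ⟨_, h3, ?_⟩
    have h4 := (hJ _ h3).2.1
    have h5 := (hJ z hz).2.1
    have h6 : ((J (z + ((J z - i : ℕ) : ℂ) * e) : ℕ) : ℂ) * e = (i : ℂ) * e := by
      rw [Nat.cast_sub hij] at h4 ⊢
      linear_combination h4 - h5
    have := mul_right_cancel₀ he0 h6
    exact_mod_cast this
  have hAsub : A ⊆ Finset.Icc 1 X.card := by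
    intro j hj
    rw [Finset.mem_Icc]
    obtain ⟨z, hz, hzj⟩ := Finset.mem_image.mp hj
    have h1j : 1 ≤ j := by rw [← hzj]; exact (hJ z hz).1
    refine ⟨h1j, ?_⟩
    have : Finset.Icc 1 j ⊆ A := by
      intro i hi
      rw [Finset.mem_Icc] at hi
      exact hdown j hj i hi.1 hi.2
    have := Finset.card_le_card this
    rw [hAcard, Nat.card_Icc] at this
    omega
  have hAeq : A = Finset.Icc 1 X.card := by
    apply Finset.eq_of_subset_of_card_le hAsub
    rw [hAcard, Nat.card_Icc]; omega
  have hsum : ∀ f : ℂ → ℂ, ∑ z ∈ X, f z = ∑ j ∈ Finset.Icc 1 X.card, f (w - (j : ℂ) * e) := by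
    intro f
    rw [← hAeq, hA, Finset.sum_image hJinj]
    apply Finset.sum_congr rfl
    intro z hz
    congr 1
    linear_combination (hJ z hz).2.1
  have s1 := hsum (fun z => z)
  have s2 := hsum (fun z => z ^ 2)
  rw [sum_lin, hS1, hn] at s1
  rw [sum_sq, hS2, hn] at s2
  have hc : c1 = w - e * ((n + 1) / 2) := by
    apply mul_left_cancel₀ hn0
    linear_combination s1
  have hV : V = e ^ 2 * (n * (n + 1) * (n - 1) / 12) := by
    have : V = n * w ^ 2 - 2 * w * e * (n * (n + 1) / 2) +
        e ^ 2 * (n * (n + 1) * (2 * n + 1) / 6) - n * c1 ^ 2 := by linear_combination s2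
    rw [this, hc]; ring
  rw [hV, hc]; ring

section Alg

variable {n c V : ℂ}

theorem single_formula {Q : Finset ℂ} (hn : (Q.card : ℂ) = n) (hS1 : ∑ z ∈ Q, z = n * c)
    (hS2 : ∑ z ∈ Q, z ^ 2 = V + n * c ^ 2) {u : ℂ} (hu : u ∉ Q) (hG : Good (insert u Q)) :
    (n + 1) * V + n * (u - c) ^ 2 = 0 ∨ HT (insert u Q) := by
  rcases hG with h | h
  · left
    rw [Finset.sum_insert hu, Finset.sum_insert hu, Finset.card_insert_of_notMem hu, hS1, hS2] at h
    push_cast at h
    rw [hn] at h
    linear_combination h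
  · exact Or.inr h

theorem pair_formula {Q : Finset ℂ} (hn : (Q.card : ℂ) = n) (hS1 : ∑ z ∈ Q, z = n * c)
    (hS2 : ∑ z ∈ Q, z ^ 2 = V + n * c ^ 2) {u w : ℂ} (hu : u ∉ Q) (hw : w ∉ insert u Q)
    (hG : Good (insert w (insert u Q))) :
    (n + 2) * V + (n + 1) * ((u - c) ^ 2 + (w - c) ^ 2) - 2 * (u - c) * (w - c) = 0 ∨
      HT (insert w (insert u Q)) := by
  rcases hG with h | h
  · left
    rw [Finset.sum_insert hw, Finset.sum_insert hw, Finset.card_insert_of_notMem hw,
      Finset.sum_insert hu, Finset.sum_insert hu, Finset.card_insert_of_notMem hu, hS1, hS2] at h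
    push_cast at h
    rw [hn] at h
    linear_combination h
  · exact Or.inr h

theorem pairHT {Q : Finset ℂ} (hn : (Q.card : ℂ) = n) (hS1 : ∑ z ∈ Q, z = n * c)
    (hS2 : ∑ z ∈ Q, z ^ 2 = V + n * c ^ 2) {u w : ℂ} (hu : u ∉ Q) (hw : w ∉ insert u Q)
    (h1 : HT (insert u Q)) (h2 : HT (insert w (insert u Q))) :
    (n + 1) * (w - c) = (u - c) ∨
      n * ((n + 1) * (w - c) - (u - c)) ^ 2 = 3 * (n + 2) * ((n + 1) * V + n * (u - c) ^ 2) := by
  have hN : ((insert u Q).card : ℂ) = n + 1 := by
    rw [Finset.card_insert_of_notMem hu]; push_cast; rw [hn]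
  have hN0 : n + 1 ≠ 0 := by
    rw [← hn]; exact_mod_cast Nat.succ_ne_zero Q.card
  have key := ap_formula (X := insert u Q) (w := w) hw h1 h2 (n := n + 1)
    (c := c + (u - c) / (n + 1)) (V := V + n / (n + 1) * (u - c) ^ 2) hN hN0
    (by rw [Finset.sum_insert hu, hS1]; field_simp; ring)
    (by rw [Finset.sum_insert hu, hS2]; field_simp; ring)
  rcases key with h | h
  · left
    rw [h]; field_simp; ring
  · right
    have e1 : (n + 1) * (w - (c + (u - c) / (n + 1))) = (n + 1) * (w - c) - (u - c) := by
      field_simp; ring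
    have e2 : (n + 1) * (V + n / (n + 1) * (u - c) ^ 2) = (n + 1) * V + n * (u - c) ^ 2 := by
      field_simp
    rw [← e1, ← e2]
    linear_combination (n + 1) * h

end Alg

theorem natpoly_ne {a : ℕ} (h : 0 < a) : (a : ℂ) ≠ 0 := by exact_mod_cast h.ne'

/-- no point of the first kind together with a point of the third kind -/
theorem no_mixed {k : ℕ} {V x y : ℂ} (hV : V ≠ 0)
    (hx : ((k : ℂ) + 3) * V + (k + 2) * x ^ 2 = 0)
    (hy : ((k : ℂ) + 2) * (k + 1) * y ^ 2 = 3 * (k + 3) * V)
    (h : ((k : ℂ) + 4) * V + (k + 3) * (y ^ 2 + x ^ 2) - 2 * y * x = 0 ∨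
      (((k : ℂ) + 3) * x = y ∨
        ((k : ℂ) + 2) * ((k + 3) * x - y) ^ 2 =
          3 * (k + 4) * ((k + 3) * V + (k + 2) * y ^ 2))) : False := by
  have k1 : (k : ℂ) + 1 ≠ 0 := by exact_mod_cast Nat.succ_ne_zero k
  have k2 : (k : ℂ) + 2 ≠ 0 := by exact_mod_cast Nat.succ_ne_zero (k + 1)
  have k3 : (k : ℂ) + 3 ≠ 0 := by exact_mod_cast Nat.succ_ne_zero (k + 2)
  have hP : ((k : ℂ) + 2) ^ 2 * (k + 1) * (x * y) ^ 2 = -3 * (k + 3) ^ 2 * V ^ 2 := by
    linear_combination ((k : ℂ) + 2) * (k + 1) * y ^ 2 * hx - (k + 3) * V * hy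
  rcases h with h | h | h
  · have h1 : 2 * ((k : ℂ) + 2) * (k + 1) * (x * y) =
        (3 * (k + 2) ^ 2 + 5 * (k + 2) + 4) * V := by
      linear_combination (-((k : ℂ) + 2) * (k + 1)) * h + (k + 3) * (k + 1) * hx + (k + 3) * hy
    have h2 : ((((3 * (k + 2) ^ 2 + 5 * (k + 2) + 4) ^ 2 + 12 * (k + 1) * (k + 3) ^ 2 : ℕ)) : ℂ) *
        V ^ 2 = 0 := by
      push_cast
      linear_combination (-(2 * ((k : ℂ) + 2) * (k + 1) * (x * y) +
        (3 * (k + 2) ^ 2 + 5 * (k + 2) + 4) * V)) * h1 + 4 * (k + 1) * hP
    rcases mul_eq_zero.mp h2 with h3 | h3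
    · exact natpoly_ne (by positivity) h3
    · exact hV (pow_eq_zero_iff (two_ne_zero) |>.mp h3)
  · have h2 : ((((k + 3) ^ 2 * (k + 1) + 3 : ℕ)) : ℂ) * V = 0 := by
      have h4 : (k + 3 : ℂ) * (((((k + 3) ^ 2 * (k + 1) + 3 : ℕ)) : ℂ) * V) = 0 := by
        push_cast
        rw [← h] at hy
        linear_combination ((k : ℂ) + 3) ^ 2 * (k + 1) * hx - hy
      rcases mul_eq_zero.mp h4 with h5 | h5
      · exact absurd h5 k3
      · exact h5
    rcases mul_eq_zero.mp h2 with h3 | h3
    · exact natpoly_ne (by positivity) h3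
    · exact hV h3
  · have h1 : 2 * ((k : ℂ) + 2) * (k + 1) * (x * y) =
        -(((k : ℂ) + 2) ^ 3 + 4 * (k + 2) ^ 2 + 11 * (k + 2) + 8) * V := by
      apply mul_left_cancel₀ k3
      linear_combination (-((k : ℂ) + 1)) * h + (k + 1) * (k + 3) ^ 2 * hx
        - (3 * (k + 2) + 5) * hy
    have h2 : (((((k + 2) ^ 3 + 4 * (k + 2) ^ 2 + 11 * (k + 2) + 8) ^ 2 +
        12 * (k + 1) * (k + 3) ^ 2 : ℕ)) : ℂ) * V ^ 2 = 0 := by
      push_cast
      linear_combination (-(2 * ((k : ℂ) + 2) * (k + 1) * (x * y) -
        (((k : ℂ) + 2) ^ 3 + 4 * (k + 2) ^ 2 + 11 * (k + 2) + 8) * V)) * h1 + 4 * (k + 1) * hP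
    rcases mul_eq_zero.mp h2 with h3 | h3
    · exact natpoly_ne (by positivity) h3
    · exact hV (pow_eq_zero_iff (two_ne_zero) |>.mp h3)

/-- `t ^ 3 = l t` has at most three solutions -/
theorem cubic_card {W : Finset ℂ} (hW : W.card = 4) {c l m : ℂ} (hm : m ≠ 0)
    (h : ∀ u ∈ W, (u - c) * (m * (u - c) ^ 2 - l) = 0) : False := by
  obtain ⟨u, hu, huc⟩ : ∃ u ∈ W, u ≠ c := by
    by_contra hcon
    push Not at hcon
    have : W ⊆ {c} := fun u hu => Finset.mem_singleton.mpr (hcon u hu)
    have := Finset.card_le_card this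
    simp [hW] at this
  have hul : m * (u - c) ^ 2 = l := by
    rcases mul_eq_zero.mp (h u hu) with h1 | h1
    · exact absurd (by linear_combination h1) huc
    · linear_combination h1
  have hsub : W ⊆ {c, u, 2 * c - u} := by
    intro w hw
    simp only [Finset.mem_insert, Finset.mem_singleton]
    rcases mul_eq_zero.mp (h w hw) with h1 | h1
    · left; linear_combination h1
    · right
      have h2 : m * ((w - u) * (w - (2 * c - u))) = 0 := by
        linear_combination h1 - hul
      rcases mul_eq_zero.mp h2 with h3 | h3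
      · exact absurd h3 hm
      rcases mul_eq_zero.mp h3 with h4 | h4
      · left; linear_combination h4
      · right; linear_combination h4
  have := (Finset.card_le_card hsub).trans Finset.card_le_three
  omega

theorem three_pairs {n x y z : ℂ} (hn3 : n + 3 ≠ 0) (hxy : x ≠ y) (hyz : y ≠ z)
    (hxz : x ≠ z)
    (h1 : (n + 1) * (x ^ 2 + y ^ 2) - 2 * x * y = 0)
    (h2 : (n + 1) * (y ^ 2 + z ^ 2) - 2 * y * z = 0)
    (h3 : (n + 1) * (x ^ 2 + z ^ 2) - 2 * x * z = 0) : False := by
  have e1 : (n + 1) * (y + z) = 2 * x := by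
    have : (y - z) * ((n + 1) * (y + z) - 2 * x) = 0 := by linear_combination h1 - h3
    rcases mul_eq_zero.mp this with h | h
    · exact absurd (by linear_combination h) hyz
    · linear_combination h
  have e2 : (n + 1) * (x + z) = 2 * y := by
    have : (x - z) * ((n + 1) * (x + z) - 2 * y) = 0 := by linear_combination h1 - h2
    rcases mul_eq_zero.mp this with h | h
    · exact absurd (by linear_combination h) hxz
    · linear_combination h
  have : (n + 3) * (x - y) = 0 := by linear_combination e2 - e1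
  rcases mul_eq_zero.mp this with h | h
  · exact hn3 h
  · exact hxy (by linear_combination h)

theorem no_ht_pair {k : ℕ} {x y : ℂ} (hx : x ≠ 0) (hy : y ≠ 0) (hxy : x ≠ y)
    (h1 : ((k : ℂ) + 3) * y = x ∨
      ((k : ℂ) + 2) * ((k + 3) * y - x) ^ 2 = 3 * (k + 4) * ((k + 2) * x ^ 2))
    (h2 : ((k : ℂ) + 3) * x = y ∨
      ((k : ℂ) + 2) * ((k + 3) * x - y) ^ 2 = 3 * (k + 4) * ((k + 2) * y ^ 2)) : False := by
  have k2 : (k : ℂ) + 2 ≠ 0 := by exact_mod_cast Nat.succ_ne_zero (k + 1)
  have aux : ∀ {x y : ℂ}, x ≠ 0 → y ≠ 0 → ((k : ℂ) + 3) * y = x →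
      ((k : ℂ) + 3) * x = y ∨
      ((k : ℂ) + 2) * ((k + 3) * x - y) ^ 2 = 3 * (k + 4) * ((k + 2) * y ^ 2) → False := by
    intro x y hx hy h1 h2
    rcases h2 with h2 | h2
    · have h3 : ((((k + 2) * (k + 4) : ℕ)) : ℂ) * y = 0 := by
        push_cast; linear_combination (k + 3) * h1 + h2
      rcases mul_eq_zero.mp h3 with h | h
      · exact natpoly_ne (by positivity) h
      · exact hy h
    · have h3 : ((((k + 2) * ((k + 4) * (k ^ 3 + 8 * k ^ 2 + 20 * k + 13)) : ℕ)) : ℂ) * y ^ 2 = 0 := by
        rw [← h1] at h2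
        push_cast; linear_combination h2
      rcases mul_eq_zero.mp h3 with h | h
      · exact natpoly_ne (by positivity) h
      · exact hy (pow_eq_zero_iff (two_ne_zero) |>.mp h)
  rcases h1 with h1 | h1
  · exact aux hx hy h1 h2
  · rcases h2 with h2 | h2
    · exact aux hy hx h2 (Or.inr h1)
    · have h3 : ((((k + 2) * ((k + 2) * (k + 4) + 3 * (k + 4)) : ℕ)) : ℂ) * ((x - y) * (x + y)) = 0 := by
        push_cast; linear_combination h2 - h1
      rcases mul_eq_zero.mp h3 with h | h
      · exact natpoly_ne (by positivity) h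
      · rcases mul_eq_zero.mp h with h4 | h4
        · exact hxy (by linear_combination h4)
        · have h5 : y = -x := by linear_combination h4
          rw [h5] at h2
          have h6 : ((((k + 2) * ((k + 4) * (k + 1)) : ℕ)) : ℂ) * x ^ 2 = 0 := by
            push_cast; linear_combination h2
          rcases mul_eq_zero.mp h6 with h | h
          · exact natpoly_ne (by positivity) h
          · exact hx (pow_eq_zero_iff (two_ne_zero) |>.mp h)

theorem exists_three {W : Finset ℂ} (hW : 4 ≤ W.card) (c : ℂ) :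
    ∃ x y z, x ∈ W ∧ y ∈ W ∧ z ∈ W ∧ x ≠ c ∧ y ≠ c ∧ z ≠ c ∧ x ≠ y ∧ x ≠ z ∧ y ≠ z := by
  have h : 2 < (W.erase c).card := by
    have := Finset.pred_card_le_card_erase (s := W) (a := c)
    omega
  obtain ⟨x, hx, y, hy, z, hz, h1, h2, h3⟩ := Finset.two_lt_card.mp h
  rw [Finset.mem_erase] at hx hy hz
  exact ⟨x, y, z, hx.2, hy.2, hz.2, hx.1, hy.1, hz.1, h1, h2, h3⟩

theorem finite_ge_two {Q W : Finset ℂ} (hd : ∀ u ∈ W, u ∉ Q) (hW : W.card = 4)
    (hQ : 2 ≤ Q.card) (h0 : Good Q) (h1 : ∀ u ∈ W, Good (insert u Q))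
    (h2 : ∀ u ∈ W, ∀ w ∈ W, u ≠ w → Good (insert w (insert u Q))) : False := by
  obtain ⟨k, hk⟩ : ∃ k, Q.card = k + 2 := ⟨Q.card - 2, by omega⟩
  have k1 : (k : ℂ) + 1 ≠ 0 := by exact_mod_cast Nat.succ_ne_zero k
  have k2 : (k : ℂ) + 2 ≠ 0 := by exact_mod_cast Nat.succ_ne_zero (k + 1)
  have k3 : (k : ℂ) + 3 ≠ 0 := by exact_mod_cast Nat.succ_ne_zero (k + 2)
  have hn : (Q.card : ℂ) = (k : ℂ) + 2 := by rw [hk]; push_cast; ring
  set c : ℂ := (∑ z ∈ Q, z) / ((k : ℂ) + 2) with hc
  set V : ℂ := ∑ z ∈ Q, z ^ 2 - ((k : ℂ) + 2) * c ^ 2 with hVdef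
  have hS1 : ∑ z ∈ Q, z = ((k : ℂ) + 2) * c := by rw [hc]; field_simp
  have hS2 : ∑ z ∈ Q, z ^ 2 = V + ((k : ℂ) + 2) * c ^ 2 := by rw [hVdef]; ring
  by_cases hV : V = 0
  · -- second moment zero
    obtain ⟨x, y, z, hx, hy, hz, hxc, hyc, hzc, hxy, hxz, hyz⟩ := exists_three (by omega : 4 ≤ W.card) c
    have hHT : ∀ u ∈ W, u ≠ c → HT (insert u Q) := by
      intro u hu huc
      rcases single_formula hn hS1 hS2 (hd u hu) (h1 u hu) with h | h
      · exfalso
        rw [hV] at h
        have : ((k : ℂ) + 2) * (u - c) ^ 2 = 0 := by linear_combination h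
        rcases mul_eq_zero.mp this with h | h
        · exact k2 h
        · exact huc (by linear_combination (pow_eq_zero_iff (two_ne_zero) |>.mp h))
      · exact h
    have hpair : ∀ u ∈ W, ∀ w ∈ W, u ≠ c → w ≠ c → u ≠ w →
        (((k : ℂ) + 2) + 1) * ((u - c) ^ 2 + (w - c) ^ 2) - 2 * (u - c) * (w - c) = 0 := by
      intro u hu w hw huc hwc huw
      have hw' : w ∉ insert u Q := by
        rw [Finset.mem_insert]; push Not; exact ⟨huw.symm, hd w hw⟩
      have hu' : u ∉ insert w Q := by
        rw [Finset.mem_insert]; push Not; exact ⟨huw, hd u hu⟩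
      rcases pair_formula hn hS1 hS2 (hd u hu) hw' (h2 u hu w hw huw) with h | h
      · rw [hV] at h
        linear_combination h
      · exfalso
        have hcomm : insert w (insert u Q) = insert u (insert w Q) := Finset.insert_comm _ _ _
        have p1 := pairHT hn hS1 hS2 (hd u hu) hw' (hHT u hu huc) h
        have p2 := pairHT hn hS1 hS2 (hd w hw) hu' (hHT w hw hwc) (by rw [← hcomm]; exact h)
        rw [hV] at p1 p2
        apply no_ht_pair (k := k) (x := u - c) (y := w - c) (sub_ne_zero.mpr huc)
          (sub_ne_zero.mpr hwc) (fun h => huw (by linear_combination h))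
        · rcases p1 with p | p
          · left; linear_combination p
          · right; linear_combination p
        · rcases p2 with p | p
          · left; linear_combination p
          · right; linear_combination p
    have hn3 : ((k : ℂ) + 2) + 3 ≠ 0 := by exact_mod_cast Nat.succ_ne_zero (k + 4)
    exact three_pairs hn3 (fun h => hxy (by linear_combination h))
      (fun h => hyz (by linear_combination h)) (fun h => hxz (by linear_combination h))
      (hpair x hx y hy hxc hyc hxy) (hpair y hy z hz hyc hzc hyz) (hpair x hx z hz hxc hzc hxz)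
  · -- second moment nonzero
    have hQHT : HT Q := by
      rcases h0 with h | h
      · exfalso
        apply hV
        rw [hS1, hS2, hn] at h
        have : ((k : ℂ) + 2) * V = 0 := by linear_combination h
        rcases mul_eq_zero.mp this with h | h
        · exact absurd h k2
        · exact h
      · exact h
    have hsing : ∀ u ∈ W, ((k : ℂ) + 3) * V + (k + 2) * (u - c) ^ 2 = 0 ∨ u = c ∨
        (HT (insert u Q) ∧ ((k : ℂ) + 2) * (k + 1) * (u - c) ^ 2 = 3 * (k + 3) * V) := by
      intro u hu
      rcases single_formula hn hS1 hS2 (hd u hu) (h1 u hu) with h | h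
      · left; linear_combination h
      · rcases ap_formula (hd u hu) hQHT h hn k2 hS1 hS2 with h3 | h3
        · exact Or.inr (Or.inl h3)
        · refine Or.inr (Or.inr ⟨h, ?_⟩)
          linear_combination h3
    by_cases hex : ∃ w ∈ W, HT (insert w Q) ∧
        ((k : ℂ) + 2) * (k + 1) * (w - c) ^ 2 = 3 * (k + 3) * V
    · obtain ⟨w, hw, hwHT, hwf⟩ := hex
      have hall : ∀ u ∈ W, (u - c) * (((k : ℂ) + 2) * (k + 1) * (u - c) ^ 2 - 3 * (k + 3) * V) = 0 := by
        intro u hu
        rcases hsing u hu with h | h | h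
        · exfalso
          have huw : w ≠ u := by
            rintro rfl
            have : ((((k + 3) * (k + 1) + 3 * (k + 3) : ℕ)) : ℂ) * V = 0 := by
              push_cast; linear_combination (k + 1) * h - hwf
            rcases mul_eq_zero.mp this with h | h
            · exact natpoly_ne (by positivity) h
            · exact hV h
          have hu' : u ∉ insert w Q := by
            rw [Finset.mem_insert]; push Not; exact ⟨huw.symm, hd u hu⟩
          apply no_mixed (k := k) hV h hwf
          rcases pair_formula hn hS1 hS2 (hd w hw) hu' (h2 w hw u hu huw) with h3 | h3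
          · left; linear_combination h3
          · right
            rcases pairHT hn hS1 hS2 (hd w hw) hu' hwHT h3 with p | p
            · left; linear_combination p
            · right; linear_combination p
        · rw [h]; ring
        · rw [h.2]; ring
      exact cubic_card hW (mul_ne_zero k2 k1) hall
    · have hall : ∀ u ∈ W, (u - c) * (((k : ℂ) + 2) * (u - c) ^ 2 - (-((k + 3) * V))) = 0 := by
        intro u hu
        rcases hsing u hu with h | h | h
        · linear_combination (u - c) * h
        · rw [h]; ring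
        · exact absurd ⟨u, hu, h⟩ hex
      exact cubic_card hW k2 hall

/-- relation between two points completing a pair to a symmetric triple -/
def Rel (x y : ℂ) : Prop := x ^ 2 + y ^ 2 = x * y ∨ x = 2 * y ∨ y = 2 * x ∨ y = -x

theorem no_three {x y z : ℂ} (hx : x ≠ 0) (hy : y ≠ 0) (hz : z ≠ 0) (hxy : x ≠ y) (hxz : x ≠ z)
    (hyz : y ≠ z) (h1 : Rel x y) (h2 : Rel y z) (h3 : Rel x z) : False := by
  have hx2 : x ^ 2 ≠ 0 := pow_ne_zero _ hx
  -- two triangles sharing the middle point
  have A : ∀ {x y z : ℂ}, x ≠ 0 → z ≠ 0 → x ≠ z → x ^ 2 + y ^ 2 = x * y → y ^ 2 + z ^ 2 = y * z →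
      Rel x z → False := by
    intro x y z hx hz hxz h1 h2 h3
    have e : x + z = y := by
      have : (x - z) * (x + z - y) = 0 := by linear_combination h1 - h2
      rcases mul_eq_zero.mp this with h | h
      · exact absurd (by linear_combination h) hxz
      · linear_combination h
    subst e
    have e2 : x ^ 2 + x * z + z ^ 2 = 0 := by linear_combination h1
    rcases h3 with h | h | h | h
    · have : x * z = 0 := by linear_combination (e2 - h) / 2
      rcases mul_eq_zero.mp this with h | h
      · exact hx h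
      · exact hz h
    · rw [h] at e2
      have : z ^ 2 = 0 := by linear_combination e2 / 7
      exact hz (pow_eq_zero_iff (two_ne_zero) |>.mp this)
    · rw [h] at e2
      have : x ^ 2 = 0 := by linear_combination e2 / 7
      exact hx (pow_eq_zero_iff (two_ne_zero) |>.mp this)
    · rw [h] at e2
      have : x ^ 2 = 0 := by linear_combination e2
      exact hx (pow_eq_zero_iff (two_ne_zero) |>.mp this)
  have B : ∀ {x y z : ℂ}, x ≠ 0 → z ≠ 0 → x ≠ z → (x = 2 * y ∨ y = 2 * x ∨ y = -x) →
      (y = 2 * z ∨ z = 2 * y ∨ z = -y) → Rel x z → False := by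
    intro x y z hx hz hxz h1 h2 h3
    obtain ⟨a, b, ha, hb, hab⟩ : ∃ a b : ℤ, b ≠ 0 ∧ (a : ℂ) * x = b * y ∧
        ((a, b) = (1, 2) ∨ (a, b) = (2, 1) ∨ (a, b) = (-1, 1)) := by
      rcases h1 with h | h | h
      · exact ⟨1, 2, by norm_num, by push_cast; linear_combination h, by simp⟩
      · exact ⟨2, 1, by norm_num, by push_cast; linear_combination -h, by simp⟩
      · exact ⟨-1, 1, by norm_num, by push_cast; linear_combination -h, by simp⟩
    have hz2 : z ^ 2 ≠ 0 := pow_ne_zero _ hz
    have key : ∀ r : ℂ, x = r * z → r ≠ 1 → r ^ 2 - r + 1 ≠ 0 → r ≠ 2 → r * 2 ≠ 1 → r ≠ -1 →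
        False := by
      intro r hr r1 r2 r3 r4 r5
      rw [hr] at h3
      rcases h3 with h | h | h | h
      · have : (r ^ 2 - r + 1) * z ^ 2 = 0 := by linear_combination h
        rcases mul_eq_zero.mp this with h | h
        · exact r2 h
        · exact hz2 h
      · have : (r - 2) * z = 0 := by linear_combination h
        rcases mul_eq_zero.mp this with h | h
        · exact r3 (by linear_combination h)
        · exact hz h
      · have : (r * 2 - 1) * z = 0 := by linear_combination -h
        rcases mul_eq_zero.mp this with h | h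
        · exact r4 (by linear_combination h)
        · exact hz h
      · have : (r + 1) * z = 0 := by linear_combination h
        rcases mul_eq_zero.mp this with h | h
        · exact r5 (by linear_combination h)
        · exact hz h
    rcases h1 with h1 | h1 | h1 <;> rcases h2 with h2 | h2 | h2
    · exact key 4 (by rw [h1, h2]; ring) (by norm_num) (by norm_num) (by norm_num) (by norm_num)
        (by norm_num)
    · exact hxz (by rw [h1, h2])
    · exact key (-2) (by rw [h1, h2]; ring) (by norm_num) (by norm_num) (by norm_num)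
        (by norm_num) (by norm_num)
    · exact hxz (by linear_combination (-h1 + h2) / 2)
    · exact key (1 / 4) (by linear_combination (-h1) / 2 - h2 / 4) (by norm_num) (by norm_num)
        (by norm_num) (by norm_num) (by norm_num)
    · exact key (-(1 / 2)) (by linear_combination (-h1) / 2 + h2 / 2) (by norm_num) (by norm_num)
        (by norm_num) (by norm_num) (by norm_num)
    · exact key (-2) (by linear_combination h1 - h2) (by norm_num) (by norm_num) (by norm_num)
        (by norm_num) (by norm_num)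
    · exact key (-(1 / 2)) (by linear_combination h1 + h2 / 2) (by norm_num) (by norm_num)
        (by norm_num) (by norm_num) (by norm_num)
    · exact hxz (by linear_combination h1 - h2)
  have symm : ∀ {a b : ℂ}, Rel a b → Rel b a := by
    intro a b h
    rcases h with h | h | h | h
    · left; linear_combination h
    · right; right; left; exact h
    · right; left; exact h
    · right; right; right; linear_combination h
  have symm2 : ∀ {a b : ℂ}, (a = 2 * b ∨ b = 2 * a ∨ b = -a) → (b = 2 * a ∨ a = 2 * b ∨ a = -b) := by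
    intro a b h
    rcases h with h | h | h
    · right; left; exact h
    · left; exact h
    · right; right; linear_combination h
  rcases h1 with h1 | h1 <;> rcases h2 with h2 | h2
  · exact A hx hz hxz h1 h2 h3
  · rcases h3 with h3 | h3
    · -- xy triangle, xz triangle
      exact A (y := x) hy hz hyz (by linear_combination h1) h3 (Or.inr h2)
    · exact B (y := z) hy hx hxy.symm h2 (symm2 h3) (symm (Or.inl h1))
  · rcases h3 with h3 | h3
    · exact A (y := z) hx hy hxy h3 (by linear_combination h2) (Or.inr h1)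
    · exact B (y := x) hy hz hyz (symm2 h1) h3 (Or.inl h2)
  · exact B hx hz hxz h1 h2 h3

theorem rel_of_good {q u w : ℂ} (hu : u ≠ q) (hw : w ≠ q) (huw : u ≠ w)
    (h : Good (insert w (insert u {q}))) : Rel (u - q) (w - q) := by
  have hn : ((({q} : Finset ℂ).card : ℕ) : ℂ) = 1 := by simp
  have hS1 : ∑ z ∈ ({q} : Finset ℂ), z = 1 * q := by simp
  have hS2 : ∑ z ∈ ({q} : Finset ℂ), z ^ 2 = 0 + 1 * q ^ 2 := by simp
  have hu' : u ∉ ({q} : Finset ℂ) := by simpa using hu
  have hw' : w ∉ insert u ({q} : Finset ℂ) := by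
    simp only [Finset.mem_insert, Finset.mem_singleton]; push Not; exact ⟨huw.symm, hw⟩
  have hHT : HT (insert u ({q} : Finset ℂ)) := by
    refine ⟨(u + q) / 2, ?_⟩
    intro z hz
    simp only [Finset.mem_insert, Finset.mem_singleton] at hz ⊢
    rcases hz with rfl | rfl
    · right; ring
    · left; ring
  rcases pair_formula hn hS1 hS2 hu' hw' h with h3 | h3
  · left; linear_combination h3 / 2
  · rcases pairHT hn hS1 hS2 hu' hw' hHT h3 with p | p
    · right; left; linear_combination -p
    · have : (w - q - 2 * (u - q)) * (w - q + (u - q)) = 0 := by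
        linear_combination p / 4
      rcases mul_eq_zero.mp this with h | h
      · right; right; left; linear_combination h
      · right; right; right; linear_combination h

/-- The finite case. -/
theorem finite_case {Q W : Finset ℂ} (hd : Disjoint Q W) (hW : W.card = 4)
    (h : ∀ F ⊆ W, (Q ∪ F).Nonempty → Good (Q ∪ F)) : False := by
  have hd' : ∀ u ∈ W, u ∉ Q := fun u hu hq => (Finset.disjoint_left.mp hd) hq hu
  by_cases hQ : 2 ≤ Q.card
  · have hQne : Q.Nonempty := Finset.card_pos.mp (by omega)
    apply finite_ge_two hd' hW hQ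
    · have := h ∅ (Finset.empty_subset _)
      rw [Finset.union_empty] at this
      exact this hQne
    · intro u hu
      have := h {u} (Finset.singleton_subset_iff.mpr hu) (Finset.Nonempty.inl hQne)
      rwa [Finset.union_comm, ← Finset.insert_eq] at this
    · intro u hu w hw _
      have := h {w, u} (Finset.insert_subset hw (Finset.singleton_subset_iff.mpr hu))
        (Finset.Nonempty.inl hQne)
      have e : Q ∪ {w, u} = insert w (insert u Q) := by
        ext z; simp only [Finset.mem_union, Finset.mem_insert, Finset.mem_singleton]; tauto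
      rwa [e] at this
  · obtain ⟨q, hq, hqg⟩ : ∃ q, (Q ⊆ {q}) ∧ ∀ u ∈ W, ∀ w ∈ W, u ≠ q → w ≠ q → u ≠ w →
        Good (insert w (insert u {q})) := by
      rcases Nat.lt_or_ge Q.card 1 with h1 | h1
      · have hQ0 : Q = ∅ := Finset.card_eq_zero.mp (by omega)
        obtain ⟨q, hqW⟩ : W.Nonempty := Finset.card_pos.mp (by omega)
        refine ⟨q, by rw [hQ0]; exact Finset.empty_subset _, ?_⟩
        intro u hu w hw _ _ _
        have := h {w, u, q} (by
          intro z hz
          simp only [Finset.mem_insert, Finset.mem_singleton] at hz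
          rcases hz with rfl | rfl | rfl <;> assumption)
          (by rw [hQ0, Finset.empty_union]; exact ⟨w, by simp⟩)
        rwa [hQ0, Finset.empty_union] at this
      · obtain ⟨q, hq⟩ := Finset.card_eq_one.mp (by omega : Q.card = 1)
        refine ⟨q, by rw [hq], ?_⟩
        intro u hu w hw _ _ _
        have := h {w, u} (Finset.insert_subset hw (Finset.singleton_subset_iff.mpr hu))
          (by rw [hq]; exact ⟨q, by simp⟩)
        have e : Q ∪ {w, u} = insert w (insert u {q}) := by
          rw [hq]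
          ext z; simp only [Finset.mem_union, Finset.mem_insert, Finset.mem_singleton]; tauto
        rwa [e] at this
    obtain ⟨x, y, z, hx, hy, hz, hxc, hyc, hzc, hxy, hxz, hyz⟩ :=
      exists_three (by omega : 4 ≤ W.card) q
    exact no_three (sub_ne_zero.mpr hxc) (sub_ne_zero.mpr hyc) (sub_ne_zero.mpr hzc)
      (fun h => hxy (by linear_combination h)) (fun h => hxz (by linear_combination h))
      (fun h => hyz (by linear_combination h))
      (rel_of_good hxc hyc hxy (hqg x hx y hy hxc hyc hxy))
      (rel_of_good hyc hzc hyz (hqg y hy z hz hyc hzc hyz))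
      (rel_of_good hxc hzc hxz (hqg x hx z hz hxc hzc hxz))

end Pool.Agent.Q19.ExtB
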