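import Mathlib
import Pool.Agent.Q19.ExtA
import Pool.Agent.Q19.ExtB

/-!
# Four free points suffice for the orientation preserving isometries of the plane (helper19)
-/

namespace Pool.Agent.Q19.ExtC

open Pool.Agent.Q19.ExtA Pool.Agent.Q19.ExtB

/-- point mass modulo 2 -/
noncomputable def dl (x z : ℂ) : ZMod 2 := if z = x then 1 else 0

/-- indicator of a finite set modulo 2 -/
noncomputable def ind (F : Finset ℂ) (z : ℂ) : ZMod 2 := if z ∈ F then 1 else 0

theorem dl_self (x : ℂ) : dl x x = 1 := by simp [dl]

theorem dl_ne {x z : ℂ} (h : z ≠ x) : dl x z = 0 := by simp [dl, h]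

theorem dl_shift (x a z : ℂ) : dl x (z + a) = dl (x - a) z := by
  unfold dl
  by_cases h : z + a = x
  · rw [if_pos h, if_pos (by rw [← h]; ring)]
  · rw [if_neg h, if_neg (fun h' => h (by rw [h']; ring))]

theorem dl_refl (x c z : ℂ) : dl x (2 * c - z) = dl (2 * c - x) z := by
  unfold dl
  by_cases h : 2 * c - z = x
  · rw [if_pos h, if_pos (by rw [← h]; ring)]
  · rw [if_neg h, if_neg (fun h' => h (by rw [h']; ring))]

theorem dl_support (x : ℂ) : (Function.support (dl x)).Finite := by
  refine (Set.finite_singleton x).subset ?_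
  intro z hz
  by_contra h
  exact hz (dl_ne (by simpa using h))

theorem ind_support (F : Finset ℂ) : (Function.support (ind F)).Finite := by
  refine F.finite_toSet.subset ?_
  intro z hz
  by_contra h
  apply hz
  simp only [ind]
  rw [if_neg (by simpa using h)]

theorem support_add_finite {f g : ℂ → ZMod 2} (hf : f.support.Finite) (hg : g.support.Finite) :
    (Function.support (fun z => f z + g z)).Finite := by
  refine (hf.union hg).subset ?_
  intro z hz
  by_contra hcon
  simp only [Set.mem_union, Function.mem_support, not_or, not_not] at hcon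
  apply hz
  simp only [hcon.1, hcon.2, add_zero]

theorem nearPer_add {s q : ℂ → ZMod 2} (h : NearPer s) (hq : q.support.Finite) :
    NearPer (fun z => s z + q z) := by
  obtain ⟨a, ha, p, r, hp, hr, hs⟩ := h
  exact ⟨a, ha, p, fun z => r z + q z, hp, support_add_finite hr hq,
    fun z => by simp only [hs]; ring⟩

theorem nearPer_of_add {s q : ℂ → ZMod 2} (h : NearPer (fun z => s z + q z))
    (hq : q.support.Finite) : NearPer s := by
  have := nearPer_add h hq
  have e : (fun z => s z + q z + q z) = s := by
    funext z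
    rw [add_assoc, zmod2_add_self, add_zero]
  rwa [e] at this

theorem near_of_sameorbit {s : ℂ → ZMod 2} {a x y : ℂ} (ha : a ≠ 0)
    (hM : ∀ z, s (z + a) = s z + dl x z + dl y z) (j : ℕ) (hy : y = x + j * a) : NearPer s := by
  set q : ℂ → ZMod 2 := fun z => ∑ i ∈ Finset.range j, dl (x + (i + 1 : ℕ) * a) z with hq
  have hqs : q.support.Finite := by
    refine ((Finset.range j).image (fun i : ℕ => x + (i + 1 : ℕ) * a)).finite_toSet.subset ?_
    intro z hz
    by_contra h
    apply hz
    simp only [hq]
    apply Finset.sum_eq_zero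
    intro i hi
    apply dl_ne
    rintro rfl
    exact h (Finset.mem_coe.mpr (Finset.mem_image.mpr ⟨i, hi, rfl⟩))
  have htel : ∀ z, q (z + a) = q z + dl x z - dl y z := by
    intro z
    have e1 : q (z + a) = ∑ i ∈ Finset.range j, dl (x + (i : ℕ) * a) z := by
      simp only [hq]
      apply Finset.sum_congr rfl
      intro i _
      rw [dl_shift]
      congr 1; push_cast; ring
    have e2 := Finset.sum_range_sub' (fun i : ℕ => dl (x + (i : ℕ) * a) z) j
    rw [Finset.sum_sub_distrib] at e2
    rw [e1, hy]
    simp only [Nat.cast_zero, zero_mul, add_zero] at e2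
    linear_combination e2
  refine ⟨a, ha, fun z => s z + q z, q, ?_, hqs, ?_⟩
  · intro z
    simp only
    rw [hM, htel]
    linear_combination zmod2_add_self (dl x z)
  · intro z
    rw [add_assoc, zmod2_add_self, add_zero]

/-- the basic step: two half-turn symmetric colourings differing in one point -/
theorem step_pair {s : ℂ → ZMod 2} {c c' w : ℂ} (hs : ∀ z, s (2 * c - z) = s z)
    (hw : ∀ z, s (2 * c' - z) + dl w (2 * c' - z) = s z + dl w z) (hNP : ¬ NearPer s) :
    w = c ∨ (2 * (c - c') ≠ 0 ∧
      (∀ z, s (z + 2 * (c - c')) = s z + dl w z + dl (2 * c' - w) z) ∧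
      ∀ j : ℤ, w - (2 * c' - w) ≠ j * (2 * (c - c'))) := by
  set a : ℂ := 2 * (c - c') with ha
  have hM : ∀ z, s (z + a) = s z + dl w z + dl (2 * c' - w) z := by
    intro z
    have h1 := hw z
    have h2 := hs (2 * c' - z)
    have e : 2 * c - (2 * c' - z) = z + a := by rw [ha]; ring
    rw [e] at h2
    rw [dl_refl] at h1
    rw [h2]
    linear_combination h1 - zmod2_add_self (dl (2 * c' - w) z)
  by_cases hwc : w = c'
  · left
    have hM' : ∀ z, s (z + a) = s z := by
      intro z
      rw [hM, ← hwc]
      have : 2 * w - w = w := by ring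
      rw [this]
      linear_combination zmod2_add_self (dl w z)
    by_contra hne
    apply hNP
    refine ⟨a, ?_, s, fun _ => 0, hM', by simp, by simp⟩
    rw [ha, hwc.symm]
    intro h
    apply hne
    linear_combination -h / 2
  · right
    have hww : w ≠ 2 * c' - w := by
      intro h; apply hwc; linear_combination h / 2
    have ha0 : a ≠ 0 := by
      intro h
      have := hM w
      rw [h, add_zero, dl_self, dl_ne hww, add_zero] at this
      have h1 : (1 : ZMod 2) = 0 := by linear_combination -this
      exact one_ne_zero h1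
    refine ⟨ha0, hM, ?_⟩
    intro j hj
    apply hNP
    rcases le_or_gt 0 j with hj0 | hj0
    · obtain ⟨n, rfl⟩ := Int.eq_ofNat_of_zero_le hj0
      exact near_of_sameorbit ha0 (x := 2 * c' - w) (y := w)
        (fun z => by rw [hM]; ring) n (by push_cast at hj; linear_combination hj)
    · obtain ⟨n, hn⟩ := Int.eq_ofNat_of_zero_le (by omega : 0 ≤ -j)
      have hj' : (j : ℂ) = -(n : ℂ) := by
        have : j = -(n : ℤ) := by omega
        rw [this]; push_cast; ring
      exact near_of_sameorbit ha0 (x := w) (y := 2 * c' - w) hM n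
        (by rw [hj'] at hj; linear_combination -hj)

theorem mult_step {s : ℂ → ZMod 2} {a x y : ℂ}
    (hM : ∀ z, s (z + a) = s z + dl x z + dl y z) (k : ℕ) (z : ℂ) :
    s (z + k * a) = s z + ∑ j ∈ Finset.range k, dl (x - j * a) z +
      ∑ j ∈ Finset.range k, dl (y - j * a) z := by
  induction k with
  | zero => simp
  | succ n ih =>
    have e : z + ((n + 1 : ℕ) : ℂ) * a = (z + n * a) + a := by push_cast; ring
    rw [e, hM, ih, Finset.sum_range_succ, Finset.sum_range_succ, dl_shift, dl_shift]
    ring

theorem change_card {s : ℂ → ZMod 2} {a x y : ℂ} (ha : a ≠ 0)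
    (hM : ∀ z, s (z + a) = s z + dl x z + dl y z) (hxy : ∀ j : ℤ, x - y ≠ j * a) (k : ℕ) :
    {z | s (z + k * a) ≠ s z}.ncard = 2 * k := by
  have hinj : ∀ x : ℂ, Function.Injective (fun j : ℕ => x - j * a) := by
    intro x i j hij
    simp only [sub_right_inj] at hij
    have := mul_right_cancel₀ ha hij
    exact_mod_cast this
  set I : ℂ → Finset ℂ := fun x => (Finset.range k).image (fun j : ℕ => x - j * a) with hI
  have hsum : ∀ x z, ∑ j ∈ Finset.range k, dl (x - j * a) z = if z ∈ I x then 1 else 0 := by
    intro x z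
    have : ∑ j ∈ Finset.range k, dl (x - j * a) z = ∑ y ∈ I x, dl y z := by
      rw [hI, Finset.sum_image (fun i _ j _ h => hinj x h)]
    rw [this]
    unfold dl
    rw [Finset.sum_ite_eq]
  have hdisj : Disjoint (I x) (I y) := by
    rw [Finset.disjoint_left]
    intro z hz1 hz2
    simp only [hI, Finset.mem_image] at hz1 hz2
    obtain ⟨i, _, hi⟩ := hz1
    obtain ⟨j, _, hj⟩ := hz2
    apply hxy (i - j)
    push_cast
    linear_combination hi - hj
  have hset : {z | s (z + k * a) ≠ s z} = ((I x ∪ I y : Finset ℂ) : Set ℂ) := by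
    ext z
    simp only [Set.mem_setOf_eq, Finset.coe_union, Set.mem_union, Finset.mem_coe]
    rw [mult_step hM, hsum, hsum]
    by_cases h1 : z ∈ I x
    · have h2 : z ∉ I y := Finset.disjoint_left.mp hdisj h1
      rw [if_pos h1, if_neg h2]
      simp [h1]
    · by_cases h2 : z ∈ I y
      · rw [if_neg h1, if_pos h2]
        simp [h2]
      · rw [if_neg h1, if_neg h2]
        simp [h1, h2]
  rw [hset, Set.ncard_coe_finset, Finset.card_union_of_disjoint hdisj]
  simp only [hI]
  rw [Finset.card_image_of_injective _ (hinj x), Finset.card_image_of_injective _ (hinj y),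
    Finset.card_range]
  ring

theorem change_finite {s : ℂ → ZMod 2} {a x y : ℂ}
    (hM : ∀ z, s (z + a) = s z + dl x z + dl y z) : {z | s (z + a) ≠ s z}.Finite := by
  refine ((Set.finite_singleton x).union (Set.finite_singleton y)).subset ?_
  intro z hz
  by_contra hcon
  simp only [Set.mem_union, Set.mem_singleton_iff, not_or] at hcon
  apply hz
  rw [hM, dl_ne hcon.1, dl_ne hcon.2]; ring

theorem neg_step {s : ℂ → ZMod 2} {a x y : ℂ}
    (hM : ∀ z, s (z + a) = s z + dl x z + dl y z) :
    ∀ z, s (z + -a) = s z + dl (x + a) z + dl (y + a) z := by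
  intro z
  have h := hM (z + -a)
  have e : z + -a + a = z := by ring
  rw [e, dl_shift, dl_shift, sub_neg_eq_add, sub_neg_eq_add] at h
  rw [h]
  linear_combination -zmod2_add_self (dl (x + a) z) - zmod2_add_self (dl (y + a) z)

theorem count {s : ℂ → ZMod 2} {a b x y u v : ℂ} (hNP : ¬ NearPer s) (ha : a ≠ 0) (hb : b ≠ 0)
    (hMa : ∀ z, s (z + a) = s z + dl x z + dl y z) (hxy : ∀ j : ℤ, x - y ≠ j * a)
    (hMb : ∀ z, s (z + b) = s z + dl u z + dl v z) (huv : ∀ j : ℤ, u - v ≠ j * b) :
    b = a ∨ b = -a := by
  have hex : ∃ k l : ℤ, (k : ℂ) * b = l * a ∧ k ≠ 0 := by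
    by_contra hcon
    push Not at hcon
    exact hNP (nearPer_of_two ha (change_finite hMa) (change_finite hMb)
      (fun k l h => hcon k l h))
  -- positive multiples
  have key : ∀ {a x y : ℂ}, a ≠ 0 → (∀ z, s (z + a) = s z + dl x z + dl y z) →
      (∀ j : ℤ, x - y ≠ j * a) → ∀ K L : ℕ, K ≠ 0 → (K : ℂ) * b = L * a → b = a := by
    intro a x y ha hMa hxy K L hK hKL
    have h1 := change_card ha hMa hxy L
    have h2 := change_card hb hMb huv K
    rw [hKL, h1] at h2
    have hLK : L = K := by omega
    rw [hLK] at hKL
    exact mul_left_cancel₀ (by exact_mod_cast hK) hKL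
  have keyneg : ∀ K L : ℕ, K ≠ 0 → (K : ℂ) * b = L * (-a) → b = -a := by
    intro K L hK hKL
    refine key (neg_ne_zero.mpr ha) (neg_step hMa) ?_ K L hK hKL
    intro j hj
    apply hxy (-j)
    push_cast
    linear_combination hj
  obtain ⟨k, l, hkl, hk⟩ := hex
  rcases le_or_gt 0 k with hk0 | hk0
  · obtain ⟨K, rfl⟩ := Int.eq_ofNat_of_zero_le hk0
    rcases le_or_gt 0 l with hl0 | hl0
    · obtain ⟨L, rfl⟩ := Int.eq_ofNat_of_zero_le hl0
      left
      exact key ha hMa hxy K L (by omega) (by exact_mod_cast hkl)
    · obtain ⟨L, hL⟩ := Int.eq_ofNat_of_zero_le (by omega : 0 ≤ -l)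
      right
      apply keyneg K L (by omega)
      have : (l : ℂ) = -(L : ℂ) := by
        have : l = -(L : ℤ) := by omega
        rw [this]; push_cast; ring
      rw [this] at hkl
      push_cast at hkl
      linear_combination hkl
  · obtain ⟨K, hK⟩ := Int.eq_ofNat_of_zero_le (by omega : 0 ≤ -k)
    have hkK : (k : ℂ) = -(K : ℂ) := by
      have : k = -(K : ℤ) := by omega
      rw [this]; push_cast; ring
    rcases le_or_gt 0 l with hl0 | hl0
    · obtain ⟨L, rfl⟩ := Int.eq_ofNat_of_zero_le hl0
      right
      apply keyneg K L (by omega)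
      rw [hkK] at hkl
      push_cast at hkl
      linear_combination -hkl
    · obtain ⟨L, hL⟩ := Int.eq_ofNat_of_zero_le (by omega : 0 ≤ -l)
      left
      apply key ha hMa hxy K L (by omega)
      have : (l : ℂ) = -(L : ℂ) := by
        have : l = -(L : ℤ) := by omega
        rw [this]; push_cast; ring
      rw [this, hkK] at hkl
      linear_combination -hkl

/-- where the free points can lie, seen from one symmetric colouring -/
theorem locate {s : ℂ → ZMod 2} {a x y c c' w : ℂ} (hNP : ¬ NearPer s) (ha : a ≠ 0)
    (hMa : ∀ z, s (z + a) = s z + dl x z + dl y z) (hxy : ∀ j : ℤ, x - y ≠ j * a)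
    (hs : ∀ z, s (2 * c - z) = s z)
    (hw : ∀ z, s (2 * c' - z) + dl w (2 * c' - z) = s z + dl w z) :
    w = c ∨ w = x ∨ w = y ∨ w = x + a ∨ w = y + a := by
  rcases step_pair hs hw hNP with h | ⟨hb, hMb, huv⟩
  · exact Or.inl h
  · right
    have hww : w ≠ 2 * c' - w := by
      intro h
      apply huv 0
      push_cast
      linear_combination h
    have aux : ∀ x y : ℂ, (∀ z, dl w z + dl (2 * c' - w) z = dl x z + dl y z) → w = x ∨ w = y := by
      intro x y h
      have h1 := h w
      rw [dl_self, dl_ne hww, add_zero] at h1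
      by_contra hcon
      push Not at hcon
      rw [dl_ne hcon.1, dl_ne hcon.2, add_zero] at h1
      exact one_ne_zero h1
    rcases count hNP ha hb hMa hxy hMb huv with h | h
    · rw [h] at hMb
      rcases aux x y (fun z => by linear_combination hMa z - hMb z) with h1 | h1
      · exact Or.inl h1
      · exact Or.inr (Or.inl h1)
    · rw [h] at hMb
      have hMn := neg_step hMa
      rcases aux (x + a) (y + a) (fun z => by linear_combination hMn z - hMb z) with h1 | h1
      · exact Or.inr (Or.inr (Or.inl h1))
      · exact Or.inr (Or.inr (Or.inr h1))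

theorem ind_empty (z : ℂ) : ind ∅ z = 0 := by simp [ind]

theorem ind_singleton (w z : ℂ) : ind {w} z = dl w z := by simp [ind, dl]

theorem ind_pair {x w : ℂ} (h : x ≠ w) (z : ℂ) : ind {x, w} z = dl x z + dl w z := by
  unfold ind dl
  by_cases h1 : z = x
  · subst h1
    simp [h]
  · by_cases h2 : z = w
    · subst h2
      simp [h1]
    · simp [h1, h2]

/-- The case of half-turns. -/
theorem half_turn_case {s : ℂ → ZMod 2} {W : Finset ℂ} (hW : W.card = 4) (hNP : ¬ NearPer s)
    (h : ∀ F ⊆ W, ∃ c, ∀ z, s (2 * c - z) + ind F (2 * c - z) = s z + ind F z) : False := by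
  obtain ⟨c0, hc0⟩ := h ∅ (Finset.empty_subset _)
  simp only [ind_empty, add_zero] at hc0
  have hsing : ∀ w ∈ W, ∃ c, ∀ z, s (2 * c - z) + dl w (2 * c - z) = s z + dl w z := by
    intro w hw
    obtain ⟨c, hc⟩ := h {w} (Finset.singleton_subset_iff.mpr hw)
    simp only [ind_singleton] at hc
    exact ⟨c, hc⟩
  obtain ⟨x, hx, hxc⟩ : ∃ x ∈ W, x ≠ c0 := by
    by_contra hcon
    push Not at hcon
    have : W ⊆ {c0} := fun u hu => Finset.mem_singleton.mpr (hcon u hu)
    have := Finset.card_le_card this
    simp [hW] at this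
  obtain ⟨c1, hc1⟩ := hsing x hx
  rcases step_pair hc0 hc1 hNP with h0 | ⟨ha, hM, hxy⟩
  · exact hxc h0
  obtain ⟨a, ha'⟩ : ∃ a, a = 2 * (c0 - c1) := ⟨_, rfl⟩
  obtain ⟨y, hy⟩ : ∃ y, y = 2 * c1 - x := ⟨_, rfl⟩
  rw [← ha'] at ha hM hxy
  rw [← hy] at hM hxy
  have first : ∀ w ∈ W, w = c0 ∨ w = x ∨ w = y ∨ w = x + a ∨ w = y + a := by
    intro w hw
    obtain ⟨c', hc'⟩ := hsing w hw
    exact locate hNP ha hM hxy hc0 hc'
  -- the second colouring
  set s1 : ℂ → ZMod 2 := fun z => s z + dl x z with hs1
  have hNP1 : ¬ NearPer s1 := fun hh => hNP (nearPer_of_add hh (dl_support x))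
  have hM1 : ∀ z, s1 (z + a) = s1 z + dl y z + dl (x - a) z := by
    intro z
    simp only [hs1]
    rw [hM, dl_shift]
  have hxy1 : ∀ j : ℤ, y - (x - a) ≠ j * a := by
    intro j hj
    apply hxy (1 - j)
    push_cast
    linear_combination -hj
  have second : ∀ w ∈ W, w = x ∨ (w = c1 ∨ w = y ∨ w = x - a ∨ w = y + a ∨ w = x - a + a) := by
    intro w hw
    by_cases hwx : w = x
    · exact Or.inl hwx
    right
    obtain ⟨c', hc'⟩ := h {x, w} (Finset.insert_subset hx (Finset.singleton_subset_iff.mpr hw))
    have hxw : x ≠ w := fun h => hwx h.symm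
    simp only [ind_pair hxw] at hc'
    exact locate hNP1 ha hM1 hxy1 hc1 (fun z => by simp only [hs1]; linear_combination hc' z)
  have hsub : W ⊆ {x, y, y + a} := by
    intro w hw
    simp only [Finset.mem_insert, Finset.mem_singleton]
    have hc0' : 2 * c0 = x + y + a := by rw [ha', hy]; ring
    have hc1' : 2 * c1 = x + y := by rw [hy]; ring
    rcases first w hw with h1 | h1 | h1 | h1 | h1
    · exfalso
      rcases second w hw with h2 | h2 | h2 | h2 | h2 | h2
      · exact hxy 1 (by push_cast; linear_combination 2 * h1 - 2 * h2 + hc0')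
      · exact ha (by linear_combination 2 * h2 - 2 * h1 - hc0' + hc1')
      · exact hxy (-1) (by push_cast; linear_combination 2 * h2 - 2 * h1 - hc0')
      · exact hxy 3 (by push_cast; linear_combination -2 * h2 + 2 * h1 + hc0')
      · exact hxy 1 (by push_cast; linear_combination 2 * h2 - 2 * h1 - hc0')
      · exact hxy 1 (by push_cast; linear_combination -2 * h2 + 2 * h1 + hc0')
    · exact Or.inl h1
    · exact Or.inr (Or.inl h1)
    · exfalso
      rcases second w hw with h2 | h2 | h2 | h2 | h2 | h2
      · exact ha (by linear_combination h2 - h1)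
      · exact hxy (-2) (by push_cast; linear_combination 2 * h2 - 2 * h1 + hc1')
      · exact hxy (-1) (by push_cast; linear_combination h2 - h1)
      · have : 2 * a = 0 := by linear_combination h2 - h1
        exact ha (by linear_combination this / 2)
      · exact hxy 0 (by push_cast; linear_combination h2 - h1)
      · exact ha (by linear_combination h2 - h1)
    · exact Or.inr (Or.inr h1)
  have := (Finset.card_le_card hsub).trans Finset.card_le_three
  omega

theorem ind_symmDiff_singleton (F : Finset ℂ) (w z : ℂ) :
    ind (if w ∈ F then F.erase w else insert w F) z = ind F z + dl w z := by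
  unfold ind dl
  by_cases hw : w ∈ F
  · rw [if_pos hw]
    by_cases hz : z = w
    · subst hz
      simp [hw]
      decide
    · simp [hz]
  · rw [if_neg hw]
    by_cases hz : z = w
    · subst hz
      simp [hw]
    · simp [hz]

/-- A rotation of order greater than two together with another centre gives near periodicity;
hence, if `s` is not nearly periodic, all symmetries are half-turns. -/
theorem only_half_turns {s : ℂ → ZMod 2} {W : Finset ℂ} (hW : W.card = 4) (hNP : ¬ NearPer s)
    (h : ∀ F ⊆ W, ∃ α β : ℂ, ‖α‖ = 1 ∧ ¬ (α = 1 ∧ β = 0) ∧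
      ∀ z, s (α * z + β) + ind F (α * z + β) = s z + ind F z)
    {F : Finset ℂ} (hF : F ⊆ W) {α β : ℂ} (hα : ‖α‖ = 1) (hne : ¬ (α = 1 ∧ β = 0))
    (hinv : ∀ z, s (α * z + β) + ind F (α * z + β) = s z + ind F z) : α = -1 := by
  by_contra hα1
  have notone : ∀ F ⊆ W, ∀ α β : ℂ, ¬ (α = 1 ∧ β = 0) →
      (∀ z, s (α * z + β) + ind F (α * z + β) = s z + ind F z) → α ≠ 1 := by
    intro F hF α β hne hinv hα
    apply hNP
    apply nearPer_of_add (q := ind F) _ (ind_support F)
    refine ⟨β, fun h => hne ⟨hα, h⟩, fun z => s z + ind F z, fun _ => 0, ?_, by simp, by simp⟩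
    intro z
    have := hinv z
    rwa [hα, one_mul] at this
  have hα0 : α ≠ 0 := by
    intro h0; rw [h0] at hα; simp at hα
  have hα2 : α ≠ 1 := notone F hF α β hne hinv
  obtain ⟨w, hw, hwc⟩ : ∃ w ∈ W, α * w + β ≠ w := by
    by_contra hcon
    push Not at hcon
    have : W ⊆ {β / (1 - α)} := by
      intro u hu
      rw [Finset.mem_singleton, eq_div_iff (sub_ne_zero.mpr (Ne.symm hα2))]
      linear_combination -(hcon u hu)
    have := Finset.card_le_card this
    simp [hW] at this
  set s0 : ℂ → ZMod 2 := fun z => s z + ind F z with hs0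
  have hNP0 : ¬ NearPer s0 := fun hh => hNP (nearPer_of_add hh (ind_support F))
  have hF' : (if w ∈ F then F.erase w else insert w F) ⊆ W := by
    split_ifs
    · exact (Finset.erase_subset _ _).trans hF
    · exact Finset.insert_subset hw hF
  obtain ⟨α', β', hα', hne', hinv'⟩ := h _ hF'
  have hα2' := notone _ hF' α' β' hne' hinv'
  simp only [ind_symmDiff_singleton] at hinv'
  have hg : ∀ z, s0 (α * z + β) = s0 z := hinv
  have hg' : ∀ z, s0 (α' * z + β') + dl w (α' * z + β') = s0 z + dl w z := by
    intro z
    simp only [hs0]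
    linear_combination hinv' z
  have he : ∀ z, s0 (α' * z + β') = s0 z + dl w z + dl w (α' * z + β') := by
    intro z
    linear_combination hg' z - zmod2_add_self (dl w (α' * z + β'))
  have hα0' : α' ≠ 0 := by
    intro h0; rw [h0] at hα'; simp at hα'
  by_cases ha : β * (1 - α') = β' * (1 - α)
  · -- common centre
    have hcomm : ∀ z, α * (α' * z + β') + β = α' * (α * z + β) + β' := by
      intro z; linear_combination ha
    have hfix : α' * w + β' ≠ w := by
      intro hh
      apply hwc
      have h1 : (1 - α') * (α * w + β - w) = 0 := by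
        linear_combination ha + (α - 1) * (-hh)
      rcases mul_eq_zero.mp h1 with h2 | h2
      · exact absurd (by linear_combination -h2) hα2'
      · linear_combination h2
    set e : ℂ → ZMod 2 := fun z => dl w z + dl w (α' * z + β') with hedef
    have hinve : ∀ z, e (α * z + β) = e z := by
      intro z
      have h1 := he (α * z + β)
      have h2 := he z
      rw [← hcomm, hg, hg] at h1
      simp only [hedef]
      rw [← hcomm]
      linear_combination h2 - h1
    have e0 : e w = 1 := by
      simp only [hedef]
      rw [dl_self, dl_ne hfix, add_zero]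
    have e1 : e (α * w + β) = 1 := by rw [hinve, e0]
    have f1 : α' * (α * w + β) + β' = w := by
      simp only [hedef] at e1
      rw [dl_ne hwc, zero_add] at e1
      by_contra hcon
      rw [dl_ne hcon] at e1
      exact zero_ne_one e1
    have e2 : e (α * (α * w + β) + β) = 1 := by rw [hinve, e1]
    have f2 : α * (α * w + β) + β = w := by
      simp only [hedef] at e2
      have : α' * (α * (α * w + β) + β) + β' = α * w + β := by
        rw [← hcomm, f1]
      rw [this, dl_ne hwc, add_zero] at e2
      by_contra hcon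
      rw [dl_ne hcon] at e2
      exact zero_ne_one e2
    have f3 : (α + 1) * (α * w + β - w) = 0 := by linear_combination f2
    rcases mul_eq_zero.mp f3 with h2 | h2
    · exact hα1 (by linear_combination h2)
    · exact hwc (by linear_combination h2)
  · -- a translation
    set a : ℂ := β * (1 - α') - β' * (1 - α) with hadef
    have ha0 : a ≠ 0 := sub_ne_zero.mpr ha
    have hEa : {z | s0 (z + a) ≠ s0 z}.Finite := by
      -- z = g' g y
      have hsur : ∀ z, s0 (z + a) ≠ s0 z →
          z ∈ (fun y => α' * (α * y + β) + β') '' ({y | dl w y + dl w (α' * y + β') ≠ 0} ∪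
            {y | dl w (α * y + β) + dl w (α' * (α * y + β) + β') ≠ 0}) := by
        intro z hz
        refine ⟨((z - β') / α' - β) / α, ?_, by field_simp; ring⟩
        set y := ((z - β') / α' - β) / α with hy
        have hyz : α' * (α * y + β) + β' = z := by rw [hy]; field_simp; ring
        by_contra hcon
        simp only [Set.mem_union, Set.mem_setOf_eq, not_or, not_not] at hcon
        apply hz
        have h1 : s0 (z + a) = s0 y := by
          have : z + a = α * (α' * y + β') + β := by
            rw [← hyz, hadef]; ring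
          rw [this, hg, he]
          linear_combination hcon.1
        have h2 : s0 z = s0 y := by
          rw [← hyz, he, hg]
          linear_combination hcon.2
        rw [h1, h2]
      refine Set.Finite.subset ?_ hsur
      apply Set.Finite.image
      have fin1 : ∀ γ δ : ℂ, γ ≠ 0 → {y : ℂ | dl w (γ * y + δ) ≠ 0}.Finite := by
        intro γ δ hγ
        refine (Set.finite_singleton ((w - δ) / γ)).subset ?_
        intro y hy
        rw [Set.mem_singleton_iff, eq_div_iff hγ]
        by_contra hcon
        apply hy
        apply dl_ne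
        intro hh; apply hcon; linear_combination hh
      apply Set.Finite.union
      · refine ((dl_support w).union (fin1 α' β' hα0')).subset ?_
        intro y hy
        by_contra hcon
        simp only [Set.mem_union, Function.mem_support, Set.mem_setOf_eq, not_or, not_not] at hcon
        apply hy
        rw [hcon.1, hcon.2]; simp
      · refine ((fin1 α β hα0).union (fin1 (α' * α) (α' * β + β') (mul_ne_zero hα0' hα0))).subset ?_
        intro y hy
        by_contra hcon
        simp only [Set.mem_union, Set.mem_setOf_eq, not_or, not_not] at hcon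
        apply hy
        have : α' * (α * y + β) + β' = α' * α * y + (α' * β + β') := by ring
        rw [this, hcon.1, hcon.2]; simp
    have hEb : {z | s0 (z + α * a) ≠ s0 z}.Finite := by
      refine (hEa.image (fun y => α * y + β)).subset ?_
      intro z hz
      refine ⟨(z - β) / α, ?_, by field_simp; ring⟩
      simp only [Set.mem_setOf_eq] at hz ⊢
      intro hh
      apply hz
      have h1 := hg ((z - β) / α + a)
      have h2 := hg ((z - β) / α)
      have e1 : α * ((z - β) / α + a) + β = z + α * a := by field_simp; ring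
      have e2 : α * ((z - β) / α) + β = z := by field_simp; ring
      rw [e1] at h1
      rw [e2] at h2
      rw [h1, h2, hh]
    apply hNP0
    apply nearPer_of_two ha0 hEa hEb
    intro k l hkl
    by_contra hk
    have hkα : (k : ℂ) * α = l := by
      apply mul_right_cancel₀ ha0
      linear_combination hkl
    have hkC : (k : ℂ) ≠ 0 := by exact_mod_cast hk
    -- α is real
    have hreal : α = ((l : ℝ) / (k : ℝ) : ℝ) := by
      have hkR : (k : ℝ) ≠ 0 := by exact_mod_cast hk
      push_cast
      rw [eq_div_iff hkC]
      linear_combination hkα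
    have habs : |((l : ℝ) / (k : ℝ))| = 1 := by
      rw [hreal, Complex.norm_real] at hα
      exact hα
    rcases (abs_eq (zero_le_one)).mp habs with h1 | h1
    · apply hα2; rw [hreal, h1]; simp
    · apply hα1; rw [hreal, h1]; simp

/-- The near periodic case reduces to finite sets. -/
theorem near_case {s : ℂ → ZMod 2} {W : Finset ℂ} (hW : W.card = 4) (hP : NearPer s)
    (h : ∀ F ⊆ W, ∃ α β : ℂ, ‖α‖ = 1 ∧ ¬ (α = 1 ∧ β = 0) ∧
      ∀ z, s (α * z + β) + ind F (α * z + β) = s z + ind F z) : False := by
  obtain ⟨a, ha, p, q, hp, hq, hs⟩ := hP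
  set Q0 : Finset ℂ := hq.toFinset with hQ0
  have hmem : ∀ z, z ∈ Q0 ↔ q z = 1 := by
    intro z
    rw [hQ0, Set.Finite.mem_toFinset, Function.mem_support]
    rcases zmod2_cases (q z) with h | h <;> simp [h]
  apply finite_case (Q := Q0 \ W) (W := W) Finset.sdiff_disjoint hW
  intro G hG hne
  set F : Finset ℂ := W.filter (fun z => ¬ (z ∈ G ↔ z ∈ Q0)) with hF
  have hFW : F ⊆ W := Finset.filter_subset _ _
  obtain ⟨α, β, hα, hne1, hinv⟩ := h F hFW
  have hα0 : α ≠ 0 := by
    intro h0; rw [h0] at hα; simp at hα
  have key := split_inv (s := p) (q := fun z => q z + ind F z) ha hα0 hp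
    (support_add_finite hq (ind_support F)) (β := β) (fun z => by
      have := hinv z
      rw [hs, hs] at this
      linear_combination this)
  have hchar : ∀ z, z ∈ (Q0 \ W) ∪ G ↔ q z + ind F z = 1 := by
    intro z
    have hqz := hmem z
    rw [Finset.mem_union, Finset.mem_sdiff]
    unfold ind
    have hFz : z ∈ F ↔ z ∈ W ∧ ¬ (z ∈ G ↔ z ∈ Q0) := by rw [hF, Finset.mem_filter]
    have hGW : z ∈ G → z ∈ W := fun h => hG h
    by_cases h1 : z ∈ Q0
    · have hq1 := hqz.mp h1
      rw [hq1]
      by_cases h2 : z ∈ F
      · rw [if_pos h2]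
        have h3 := hFz.mp h2
        constructor
        · intro h4; exfalso; tauto
        · intro h4; exact absurd h4 (by decide)
      · rw [if_neg h2, add_zero]
        constructor
        · intro _; rfl
        · intro _
          by_cases h5 : z ∈ W
          · right
            by_contra h6
            apply h2
            rw [hFz]
            tauto
          · left; exact ⟨h1, h5⟩
    · have hq1 : q z = 0 := by
        rcases zmod2_cases (q z) with h | h
        · exact h
        · exact absurd (hqz.mpr h) h1
      rw [hq1, zero_add]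
      by_cases h2 : z ∈ F
      · rw [if_pos h2]
        have h3 := hFz.mp h2
        constructor
        · intro _; rfl
        · intro _; right; tauto
      · rw [if_neg h2]
        constructor
        · intro h4; exfalso
          apply h2
          rw [hFz]
          tauto
        · intro h4; exact absurd h4 (by decide)
  apply good_of_inv hne hα hne1
  intro z hz
  rw [hchar] at hz ⊢
  rw [key z]; exact hz

/-- **Four free points suffice.** For every colouring of the rest of the plane, some colouring of
four given points gives a colouring without orientation preserving symmetries. -/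
theorem core (s : ℂ → ZMod 2) (W : Finset ℂ) (hW : W.card = 4) :
    ∃ F ⊆ W, ∀ α β : ℂ, ‖α‖ = 1 →
      (∀ z, s (α * z + β) + ind F (α * z + β) = s z + ind F z) → α = 1 ∧ β = 0 := by
  by_contra hcon
  push Not at hcon
  have h : ∀ F ⊆ W, ∃ α β : ℂ, ‖α‖ = 1 ∧ ¬ (α = 1 ∧ β = 0) ∧
      ∀ z, s (α * z + β) + ind F (α * z + β) = s z + ind F z := by
    intro F hF
    obtain ⟨α, β, h1, h2, h3⟩ := hcon F hF
    exact ⟨α, β, h1, fun hh => h3 hh.1 hh.2, h2⟩
  by_cases hP : NearPer s
  · exact near_case hW hP h
  · apply half_turn_case hW hP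
    intro F hF
    obtain ⟨α, β, h1, h2, h3⟩ := h F hF
    have := only_half_turns hW hP h hF h1 h2 h3
    refine ⟨β / 2, fun z => ?_⟩
    have h4 := h3 z
    rw [this] at h4
    have e : 2 * (β / 2) - z = -1 * z + β := by ring
    rw [e]; exact h4

end Pool.Agent.Q19.ExtC
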