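import Mathlib

/-!
# Distinguishing extension number: definitions (helper19)
-/

namespace Pool.Agent.Q19.Ext

open Matrix

/-- a colouring with `k` colours preserved only by the identity -/
def Distinguishing (Γ : Type) {X : Type} [Group Γ] [MulAction Γ X] {k : ℕ} (c : X → Fin k) :
    Prop :=
  ∀ γ : Γ, (∀ x, c (γ • x) = c x) → γ = 1

/-- the distinguishing number -/
noncomputable def distNum (Γ X : Type) [Group Γ] [MulAction Γ X] : ℕ :=
  sInf {k : ℕ | ∃ c : X → Fin k, Distinguishing Γ c}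

/-- the pointwise stabilizer of `W` is trivial -/
def TrivialStabilizer (Γ : Type) {X : Type} [Group Γ] [MulAction Γ X] (W : Set X) : Prop :=
  ∀ γ : Γ, (∀ x ∈ W, γ • x = x) → γ = 1

/-- the precolouring extension property of `W` -/
def PrecolouringExtension (Γ : Type) {X : Type} [Group Γ] [MulAction Γ X] (W : Set X) : Prop :=
  ∀ c : {x : X // x ∉ W} → Fin (distNum Γ X),
    ∃ c' : X → Fin (distNum Γ X), (∀ x : {x : X // x ∉ W}, c' x = c x) ∧ Distinguishing Γ c'

/-- the distinguishing extension number: the least natural number `n` such that every set of at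
least `n` points with trivial pointwise stabilizer has the precolouring extension property
(infinite if there is none) -/
noncomputable def extNum (Γ X : Type) [Group Γ] [MulAction Γ X] : ℕ∞ :=
  sInf {e : ℕ∞ | ∃ n : ℕ, e = n ∧ ∀ W : Set X, (n : ℕ∞) ≤ W.encard →
    TrivialStabilizer Γ W → PrecolouringExtension Γ W}

/-- the plane -/
abbrev Plane : Type := Fin 2 → ℝ

theorem moves_mul {A B : Matrix (Fin 2) (Fin 2) ℝ} {b c v : Plane} :
    A *ᵥ (B *ᵥ v + c) + b = (A * B) *ᵥ v + (A *ᵥ c + b) := by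
  rw [Matrix.mulVec_add, Matrix.mulVec_mulVec, add_assoc]

/-- the affine maps `v ↦ A v + b` with `A` in a given group of matrices, as permutations -/
def affineGroup (G : Submonoid (Matrix (Fin 2) (Fin 2) ℝ))
    (hG : ∀ A ∈ G, ∃ B ∈ G, A * B = 1 ∧ B * A = 1) : Subgroup (Equiv.Perm Plane) where
  carrier := {σ | ∃ A ∈ G, ∃ b : Plane, ∀ v, σ v = A *ᵥ v + b}
  mul_mem' := by
    rintro σ τ ⟨A, hA, b, hσ⟩ ⟨B, hB, c, hτ⟩
    refine ⟨A * B, G.mul_mem hA hB, A *ᵥ c + b, fun v => ?_⟩
    rw [Equiv.Perm.mul_apply, hσ, hτ, moves_mul]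
  one_mem' := ⟨1, G.one_mem, 0, fun v => by simp⟩
  inv_mem' := by
    rintro σ ⟨A, hA, b, hσ⟩
    obtain ⟨B, hB, h1, h2⟩ := hG A hA
    refine ⟨B, hB, -(B *ᵥ b), fun v => ?_⟩
    rw [Equiv.Perm.inv_eq_iff_eq, hσ, moves_mul, h1, Matrix.one_mulVec, Matrix.mulVec_neg,
      Matrix.mulVec_mulVec, h1, Matrix.one_mulVec]
    simp

/-- the group of orientation preserving isometries of the plane: the maps `v ↦ A v + b` with `A`
in `SO(2)` -/
def SE2 : Subgroup (Equiv.Perm Plane) :=
  affineGroup (Matrix.specialOrthogonalGroup (Fin 2) ℝ) (by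
    intro A hA
    refine ⟨star A, ?_, ?_, ?_⟩
    · exact (star (⟨A, hA⟩ : Matrix.specialOrthogonalGroup (Fin 2) ℝ)).2
    · exact (Matrix.mem_orthogonalGroup_iff (Fin 2) ℝ).mp (Matrix.mem_specialOrthogonalGroup_iff.mp hA).1
    · exact (Matrix.mem_orthogonalGroup_iff' (Fin 2) ℝ).mp (Matrix.mem_specialOrthogonalGroup_iff.mp hA).1)

end Pool.Agent.Q19.Ext
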