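import Mathlib
import Pool.Agent.Q19.ExtDefs
import Pool.Agent.Q19.ExtC

/-!
# The distinguishing extension number of the plane under `SE(2)` (helper19)
-/

namespace Pool.Agent.Q19.Ext

open Matrix Pool.Agent.Q19.ExtC Pool.Agent.Q19.ExtA

/-- a plane point as a complex number -/
def toC (v : Plane) : ℂ := ⟨v 0, v 1⟩

/-- a complex number as a plane point -/
def ofC (z : ℂ) : Plane := ![z.re, z.im]

theorem toC_ofC (z : ℂ) : toC (ofC z) = z := by
  simp [toC, ofC]

theorem ofC_toC (v : Plane) : ofC (toC v) = v := by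
  funext i
  fin_cases i <;> simp [toC, ofC]

theorem toC_injective : Function.Injective toC := Function.LeftInverse.injective ofC_toC

theorem mem_SE2 (σ : Equiv.Perm Plane) :
    σ ∈ SE2 ↔ ∃ A ∈ Matrix.specialOrthogonalGroup (Fin 2) ℝ, ∃ b : Plane, ∀ v, σ v = A *ᵥ v + b :=
  Iff.rfl

theorem so2_entries {A : Matrix (Fin 2) (Fin 2) ℝ}
    (hA : A ∈ Matrix.specialOrthogonalGroup (Fin 2) ℝ) :
    A 1 1 = A 0 0 ∧ A 0 1 = -A 1 0 ∧ A 0 0 ^ 2 + A 1 0 ^ 2 = 1 := by
  rw [Matrix.mem_specialOrthogonalGroup_iff] at hA
  obtain ⟨h1, h2⟩ := hA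
  rw [Matrix.mem_orthogonalGroup_iff'] at h1
  rw [Matrix.det_fin_two] at h2
  have e00 := congrFun (congrFun h1 0) 0
  have e11 := congrFun (congrFun h1 1) 1
  simp [Matrix.mul_apply, Fin.sum_univ_two, Matrix.star_apply] at e00 e11
  have h3 : (A 1 1 - A 0 0) ^ 2 + (A 0 1 + A 1 0) ^ 2 = 0 := by
    linear_combination e00 + e11 - 2 * h2
  have h4 : A 1 1 - A 0 0 = 0 := by nlinarith [sq_nonneg (A 1 1 - A 0 0), sq_nonneg (A 0 1 + A 1 0)]
  have h5 : A 0 1 + A 1 0 = 0 := by nlinarith [sq_nonneg (A 1 1 - A 0 0), sq_nonneg (A 0 1 + A 1 0)]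
  exact ⟨by linarith, by linarith, by linarith⟩

/-- an element of `SE(2)` in complex form -/
theorem complex_form (γ : SE2) : ∃ α β : ℂ, ‖α‖ = 1 ∧ ∀ v, toC (γ • v) = α * toC v + β := by
  obtain ⟨A, hA, b, h⟩ := γ.2
  obtain ⟨h1, h2, h3⟩ := so2_entries hA
  refine ⟨⟨A 0 0, A 1 0⟩, toC b, ?_, ?_⟩
  · rw [Complex.norm_def, Complex.normSq_mk, ← sq, ← sq, h3, Real.sqrt_one]
  · intro v
    have hv : γ • v = A *ᵥ v + b := h v
    rw [hv]
    apply Complex.ext
    · simp [toC, Matrix.mulVec, dotProduct, Fin.sum_univ_two, h2]; ring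
    · simp [toC, Matrix.mulVec, dotProduct, Fin.sum_univ_two, h1]; ring

theorem eq_one_of_complex {γ : SE2} (h : ∀ v, toC (γ • v) = toC v) : γ = 1 := by
  apply Subtype.ext
  apply Equiv.ext
  intro v
  exact toC_injective (h v)

/-- an element of `SE(2)` from its complex form -/
theorem exists_SE2 {α : ℂ} (hα : ‖α‖ = 1) (β : ℂ) :
    ∃ γ : SE2, ∀ v, toC (γ • v) = α * toC v + β := by
  have hsq : α.re ^ 2 + α.im ^ 2 = 1 := by
    have := Complex.sq_norm α
    rw [hα, Complex.normSq_apply] at this
    linarith
  have hα0 : α ≠ 0 := by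
    intro h0; rw [h0] at hα; simp at hα
  let σ : Equiv.Perm Plane :=
    { toFun := fun v => ofC (α * toC v + β)
      invFun := fun v => ofC ((toC v - β) / α)
      left_inv := fun v => by
        show ofC ((toC (ofC (α * toC v + β)) - β) / α) = v
        rw [toC_ofC]
        have : (α * toC v + β - β) / α = toC v := by field_simp; ring
        rw [this, ofC_toC]
      right_inv := fun v => by
        show ofC (α * toC (ofC ((toC v - β) / α)) + β) = v
        rw [toC_ofC]
        have : α * ((toC v - β) / α) + β = toC v := by field_simp; ring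
        rw [this, ofC_toC] }
  have hσ : σ ∈ SE2 := by
    rw [mem_SE2]
    refine ⟨!![α.re, -α.im; α.im, α.re], ?_, ofC β, ?_⟩
    · rw [Matrix.mem_specialOrthogonalGroup_iff, Matrix.mem_orthogonalGroup_iff]
      constructor
      · ext i j
        fin_cases i <;> fin_cases j <;>
          simp [Matrix.mul_apply, Fin.sum_univ_two, Matrix.star_apply] <;> linarith
      · rw [Matrix.det_fin_two]; simp; linarith
    · intro v
      funext i
      fin_cases i
      · simp [σ, ofC, toC, Matrix.mulVec, dotProduct, Fin.sum_univ_two]; ring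
      · simp [σ, ofC, toC, Matrix.mulVec, dotProduct, Fin.sum_univ_two]; ring
  refine ⟨⟨σ, hσ⟩, fun v => ?_⟩
  have : (⟨σ, hσ⟩ : SE2) • v = ofC (α * toC v + β) := rfl
  rw [this, toC_ofC]

/-- the core theorem for plane colourings -/
theorem core_plane (s : Plane → Fin 2) (W : Finset ℂ) (hW : W.card = 4) :
    ∃ c' : Plane → Fin 2, (∀ x, toC x ∉ W → c' x = s x) ∧ Distinguishing SE2 c' := by
  obtain ⟨F, hF, h⟩ := core (fun z => ((s (ofC z) : Fin 2) : ZMod 2)) W hW
  refine ⟨fun x => ((s x + (if toC x ∈ F then 1 else 0) : Fin 2)), ?_, ?_⟩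
  · intro x hx
    have : toC x ∉ F := fun h => hx (hF h)
    simp [this]
  · intro γ hγ
    obtain ⟨α, β, hα, hform⟩ := complex_form γ
    have key := h α β hα (by
      intro z
      have h1 := hγ (ofC z)
      simp only at h1
      have h2 : toC (γ • ofC z) = α * z + β := by rw [hform, toC_ofC]
      have h3 : γ • ofC z = ofC (α * z + β) := by rw [← h2, ofC_toC]
      rw [h3, toC_ofC, toC_ofC] at h1
      unfold ind
      exact h1)
    apply eq_one_of_complex
    intro v
    rw [hform, key.1, key.2]; ring

theorem exists_fin2_dist : ∃ c : Plane → Fin 2, Distinguishing SE2 c := by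
  obtain ⟨c', _, h⟩ := core_plane (fun _ => 0) {0, 1, 2, 3} (by
    rw [Finset.card_insert_of_notMem (by norm_num), Finset.card_insert_of_notMem (by norm_num),
      Finset.card_insert_of_notMem (by norm_num), Finset.card_singleton])
  exact ⟨c', h⟩

theorem distNum_SE2 : distNum SE2 Plane = 2 := by
  apply le_antisymm
  · exact Nat.sInf_le exists_fin2_dist
  · apply le_csInf ⟨2, exists_fin2_dist⟩
    rintro k ⟨c, hc⟩
    by_contra hk
    have hk : k = 0 ∨ k = 1 := by omega
    rcases hk with rfl | rfl
    · exact (c 0).elim0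
    · obtain ⟨γ, hγ⟩ := exists_SE2 (α := 1) (by simp) 1
      have := hc γ (fun x => Subsingleton.elim _ _)
      have h0 := hγ (ofC 0)
      rw [this, one_smul, toC_ofC] at h0
      simp at h0

theorem precol_iff (W : Set Plane) : PrecolouringExtension SE2 W ↔
    ∀ c : {x : Plane // x ∉ W} → Fin 2,
      ∃ c' : Plane → Fin 2, (∀ x : {x : Plane // x ∉ W}, c' x = c x) ∧ Distinguishing SE2 c' := by
  unfold PrecolouringExtension
  rw [distNum_SE2]

theorem four_works (W : Set Plane) (hW : ((4 : ℕ) : ℕ∞) ≤ W.encard) :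
    PrecolouringExtension SE2 W := by
  classical
  rw [precol_iff]
  intro c
  obtain ⟨T, hTW, hT⟩ := Set.exists_subset_encard_eq hW
  have hTfin : T.Finite := Set.finite_of_encard_eq_coe hT
  have hcard : (hTfin.toFinset.image toC).card = 4 := by
    rw [Finset.card_image_of_injective _ toC_injective]
    have := hTfin.encard_eq_coe_toFinset_card
    rw [hT] at this
    exact_mod_cast this.symm
  obtain ⟨c', h1, h2⟩ := core_plane (fun x => if h : x ∉ W then c ⟨x, h⟩ else 0) _ hcard
  refine ⟨c', ?_, h2⟩
  rintro ⟨x, hx⟩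
  have hxT : toC x ∉ hTfin.toFinset.image toC := by
    intro hmem
    obtain ⟨y, hy, hyx⟩ := Finset.mem_image.mp hmem
    rw [toC_injective hyx] at hy
    exact hx (hTW ((Set.Finite.mem_toFinset hTfin).mp hy))
  rw [h1 x hxT]
  exact dif_pos hx

/-- every subset of three equally spaced points has a centre of symmetry -/
theorem subset_three (P : ℂ → Prop) (hP : ∀ z, P z → z = -1 ∨ z = 0 ∨ z = 1) :
    ∃ c : ℂ, ∀ z, P (2 * c - z) ↔ P z := by
  have single : ∀ p : ℂ, (∀ z, P z ↔ z = p) → ∃ c : ℂ, ∀ z, P (2 * c - z) ↔ P z := by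
    intro p hp
    refine ⟨p, fun z => ?_⟩
    rw [hp, hp]
    constructor
    · intro h; linear_combination -h
    · intro h; linear_combination -h
  have pair : ∀ p q : ℂ, (∀ z, P z ↔ z = p ∨ z = q) → ∃ c : ℂ, ∀ z, P (2 * c - z) ↔ P z := by
    intro p q hp
    refine ⟨(p + q) / 2, fun z => ?_⟩
    rw [hp, hp]
    constructor
    · rintro (h | h)
      · right; linear_combination -h
      · left; linear_combination -h
    · rintro (h | h)
      · right; linear_combination -h
      · left; linear_combination -h
  by_cases h1 : P (-1) <;> by_cases h2 : P 0 <;> by_cases h3 : P 1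
  · refine ⟨0, fun z => ?_⟩
    have hall : ∀ z, P z ↔ z = -1 ∨ z = 0 ∨ z = 1 := by
      intro z
      refine ⟨hP z, ?_⟩
      rintro (rfl | rfl | rfl) <;> assumption
    rw [hall, hall]
    constructor
    · rintro (h | h | h)
      · right; right; linear_combination -h
      · right; left; linear_combination -h
      · left; linear_combination -h
    · rintro (h | h | h)
      · right; right; linear_combination -h
      · right; left; linear_combination -h
      · left; linear_combination -h
  · apply pair (-1) 0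
    intro z
    constructor
    · intro h
      rcases hP z h with h4 | h4 | h4
      · exact Or.inl h4
      · exact Or.inr h4
      · exact absurd (h4 ▸ h) h3
    · rintro (rfl | rfl) <;> assumption
  · apply pair (-1) 1
    intro z
    constructor
    · intro h
      rcases hP z h with h4 | h4 | h4
      · exact Or.inl h4
      · exact absurd (h4 ▸ h) h2
      · exact Or.inr h4
    · rintro (rfl | rfl) <;> assumption
  · apply single (-1)
    intro z
    constructor
    · intro h
      rcases hP z h with h4 | h4 | h4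
      · exact h4
      · exact absurd (h4 ▸ h) h2
      · exact absurd (h4 ▸ h) h3
    · rintro rfl; assumption
  · apply pair 0 1
    intro z
    constructor
    · intro h
      rcases hP z h with h4 | h4 | h4
      · exact absurd (h4 ▸ h) h1
      · exact Or.inl h4
      · exact Or.inr h4
    · rintro (rfl | rfl) <;> assumption
  · apply single 0
    intro z
    constructor
    · intro h
      rcases hP z h with h4 | h4 | h4
      · exact absurd (h4 ▸ h) h1
      · exact h4
      · exact absurd (h4 ▸ h) h3
    · rintro rfl; assumption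
  · apply single 1
    intro z
    constructor
    · intro h
      rcases hP z h with h4 | h4 | h4
      · exact absurd (h4 ▸ h) h1
      · exact absurd (h4 ▸ h) h2
      · exact h4
    · rintro rfl; assumption
  · refine ⟨0, fun z => ?_⟩
    have hall : ∀ z, ¬ P z := by
      intro z hz
      rcases hP z hz with h4 | h4 | h4
      · exact h1 (h4 ▸ hz)
      · exact h2 (h4 ▸ hz)
      · exact h3 (h4 ▸ hz)
    exact ⟨fun h => absurd h (hall _), fun h => absurd h (hall _)⟩

/-- three equally spaced points -/
def three : Set Plane := ofC '' {-1, 0, 1}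

theorem three_encard : three.encard = 3 := by
  unfold three
  rw [Function.Injective.encard_image (Function.LeftInverse.injective toC_ofC)]
  rw [Set.encard_insert_of_notMem (by norm_num), Set.encard_pair (by norm_num)]
  norm_num

theorem three_stab : TrivialStabilizer SE2 three := by
  intro γ hγ
  obtain ⟨α, β, hα, hform⟩ := complex_form γ
  have h0 := hform (ofC 0)
  have h1 := hform (ofC 1)
  rw [hγ _ ⟨0, by simp, rfl⟩, toC_ofC] at h0
  rw [hγ _ ⟨1, by simp, rfl⟩, toC_ofC] at h1
  apply eq_one_of_complex
  intro v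
  rw [hform]
  linear_combination (1 - toC v) * (-h0) - toC v * h1

theorem three_fails : ¬ PrecolouringExtension SE2 three := by
  rw [precol_iff]
  intro h
  obtain ⟨c', hc', hdist⟩ := h (fun _ => 0)
  obtain ⟨c, hc⟩ := subset_three (fun z => c' (ofC z) = 1) (by
    intro z hz
    by_contra hcon
    have hmem : ofC z ∉ three := by
      rintro ⟨w, hw, hwz⟩
      have : w = z := by rw [← toC_ofC w, hwz, toC_ofC]
      rw [this] at hw
      simp only [Set.mem_insert_iff, Set.mem_singleton_iff] at hw
      exact hcon hw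
    have := hc' ⟨ofC z, hmem⟩
    simp only at this
    rw [this] at hz
    exact zero_ne_one hz)
  obtain ⟨γ, hγ⟩ := exists_SE2 (α := -1) (by simp) (2 * c)
  have hγ1 := hdist γ (by
    intro x
    have e : γ • x = ofC (2 * c - toC x) := by
      rw [← ofC_toC (γ • x), hγ]; congr 1; ring
    have h1 := hc (toC x)
    rw [ofC_toC, ← e] at h1
    have f2 : ∀ a b : Fin 2, (a = 1 ↔ b = 1) → a = b := by decide
    exact f2 _ _ h1)
  have h0 := hγ (ofC 0)
  have h1 := hγ (ofC 1)
  rw [hγ1, one_smul, toC_ofC] at h0
  rw [hγ1, one_smul, toC_ofC] at h1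
  have : (2 : ℂ) = 0 := by linear_combination h1 - h0
  norm_num at this

theorem extNum_SE2 : extNum SE2 Plane = 4 := by
  unfold extNum
  apply le_antisymm
  · apply sInf_le
    exact ⟨4, rfl, fun W hW _ => four_works W hW⟩
  · apply le_sInf
    rintro e ⟨n, rfl, hn⟩
    by_contra hlt
    push Not at hlt
    have hn3 : (n : ℕ∞) ≤ 3 := by
      have : n < 4 := by exact_mod_cast hlt
      have : n ≤ 3 := by omega
      exact_mod_cast this
    exact three_fails (hn three (by rw [three_encard]; exact hn3) three_stab)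

end Pool.Agent.Q19.Ext
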