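import Mathlib

/-!
# Plane isometries in complex form (helper19)
-/

namespace Pool.Agent.Q19.ExtE

open ComplexConjugate

/-- `z ↦ α z + β` with `|α| = 1` -/
def Dir (g : Equiv.Perm ℂ) (α β : ℂ) : Prop := ‖α‖ = 1 ∧ ∀ z, g z = α * z + β

/-- `z ↦ α conj z + β` with `|α| = 1` -/
def Opp (g : Equiv.Perm ℂ) (α β : ℂ) : Prop := ‖α‖ = 1 ∧ ∀ z, g z = α * conj z + β

def IsDir (g : Equiv.Perm ℂ) : Prop := ∃ α β, Dir g α β

def IsOpp (g : Equiv.Perm ℂ) : Prop := ∃ α β, Opp g α β

def IsIso (g : Equiv.Perm ℂ) : Prop := IsDir g ∨ IsOpp g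

theorem mc {α : ℂ} (h : ‖α‖ = 1) : α * conj α = 1 := by
  rw [Complex.mul_conj, Complex.normSq_eq_norm_sq, h]; simp

theorem ne0 {α : ℂ} (h : ‖α‖ = 1) : α ≠ 0 := by
  rintro rfl; simp at h

theorem nconj {α : ℂ} (h : ‖α‖ = 1) : ‖conj α‖ = 1 := by rw [Complex.norm_conj, h]

theorem Dir.mul {g h : Equiv.Perm ℂ} {α β α' β' : ℂ} (hg : Dir g α β) (hh : Dir h α' β') :
    Dir (g * h) (α * α') (α * β' + β) := by
  refine ⟨by rw [norm_mul, hg.1, hh.1, one_mul], fun z => ?_⟩
  rw [Equiv.Perm.mul_apply, hg.2, hh.2]; ring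

theorem Dir.mul_opp {g h : Equiv.Perm ℂ} {α β α' β' : ℂ} (hg : Dir g α β) (hh : Opp h α' β') :
    Opp (g * h) (α * α') (α * β' + β) := by
  refine ⟨by rw [norm_mul, hg.1, hh.1, one_mul], fun z => ?_⟩
  rw [Equiv.Perm.mul_apply, hg.2, hh.2]; ring

theorem Opp.mul_dir {g h : Equiv.Perm ℂ} {α β α' β' : ℂ} (hg : Opp g α β) (hh : Dir h α' β') :
    Opp (g * h) (α * conj α') (α * conj β' + β) := by
  refine ⟨by rw [norm_mul, hg.1, nconj hh.1, one_mul], fun z => ?_⟩
  rw [Equiv.Perm.mul_apply, hg.2, hh.2, map_add, map_mul]; ring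

theorem Opp.mul_opp {g h : Equiv.Perm ℂ} {α β α' β' : ℂ} (hg : Opp g α β) (hh : Opp h α' β') :
    Dir (g * h) (α * conj α') (α * conj β' + β) := by
  refine ⟨by rw [norm_mul, hg.1, nconj hh.1, one_mul], fun z => ?_⟩
  rw [Equiv.Perm.mul_apply, hg.2, hh.2, map_add, map_mul, Complex.conj_conj]; ring

theorem Dir.inv {g : Equiv.Perm ℂ} {α β : ℂ} (hg : Dir g α β) :
    Dir g⁻¹ (conj α) (-(conj α * β)) := by
  refine ⟨nconj hg.1, fun z => ?_⟩
  rw [Equiv.Perm.inv_eq_iff_eq, hg.2]
  linear_combination (β - z) * mc hg.1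

theorem Opp.inv {g : Equiv.Perm ℂ} {α β : ℂ} (hg : Opp g α β) :
    Opp g⁻¹ α (-(α * conj β)) := by
  refine ⟨hg.1, fun z => ?_⟩
  rw [Equiv.Perm.inv_eq_iff_eq, hg.2]
  rw [map_add, map_mul, map_neg, map_mul, Complex.conj_conj, Complex.conj_conj]
  linear_combination (β - z) * mc hg.1

theorem dir_one : Dir 1 1 0 := ⟨by simp, fun z => by simp⟩

/-- the group of plane isometries in complex form -/
def E : Subgroup (Equiv.Perm ℂ) where
  carrier := {g | IsIso g}
  mul_mem' := by
    rintro g h (⟨α, β, hg⟩ | ⟨α, β, hg⟩) (⟨α', β', hh⟩ | ⟨α', β', hh⟩)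
    · exact Or.inl ⟨_, _, hg.mul hh⟩
    · exact Or.inr ⟨_, _, hg.mul_opp hh⟩
    · exact Or.inr ⟨_, _, hg.mul_dir hh⟩
    · exact Or.inl ⟨_, _, hg.mul_opp hh⟩
  one_mem' := Or.inl ⟨1, 0, dir_one⟩
  inv_mem' := by
    rintro g (⟨α, β, hg⟩ | ⟨α, β, hg⟩)
    · exact Or.inl ⟨_, _, hg.inv⟩
    · exact Or.inr ⟨_, _, hg.inv⟩

theorem mem_E {g : Equiv.Perm ℂ} : g ∈ E ↔ IsDir g ∨ IsOpp g := Iff.rfl

theorem not_both {g : Equiv.Perm ℂ} (h1 : IsDir g) (h2 : IsOpp g) : False := by
  obtain ⟨α, β, h1, e1⟩ := h1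
  obtain ⟨α', β', h2, e2⟩ := h2
  have a0 := (e1 0).symm.trans (e2 0)
  have a1 := (e1 1).symm.trans (e2 1)
  have a2 := (e1 Complex.I).symm.trans (e2 Complex.I)
  simp at a0 a1 a2
  rw [a0] at a1 a2
  have a3 : α = α' := by linear_combination a1
  rw [a3] at a2
  have a4 : α' * Complex.I = 0 := by linear_combination a2 / 2
  rcases mul_eq_zero.mp a4 with h | h
  · exact ne0 h2 h
  · exact Complex.I_ne_zero h

theorem dir_fix2 {g : Equiv.Perm ℂ} (hg : IsDir g) {P Q : ℂ} (hPQ : P ≠ Q) (hP : g P = P)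
    (hQ : g Q = Q) : g = 1 := by
  obtain ⟨α, β, h, e⟩ := hg
  rw [e] at hP hQ
  have h1 : (α - 1) * (P - Q) = 0 := by linear_combination hP - hQ
  have h2 : α = 1 := by
    rcases mul_eq_zero.mp h1 with h | h
    · linear_combination h
    · exact absurd (by linear_combination h) hPQ
  have h3 : β = 0 := by rw [h2] at hP; linear_combination hP
  apply Equiv.ext
  intro z
  rw [e, h2, h3]; simp

theorem opp_of_fix2 {g : Equiv.Perm ℂ} (hg : g ∈ E) (hg1 : g ≠ 1) {P Q : ℂ} (hPQ : P ≠ Q)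
    (hP : g P = P) (hQ : g Q = Q) : IsOpp g := by
  rcases hg with h | h
  · exact absurd (dir_fix2 h hPQ hP hQ) hg1
  · exact h

theorem fix2_eq {g h : Equiv.Perm ℂ} (hg : g ∈ E) (hh : h ∈ E) (hg1 : g ≠ 1) (hh1 : h ≠ 1)
    {P Q : ℂ} (hPQ : P ≠ Q) (gP : g P = P) (gQ : g Q = Q) (hP : h P = P) (hQ : h Q = Q) :
    g = h := by
  obtain ⟨α, β, a, ea⟩ := opp_of_fix2 hg hg1 hPQ gP gQ
  obtain ⟨α', β', b, eb⟩ := opp_of_fix2 hh hh1 hPQ hP hQ
  rw [ea] at gP gQ
  rw [eb] at hP hQ
  have h1 : (α - α') * (conj P - conj Q) = 0 := by linear_combination gP - gQ - hP + hQ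
  have h2 : α = α' := by
    rcases mul_eq_zero.mp h1 with h | h
    · linear_combination h
    · exfalso
      apply hPQ
      have : conj P = conj Q := by linear_combination h
      exact (starRingEnd ℂ).injective this
  have h3 : β = β' := by rw [h2] at gP; linear_combination gP - hP
  apply Equiv.ext
  intro z
  rw [ea, eb, h2, h3]

theorem opp_sq {g : Equiv.Perm ℂ} (hg : IsOpp g) : ∃ t, ∀ z, g (g z) = z + t := by
  obtain ⟨α, β, h⟩ := hg
  refine ⟨α * conj β + β, fun z => ?_⟩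
  have := (h.mul_opp h).2 z
  rw [Equiv.Perm.mul_apply] at this
  rw [this, mc h.1]; ring

theorem opp_invol {g : Equiv.Perm ℂ} (hg : IsOpp g) {P : ℂ} (hP : g P = P) : ∀ z, g (g z) = z := by
  obtain ⟨t, ht⟩ := opp_sq hg
  have h1 := ht P
  rw [hP, hP] at h1
  have : t = 0 := by linear_combination -h1
  intro z
  rw [ht, this, add_zero]

theorem iso_mid {g : Equiv.Perm ℂ} (hg : g ∈ E) (P Q : ℂ) :
    g ((P + Q) / 2) = (g P + g Q) / 2 := by
  rcases hg with ⟨α, β, _, e⟩ | ⟨α, β, _, e⟩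
  · rw [e, e, e]; ring
  · rw [e, e, e]
    have : conj ((P + Q) / 2) = (conj P + conj Q) / 2 := by
      rw [map_div₀, map_add, show conj (2 : ℂ) = 2 from map_ofNat _ 2]
    rw [this]; ring

theorem iso_norm {g : Equiv.Perm ℂ} (hg : g ∈ E) (P Q : ℂ) : ‖g P - g Q‖ = ‖P - Q‖ := by
  rcases hg with ⟨α, β, h, e⟩ | ⟨α, β, h, e⟩
  · rw [e, e]
    have : α * P + β - (α * Q + β) = α * (P - Q) := by ring
    rw [this, norm_mul, h, one_mul]
  · rw [e, e]
    have : α * conj P + β - (α * conj Q + β) = α * conj (P - Q) := by rw [map_sub]; ring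
    rw [this, norm_mul, h, one_mul, Complex.norm_conj]

/-- the isometry `z ↦ α conj z + β` -/
noncomputable def mkOpp (α β : ℂ) (h : ‖α‖ = 1) : Equiv.Perm ℂ where
  toFun z := α * conj z + β
  invFun w := α * conj (w - β)
  left_inv z := by
    show α * conj (α * conj z + β - β) = z
    rw [show α * conj z + β - β = α * conj z by ring, map_mul, Complex.conj_conj]
    linear_combination z * mc h
  right_inv w := by
    show α * conj (α * conj (w - β)) + β = w
    rw [map_mul, Complex.conj_conj]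
    linear_combination (w - β) * mc h

theorem mkOpp_opp (α β : ℂ) (h : ‖α‖ = 1) : Opp (mkOpp α β h) α β := ⟨h, fun _ => rfl⟩

/-- the isometry `z ↦ α z + β` -/
noncomputable def mkDir (α β : ℂ) (h : ‖α‖ = 1) : Equiv.Perm ℂ where
  toFun z := α * z + β
  invFun w := conj α * (w - β)
  left_inv z := by
    show conj α * (α * z + β - β) = z
    linear_combination z * mc h
  right_inv w := by
    show α * (conj α * (w - β)) + β = w
    linear_combination (w - β) * mc h

theorem mkDir_dir (α β : ℂ) (h : ‖α‖ = 1) : Dir (mkDir α β h) α β := ⟨h, fun _ => rfl⟩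

theorem unit_div {u : ℂ} (hu : u ≠ 0) : ‖u / conj u‖ = 1 := by
  rw [norm_div, Complex.norm_conj, div_self (norm_ne_zero_iff.mpr hu)]

/-! ### Invariant finite sets -/

theorem pres_inv {X : Finset ℂ} {g : Equiv.Perm ℂ} (h : ∀ z ∈ X, g z ∈ X) :
    ∀ z ∈ X, g⁻¹ z ∈ X := by
  have himg : X.image g = X := by
    apply Finset.eq_of_subset_of_card_le
    · intro z hz
      obtain ⟨y, hy, rfl⟩ := Finset.mem_image.mp hz
      exact h y hy
    · rw [Finset.card_image_of_injective _ g.injective]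
  intro z hz
  rw [← himg] at hz
  obtain ⟨y, hy, rfl⟩ := Finset.mem_image.mp hz
  simpa using hy

theorem pres_pow {X : Finset ℂ} {g : Equiv.Perm ℂ} (h : ∀ z ∈ X, g z ∈ X) (n : ℕ) :
    ∀ z ∈ X, (g ^ n) z ∈ X := by
  induction n with
  | zero => intro z hz; simpa using hz
  | succ n ih => intro z hz; rw [pow_succ', Equiv.Perm.mul_apply]; exact h _ (ih z hz)

theorem pres_zpow {X : Finset ℂ} {g : Equiv.Perm ℂ} (h : ∀ z ∈ X, g z ∈ X) (n : ℤ) :
    ∀ z ∈ X, (g ^ n) z ∈ X := by
  rcases Int.eq_nat_or_neg n with ⟨m, rfl | rfl⟩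
  · intro z hz; rw [zpow_natCast]; exact pres_pow h m z hz
  · intro z hz
    rw [zpow_neg, zpow_natCast, ← inv_pow]
    exact pres_pow (pres_inv h) m z hz

theorem no_translation {X : Finset ℂ} (hX : X.Nonempty) {t : ℂ} (h : ∀ z ∈ X, z + t ∈ X) :
    t = 0 := by
  by_contra ht
  obtain ⟨x, hx⟩ := hX
  have h1 : ∀ n : ℕ, x + n * t ∈ X := by
    intro n
    induction n with
    | zero => simpa using hx
    | succ n ih =>
      have := h _ ih
      have e : x + ((n + 1 : ℕ) : ℂ) * t = x + n * t + t := by push_cast; ring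
      rwa [e]
  have hinj : Function.Injective (fun j : ℕ => x + j * t) := by
    intro i j hij
    simp only [add_right_inj] at hij
    have := mul_right_cancel₀ ht hij
    exact_mod_cast this
  exact (Set.infinite_range_of_injective hinj)
    (X.finite_toSet.subset (by rintro _ ⟨n, rfl⟩; exact h1 n))

theorem opp_finite_invol {X : Finset ℂ} (hX : X.Nonempty) {g : Equiv.Perm ℂ} (hg : IsOpp g)
    (h : ∀ z ∈ X, g z ∈ X) : ∀ z, g (g z) = z := by
  obtain ⟨t, ht⟩ := opp_sq hg
  have : t = 0 := no_translation hX (fun z hz => by rw [← ht]; exact h _ (h z hz))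
  intro z
  rw [ht, this, add_zero]

theorem dir_finite {X : Finset ℂ} (hX : X.Nonempty) {g : Equiv.Perm ℂ} (hg1 : g ≠ 1) {α β : ℂ}
    (hg : Dir g α β) (h : ∀ z ∈ X, g z ∈ X) : α ≠ 1 := by
  rintro rfl
  have : β = 0 := no_translation hX (fun z hz => by
    have := h z hz
    rw [hg.2, one_mul] at this
    exact this)
  apply hg1
  apply Equiv.ext
  intro z
  rw [hg.2, this]; simp

theorem dir_centre {g : Equiv.Perm ℂ} {α β : ℂ} (hg : Dir g α β) (hα : α ≠ 1) :
    ∃ c, g c = c ∧ ∀ z, g z = c + α * (z - c) := by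
  have h1 : 1 - α ≠ 0 := sub_ne_zero.mpr (Ne.symm hα)
  refine ⟨β / (1 - α), ?_, fun z => ?_⟩
  · rw [hg.2]; field_simp; ring
  · rw [hg.2]; field_simp; ring

theorem rot_zpow {g : Equiv.Perm ℂ} {α c : ℂ} (hα : α ≠ 0) (hg : ∀ z, g z = c + α * (z - c))
    (n : ℤ) (z : ℂ) : (g ^ n) z = c + α ^ n * (z - c) := by
  have hinv : ∀ z, g⁻¹ z = c + α⁻¹ * (z - c) := by
    intro z
    rw [Equiv.Perm.inv_eq_iff_eq, hg]
    field_simp; ring
  induction n generalizing z with
  | zero => simp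
  | succ n ih =>
    rw [zpow_add_one, Equiv.Perm.mul_apply, ih, hg, zpow_add_one₀ hα]; ring
  | pred n ih =>
    rw [zpow_sub_one, Equiv.Perm.mul_apply, ih, hinv, zpow_sub_one₀ hα]; ring

/-- A small finite set with a rotational symmetry of order greater than two has a reflection. -/
theorem refl_of_rot {X : Finset ℂ} (hX5 : X.card ≤ 5) {g : Equiv.Perm ℂ} {α c : ℂ}
    (hn : ‖α‖ = 1) (hα1 : α ≠ 1) (hα2 : α ≠ -1) (hg : ∀ z, g z = c + α * (z - c))
    (h : ∀ z ∈ X, g z ∈ X) :
    ∃ r : Equiv.Perm ℂ, IsOpp r ∧ (∀ z, r (r z) = z) ∧ ∀ z ∈ X, r z ∈ X := by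
  have hα0 := ne0 hn
  have hαsq : α ^ 2 ≠ 1 := by
    intro hh
    have : (α - 1) * (α + 1) = 0 := by linear_combination hh
    rcases mul_eq_zero.mp this with h | h
    · exact hα1 (by linear_combination h)
    · exact hα2 (by linear_combination h)
  by_cases hc : ∀ x ∈ X, x = c
  · have hop := mkOpp_opp 1 (c - conj c) (by simp)
    have hfc : mkOpp 1 (c - conj c) (by simp) c = c := by rw [hop.2]; ring
    refine ⟨mkOpp 1 (c - conj c) (by simp), ⟨_, _, hop⟩, opp_invol ⟨_, _, hop⟩ hfc, ?_⟩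
    intro z hz
    rw [hc z hz, hfc, ← hc z hz]; exact hz
  · push Not at hc
    obtain ⟨x, hx, hxc⟩ := hc
    have hu : x - c ≠ 0 := sub_ne_zero.mpr hxc
    have hcu : conj (x - c) ≠ 0 := by
      intro hh; apply hu; exact (map_eq_zero _).mp hh
    have hnu := unit_div hu
    set u := (x - c) / conj (x - c) with hudef
    have hop := mkOpp_opp u (c - u * conj c) hnu
    set r := mkOpp u (c - u * conj c) hnu with hr
    have hrz : ∀ z, r z = c + u * conj (z - c) := by
      intro z; rw [hop.2, map_sub]; ring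
    have hrc : r c = c := by rw [hrz]; simp
    have hrx : r x = x := by
      rw [hrz, hudef, div_mul_cancel₀ _ hcu]; ring
    refine ⟨r, ⟨_, _, hop⟩, opp_invol ⟨_, _, hop⟩ hrc, ?_⟩
    have key : ∀ y ∈ X, y ≠ c → ∃ i : ℤ, y = (g ^ i) x := by
      intro y hy hyc
      by_contra hcon
      push Not at hcon
      have hdist : ∀ w, w ≠ c → w ≠ g w ∧ w ≠ g (g w) ∧ g w ≠ g (g w) := by
        intro w hw
        have hw' : w - c ≠ 0 := sub_ne_zero.mpr hw
        have d1 : w ≠ g w := by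
          intro hh
          rw [hg] at hh
          have : (α - 1) * (w - c) = 0 := by linear_combination -hh
          rcases mul_eq_zero.mp this with h | h
          · exact hα1 (by linear_combination h)
          · exact hw' h
        refine ⟨d1, ?_, fun hh => d1 (g.injective hh)⟩
        intro hh
        rw [hg, hg] at hh
        have : (α ^ 2 - 1) * (w - c) = 0 := by linear_combination -hh
        rcases mul_eq_zero.mp this with h | h
        · exact hαsq (by linear_combination h)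
        · exact hw' h
      have hAc : ∀ w, w ≠ c → ({w, g w, g (g w)} : Finset ℂ).card = 3 := by
        intro w hw
        obtain ⟨d1, d2, d3⟩ := hdist w hw
        exact Finset.card_eq_three.mpr ⟨w, g w, g (g w), d1, d2, d3, rfl⟩
      have hsub : ∀ w ∈ X, ({w, g w, g (g w)} : Finset ℂ) ⊆ X := by
        intro w hw v hv
        simp only [Finset.mem_insert, Finset.mem_singleton] at hv
        rcases hv with rfl | rfl | rfl
        · exact hw
        · exact h _ hw
        · exact h _ (h _ hw)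
      have hdisj : Disjoint ({x, g x, g (g x)} : Finset ℂ) ({y, g y, g (g y)} : Finset ℂ) := by
        rw [Finset.disjoint_left]
        intro v hv1 hv2
        have e1 : ∃ i : ℤ, v = (g ^ i) x := by
          simp only [Finset.mem_insert, Finset.mem_singleton] at hv1
          rcases hv1 with rfl | rfl | rfl
          · exact ⟨0, by simp⟩
          · exact ⟨1, by simp⟩
          · exact ⟨2, by rw [zpow_ofNat, pow_two, Equiv.Perm.mul_apply]⟩
        have e2 : ∃ i : ℤ, v = (g ^ i) y := by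
          simp only [Finset.mem_insert, Finset.mem_singleton] at hv2
          rcases hv2 with rfl | rfl | rfl
          · exact ⟨0, by simp⟩
          · exact ⟨1, by simp⟩
          · exact ⟨2, by rw [zpow_ofNat, pow_two, Equiv.Perm.mul_apply]⟩
        obtain ⟨i, hi⟩ := e1
        obtain ⟨j, hj⟩ := e2
        apply hcon (-j + i)
        rw [zpow_add, Equiv.Perm.mul_apply, ← hi, hj, ← Equiv.Perm.mul_apply, ← zpow_add]
        simp
      have := Finset.card_le_card (Finset.union_subset (hsub x hx) (hsub y hy))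
      rw [Finset.card_union_of_disjoint hdisj, hAc x hxc, hAc y hyc] at this
      omega
    intro y hy
    by_cases hyc : y = c
    · rw [hyc, hrc, ← hyc]; exact hy
    · obtain ⟨i, hi⟩ := key y hy hyc
      have : r y = (g ^ (-i)) x := by
        rw [hi, rot_zpow hα0 hg, rot_zpow hα0 hg, hrz]
        have hcz : conj (α ^ i) = α ^ (-i) := by
          rw [map_zpow₀, zpow_neg, ← inv_zpow]
          congr 1
          rw [eq_comm, inv_eq_iff_eq_inv, eq_comm]
          rw [inv_eq_of_mul_eq_one_left]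
          exact mc hn
        have e1 : c + α ^ i * (x - c) - c = α ^ i * (x - c) := by ring
        rw [e1, map_mul, hcz, hudef]
        field_simp
      rw [this]
      exact pres_zpow h (-i) x hx

end Pool.Agent.Q19.ExtE
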