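import Mathlib
import Pool.Agent.Q19.ExtE

/-!
# Seven plane points, not all on a line, have a subset without symmetries (helper19)
-/

namespace Pool.Agent.Q19.ExtF

open ComplexConjugate Pool.Agent.Q19.ExtE

theorem opp_ne_one {g : Equiv.Perm ℂ} (h : IsOpp g) : g ≠ 1 := by
  rintro rfl
  exact not_both ⟨_, _, dir_one⟩ h

theorem opp_mem {g : Equiv.Perm ℂ} (h : IsOpp g) : g ∈ E := Or.inr h

/-- three collinear points and a fourth one off the line -/
theorem colA {X Y Z V : ℂ} (hXY : X ≠ Y) (hXZ : X ≠ Z) (hYZ : Y ≠ Z) {r g : Equiv.Perm ℂ}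
    (hr : r ∈ E) (hr1 : r ≠ 1) (hX : r X = X) (hY : r Y = Y) (hZ : r Z = Z) (hV : r V ≠ V)
    (hg : g ∈ E) (hg1 : g ≠ 1)
    (hpres : ∀ z ∈ ({X, Y, Z, V} : Finset ℂ), g z ∈ ({X, Y, Z, V} : Finset ℂ)) :
    IsOpp g ∧ g V = V ∧ 2 * (X + Y + Z) = 3 * (V + r V) ∧ ∀ P, r P = P → g P = V + r V - P := by
  have hVX : V ≠ X := by rintro rfl; exact hV hX
  have hVY : V ≠ Y := by rintro rfl; exact hV hY
  have hVZ : V ≠ Z := by rintro rfl; exact hV hZ
  have hpinv := pres_inv hpres
  have hr'E : g * r * g⁻¹ ∈ E := E.mul_mem (E.mul_mem hg hr) (E.inv_mem hg)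
  have hr'1 : g * r * g⁻¹ ≠ 1 := by
    intro h
    apply hr1
    have : g * r = g := by
      have := congrArg (· * g) h
      simpa [mul_assoc] using this
    exact mul_eq_left.mp this
  have hfix : ∀ y ∈ ({X, Y, Z, V} : Finset ℂ), y ≠ g V → (g * r * g⁻¹) y = y := by
    intro y hy hyV
    have h1 := hpinv y hy
    have h2 : g⁻¹ y ≠ V := by
      intro h
      apply hyV
      rw [← h]; simp
    have h3 : r (g⁻¹ y) = g⁻¹ y := by
      simp only [Finset.mem_insert, Finset.mem_singleton] at h1
      rcases h1 with h | h | h | h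
      · rw [h, hX]
      · rw [h, hY]
      · rw [h, hZ]
      · exact absurd h h2
    rw [Equiv.Perm.mul_apply, Equiv.Perm.mul_apply, h3]; simp
  have mX : X ∈ ({X, Y, Z, V} : Finset ℂ) := by simp
  have mY : Y ∈ ({X, Y, Z, V} : Finset ℂ) := by simp
  have mZ : Z ∈ ({X, Y, Z, V} : Finset ℂ) := by simp
  have mV : V ∈ ({X, Y, Z, V} : Finset ℂ) := by simp
  have hgV : g V = V := by
    by_contra hgV
    have hV' := hfix V mV (fun h => hgV h.symm)
    have hcon : g * r * g⁻¹ = r → False := by
      intro h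
      rw [h] at hV'
      exact hV hV'
    have h1 := hpres V mV
    simp only [Finset.mem_insert, Finset.mem_singleton] at h1
    rcases h1 with h | h | h | h
    · exact hcon (fix2_eq hr'E hr hr'1 hr1 hYZ (hfix Y mY (by rw [h]; exact hXY.symm))
        (hfix Z mZ (by rw [h]; exact hXZ.symm)) hY hZ)
    · exact hcon (fix2_eq hr'E hr hr'1 hr1 hXZ (hfix X mX (by rw [h]; exact hXY))
        (hfix Z mZ (by rw [h]; exact hYZ.symm)) hX hZ)
    · exact hcon (fix2_eq hr'E hr hr'1 hr1 hXY (hfix X mX (by rw [h]; exact hXZ))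
        (hfix Y mY (by rw [h]; exact hYZ)) hX hY)
    · exact hgV h
  have hcomm : g * r * g⁻¹ = r :=
    fix2_eq hr'E hr hr'1 hr1 hXY (hfix X mX (by rw [hgV]; exact hVX.symm))
      (hfix Y mY (by rw [hgV]; exact hVY.symm)) hX hY
  have hgr : ∀ z, g (r z) = r (g z) := by
    intro z
    have : g * r = r * g := by
      have := congrArg (· * g) hcomm
      simpa [mul_assoc] using this
    exact congrArg (fun f : Equiv.Perm ℂ => f z) this
  have hgrV : g (r V) = r V := by rw [hgr, hgV]
  have hgO : IsOpp g := opp_of_fix2 hg hg1 hV.symm hgV hgrV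
  have hrO : IsOpp r := opp_of_fix2 hr hr1 hXY hX hY
  have hgi := opp_invol hgO hgV
  have hri := opp_invol hrO hX
  have hgN : g ((V + r V) / 2) = (V + r V) / 2 := by rw [iso_mid hg, hgV, hgrV]
  have hrN : r ((V + r V) / 2) = (V + r V) / 2 := by
    rw [iso_mid hr, hri, add_comm]
  have hgner : g ≠ r := by
    rintro rfl
    exact hV hgV
  have hP : ∀ P, r P = P → g P = V + r V - P := by
    intro P hP
    have h1 : g ((P + g P) / 2) = (P + g P) / 2 := by rw [iso_mid hg, hgi, add_comm]
    have h2 : r ((P + g P) / 2) = (P + g P) / 2 := by rw [iso_mid hr, ← hgr, hP]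
    by_contra hcon
    apply hgner
    apply fix2_eq hg hr hg1 hr1 (P := (P + g P) / 2) (Q := (V + r V) / 2) _ h1 hgN h2 hrN
    intro h
    apply hcon
    linear_combination 2 * h
  refine ⟨hgO, hgV, ?_, hP⟩
  -- sum over the three points
  have hT : ∀ z ∈ ({X, Y, Z} : Finset ℂ), g z ∈ ({X, Y, Z} : Finset ℂ) := by
    intro z hz
    have hz4 : z ∈ ({X, Y, Z, V} : Finset ℂ) := by
      simp only [Finset.mem_insert, Finset.mem_singleton] at hz ⊢; tauto
    have h1 := hpres z hz4
    have h2 : g z ≠ V := by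
      intro h
      have : z = V := g.injective (h.trans hgV.symm)
      rw [this] at hz
      simp only [Finset.mem_insert, Finset.mem_singleton] at hz
      rcases hz with h | h | h
      · exact hVX h
      · exact hVY h
      · exact hVZ h
    simp only [Finset.mem_insert, Finset.mem_singleton] at h1 ⊢
    tauto
  have himg : ({X, Y, Z} : Finset ℂ).image g = {X, Y, Z} := by
    apply Finset.eq_of_subset_of_card_le
    · intro z hz
      obtain ⟨y, hy, rfl⟩ := Finset.mem_image.mp hz
      exact hT y hy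
    · rw [Finset.card_image_of_injective _ g.injective]
  have hsum : ∑ z ∈ ({X, Y, Z} : Finset ℂ), g z = ∑ z ∈ ({X, Y, Z} : Finset ℂ), z := by
    conv_rhs => rw [← himg]
    rw [Finset.sum_image (fun x _ y _ h => g.injective h)]
  have e1 : ∀ f : ℂ → ℂ, ∑ z ∈ ({X, Y, Z} : Finset ℂ), f z = f X + (f Y + f Z) := by
    intro f
    rw [Finset.sum_insert (by simp [hXY, hXZ]), Finset.sum_insert (by simp [hYZ]),
      Finset.sum_singleton]
  rw [e1, e1, hP X hX, hP Y hY, hP Z hZ] at hsum
  linear_combination -hsum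

section Main

variable {W : Finset ℂ} (hst : ∀ g ∈ E, (∀ w ∈ W, g w = w) → g = 1)
  (hsym : ∀ K ⊆ W, ∃ g ∈ E, g ≠ 1 ∧ ∀ z ∈ K, g z ∈ K)

include hst hsym

/-- no four points of `W` are on a line -/
theorem noFour {r : Equiv.Perm ℂ} (hr : r ∈ E) (hr1 : r ≠ 1) {T : Finset ℂ} (hTW : T ⊆ W)
    (hT4 : 4 ≤ T.card) (hfix : ∀ P ∈ T, r P = P) : False := by
  obtain ⟨V, hV, hrV⟩ : ∃ V ∈ W, r V ≠ V := by
    by_contra hcon
    push Not at hcon
    exact hr1 (hst r hr hcon)
  obtain ⟨X, hX, Y, hY, Z, hZ, hXY, hXZ, hYZ⟩ := Finset.two_lt_card.mp (by omega : 2 < T.card)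
  obtain ⟨U, hU, hUn⟩ : ∃ U ∈ T, U ∉ ({X, Y, Z} : Finset ℂ) := by
    by_contra hcon
    push Not at hcon
    have := (Finset.card_le_card (fun u hu => hcon u hu : T ⊆ {X, Y, Z})).trans
      Finset.card_le_three
    omega
  simp only [Finset.mem_insert, Finset.mem_singleton] at hUn
  push Not at hUn
  have sub : ∀ {A B C : ℂ}, A ∈ T → B ∈ T → C ∈ T → ({A, B, C, V} : Finset ℂ) ⊆ W := by
    intro A B C hA hB hC z hz
    simp only [Finset.mem_insert, Finset.mem_singleton] at hz
    rcases hz with rfl | rfl | rfl | rfl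
    · exact hTW hA
    · exact hTW hB
    · exact hTW hC
    · exact hV
  obtain ⟨g, hg, hg1, hgp⟩ := hsym _ (sub hX hY hZ)
  obtain ⟨g', hg', hg1', hgp'⟩ := hsym _ (sub hX hY hU)
  have h1 := (colA hXY hXZ hYZ hr hr1 (hfix X hX) (hfix Y hY) (hfix Z hZ) hrV hg hg1 hgp).2.2.1
  have h2 := (colA hXY hUn.1.symm hUn.2.1.symm hr hr1 (hfix X hX) (hfix Y hY) (hfix U hU) hrV
    hg' hg1' hgp').2.2.1
  apply hUn.2.2
  linear_combination (h2 - h1) / 2

/-- no three points of `W` are on a line -/
theorem noThree (hW : W.card = 7) {r : Equiv.Perm ℂ} (hr : r ∈ E) (hr1 : r ≠ 1) {X Y Z : ℂ}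
    (mX : X ∈ W) (mY : Y ∈ W) (mZ : Z ∈ W) (hXY : X ≠ Y) (hXZ : X ≠ Z) (hYZ : Y ≠ Z)
    (hX : r X = X) (hY : r Y = Y) (hZ : r Z = Z) : False := by
  have hcard3 : ({X, Y, Z} : Finset ℂ).card = 3 := Finset.card_eq_three.mpr
    ⟨X, Y, Z, hXY, hXZ, hYZ, rfl⟩
  have hsub3 : ({X, Y, Z} : Finset ℂ) ⊆ W := by
    intro z hz
    simp only [Finset.mem_insert, Finset.mem_singleton] at hz
    rcases hz with rfl | rfl | rfl <;> assumption
  have hcard4 : (W \ {X, Y, Z}).card = 4 := by
    rw [Finset.card_sdiff_of_subset hsub3, hW, hcard3]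
  have hmove : ∀ V ∈ W \ {X, Y, Z}, r V ≠ V := by
    intro V hV hrV
    rw [Finset.mem_sdiff] at hV
    apply noFour hst hsym hr hr1 (T := insert V {X, Y, Z})
      (Finset.insert_subset hV.1 hsub3)
    · rw [Finset.card_insert_of_notMem hV.2, hcard3]
    · intro P hP
      simp only [Finset.mem_insert, Finset.mem_singleton] at hP
      rcases hP with rfl | rfl | rfl | rfl <;> assumption
  have hex : ∀ V ∈ W \ {X, Y, Z}, ∃ g ∈ E, g ≠ 1 ∧ IsOpp g ∧ g V = V ∧
      ∀ P, r P = P → g P = 2 * (X + Y + Z) / 3 - P := by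
    intro V hV
    have hV' := Finset.mem_sdiff.mp hV
    obtain ⟨g, hg, hg1, hgp⟩ := hsym {X, Y, Z, V} (by
      intro z hz
      simp only [Finset.mem_insert, Finset.mem_singleton] at hz
      rcases hz with rfl | rfl | rfl | rfl
      · exact mX
      · exact mY
      · exact mZ
      · exact hV'.1)
    obtain ⟨h1, h2, h3, h4⟩ := colA hXY hXZ hYZ hr hr1 hX hY hZ (hmove V hV) hg hg1 hgp
    refine ⟨g, hg, hg1, h1, h2, fun P hP => ?_⟩
    rw [h4 P hP]
    linear_combination -h3 / 3
  obtain ⟨V1, hV1⟩ : (W \ {X, Y, Z}).Nonempty := Finset.card_pos.mp (by omega)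
  obtain ⟨g, hg, hg1, hgO, hgV, hgP⟩ := hex V1 hV1
  apply noFour hst hsym hg hg1 (T := W \ {X, Y, Z}) Finset.sdiff_subset (by omega)
  intro V hV
  obtain ⟨g', hg', hg1', hgO', hgV', hgP'⟩ := hex V hV
  have : g⁻¹ * g' = 1 := by
    obtain ⟨α, β, ho⟩ := hgO
    obtain ⟨α', β', ho'⟩ := hgO'
    apply dir_fix2 ⟨_, _, ho.inv.mul_opp ho'⟩ hXY
    · rw [Equiv.Perm.mul_apply, Equiv.Perm.inv_eq_iff_eq, hgP X hX, hgP' X hX]
    · rw [Equiv.Perm.mul_apply, Equiv.Perm.inv_eq_iff_eq, hgP Y hY, hgP' Y hY]
  have hgg : g' = g := by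
    have := congrArg (g * ·) this
    simpa using this
  rw [← hgg]; exact hgV'

theorem iso3 (hW : W.card = 7) {A B C : ℂ} (mA : A ∈ W) (mB : B ∈ W) (mC : C ∈ W) (hAB : A ≠ B)
    (hAC : A ≠ C) (hBC : B ≠ C) : ‖A - B‖ = ‖A - C‖ ∨ ‖B - A‖ = ‖B - C‖ ∨ ‖C - A‖ = ‖C - B‖ := by
  obtain ⟨g, hg, hg1, hgp⟩ := hsym {A, B, C} (by
    intro z hz
    simp only [Finset.mem_insert, Finset.mem_singleton] at hz
    rcases hz with rfl | rfl | rfl <;> assumption)
  have hnot : ¬ (g A = A ∧ g B = B ∧ g C = C) := by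
    rintro ⟨h1, h2, h3⟩
    exact noThree hst hsym hW hg hg1 mA mB mC hAB hAC hBC h1 h2 h3
  have gA := hgp A (by simp)
  have gB := hgp B (by simp)
  have gC := hgp C (by simp)
  simp only [Finset.mem_insert, Finset.mem_singleton] at gA gB gC
  have iAB := iso_norm hg A B
  have iAC := iso_norm hg A C
  have iBC := iso_norm hg B C
  have nAB : g A ≠ g B := fun h => hAB (g.injective h)
  have nAC : g A ≠ g C := fun h => hAC (g.injective h)
  have nBC : g B ≠ g C := fun h => hBC (g.injective h)
  rcases gA with h1 | h1 | h1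
  · rcases gB with h2 | h2 | h2
    · exact absurd (h1.trans h2.symm) nAB
    · rcases gC with h3 | h3 | h3
      · exact absurd (h1.trans h3.symm) nAC
      · exact absurd (h2.trans h3.symm) nBC
      · exact absurd ⟨h1, h2, h3⟩ hnot
    · left
      rw [h1, h2] at iAB
      exact iAB.symm
  · rcases gB with h2 | h2 | h2
    · rcases gC with h3 | h3 | h3
      · exact absurd (h2.trans h3.symm) nBC
      · exact absurd (h1.trans h3.symm) nAC
      · right; right
        rw [h1, h3] at iAC
        rw [norm_sub_rev C A, norm_sub_rev C B]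
        exact iAC.symm
    · exact absurd (h1.trans h2.symm) nAB
    · right; left
      rw [h1, h2] at iAB
      rw [norm_sub_rev B A]
      exact iAB.symm
  · rcases gB with h2 | h2 | h2
    · left
      rw [h1, h2] at iAB
      rw [norm_sub_rev A C]
      exact iAB.symm
    · right; left
      rw [h1, h2] at iAB
      rw [norm_sub_rev B A, norm_sub_rev B C]
      exact iAB.symm
    · exact absurd (h1.trans h2.symm) nAB

/-- every four points of `W` are symmetric under a reflection -/
theorem four_refl (hW : W.card = 7) {S : Finset ℂ} (hSW : S ⊆ W) (hS : S.card = 4) :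
    ∃ σ : Equiv.Perm ℂ, IsOpp σ ∧ (∀ z, σ (σ z) = z) ∧ ∀ z ∈ S, σ z ∈ S := by
  have hne : S.Nonempty := Finset.card_pos.mp (by omega)
  obtain ⟨g, hg, hg1, hgp⟩ := hsym S hSW
  rcases hg with ⟨α, β, hd⟩ | ho
  · have hα1 := dir_finite hne hg1 hd hgp
    obtain ⟨c, hc, hform⟩ := dir_centre hd hα1
    by_cases hα2 : α = -1
    · have hz : ∀ z, g z = 2 * c - z := by intro z; rw [hform, hα2]; ring
      -- a point different from the centre
      obtain ⟨x, hx, hxc⟩ : ∃ x ∈ S, x ≠ c := by
        by_contra hcon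
        push Not at hcon
        have : S ⊆ {c} := fun u hu => Finset.mem_singleton.mpr (hcon u hu)
        have := Finset.card_le_card this
        simp [hS] at this
      have hx' : 2 * c - x ∈ S := by rw [← hz]; exact hgp x hx
      have hxx : x ≠ 2 * c - x := by
        intro h; apply hxc; linear_combination h / 2
      obtain ⟨y, hy, hyn, hyc⟩ : ∃ y ∈ S, y ∉ ({x, 2 * c - x} : Finset ℂ) ∧ y ≠ c := by
        by_contra hcon
        push Not at hcon
        have : S ⊆ {x, 2 * c - x, c} := by
          intro y hy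
          by_cases h : y ∈ ({x, 2 * c - x} : Finset ℂ)
          · simp only [Finset.mem_insert, Finset.mem_singleton] at h ⊢; tauto
          · have := hcon y hy h
            simp [this]
        have := (Finset.card_le_card this).trans Finset.card_le_three
        omega
      simp only [Finset.mem_insert, Finset.mem_singleton] at hyn
      push Not at hyn
      have hy' : 2 * c - y ∈ S := by rw [← hz]; exact hgp y hy
      have hyy : y ≠ 2 * c - y := by
        intro h; apply hyc; linear_combination h / 2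
      have hSeq : ∀ z ∈ S, z = x ∨ z = 2 * c - x ∨ z = y ∨ z = 2 * c - y := by
        have hcard : ({x, 2 * c - x, y, 2 * c - y} : Finset ℂ).card = 4 := by
          rw [Finset.card_insert_of_notMem, Finset.card_insert_of_notMem,
            Finset.card_insert_of_notMem, Finset.card_singleton]
          · simpa using hyy
          · simp only [Finset.mem_insert, Finset.mem_singleton]
            push Not
            exact ⟨hyn.2.symm, fun h => hyn.1 (by linear_combination h)⟩
          · simp only [Finset.mem_insert, Finset.mem_singleton]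
            push Not
            exact ⟨hxx, hyn.1.symm, fun h => hyn.2 (by linear_combination h)⟩
        have hsub : ({x, 2 * c - x, y, 2 * c - y} : Finset ℂ) ⊆ S := by
          intro z hz
          simp only [Finset.mem_insert, Finset.mem_singleton] at hz
          rcases hz with rfl | rfl | rfl | rfl <;> assumption
        have := Finset.eq_of_subset_of_card_le hsub (by omega)
        intro z hz
        rw [← this] at hz
        simpa using hz
      -- the diagonals are orthogonal
      have t1 := iso3 hst hsym hW (hSW hx) (hSW hx') (hSW hy) hxx hyn.1.symm hyn.2.symm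
      have t2 := iso3 hst hsym hW (hSW hy) (hSW hy') (hSW hx) hyy hyn.1
        (fun h => hyn.2 (by linear_combination -h))
      obtain ⟨a, ha⟩ : ∃ a, a = x - c := ⟨_, rfl⟩
      obtain ⟨b, hb⟩ : ∃ b, b = y - c := ⟨_, rfl⟩
      have n1 : ‖x - (2 * c - x)‖ = 2 * ‖a‖ := by
        rw [show x - (2 * c - x) = 2 * a by rw [ha]; ring, norm_mul]; norm_num
      have n2 : ‖y - (2 * c - y)‖ = 2 * ‖b‖ := by
        rw [show y - (2 * c - y) = 2 * b by rw [hb]; ring, norm_mul]; norm_num
      have n3 : ‖x - y‖ = ‖a - b‖ := by rw [ha, hb]; congr 1; ring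
      have n4 : ‖(2 * c - x) - y‖ = ‖a + b‖ := by
        rw [ha, hb, ← norm_neg]; congr 1; ring
      have n5 : ‖(2 * c - y) - x‖ = ‖a + b‖ := by
        rw [ha, hb, ← norm_neg]; congr 1; ring
      have r1 : ‖(2 * c - x) - x‖ = 2 * ‖a‖ := by rw [norm_sub_rev]; exact n1
      have r2 : ‖(2 * c - y) - y‖ = 2 * ‖b‖ := by rw [norm_sub_rev]; exact n2
      have r3 : ‖y - x‖ = ‖a - b‖ := by rw [norm_sub_rev]; exact n3
      have r4 : ‖y - (2 * c - x)‖ = ‖a + b‖ := by rw [norm_sub_rev]; exact n4
      have r5 : ‖x - (2 * c - y)‖ = ‖a + b‖ := by rw [norm_sub_rev]; exact n5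
      rw [n1, n3, r1, n4, r3, r4] at t1
      rw [n2, r3, r2, n5, n3, r5] at t2
      have hpar : ‖a - b‖ ^ 2 + ‖a + b‖ ^ 2 = 2 * (‖a‖ ^ 2 + ‖b‖ ^ 2) := by
        have := parallelogram_law_with_norm ℝ a b
        nlinarith [this]
      have hpos1 : 0 < ‖a - b‖ := by
        rw [norm_pos_iff, sub_ne_zero]
        intro h
        apply hyn.1
        rw [ha, hb] at h
        linear_combination -h
      have hpos2 : 0 < ‖a + b‖ := by
        rw [norm_pos_iff]
        intro h
        apply hyn.2
        rw [ha, hb] at h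
        linear_combination h
      have heq : ‖a - b‖ = ‖a + b‖ := by
        rcases t1 with h | h | h
        · rcases t2 with h' | h' | h'
          · nlinarith [norm_nonneg a, norm_nonneg b]
          · nlinarith [norm_nonneg a, norm_nonneg b]
          · exact h'
        · rcases t2 with h' | h' | h'
          · nlinarith [norm_nonneg a, norm_nonneg b]
          · nlinarith [norm_nonneg a, norm_nonneg b]
          · exact h'
        · exact h
      have horth : a * conj b + conj a * b = 0 := by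
        have h1 : (a - b) * conj (a - b) = (a + b) * conj (a + b) := by
          rw [Complex.mul_conj, Complex.mul_conj, Complex.normSq_eq_norm_sq,
            Complex.normSq_eq_norm_sq, heq]
        rw [map_sub, map_add] at h1
        linear_combination -h1 / 2
      have ha0 : a ≠ 0 := by rw [ha]; exact sub_ne_zero.mpr hxc
      have hca0 : conj a ≠ 0 := fun h => ha0 ((map_eq_zero _).mp h)
      have hop := mkOpp_opp (a / conj a) (c - a / conj a * conj c) (unit_div ha0)
      set σ := mkOpp (a / conj a) (c - a / conj a * conj c) (unit_div ha0) with hσ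
      have hσz : ∀ z, σ z = c + a / conj a * conj (z - c) := by
        intro z; rw [hop.2, map_sub]; ring
      have sx : σ x = x := by
        rw [hσz, ← ha, div_mul_cancel₀ _ hca0, ha]; ring
      have sc : σ c = c := by rw [hσz]; simp
      have sx' : σ (2 * c - x) = 2 * c - x := by
        rw [hσz]
        rw [show 2 * c - x - c = -a by rw [ha]; ring, map_neg, mul_neg, div_mul_cancel₀ _ hca0, ha]
        ring
      have sy : σ y = 2 * c - y := by
        rw [hσz, ← hb]
        have : a / conj a * conj b = -b := by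
          field_simp
          linear_combination horth
        rw [this, hb]; ring
      have hinv := opp_invol ⟨_, _, hop⟩ sc
      refine ⟨σ, ⟨_, _, hop⟩, hinv, ?_⟩
      intro z hz
      rcases hSeq z hz with rfl | rfl | rfl | rfl
      · rw [sx]; exact hx
      · rw [sx']; exact hx'
      · rw [sy]; exact hy'
      · rw [← sy, hinv]; exact hy
    · obtain ⟨r, h1, h2, h3⟩ := refl_of_rot (by omega : S.card ≤ 5) hd.1 hα1 hα2 hform hgp
      exact ⟨r, h1, h2, h3⟩
  · exact ⟨g, ho, opp_finite_invol hne ho hgp, hgp⟩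

end Main

end Pool.Agent.Q19.ExtF
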