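import Mathlib
import Pool.Agent.Q19.ExtF

/-!
# Counting symmetric quadruples among seven points (helper19)
-/

namespace Pool.Agent.Q19.ExtG

open ComplexConjugate Pool.Agent.Q19.ExtE Pool.Agent.Q19.ExtF

theorem Rp_norm {B C : ℂ} (h : B ≠ C) : ‖-((C - B) / conj (C - B))‖ = 1 := by
  rw [norm_neg]; exact unit_div (sub_ne_zero.mpr h.symm)

open Classical in
/-- the reflection exchanging `B` and `C` -/
noncomputable def Rp (B C : ℂ) : Equiv.Perm ℂ :=
  if h : B ≠ C then mkOpp (-((C - B) / conj (C - B))) (C + (C - B) / conj (C - B) * conj B)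
    (Rp_norm h) else 1

theorem Rp_apply {B C : ℂ} (h : B ≠ C) (z : ℂ) :
    Rp B C z = C - (C - B) / conj (C - B) * conj (z - B) := by
  unfold Rp
  rw [dif_pos h, (mkOpp_opp _ _ (Rp_norm h)).2]
  simp only [map_sub]; ring

theorem Rp_opp {B C : ℂ} (h : B ≠ C) : IsOpp (Rp B C) := by
  unfold Rp
  rw [dif_pos h]
  exact ⟨_, _, mkOpp_opp _ _ (Rp_norm h)⟩

theorem Rp_left {B C : ℂ} (h : B ≠ C) : Rp B C B = C := by
  rw [Rp_apply h]; simp

theorem Rp_right {B C : ℂ} (h : B ≠ C) : Rp B C C = B := by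
  have : conj (C - B) ≠ 0 := fun hh => (sub_ne_zero.mpr h.symm) ((map_eq_zero _).mp hh)
  rw [Rp_apply h, div_mul_cancel₀ _ this]; ring

theorem Rp_unique {σ : Equiv.Perm ℂ} (hσ : IsOpp σ) {B C : ℂ} (h : B ≠ C) (h1 : σ B = C)
    (h2 : σ C = B) : Rp B C = σ := by
  obtain ⟨α, β, hn, e⟩ := hσ
  have hc : conj (C - B) ≠ 0 := fun hh => (sub_ne_zero.mpr h.symm) ((map_eq_zero _).mp hh)
  have hα : α = -((C - B) / conj (C - B)) := by
    rw [eq_neg_iff_add_eq_zero]
    have : α * conj (C - B) + (C - B) = 0 := by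
      rw [e] at h1 h2
      rw [map_sub]
      linear_combination h2 - h1
    field_simp
    linear_combination this
  apply Equiv.ext
  intro z
  have hk : (C - B) / conj (C - B) = -α := by rw [hα, neg_neg]
  rw [Rp_apply h, e, hk]
  rw [e] at h1
  simp only [map_sub]
  linear_combination -h1

open Classical in
/-- weight of a quadruple for an ordered pair -/
noncomputable def wt (p : ℂ × ℂ) (S : Finset ℂ) : ℕ :=
  if p.1 ∈ S ∧ p.2 ∈ S ∧ ∀ z ∈ S, Rp p.1 p.2 z ∈ S then
    (if ∃ z ∈ S, Rp p.1 p.2 z = z then 2 else 1) else 0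

section Main

variable {W : Finset ℂ} (hst : ∀ g ∈ E, (∀ w ∈ W, g w = w) → g = 1)
  (hsym : ∀ K ⊆ W, ∃ g ∈ E, g ≠ 1 ∧ ∀ z ∈ K, g z ∈ K) (hW : W.card = 7)

include hst hsym hW

theorem claim1 {S : Finset ℂ} (hS : S ∈ W.powersetCard 4) :
    4 ≤ ∑ p ∈ W.offDiag, wt p S := by
  classical
  rw [Finset.mem_powersetCard] at hS
  obtain ⟨hSW, hS4⟩ := hS
  obtain ⟨σ, ho, hi, hp⟩ := four_refl hst hsym hW hSW hS4
  obtain ⟨B, hB, hσB⟩ : ∃ B ∈ S, σ B ≠ B := by
    by_contra hcon
    push Not at hcon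
    exact noFour hst hsym (opp_mem ho) (opp_ne_one ho) hSW (by omega) hcon
  set M := S.filter (fun z => σ z ≠ z) with hM
  have hsub : M.image (fun z => (z, σ z)) ⊆ W.offDiag := by
    intro p hpm
    obtain ⟨z, hz, rfl⟩ := Finset.mem_image.mp hpm
    rw [hM, Finset.mem_filter] at hz
    rw [Finset.mem_offDiag]
    exact ⟨hSW hz.1, hSW (hp z hz.1), fun h => hz.2 h.symm⟩
  have hle : ∑ p ∈ M.image (fun z => (z, σ z)), wt p S ≤ ∑ p ∈ W.offDiag, wt p S :=
    Finset.sum_le_sum_of_subset hsub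
  rw [Finset.sum_image (fun x _ y _ h => (Prod.mk.inj h).1)] at hle
  have hwt : ∀ z ∈ M, wt (z, σ z) S = if ∃ z ∈ S, σ z = z then 2 else 1 := by
    intro z hz
    rw [hM, Finset.mem_filter] at hz
    have hR : Rp z (σ z) = σ := Rp_unique ho (fun h => hz.2 h.symm) rfl (hi z)
    unfold wt
    simp only [hR]
    rw [if_pos ⟨hz.1, hp z hz.1, hp⟩]
  rw [Finset.sum_congr rfl hwt, Finset.sum_const, smul_eq_mul] at hle
  by_cases hf : ∃ z ∈ S, σ z = z
  · rw [if_pos hf] at hle
    have h2 : ({B, σ B} : Finset ℂ) ⊆ M := by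
      intro z hz
      simp only [Finset.mem_insert, Finset.mem_singleton] at hz
      rw [hM, Finset.mem_filter]
      rcases hz with rfl | rfl
      · exact ⟨hB, hσB⟩
      · exact ⟨hp B hB, by rw [hi]; exact hσB.symm⟩
    have h3 := Finset.card_le_card h2
    rw [Finset.card_pair hσB.symm] at h3
    omega
  · rw [if_neg hf] at hle
    have : M = S := by
      rw [hM]
      apply Finset.filter_true_of_mem
      intro z hz h
      exact hf ⟨z, hz, h⟩
    rw [this, hS4] at hle
    omega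

theorem claim2 {p : ℂ × ℂ} (hp : p ∈ W.offDiag) :
    ∑ S ∈ W.powersetCard 4, wt p S ≤ 3 := by
  classical
  obtain ⟨B, C⟩ := p
  rw [Finset.mem_offDiag] at hp
  obtain ⟨hB, hC, hBC⟩ := hp
  simp only at hB hC hBC
  set r := Rp B C with hr
  have hrO := Rp_opp hBC
  have hrB := Rp_left hBC
  have hrC := Rp_right hBC
  rw [← hr] at hrO hrB hrC
  have hri : ∀ z, r (r z) = z := by
    -- the midpoint is fixed
    apply opp_invol hrO (P := (B + C) / 2)
    rw [iso_mid (opp_mem hrO), hrB, hrC, add_comm]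
  set Fx := W.filter (fun z => r z = z) with hFx
  have hFx2 : Fx.card ≤ 2 := by
    by_contra hcon
    push Not at hcon
    obtain ⟨X, hX, Y, hY, Z, hZ, hXY, hXZ, hYZ⟩ := Finset.two_lt_card.mp hcon
    rw [hFx, Finset.mem_filter] at hX hY hZ
    exact noThree hst hsym hW (opp_mem hrO) (opp_ne_one hrO) hX.1 hY.1 hZ.1 hXY hXZ hYZ
      hX.2 hY.2 hZ.2
  set 𝒜 := (W.powersetCard 4).filter (fun S => (B ∈ S ∧ C ∈ S ∧ ∀ z ∈ S, r z ∈ S) ∧
    ∃ z ∈ S, r z = z) with h𝒜
  set ℬ := (W.powersetCard 4).filter (fun S => (B ∈ S ∧ C ∈ S ∧ ∀ z ∈ S, r z ∈ S) ∧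
    ¬ ∃ z ∈ S, r z = z) with hℬ
  have hsum : ∑ S ∈ W.powersetCard 4, wt (B, C) S = 2 * 𝒜.card + ℬ.card := by
    rw [h𝒜, hℬ, Finset.card_filter, Finset.card_filter, Finset.mul_sum, ← Finset.sum_add_distrib]
    apply Finset.sum_congr rfl
    intro S _
    unfold wt
    simp only [← hr]
    by_cases h1 : B ∈ S ∧ C ∈ S ∧ ∀ z ∈ S, r z ∈ S
    · by_cases h2 : ∃ z ∈ S, r z = z
      · rw [if_pos h1, if_pos h2, if_pos ⟨h1, h2⟩, if_neg (fun h => h.2 h2)]; rfl
      · rw [if_pos h1, if_neg h2, if_neg (fun h => h2 h.2), if_pos ⟨h1, h2⟩]; rfl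
    · rw [if_neg h1, if_neg (fun h => h1 h.1), if_neg (fun h => h1 h.1)]; rfl
  rw [hsum]
  -- the rest of a quadruple
  have hrest : ∀ S : Finset ℂ, S.card = 4 → B ∈ S → C ∈ S → ((S.erase B).erase C).card = 2 := by
    intro S hS hBS hCS
    rw [Finset.card_erase_of_mem (Finset.mem_erase.mpr ⟨hBC.symm, hCS⟩),
      Finset.card_erase_of_mem hBS, hS]
  have hpresrest : ∀ S : Finset ℂ, (∀ z ∈ S, r z ∈ S) → ∀ z ∈ (S.erase B).erase C,
      r z ∈ (S.erase B).erase C := by
    intro S hS z hz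
    rw [Finset.mem_erase, Finset.mem_erase] at hz ⊢
    refine ⟨?_, ?_, hS z hz.2.2⟩
    · intro h; apply hz.2.1; rw [← hri z, h, hrC]
    · intro h; apply hz.1; rw [← hri z, h, hrB]
  -- fixed type
  have hA : ∀ S ∈ 𝒜, Fx.card = 2 ∧ S = insert B (insert C Fx) := by
    intro S hS
    rw [h𝒜, Finset.mem_filter, Finset.mem_powersetCard] at hS
    obtain ⟨⟨hSW, hS4⟩, ⟨hBS, hCS, hSp⟩, x, hx, hrx⟩ := hS
    have hxB : x ≠ B := by rintro rfl; exact hBC (hrx.symm.trans hrB)
    have hxC : x ≠ C := by rintro rfl; exact hBC (hrC.symm.trans hrx)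
    have hxr : x ∈ (S.erase B).erase C :=
      Finset.mem_erase.mpr ⟨hxC, Finset.mem_erase.mpr ⟨hxB, hx⟩⟩
    obtain ⟨y, hyx, hyeq⟩ : ∃ y, y ≠ x ∧ (S.erase B).erase C = {x, y} := by
      obtain ⟨a, b, hab, he⟩ := Finset.card_eq_two.mp (hrest S hS4 hBS hCS)
      rw [he] at hxr
      simp only [Finset.mem_insert, Finset.mem_singleton] at hxr
      rcases hxr with rfl | rfl
      · exact ⟨b, hab.symm, he⟩
      · exact ⟨a, hab, by rw [he, Finset.pair_comm]⟩
    have hy : y ∈ (S.erase B).erase C := by rw [hyeq]; simp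
    have hry : r y = y := by
      have := hpresrest S hSp y hy
      rw [hyeq] at this
      simp only [Finset.mem_insert, Finset.mem_singleton] at this
      rcases this with h | h
      · exfalso; apply hyx; rw [← hri y, h, hrx]
      · exact h
    have hsub : ({x, y} : Finset ℂ) ⊆ Fx := by
      intro z hz
      simp only [Finset.mem_insert, Finset.mem_singleton] at hz
      rw [hFx, Finset.mem_filter]
      rcases hz with rfl | rfl
      · exact ⟨hSW hx, hrx⟩
      · exact ⟨hSW (Finset.mem_of_mem_erase (Finset.mem_of_mem_erase hy)), hry⟩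
    have hFeq : ({x, y} : Finset ℂ) = Fx := by
      apply Finset.eq_of_subset_of_card_le hsub
      rw [Finset.card_pair hyx.symm]; exact hFx2
    refine ⟨by rw [← hFeq, Finset.card_pair hyx.symm], ?_⟩
    rw [← hFeq, ← hyeq, Finset.insert_erase (Finset.mem_erase.mpr ⟨hBC.symm, hCS⟩),
      Finset.insert_erase hBS]
  have hAcard : 𝒜.card ≤ 1 := by
    rw [Finset.card_le_one]
    intro S hS T hT
    rw [(hA S hS).2, (hA T hT).2]
  -- exchanged type
  have hB2 : 2 * ℬ.card + Fx.card ≤ 5 := by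
    have hcU : (ℬ.biUnion (fun S => (S.erase B).erase C)).card = 2 * ℬ.card := by
      rw [Finset.card_biUnion]
      · rw [Finset.sum_congr rfl (g := fun _ => 2)]
        · rw [Finset.sum_const, smul_eq_mul, mul_comm]
        · intro S hS
          rw [hℬ, Finset.mem_filter, Finset.mem_powersetCard] at hS
          exact hrest S hS.1.2 hS.2.1.1 hS.2.1.2.1
      · intro S hS T hT hST
        show Disjoint ((S.erase B).erase C) ((T.erase B).erase C)
        rw [Finset.disjoint_left]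
        intro z hz1 hz2
        apply hST
        rw [Finset.mem_coe, hℬ, Finset.mem_filter, Finset.mem_powersetCard] at hS hT
        obtain ⟨⟨_, hS4⟩, ⟨hBS, hCS, hSp⟩, hSn⟩ := hS
        obtain ⟨⟨_, hT4⟩, ⟨hBT, hCT, hTp⟩, _⟩ := hT
        have hrz : z ≠ r z := by
          intro h
          exact hSn ⟨z, Finset.mem_of_mem_erase (Finset.mem_of_mem_erase hz1), h.symm⟩
        have eqp : ∀ S : Finset ℂ, S.card = 4 → B ∈ S → C ∈ S → (∀ z ∈ S, r z ∈ S) →
            z ∈ (S.erase B).erase C → {z, r z} = (S.erase B).erase C := by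
          intro S hS4 hBS hCS hSp hz
          apply Finset.eq_of_subset_of_card_le
          · intro v hv
            simp only [Finset.mem_insert, Finset.mem_singleton] at hv
            rcases hv with rfl | rfl
            · exact hz
            · exact hpresrest S hSp _ hz
          · rw [hrest S hS4 hBS hCS, Finset.card_pair hrz]
        have e1 := eqp S hS4 hBS hCS hSp hz1
        have e2 := eqp T hT4 hBT hCT hTp hz2
        rw [← Finset.insert_erase hBS, ← Finset.insert_erase (Finset.mem_erase.mpr ⟨hBC.symm, hCS⟩),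
          ← e1, e2, Finset.insert_erase (Finset.mem_erase.mpr ⟨hBC.symm, hCT⟩),
          Finset.insert_erase hBT]
    have hsubU : ℬ.biUnion (fun S => (S.erase B).erase C) ⊆ ((W.erase B).erase C) \ Fx := by
      intro z hz
      obtain ⟨S, hS, hz⟩ := Finset.mem_biUnion.mp hz
      rw [hℬ, Finset.mem_filter, Finset.mem_powersetCard] at hS
      rw [Finset.mem_erase, Finset.mem_erase] at hz
      rw [Finset.mem_sdiff, Finset.mem_erase, Finset.mem_erase]
      refine ⟨⟨hz.1, hz.2.1, hS.1.1 hz.2.2⟩, ?_⟩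
      intro hzF
      rw [hFx, Finset.mem_filter] at hzF
      exact hS.2.2 ⟨z, hz.2.2, hzF.2⟩
    have hFsub : Fx ⊆ (W.erase B).erase C := by
      intro z hz
      rw [hFx, Finset.mem_filter] at hz
      rw [Finset.mem_erase, Finset.mem_erase]
      refine ⟨?_, ?_, hz.1⟩
      · rintro rfl; exact hBC (hrC.symm.trans hz.2)
      · rintro rfl; exact hBC (hz.2.symm.trans hrB)
    have h5 : ((W.erase B).erase C).card = 5 := by
      rw [Finset.card_erase_of_mem (Finset.mem_erase.mpr ⟨hBC.symm, hC⟩),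
        Finset.card_erase_of_mem hB, hW]
    have h6 := Finset.card_le_card hsubU
    rw [hcU, Finset.card_sdiff_of_subset hFsub, h5] at h6
    have h7 := Finset.card_le_card hFsub
    omega
  by_cases hAe : 𝒜.card = 0
  · omega
  · obtain ⟨S, hS⟩ := Finset.card_pos.mp (Nat.pos_of_ne_zero hAe)
    have := (hA S hS).1
    omega

/-- Seven plane points that are not all on a line have a subset without symmetries. -/
theorem ek : False := by
  have h1 : 4 * 35 ≤ ∑ S ∈ W.powersetCard 4, ∑ p ∈ W.offDiag, wt p S := by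
    have : ∑ S ∈ W.powersetCard 4, 4 ≤ ∑ S ∈ W.powersetCard 4, ∑ p ∈ W.offDiag, wt p S :=
      Finset.sum_le_sum (fun S hS => claim1 hst hsym hW hS)
    rw [Finset.sum_const, Finset.card_powersetCard, hW, smul_eq_mul] at this
    have e : Nat.choose 7 4 = 35 := by decide
    rw [e] at this
    omega
  rw [Finset.sum_comm] at h1
  have h2 : ∑ p ∈ W.offDiag, ∑ S ∈ W.powersetCard 4, wt p S ≤ ∑ p ∈ W.offDiag, 3 :=
    Finset.sum_le_sum (fun p hp => claim2 hst hsym hW hp)
  rw [Finset.sum_const, Finset.offDiag_card, hW, smul_eq_mul] at h2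
  omega

end Main

end Pool.Agent.Q19.ExtG
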