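import Mathlib
import Pool.Agent.Q19.ExtC
import Pool.Agent.Q19.ExtG

/-!
# Finite plane sets all of whose small extensions have symmetries (helper19)
-/

namespace Pool.Agent.Q19.ExtH

open ComplexConjugate Pool.Agent.Q19.ExtE Pool.Agent.Q19.ExtF Pool.Agent.Q19.ExtG
open Pool.Agent.Q19.ExtA (zmod2_add_self zmod2_cases)
open Pool.Agent.Q19.ExtC (dl ind dl_self dl_ne)

theorem out_card {X A : Finset ℂ} {a : ℂ} (hA : A.card ≤ 4)
    (h : ∀ z, (z ∈ X ↔ z + a ∈ X) ∨ z ∈ A) : (X.filter (fun z => z + a ∉ X)).card ≤ 2 := by
  set X' := X.image (fun z => z - a) with hX'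
  have hinj : Function.Injective (fun z : ℂ => z - a) := sub_left_injective
  have hX'c : X'.card = X.card := Finset.card_image_of_injective _ hinj
  have hmem : ∀ z, z ∈ X' ↔ z + a ∈ X := by
    intro z
    rw [hX', Finset.mem_image]
    constructor
    · rintro ⟨y, hy, rfl⟩; simpa using hy
    · intro hz; exact ⟨z + a, hz, by ring⟩
  have h1 : (X.filter (fun z => z + a ∈ X)).card + (X.filter (fun z => z + a ∉ X)).card =
      X.card := by
    rw [← Finset.card_filter_add_card_filter_not (s := X) (fun z => z + a ∈ X)]
  have h2 : (X'.filter (fun z => z ∈ X)).card + (X'.filter (fun z => z ∉ X)).card =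
      X'.card := by
    rw [← Finset.card_filter_add_card_filter_not (s := X') (fun z => z ∈ X)]
  have h3 : X.filter (fun z => z + a ∈ X) = X'.filter (fun z => z ∈ X) := by
    ext z
    rw [Finset.mem_filter, Finset.mem_filter, hmem]; tauto
  have h4 : (X.filter (fun z => z + a ∉ X)) ∪ (X'.filter (fun z => z ∉ X)) ⊆ A := by
    intro z hz
    rw [Finset.mem_union, Finset.mem_filter, Finset.mem_filter, hmem] at hz
    rcases h z with h5 | h5
    · exfalso; tauto
    · exact h5
  have h5 : Disjoint (X.filter (fun z => z + a ∉ X)) (X'.filter (fun z => z ∉ X)) := by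
    rw [Finset.disjoint_left]
    intro z hz1 hz2
    rw [Finset.mem_filter] at hz1 hz2
    exact hz2.2 hz1.1
  have h6 := Finset.card_le_card h4
  rw [Finset.card_union_of_disjoint h5] at h6
  rw [h3] at h1
  omega

theorem exists_exit {X : Finset ℂ} {a : ℂ} (ha : a ≠ 0) {x : ℂ} (hx : x ∈ X) :
    ∃ j : ℕ, x + j * a ∈ X.filter (fun z => z + a ∉ X) := by
  have hex : ∃ j : ℕ, x + j * a ∉ X := by
    by_contra hcon
    push Not at hcon
    have hinj : Function.Injective (fun j : ℕ => x + j * a) := by
      intro i j hij
      simp only [add_right_inj] at hij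
      have := mul_right_cancel₀ ha hij
      exact_mod_cast this
    exact (Set.infinite_range_of_injective hinj)
      (X.finite_toSet.subset (by rintro _ ⟨n, rfl⟩; exact hcon n))
  classical
  have hspec := Nat.find_spec hex
  have hpos : 1 ≤ Nat.find hex := by
    rcases Nat.eq_zero_or_pos (Nat.find hex) with h | h
    · rw [h] at hspec
      exact absurd (by simpa using hx) hspec
    · exact h
  have hmin := Nat.find_min hex (m := Nat.find hex - 1) (by omega)
  push Not at hmin
  refine ⟨Nat.find hex - 1, Finset.mem_filter.mpr ⟨hmin, ?_⟩⟩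
  have e : x + ((Nat.find hex - 1 : ℕ) : ℂ) * a + a = x + (Nat.find hex : ℂ) * a := by
    rw [Nat.cast_sub hpos]; push_cast; ring
  rw [e]; exact hspec

theorem card_le_four {X A B : Finset ℂ} {a b : ℂ} (ha : a ≠ 0) (hb : b ≠ 0)
    (hind : ∀ k l : ℤ, (k : ℂ) * b = l * a → k = 0) (hA : A.card ≤ 4) (hB : B.card ≤ 4)
    (hXa : ∀ z, (z ∈ X ↔ z + a ∈ X) ∨ z ∈ A) (hXb : ∀ z, (z ∈ X ↔ z + b ∈ X) ∨ z ∈ B) :
    X.card ≤ 4 := by
  have h1 := out_card hA hXa
  have h2 := out_card hB hXb
  choose! ja hja using fun x (hx : x ∈ X) => exists_exit ha hx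
  choose! jb hjb using fun x (hx : x ∈ X) => exists_exit hb hx
  have hmaps : ∀ x ∈ X, (x + ja x * a, x + jb x * b) ∈
      (X.filter (fun z => z + a ∉ X)) ×ˢ (X.filter (fun z => z + b ∉ X)) := by
    intro x hx
    exact Finset.mem_product.mpr ⟨hja x hx, hjb x hx⟩
  have hinj : Set.InjOn (fun x => (x + ja x * a, x + jb x * b)) (X : Set ℂ) := by
    intro x _ y _ hxy
    obtain ⟨e1, e2⟩ := Prod.mk.inj hxy
    have := hind ((jb y : ℤ) - jb x) ((ja y : ℤ) - ja x) (by
      push_cast; linear_combination e1 - e2)
    have e3 : (jb y : ℂ) = jb x := by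
      have : (jb y : ℤ) = jb x := by omega
      exact_mod_cast this
    rw [e3] at e2
    linear_combination e2
  have := Finset.card_le_card_of_injOn _ hmaps hinj
  rw [Finset.card_product] at this
  calc X.card ≤ _ := this
    _ ≤ 2 * 2 := Nat.mul_le_mul h1 h2
    _ = 4 := rfl

theorem pres_iff {X : Finset ℂ} {g : Equiv.Perm ℂ} (h : ∀ z ∈ X, g z ∈ X) (z : ℂ) :
    g z ∈ X ↔ z ∈ X := by
  constructor
  · intro hz
    have := pres_inv h _ hz
    simpa using this
  · exact h z

theorem ind_pres {X : Finset ℂ} {g : Equiv.Perm ℂ} (h : ∀ z ∈ X, g z ∈ X) (z : ℂ) :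
    ind X (g z) = ind X z := by
  unfold ind
  simp only [pres_iff h z]

theorem ind_one_iff {X : Finset ℂ} {z : ℂ} : ind X z = 1 ↔ z ∈ X := by
  unfold ind
  by_cases h : z ∈ X <;> simp [h]

/-- **Odd rotations.** If `X` is invariant under a rotation and `X` with one point `u` added or
removed is invariant under some isometry, then `X` is invariant under an involution. -/
theorem exists_invol {X X' : Finset ℂ} {u : ℂ}
    (hXX : ∀ z, ind X' z = ind X z + dl u z) {g : Equiv.Perm ℂ} {α c : ℂ} (hn : ‖α‖ = 1)
    (hα1 : α ≠ 1) (hα2 : α ≠ -1) (hg : ∀ z, g z = c + α * (z - c)) (huc : u ≠ c)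
    (hgX : ∀ z ∈ X, g z ∈ X) {g' : Equiv.Perm ℂ} (hg' : g' ∈ E) (hg'1 : g' ≠ 1)
    (hgX' : ∀ z ∈ X', g' z ∈ X') :
    ∃ i : Equiv.Perm ℂ, IsOpp i ∧ (∀ z, i (i z) = z) ∧ ∀ z ∈ X, i z ∈ X := by
  have hα0 := ne0 hn
  have hgc : g c = c := by rw [hg]; ring
  have hgne : ∀ w, w ≠ c → g w ≠ w := by
    intro w hw h
    rw [hg] at h
    have : (α - 1) * (w - c) = 0 := by linear_combination h
    rcases mul_eq_zero.mp this with h | h
    · exact hα1 (by linear_combination h)
    · exact hw (by linear_combination h)
  have hggne : ∀ w, w ≠ c → g (g w) ≠ w := by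
    intro w hw h
    rw [hg, hg] at h
    have : (α - 1) * ((α + 1) * (w - c)) = 0 := by linear_combination h
    rcases mul_eq_zero.mp this with h | h
    · exact hα1 (by linear_combination h)
    · rcases mul_eq_zero.mp h with h | h
      · exact hα2 (by linear_combination h)
      · exact hw (by linear_combination h)
  set s : ℂ → ZMod 2 := ind X with hs
  have hsg : ∀ z, s (g z) = s z := ind_pres hgX
  have hsgi : ∀ z, s (g⁻¹ z) = s z := by
    intro z
    have := hsg (g⁻¹ z)
    simpa using this.symm
  have hs' : ∀ z, s (g' z) = s z + dl u z + dl u (g' z) := by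
    intro z
    have h1 := ind_pres hgX' z
    rw [hXX, hXX] at h1
    linear_combination h1 - zmod2_add_self (dl u (g' z))
  set e : ℂ → ZMod 2 := fun z => dl u z + dl u (g' z) with he
  have hse : ∀ z, s (g' z) = s z + e z := by intro z; rw [hs', he]; ring
  by_cases hc : g' c = c
  · -- common centre
    have hcontra : (∀ z, e (g z) = e z) → g' u ≠ u → g' (g (g u)) ≠ u ∨ g (g u) = g u ∨ True →
        (g' (g u) = u → g' (g (g u)) ≠ u) → False := by
      intro hinv hgu _ hlast
      have e0 : e u = 1 := by simp only [he]; rw [dl_self, dl_ne hgu, add_zero]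
      have e1 : e (g u) = 1 := by rw [hinv, e0]
      have f1 : g' (g u) = u := by
        simp only [he] at e1
        rw [dl_ne (hgne u huc), zero_add] at e1
        by_contra hcon
        rw [dl_ne hcon] at e1
        exact zero_ne_one e1
      have e2 : e (g (g u)) = 1 := by rw [hinv, e1]
      simp only [he] at e2
      rw [dl_ne (hggne u huc), zero_add] at e2
      by_contra _
      rw [dl_ne (hlast f1)] at e2
      exact zero_ne_one e2
    rcases hg' with ⟨α', β', hd⟩ | ho
    · exfalso
      have hform : ∀ z, g' z = c + α' * (z - c) := by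
        intro z
        have h1 := hd.2 c
        rw [hc] at h1
        rw [hd.2]
        linear_combination -h1
      have hcomm : ∀ z, g' (g z) = g (g' z) := by
        intro z; rw [hform, hg, hg, hform]; ring
      have hinv : ∀ z, e (g z) = e z := by
        intro z
        have h1 := hse (g z)
        rw [hcomm, hsg, hsg] at h1
        have h2 := hse z
        linear_combination h2 - h1
      have hgu : g' u ≠ u := by
        intro h
        exact hg'1 (dir_fix2 ⟨_, _, hd⟩ huc h hc)
      refine hcontra hinv hgu (Or.inr (Or.inr trivial)) ?_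
      intro f1
      rw [hcomm, f1]
      exact hgne u huc
    · by_cases hgu : g' u = u
      · refine ⟨g', ho, opp_invol ho hc, ?_⟩
        intro z hz
        rw [← ind_one_iff] at hz ⊢
        have h1 := hs' z
        have h2 : dl u (g' z) = dl u z := by
          by_cases h : z = u
          · rw [h, hgu]
          · rw [dl_ne h, dl_ne (fun h' => h (g'.injective (h'.trans hgu.symm)))]
        rw [h2] at h1
        show s (g' z) = 1
        rw [h1, show s z = 1 from hz]
        linear_combination zmod2_add_self (dl u z)
      · exfalso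
        obtain ⟨α', β', hop⟩ := ho
        have hform : ∀ z, g' z = c + α' * conj (z - c) := by
          intro z
          have h1 := hop.2 c
          rw [hc] at h1
          rw [hop.2, map_sub]
          linear_combination -h1
        have hmc := mc hn
        have hinv' : ∀ z, g' (g z) = g⁻¹ (g' z) := by
          intro z
          rw [eq_comm, Equiv.Perm.inv_eq_iff_eq, hform, hg, hg, hform]
          have : c + α * (z - c) - c = α * (z - c) := by ring
          rw [this, map_mul]
          have e3 : c + α' * (conj α * conj (z - c)) - c = α' * (conj α * conj (z - c)) := by ring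
          rw [e3]
          linear_combination (-α' * conj (z - c)) * hmc
        have hinv : ∀ z, e (g z) = e z := by
          intro z
          have h1 := hse (g z)
          rw [hinv', hsgi, hsg] at h1
          have h2 := hse z
          linear_combination h2 - h1
        refine hcontra hinv hgu (Or.inr (Or.inr trivial)) ?_
        intro f1 f2
        have := g'.injective (f2.trans f1.symm)
        exact hgne (g u) (fun h => huc (g.injective (h.trans hgc.symm))) this
  · -- different centres: few points
    have hgd : Dir g α (c - α * c) := ⟨hn, fun z => by rw [hg]; ring⟩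
    set h := g'⁻¹ * g * g' with hh
    have hg'i : ∀ y, s (g'⁻¹ y) = s y + e (g'⁻¹ y) := by
      intro y
      have := hse (g'⁻¹ y)
      have e7 : g' (g'⁻¹ y) = y := by simp
      rw [e7] at this
      rw [this]
      linear_combination -zmod2_add_self (e (g'⁻¹ y))
    have hsh : ∀ z, s (h z) = s z + e z + e (h z) := by
      intro z
      have h1 : h z = g'⁻¹ (g (g' z)) := rfl
      rw [h1, hg'i, hsg, hse]
    -- the translation
    obtain ⟨τ, a, ha, hτ, hτs⟩ : ∃ (τ : Equiv.Perm ℂ) (a : ℂ), a ≠ 0 ∧ (∀ z, τ z = z + a) ∧
        ∀ z, s (τ z) = s (h z) := by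
      rcases hg' with ⟨α', β', hd⟩ | ⟨α', β', hop⟩
      · have hdh : Dir h _ _ := (hd.inv.mul hgd).mul hd
        have hdt : Dir (g⁻¹ * h) _ _ := hgd.inv.mul hdh
        refine ⟨g⁻¹ * h, (g⁻¹ * h) 0, ?_, ?_, fun z => by rw [Equiv.Perm.mul_apply, hsgi]⟩
        · intro h0
          -- then h = g has the same centre
          have e1 := hdt.2
          have e0 := hdt.2 0
          rw [h0] at e0
          have hmul : conj α * (conj α' * α * α') = 1 := by
            linear_combination (conj α' * α') * mc hn + mc hd.1
          have hid : ∀ z, (g⁻¹ * h) z = z := by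
            intro z
            rw [e1, hmul]
            linear_combination -e0
          have hgc' : h (g'⁻¹ c) = g'⁻¹ c := by
            have : h (g'⁻¹ c) = g'⁻¹ (g (g' (g'⁻¹ c))) := rfl
            have e7 : g' (g'⁻¹ c) = c := by simp
            rw [this, e7, hgc]
          have h2 := hid (g'⁻¹ c)
          rw [Equiv.Perm.mul_apply, hgc', Equiv.Perm.inv_eq_iff_eq] at h2
          by_contra _
          have h3 : g'⁻¹ c = c := by
            by_contra hne
            exact hgne _ hne h2.symm
          apply hc
          rw [Equiv.Perm.inv_eq_iff_eq] at h3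
          exact h3.symm
        · intro z
          have hmul : conj α * (conj α' * α * α') = 1 := by
            linear_combination (conj α' * α') * mc hn + mc hd.1
          rw [hdt.2, hdt.2 0, hmul]; ring
      · have hoph : Dir h _ _ := (hop.inv.mul_dir hgd).mul_opp hop
        have hdt : Dir (g * h) _ _ := hgd.mul hoph
        refine ⟨g * h, (g * h) 0, ?_, ?_, fun z => by rw [Equiv.Perm.mul_apply, hsg]⟩
        · intro h0
          have e1 := hdt.2
          have e0 := hdt.2 0
          rw [h0] at e0
          have hmul : α * (α' * conj α * conj α') = 1 := by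
            linear_combination (α' * conj α') * mc hn + mc hop.1
          have hid : ∀ z, (g * h) z = z := by
            intro z
            rw [e1, hmul]
            linear_combination -e0
          have hgc' : h (g'⁻¹ c) = g'⁻¹ c := by
            have : h (g'⁻¹ c) = g'⁻¹ (g (g' (g'⁻¹ c))) := rfl
            have e7 : g' (g'⁻¹ c) = c := by simp
            rw [this, e7, hgc]
          have h2 := hid (g'⁻¹ c)
          rw [Equiv.Perm.mul_apply, hgc'] at h2
          have h3 : g'⁻¹ c = c := by
            by_contra hne
            exact hgne _ hne h2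
          apply hc
          rw [Equiv.Perm.inv_eq_iff_eq] at h3
          exact h3.symm
        · intro z
          have hmul : α * (α' * conj α * conj α') = 1 := by
            linear_combination (α' * conj α') * mc hn + mc hop.1
          rw [hdt.2, hdt.2 0, hmul]; ring
    have hsa : ∀ z, s (z + a) = s z + e z + e (h z) := by
      intro z; rw [← hτ, hτs, hsh]
    set A : Finset ℂ := {u, g'⁻¹ u, h⁻¹ u, h⁻¹ (g'⁻¹ u)} with hA
    have hAc : A.card ≤ 4 := Finset.card_le_four
    have hez : ∀ z, z ≠ u → z ≠ g'⁻¹ u → e z = 0 := by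
      intro z h1 h2
      simp only [he]
      rw [dl_ne h1, dl_ne (fun h3 => h2 (by rw [← h3]; simp)), add_zero]
    have hXa : ∀ z, (z ∈ X ↔ z + a ∈ X) ∨ z ∈ A := by
      intro z
      by_cases hz : z ∈ A
      · exact Or.inr hz
      · left
        rw [hA] at hz
        simp only [Finset.mem_insert, Finset.mem_singleton] at hz
        push Not at hz
        have h1 := hsa z
        rw [hez z hz.1 hz.2.1, hez (h z) (fun h3 => hz.2.2.1 (by rw [← h3]; simp))
          (fun h3 => hz.2.2.2 (by rw [← h3]; simp)), add_zero, add_zero] at h1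
        rw [← ind_one_iff, ← ind_one_iff]
        show s z = 1 ↔ s (z + a) = 1
        rw [h1]
    have hXb : ∀ z, (z ∈ X ↔ z + α * a ∈ X) ∨ z ∈ A.image g := by
      intro z
      rcases hXa (g⁻¹ z) with h1 | h1
      · left
        have h2 : g (g⁻¹ z + a) = z + α * a := by
          have e2 : g (g⁻¹ z) = z := by simp
          rw [hg] at e2
          rw [hg]
          linear_combination e2
        rw [← h2, pres_iff hgX, ← h1]
        constructor
        · exact pres_inv hgX z
        · intro h3
          have := hgX _ h3
          simpa using this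
      · right
        exact Finset.mem_image.mpr ⟨_, h1, by simp⟩
    have hcard := card_le_four ha (mul_ne_zero hα0 ha) (by
      intro k l hkl
      by_contra hk
      have hkα : (k : ℂ) * α = l := by
        apply mul_right_cancel₀ ha
        linear_combination hkl
      have hkC : (k : ℂ) ≠ 0 := by exact_mod_cast hk
      have hreal : α = ((l : ℝ) / (k : ℝ) : ℝ) := by
        push_cast
        rw [eq_div_iff hkC]
        linear_combination hkα
      have habs : |((l : ℝ) / (k : ℝ))| = 1 := by
        rw [hreal, Complex.norm_real] at hn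
        exact hn
      rcases (abs_eq (zero_le_one)).mp habs with h1 | h1
      · apply hα1; rw [hreal, h1]; simp
      · apply hα2; rw [hreal, h1]; simp) hAc
      ((Finset.card_image_le).trans hAc) hXa hXb
    exact refl_of_rot (by omega) hn hα1 hα2 hg hgX

end Pool.Agent.Q19.ExtH
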