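import Mathlib
import Pool.Agent.Q19.ExtH

/-!
# The finite case for the full isometry group of the plane (helper19)
-/

namespace Pool.Agent.Q19.ExtI

open ComplexConjugate Pool.Agent.Q19.ExtE Pool.Agent.Q19.ExtF Pool.Agent.Q19.ExtG
open Pool.Agent.Q19.ExtH
open Pool.Agent.Q19.ExtA (zmod2_add_self zmod2_cases)
open Pool.Agent.Q19.ExtC (dl ind dl_self dl_ne)

/-- adding or removing the point `u` -/
noncomputable def tog (F : Finset ℂ) (u : ℂ) : Finset ℂ := if u ∈ F then F.erase u else insert u F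

theorem tog_mem (F : Finset ℂ) (u z : ℂ) : z ∈ tog F u ↔ (z ∈ F ∧ z ≠ u) ∨ (z = u ∧ u ∉ F) := by
  unfold tog
  by_cases hu : u ∈ F
  · rw [if_pos hu, Finset.mem_erase]; tauto
  · rw [if_neg hu, Finset.mem_insert]
    constructor
    · rintro (rfl | h)
      · exact Or.inr ⟨rfl, hu⟩
      · exact Or.inl ⟨h, fun h' => hu (h' ▸ h)⟩
    · rintro (h | h)
      · exact Or.inr h.1
      · exact Or.inl h.1

theorem tog_sub {F W : Finset ℂ} (hF : F ⊆ W) {u : ℂ} (hu : u ∈ W) : tog F u ⊆ W := by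
  intro z hz
  rw [tog_mem] at hz
  rcases hz with h | h
  · exact hF h.1
  · rw [h.1]; exact hu

theorem tog_tog (F : Finset ℂ) (u : ℂ) : tog (tog F u) u = F := by
  ext z
  rw [tog_mem, tog_mem, tog_mem]
  by_cases h : z = u
  · subst h; tauto
  · tauto

theorem tog_ne (F : Finset ℂ) (u : ℂ) : tog F u ≠ F := by
  intro h
  have := tog_mem F u u
  rw [h] at this
  tauto

theorem ind_tog (F : Finset ℂ) (u z : ℂ) : ind (tog F u) z = ind F z + dl u z := by
  unfold ind dl
  simp only [tog_mem]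
  by_cases h : z = u
  · subst h
    by_cases h2 : z ∈ F
    · simp [h2]; decide
    · simp [h2]
  · by_cases h2 : z ∈ F
    · simp [h, h2]
    · simp [h, h2]

theorem tog_union {Q W G : Finset ℂ} (hd : Disjoint Q W) {u : ℂ} (hu : u ∈ W) :
    tog (Q ∪ G) u = Q ∪ tog G u := by
  have huQ : u ∉ Q := fun h => (Finset.disjoint_left.mp hd h) hu
  ext z
  rw [tog_mem, Finset.mem_union, Finset.mem_union, Finset.mem_union, tog_mem]
  constructor
  · rintro (⟨h1 | h1, h2⟩ | ⟨h1, h2⟩)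
    · exact Or.inl h1
    · exact Or.inr (Or.inl ⟨h1, h2⟩)
    · exact Or.inr (Or.inr ⟨h1, fun h => h2 (Or.inr h)⟩)
  · rintro (h1 | h1 | h1)
    · exact Or.inl ⟨Or.inl h1, fun h => huQ (h ▸ h1)⟩
    · exact Or.inl ⟨Or.inr h1.1, h1.2⟩
    · exact Or.inr ⟨h1.1, fun h => h.elim huQ h1.2⟩

theorem opp_ne_one {g : Equiv.Perm ℂ} (h : IsOpp g) : g ≠ 1 := by
  rintro rfl
  exact not_both ⟨1, 0, dir_one⟩ h

/-- every set `Q ∪ G` is invariant under an involution -/
theorem all_invol {W Q : Finset ℂ} (hd : Disjoint Q W) (hW : 2 ≤ W.card)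
    (h : ∀ G ⊆ W, ∃ g ∈ E, g ≠ 1 ∧ ∀ z ∈ Q ∪ G, g z ∈ Q ∪ G) :
    ∀ G ⊆ W, ∃ i ∈ E, i ≠ 1 ∧ (∀ z, i (i z) = z) ∧ ∀ z ∈ Q ∪ G, i z ∈ Q ∪ G := by
  intro G hG
  rcases Finset.eq_empty_or_nonempty (Q ∪ G) with he | hne
  · have hn : ‖(-1 : ℂ)‖ = 1 := by simp
    refine ⟨mkDir (-1) 0 hn, Or.inl ⟨_, _, mkDir_dir _ _ hn⟩, ?_, ?_, ?_⟩
    · intro h1
      have h2 : mkDir (-1) 0 hn 1 = 1 := by rw [h1]; rfl
      rw [(mkDir_dir (-1) 0 hn).2] at h2
      norm_num at h2
    · intro z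
      rw [(mkDir_dir (-1) 0 hn).2, (mkDir_dir (-1) 0 hn).2]; ring
    · intro z hz
      rw [he] at hz
      exact absurd hz (Finset.notMem_empty z)
  · obtain ⟨g, hg, hg1, hgX⟩ := h G hG
    rcases hg with ⟨α, β, hdir⟩ | ho
    · have hα1 := dir_finite hne hg1 hdir hgX
      obtain ⟨c, hgc, hform⟩ := dir_centre hdir hα1
      by_cases hα2 : α = -1
      · refine ⟨g, Or.inl ⟨_, _, hdir⟩, hg1, ?_, hgX⟩
        intro z
        rw [hform, hform, hα2]; ring
      · obtain ⟨u, hu, huc⟩ : ∃ u ∈ W, u ≠ c := by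
          obtain ⟨x, y, hx, hy, hxy⟩ := Finset.one_lt_card_iff.mp hW
          by_cases h1 : x = c
          · exact ⟨y, hy, fun h2 => hxy (h1.trans h2.symm)⟩
          · exact ⟨x, hx, h1⟩
        obtain ⟨g', hg', hg'1, hg'X⟩ := h (tog G u) (tog_sub hG hu)
        rw [← tog_union hd hu] at hg'X
        obtain ⟨i, hi1, hi2, hi3⟩ := exists_invol (ind_tog (Q ∪ G) u) hdir.1 hα1 hα2 hform huc hgX
          hg' hg'1 hg'X
        exact ⟨i, Or.inr hi1, opp_ne_one hi1, hi2, hi3⟩
    · exact ⟨g, Or.inr ho, hg1, opp_finite_invol hne ho hgX, hgX⟩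

theorem image_eq_of_pres {X : Finset ℂ} {g : Equiv.Perm ℂ} (h : ∀ z ∈ X, g z ∈ X) :
    X.image g = X := by
  apply Finset.eq_of_subset_of_card_le
  · intro z hz
    obtain ⟨y, hy, rfl⟩ := Finset.mem_image.mp hz
    exact h y hy
  · rw [Finset.card_image_of_injective _ g.injective]

open Classical in
theorem parity {W Q : Finset ℂ} (hd : Disjoint Q W)
    (h : ∀ G ⊆ W, ∃ i ∈ E, i ≠ 1 ∧ (∀ z, i (i z) = z) ∧ ∀ z ∈ Q ∪ G, i z ∈ Q ∪ G) :
    ∀ K ⊆ W, ∃ g ∈ E, g ≠ 1 ∧ ∀ z ∈ K, g z ∈ K := by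
  intro K hK
  by_contra hcon
  have hrig : ∀ g ∈ E, (∀ z ∈ K, g z ∈ K) → g = 1 := by
    intro g hg hp
    by_contra hne
    exact hcon ⟨g, hg, hne, hp⟩
  set P : Finset ℂ → Prop := fun S => ∃ φ ∈ E, K.image (φ : Equiv.Perm ℂ) = S with hP
  have heven : ∀ G ⊆ W, ∑ S ∈ (Q ∪ G).powerset.filter P, (1 : ZMod 2) = 0 := by
    intro G hG
    obtain ⟨i, hi, hi1, hi2, hi3⟩ := h G hG
    refine Finset.sum_involution (fun S _ => S.image i) ?_ ?_ ?_ ?_
    · intro S _; exact zmod2_add_self 1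
    · intro S hS _ hfix
      rw [Finset.mem_filter] at hS
      obtain ⟨φ, hφ, rfl⟩ := hS.2
      have h1 : φ⁻¹ * i * φ = 1 := by
        apply hrig _ (E.mul_mem (E.mul_mem (E.inv_mem hφ) hi) hφ)
        intro z hz
        have h2 : i (φ z) ∈ K.image φ := by
          rw [← hfix]
          exact Finset.mem_image_of_mem _ (Finset.mem_image_of_mem _ hz)
        obtain ⟨y, hy, hyz⟩ := Finset.mem_image.mp h2
        have : (φ⁻¹ * i * φ) z = y := by
          rw [Equiv.Perm.mul_apply, Equiv.Perm.mul_apply, Equiv.Perm.inv_eq_iff_eq, hyz]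
        rw [this]; exact hy
      apply hi1
      have h2 : i = φ * (φ⁻¹ * i * φ) * φ⁻¹ := by group
      rw [h2, h1]; group
    · intro S hS
      rw [Finset.mem_filter, Finset.mem_powerset] at hS ⊢
      refine ⟨?_, ?_⟩
      · intro z hz
        obtain ⟨y, hy, rfl⟩ := Finset.mem_image.mp hz
        exact hi3 y (hS.1 hy)
      · obtain ⟨φ, hφ, rfl⟩ := hS.2
        refine ⟨i * φ, E.mul_mem hi hφ, ?_⟩
        rw [Finset.image_image]; rfl
    · intro S hS
      rw [Finset.image_image]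
      have : (i : ℂ → ℂ) ∘ i = id := by funext z; exact hi2 z
      rw [this, Finset.image_id]
  have hKQ : ∀ z ∈ K, z ∉ Q := fun z hz hzQ => (Finset.disjoint_left.mp hd hzQ) (hK hz)
  have hsum : ∑ G ∈ K.powerset, ∑ S ∈ (Q ∪ K).powerset.filter P,
      (if S ⊆ Q ∪ G then (1 : ZMod 2) else 0) = 0 := by
    apply Finset.sum_eq_zero
    intro G hG
    rw [Finset.mem_powerset] at hG
    refine Eq.trans ?_ (heven G (hG.trans hK))
    rw [← Finset.sum_filter]
    congr 1
    ext S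
    simp only [Finset.mem_filter, Finset.mem_powerset]
    constructor
    · rintro ⟨⟨_, h2⟩, h3⟩; exact ⟨h3, h2⟩
    · rintro ⟨h1, h2⟩
      exact ⟨⟨h1.trans (Finset.union_subset_union_right hG), h2⟩, h1⟩
  rw [Finset.sum_comm] at hsum
  have hK1 : K ∈ (Q ∪ K).powerset.filter P := by
    rw [Finset.mem_filter, Finset.mem_powerset]
    refine ⟨Finset.subset_union_right, 1, E.one_mem, ?_⟩
    ext z; simp
  rw [Finset.sum_eq_single K] at hsum
  · rw [Finset.sum_eq_single K] at hsum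
    · rw [if_pos Finset.subset_union_right] at hsum
      exact one_ne_zero hsum
    · intro G hG hne
      rw [if_neg]
      intro hsub
      apply hne
      apply Finset.Subset.antisymm (Finset.mem_powerset.mp hG)
      intro z hz
      rcases Finset.mem_union.mp (hsub hz) with h1 | h1
      · exact absurd h1 (hKQ z hz)
      · exact h1
    · intro hn
      exact absurd (Finset.mem_powerset.mpr (Finset.Subset.refl K)) hn
  · intro S hS hne
    rw [Finset.mem_filter, Finset.mem_powerset] at hS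
    obtain ⟨k, hk, hkS⟩ : ∃ k ∈ K, k ∉ S := by
      by_contra hcon2
      push Not at hcon2
      obtain ⟨φ, hφ, hφS⟩ := hS.2
      apply hne
      symm
      apply Finset.eq_of_subset_of_card_le hcon2
      rw [← hφS, Finset.card_image_of_injective _ φ.injective]
    refine Finset.sum_involution (fun G _ => tog G k) ?_ ?_ ?_ ?_
    · intro G hG
      have : (S ⊆ Q ∪ tog G k) ↔ S ⊆ Q ∪ G := by
        constructor
        · intro hs z hz
          have h1 := hs hz
          rw [Finset.mem_union, tog_mem] at h1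
          rw [Finset.mem_union]
          rcases h1 with h1 | h1 | h1
          · exact Or.inl h1
          · exact Or.inr h1.1
          · exact absurd (h1.1 ▸ hz) hkS
        · intro hs z hz
          have h1 := hs hz
          rw [Finset.mem_union] at h1
          rw [Finset.mem_union, tog_mem]
          rcases h1 with h1 | h1
          · exact Or.inl h1
          · exact Or.inr (Or.inl ⟨h1, fun h2 => hkS (h2 ▸ hz)⟩)
      by_cases h1 : S ⊆ Q ∪ G
      · rw [if_pos h1, if_pos (this.mpr h1)]; exact zmod2_add_self 1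
      · rw [if_neg h1, if_neg (fun h2 => h1 (this.mp h2))]; exact zmod2_add_self 0
    · intro G _ _; exact tog_ne G k
    · intro G hG
      rw [Finset.mem_powerset] at hG ⊢
      exact tog_sub hG hk
    · intro G _; exact tog_tog G k
  · intro hn; exact absurd hK1 hn

theorem fin_E2 {W Q : Finset ℂ} (hd : Disjoint Q W) (hW : W.card = 7)
    (hst : ∀ g ∈ E, (∀ w ∈ W, g w = w) → g = 1)
    (h : ∀ G ⊆ W, ∃ g ∈ E, g ≠ 1 ∧ ∀ z ∈ Q ∪ G, g z ∈ Q ∪ G) : False :=
  ek hst (parity hd (all_invol hd (by omega) h)) hW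

end Pool.Agent.Q19.ExtI
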