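import Mathlib
import Pool.Agent.Q19.ExtDefs

/-!
# The full isometry group of the Euclidean plane: definitions (helper19)
-/

namespace Pool.Agent.Q19.Ext

/-- the Euclidean plane -/
abbrev EPlane : Type := EuclideanSpace ℝ (Fin 2)

/-- the full isometry group of a metric space: all permutations preserving distances -/
def isometryGroup (X : Type) [PseudoMetricSpace X] : Subgroup (Equiv.Perm X) where
  carrier := {σ | ∀ x y, dist (σ x) (σ y) = dist x y}
  mul_mem' := by
    intro σ τ hσ hτ x y
    rw [Equiv.Perm.mul_apply, Equiv.Perm.mul_apply, hσ, hτ]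
  one_mem' := fun x y => rfl
  inv_mem' := by
    intro σ hσ x y
    rw [← hσ (σ⁻¹ x) (σ⁻¹ y)]
    simp

end Pool.Agent.Q19.Ext
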