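import Mathlib
import Pool.Agent.Q19.ExtI

/-!
# Reduction of infinite colourings to finite ones, full isometry group (helper19)
-/

namespace Pool.Agent.Q19.ExtJ

open ComplexConjugate Pool.Agent.Q19.ExtE Pool.Agent.Q19.ExtF Pool.Agent.Q19.ExtG
open Pool.Agent.Q19.ExtH Pool.Agent.Q19.ExtI
open Pool.Agent.Q19.ExtA (zmod2_add_self zmod2_cases NearPer per_fin nearPer_of_two)
open Pool.Agent.Q19.ExtC (dl ind dl_self dl_ne ind_support support_add_finite)

theorem fin_type {q : ℂ → ZMod 2} {W : Finset ℂ} (hW : W.card = 7)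
    (hst : ∀ g ∈ E, (∀ w ∈ W, g w = w) → g = 1) (hq : q.support.Finite)
    (h : ∀ F ⊆ W, ∃ g ∈ E, g ≠ 1 ∧ ∀ z, q (g z) + ind F (g z) = q z + ind F z) : False := by
  set Q0 : Finset ℂ := hq.toFinset with hQ0
  have hmem : ∀ z, z ∈ Q0 ↔ q z = 1 := by
    intro z
    rw [hQ0, Set.Finite.mem_toFinset, Function.mem_support]
    rcases zmod2_cases (q z) with h | h <;> simp [h]
  apply fin_E2 (Q := Q0 \ W) (W := W) Finset.sdiff_disjoint hW hst
  intro G hG
  set F : Finset ℂ := W.filter (fun z => ¬ (z ∈ G ↔ z ∈ Q0)) with hF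
  have hFW : F ⊆ W := Finset.filter_subset _ _
  obtain ⟨g, hg, hg1, key⟩ := h F hFW
  have hchar : ∀ z, z ∈ (Q0 \ W) ∪ G ↔ q z + ind F z = 1 := by
    intro z
    have hqz := hmem z
    rw [Finset.mem_union, Finset.mem_sdiff]
    unfold ind
    have hFz : z ∈ F ↔ z ∈ W ∧ ¬ (z ∈ G ↔ z ∈ Q0) := by rw [hF, Finset.mem_filter]
    have hGW : z ∈ G → z ∈ W := fun h => hG h
    by_cases h1 : z ∈ Q0
    · have hq1 := hqz.mp h1
      rw [hq1]
      by_cases h2 : z ∈ F
      · rw [if_pos h2]
        have h3 := hFz.mp h2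
        constructor
        · intro h4; exfalso; tauto
        · intro h4; exact absurd h4 (by decide)
      · rw [if_neg h2, add_zero]
        constructor
        · intro _; rfl
        · intro _
          by_cases h5 : z ∈ W
          · right
            by_contra h6
            apply h2
            rw [hFz]
            tauto
          · left; exact ⟨h1, h5⟩
    · have hq1 : q z = 0 := by
        rcases zmod2_cases (q z) with h | h
        · exact h
        · exact absurd (hqz.mpr h) h1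
      rw [hq1, zero_add]
      by_cases h2 : z ∈ F
      · rw [if_pos h2]
        have h3 := hFz.mp h2
        constructor
        · intro _; rfl
        · intro _; right; tauto
      · rw [if_neg h2]
        constructor
        · intro h4; exfalso
          apply h2
          rw [hFz]
          tauto
        · intro h4; exact absurd h4 (by decide)
  refine ⟨g, hg, hg1, ?_⟩
  intro z hz
  rw [hchar] at hz ⊢
  rw [key z]; exact hz

theorem ind_zero {F : Finset ℂ} {z : ℂ} (h : z ∉ F) : ind F z = 0 := by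
  unfold ind; rw [if_neg h]

theorem set_pres_iff {O : Set ℂ} (hO : O.Finite) {g : Equiv.Perm ℂ} (h : ∀ z ∈ O, g z ∈ O) (z : ℂ) :
    g z ∈ O ↔ z ∈ O := by
  have h1 := pres_iff (X := hO.toFinset) (g := g) (fun z hz => by
    rw [Set.Finite.mem_toFinset] at hz ⊢
    exact h z hz) z
  rwa [Set.Finite.mem_toFinset, Set.Finite.mem_toFinset] at h1

theorem fin_orbit {s : ℂ → ZMod 2} {W : Finset ℂ} (hW : W.card = 7)
    (hst : ∀ g ∈ E, (∀ w ∈ W, g w = w) → g = 1) {O : Set ℂ} (hO : O.Finite)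
    (hWO : ∀ w ∈ W, w ∈ O)
    (h : ∀ F ⊆ W, ∃ g ∈ E, g ≠ 1 ∧ (∀ z, s (g z) + ind F (g z) = s z + ind F z) ∧
      ∀ z ∈ O, g z ∈ O) : False := by
  classical
  apply fin_type hW hst (q := fun z => if z ∈ O then s z else 0)
  · refine hO.subset ?_
    intro z hz
    by_contra hcon
    apply hz
    simp only [if_neg hcon]
  · intro F hF
    obtain ⟨g, hg, hg1, hinv, hOg⟩ := h F hF
    refine ⟨g, hg, hg1, fun z => ?_⟩
    have hiff := set_pres_iff hO hOg z
    by_cases hz : z ∈ O
    · simp only [if_pos hz, if_pos (hiff.mpr hz)]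
      exact hinv z
    · simp only [if_neg hz, if_neg (fun h1 => hz (hiff.mp h1))]
      rw [ind_zero (fun h1 => hz (hWO _ (hF h1))),
        ind_zero (fun h1 => hz (hiff.mp (hWO _ (hF h1))))]

theorem split_gen {p q : ℂ → ZMod 2} {a a' : ℂ} (ha : a ≠ 0) (ha' : a' ≠ 0)
    (hp : ∀ z, p (z + a) = p z) {g : Equiv.Perm ℂ} (hga : ∀ z, g (z + a') = g z + a)
    (hq : q.support.Finite) (h : ∀ z, p (g z) + q (g z) = p z + q z) : ∀ z, q (g z) = q z := by
  set N : ℂ → ZMod 2 := fun z => p (g z) - p z with hN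
  have hNq : ∀ z, N z = q z - q (g z) := by
    intro z; simp only [hN]; linear_combination h z
  have hNfin : N.support.Finite := by
    refine (hq.union (hq.preimage (g.injective.injOn))).subset ?_
    intro z hz
    by_contra hcon
    simp only [Set.mem_union, Set.mem_preimage, Function.mem_support, not_or, not_not] at hcon
    apply hz
    rw [hNq, hcon.1, hcon.2, sub_zero]
  have hD : ∀ z, N (z + a') - N z = p z - p (z + a') := by
    intro z
    simp only [hN]
    rw [hga, hp]; ring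
  have hDfin : (Function.support (fun z => p z - p (z + a'))).Finite := by
    have hinj : Function.Injective (fun z : ℂ => z + a') := add_left_injective _
    refine (hNfin.union (hNfin.preimage hinj.injOn)).subset ?_
    intro z hz
    by_contra hcon
    simp only [Set.mem_union, Set.mem_preimage, Function.mem_support, not_or, not_not] at hcon
    apply hz
    show p z - p (z + a') = 0
    rw [← hD, hcon.1, hcon.2, sub_zero]
  have h0 := per_fin hDfin ha (fun z => by
    have e1 : z + a + a' = z + a' + a := by ring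
    show p (z + a) - p (z + a + a') = p z - p (z + a')
    rw [e1, hp, hp])
  have hNper := per_fin hNfin ha' (fun z => by
    have h1 := hD z
    rw [h0 z] at h1
    exact sub_eq_zero.mp h1)
  intro z
  have h1 := hNq z
  rw [hNper z] at h1
  exact (sub_eq_zero.mp h1.symm).symm

/-- The near periodic case. -/
theorem near_E2 {s : ℂ → ZMod 2} {W : Finset ℂ} (hW : W.card = 7)
    (hst : ∀ g ∈ E, (∀ w ∈ W, g w = w) → g = 1) (hP : NearPer s)
    (h : ∀ F ⊆ W, ∃ g ∈ E, g ≠ 1 ∧ ∀ z, s (g z) + ind F (g z) = s z + ind F z) : False := by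
  obtain ⟨a, ha, p, q, hp, hq, hs⟩ := hP
  apply fin_type hW hst hq
  intro F hF
  obtain ⟨g, hg, hg1, hinv⟩ := h F hF
  refine ⟨g, hg, hg1, ?_⟩
  have hinv' : ∀ z, p (g z) + (q (g z) + ind F (g z)) = p z + (q z + ind F z) := by
    intro z
    have := hinv z
    rw [hs, hs] at this
    linear_combination this
  obtain ⟨a', ha', hga⟩ : ∃ a' : ℂ, a' ≠ 0 ∧ ∀ z, g (z + a') = g z + a := by
    rcases hg with ⟨α, β, hd⟩ | ⟨α, β, ho⟩
    · refine ⟨conj α * a, mul_ne_zero (ne0 (nconj hd.1)) ha, fun z => ?_⟩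
      rw [hd.2, hd.2]
      linear_combination a * mc hd.1
    · refine ⟨α * conj a, mul_ne_zero (ne0 ho.1) (fun h0 => ha ((map_eq_zero _).mp h0)),
        fun z => ?_⟩
      rw [ho.2, ho.2, map_add, map_mul, Complex.conj_conj]
      linear_combination a * mc ho.1
  exact split_gen (q := fun z => q z + ind F z) ha ha' hp hga
    (support_add_finite hq (ind_support F)) hinv'

/-- the isometries changing `s` at finitely many places -/
def Hs (s : ℂ → ZMod 2) : Subgroup (Equiv.Perm ℂ) where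
  carrier := {g | g ∈ E ∧ {z | s (g z) ≠ s z}.Finite}
  mul_mem' := by
    rintro g h ⟨hg, hg'⟩ ⟨hh, hh'⟩
    refine ⟨E.mul_mem hg hh, ?_⟩
    refine ((hg'.preimage h.injective.injOn).union hh').subset ?_
    intro z hz
    by_contra hcon
    simp only [Set.mem_union, Set.mem_preimage, Set.mem_setOf_eq, not_or, not_not] at hcon
    apply hz
    show s (g (h z)) = s z
    rw [hcon.1, hcon.2]
  one_mem' := by
    refine ⟨E.one_mem, ?_⟩
    convert Set.finite_empty
    ext z; simp
  inv_mem' := by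
    rintro g ⟨hg, hg'⟩
    refine ⟨E.inv_mem hg, ?_⟩
    refine (hg'.image g).subset ?_
    intro z hz
    refine ⟨g⁻¹ z, ?_, by simp⟩
    simp only [Set.mem_setOf_eq] at hz ⊢
    intro h1
    apply hz
    have h2 : g (g⁻¹ z) = z := by simp
    rw [h2] at h1
    exact h1.symm

theorem mem_Hs {s : ℂ → ZMod 2} {g : Equiv.Perm ℂ} :
    g ∈ Hs s ↔ g ∈ E ∧ {z | s (g z) ≠ s z}.Finite := Iff.rfl

theorem mem_Hs_of_inv {s : ℂ → ZMod 2} {g : Equiv.Perm ℂ} (hg : g ∈ E) {F : Finset ℂ}
    (h : ∀ z, s (g z) + ind F (g z) = s z + ind F z) : g ∈ Hs s := by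
  refine ⟨hg, ?_⟩
  refine (F.finite_toSet.union (F.finite_toSet.preimage g.injective.injOn)).subset ?_
  intro z hz
  by_contra hcon
  simp only [Set.mem_union, Set.mem_preimage, Finset.mem_coe, not_or] at hcon
  apply hz
  have h1 := h z
  rwa [ind_zero hcon.1, ind_zero hcon.2, add_zero, add_zero] at h1

theorem two_trans {s : ℂ → ZMod 2} (hNP : ¬ NearPer s) {a b : ℂ} (ha : a ≠ 0)
    (hta : {z | s (z + a) ≠ s z}.Finite) (htb : {z | s (z + b) ≠ s z}.Finite) :
    ∃ k l : ℤ, k ≠ 0 ∧ (k : ℂ) * b = l * a := by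
  by_contra hcon
  push Not at hcon
  apply hNP
  apply nearPer_of_two ha hta htb
  intro k l hkl
  by_contra hk
  exact hcon k l hk hkl

theorem two_trans_norm {s : ℂ → ZMod 2} (hNP : ¬ NearPer s) {a b : ℂ} (ha : a ≠ 0)
    (hta : {z | s (z + a) ≠ s z}.Finite) (htb : {z | s (z + b) ≠ s z}.Finite)
    (hn : ‖b‖ = ‖a‖) : b = a ∨ b = -a := by
  obtain ⟨k, l, hk, hkl⟩ := two_trans hNP ha hta htb
  have hn' : ‖a‖ ≠ 0 := norm_ne_zero_iff.mpr ha
  have h1 : |(k : ℝ)| = |(l : ℝ)| := by
    have := congrArg norm hkl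
    rw [norm_mul, norm_mul, hn, Complex.norm_intCast, Complex.norm_intCast] at this
    exact mul_right_cancel₀ hn' this
  have hkC : (k : ℂ) ≠ 0 := by exact_mod_cast hk
  rcases abs_eq_abs.mp h1 with h2 | h2
  · left
    have h3 : (k : ℂ) = l := by exact_mod_cast h2
    rw [← h3] at hkl
    exact mul_left_cancel₀ hkC hkl
  · right
    have h3 : (l : ℂ) = -k := by
      have : (l : ℝ) = -k := by linarith
      exact_mod_cast this
    rw [h3] at hkl
    apply mul_left_cancel₀ hkC
    linear_combination hkl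

theorem fin_of_trans {s : ℂ → ZMod 2} {g : Equiv.Perm ℂ} (hg : g ∈ Hs s) {a : ℂ}
    (h : ∀ z, g z = z + a) : {z | s (z + a) ≠ s z}.Finite := by
  have := hg.2
  simpa only [h] using this

/-- conjugating a translation -/
theorem conj_trans {s : ℂ → ZMod 2} (hNP : ¬ NearPer s) {t g : Equiv.Perm ℂ} (ht : t ∈ Hs s)
    {a : ℂ} (ha : a ≠ 0) (hta : ∀ z, t z = z + a) (hg : g ∈ Hs s) :
    (∀ z, g (z + a) = g z + a) ∨ (∀ z, g (z + a) = g z - a) := by
  obtain ⟨b, hgb, hn⟩ : ∃ b, (∀ z, g (z + a) = g z + b) ∧ ‖b‖ = ‖a‖ := by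
    rcases hg.1 with ⟨α, β, hd⟩ | ⟨α, β, ho⟩
    · exact ⟨α * a, fun z => by rw [hd.2, hd.2]; ring, by rw [norm_mul, hd.1, one_mul]⟩
    · exact ⟨α * conj a, fun z => by rw [ho.2, ho.2, map_add]; ring,
        by rw [norm_mul, ho.1, one_mul, Complex.norm_conj]⟩
  have hconj : ∀ z, (g * t * g⁻¹) z = z + b := by
    intro z
    rw [Equiv.Perm.mul_apply, Equiv.Perm.mul_apply, hta, hgb]
    simp
  have hmem : g * t * g⁻¹ ∈ Hs s := (Hs s).mul_mem ((Hs s).mul_mem hg ht) ((Hs s).inv_mem hg)
  rcases two_trans_norm hNP ha (fin_of_trans ht hta) (fin_of_trans hmem hconj) hn with h | h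
  · left; intro z; rw [hgb, h]
  · right; intro z; rw [hgb, h]; ring

theorem conj_trans_dir {s : ℂ → ZMod 2} (hNP : ¬ NearPer s) {t g : Equiv.Perm ℂ} (ht : t ∈ Hs s)
    {a : ℂ} (ha : a ≠ 0) (hta : ∀ z, t z = z + a) (hg : g ∈ Hs s) {α β : ℂ} (hd : Dir g α β) :
    α = 1 ∨ α = -1 := by
  rcases conj_trans hNP ht ha hta hg with h | h
  · left
    have := h 0
    rw [hd.2, hd.2] at this
    apply mul_right_cancel₀ ha
    linear_combination this
  · right
    have := h 0
    rw [hd.2, hd.2] at this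
    apply mul_right_cancel₀ ha
    linear_combination this

/-- proper rotations have a common centre fixed by everything -/
theorem common_centre {s : ℂ → ZMod 2} (hNP : ¬ NearPer s) {g g' : Equiv.Perm ℂ}
    (hg : g ∈ Hs s) {α c : ℂ} (hn : ‖α‖ = 1) (hα1 : α ≠ 1) (hα2 : α ≠ -1)
    (hform : ∀ z, g z = c + α * (z - c)) (hg' : g' ∈ Hs s) : g' c = c := by
  by_contra hc
  have hgd : Dir g α (c - α * c) := ⟨hn, fun z => by rw [hform]; ring⟩
  have hgc : g c = c := by rw [hform]; ring
  have hgne : ∀ w, w ≠ c → g w ≠ w := by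
    intro w hw h
    rw [hform] at h
    have : (α - 1) * (w - c) = 0 := by linear_combination h
    rcases mul_eq_zero.mp this with h | h
    · exact hα1 (by linear_combination h)
    · exact hw (by linear_combination h)
  set h := g' * g * g'⁻¹ with hh
  have hmem : h ∈ Hs s := (Hs s).mul_mem ((Hs s).mul_mem hg' hg) ((Hs s).inv_mem hg')
  have hhc : h (g' c) = g' c := by
    rw [hh, Equiv.Perm.mul_apply, Equiv.Perm.mul_apply]
    have : g'⁻¹ (g' c) = c := by simp
    rw [this, hgc]
  obtain ⟨τ, a, ha, hτ, hτs⟩ : ∃ (τ : Equiv.Perm ℂ) (a : ℂ), a ≠ 0 ∧ (∀ z, τ z = z + a) ∧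
      τ ∈ Hs s := by
    rcases hg'.1 with ⟨α', β', hd⟩ | ⟨α', β', hop⟩
    · have hdh : Dir h _ _ := (hd.mul hgd).mul hd.inv
      have hdt : Dir (g⁻¹ * h) _ _ := hgd.inv.mul hdh
      have hmul : conj α * (α' * α * conj α') = 1 := by
        linear_combination (conj α' * α') * mc hn + mc hd.1
      have htr : ∀ z, (g⁻¹ * h) z = z + (g⁻¹ * h) 0 := by
        intro z
        rw [hdt.2, hdt.2 0, hmul]; ring
      refine ⟨g⁻¹ * h, (g⁻¹ * h) 0, ?_, htr, (Hs s).mul_mem ((Hs s).inv_mem hg) hmem⟩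
      intro h0
      have h2 := htr (g' c)
      rw [h0, add_zero, Equiv.Perm.mul_apply, hhc, Equiv.Perm.inv_eq_iff_eq] at h2
      exact hgne _ hc h2.symm
    · have hoph : Dir h _ _ := (hop.mul_dir hgd).mul_opp hop.inv
      have hdt : Dir (g * h) _ _ := hgd.mul hoph
      have hmul : α * (α' * conj α * conj α') = 1 := by
        linear_combination (α' * conj α') * mc hn + mc hop.1
      have htr : ∀ z, (g * h) z = z + (g * h) 0 := by
        intro z
        rw [hdt.2, hdt.2 0, hmul]; ring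
      refine ⟨g * h, (g * h) 0, ?_, htr, (Hs s).mul_mem hg hmem⟩
      intro h0
      have h2 := htr (g' c)
      rw [h0, add_zero, Equiv.Perm.mul_apply, hhc] at h2
      exact hgne _ hc h2
  rcases conj_trans_dir hNP hτs ha hτ hg hgd with h1 | h1
  · exact hα1 h1
  · exact hα2 h1

end Pool.Agent.Q19.ExtJ
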