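import Mathlib
import Pool.Agent.Q19.ExtJ

/-!
# Groups with finite orbits (helper19)
-/

namespace Pool.Agent.Q19.ExtK

open ComplexConjugate Pool.Agent.Q19.ExtE Pool.Agent.Q19.ExtF Pool.Agent.Q19.ExtG
open Pool.Agent.Q19.ExtH Pool.Agent.Q19.ExtI Pool.Agent.Q19.ExtJ
open Pool.Agent.Q19.ExtA (zmod2_add_self zmod2_cases NearPer per_fin nearPer_of_two)
open Pool.Agent.Q19.ExtC (dl ind dl_self dl_ne ind_support support_add_finite)

/-- no translations: the group is finite -/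
theorem H_finite {s : ℂ → ZMod 2}
    (hpm : ∀ g ∈ Hs s, ∀ α β, Dir g α β → α = 1 ∨ α = -1)
    (hnt : ∀ g ∈ Hs s, ∀ β, Dir g 1 β → g = 1) : (Hs s : Set (Equiv.Perm ℂ)).Finite := by
  set P : Set (Equiv.Perm ℂ) := {g | g ∈ Hs s ∧ IsDir g} with hP
  have hPfin : P.Finite := by
    by_cases hex : ∃ h ∈ P, h ≠ 1
    · obtain ⟨h, hh, hh1⟩ := hex
      refine (Set.toFinite {1, h⁻¹}).subset ?_
      intro h' hh'
      by_cases h1 : h' = 1
      · left; exact h1
      · right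
        obtain ⟨hm, α, β, hd⟩ := hh
        obtain ⟨hm', α', β', hd'⟩ := hh'
        have e1 : α = -1 := by
          rcases hpm _ hm _ _ hd with h2 | h2
          · exact absurd (hnt _ hm β (h2 ▸ hd)) hh1
          · exact h2
        have e2 : α' = -1 := by
          rcases hpm _ hm' _ _ hd' with h2 | h2
          · exact absurd (hnt _ hm' β' (h2 ▸ hd')) h1
          · exact h2
        have h3 := hd.mul hd'
        rw [e1, e2, show (-1 : ℂ) * (-1) = 1 by norm_num] at h3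
        have h4 := hnt _ ((Hs s).mul_mem hm hm') _ h3
        exact (inv_eq_of_mul_eq_one_right h4).symm
    · push Not at hex
      refine (Set.finite_singleton 1).subset ?_
      intro h hh
      exact hex h hh
  by_cases hopp : ∃ g0 ∈ Hs s, IsOpp g0
  · obtain ⟨g0, hg0, α0, β0, ho0⟩ := hopp
    refine (hPfin.union (hPfin.image (fun h => g0 * h))).subset ?_
    intro g hg
    rcases hg.1 with hd | ⟨α, β, ho⟩
    · left; exact ⟨hg, hd⟩
    · right
      refine ⟨g0⁻¹ * g, ⟨(Hs s).mul_mem ((Hs s).inv_mem hg0) hg, _, _, ho0.inv.mul_opp ho⟩, ?_⟩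
      simp
  · refine hPfin.subset ?_
    intro g hg
    rcases hg.1 with hd | ho
    · exact ⟨hg, hd⟩
    · exact absurd ⟨g, hg, ho⟩ hopp

theorem case_B1 {s : ℂ → ZMod 2} {W : Finset ℂ} (hW : W.card = 7)
    (hst : ∀ g ∈ E, (∀ w ∈ W, g w = w) → g = 1)
    (h : ∀ F ⊆ W, ∃ g ∈ E, g ≠ 1 ∧ ∀ z, s (g z) + ind F (g z) = s z + ind F z)
    (hfin : (Hs s : Set (Equiv.Perm ℂ)).Finite) : False := by
  apply fin_orbit (s := s) hW hst (O := ⋃ g ∈ (Hs s : Set (Equiv.Perm ℂ)), g '' (W : Set ℂ))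
  · exact hfin.biUnion (fun g _ => W.finite_toSet.image g)
  · intro w hw
    rw [Set.mem_iUnion₂]
    exact ⟨1, (Hs s).one_mem, w, hw, rfl⟩
  · intro F hF
    obtain ⟨g, hg, hg1, hinv⟩ := h F hF
    refine ⟨g, hg, hg1, hinv, ?_⟩
    intro z hz
    rw [Set.mem_iUnion₂] at hz ⊢
    obtain ⟨g', hg', w, hw, rfl⟩ := hz
    exact ⟨g * g', (Hs s).mul_mem (mem_Hs_of_inv hg hinv) hg', w, hw, rfl⟩

theorem roots_finite {N : ℕ} (hN : 0 < N) (c v : ℂ) : {z : ℂ | (z - c) ^ N = v}.Finite := by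
  have h1 : {x : ℂ | x ^ N = v}.Finite := by
    refine ((Polynomial.nthRoots N v).toFinset.finite_toSet).subset ?_
    intro x hx
    simp only [Finset.mem_coe, Multiset.mem_toFinset]
    rw [Polynomial.mem_nthRoots hN]
    exact hx
  have hinj : Function.Injective (fun z : ℂ => z - c) := sub_left_injective
  exact h1.preimage hinj.injOn

theorem case_A2 {s : ℂ → ZMod 2} {W : Finset ℂ} (hW : W.card = 7)
    (hst : ∀ g ∈ E, (∀ w ∈ W, g w = w) → g = 1)
    (h : ∀ F ⊆ W, ∃ g ∈ E, g ≠ 1 ∧ ∀ z, s (g z) + ind F (g z) = s z + ind F z)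
    {c : ℂ} (hc : ∀ g ∈ Hs s, g c = c)
    (hfo : ∀ g ∈ Hs s, ∀ α β, Dir g α β → ∃ n : ℕ, 0 < n ∧ α ^ n = 1) : False := by
  classical
  choose! gF hgE hg1 hginv using h
  have hmem : ∀ F ⊆ W, gF F ∈ Hs s := fun F hF => mem_Hs_of_inv (hgE F hF) (hginv F hF)
  have hn : ∀ F ⊆ W, ∀ F' ⊆ W, ∃ n : ℕ, 0 < n ∧ (∀ α β, Dir (gF F) α β → α ^ n = 1) ∧
      (∀ α β α' β', Opp (gF F) α β → Opp (gF F') α' β' → (α * conj α') ^ n = 1) := by
    intro F hF F' hF'
    rcases (hmem F hF).1 with ⟨α, β, hd⟩ | ⟨α, β, ho⟩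
    · obtain ⟨n, hn0, hn⟩ := hfo _ (hmem F hF) _ _ hd
      refine ⟨n, hn0, ?_, ?_⟩
      · intro α1 β1 hd1
        have : α1 = α := by
          have e0 := (hd1.2 0).symm.trans (hd.2 0)
          have e1 := (hd1.2 1).symm.trans (hd.2 1)
          linear_combination e1 - e0
        rw [this]; exact hn
      · intro α1 β1 _ _ ho1 _
        exact absurd ⟨_, _, ho1⟩ (fun h2 => not_both ⟨_, _, hd⟩ h2)
    · rcases (hmem F' hF').1 with ⟨α', β', hd'⟩ | ⟨α', β', ho'⟩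
      · refine ⟨1, one_pos, ?_, ?_⟩
        · intro α1 β1 hd1
          exact absurd ⟨_, _, ho⟩ (fun h2 => not_both ⟨_, _, hd1⟩ h2)
        · intro _ _ α1 β1 _ ho1
          exact absurd ⟨_, _, ho1⟩ (fun h2 => not_both ⟨_, _, hd'⟩ h2)
      · have hinvp : ∀ {g : Equiv.Perm ℂ} {α1 β1 α2 β2 : ℂ}, Opp g α1 β1 → Opp g α2 β2 →
            α1 = α2 := by
          intro g α1 β1 α2 β2 ho1 ho2
          have e0 := (ho1.2 0).symm.trans (ho2.2 0)
          have e1 := (ho1.2 1).symm.trans (ho2.2 1)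
          simp only [map_zero, map_one, mul_zero, mul_one, zero_add] at e0 e1
          linear_combination e1 - e0
        obtain ⟨n, hn0, hn⟩ := hfo _ ((Hs s).mul_mem (hmem F hF) (hmem F' hF')) _ _
          (ho.mul_opp ho')
        refine ⟨n, hn0, ?_, ?_⟩
        · intro α1 β1 hd1
          exact absurd ⟨_, _, ho⟩ (fun h2 => not_both ⟨_, _, hd1⟩ h2)
        · intro α1 β1 α2 β2 ho1 ho2
          rw [hinvp ho1 ho, hinvp ho2 ho']; exact hn
  choose! n hn0 hn1 hn2 using hn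
  set N : ℕ := ∏ F ∈ W.powerset, ∏ F' ∈ W.powerset, n F F' with hN
  have hNpos : 0 < N := Finset.prod_pos (fun F hF => Finset.prod_pos (fun F' hF' =>
    hn0 F (Finset.mem_powerset.mp hF) F' (Finset.mem_powerset.mp hF')))
  have hdvd : ∀ F ⊆ W, ∀ F' ⊆ W, n F F' ∣ N := by
    intro F hF F' hF'
    exact (Finset.dvd_prod_of_mem _ (Finset.mem_powerset.mpr hF')).trans
      (Finset.dvd_prod_of_mem (fun F => ∏ F' ∈ W.powerset, n F F') (Finset.mem_powerset.mpr hF))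
  have hdirN : ∀ F ⊆ W, ∀ α β, Dir (gF F) α β → α ^ N = 1 := by
    intro F hF α β hd
    obtain ⟨k, hk⟩ := hdvd F hF F hF
    rw [hk, pow_mul, hn1 F hF F hF α β hd, one_pow]
  obtain ⟨α1, hα1n, hα1⟩ : ∃ α1 : ℂ, ‖α1‖ = 1 ∧ ∀ F ⊆ W, ∀ α β, Opp (gF F) α β →
      α ^ N = α1 ^ N := by
    by_cases hex : ∃ F1 ⊆ W, ∃ α1 β1, Opp (gF F1) α1 β1
    · obtain ⟨F1, hF1, α1, β1, ho1⟩ := hex
      refine ⟨α1, ho1.1, ?_⟩
      intro F hF α β ho
      obtain ⟨k, hk⟩ := hdvd F hF F1 hF1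
      have h1 : (α * conj α1) ^ N = 1 := by
        rw [hk, pow_mul, hn2 F hF F1 hF1 α β α1 β1 ho ho1, one_pow]
      have h2 : (α1 * conj α1) ^ N = 1 := by rw [mc ho1.1, one_pow]
      rw [mul_pow] at h1 h2
      apply mul_right_cancel₀ (b := (conj α1) ^ N)
      · exact pow_ne_zero _ (ne0 (nconj ho1.1))
      · rw [h1, h2]
    · refine ⟨1, by simp, ?_⟩
      intro F hF α β ho
      exact absurd ⟨F, hF, α, β, ho⟩ hex
  set O : Set ℂ := ⋃ w ∈ (W : Set ℂ), ({z | (z - c) ^ N = (w - c) ^ N} ∪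
    {z | (z - c) ^ N = α1 ^ N * (conj (w - c)) ^ N}) with hO
  have hOmem : ∀ z, z ∈ O ↔ ∃ w ∈ W, (z - c) ^ N = (w - c) ^ N ∨
      (z - c) ^ N = α1 ^ N * (conj (w - c)) ^ N := by
    intro z
    rw [hO, Set.mem_iUnion₂]
    constructor
    · rintro ⟨w, hw, h1⟩; exact ⟨w, hw, h1⟩
    · rintro ⟨w, hw, h1⟩; exact ⟨w, hw, h1⟩
  apply fin_orbit (s := s) hW hst (O := O)
  · exact W.finite_toSet.biUnion (fun w _ => (roots_finite hNpos _ _).union
      (roots_finite hNpos _ _))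
  · intro w hw
    rw [hOmem]
    exact ⟨w, hw, Or.inl rfl⟩
  · intro F hF
    refine ⟨gF F, hgE F hF, hg1 F hF, hginv F hF, ?_⟩
    intro z hz
    rw [hOmem] at hz ⊢
    obtain ⟨w, hw, hz⟩ := hz
    have hcc := hc _ (hmem F hF)
    have h11 : α1 ^ N * (conj α1) ^ N = 1 := by rw [← mul_pow, mc hα1n, one_pow]
    rcases hgE F hF with ⟨α, β, hd⟩ | ⟨α, β, ho⟩
    · have hform : gF F z - c = α * (z - c) := by
        rw [hd.2] at hcc ⊢
        linear_combination hcc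
      refine ⟨w, hw, ?_⟩
      rw [hform, mul_pow, hdirN F hF α β hd, one_mul]
      exact hz
    · have hform : gF F z - c = α * conj (z - c) := by
        rw [ho.2] at hcc ⊢
        rw [map_sub]
        linear_combination hcc
      refine ⟨w, hw, ?_⟩
      rw [hform, mul_pow, hα1 F hF α β ho, ← map_pow, ← map_pow]
      rcases hz with hz | hz
      · right; rw [hz]
      · left
        rw [hz, map_mul, map_pow, map_pow, Complex.conj_conj]
        linear_combination ((w - c) ^ N) * h11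

end Pool.Agent.Q19.ExtK
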