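import Mathlib
import Pool.Agent.Q19.ExtK

/-!
# Ends of orbits (helper19)
-/

namespace Pool.Agent.Q19.ExtL

open Pool.Agent.Q19.ExtI Pool.Agent.Q19.ExtJ
open Pool.Agent.Q19.ExtA (zmod2_add_self zmod2_cases)
open Pool.Agent.Q19.ExtC (dl ind dl_self dl_ne ind_support support_add_finite)

/-- the values along the forward orbit are finally `c` -/
def Lim (b : Equiv.Perm ℂ) (s : ℂ → ZMod 2) (z : ℂ) (c : ZMod 2) : Prop :=
  ∃ J : ℤ, ∀ j : ℤ, J ≤ j → s ((b ^ j) z) = c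

/-- orbits going from `0` to `1` -/
def Dp (b : Equiv.Perm ℂ) (s : ℂ → ZMod 2) (z : ℂ) : Prop := Lim b s z 1 ∧ Lim b⁻¹ s z 0

/-- orbits going from `1` to `0` -/
def Dm (b : Equiv.Perm ℂ) (s : ℂ → ZMod 2) (z : ℂ) : Prop := Lim b⁻¹ s z 1 ∧ Lim b s z 0

theorem Dp_inv {b : Equiv.Perm ℂ} {s : ℂ → ZMod 2} {z : ℂ} : Dp b⁻¹ s z ↔ Dm b s z := by
  unfold Dp Dm
  rw [inv_inv]

theorem Dm_inv {b : Equiv.Perm ℂ} {s : ℂ → ZMod 2} {z : ℂ} : Dm b⁻¹ s z ↔ Dp b s z := by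
  unfold Dp Dm
  rw [inv_inv]

structure Ends (s : ℂ → ZMod 2) (b : Equiv.Perm ℂ) (H : Subgroup (Equiv.Perm ℂ)) : Prop where
  fin : ∀ g ∈ H, {z | s (g z) ≠ s z}.Finite
  memb : b ∈ H
  inf : ∀ z, b z ≠ z → ∀ n : ℤ, n ≠ 0 → (b ^ n) z ≠ z
  types : ∀ g ∈ H, g * b = b * g ∨ (g * b = b⁻¹ * g ∧ g * g = 1)
  comm : ∀ g ∈ H, ∀ g' ∈ H, g * b = b * g → g' * b = b * g' → g * g' = g' * g
  hP : ∀ g ∈ H, g * b = b * g → ∀ z, b z ≠ z → ∀ m : ℕ, 0 < m → (g ^ m) z = z →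
    g ^ (2 * m) = 1
  fix : ∀ x y, b x = x → b y = y → x = y

theorem inv_fix {b : Equiv.Perm ℂ} {z : ℂ} : b⁻¹ z = z ↔ b z = z := by
  rw [Equiv.Perm.inv_eq_iff_eq, eq_comm]

theorem comm_inv_iff {g b : Equiv.Perm ℂ} : g * b⁻¹ = b⁻¹ * g ↔ g * b = b * g := by
  constructor
  · intro h
    have : Commute g b⁻¹ := h
    exact (Commute.inv_right_iff.mp this)
  · intro h
    have : Commute g b := h
    exact this.inv_right

theorem Ends.inv {s : ℂ → ZMod 2} {b : Equiv.Perm ℂ} {H : Subgroup (Equiv.Perm ℂ)}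
    (h : Ends s b H) : Ends s b⁻¹ H where
  fin := h.fin
  memb := H.inv_mem h.memb
  inf := by
    intro z hz n hn
    rw [inv_zpow, ← zpow_neg]
    exact h.inf z (fun h1 => hz (inv_fix.mpr h1)) (-n) (by omega)
  types := by
    intro g hg
    rcases h.types g hg with h1 | ⟨h1, h2⟩
    · left; exact comm_inv_iff.mpr h1
    · right
      refine ⟨?_, h2⟩
      rw [inv_inv]
      rw [mul_inv_eq_iff_eq_mul, mul_assoc, h1]; group
  comm := by
    intro g hg g' hg' h1 h2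
    exact h.comm g hg g' hg' (comm_inv_iff.mp h1) (comm_inv_iff.mp h2)
  hP := by
    intro g hg h1 z hz m hm h2
    exact h.hP g hg (comm_inv_iff.mp h1) z (fun h3 => hz (inv_fix.mpr h3)) m hm h2
  fix := by
    intro x y hx hy
    exact h.fix x y (inv_fix.mp hx) (inv_fix.mp hy)

theorem lim_unique {b : Equiv.Perm ℂ} {s : ℂ → ZMod 2} {z : ℂ} {c d : ZMod 2}
    (h1 : Lim b s z c) (h2 : Lim b s z d) : c = d := by
  obtain ⟨J1, h1⟩ := h1
  obtain ⟨J2, h2⟩ := h2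
  rw [← h1 (max J1 J2) (le_max_left _ _), ← h2 (max J1 J2) (le_max_right _ _)]

theorem Dp_Dm {b : Equiv.Perm ℂ} {s : ℂ → ZMod 2} {z : ℂ} (h1 : Dp b s z) (h2 : Dm b s z) :
    False := one_ne_zero (lim_unique h1.1 h2.2)

theorem zpow_fix {b : Equiv.Perm ℂ} {z : ℂ} (hz : b z = z) (n : ℤ) : (b ^ n) z = z := by
  exact Function.IsFixedPt.perm_zpow hz n

theorem Dp_ne {b : Equiv.Perm ℂ} {s : ℂ → ZMod 2} {z : ℂ} (h : Dp b s z) : b z ≠ z := by
  intro hz
  obtain ⟨⟨J, hJ⟩, ⟨K, hK⟩⟩ := h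
  have h1 := hJ J le_rfl
  have h2 := hK K le_rfl
  rw [zpow_fix hz] at h1
  rw [zpow_fix (inv_fix.mpr hz)] at h2
  rw [h1] at h2
  exact one_ne_zero h2

theorem Dm_ne {b : Equiv.Perm ℂ} {s : ℂ → ZMod 2} {z : ℂ} (h : Dm b s z) : b z ≠ z := by
  have := Dp_ne (Dp_inv.mpr h)
  exact fun h1 => this (inv_fix.mpr h1)

section
variable {s : ℂ → ZMod 2} {b : Equiv.Perm ℂ} {H : Subgroup (Equiv.Perm ℂ)} (h : Ends s b H)
include h

theorem orbit_inj {z : ℂ} (hz : b z ≠ z) : Function.Injective (fun n : ℤ => (b ^ n) z) := by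
  intro m n hmn
  by_contra hne
  apply h.inf z hz (m - n) (by omega)
  have h1 : (b ^ m) z = (b ^ n) z := hmn
  rw [sub_eq_neg_add, zpow_add, Equiv.Perm.mul_apply, h1, ← Equiv.Perm.mul_apply, ← zpow_add]
  simp

omit h in
/-- integers beyond a finite set -/
theorem bound_of_finite {S : Set ℤ} (hS : S.Finite) : ∃ J : ℤ, ∀ j, J ≤ j → j ∉ S := by
  obtain ⟨M, hM⟩ := hS.bddAbove
  refine ⟨M + 1, fun j hj hjS => ?_⟩
  have := hM hjS
  omega

theorem exists_lim (z : ℂ) : ∃ c, Lim b s z c := by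
  by_cases hz : b z = z
  · exact ⟨s z, 0, fun j _ => by rw [zpow_fix hz]⟩
  · have hfin := (h.fin b h.memb).preimage (orbit_inj h hz).injOn
    obtain ⟨J, hJ⟩ := bound_of_finite hfin
    refine ⟨s ((b ^ J) z), J, ?_⟩
    intro j hj
    induction j, hj using Int.leInduction with
    | base => rfl
    | succ n hn ih =>
      have h1 := hJ n hn
      simp only [Set.mem_preimage, Set.mem_setOf_eq, not_not] at h1
      rw [add_comm, zpow_add, zpow_one, Equiv.Perm.mul_apply, h1, ih]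

theorem lim_congr {s' : ℂ → ZMod 2} (hs' : {z | s' z ≠ s z}.Finite) {z : ℂ} (hz : b z ≠ z)
    {c : ZMod 2} (hl : Lim b s z c) : Lim b s' z c := by
  obtain ⟨J, hJ⟩ := hl
  have hfin := hs'.preimage (orbit_inj h hz).injOn
  obtain ⟨K, hK⟩ := bound_of_finite hfin
  refine ⟨max J K, fun j hj => ?_⟩
  have h1 := hK j ((le_max_right _ _).trans hj)
  simp only [Set.mem_preimage, Set.mem_setOf_eq, not_not] at h1
  rw [h1]
  exact hJ j ((le_max_left _ _).trans hj)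

omit h in
theorem lim_zpow {z : ℂ} {c : ZMod 2} (hl : Lim b s z c) (n : ℤ) : Lim b s ((b ^ n) z) c := by
  obtain ⟨J, hJ⟩ := hl
  refine ⟨J - n, fun j hj => ?_⟩
  rw [← Equiv.Perm.mul_apply, ← zpow_add]
  exact hJ _ (by omega)

theorem lim_E {g : Equiv.Perm ℂ} (hg : g ∈ H) (hgE : g * b = b * g) {z : ℂ} (hz : b z ≠ z)
    {c : ZMod 2} (hl : Lim b s z c) : Lim b s (g z) c := by
  obtain ⟨J, hJ⟩ := lim_congr h (s' := fun z => s (g z)) (h.fin g hg) hz hl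
  refine ⟨J, fun j hj => ?_⟩
  have hc : Commute g b := hgE
  have h1 := (hc.zpow_right j).eq
  have h2 : (b ^ j) (g z) = g ((b ^ j) z) := by
    rw [← Equiv.Perm.mul_apply, ← h1, Equiv.Perm.mul_apply]
  rw [h2]
  exact hJ j hj

omit h in
theorem S_zpow {g b : Equiv.Perm ℂ} (hgS : g * b = b⁻¹ * g) (j : ℤ) : g * b ^ j = (b⁻¹) ^ j * g := by
  have h1 : SemiconjBy g b b⁻¹ := hgS
  exact h1.zpow_right j

theorem lim_S {g : Equiv.Perm ℂ} (hg : g ∈ H) (hgS : g * b = b⁻¹ * g) {z : ℂ} (hz : b z ≠ z)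
    {c : ZMod 2} (hl : Lim b s z c) : Lim b⁻¹ s (g z) c := by
  obtain ⟨J, hJ⟩ := lim_congr h (s' := fun z => s (g z)) (h.fin g hg) hz hl
  refine ⟨J, fun j hj => ?_⟩
  have h2 : (b⁻¹ ^ j) (g z) = g ((b ^ j) z) := by
    rw [← Equiv.Perm.mul_apply, ← S_zpow hgS, Equiv.Perm.mul_apply]
  rw [h2]
  exact hJ j hj

theorem Dp_E {g : Equiv.Perm ℂ} (hg : g ∈ H) (hgE : g * b = b * g) {z : ℂ} (hz : Dp b s z) :
    Dp b s (g z) :=
  ⟨lim_E h hg hgE (Dp_ne hz) hz.1,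
    lim_E h.inv hg (comm_inv_iff.mpr hgE) (fun h1 => Dp_ne hz (inv_fix.mp h1)) hz.2⟩

theorem Dm_E {g : Equiv.Perm ℂ} (hg : g ∈ H) (hgE : g * b = b * g) {z : ℂ} (hz : Dm b s z) :
    Dm b s (g z) := by
  rw [← Dp_inv] at hz ⊢
  exact Dp_E h.inv hg (comm_inv_iff.mpr hgE) hz

omit h in
theorem S_inv {g b : Equiv.Perm ℂ} (hgS : g * b = b⁻¹ * g) : g * b⁻¹ = b⁻¹⁻¹ * g := by
  have := S_zpow hgS (-1)
  simpa using this

theorem Dp_S {g : Equiv.Perm ℂ} (hg : g ∈ H) (hgS : g * b = b⁻¹ * g) {z : ℂ} (hz : Dp b s z) :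
    Dm b s (g z) := by
  refine ⟨lim_S h hg hgS (Dp_ne hz) hz.1, ?_⟩
  have := lim_S h.inv hg (S_inv hgS) (fun h1 => Dp_ne hz (inv_fix.mp h1)) hz.2
  rwa [inv_inv] at this

theorem Dm_S {g : Equiv.Perm ℂ} (hg : g ∈ H) (hgS : g * b = b⁻¹ * g) {z : ℂ} (hz : Dm b s z) :
    Dp b s (g z) := by
  rw [← Dp_inv] at hz
  have := Dp_S h.inv hg (S_inv hgS) hz
  rwa [Dm_inv] at this

/-- the set of orbits with equal ends is preserved -/
theorem D0_mem {g : Equiv.Perm ℂ} (hg : g ∈ H) {z : ℂ} (h1 : ¬ Dp b s z) (h2 : ¬ Dm b s z) :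
    ¬ Dp b s (g z) ∧ ¬ Dm b s (g z) := by
  have hgi := H.inv_mem hg
  have e : g⁻¹ (g z) = z := by simp
  rcases h.types _ hgi with hE | ⟨hS, _⟩
  · constructor
    · intro h3
      apply h1
      rw [← e]; exact Dp_E h hgi hE h3
    · intro h3
      apply h2
      rw [← e]; exact Dm_E h hgi hE h3
  · constructor
    · intro h3
      apply h2
      rw [← e]; exact Dp_S h hgi hS h3
    · intro h3
      apply h1
      rw [← e]; exact Dm_S h hgi hS h3

omit h in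
/-- every orbit with different ends contains a change -/
theorem Dp_change {z : ℂ} (hz : Dp b s z) : ∃ n : ℤ, s (b ((b ^ n) z)) ≠ s ((b ^ n) z) := by
  by_contra hcon
  push Not at hcon
  have hconst : ∀ n : ℤ, s ((b ^ n) z) = s z := by
    intro n
    induction n using Int.induction_on with
    | zero => simp
    | succ n ih =>
      rw [add_comm, zpow_add, zpow_one, Equiv.Perm.mul_apply, hcon, ih]
    | pred n ih =>
      rw [← ih, ← hcon (-(n : ℤ) - 1), ← Equiv.Perm.mul_apply]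
      congr 2
      rw [← zpow_one_add]; congr 1; ring
  obtain ⟨⟨J, hJ⟩, ⟨K, hK⟩⟩ := hz
  have h1 := hJ J le_rfl
  have h2 := hK K le_rfl
  rw [hconst] at h1
  rw [inv_zpow, ← zpow_neg, hconst, h1] at h2
  exact one_ne_zero h2

end

/-! ### Changing the colouring at finitely many places -/

theorem ends_congr {s s' : ℂ → ZMod 2} {b : Equiv.Perm ℂ} {H : Subgroup (Equiv.Perm ℂ)}
    (h : Ends s b H) (hs' : {z | s' z ≠ s z}.Finite) : Ends s' b H where
  fin := by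
    intro g hg
    refine ((hs'.union (hs'.preimage g.injective.injOn)).union (h.fin g hg)).subset ?_
    intro z hz
    by_contra hcon
    simp only [Set.mem_union, Set.mem_preimage, Set.mem_setOf_eq, not_or, not_not] at hcon
    apply hz
    rw [hcon.1.1, hcon.1.2, hcon.2]
  memb := h.memb
  inf := h.inf
  types := h.types
  comm := h.comm
  hP := h.hP
  fix := h.fix

theorem ind_ne_finite (s : ℂ → ZMod 2) (F : Finset ℂ) :
    {z | (fun z => s z + ind F z) z ≠ s z}.Finite := by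
  refine F.finite_toSet.subset ?_
  intro z hz
  by_contra hcon
  apply hz
  show s z + ind F z = s z
  rw [ind_zero (by simpa using hcon), add_zero]

theorem ends_shift {s : ℂ → ZMod 2} {b : Equiv.Perm ℂ} {H : Subgroup (Equiv.Perm ℂ)}
    (h : Ends s b H) (F : Finset ℂ) : Ends (fun z => s z + ind F z) b H :=
  ends_congr h (ind_ne_finite s F)

theorem Dp_shift {s : ℂ → ZMod 2} {b : Equiv.Perm ℂ} {H : Subgroup (Equiv.Perm ℂ)}
    (h : Ends s b H) (F : Finset ℂ) {z : ℂ} (hz : Dp b s z) :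
    Dp b (fun z => s z + ind F z) z :=
  ⟨lim_congr h (ind_ne_finite s F) (Dp_ne hz) hz.1,
    lim_congr h.inv (ind_ne_finite s F) (fun h1 => Dp_ne hz (inv_fix.mp h1)) hz.2⟩

theorem shift_shift (s : ℂ → ZMod 2) (F : Finset ℂ) :
    (fun z => (fun z => s z + ind F z) z + ind F z) = s := by
  funext z
  show s z + ind F z + ind F z = s z
  rw [add_assoc, zmod2_add_self, add_zero]

theorem Dp_unshift {s : ℂ → ZMod 2} {b : Equiv.Perm ℂ} {H : Subgroup (Equiv.Perm ℂ)}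
    (h : Ends s b H) (F : Finset ℂ) {z : ℂ} (hz : Dp b (fun z => s z + ind F z) z) :
    Dp b s z := by
  have := Dp_shift (ends_shift h F) F hz
  rwa [shift_shift] at this

theorem Dm_shift {s : ℂ → ZMod 2} {b : Equiv.Perm ℂ} {H : Subgroup (Equiv.Perm ℂ)}
    (h : Ends s b H) (F : Finset ℂ) {z : ℂ} (hz : Dm b s z) :
    Dm b (fun z => s z + ind F z) z := by
  rw [← Dp_inv] at hz ⊢
  exact Dp_shift h.inv F hz

theorem Dm_unshift {s : ℂ → ZMod 2} {b : Equiv.Perm ℂ} {H : Subgroup (Equiv.Perm ℂ)}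
    (h : Ends s b H) (F : Finset ℂ) {z : ℂ} (hz : Dm b (fun z => s z + ind F z) z) :
    Dm b s z := by
  rw [← Dp_inv] at hz ⊢
  exact Dp_unshift h.inv F hz

/-- symmetric difference -/
noncomputable def sd (F G : Finset ℂ) : Finset ℂ := (F \ G) ∪ (G \ F)

theorem ind_sd (F G : Finset ℂ) (z : ℂ) : ind (sd F G) z = ind F z + ind G z := by
  unfold ind sd
  by_cases h1 : z ∈ F <;> by_cases h2 : z ∈ G <;> simp [h1, h2] <;> decide

theorem sd_sub {F G W : Finset ℂ} (hF : F ⊆ W) (hG : G ⊆ W) : sd F G ⊆ W :=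
  Finset.union_subset (Finset.sdiff_subset.trans hF) (Finset.sdiff_subset.trans hG)

/-- every extension has a symmetry -/
def Fam (s : ℂ → ZMod 2) (W : Finset ℂ) (H : Subgroup (Equiv.Perm ℂ)) : Prop :=
  ∀ F ⊆ W, ∃ g ∈ H, g ≠ 1 ∧ ∀ z, s (g z) + ind F (g z) = s z + ind F z

/-- no extension has a nontrivial symmetry commuting with `b` -/
def NoE (s : ℂ → ZMod 2) (b : Equiv.Perm ℂ) (W : Finset ℂ) (H : Subgroup (Equiv.Perm ℂ)) : Prop :=
  ∀ F ⊆ W, ∀ g ∈ H, g * b = b * g → (∀ z, s (g z) + ind F (g z) = s z + ind F z) → g = 1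

theorem fam_shift {s : ℂ → ZMod 2} {W : Finset ℂ} {H : Subgroup (Equiv.Perm ℂ)} (h : Fam s W H)
    {F0 : Finset ℂ} (hF0 : F0 ⊆ W) : Fam (fun z => s z + ind F0 z) W H := by
  intro F hF
  obtain ⟨g, hg, hg1, hinv⟩ := h (sd F0 F) (sd_sub hF0 hF)
  refine ⟨g, hg, hg1, fun z => ?_⟩
  have := hinv z
  rw [ind_sd, ind_sd] at this
  show s (g z) + ind F0 (g z) + ind F (g z) = s z + ind F0 z + ind F z
  linear_combination this

theorem noE_shift {s : ℂ → ZMod 2} {b : Equiv.Perm ℂ} {W : Finset ℂ}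
    {H : Subgroup (Equiv.Perm ℂ)} (h : NoE s b W H) {F0 : Finset ℂ} (hF0 : F0 ⊆ W) :
    NoE (fun z => s z + ind F0 z) b W H := by
  intro F hF g hg hgE hinv
  apply h (sd F0 F) (sd_sub hF0 hF) g hg hgE
  intro z
  rw [ind_sd, ind_sd]
  have : s (g z) + ind F0 (g z) + ind F (g z) = s z + ind F0 z + ind F z := hinv z
  linear_combination this

theorem noE_inv {s : ℂ → ZMod 2} {b : Equiv.Perm ℂ} {W : Finset ℂ}
    {H : Subgroup (Equiv.Perm ℂ)} (h : NoE s b W H) : NoE s b⁻¹ W H := by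
  intro F hF g hg hgE hinv
  exact h F hF g hg (comm_inv_iff.mp hgE) hinv

end Pool.Agent.Q19.ExtL
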