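import Mathlib
import Pool.Agent.Q19.ExtL

/-!
# Too few points carry a step (helper19)
-/

namespace Pool.Agent.Q19.ExtM

open Pool.Agent.Q19.ExtI Pool.Agent.Q19.ExtJ Pool.Agent.Q19.ExtL
open Pool.Agent.Q19.ExtA (zmod2_add_self zmod2_cases)
open Pool.Agent.Q19.ExtC (dl ind dl_self dl_ne ind_support support_add_finite ind_singleton
  ind_empty)

theorem zpow_eq_of_comm {A B : Equiv.Perm ℂ} (hc : Commute A B) {z : ℂ} (hz : A z = B z) (n : ℤ) :
    (A ^ n) z = (B ^ n) z := by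
  have h1 : (B⁻¹ * A) z = z := by
    rw [Equiv.Perm.mul_apply, hz]; simp
  have h2 := zpow_fix h1 n
  rw [(hc.symm.inv_left).mul_zpow, Equiv.Perm.mul_apply, inv_zpow, Equiv.Perm.inv_eq_iff_eq] at h2
  exact h2

theorem SS_comm {g g' b : Equiv.Perm ℂ} (h : g * b = b⁻¹ * g) (h' : g' * b = b⁻¹ * g') :
    (g * g') * b = b * (g * g') := by
  rw [mul_assoc, h', ← mul_assoc, S_inv h, inv_inv, mul_assoc]

section
variable {t : ℂ → ZMod 2} {b : Equiv.Perm ℂ} {H : Subgroup (Equiv.Perm ℂ)} (h : Ends t b H)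
include h

theorem Dp_zpow {γ : Equiv.Perm ℂ} (hγ : γ ∈ H) (hγE : γ * b = b * γ) {z : ℂ} (hz : Dp b t z)
    (n : ℤ) : Dp b t ((γ ^ n) z) := by
  have hc : Commute γ b := hγE
  exact Dp_E h (H.zpow_mem hγ n) (hc.zpow_left n).eq hz

/-- the point carrying the step is not periodic -/
theorem not_periodic {γ : Equiv.Perm ℂ} (hγ : γ ∈ H) (hγE : γ * b = b * γ) {w : ℂ}
    (hw : Dp b t w) (hst : ∀ z, Dp b t z → t (γ z) = t z + dl w z) :
    ∀ m : ℕ, 0 < m → (γ ^ m) w ≠ w := by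
  by_contra hcon
  push Not at hcon
  classical
  set m := Nat.find hcon with hm
  have hm0 : 0 < m := (Nat.find_spec hcon).1
  have hmw : (γ ^ m) w = w := (Nat.find_spec hcon).2
  have hmin : ∀ i, 0 < i → i < m → (γ ^ i) w ≠ w := by
    intro i hi him h1
    exact Nat.find_min hcon him ⟨hi, h1⟩
  have hval : ∀ j : ℕ, j < m → t ((γ ^ (j + 1)) w) = t w + 1 := by
    intro j
    induction j with
    | zero =>
      intro _
      rw [zero_add, pow_one, hst w hw, dl_self]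
    | succ j ih =>
      intro hj
      rw [pow_succ', Equiv.Perm.mul_apply, hst _ (by
        have := Dp_zpow h hγ hγE hw ((j + 1 : ℕ) : ℤ)
        rwa [zpow_natCast] at this), ih (by omega), dl_ne (hmin _ (by omega) hj), add_zero]
  have h1 := hval (m - 1) (by omega)
  rw [Nat.sub_add_cancel hm0, hmw] at h1
  have h2 : (1 : ZMod 2) = 0 := by linear_combination -h1
  exact one_ne_zero h2

theorem not_periodic_int {γ : Equiv.Perm ℂ} (hγ : γ ∈ H) (hγE : γ * b = b * γ) {w : ℂ}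
    (hw : Dp b t w) (hst : ∀ z, Dp b t z → t (γ z) = t z + dl w z) :
    ∀ m : ℤ, m ≠ 0 → (γ ^ m) w ≠ w := by
  intro m hm0 hm
  rcases Int.eq_nat_or_neg m with ⟨k, rfl | rfl⟩
  · rw [zpow_natCast] at hm
    exact not_periodic h hγ hγE hw hst k (by omega) hm
  · rw [zpow_neg, zpow_natCast, Equiv.Perm.inv_eq_iff_eq] at hm
    exact not_periodic h hγ hγE hw hst k (by omega) hm.symm

theorem value_pos {γ : Equiv.Perm ℂ} (hγ : γ ∈ H) (hγE : γ * b = b * γ) {w : ℂ}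
    (hw : Dp b t w) (hst : ∀ z, Dp b t z → t (γ z) = t z + dl w z) (j : ℕ) :
    t ((γ ^ (j + 1)) w) = t w + 1 := by
  induction j with
  | zero => rw [zero_add, pow_one, hst w hw, dl_self]
  | succ j ih =>
    rw [pow_succ', Equiv.Perm.mul_apply, hst _ (by
      have := Dp_zpow h hγ hγE hw ((j + 1 : ℕ) : ℤ)
      rwa [zpow_natCast] at this), ih, dl_ne (not_periodic h hγ hγE hw hst _ (by omega)), add_zero]

theorem value_neg {γ : Equiv.Perm ℂ} (hγ : γ ∈ H) (hγE : γ * b = b * γ) {w : ℂ}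
    (hw : Dp b t w) (hst : ∀ z, Dp b t z → t (γ z) = t z + dl w z) (j : ℕ) :
    t ((γ ^ (-(j : ℤ))) w) = t w := by
  induction j with
  | zero => simp
  | succ j ih =>
    have h1 := hst _ (Dp_zpow h hγ hγE hw (-((j + 1 : ℕ) : ℤ)))
    rw [dl_ne (not_periodic_int h hγ hγE hw hst _ (by omega)), add_zero, ← Equiv.Perm.mul_apply,
      ← zpow_one_add] at h1
    rw [← h1, ← ih]
    congr 3
    push_cast; ring

theorem value_gt {γ : Equiv.Perm ℂ} (hγ : γ ∈ H) (hγE : γ * b = b * γ) {w : ℂ}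
    (hw : Dp b t w) (hst : ∀ z, Dp b t z → t (γ z) = t z + dl w z) {k : ℤ} (hk : 0 < k) :
    t ((γ ^ k) w) = t w + 1 := by
  obtain ⟨j, rfl⟩ : ∃ j : ℕ, k = ((j + 1 : ℕ) : ℤ) := ⟨(k - 1).toNat, by push_cast; omega⟩
  rw [zpow_natCast]
  exact value_pos h hγ hγE hw hst j

theorem value_le {γ : Equiv.Perm ℂ} (hγ : γ ∈ H) (hγE : γ * b = b * γ) {w : ℂ}
    (hw : Dp b t w) (hst : ∀ z, Dp b t z → t (γ z) = t z + dl w z) {k : ℤ} (hk : k ≤ 0) :
    t ((γ ^ k) w) = t w := by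
  obtain ⟨j, rfl⟩ : ∃ j : ℕ, k = -(j : ℤ) := ⟨(-k).toNat, by omega⟩
  exact value_neg h hγ hγE hw hst j

omit h in
theorem const_off' {γ : Equiv.Perm ℂ} {w z : ℂ}
    (hst : ∀ n : ℤ, t (γ ((γ ^ n) z)) = t ((γ ^ n) z) + dl w ((γ ^ n) z))
    (hoff : ∀ k : ℤ, (γ ^ k) z ≠ w) (n : ℤ) : t ((γ ^ n) z) = t z := by
  have hstep : ∀ n : ℤ, t ((γ ^ (1 + n)) z) = t ((γ ^ n) z) := by
    intro n
    rw [zpow_one_add, Equiv.Perm.mul_apply, hst, dl_ne (hoff n), add_zero]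
  induction n using Int.induction_on with
  | zero => simp
  | succ n ih => rw [add_comm, hstep, ih]
  | pred n ih =>
    rw [← ih, ← hstep (-(n : ℤ) - 1)]
    congr 3; ring

/-- limits exclude periodicity -/
theorem lim_contra {z : ℂ} (hz : Dp b t z) {l : ℤ} (hl : l ≠ 0)
    (hc : ∀ n : ℤ, t ((b ^ (l * n)) z) = t z) : False := by
  obtain ⟨⟨J, hJ⟩, ⟨K, hK⟩⟩ := hz
  have hl2 : 1 ≤ l * l := by
    have := mul_self_pos.mpr hl
    omega
  have h1 := hJ (l * (l * |J|)) (by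
    have h2 : |J| * 1 ≤ |J| * (l * l) := mul_le_mul_of_nonneg_left hl2 (abs_nonneg J)
    have h3 := le_abs_self J
    nlinarith)
  have h2 := hK (l * (l * |K|)) (by
    have h2 : |K| * 1 ≤ |K| * (l * l) := mul_le_mul_of_nonneg_left hl2 (abs_nonneg K)
    have h3 := le_abs_self K
    nlinarith)
  rw [hc] at h1
  rw [inv_zpow, ← zpow_neg, ← mul_neg, hc, h1] at h2
  exact one_ne_zero h2

/-- the orbit of the step point is everything -/
theorem orbit_all {γ : Equiv.Perm ℂ} (hγ : γ ∈ H) (hγE : γ * b = b * γ) {w : ℂ}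
    (hw : Dp b t w) (hst : ∀ z, Dp b t z → t (γ z) = t z + dl w z) {z : ℂ} (hz : Dp b t z) :
    ∃ k : ℤ, z = (γ ^ k) w := by
  by_contra hcon
  push Not at hcon
  have hoff : ∀ k : ℤ, (γ ^ k) z ≠ w := by
    intro k hk
    apply hcon (-k)
    rw [← hk, ← Equiv.Perm.mul_apply, ← zpow_add]; simp
  have hconst := const_off' (t := t) (fun n => hst _ (Dp_zpow h hγ hγE hz n)) hoff
  have hc : Commute γ b := hγE
  have hch : ∀ n : ℕ, ∃ k : ℤ, (b ^ k) ((γ ^ n) z) ∈ {y | t (b y) ≠ t y} := by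
    intro n
    have := Dp_zpow h hγ hγE hz (n : ℤ)
    rw [zpow_natCast] at this
    exact Dp_change this
  choose k hk using hch
  have : Finite {y | t (b y) ≠ t y} := (h.fin b h.memb).to_subtype
  obtain ⟨x, y, hxy, he⟩ := Finite.exists_ne_map_eq_of_infinite
    (fun n : ℕ => (⟨(b ^ k n) ((γ ^ n) z), hk n⟩ : {y | t (b y) ≠ t y}))
  have he' : (b ^ k x) ((γ ^ x) z) = (b ^ k y) ((γ ^ y) z) := congrArg Subtype.val he
  clear he
  -- reduce to `x < y`
  obtain ⟨m, l, hm, hml⟩ : ∃ (m : ℕ) (l : ℤ), 0 < m ∧ (γ ^ m) z = (b ^ l) z := by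
    have key : ∀ x y : ℕ, x < y → (b ^ k x) ((γ ^ x) z) = (b ^ k y) ((γ ^ y) z) →
        ∃ (m : ℕ) (l : ℤ), 0 < m ∧ (γ ^ m) z = (b ^ l) z := by
      intro x y hlt he
      refine ⟨y - x, k x - k y, by omega, ?_⟩
      have e1 : ∀ (n : ℕ) (l : ℤ), (b ^ l) ((γ ^ n) z) = (γ ^ n) ((b ^ l) z) := by
        intro n l
        rw [← Equiv.Perm.mul_apply, ← Equiv.Perm.mul_apply, ((hc.pow_left n).zpow_right l).eq]
      rw [e1, e1] at he
      obtain ⟨d, rfl⟩ : ∃ d, y = x + d := ⟨y - x, by omega⟩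
      rw [pow_add, Equiv.Perm.mul_apply] at he
      have he2 := (γ ^ x).injective he
      rw [← e1] at he2
      rw [Nat.add_sub_cancel_left, sub_eq_neg_add, zpow_add, Equiv.Perm.mul_apply, he2,
        ← Equiv.Perm.mul_apply, ← zpow_add, neg_add_cancel, zpow_zero, Equiv.Perm.one_apply]
    rcases Nat.lt_or_gt_of_ne hxy with h1 | h1
    · exact key x y h1 he'
    · exact key y x h1 he'.symm
  by_cases hl : l = 0
  · rw [hl, zpow_zero, Equiv.Perm.one_apply] at hml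
    have h1 := h.hP γ hγ hγE z (Dp_ne hz) m hm hml
    apply not_periodic h hγ hγE hw hst (2 * m) (by omega)
    rw [h1]; rfl
  · apply lim_contra h hz hl
    intro n
    have h1 := zpow_eq_of_comm ((hc.pow_left m).zpow_right l) hml n
    rw [← zpow_mul] at h1
    rw [← h1, ← zpow_natCast, ← zpow_mul]
    exact hconst _

end

end Pool.Agent.Q19.ExtM
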