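import Mathlib
import Pool.Agent.Q19.ExtM

/-!
# At most three points (helper19)
-/

namespace Pool.Agent.Q19.ExtN

open Pool.Agent.Q19.ExtI Pool.Agent.Q19.ExtJ Pool.Agent.Q19.ExtL Pool.Agent.Q19.ExtM
open Pool.Agent.Q19.ExtA (zmod2_add_self zmod2_cases)
open Pool.Agent.Q19.ExtC (dl ind dl_self dl_ne ind_support support_add_finite ind_singleton
  ind_empty)

section
variable {t : ℂ → ZMod 2} {b : Equiv.Perm ℂ} {H : Subgroup (Equiv.Perm ℂ)} {W : Finset ℂ}
  (h : Ends t b H)
include h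

theorem S_of {F : Finset ℂ} (hN : NoE t b W H) (hF : F ⊆ W) {g : Equiv.Perm ℂ} (hg : g ∈ H)
    (hg1 : g ≠ 1) (hinv : ∀ z, t (g z) + ind F (g z) = t z + ind F z) :
    g * b = b⁻¹ * g ∧ g * g = 1 := by
  rcases h.types g hg with h1 | h1
  · exact absurd (hN F hF g hg h1 hinv) hg1
  · exact h1

theorem gam_step {g g' : Equiv.Perm ℂ} (hg' : g' ∈ H) (hinv : ∀ z, t (g z) = t z)
    {w : ℂ} (hw : Dp b t w) (hinv' : ∀ z, t (g' z) + dl w (g' z) = t z + dl w z)
    (hS' : g' * b = b⁻¹ * g') :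
    ∀ z, Dp b t z → t ((g * g') z) = t z + dl w z := by
  intro z hz
  have h1 : g' z ≠ w := by
    intro h2
    have h3 := Dp_S h hg' hS' hz
    rw [h2] at h3
    exact Dp_Dm hw h3
  have h4 := hinv' z
  rw [dl_ne h1, add_zero] at h4
  rw [Equiv.Perm.mul_apply, hinv, h4]

theorem two_points' (hF : Fam t W H) (hN : NoE t b W H) {w w' : ℂ} (hwW : w ∈ W) (hwW' : w' ∈ W)
    (hne : w ≠ w') (hw : Dp b t w) (hw' : Dp b t w') (ht : t w = 0) (ht' : t w' = 0) : False := by
  obtain ⟨g, hg, hg1, hinv⟩ := hF ∅ (Finset.empty_subset _)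
  obtain ⟨g1, hgm1, hg11, hinv1⟩ := hF {w} (Finset.singleton_subset_iff.mpr hwW)
  obtain ⟨g2, hgm2, hg21, hinv2⟩ := hF {w'} (Finset.singleton_subset_iff.mpr hwW')
  obtain ⟨hS, _⟩ := S_of h hN (Finset.empty_subset _) hg hg1 hinv
  obtain ⟨hS1, _⟩ := S_of h hN (Finset.singleton_subset_iff.mpr hwW) hgm1 hg11 hinv1
  obtain ⟨hS2, _⟩ := S_of h hN (Finset.singleton_subset_iff.mpr hwW') hgm2 hg21 hinv2
  simp only [ind_empty, add_zero] at hinv
  simp only [ind_singleton] at hinv1 hinv2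
  have st1 := gam_step h hgm1 hinv hw hinv1 hS1
  have st2 := gam_step h hgm2 hinv hw' hinv2 hS2
  have hE1 := SS_comm hS hS1
  have hE2 := SS_comm hS hS2
  have hm1 := H.mul_mem hg hgm1
  have hm2 := H.mul_mem hg hgm2
  have hc := h.comm _ hm1 _ hm2 hE1 hE2
  set γ1 := g * g1
  set γ2 := g * g2
  obtain ⟨k, hk⟩ := orbit_all h hm1 hE1 hw st1 hw'
  have hk0 : k < 0 := by
    by_contra hcon
    rcases Nat.eq_zero_or_pos k.toNat with h1 | h1
    · have : k = 0 := by omega
      rw [this] at hk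
      exact hne (by simpa using hk.symm)
    · have h2 := value_gt h hm1 hE1 hw st1 (k := k) (by omega)
      rw [← hk, ht, ht'] at h2
      exact one_ne_zero (by linear_combination -h2 : (1 : ZMod 2) = 0)
  have hD2 := Dp_E h hm2 hE2 hw'
  obtain ⟨l, hl⟩ := orbit_all h hm1 hE1 hw st1 hD2
  have hl0 : 0 < l := by
    by_contra hcon
    have h2 := value_le h hm1 hE1 hw st1 (k := l) (by omega)
    rw [← hl, st2 _ hw', ht, ht', dl_self] at h2
    exact one_ne_zero (by linear_combination h2 : (1 : ZMod 2) = 0)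
  have hcc : Commute γ1 γ2 := hc
  have e1 : γ2 w = (γ1 ^ (l - k)) w := by
    have e2 : w = (γ1 ^ (-k)) w' := by
      rw [hk, ← Equiv.Perm.mul_apply, ← zpow_add]; simp
    have e3 : γ2 w = (γ1 ^ (-k)) (γ2 w') := by
      conv_lhs => rw [e2]
      rw [← Equiv.Perm.mul_apply, ← Equiv.Perm.mul_apply, (hcc.zpow_left (-k)).eq]
    rw [e3, hl, ← Equiv.Perm.mul_apply, ← zpow_add, show -k + l = l - k by ring]
  have h5 := value_gt h hm1 hE1 hw st1 (k := l - k) (by omega)
  rw [← e1, st2 _ hw, ht, dl_ne hne] at h5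
  exact one_ne_zero (by linear_combination -h5 : (1 : ZMod 2) = 0)

theorem two_points (hF : Fam t W H) (hN : NoE t b W H) {w w' : ℂ} (hwW : w ∈ W) (hwW' : w' ∈ W)
    (hw : Dp b t w) (hw' : Dp b t w') : w = w' := by
  by_contra hne
  set F0 : Finset ℂ := W.filter (fun z => t z = 1) with hF0
  have hsub : F0 ⊆ W := Finset.filter_subset _ _
  have hz : ∀ z ∈ W, t z + ind F0 z = 0 := by
    intro z hzW
    unfold ind
    by_cases h1 : t z = 1
    · rw [if_pos (Finset.mem_filter.mpr ⟨hzW, h1⟩), h1]; decide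
    · have h3 : z ∉ F0 := fun h2 => h1 (Finset.mem_filter.mp h2).2
      rw [if_neg h3, add_zero]
      rcases zmod2_cases (t z) with h2 | h2
      · exact h2
      · exact absurd h2 h1
  exact two_points' (ends_shift h F0) (fam_shift hF hsub) (noE_shift hN hsub) hwW hwW' hne
    (Dp_shift h F0 hw) (Dp_shift h F0 hw') (hz w hwW) (hz w' hwW')

/-- symmetries fix the remaining points -/
theorem fixes (hF : Fam t W H) (hN : NoE t b W H) {w v : ℂ} (hwW : w ∈ W) (hvW : v ∈ W)
    (hw : Dp b t w) (hv1 : ¬ Dp b t v) (hv2 : ¬ Dm b t v) (hbv : b v ≠ v)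
    {g : Equiv.Perm ℂ} (hg : g ∈ H) (hg1 : g ≠ 1) (hinv : ∀ z, t (g z) = t z) : g v = v := by
  obtain ⟨g', hg', hg'1, hinv'⟩ := hF {w} (Finset.singleton_subset_iff.mpr hwW)
  obtain ⟨g'', hg'', hg''1, hinv''⟩ := hF {v} (Finset.singleton_subset_iff.mpr hvW)
  obtain ⟨hS, hSi⟩ := S_of h (F := ∅) hN (Finset.empty_subset _) hg hg1 (by
    intro z; rw [ind_empty, ind_empty, add_zero, add_zero]; exact hinv z)
  obtain ⟨hS', _⟩ := S_of h hN (Finset.singleton_subset_iff.mpr hwW) hg' hg'1 hinv'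
  obtain ⟨hS'', hSi''⟩ := S_of h hN (Finset.singleton_subset_iff.mpr hvW) hg'' hg''1 hinv''
  simp only [ind_singleton] at hinv' hinv''
  have st := gam_step h hg' hinv hw hinv' hS'
  have hE := SS_comm hS hS'
  have hE'' := SS_comm hS hS''
  have hm := H.mul_mem hg hg'
  have hm'' := H.mul_mem hg hg''
  have hc := h.comm _ hm _ hm'' hE hE''
  have hnp := not_periodic h hm hE hw st
  have hDw : ∀ z, ¬ Dp b t z → ¬ Dm b t z → z ≠ w := fun z hz _ h1 => hz (h1 ▸ hw)
  have hinvol'' : ∀ z, g'' (g'' z) = z := by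
    intro z
    rw [← Equiv.Perm.mul_apply, hSi'']; rfl
  -- values
  have hγ : ∀ z, t ((g * g') z) = t z + dl w z + dl w (g' z) := by
    intro z
    have h1 := hinv' z
    rw [Equiv.Perm.mul_apply, hinv]
    linear_combination h1 - zmod2_add_self (dl w (g' z))
  have hγ'' : ∀ z, t ((g * g'') z) = t z + dl v z + dl v (g'' z) := by
    intro z
    have h1 := hinv'' z
    rw [Equiv.Perm.mul_apply, hinv]
    linear_combination h1 - zmod2_add_self (dl v (g'' z))
  set γ := g * g' with hγdef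
  set γ'' := g * g'' with hγ''def
  have he : ∀ z, ¬ Dp b t z → ¬ Dm b t z → dl v (γ z) + dl v (g'' (γ z)) =
      dl v z + dl v (g'' z) := by
    intro z hz1 hz2
    have h1 : t (γ (γ'' z)) = t (γ'' (γ z)) := by
      rw [← Equiv.Perm.mul_apply, ← Equiv.Perm.mul_apply, hc]
    have hz'' := D0_mem h hm'' hz1 hz2
    have hz' := D0_mem h hg' hz1 hz2
    have hz3 := D0_mem h hg' hz''.1 hz''.2
    rw [hγ, hγ'', hγ'', hγ, dl_ne (hDw _ hz''.1 hz''.2), dl_ne (hDw _ hz3.1 hz3.2),
      dl_ne (hDw _ hz1 hz2), dl_ne (hDw _ hz'.1 hz'.2)] at h1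
    linear_combination -h1
  have hg''v : g'' v = v := by
    by_contra hne
    have hval : ∀ z, dl v z + dl v (g'' z) = 1 → z = v ∨ z = g'' v := by
      intro z hz
      by_contra hcon
      push Not at hcon
      rw [dl_ne hcon.1, dl_ne (fun h1 => hcon.2 (by rw [← h1, hinvol'']))] at hz
      exact absurd hz (by decide)
    have e0 : dl v v + dl v (g'' v) = 1 := by rw [dl_self, dl_ne hne, add_zero]
    have hγv := D0_mem h hm hv1 hv2
    have e1 := (he v hv1 hv2).trans e0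
    have e2 := (he _ hγv.1 hγv.2).trans e1
    have e3 : γ (γ v) = v := by
      rcases hval _ e1 with h1 | h1
      · rw [h1, h1]
      · rcases hval _ e2 with h2 | h2
        · exact h2
        · have h3 := γ.injective (h2.trans h1.symm)
          rw [h3, h3]
    have h4 := h.hP γ hm hE v hbv 2 (by norm_num) (by rw [pow_two, Equiv.Perm.mul_apply, e3])
    exact hnp (2 * 2) (by norm_num) (by rw [h4]; rfl)
  have hinvg : ∀ z, t (γ'' z) = t z := by
    intro z
    have h1 := hγ'' z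
    have h2 : dl v (g'' z) = dl v z := by
      by_cases hz : z = v
      · rw [hz, hg''v]
      · rw [dl_ne hz, dl_ne (fun h3 => hz (g''.injective (h3.trans hg''v.symm)))]
    rw [h1, h2]
    linear_combination zmod2_add_self (dl v z)
  have h5 := hN ∅ (Finset.empty_subset _) γ'' hm'' hE'' (by
    intro z; rw [ind_empty, ind_empty, add_zero, add_zero]; exact hinvg z)
  have h6 : g = g'' := by
    have h7 : g * g'' = g'' * g'' := by rw [hSi'']; exact h5
    exact mul_right_cancel h7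
  rw [h6]; exact hg''v

theorem rest_fixed (hF : Fam t W H) (hN : NoE t b W H) {w v : ℂ} (hwW : w ∈ W) (hvW : v ∈ W)
    (hw : Dp b t w) (hv1 : ¬ Dp b t v) (hv2 : ¬ Dm b t v) : b v = v := by
  by_contra hbv
  obtain ⟨g, hg, hg1, hinv⟩ := hF ∅ (Finset.empty_subset _)
  obtain ⟨g', hg', hg'1, hinv'⟩ := hF {w} (Finset.singleton_subset_iff.mpr hwW)
  have hsub : ({w} : Finset ℂ) ⊆ W := Finset.singleton_subset_iff.mpr hwW
  obtain ⟨hS, _⟩ := S_of h hN (Finset.empty_subset _) hg hg1 hinv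
  obtain ⟨hS', _⟩ := S_of h hN hsub hg' hg'1 hinv'
  have hgv : g v = v := fixes h hF hN hwW hvW hw hv1 hv2 hbv hg hg1 (by
    intro z
    have := hinv z
    rwa [ind_empty, ind_empty, add_zero, add_zero] at this)
  have hg'v : g' v = v := fixes (ends_shift h {w}) (fam_shift hF hsub) (noE_shift hN hsub)
    hwW hvW (Dp_shift h {w} hw) (fun h1 => hv1 (Dp_unshift h {w} h1))
    (fun h1 => hv2 (Dm_unshift h {w} h1)) hbv hg' hg'1 hinv'
  simp only [ind_empty, add_zero] at hinv
  simp only [ind_singleton] at hinv'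
  have st := gam_step h hg' hinv hw hinv' hS'
  have hE := SS_comm hS hS'
  have hm := H.mul_mem hg hg'
  have h1 := h.hP _ hm hE v hbv 1 one_pos (by
    rw [pow_one, Equiv.Perm.mul_apply, hg'v, hgv])
  exact not_periodic h hm hE hw st (2 * 1) (by norm_num) (by rw [h1]; rfl)

theorem core_aux (hF : Fam t W H) (hN : NoE t b W H) {w : ℂ} (hwW : w ∈ W) (hw : Dp b t w) :
    W.card ≤ 3 := by
  classical
  have h1 : (W.filter (fun z => Dp b t z)).card ≤ 1 := by
    rw [Finset.card_le_one]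
    intro x hx y hy
    rw [Finset.mem_filter] at hx hy
    exact two_points h hF hN hx.1 hy.1 hx.2 hy.2
  have h2 : (W.filter (fun z => Dm b t z)).card ≤ 1 := by
    rw [Finset.card_le_one]
    intro x hx y hy
    rw [Finset.mem_filter] at hx hy
    exact two_points h.inv hF (noE_inv hN) hx.1 hy.1 (Dp_inv.mpr hx.2) (Dp_inv.mpr hy.2)
  have h3 : (W.filter (fun z => ¬ Dp b t z ∧ ¬ Dm b t z)).card ≤ 1 := by
    rw [Finset.card_le_one]
    intro x hx y hy
    rw [Finset.mem_filter] at hx hy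
    exact h.fix x y (rest_fixed h hF hN hwW hx.1 hw hx.2.1 hx.2.2)
      (rest_fixed h hF hN hwW hy.1 hw hy.2.1 hy.2.2)
  have h4 : W ⊆ (W.filter (fun z => Dp b t z)) ∪ ((W.filter (fun z => Dm b t z)) ∪
      (W.filter (fun z => ¬ Dp b t z ∧ ¬ Dm b t z))) := by
    intro z hz
    rw [Finset.mem_union, Finset.mem_union, Finset.mem_filter, Finset.mem_filter,
      Finset.mem_filter]
    tauto
  have h5 := Finset.card_le_card h4
  have h6 := Finset.card_union_le (W.filter (fun z => Dp b t z)) ((W.filter (fun z => Dm b t z)) ∪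
      (W.filter (fun z => ¬ Dp b t z ∧ ¬ Dm b t z)))
  have h7 := Finset.card_union_le (W.filter (fun z => Dm b t z))
      (W.filter (fun z => ¬ Dp b t z ∧ ¬ Dm b t z))
  omega

theorem ends_core (hF : Fam t W H) (hN : NoE t b W H) {w : ℂ} (hwW : w ∈ W)
    (hw : Dp b t w ∨ Dm b t w) : W.card ≤ 3 := by
  rcases hw with hw | hw
  · exact core_aux h hF hN hwW hw
  · exact core_aux h.inv hF (noE_inv hN) hwW (Dp_inv.mpr hw)

end

end Pool.Agent.Q19.ExtN
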