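import Mathlib
import Pool.Agent.Q19.ExtN

/-!
# Excluding symmetries commuting with the basic one (helper19)
-/

namespace Pool.Agent.Q19.ExtO

open Pool.Agent.Q19.ExtE (E)
open Pool.Agent.Q19.ExtI Pool.Agent.Q19.ExtJ Pool.Agent.Q19.ExtL Pool.Agent.Q19.ExtM
open Pool.Agent.Q19.ExtN
open Pool.Agent.Q19.ExtA (zmod2_add_self zmod2_cases)
open Pool.Agent.Q19.ExtC (dl ind dl_self dl_ne ind_support support_add_finite ind_singleton
  ind_empty ind_pair)

section
variable {t : ℂ → ZMod 2} {b : Equiv.Perm ℂ} {H : Subgroup (Equiv.Perm ℂ)} {W : Finset ℂ}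
  (h : Ends t b H)
include h

/-- symmetries permute the fixed points of `b` -/
theorem fix_iff {g : Equiv.Perm ℂ} (hg : g ∈ H) (z : ℂ) : b (g z) = g z ↔ b z = z := by
  rcases h.types g hg with h1 | ⟨h1, _⟩
  · have e : b (g z) = g (b z) := by
      rw [← Equiv.Perm.mul_apply, ← h1, Equiv.Perm.mul_apply]
    rw [e, g.injective.eq_iff]
  · have e : b⁻¹ (g z) = g (b z) := by
      rw [← Equiv.Perm.mul_apply, ← h1, Equiv.Perm.mul_apply]
    rw [← inv_fix, e, g.injective.eq_iff]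

theorem fix_fix {g : Equiv.Perm ℂ} (hg : g ∈ H) {z : ℂ} (hz : b z = z) : g z = z :=
  h.fix _ _ ((fix_iff h hg z).mpr hz) hz

theorem D0_lim {z : ℂ} (h1 : ¬ Dp b t z) (h2 : ¬ Dm b t z) :
    ∃ c, Lim b t z c ∧ Lim b⁻¹ t z c := by
  obtain ⟨c, hc⟩ := exists_lim h z
  obtain ⟨d, hd⟩ := exists_lim h.inv z
  rcases zmod2_cases c with rfl | rfl
  · rcases zmod2_cases d with rfl | rfl
    · exact ⟨0, hc, hd⟩
    · exact absurd ⟨hd, hc⟩ h2
  · rcases zmod2_cases d with rfl | rfl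
    · exact absurd ⟨hc, hd⟩ h1
    · exact ⟨1, hc, hd⟩

theorem tail_finite (y : ℂ) :
    {z | ∃ k : ℕ, z = (b⁻¹ ^ k) y ∧ ∃ c, Lim b⁻¹ t y c ∧ t z ≠ c}.Finite := by
  obtain ⟨c, J, hJ⟩ := exists_lim h.inv y
  refine ((Set.finite_lt_nat J.toNat).image (fun k : ℕ => (b⁻¹ ^ k) y)).subset ?_
  rintro z ⟨k, rfl, c', hc', hne⟩
  refine ⟨k, ?_, rfl⟩
  by_contra hcon
  simp only [Set.mem_setOf_eq, not_lt] at hcon
  apply hne
  rw [lim_unique hc' ⟨J, hJ⟩, ← zpow_natCast]
  exact hJ _ (by omega)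

theorem D0_finite {p : ℂ → ZMod 2} (hp : ∀ z, b z ≠ z → ¬ Dp b t z → ¬ Dm b t z →
    Lim b t z (p z) ∧ Lim b⁻¹ t z (p z)) :
    {z | b z ≠ z ∧ ¬ Dp b t z ∧ ¬ Dm b t z ∧ t z ≠ p z}.Finite := by
  classical
  refine ((h.fin b h.memb).biUnion (fun y _ => tail_finite h y)).subset ?_
  rintro z ⟨hbz, h1, h2, hne⟩
  obtain ⟨⟨J, hJ⟩, hm⟩ := hp z hbz h1 h2
  have hex : ∃ m : ℕ, t ((b ^ m) z) = p z := by
    refine ⟨J.toNat, ?_⟩
    rw [← zpow_natCast]
    exact hJ _ (by omega)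
  have hspec := Nat.find_spec hex
  have hpos : 0 < Nat.find hex := by
    rcases Nat.eq_zero_or_pos (Nat.find hex) with h3 | h3
    · rw [h3] at hspec
      exact absurd (by simpa using hspec) hne
    · exact h3
  have hmin := Nat.find_min hex (m := Nat.find hex - 1) (by omega)
  obtain ⟨m, hm'⟩ : ∃ m, Nat.find hex = m + 1 := ⟨Nat.find hex - 1, by omega⟩
  rw [hm'] at hspec hmin
  rw [Nat.add_sub_cancel] at hmin
  rw [Set.mem_iUnion₂]
  refine ⟨(b ^ m) z, ?_, m, ?_, p z, ?_, hne⟩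
  · show t (b ((b ^ m) z)) ≠ t ((b ^ m) z)
    rw [← Equiv.Perm.mul_apply, ← pow_succ', hspec]
    exact fun h3 => hmin h3.symm
  · rw [← Equiv.Perm.mul_apply, inv_pow, inv_mul_cancel, Equiv.Perm.one_apply]
  · have := lim_zpow hm (-(m : ℤ))
    rwa [inv_zpow, zpow_neg, inv_inv, zpow_natCast] at this

/-- If no point of `W` lies on an orbit with different ends, we are in the finite case. -/
theorem ends_fin (hHE : H ≤ E) (hW : W.card = 7)
    (hst : ∀ g ∈ E, (∀ w ∈ W, g w = w) → g = 1) (hF : Fam t W H)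
    (hW0 : ∀ w ∈ W, ¬ Dp b t w ∧ ¬ Dm b t w) : False := by
  classical
  choose lim hlim using exists_lim h
  have hlim2 : ∀ z, ¬ Dp b t z → ¬ Dm b t z → Lim b t z (lim z) ∧ Lim b⁻¹ t z (lim z) := by
    intro z h1 h2
    obtain ⟨c, hc, hd⟩ := D0_lim h h1 h2
    have := lim_unique hc (hlim z)
    rw [← this]; exact ⟨hc, hd⟩
  set p : ℂ → ZMod 2 := fun z => if Dp b t z ∨ Dm b t z then t z else
    if b z = z then 0 else lim z with hp
  have hq : (Function.support (fun z => t z + p z)).Finite := by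
    have hfix : {z | b z = z}.Finite := by
      by_cases hex : ∃ x, b x = x
      · obtain ⟨x, hx⟩ := hex
        exact (Set.finite_singleton x).subset (fun y hy => h.fix y x hy hx)
      · push Not at hex
        exact Set.finite_empty.subset (fun y hy => hex y hy)
    refine (hfix.union (D0_finite h (p := lim) (fun z _ h1 h2 => hlim2 z h1 h2))).subset ?_
    intro z hz
    by_contra hcon
    simp only [Set.mem_union, Set.mem_setOf_eq, not_or, not_and, not_not] at hcon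
    apply hz
    show t z + p z = 0
    simp only [hp]
    by_cases h1 : Dp b t z ∨ Dm b t z
    · rw [if_pos h1]; exact zmod2_add_self _
    · push Not at h1
      rw [if_neg (by tauto), if_neg hcon.1, hcon.2 hcon.1 h1.1 h1.2]
      exact zmod2_add_self _
  apply fin_type hW hst hq
  intro F hFW
  obtain ⟨g, hg, hg1, hinv⟩ := hF F hFW
  refine ⟨g, hHE hg, hg1, ?_⟩
  have hpg : ∀ z, p (g z) = p z := by
    intro z
    simp only [hp]
    by_cases hz : Dp b t z ∨ Dm b t z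
    · have hgz : Dp b t (g z) ∨ Dm b t (g z) := by
        rcases h.types g hg with hE | ⟨hS, _⟩
        · rcases hz with hz | hz
          · exact Or.inl (Dp_E h hg hE hz)
          · exact Or.inr (Dm_E h hg hE hz)
        · rcases hz with hz | hz
          · exact Or.inr (Dp_S h hg hS hz)
          · exact Or.inl (Dm_S h hg hS hz)
      rw [if_pos hz, if_pos hgz]
      have h1 : z ∉ F := fun h2 => by
        have := hW0 z (hFW h2); tauto
      have h3 : g z ∉ F := fun h2 => by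
        have := hW0 _ (hFW h2); tauto
      have h4 := hinv z
      rwa [ind_zero h1, ind_zero h3, add_zero, add_zero] at h4
    · push Not at hz
      have hgz := D0_mem h hg hz.1 hz.2
      have n1 : ¬ (Dp b t z ∨ Dm b t z) := by tauto
      have n2 : ¬ (Dp b t (g z) ∨ Dm b t (g z)) := by tauto
      rw [if_neg n2, if_neg n1]
      by_cases hb : b z = z
      · rw [if_pos hb, if_pos ((fix_iff h hg z).mpr hb)]
      · rw [if_neg hb, if_neg (fun h2 => hb ((fix_iff h hg z).mp h2))]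
        obtain ⟨l1, l2⟩ := hlim2 z hz.1 hz.2
        obtain ⟨m1, m2⟩ := hlim2 _ hgz.1 hgz.2
        rcases h.types g hg with hE | ⟨hS, _⟩
        · exact lim_unique m1 (lim_E h hg hE hb l1)
        · exact lim_unique m2 (lim_S h hg hS hb l1)
  intro z
  show t (g z) + p (g z) + ind F (g z) = t z + p z + ind F z
  rw [hpg]
  linear_combination hinv z

theorem SE_S {g0 g1 : Equiv.Perm ℂ} (hg0 : g0 ∈ H) (hE0 : g0 * b = b * g0) (hg1 : g1 ∈ H)
    (hS1 : g1 * b = b⁻¹ * g1) {w : ℂ} (hbw : b w ≠ w) : (g1 * g0) * (g1 * g0) = 1 := by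
  have hS : (g1 * g0) * b = b⁻¹ * (g1 * g0) := by
    rw [mul_assoc, hE0, ← mul_assoc, hS1, mul_assoc]
  rcases h.types _ (H.mul_mem hg1 hg0) with h1 | ⟨_, h1⟩
  · exfalso
    have h2 : b * (g1 * g0) = b⁻¹ * (g1 * g0) := h1.symm.trans hS
    have h3 := mul_right_cancel h2
    apply h.inf w hbw 2 (by norm_num)
    have h4 : b ^ (2 : ℤ) = 1 := by
      rw [zpow_ofNat, pow_two]
      nth_rewrite 1 [h3]
      exact inv_mul_cancel b
    rw [h4]; rfl
  · exact h1

theorem noE_step_S {g0 g1 : Equiv.Perm ℂ} (hg0 : g0 ∈ H) (hE0 : g0 * b = b * g0)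
    (ht0 : ∀ z, t (g0 z) = t z) {w : ℂ} (hw : Dp b t w) (hg1 : g1 ∈ H)
    (hS1 : g1 * b = b⁻¹ * g1) (hinv1 : ∀ z, t (g1 z) + dl w (g1 z) = t z + dl w z) :
    g0 w = w := by
  have hSS := SE_S h hg0 hE0 hg1 hS1 (Dp_ne hw)
  have hSS1 := SE_S h H.one_mem (by simp) hg1 hS1 (Dp_ne hw)
  rw [mul_one] at hSS1
  have hi : ∀ z, g1 (g1 z) = z := by
    intro z; rw [← Equiv.Perm.mul_apply, hSS1]; rfl
  have hii : ∀ z, g1 (g0 (g1 (g0 z))) = z := by
    intro z
    have : (g1 * g0) ((g1 * g0) z) = z := by rw [← Equiv.Perm.mul_apply, hSS]; rfl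
    exact this
  have key : ∀ z, g0 (g1 (g0 z)) = g1 z := by
    intro z
    apply g1.injective
    rw [hii, hi]
  have hs1 : ∀ z, t (g1 z) = t z + dl w z + dl w (g1 z) := by
    intro z
    linear_combination hinv1 z - zmod2_add_self (dl w (g1 z))
  have he : ∀ z, dl w (g0 z) + dl w (g1 (g0 z)) = dl w z + dl w (g1 z) := by
    intro z
    have h1 := hs1 (g0 z)
    rw [ht0, ← ht0 (g1 (g0 z)), key, hs1] at h1
    linear_combination -h1
  have hDm := Dp_S h hg1 hS1 hw
  have hne1 : g1 w ≠ w := fun h1 => Dp_Dm hw (h1 ▸ hDm)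
  have h1 := he w
  rw [dl_self, dl_ne hne1, add_zero] at h1
  by_contra hne
  have h2 : g1 (g0 w) ≠ w := by
    intro h3
    have h4 := Dp_S h hg1 hS1 (Dp_E h hg0 hE0 hw)
    rw [h3] at h4
    exact Dp_Dm hw h4
  rw [dl_ne hne, dl_ne h2] at h1
  exact absurd h1 (by decide)

/-- free actions: no symmetry commuting with `b` -/
theorem noE_free (hfree : ∀ γ ∈ H, γ * b = b * γ → ∀ z, b z ≠ z → γ z = z → γ = 1)
    (hF : Fam t W H) {w : ℂ} (hwW : w ∈ W) (hw : Dp b t w) {g0 : Equiv.Perm ℂ} (hg0 : g0 ∈ H)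
    (hE0 : g0 * b = b * g0) (ht0 : ∀ z, t (g0 z) = t z) : g0 = 1 := by
  obtain ⟨g1, hg1, hg11, hinv1⟩ := hF {w} (Finset.singleton_subset_iff.mpr hwW)
  simp only [ind_singleton] at hinv1
  rcases h.types g1 hg1 with hE1 | ⟨hS1, _⟩
  · have hne1 : g1 w ≠ w := fun h1 => hg11 (hfree g1 hg1 hE1 w (Dp_ne hw) h1)
    have hc := h.comm _ hg0 _ hg1 hE0 hE1
    have hs1 : ∀ z, t (g1 z) = t z + dl w z + dl w (g1 z) := by
      intro z
      linear_combination hinv1 z - zmod2_add_self (dl w (g1 z))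
    have he : dl w (g0 w) + dl w (g1 (g0 w)) = dl w w + dl w (g1 w) := by
      have h1 := hs1 (g0 w)
      have h2 : g1 (g0 w) = g0 (g1 w) := by
        rw [← Equiv.Perm.mul_apply, ← Equiv.Perm.mul_apply, hc]
      have h3 : t (g1 (g0 w)) = t (g1 w) := by rw [h2, ht0]
      rw [h3, ht0, hs1] at h1
      linear_combination -h1
    rw [dl_self, dl_ne hne1, add_zero] at he
    by_cases h1 : g0 w = w
    · exact hfree g0 hg0 hE0 w (Dp_ne hw) h1
    · by_cases h2 : g1 (g0 w) = w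
      · exfalso
        have h3 := hfree (g1 * g0) (H.mul_mem hg1 hg0) (by
          rw [mul_assoc, hE0, ← mul_assoc, hE1, mul_assoc]) w (Dp_ne hw) h2
        have h4 := hs1 (g0 w)
        have h5 : ∀ z, g1 (g0 z) = z := by
          intro z; rw [← Equiv.Perm.mul_apply, h3]; rfl
        have h6 : g0 (g1 w) = w := by
          have : (g0 * g1) w = w := by rw [hc, h3]; rfl
          exact this
        have h7 := hinv1 w
        have h8 : t (g1 w) = t w := by rw [← ht0 (g1 w), h6]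
        rw [h8, dl_ne hne1, dl_self] at h7
        have h9 : (1 : ZMod 2) = 0 := by linear_combination -h7
        exact one_ne_zero h9
      · rw [dl_ne h1, dl_ne h2] at he
        exact absurd he (by decide)
  · exact hfree g0 hg0 hE0 w (Dp_ne hw)
      (noE_step_S h hg0 hE0 ht0 hw hg1 hS1 hinv1)

end

theorem noE_of_free {s : ℂ → ZMod 2} {b : Equiv.Perm ℂ} {H : Subgroup (Equiv.Perm ℂ)}
    {W : Finset ℂ} (h : Ends s b H)
    (hfree : ∀ γ ∈ H, γ * b = b * γ → ∀ z, b z ≠ z → γ z = z → γ = 1)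
    (hF : Fam s W H) {w : ℂ} (hwW : w ∈ W) (hw : Dp b s w) : NoE s b W H := by
  intro F hFW g hg hgE hinv
  exact noE_free (ends_shift h F) hfree (fam_shift hF hFW) hwW (Dp_shift h F hw) hg hgE hinv

/-- The free case. -/
theorem free_case {s : ℂ → ZMod 2} {b : Equiv.Perm ℂ} {H : Subgroup (Equiv.Perm ℂ)}
    {W : Finset ℂ} (h : Ends s b H) (hHE : H ≤ E)
    (hfree : ∀ γ ∈ H, γ * b = b * γ → ∀ z, b z ≠ z → γ z = z → γ = 1)
    (hW : W.card = 7) (hst : ∀ g ∈ E, (∀ w ∈ W, g w = w) → g = 1) (hF : Fam s W H) : False := by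
  by_cases hex : ∃ w ∈ W, Dp b s w ∨ Dm b s w
  · obtain ⟨w, hwW, hw | hw⟩ := hex
    · have := ends_core h hF (noE_of_free h hfree hF hwW hw) hwW (Or.inl hw)
      omega
    · have := ends_core h.inv hF (noE_of_free h.inv (by
        intro γ hγ hγE z hz
        exact hfree γ hγ (comm_inv_iff.mp hγE) z (fun h1 => hz (inv_fix.mpr h1))) hF hwW
        (Dp_inv.mpr hw)) hwW (Or.inl (Dp_inv.mpr hw))
      omega
  · push Not at hex
    exact ends_fin h hHE hW hst hF hex

end Pool.Agent.Q19.ExtO
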