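import Mathlib
import Pool.Agent.Q19.ExtO

/-!
# The rectangular case (helper19)
-/

namespace Pool.Agent.Q19.ExtP

open Pool.Agent.Q19.ExtE (E)
open Pool.Agent.Q19.ExtI Pool.Agent.Q19.ExtJ Pool.Agent.Q19.ExtL Pool.Agent.Q19.ExtM
open Pool.Agent.Q19.ExtN Pool.Agent.Q19.ExtO
open Pool.Agent.Q19.ExtA (zmod2_add_self zmod2_cases)
open Pool.Agent.Q19.ExtC (dl ind dl_self dl_ne ind_support support_add_finite ind_singleton
  ind_empty ind_pair)

theorem const_step {t : ℂ → ZMod 2} {γ : Equiv.Perm ℂ} {z : ℂ}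
    (hst : ∀ n : ℤ, t (γ ((γ ^ n) z)) = t ((γ ^ n) z)) (n : ℤ) : t ((γ ^ n) z) = t z := by
  have hstep : ∀ n : ℤ, t ((γ ^ (1 + n)) z) = t ((γ ^ n) z) := by
    intro n
    rw [zpow_one_add, Equiv.Perm.mul_apply, hst]
  induction n using Int.induction_on with
  | zero => simp
  | succ n ih => rw [add_comm, hstep, ih]
  | pred n ih =>
    rw [← ih, ← hstep (-(n : ℤ) - 1)]
    congr 3; ring

section
variable {t : ℂ → ZMod 2} {b : Equiv.Perm ℂ} {H : Subgroup (Equiv.Perm ℂ)} {W : Finset ℂ}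
  (h : Ends t b H)
include h

theorem invol_of_inv
    (hQ : ∀ g ∈ H, g * b = b * g → g * g ≠ 1 → ∃ m : ℕ, 0 < m ∧ ∃ l : ℤ, l ≠ 0 ∧ g ^ m = b ^ l)
    {w0 : ℂ} (hw0 : Dp b t w0) {g : Equiv.Perm ℂ} (hg : g ∈ H) (hE : g * b = b * g)
    (ht : ∀ z, t (g z) = t z) : g * g = 1 := by
  by_contra hne
  obtain ⟨m, hm, l, hl, he⟩ := hQ g hg hE hne
  apply lim_contra h hw0 hl
  intro n
  rw [zpow_mul, ← he, ← zpow_natCast, ← zpow_mul]
  exact const_step (fun n => ht _) _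

theorem rect_aux
    (hR : ∀ g ∈ H, ∀ g' ∈ H, g * b = b * g → g' * b = b * g' → g * g = 1 → g' * g' = 1 →
      g ≠ 1 → g' ≠ 1 → g = g')
    (hQ : ∀ g ∈ H, g * b = b * g → g * g ≠ 1 → ∃ m : ℕ, 0 < m ∧ ∃ l : ℤ, l ≠ 0 ∧ g ^ m = b ^ l)
    (hnf : ∀ z, b z ≠ z)
    (hstab : ∀ g ∈ H, (∀ w ∈ W, g w = w) → g = 1)
    (hF : Fam t W H) {w0 : ℂ} (hw0W : w0 ∈ W) (hw0 : Dp b t w0) {g0 : Equiv.Perm ℂ}
    (hg0 : g0 ∈ H) (hE0 : g0 * b = b * g0) (ht0 : ∀ z, t (g0 z) = t z) : g0 = 1 := by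
  by_contra hne0
  have hi0 := invol_of_inv h hQ hw0 hg0 hE0 ht0
  have hii0 : ∀ z, g0 (g0 z) = z := by
    intro z; rw [← Equiv.Perm.mul_apply, hi0]; rfl
  -- symmetries commuting with `b` are equal to `g0`
  have hEq : ∀ F : Finset ℂ, ∀ g ∈ H, g * b = b * g → g ≠ 1 →
      (∀ z, t (g z) + ind F (g z) = t z + ind F z) → g = g0 := by
    intro F g hg hE hg1 hinv
    have h1 := invol_of_inv (ends_shift h F) hQ (Dp_shift h F hw0) hg hE hinv
    exact hR g hg g0 hg0 hE hE0 h1 hi0 hg1 hne0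
  have hfixE : ∀ w ∈ W, ∀ g ∈ H, g * b = b * g → g ≠ 1 →
      (∀ z, t (g z) + dl w (g z) = t z + dl w z) → g0 w = w := by
    intro w hw g hg hE hg1 hinv
    have h1 := hEq {w} g hg hE hg1 (by simpa only [ind_singleton] using hinv)
    rw [h1] at hinv
    have h2 := hinv w
    rw [ht0, dl_self] at h2
    have h3 : dl w (g0 w) = 1 := by linear_combination h2
    by_contra hne
    rw [dl_ne hne] at h3
    exact zero_ne_one h3
  have hpm : ∀ w ∈ W, (Dp b t w ∨ Dm b t w) → g0 w = w := by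
    intro w hw hD
    obtain ⟨g1, hg1, hg11, hinv1⟩ := hF {w} (Finset.singleton_subset_iff.mpr hw)
    simp only [ind_singleton] at hinv1
    rcases h.types g1 hg1 with hE1 | ⟨hS1, _⟩
    · exact hfixE w hw g1 hg1 hE1 hg11 hinv1
    · rcases hD with hD | hD
      · exact noE_step_S h hg0 hE0 ht0 hD hg1 hS1 hinv1
      · exact noE_step_S h.inv hg0 (comm_inv_iff.mpr hE0) ht0 (Dp_inv.mpr hD) hg1 (S_inv hS1)
          hinv1
  apply hne0
  apply hstab g0 hg0
  intro w hw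
  by_cases hD : Dp b t w ∨ Dm b t w
  · exact hpm w hw hD
  · push Not at hD
    obtain ⟨hD1, hD2⟩ := hD
    by_contra hw0w
    have hww0 : w ≠ w0 := fun h1 => hD1 (h1 ▸ hw0)
    have hgw0 := hpm w0 hw0W (Or.inl hw0)
    obtain ⟨g1, hg1, hg11, hinv1⟩ := hF {w} (Finset.singleton_subset_iff.mpr hw)
    simp only [ind_singleton] at hinv1
    obtain ⟨g2, hg2, hg21, hinv2⟩ := hF {w, w0} (by
      intro z hz
      simp only [Finset.mem_insert, Finset.mem_singleton] at hz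
      rcases hz with rfl | rfl
      · exact hw
      · exact hw0W)
    have hS1 : g1 * b = b⁻¹ * g1 := by
      rcases h.types g1 hg1 with hE1 | ⟨hS1, _⟩
      · exact absurd (hfixE w hw g1 hg1 hE1 hg11 hinv1) hw0w
      · exact hS1
    have hS2 : g2 * b = b⁻¹ * g2 ∧ g2 * g2 = 1 := by
      rcases h.types g2 hg2 with hE2 | hS2
      · exfalso
        have h1 := hEq {w, w0} g2 hg2 hE2 hg21 hinv2
        rw [h1] at hinv2
        have h2 := hinv2 w
        rw [ht0, ind_pair hww0, ind_pair hww0, dl_self, dl_ne hww0, dl_ne hw0w] at h2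
        have h3 : g0 w ≠ w0 := fun h4 => hww0 (g0.injective (h4.trans hgw0.symm))
        rw [dl_ne h3] at h2
        have h4 : (1 : ZMod 2) = 0 := by linear_combination -h2
        exact one_ne_zero h4
      · exact hS2
    obtain ⟨hS2, hi2⟩ := hS2
    have hγE := SS_comm hS1 hS2
    have hγm := H.mul_mem hg1 hg2
    set t1 : ℂ → ZMod 2 := fun z => t z + dl w z with ht1
    have h1g1 : ∀ z, t1 (g1 z) = t1 z := hinv1
    have h1g2 : ∀ z, t1 (g2 z) + dl w0 (g2 z) = t1 z + dl w0 z := by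
      intro z
      have h1 := hinv2 z
      rw [ind_pair hww0, ind_pair hww0] at h1
      simp only [ht1]
      linear_combination h1
    have hγ : ∀ z, t1 ((g1 * g2) z) = t1 z + dl w0 z + dl w0 (g2 z) := by
      intro z
      rw [Equiv.Perm.mul_apply, h1g1]
      linear_combination h1g2 z - zmod2_add_self (dl w0 (g2 z))
    have hDm2 := Dp_S h hg2 hS2 hw0
    have hg2w0 : g2 w0 ≠ w0 := fun h1 => Dp_Dm hw0 (h1 ▸ hDm2)
    have hD0ne : ∀ z, ¬ Dp b t z → z ≠ w0 := fun z hz h1 => hz (h1 ▸ hw0)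
    have hg2D0 : ∀ z, ¬ Dp b t z → ¬ Dm b t z → g2 z ≠ w0 := by
      intro z hz1 hz2
      exact hD0ne _ (D0_mem h hg2 hz1 hz2).1
    have htg0 : t1 (g0 w) = t w := by
      simp only [ht1]; rw [ht0, dl_ne hw0w, add_zero]
    have htw : t1 w = t w + 1 := by simp only [ht1]; rw [dl_self]
    have hγγ : (g1 * g2) * (g1 * g2) ≠ 1 := by
      intro h1
      by_cases h2 : g1 * g2 = 1
      · have h3 : g1 = g2 := mul_right_cancel (h2.trans hi2.symm)
        have h4 := h1g2 w0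
        have h5 : t1 (g2 w0) = t1 w0 := by rw [← h3]; exact h1g1 w0
        rw [h5, dl_ne hg2w0, dl_self] at h4
        have h6 : (1 : ZMod 2) = 0 := by linear_combination -h4
        exact one_ne_zero h6
      · have h3 := hR _ hγm _ hg0 hγE hE0 h1 hi0 h2 hne0
        have h4 := hγ w
        rw [h3, htg0, htw, dl_ne hww0, dl_ne (hg2D0 w hD1 hD2)] at h4
        have h6 : (1 : ZMod 2) = 0 := by linear_combination -h4
        exact one_ne_zero h6
    obtain ⟨m, hm, l, hl, he⟩ := hQ _ hγm hγE hγγ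
    have hconst : ∀ z, ¬ Dp b t z → ¬ Dm b t z → t1 ((b ^ l) z) = t1 z := by
      intro z hz1 hz2
      have h1 := const_step (t := t1) (γ := g1 * g2) (z := z) (by
        intro n
        have h2 := D0_mem h (H.zpow_mem hγm n) hz1 hz2
        rw [hγ, dl_ne (hD0ne _ h2.1), dl_ne (hg2D0 _ h2.1 h2.2), add_zero, add_zero]) (m : ℤ)
      rwa [zpow_natCast, he] at h1
    have hc0 : Commute g0 b := hE0
    have hcl : ∀ z, g0 ((b ^ l) z) = (b ^ l) (g0 z) := by
      intro z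
      rw [← Equiv.Perm.mul_apply, (hc0.zpow_right l).eq, Equiv.Perm.mul_apply]
    have hbl : (b ^ l) w ≠ w := h.inf w (hnf w) l hl
    have hbl2 : (b ^ l) (g0 w) ≠ w := by
      intro h1
      have h2 : (b ^ l) w = g0 w := by
        have := congrArg g0 h1
        rwa [hcl, hii0] at this
      apply h.inf w (hnf w) (l + l) (by omega)
      rw [zpow_add, Equiv.Perm.mul_apply, h2, h1]
    have hgD := D0_mem h hg0 hD1 hD2
    have e1 := hconst w hD1 hD2
    have e2 := hconst _ hgD.1 hgD.2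
    have e3 : t1 ((b ^ l) w) = t ((b ^ l) w) := by
      simp only [ht1]; rw [dl_ne hbl, add_zero]
    have e4 : t1 ((b ^ l) (g0 w)) = t ((b ^ l) w) := by
      simp only [ht1]; rw [dl_ne hbl2, add_zero, ← hcl, ht0]
    rw [e3, htw] at e1
    rw [e4, htg0, e1] at e2
    have h6 : (1 : ZMod 2) = 0 := by linear_combination e2
    exact one_ne_zero h6

end

theorem rect_noE {s : ℂ → ZMod 2} {b : Equiv.Perm ℂ} {H : Subgroup (Equiv.Perm ℂ)}
    {W : Finset ℂ} (h : Ends s b H)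
    (hR : ∀ g ∈ H, ∀ g' ∈ H, g * b = b * g → g' * b = b * g' → g * g = 1 → g' * g' = 1 →
      g ≠ 1 → g' ≠ 1 → g = g')
    (hQ : ∀ g ∈ H, g * b = b * g → g * g ≠ 1 → ∃ m : ℕ, 0 < m ∧ ∃ l : ℤ, l ≠ 0 ∧ g ^ m = b ^ l)
    (hnf : ∀ z, b z ≠ z)
    (hstab : ∀ g ∈ H, (∀ w ∈ W, g w = w) → g = 1)
    (hF : Fam s W H) {w0 : ℂ} (hw0W : w0 ∈ W) (hw0 : Dp b s w0) : NoE s b W H := by
  intro F hFW g hg hgE hinv
  exact rect_aux (ends_shift h F) hR hQ hnf hstab (fam_shift hF hFW) hw0W (Dp_shift h F hw0) hg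
    hgE hinv

/-- The rectangular case. -/
theorem rect_case {s : ℂ → ZMod 2} {b : Equiv.Perm ℂ} {H : Subgroup (Equiv.Perm ℂ)}
    {W : Finset ℂ} (h : Ends s b H) (hHE : H ≤ E)
    (hR : ∀ g ∈ H, ∀ g' ∈ H, g * b = b * g → g' * b = b * g' → g * g = 1 → g' * g' = 1 →
      g ≠ 1 → g' ≠ 1 → g = g')
    (hQ : ∀ g ∈ H, g * b = b * g → g * g ≠ 1 → ∃ m : ℕ, 0 < m ∧ ∃ l : ℤ, l ≠ 0 ∧ g ^ m = b ^ l)
    (hnf : ∀ z, b z ≠ z)
    (hW : W.card = 7) (hst : ∀ g ∈ E, (∀ w ∈ W, g w = w) → g = 1) (hF : Fam s W H) : False := by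
  by_cases hex : ∃ w ∈ W, Dp b s w ∨ Dm b s w
  · obtain ⟨w, hwW, hw | hw⟩ := hex
    · have := ends_core h hF (rect_noE h hR hQ hnf (fun g hg => hst g (hHE hg)) hF hwW hw) hwW
        (Or.inl hw)
      omega
    · have := ends_core h.inv hF (rect_noE h.inv
        (by
          intro g hg g' hg' h1 h2
          exact hR g hg g' hg' (comm_inv_iff.mp h1) (comm_inv_iff.mp h2))
        (by
          intro g hg h1 h2
          obtain ⟨m, hm, l, hl, he⟩ := hQ g hg (comm_inv_iff.mp h1) h2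
          exact ⟨m, hm, -l, by omega, by rw [he, inv_zpow, zpow_neg, inv_inv]⟩)
        (fun z h1 => hnf z (inv_fix.mp h1)) (fun g hg => hst g (hHE hg)) hF hwW
        (Dp_inv.mpr hw)) hwW (Or.inl (Dp_inv.mpr hw))
      omega
  · push Not at hex
    exact ends_fin h hHE hW hst hF hex

end Pool.Agent.Q19.ExtP
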