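import Mathlib
import Pool.Agent.Q19.ExtP

/-!
# Seven points suffice (helper19)
-/

namespace Pool.Agent.Q19.ExtQ

open ComplexConjugate Pool.Agent.Q19.ExtE
open Pool.Agent.Q19.ExtI Pool.Agent.Q19.ExtJ Pool.Agent.Q19.ExtK Pool.Agent.Q19.ExtL
open Pool.Agent.Q19.ExtM Pool.Agent.Q19.ExtN Pool.Agent.Q19.ExtO Pool.Agent.Q19.ExtP
open Pool.Agent.Q19.ExtA (zmod2_add_self zmod2_cases NearPer)
open Pool.Agent.Q19.ExtC (dl ind dl_self dl_ne ind_support support_add_finite ind_singleton
  ind_empty ind_pair)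

theorem dir_about {g : Equiv.Perm ℂ} {α β c : ℂ} (hd : Dir g α β) (hc : g c = c) (z : ℂ) :
    g z = c + α * (z - c) := by
  rw [hd.2] at hc ⊢
  linear_combination hc

theorem opp_about {g : Equiv.Perm ℂ} {α β c : ℂ} (hd : Opp g α β) (hc : g c = c) (z : ℂ) :
    g z = c + α * conj (z - c) := by
  rw [hd.2] at hc ⊢
  rw [map_sub]
  linear_combination hc

/-- The case of a rotation of infinite order. -/
theorem case_A1 {s : ℂ → ZMod 2} {W : Finset ℂ} (hW : W.card = 7)
    (hst : ∀ g ∈ E, (∀ w ∈ W, g w = w) → g = 1)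
    (hF : Fam s W (Hs s)) {b : Equiv.Perm ℂ} (hbH : b ∈ Hs s) {α β c : ℂ} (hd : Dir b α β)
    (hα : ∀ n : ℕ, 0 < n → α ^ n ≠ 1) (hc : ∀ g ∈ Hs s, g c = c) : False := by
  have hα0 := ne0 hd.1
  have hb := dir_about hd (hc b hbH)
  have hrot := rot_zpow hα0 hb
  have hαz : ∀ n : ℤ, n ≠ 0 → α ^ n ≠ 1 := by
    intro n hn h1
    rcases Int.eq_nat_or_neg n with ⟨k, rfl | rfl⟩
    · rw [zpow_natCast] at h1
      exact hα k (by omega) h1
    · rw [zpow_neg, zpow_natCast, inv_eq_one] at h1
      exact hα k (by omega) h1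
  have hbz : ∀ z, b z ≠ z ↔ z ≠ c := by
    intro z
    constructor
    · rintro h1 rfl
      apply h1; rw [hb]; ring
    · intro h1 h2
      rw [hb] at h2
      have h3 : (α - 1) * (z - c) = 0 := by linear_combination h2
      rcases mul_eq_zero.mp h3 with h4 | h4
      · exact hα 1 one_pos (by rw [pow_one]; linear_combination h4)
      · exact h1 (by linear_combination h4)
  have hinf : ∀ z, b z ≠ z → ∀ n : ℤ, n ≠ 0 → (b ^ n) z ≠ z := by
    intro z hz n hn h1
    rw [hrot] at h1
    have h3 : (α ^ n - 1) * (z - c) = 0 := by linear_combination h1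
    rcases mul_eq_zero.mp h3 with h4 | h4
    · exact hαz n hn (by linear_combination h4)
    · exact ((hbz z).mp hz) (by linear_combination h4)
  have hdirE : ∀ g ∈ Hs s, IsDir g → g * b = b * g := by
    rintro g hg ⟨α', β', hd'⟩
    have hg' := dir_about hd' (hc g hg)
    apply Equiv.ext; intro z
    rw [Equiv.Perm.mul_apply, Equiv.Perm.mul_apply, hg', hb, hb, hg']; ring
  have hoppS : ∀ g ∈ Hs s, IsOpp g → g * b = b⁻¹ * g := by
    rintro g hg ⟨α', β', ho'⟩
    have hg' := opp_about ho' (hc g hg)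
    apply Equiv.ext; intro z
    rw [Equiv.Perm.mul_apply, Equiv.Perm.mul_apply, eq_comm, Equiv.Perm.inv_eq_iff_eq, hg', hb,
      hb, hg']
    have e1 : c + α * (z - c) - c = α * (z - c) := by ring
    rw [e1, map_mul]
    linear_combination (-α' * conj (z - c)) * mc hd.1
  have hbb : b⁻¹ ≠ b := by
    intro h1
    have h2 : b * b = 1 := by
      nth_rewrite 1 [← h1]; exact inv_mul_cancel b
    have h3 : (b * b) (c + 1) = c + 1 := by rw [h2]; rfl
    rw [Equiv.Perm.mul_apply, hb, hb] at h3
    exact hα 2 (by norm_num) (by linear_combination h3)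
  have hEdir : ∀ g ∈ Hs s, g * b = b * g → IsDir g := by
    intro g hg h1
    rcases hg.1 with h2 | h2
    · exact h2
    · exfalso
      apply hbb
      have h3 := (hoppS g hg h2).symm.trans h1
      exact mul_right_cancel h3
  have hends : Ends s b (Hs s) := by
    refine ⟨fun g hg => hg.2, hbH, hinf, ?_, ?_, ?_, ?_⟩
    · intro g hg
      rcases hg.1 with h1 | h1
      · exact Or.inl (hdirE g hg h1)
      · refine Or.inr ⟨hoppS g hg h1, ?_⟩
        apply Equiv.ext; intro z
        exact opp_invol h1 (hc g hg) z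
    · intro g hg g' hg' h1 h2
      obtain ⟨α1, β1, hd1⟩ := hEdir g hg h1
      obtain ⟨α2, β2, hd2⟩ := hEdir g' hg' h2
      have e1 := dir_about hd1 (hc g hg)
      have e2 := dir_about hd2 (hc g' hg')
      apply Equiv.ext; intro z
      rw [Equiv.Perm.mul_apply, Equiv.Perm.mul_apply, e1, e2, e2, e1]; ring
    · intro g hg h1 z hz m hm h2
      have h3 := hEdir _ ((Hs s).pow_mem hg m) (by
        have hcc : Commute g b := h1
        exact (hcc.pow_left m).eq)
      have h4 := dir_fix2 h3 ((hbz z).mp hz) h2 (hc _ ((Hs s).pow_mem hg m))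
      rw [mul_comm, pow_mul, h4, one_pow]
    · intro x y hx hy
      have h1 : x = c := by
        by_contra hne; exact ((hbz x).mpr hne) hx
      have h2 : y = c := by
        by_contra hne; exact ((hbz y).mpr hne) hy
      rw [h1, h2]
  exact free_case hends (fun g hg => hg.1) (by
    intro γ hγ hγE z hz hγz
    exact dir_fix2 (hEdir γ hγ hγE) ((hbz z).mp hz) hγz (hc γ hγ)) hW hst hF

/-! ### Translations -/

theorem trans_zpow {b : Equiv.Perm ℂ} {a : ℂ} (hb : ∀ z, b z = z + a) (n : ℤ) (z : ℂ) :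
    (b ^ n) z = z + n * a := by
  have hinv : ∀ z, b⁻¹ z = z - a := by
    intro z
    rw [Equiv.Perm.inv_eq_iff_eq, hb]; ring
  induction n generalizing z with
  | zero => simp
  | succ n ih =>
    rw [zpow_add, zpow_one, Equiv.Perm.mul_apply, hb, ih]; push_cast; ring
  | pred n ih =>
    rw [zpow_sub, zpow_one, Equiv.Perm.mul_apply, hinv, ih]; push_cast; ring

/-- The case of a translation. -/
theorem case_B2 {s : ℂ → ZMod 2} (hNP : ¬ NearPer s) {W : Finset ℂ} (hW : W.card = 7)
    (hst : ∀ g ∈ E, (∀ w ∈ W, g w = w) → g = 1)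
    (hF : Fam s W (Hs s)) {b : Equiv.Perm ℂ} (hbH : b ∈ Hs s) {a : ℂ} (ha : a ≠ 0)
    (hb : ∀ z, b z = z + a) : False := by
  have hzp := trans_zpow hb
  have hinv : ∀ z, b⁻¹ z = z - a := by
    intro z
    rw [Equiv.Perm.inv_eq_iff_eq, hb]; ring
  have hnf : ∀ z, b z ≠ z := by
    intro z h1
    rw [hb] at h1
    exact ha (by linear_combination h1)
  have hinf : ∀ z, b z ≠ z → ∀ n : ℤ, n ≠ 0 → (b ^ n) z ≠ z := by
    intro z _ n hn h1
    rw [hzp] at h1
    have h2 : (n : ℂ) * a = 0 := by linear_combination h1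
    rcases mul_eq_zero.mp h2 with h3 | h3
    · exact hn (by exact_mod_cast h3)
    · exact ha h3
  have hE_iff : ∀ g : Equiv.Perm ℂ, g * b = b * g ↔ ∀ z, g (z + a) = g z + a := by
    intro g
    constructor
    · intro h1 z
      rw [← hb, ← hb, ← Equiv.Perm.mul_apply, h1, Equiv.Perm.mul_apply]
    · intro h1
      apply Equiv.ext; intro z
      rw [Equiv.Perm.mul_apply, Equiv.Perm.mul_apply, hb, hb, h1]
  -- translations in the group are commensurable with `a`
  have hcomm : ∀ g ∈ Hs s, ∀ u, (∀ z, g z = z + u) → ∃ k l : ℤ, k ≠ 0 ∧ (k : ℂ) * u = l * a := by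
    intro g hg u hu
    exact two_trans hNP ha (fin_of_trans hbH hb) (fin_of_trans hg hu)
  have hdir : ∀ g ∈ Hs s, g * b = b * g → ∀ α β, Dir g α β → ∀ z, g z = z + β := by
    intro g hg hE α β hd z
    have h1 := (hE_iff g).mp hE 0
    rw [hd.2, hd.2] at h1
    have h2 : α = 1 := by
      apply mul_right_cancel₀ ha
      linear_combination h1
    rw [hd.2, h2, one_mul]
  have hopp : ∀ g ∈ Hs s, g * b = b * g → ∀ α β, Opp g α β → α * conj a = a := by
    intro g hg hE α β hd
    have h1 := (hE_iff g).mp hE 0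
    rw [hd.2, hd.2, map_add] at h1
    linear_combination h1
  -- `α conj u = u` for the translations `u`
  have hK : ∀ α u : ℂ, α * conj a = a → (∃ k l : ℤ, k ≠ 0 ∧ (k : ℂ) * u = l * a) →
      α * conj u = u := by
    rintro α u h1 ⟨k, l, hk, hkl⟩
    have hkC : (k : ℂ) ≠ 0 := by exact_mod_cast hk
    apply mul_left_cancel₀ hkC
    have h2 := congrArg conj hkl
    rw [map_mul, map_mul, map_intCast, map_intCast] at h2
    linear_combination α * h2 + l * h1 - hkl
  have htypes : ∀ g ∈ Hs s, g * b = b * g ∨ (g * b = b⁻¹ * g ∧ g * g = 1) := by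
    intro g hg
    rcases conj_trans hNP hbH ha hb hg with h1 | h1
    · left; exact (hE_iff g).mpr h1
    · right
      refine ⟨?_, ?_⟩
      · apply Equiv.ext; intro z
        rw [Equiv.Perm.mul_apply, Equiv.Perm.mul_apply, hb, hinv, h1]
      · rcases hg.1 with ⟨α, β, hd⟩ | ⟨α, β, ho⟩
        · have h2 := h1 0
          rw [hd.2, hd.2] at h2
          have h3 : α = -1 := by
            apply mul_right_cancel₀ ha
            linear_combination h2
          apply Equiv.ext; intro z
          rw [Equiv.Perm.mul_apply, hd.2, hd.2, h3, Equiv.Perm.one_apply]; ring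
        · obtain ⟨u, hu⟩ := opp_sq ⟨α, β, ho⟩
          have hαa : α * conj a = -a := by
            have h2 := h1 0
            rw [ho.2, ho.2, map_add] at h2
            linear_combination h2
          have hαu : α * conj u = u := by
            have h2 : g (g (g 0)) = g 0 + u := hu (g 0)
            rw [hu 0, zero_add, ho.2 u, ho.2 0, map_zero] at h2
            linear_combination h2
          obtain ⟨k, l, hk, hkl⟩ := hcomm (g * g) ((Hs s).mul_mem hg hg) u hu
          have hkC : (k : ℂ) ≠ 0 := by exact_mod_cast hk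
          have h2 := congrArg conj hkl
          rw [map_mul, map_mul, map_intCast, map_intCast] at h2
          have h3 : (2 * k : ℂ) * u = 0 := by
            linear_combination α * h2 + l * hαa + hkl - k * hαu
          have hu0 : u = 0 := by
            rcases mul_eq_zero.mp h3 with h4 | h4
            · exfalso
              rcases mul_eq_zero.mp h4 with h5 | h5
              · norm_num at h5
              · exact hkC h5
            · exact h4
          apply Equiv.ext; intro z
          rw [Equiv.Perm.mul_apply, hu, hu0, add_zero]; rfl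
  have hsq : ∀ g ∈ Hs s, g * b = b * g → ∃ u, ∀ z, (g * g) z = z + u := by
    intro g hg hE
    rcases hg.1 with ⟨α, β, hd⟩ | ho
    · refine ⟨2 * β, fun z => ?_⟩
      rw [Equiv.Perm.mul_apply, hdir g hg hE α β hd, hdir g hg hE α β hd]; ring
    · exact opp_sq ho
  have hcommE : ∀ g ∈ Hs s, ∀ g' ∈ Hs s, g * b = b * g → g' * b = b * g' → g * g' = g' * g := by
    have tr_opp : ∀ g ∈ Hs s, ∀ g' ∈ Hs s, g * b = b * g → g' * b = b * g' → IsDir g → IsOpp g' →
        g * g' = g' * g := by
      rintro g hg g' hg' hE hE' ⟨α, β, hd⟩ ⟨α', β', ho'⟩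
      have h1 := hdir g hg hE α β hd
      have h2 := hK α' β (hopp g' hg' hE' α' β' ho') (hcomm g hg β h1)
      apply Equiv.ext; intro z
      rw [Equiv.Perm.mul_apply, Equiv.Perm.mul_apply, h1, h1, ho'.2, ho'.2, map_add]
      linear_combination -h2
    intro g hg g' hg' hE hE'
    rcases hg.1 with hd | ho
    · rcases hg'.1 with hd' | ho'
      · obtain ⟨α, β, hd⟩ := hd
        obtain ⟨α', β', hd'⟩ := hd'
        have h1 := hdir g hg hE α β hd
        have h2 := hdir g' hg' hE' α' β' hd'
        apply Equiv.ext; intro z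
        rw [Equiv.Perm.mul_apply, Equiv.Perm.mul_apply, h1, h2, h1, h2]; ring
      · exact tr_opp g hg g' hg' hE hE' hd ho'
    · rcases hg'.1 with hd' | ho'
      · exact (tr_opp g' hg' g hg hE' hE hd' ho).symm
      · -- two glides
        have hm : g * g'⁻¹ ∈ Hs s := (Hs s).mul_mem hg ((Hs s).inv_mem hg')
        have hcb : Commute g b := hE
        have hcb' : Commute g' b := hE'
        have hE3 : (g * g'⁻¹) * b = b * (g * g'⁻¹) := (hcb.mul_left hcb'.inv_left).eq
        have hdd : IsDir (g * g'⁻¹) := by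
          obtain ⟨α, β, ho⟩ := ho
          obtain ⟨α', β', ho'⟩ := ho'
          exact ⟨_, _, ho.mul_opp ho'.inv⟩
        have h1 := tr_opp _ hm g' hg' hE3 hE' hdd ho'
        have h2 : g = (g * g'⁻¹) * g' := by group
        calc g * g' = (g * g'⁻¹) * g' * g' := by rw [← h2]
          _ = g' * (g * g'⁻¹) * g' := by rw [h1]
          _ = g' * g := by rw [mul_assoc, ← h2]
  have hsq1 : ∀ g ∈ Hs s, g * b = b * g → IsDir g → g * g = 1 → g = 1 := by
    rintro g hg hE ⟨α, β, hd⟩ h1
    have h2 := hdir g hg hE α β hd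
    have h3 : (g * g) 0 = 0 := by rw [h1]; rfl
    rw [Equiv.Perm.mul_apply, h2, h2] at h3
    have h4 : β = 0 := by linear_combination h3 / 2
    apply Equiv.ext; intro z
    rw [h2, h4, add_zero]; rfl
  have hends : Ends s b (Hs s) := by
    refine ⟨fun g hg => hg.2, hbH, hinf, htypes, hcommE, ?_, ?_⟩
    · intro g hg hE z _ m hm h1
      obtain ⟨u, hu⟩ := hsq g hg hE
      have h2 : (g ^ (2 * m)) z = z := by
        rw [two_mul, pow_add, Equiv.Perm.mul_apply, h1, h1]
      have h3 : g ^ (2 * m) = (g * g) ^ m := by rw [pow_mul, pow_two]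
      have h4 := trans_zpow hu (m : ℤ)
      rw [h3] at h2 ⊢
      have h5 := h4 z
      rw [zpow_natCast, h2] at h5
      have h6 : (m : ℂ) * u = 0 := by
        push_cast at h5
        linear_combination -h5
      have h7 : u = 0 := by
        rcases mul_eq_zero.mp h6 with h7 | h7
        · exfalso
          have : m = 0 := by exact_mod_cast h7
          omega
        · exact h7
      apply Equiv.ext; intro y
      have h8 := h4 y
      rw [zpow_natCast] at h8
      rw [h8, h7, mul_zero, add_zero]; rfl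
    · intro x y hx _
      exact absurd hx (hnf x)
  refine rect_case hends (fun g hg => hg.1) ?_ ?_ hnf hW hst hF
  · intro g hg g' hg' hE hE' h1 h1' hne hne'
    have hopp1 : IsOpp g := by
      rcases hg.1 with hd | ho
      · exact absurd (hsq1 g hg hE hd h1) hne
      · exact ho
    have hopp2 : IsOpp g' := by
      rcases hg'.1 with hd | ho
      · exact absurd (hsq1 g' hg' hE' hd h1') hne'
      · exact ho
    have hc := hcommE g hg g' hg' hE hE'
    have hcb : Commute g b := hE
    have hcb' : Commute g' b := hE'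
    have h2 := hsq1 (g * g') ((Hs s).mul_mem hg hg') (hcb.mul_left hcb').eq (by
      obtain ⟨α, β, ho⟩ := hopp1
      obtain ⟨α', β', ho'⟩ := hopp2
      exact ⟨_, _, ho.mul_opp ho'⟩) (by
        have : g * g' * (g * g') = (g * g) * (g' * g') := by
          rw [mul_assoc, ← mul_assoc g' g g', ← hc]; group
        rw [this, h1, h1', one_mul])
    exact mul_right_cancel (h2.trans h1'.symm)
  · intro g hg hE hne
    obtain ⟨u, hu⟩ := hsq g hg hE
    have hu0 : u ≠ 0 := by
      intro h0
      apply hne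
      apply Equiv.ext; intro z
      rw [hu, h0, add_zero]; rfl
    obtain ⟨k, l, hk, hkl⟩ := hcomm (g * g) ((Hs s).mul_mem hg hg) u hu
    have hl : l ≠ 0 := by
      rintro rfl
      rw [Int.cast_zero, zero_mul] at hkl
      rcases mul_eq_zero.mp hkl with h1 | h1
      · exact hk (by exact_mod_cast h1)
      · exact hu0 h1
    have key : ∀ k l : ℤ, 0 < k → l ≠ 0 → (k : ℂ) * u = l * a →
        ∃ m : ℕ, 0 < m ∧ ∃ l : ℤ, l ≠ 0 ∧ g ^ m = b ^ l := by
      intro k l hk hl hkl
      refine ⟨2 * k.toNat, by omega, l, hl, ?_⟩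
      apply Equiv.ext; intro z
      have h3 : g ^ (2 * k.toNat) = (g * g) ^ k.toNat := by rw [pow_mul, pow_two]
      have h4 := trans_zpow hu (k.toNat : ℤ) z
      rw [zpow_natCast] at h4
      rw [h3, h4, hzp]
      have h5 : ((k.toNat : ℤ) : ℂ) = k := by
        have : (k.toNat : ℤ) = k := by omega
        rw [this]
      rw [h5, hkl]
    rcases lt_or_gt_of_ne hk with h1 | h1
    · exact key (-k) (-l) (by omega) (by omega) (by push_cast; linear_combination -hkl)
    · exact key k l h1 hl hkl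

/-- **Seven free points suffice.** -/
theorem core (s : ℂ → ZMod 2) (W : Finset ℂ) (hW : W.card = 7)
    (hst : ∀ g ∈ E, (∀ w ∈ W, g w = w) → g = 1) :
    ∃ F ⊆ W, ∀ g ∈ E, (∀ z, s (g z) + ind F (g z) = s z + ind F z) → g = 1 := by
  by_contra hcon
  push Not at hcon
  have h : ∀ F ⊆ W, ∃ g ∈ E, g ≠ 1 ∧ ∀ z, s (g z) + ind F (g z) = s z + ind F z := by
    intro F hF
    obtain ⟨g, hg, h1, h2⟩ := hcon F hF
    exact ⟨g, hg, h2, h1⟩
  by_cases hNP : NearPer s
  · exact near_E2 hW hst hNP h
  have hF : Fam s W (Hs s) := by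
    intro F hF
    obtain ⟨g, hg, h1, h2⟩ := h F hF
    exact ⟨g, mem_Hs_of_inv hg h2, h1, h2⟩
  by_cases hA : ∃ g ∈ Hs s, ∃ α β, Dir g α β ∧ α ≠ 1 ∧ α ≠ -1
  · obtain ⟨g, hg, α, β, hd, hα1, hα2⟩ := hA
    obtain ⟨c, _, hform⟩ := dir_centre hd hα1
    have hc : ∀ g' ∈ Hs s, g' c = c := fun g' hg' =>
      common_centre hNP hg hd.1 hα1 hα2 hform hg'
    by_cases hinf : ∃ b ∈ Hs s, ∃ α β, Dir b α β ∧ ∀ n : ℕ, 0 < n → α ^ n ≠ 1
    · obtain ⟨b, hb, α', β', hd', hα'⟩ := hinf
      exact case_A1 hW hst hF hb hd' hα' hc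
    · push Not at hinf
      exact case_A2 hW hst h hc hinf
  · push Not at hA
    have hpm : ∀ g ∈ Hs s, ∀ α β, Dir g α β → α = 1 ∨ α = -1 := by
      intro g hg α β hd
      by_cases h1 : α = 1
      · exact Or.inl h1
      · exact Or.inr (hA g hg α β hd h1)
    by_cases ht : ∃ b ∈ Hs s, ∃ a : ℂ, a ≠ 0 ∧ ∀ z, b z = z + a
    · obtain ⟨b, hb, a, ha, hba⟩ := ht
      exact case_B2 hNP hW hst hF hb ha hba
    · push Not at ht
      apply case_B1 hW hst h
      apply H_finite hpm
      intro g hg β hd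
      by_contra hne
      by_cases hβ : β = 0
      · apply hne
        apply Equiv.ext; intro z
        rw [hd.2, hβ, one_mul, add_zero]; rfl
      · obtain ⟨z, hz⟩ := ht g hg β hβ
        exact hz (by rw [hd.2, one_mul])

end Pool.Agent.Q19.ExtQ
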