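import Mathlib
import Pool.Agent.Q19.ExtIso
import Pool.Agent.Q19.ExtQ

/-!
# The distinguishing extension number of the plane under all isometries (helper19)
-/

namespace Pool.Agent.Q19.ExtR

open ComplexConjugate Pool.Agent.Q19.Ext Pool.Agent.Q19.ExtE
open Pool.Agent.Q19.ExtC (ind)

/-- coordinates -/
noncomputable def L : ℂ ≃ₗᵢ[ℝ] EPlane := Complex.orthonormalBasisOneI.repr

/-- isometries of the complex plane -/
theorem mem_E_of_isometry {g : Equiv.Perm ℂ} (hg : ∀ x y, dist (g x) (g y) = dist x y) :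
    g ∈ E := by
  have hi : Isometry g := Isometry.of_dist_eq hg
  set f : ℂ ≃ᵢ ℂ := ⟨g, hi⟩ with hf
  obtain ⟨a, ha | ha⟩ := linear_isometry_complex f.toRealLinearIsometryEquiv
  · left
    refine ⟨a, g 0, Circle.norm_coe a, fun z => ?_⟩
    have h1 := f.toRealLinearIsometryEquiv_apply z
    rw [ha, rotation_apply] at h1
    have h2 : f z = g z := rfl
    have h3 : f 0 = g 0 := rfl
    rw [h2, h3] at h1
    linear_combination -h1
  · right
    refine ⟨a, g 0, Circle.norm_coe a, fun z => ?_⟩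
    have h1 := f.toRealLinearIsometryEquiv_apply z
    rw [ha, LinearIsometryEquiv.trans_apply, rotation_apply, Complex.conjLIE_apply] at h1
    have h2 : f z = g z := rfl
    have h3 : f 0 = g 0 := rfl
    rw [h2, h3] at h1
    linear_combination -h1

theorem isometry_of_mem_E {g : Equiv.Perm ℂ} (hg : g ∈ E) (x y : ℂ) :
    dist (g x) (g y) = dist x y := by
  rw [dist_eq_norm, dist_eq_norm]; exact iso_norm hg x y

/-- the group of all isometries of the plane -/
noncomputable abbrev E2 : Subgroup (Equiv.Perm EPlane) := isometryGroup EPlane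

theorem to_E (γ : E2) : ∃ g ∈ E, ∀ z, L.symm (γ • L z) = g z := by
  set g : Equiv.Perm ℂ := (L.toEquiv.trans (γ : Equiv.Perm EPlane)).trans L.toEquiv.symm with hg
  have h1 : ∀ z, L.symm (γ • L z) = g z := fun z => rfl
  refine ⟨g, mem_E_of_isometry ?_, h1⟩
  intro x y
  rw [← h1, ← h1, LinearIsometryEquiv.dist_map]
  have h2 : dist (γ • L x) (γ • L y) = dist (L x) (L y) := γ.2 _ _
  rw [h2, LinearIsometryEquiv.dist_map]

theorem of_E {g : Equiv.Perm ℂ} (hg : g ∈ E) : ∃ γ : E2, ∀ z, L.symm (γ • L z) = g z := by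
  set σ : Equiv.Perm EPlane := (L.toEquiv.symm.trans g).trans L.toEquiv with hσ
  have hσ1 : ∀ x, σ x = L (g (L.symm x)) := fun x => rfl
  have hmem : σ ∈ E2 := by
    intro x y
    rw [hσ1, hσ1, LinearIsometryEquiv.dist_map, isometry_of_mem_E hg,
      LinearIsometryEquiv.dist_map]
  refine ⟨⟨σ, hmem⟩, fun z => ?_⟩
  have h1 : (⟨σ, hmem⟩ : E2) • L z = σ (L z) := rfl
  rw [h1, hσ1]; simp

theorem eq_one_of {γ : E2} (h : ∀ z, L.symm (γ • L z) = z) : γ = 1 := by
  apply Subtype.ext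
  apply Equiv.ext
  intro x
  have h1 := h (L.symm x)
  rw [LinearIsometryEquiv.apply_symm_apply] at h1
  exact L.symm.injective h1

/-- the core theorem for plane colourings -/
theorem core_plane (s : EPlane → Fin 2) (W : Finset ℂ) (hW : W.card = 7)
    (hst : ∀ g ∈ E, (∀ w ∈ W, g w = w) → g = 1) :
    ∃ c' : EPlane → Fin 2, (∀ x, L.symm x ∉ W → c' x = s x) ∧ Distinguishing E2 c' := by
  obtain ⟨F, hF, h⟩ := ExtQ.core (fun z => ((s (L z) : Fin 2) : ZMod 2)) W hW hst
  refine ⟨fun x => ((s x + (if L.symm x ∈ F then 1 else 0) : Fin 2)), ?_, ?_⟩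
  · intro x hx
    have : L.symm x ∉ F := fun h => hx (hF h)
    simp [this]
  · intro γ hγ
    obtain ⟨g, hg, hform⟩ := to_E γ
    have key := h g hg (by
      intro z
      have h1 := hγ (L z)
      simp only at h1
      have h3 : γ • L z = L (g z) := by rw [← hform, LinearIsometryEquiv.apply_symm_apply]
      rw [h3, LinearIsometryEquiv.symm_apply_apply, LinearIsometryEquiv.symm_apply_apply] at h1
      unfold ind
      exact h1)
    apply eq_one_of
    intro z
    rw [hform, key]; rfl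

/-- the reflection fixing two points -/
theorem exists_refl {P Q : ℂ} (hPQ : P ≠ Q) : ∃ ρ ∈ E, ρ ≠ 1 ∧ ρ P = P ∧ ρ Q = Q := by
  have hne : conj (Q - P) ≠ 0 := fun h => hPQ (by
    have := (map_eq_zero _).mp h
    linear_combination -this)
  have hn : ‖(Q - P) / conj (Q - P)‖ = 1 := unit_div (sub_ne_zero.mpr hPQ.symm)
  set α : ℂ := (Q - P) / conj (Q - P) with hα
  have hαm : α * conj (Q - P) = Q - P := div_mul_cancel₀ _ hne
  have ho := mkOpp_opp α (P - α * conj P) hn
  refine ⟨mkOpp α (P - α * conj P) hn, Or.inr ⟨_, _, ho⟩, ?_, ?_, ?_⟩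
  · intro h1
    exact not_both ⟨1, 0, dir_one⟩ (h1 ▸ ⟨_, _, ho⟩)
  · rw [ho.2]; ring
  · rw [ho.2]
    rw [map_sub] at hαm
    linear_combination hαm

/-- a set with trivial stabilizer contains three points with trivial stabilizer -/
theorem three_points {W : Set EPlane} (hW : ∃ x ∈ W, ∃ y ∈ W, x ≠ y)
    (hst : TrivialStabilizer E2 W) :
    ∃ x ∈ W, ∃ y ∈ W, ∃ z ∈ W,
      ∀ g ∈ E, g (L.symm x) = L.symm x → g (L.symm y) = L.symm y → g (L.symm z) = L.symm z →
        g = 1 := by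
  obtain ⟨x, hx, y, hy, hxy⟩ := hW
  have hPQ : L.symm x ≠ L.symm y := fun h => hxy (L.symm.injective h)
  obtain ⟨ρ, hρ, hρ1, hρx, hρy⟩ := exists_refl hPQ
  obtain ⟨γ, hγ⟩ := of_E hρ
  obtain ⟨z, hz, hne⟩ : ∃ z ∈ W, ρ (L.symm z) ≠ L.symm z := by
    by_contra hcon
    push Not at hcon
    have h1 := hst γ (by
      intro z hz
      have h2 := hγ (L.symm z)
      rw [hcon z hz, LinearIsometryEquiv.apply_symm_apply] at h2
      exact L.symm.injective h2)
    apply hρ1
    apply Equiv.ext; intro z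
    rw [← hγ, h1, one_smul]; simp
  refine ⟨x, hx, y, hy, z, hz, ?_⟩
  intro g hg h1 h2 h3
  by_contra hg1
  have := fix2_eq hg hρ hg1 hρ1 hPQ h1 h2 hρx hρy
  rw [this] at h3
  exact hne h3

theorem seven_core (c : EPlane → Fin 2) (W : Set EPlane) (hW : ((7 : ℕ) : ℕ∞) ≤ W.encard)
    (hst : TrivialStabilizer E2 W) :
    ∃ c' : EPlane → Fin 2, (∀ x, x ∉ W → c' x = c x) ∧ Distinguishing E2 c' := by
  classical
  obtain ⟨x, hx, y, hy, z, hz, hxyz⟩ := three_points (by
    have h1 : 1 < W.encard := lt_of_lt_of_le (by norm_num) hW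
    obtain ⟨x, y, hx, hy, hxy⟩ := Set.one_lt_encard_iff.mp h1
    exact ⟨x, hx, y, hy, hxy⟩) hst
  have hsub : ({x, y, z} : Set EPlane) ⊆ W := by
    rintro v (rfl | rfl | rfl) <;> assumption
  have hle : ({x, y, z} : Set EPlane).encard ≤ ((7 : ℕ) : ℕ∞) := by
    have h0 : ({y, z} : Set EPlane).encard ≤ 2 := by
      refine (Set.encard_insert_le _ _).trans ?_
      rw [Set.encard_singleton]; norm_num
    have h1 : ({x, y, z} : Set EPlane).encard ≤ 3 := by
      refine (Set.encard_insert_le _ _).trans ?_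
      calc ({y, z} : Set EPlane).encard + 1 ≤ 2 + 1 := by gcongr
        _ = 3 := by norm_num
    exact h1.trans (by norm_num)
  obtain ⟨T, hxT, hTW, hT⟩ := Set.exists_superset_subset_encard_eq hsub hle hW
  have hTfin : T.Finite := Set.finite_of_encard_eq_coe hT
  have hcard : (hTfin.toFinset.image L.symm).card = 7 := by
    rw [Finset.card_image_of_injective _ L.symm.injective]
    have := hTfin.encard_eq_coe_toFinset_card
    rw [hT] at this
    exact_mod_cast this.symm
  have hmemT : ∀ v ∈ ({x, y, z} : Set EPlane), L.symm v ∈ hTfin.toFinset.image L.symm := by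
    intro v hv
    exact Finset.mem_image_of_mem _ ((Set.Finite.mem_toFinset hTfin).mpr (hxT hv))
  obtain ⟨c', h1, h2⟩ := core_plane c _ hcard (by
    intro g hg hfix
    exact hxyz g hg (hfix _ (hmemT x (by simp))) (hfix _ (hmemT y (by simp)))
      (hfix _ (hmemT z (by simp))))
  refine ⟨c', ?_, h2⟩
  intro v hv
  apply h1
  intro hmem
  obtain ⟨u, hu, huv⟩ := Finset.mem_image.mp hmem
  rw [L.symm.injective huv] at hu
  exact hv (hTW ((Set.Finite.mem_toFinset hTfin).mp hu))

theorem exists_fin2_dist : ∃ c : EPlane → Fin 2, Distinguishing E2 c := by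
  obtain ⟨c', _, h⟩ := core_plane (fun _ => 0) {0, 1, 2, 3, 4, 5, Complex.I} (by
    rw [Finset.card_insert_of_notMem, Finset.card_insert_of_notMem,
      Finset.card_insert_of_notMem, Finset.card_insert_of_notMem,
      Finset.card_insert_of_notMem, Finset.card_insert_of_notMem, Finset.card_singleton] <;>
    · simp [Complex.ext_iff]) (by
    intro g hg hfix
    have h0 := hfix 0 (by simp)
    have h1 := hfix 1 (by simp)
    have hI := hfix Complex.I (by simp)
    by_contra hne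
    obtain ⟨α, β, ho⟩ := opp_of_fix2 hg hne zero_ne_one h0 h1
    rw [ho.2] at h0 h1 hI
    simp only [map_zero, mul_zero, zero_add, map_one, mul_one, Complex.conj_I] at h0 h1 hI
    have h2 : (2 : ℂ) * Complex.I = 0 := by linear_combination -hI - Complex.I * h1 + (1 + Complex.I) * h0
    simp at h2)
  exact ⟨c', h⟩

theorem distNum_E2 : distNum E2 EPlane = 2 := by
  apply le_antisymm
  · exact Nat.sInf_le exists_fin2_dist
  · apply le_csInf ⟨2, exists_fin2_dist⟩
    rintro k ⟨c, hc⟩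
    by_contra hk
    have hk : k = 0 ∨ k = 1 := by omega
    rcases hk with rfl | rfl
    · exact (c 0).elim0
    · have hn : ‖(1 : ℂ)‖ = 1 := by simp
      obtain ⟨γ, hγ⟩ := of_E (g := mkDir 1 1 hn) (Or.inl ⟨_, _, mkDir_dir 1 1 hn⟩)
      have := hc γ (fun x => Subsingleton.elim _ _)
      have h0 := hγ 0
      rw [this, one_smul, (mkDir_dir 1 1 hn).2] at h0
      simp at h0

theorem precol_iff (W : Set EPlane) : PrecolouringExtension E2 W ↔
    ∀ c : {x : EPlane // x ∉ W} → Fin 2,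
      ∃ c' : EPlane → Fin 2, (∀ x : {x : EPlane // x ∉ W}, c' x = c x) ∧
        Distinguishing E2 c' := by
  unfold PrecolouringExtension
  rw [distNum_E2]

theorem seven_works (W : Set EPlane) (hW : ((7 : ℕ) : ℕ∞) ≤ W.encard)
    (hst : TrivialStabilizer E2 W) : PrecolouringExtension E2 W := by
  classical
  rw [precol_iff]
  intro c
  obtain ⟨c', h1, h2⟩ := seven_core (fun x => if h : x ∉ W then c ⟨x, h⟩ else 0) W hW hst
  refine ⟨c', ?_, h2⟩
  rintro ⟨x, hx⟩
  rw [h1 x hx]
  exact dif_pos hx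

/-! ### Six points do not suffice -/

/-- a primitive fifth root of unity -/
noncomputable def ζ : ℂ := Complex.exp (2 * Real.pi * Complex.I / (5 : ℕ))

theorem hζ : IsPrimitiveRoot ζ 5 := Complex.isPrimitiveRoot_exp 5 (by norm_num)

theorem ζ_norm : ‖ζ‖ = 1 := hζ.norm'_eq_one (by norm_num)

theorem sub_pow (m j : Fin 5) : ζ ^ (m : ℕ) * conj (ζ ^ (j : ℕ)) = ζ ^ ((m - j : Fin 5) : ℕ) := by
  have h1 : ∀ m j : Fin 5, ((m - j : Fin 5) : ℕ) + j = m ∨ ((m - j : Fin 5) : ℕ) + j = m + 5 := by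
    decide
  have h2 : ζ ^ ((m - j : Fin 5) : ℕ) * ζ ^ (j : ℕ) = ζ ^ (m : ℕ) := by
    rw [← pow_add]
    rcases h1 m j with h | h
    · rw [h]
    · rw [h, pow_add, hζ.pow_eq_one, mul_one]
  have h3 : ζ ^ (j : ℕ) * conj (ζ ^ (j : ℕ)) = 1 := mc (by rw [norm_pow, ζ_norm, one_pow])
  rw [← h2]
  linear_combination (ζ ^ ((m - j : Fin 5) : ℕ)) * h3

/-- the six points -/
def six : Set ℂ := insert 0 (Set.range (fun j : Fin 5 => ζ ^ (j : ℕ)))

theorem pow_injective : Function.Injective (fun j : Fin 5 => ζ ^ (j : ℕ)) := by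
  intro i j hij
  exact Fin.ext (hζ.pow_inj i.2 j.2 hij)

theorem six_encard : (L '' six).encard = 6 := by
  rw [L.injective.encard_image]
  unfold six
  rw [Set.encard_insert_of_notMem]
  · rw [← Set.image_univ, pow_injective.encard_image, Set.encard_univ]
    simp; norm_num
  · rintro ⟨j, hj⟩
    exact pow_ne_zero _ (ne0 ζ_norm) hj

theorem symmetric_subset : ∀ A : Fin 5 → Bool, ∃ m : Fin 5, ∀ j, A (m - j) = A j := by decide

theorem six_stab : TrivialStabilizer E2 (L '' six) := by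
  intro γ hγ
  obtain ⟨g, hg, hform⟩ := to_E γ
  have hfix : ∀ z ∈ six, g z = z := by
    intro z hz
    rw [← hform, hγ _ ⟨z, hz, rfl⟩]; simp
  have h0 := hfix 0 (Or.inl rfl)
  have h1 := hfix 1 (Or.inr ⟨0, by simp⟩)
  have h2 := hfix ζ (Or.inr ⟨1, by simp⟩)
  have hg1 : g = 1 := by
    by_contra hne
    obtain ⟨α, β, ho⟩ := opp_of_fix2 hg hne zero_ne_one h0 h1
    rw [ho.2] at h0 h1 h2
    simp only [map_zero, mul_zero, zero_add, map_one, mul_one] at h0 h1 h2
    rw [h0, add_zero] at h1 h2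
    rw [h1, one_mul] at h2
    have h3 := mc ζ_norm
    rw [h2, ← pow_two] at h3
    have := hζ.pow_ne_one_of_pos_of_lt (l := 2) (by norm_num) (by norm_num)
    exact this h3
  apply eq_one_of
  intro z
  rw [hform, hg1]; rfl

theorem six_fails : ¬ PrecolouringExtension E2 (L '' six) := by
  classical
  rw [precol_iff]
  intro h
  obtain ⟨c', hc', hdist⟩ := h (fun _ => 0)
  have hout : ∀ z, z ∉ six → c' (L z) = 0 := by
    intro z hz
    exact hc' ⟨L z, fun ⟨w, hw, hwz⟩ => hz (L.injective hwz ▸ hw)⟩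
  obtain ⟨m, hm⟩ := symmetric_subset (fun j => decide (c' (L (ζ ^ (j : ℕ))) = 1))
  have hm' : ∀ j : Fin 5, c' (L (ζ ^ ((m - j : Fin 5) : ℕ))) = c' (L (ζ ^ (j : ℕ))) := by
    intro j
    have h1 := hm j
    simp only [decide_eq_decide] at h1
    have f2 : ∀ a b : Fin 2, (a = 1 ↔ b = 1) → a = b := by decide
    exact f2 _ _ h1
  have hn : ‖ζ ^ (m : ℕ)‖ = 1 := by rw [norm_pow, ζ_norm, one_pow]
  have ho := mkOpp_opp (ζ ^ (m : ℕ)) 0 hn
  set g := mkOpp (ζ ^ (m : ℕ)) 0 hn
  have hg : ∀ z, g z = ζ ^ (m : ℕ) * conj z := by intro z; rw [ho.2, add_zero]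
  have hg0 : g 0 = 0 := by rw [hg]; simp
  have hinv := opp_invol ⟨_, _, ho⟩ hg0
  obtain ⟨γ, hγ⟩ := of_E (Or.inr ⟨_, _, ho⟩ : g ∈ E)
  have hgsix : ∀ z ∈ six, g z ∈ six ∧ c' (L (g z)) = c' (L z) := by
    rintro z (rfl | ⟨j, rfl⟩)
    · rw [hg0]; exact ⟨Or.inl rfl, rfl⟩
    · simp only [hg, sub_pow]
      exact ⟨Or.inr ⟨m - j, rfl⟩, hm' j⟩
  have hγ1 := hdist γ (by
    intro x
    have e : γ • x = L (g (L.symm x)) := by
      rw [← hγ]; simp
    rw [e]
    by_cases hx : L.symm x ∈ six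
    · rw [(hgsix _ hx).2]; simp
    · have h1 : g (L.symm x) ∉ six := by
        intro h2
        apply hx
        have := (hgsix _ h2).1
        rwa [hinv] at this
      rw [hout _ h1, ← LinearIsometryEquiv.apply_symm_apply L x, hout _ (by simpa using hx)])
  have hg1 : g = 1 := by
    apply Equiv.ext; intro z
    rw [← hγ, hγ1, one_smul]; simp
  exact not_both ⟨1, 0, dir_one⟩ (hg1 ▸ ⟨_, _, ho⟩)

theorem extNum_E2 : extNum E2 EPlane = 7 := by
  unfold extNum
  apply le_antisymm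
  · apply sInf_le
    exact ⟨7, rfl, fun W hW hst => seven_works W hW hst⟩
  · apply le_sInf
    rintro e ⟨n, rfl, hn⟩
    by_contra hlt
    push Not at hlt
    have hn6 : (n : ℕ∞) ≤ 6 := by
      have : n < 7 := by exact_mod_cast hlt
      have : n ≤ 6 := by omega
      exact_mod_cast this
    exact six_fails (hn _ (by rw [six_encard]; exact hn6) six_stab)

end Pool.Agent.Q19.ExtR
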