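import Mathlib

/-!
# Second smallest eigenvalue of a real symmetric matrix from approximate data

`A` is a real symmetric matrix with a null vector `u`; `w` is an approximate eigenvector orthogonal
to `u`, with Rayleigh quotient `ρ` and residual at most `ε`, and the form of `A` is at least `t`
on the orthogonal complement of `u, w`.  Then the eigenvalues are `0 = λ₁ < λ₂ ≤ ρ < t ≤ λ₃` and
eigenvectors for eigenvalues in `(0, ρ]` are close to multiples of `w`.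
-/

set_option autoImplicit false

namespace Q19.Fied

open Matrix Finset

variable {ι : Type} [Fintype ι] [DecidableEq ι] {A : Matrix ι ι ℝ} (hA : A.IsHermitian)

include hA

/-- orthonormal eigenvectors for the values of `eigenvalues₀` -/
theorem exists_basis : ∃ b : Fin (Fintype.card ι) → ι → ℝ,
    (∀ i, A *ᵥ b i = hA.eigenvalues₀ i • b i) ∧
    (∀ i j, b i ⬝ᵥ b j = if i = j then 1 else 0) ∧
    (∀ x : ι → ℝ, x = ∑ i, (b i ⬝ᵥ x) • b i) := by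
  classical
  let e : Fin (Fintype.card ι) ≃ ι := Fintype.equivOfCardEq (Fintype.card_fin _)
  let B := hA.eigenvectorBasis
  have hinner : ∀ x y : EuclideanSpace ℝ ι, inner ℝ x y = (x : ι → ℝ) ⬝ᵥ (y : ι → ℝ) := by
    intro x y
    rw [EuclideanSpace.inner_eq_star_dotProduct, dotProduct_comm]
    simp
  refine ⟨fun i => B (e i), fun i => ?_, fun i j => ?_, fun x => ?_⟩
  · have h := hA.mulVec_eigenvectorBasis (e i)
    have h2 : hA.eigenvalues (e i) = hA.eigenvalues₀ i := by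
      unfold Matrix.IsHermitian.eigenvalues
      simp [e]
    rw [h2] at h
    exact h
  · have h := orthonormal_iff_ite.1 B.orthonormal (e i) (e j)
    rw [hinner] at h
    simpa using h
  · have h := B.sum_repr' (WithLp.toLp 2 x)
    have h2 := congrArg (fun v : EuclideanSpace ℝ ι => (v : ι → ℝ)) h
    simp only [hinner] at h2
    have h3 : (∑ i, ((B i : ι → ℝ) ⬝ᵥ x) • (B i : ι → ℝ)) = x := by
      conv_rhs => rw [← h2]
      ext k
      simp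
    rw [← Equiv.sum_comp e] at h3
    exact h3.symm

omit [DecidableEq ι] in
/-- symmetry of the form -/
theorem form_symm (x y : ι → ℝ) : (A *ᵥ x) ⬝ᵥ y = x ⬝ᵥ (A *ᵥ y) := by
  rw [dotProduct_mulVec, ← mulVec_transpose]
  have : Aᵀ = A := by
    have := hA.eq
    rwa [conjTranspose_eq_transpose_of_trivial] at this
  rw [this]

omit [DecidableEq ι] in
/-- eigenvectors for different eigenvalues are orthogonal -/
theorem orth {x y : ι → ℝ} {a b : ℝ} (hx : A *ᵥ x = a • x) (hy : A *ᵥ y = b • y) (hab : a ≠ b) :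
    x ⬝ᵥ y = 0 := by
  have h := form_symm hA x y
  rw [hx, hy, smul_dotProduct, dotProduct_smul, smul_eq_mul, smul_eq_mul] at h
  have : (a - b) * (x ⬝ᵥ y) = 0 := by linarith
  rcases mul_eq_zero.1 this with h1 | h1
  · exact absurd (sub_eq_zero.1 h1) hab
  · exact h1

omit hA [DecidableEq ι] in
lemma dot_self_pos {z : ι → ℝ} (hz : z ≠ 0) : 0 < z ⬝ᵥ z := by
  rcases lt_or_eq_of_le (show 0 ≤ z ⬝ᵥ z by
    rw [dotProduct]; exact Finset.sum_nonneg fun i _ => mul_self_nonneg _) with h | h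
  · exact h
  · exact absurd (dotProduct_self_eq_zero.1 h.symm) hz

omit hA [DecidableEq ι] in
lemma cs (x y : ι → ℝ) : (x ⬝ᵥ y) ^ 2 ≤ (x ⬝ᵥ x) * (y ⬝ᵥ y) := by
  have := Finset.sum_mul_sq_le_sq_mul_sq Finset.univ x y
  simpa [dotProduct, sq] using this

/-- **Min-max, one half**: a form which is at least `t` on the orthogonal complement of two vectors
has third smallest eigenvalue at least `t` -/
theorem third_ge (n : ℕ) (hn : Fintype.card ι = n + 3) (u w : ι → ℝ) (t : ℝ)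
    (h : ∀ z : ι → ℝ, u ⬝ᵥ z = 0 → w ⬝ᵥ z = 0 → t * (z ⬝ᵥ z) ≤ z ⬝ᵥ (A *ᵥ z)) :
    t ≤ hA.eigenvalues₀ ⟨n, by omega⟩ := by
  obtain ⟨b, hb1, hb2, hb3⟩ := exists_basis hA
  by_contra hcon
  push Not at hcon
  -- three eigenvectors with small eigenvalue
  let g : Fin 3 → Fin (Fintype.card ι) := fun k => ⟨n + k.1, by omega⟩
  have hg : Function.Injective g := by
    intro k l hkl
    have := congrArg Fin.val hkl
    simp only [g] at this
    exact Fin.ext (by omega)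
  have hlt : ∀ k, hA.eigenvalues₀ (g k) < t := fun k =>
    lt_of_le_of_lt (hA.eigenvalues₀_antitone (by rw [Fin.le_def]; simp [g])) hcon
  obtain ⟨c, hc0, hc⟩ : ∃ c : Fin 3 → ℝ, c ≠ 0 ∧
      (Matrix.of ![fun k => u ⬝ᵥ b (g k), fun k => w ⬝ᵥ b (g k)]) *ᵥ c = 0 := by
    let f := Matrix.mulVecLin
      (Matrix.of ![fun k : Fin 3 => u ⬝ᵥ b (g k), fun k => w ⬝ᵥ b (g k)] :
        Matrix (Fin 2) (Fin 3) ℝ)
    have hk : LinearMap.ker f ≠ ⊥ := by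
      apply LinearMap.ker_ne_bot_of_finrank_lt
      simp
    obtain ⟨c, hc1, hc2⟩ := Submodule.exists_mem_ne_zero_of_ne_bot hk
    exact ⟨c, hc2, hc1⟩
  have hc1 : ∑ k, (u ⬝ᵥ b (g k)) * c k = 0 := by
    have := congrFun hc 0
    simpa [Matrix.mulVec, dotProduct, Fin.sum_univ_three] using this
  have hc2 : ∑ k, (w ⬝ᵥ b (g k)) * c k = 0 := by
    have := congrFun hc 1
    simpa [Matrix.mulVec, dotProduct, Fin.sum_univ_three] using this
  set z : ι → ℝ := ∑ k, c k • b (g k) with hz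
  have hz1 : u ⬝ᵥ z = 0 := by
    rw [hz, dotProduct_sum, ← hc1]
    exact Finset.sum_congr rfl fun k _ => by rw [dotProduct_smul, smul_eq_mul, mul_comm]
  have hz2 : w ⬝ᵥ z = 0 := by
    rw [hz, dotProduct_sum, ← hc2]
    exact Finset.sum_congr rfl fun k _ => by rw [dotProduct_smul, smul_eq_mul, mul_comm]
  have hdot : ∀ d : Fin 3 → ℝ, z ⬝ᵥ (∑ k, d k • b (g k)) = ∑ k, c k * d k := by
    intro d
    rw [hz, sum_dotProduct]
    refine Finset.sum_congr rfl fun k _ => ?_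
    rw [dotProduct_sum, Finset.sum_eq_single k]
    · rw [smul_dotProduct, dotProduct_smul, hb2, if_pos rfl]; simp
    · intro l _ hl
      rw [smul_dotProduct, dotProduct_smul, hb2, if_neg (fun h => hl (hg h).symm)]; simp
    · intro h; exact absurd (Finset.mem_univ _) h
  have hz3 : z ⬝ᵥ z = ∑ k, c k * c k := by
    conv_lhs => rw [hz]
    rw [← hz]
    exact hdot c
  have hAz : A *ᵥ z = ∑ k, (c k * hA.eigenvalues₀ (g k)) • b (g k) := by
    rw [hz, Matrix.mulVec_sum]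
    refine Finset.sum_congr rfl fun k _ => ?_
    rw [mulVec_smul, hb1, smul_smul]
  have hz4 : z ⬝ᵥ (A *ᵥ z) = ∑ k, c k * (c k * hA.eigenvalues₀ (g k)) := by
    rw [hAz, hdot]
  have h1 := h z hz1 hz2
  rw [hz3, hz4, Finset.mul_sum] at h1
  have h2 : ∑ k, c k * (c k * hA.eigenvalues₀ (g k)) < ∑ k, t * (c k * c k) := by
    apply Finset.sum_lt_sum
    · intro k _
      nlinarith [mul_self_nonneg (c k), hlt k]
    · obtain ⟨k, hk⟩ := Function.ne_iff.1 hc0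
      refine ⟨k, Finset.mem_univ _, ?_⟩
      have : 0 < c k * c k := mul_self_pos.2 hk
      nlinarith [hlt k]
  linarith

/-- if the form is positive on the nonzero vectors orthogonal to the null vector `u ≠ 0`, then the
smallest eigenvalue is `0` and the second smallest is positive -/
theorem first_zero (n : ℕ) (hn : Fintype.card ι = n + 2) (u : ι → ℝ) (hu : u ≠ 0)
    (hAu : A *ᵥ u = 0) (h : ∀ z : ι → ℝ, z ≠ 0 → u ⬝ᵥ z = 0 → 0 < z ⬝ᵥ (A *ᵥ z)) :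
    hA.eigenvalues₀ ⟨n + 1, by omega⟩ = 0 ∧ 0 < hA.eigenvalues₀ ⟨n, by omega⟩ := by
  obtain ⟨b, hb1, hb2, hb3⟩ := exists_basis hA
  have hb0 : ∀ i, b i ≠ 0 := by
    intro i h0
    have := hb2 i i
    rw [h0] at this
    simp at this
  have hAu' : A *ᵥ u = (0 : ℝ) • u := by rw [hAu, zero_smul]
  have huu := dot_self_pos hu
  -- nonzero eigenvalues are positive
  have hpos : ∀ i, hA.eigenvalues₀ i ≠ 0 → 0 < hA.eigenvalues₀ i := by
    intro i hi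
    have h1 := orth hA hAu' (hb1 i) (Ne.symm hi)
    have h2 := h (b i) (hb0 i) h1
    rw [hb1, dotProduct_smul, hb2, if_pos rfl] at h2
    simpa using h2
  have hnn : ∀ i, 0 ≤ hA.eigenvalues₀ i := by
    intro i
    by_cases hi : hA.eigenvalues₀ i = 0
    · exact hi.ge
    · exact (hpos i hi).le
  -- vectors for eigenvalue zero are multiples of `u`
  have hker : ∀ z : ι → ℝ, A *ᵥ z = 0 → z = ((u ⬝ᵥ z) / (u ⬝ᵥ u)) • u := by
    intro z hz
    by_contra hne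
    have h1 : z - ((u ⬝ᵥ z) / (u ⬝ᵥ u)) • u ≠ 0 := fun h0 => hne (sub_eq_zero.1 h0)
    have h2 := h _ h1 (by
      rw [dotProduct_sub, dotProduct_smul, smul_eq_mul, div_mul_cancel₀ _ huu.ne', sub_self])
    rw [mulVec_sub, mulVec_smul, hz, hAu] at h2
    simp at h2
  obtain ⟨i, hi⟩ : ∃ i, hA.eigenvalues₀ i = 0 := by
    by_contra hcon
    push Not at hcon
    apply hu
    rw [hb3 u]
    apply Finset.sum_eq_zero
    intro i _
    rw [orth hA (hb1 i) hAu' (hcon i), zero_smul]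
  have hlast : hA.eigenvalues₀ ⟨n + 1, by omega⟩ = 0 := by
    apply le_antisymm _ (hnn _)
    rw [← hi]
    exact hA.eigenvalues₀_antitone (by rw [Fin.le_def]; show i.1 ≤ n + 1; omega)
  refine ⟨hlast, ?_⟩
  rcases lt_or_eq_of_le (hnn ⟨n, by omega⟩) with h0 | h0
  · exact h0
  · exfalso
    have e1 := hker (b ⟨n, by omega⟩) (by rw [hb1, ← h0, zero_smul])
    have e2 := hker (b ⟨n + 1, by omega⟩) (by rw [hb1, hlast, zero_smul])
    have e3 := hb2 ⟨n, by omega⟩ ⟨n + 1, by omega⟩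
    rw [if_neg (by simp)] at e3
    have e4 := hb2 ⟨n, by omega⟩ ⟨n, by omega⟩
    have e5 := hb2 ⟨n + 1, by omega⟩ ⟨n + 1, by omega⟩
    rw [if_pos rfl] at e4 e5
    set p := (u ⬝ᵥ b ⟨n, by omega⟩) / (u ⬝ᵥ u)
    set q := (u ⬝ᵥ b ⟨n + 1, by omega⟩) / (u ⬝ᵥ u)
    rw [e1, e2] at e3
    rw [e1] at e4
    rw [e2] at e5
    simp only [smul_dotProduct, dotProduct_smul, smul_eq_mul] at e3 e4 e5
    have hp : p ≠ 0 := by intro h; rw [h] at e4; simp at e4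
    have hq : q ≠ 0 := by intro h; rw [h] at e5; simp at e5
    have := mul_ne_zero hp (mul_ne_zero hq huu.ne')
    exact this (by linarith)

/-- second smallest eigenvalue at most a Rayleigh quotient orthogonal to the null vector -/
theorem second_le (n : ℕ) (hn : Fintype.card ι = n + 2) (u w : ι → ℝ) (hu : u ≠ 0)
    (hAu : A *ᵥ u = 0) (h : ∀ z : ι → ℝ, z ≠ 0 → u ⬝ᵥ z = 0 → 0 < z ⬝ᵥ (A *ᵥ z))
    (huw : u ⬝ᵥ w = 0) :
    hA.eigenvalues₀ ⟨n, by omega⟩ * (w ⬝ᵥ w) ≤ w ⬝ᵥ (A *ᵥ w) := by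
  obtain ⟨hz, hp⟩ := first_zero hA n hn u hu hAu h
  obtain ⟨b, hb1, hb2, hb3⟩ := exists_basis hA
  have hAu' : A *ᵥ u = (0 : ℝ) • u := by rw [hAu, zero_smul]
  have huu := dot_self_pos hu
  -- the coefficient at the last vector vanishes
  have hker : ∀ z : ι → ℝ, A *ᵥ z = 0 → z = ((u ⬝ᵥ z) / (u ⬝ᵥ u)) • u := by
    intro z hz
    by_contra hne
    have h1 : z - ((u ⬝ᵥ z) / (u ⬝ᵥ u)) • u ≠ 0 := fun h0 => hne (sub_eq_zero.1 h0)
    have h2 := h _ h1 (by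
      rw [dotProduct_sub, dotProduct_smul, smul_eq_mul, div_mul_cancel₀ _ huu.ne', sub_self])
    rw [mulVec_sub, mulVec_smul, hz, hAu] at h2
    simp at h2
  have hlast : b ⟨n + 1, by omega⟩ ⬝ᵥ w = 0 := by
    rw [hker (b ⟨n + 1, by omega⟩) (by rw [hb1, hz, zero_smul]), smul_dotProduct, huw, smul_zero]
  have hww : w ⬝ᵥ w = ∑ i, (b i ⬝ᵥ w) * (b i ⬝ᵥ w) := by
    conv_lhs => arg 1; rw [hb3 w]
    rw [sum_dotProduct]
    exact Finset.sum_congr rfl fun i _ => by rw [smul_dotProduct, smul_eq_mul]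
  have hwA : w ⬝ᵥ (A *ᵥ w) = ∑ i, hA.eigenvalues₀ i * ((b i ⬝ᵥ w) * (b i ⬝ᵥ w)) := by
    conv_lhs => arg 1; rw [hb3 w]
    rw [sum_dotProduct]
    refine Finset.sum_congr rfl fun i _ => ?_
    rw [smul_dotProduct, ← form_symm hA, hb1, smul_dotProduct, smul_eq_mul, smul_eq_mul]
    ring
  rw [hww, hwA, Finset.mul_sum]
  apply Finset.sum_le_sum
  intro i _
  by_cases hi : i = ⟨n + 1, by omega⟩
  · rw [hi, hlast]; simp
  · have : hA.eigenvalues₀ ⟨n, by omega⟩ ≤ hA.eigenvalues₀ i := by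
      apply hA.eigenvalues₀_antitone
      rw [Fin.le_def]
      have : i.1 ≠ n + 1 := fun h => hi (Fin.ext h)
      show i.1 ≤ n
      omega
    exact mul_le_mul_of_nonneg_right this (mul_self_nonneg _)

omit [DecidableEq ι] in
/-- positivity on the complement of the null vector from the approximate data -/
theorem pos_of (u w : ι → ℝ) (t ρ ε : ℝ) (huw : u ⬝ᵥ w = 0)
    (hgap : ∀ z : ι → ℝ, u ⬝ᵥ z = 0 → w ⬝ᵥ z = 0 → t * (z ⬝ᵥ z) ≤ z ⬝ᵥ (A *ᵥ z))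
    (hρ : w ⬝ᵥ (A *ᵥ w) = ρ * (w ⬝ᵥ w)) (hw0 : w ≠ 0) (hρ0 : 0 < ρ)
    (hρt : ρ < t)
    (hr : (A *ᵥ w - ρ • w) ⬝ᵥ (A *ᵥ w - ρ • w) ≤ ε ^ 2)
    (hε : ε ^ 2 < ρ * t * (w ⬝ᵥ w)) :
    ∀ z : ι → ℝ, z ≠ 0 → u ⬝ᵥ z = 0 → 0 < z ⬝ᵥ (A *ᵥ z) := by
  intro z hz0 hz
  have hN := dot_self_pos hw0
  set N := w ⬝ᵥ w with hNdef
  set α := (w ⬝ᵥ z) / N with hα
  set y := z - α • w with hy
  have hyw : w ⬝ᵥ y = 0 := by
    rw [hy, dotProduct_sub, dotProduct_smul, ← hNdef, smul_eq_mul, hα, div_mul_cancel₀ _ hN.ne',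
      sub_self]
  have hyu : u ⬝ᵥ y = 0 := by
    rw [hy, dotProduct_sub, dotProduct_smul, huw, hz]; simp
  have hzy : z = α • w + y := by rw [hy]; abel
  have h1 := hgap y hyu hyw
  have h2 : y ⬝ᵥ (A *ᵥ w) = y ⬝ᵥ (A *ᵥ w - ρ • w) := by
    rw [dotProduct_sub, dotProduct_smul, dotProduct_comm y w, hyw]; simp
  have h3 := cs y (A *ᵥ w - ρ • w)
  rw [← h2] at h3
  have hyy : 0 ≤ y ⬝ᵥ y := by rw [dotProduct]; exact Finset.sum_nonneg fun i _ => mul_self_nonneg _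
  have h4 : (y ⬝ᵥ (A *ᵥ w)) ^ 2 ≤ (y ⬝ᵥ y) * ε ^ 2 :=
    h3.trans (mul_le_mul_of_nonneg_left hr hyy)
  have h5 : z ⬝ᵥ (A *ᵥ z) = α ^ 2 * (ρ * N) + 2 * α * (y ⬝ᵥ (A *ᵥ w)) + y ⬝ᵥ (A *ᵥ y) := by
    rw [hzy, mulVec_add, mulVec_smul]
    simp only [dotProduct_add, add_dotProduct, smul_dotProduct, dotProduct_smul, smul_eq_mul]
    rw [hρ, ← form_symm hA w y, dotProduct_comm (A *ᵥ w) y]
    ring
  rw [h5]
  by_cases hα0 : α = 0
  · have hy0 : y ≠ 0 := by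
      intro h
      apply hz0
      rw [hzy, hα0, h]; simp
    have := dot_self_pos hy0
    rw [hα0]
    nlinarith [mul_pos (hρ0.trans hρt) this]
  · set q := y ⬝ᵥ (A *ᵥ w)
    have hα2 : 0 < α ^ 2 := by positivity
    have ht0 : 0 < t := hρ0.trans hρt
    -- t * (α²ρN + 2αq + t yy) ≥ (α²ρNt) + 2αq t + t² yy, q² ≤ yy ε²
    by_cases hy0 : y ⬝ᵥ y = 0
    · have : q ^ 2 ≤ 0 := by rw [hy0] at h4; simpa using h4
      have hq0 : q = 0 := by nlinarith [sq_nonneg q]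
      rw [hq0]
      have : 0 < α ^ 2 * (ρ * N) := by positivity
      rw [hy0] at h1
      linarith
    · have hyp : 0 < y ⬝ᵥ y := lt_of_le_of_ne hyy (Ne.symm hy0)
      have h6 : 0 < α ^ 2 * (ρ * N) * t + 2 * α * q * t + (t * (y ⬝ᵥ y)) * t := by
        have h7 : q ^ 2 * α ^ 2 < (ρ * t * N) * (y ⬝ᵥ y) * α ^ 2 := by
          apply mul_lt_mul_of_pos_right _ hα2
          calc q ^ 2 ≤ (y ⬝ᵥ y) * ε ^ 2 := h4
            _ < (y ⬝ᵥ y) * (ρ * t * N) := mul_lt_mul_of_pos_left hε hyp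
            _ = _ := by ring
        -- (t yy + α q)² ≥ 0 → t² yy² + 2 t yy α q + α² q² ≥ 0
        have h8 : 0 ≤ (t * (y ⬝ᵥ y) + α * q) ^ 2 := sq_nonneg _
        have h9 : 0 < (α ^ 2 * (ρ * N) * t + 2 * α * q * t + (t * (y ⬝ᵥ y)) * t) * (y ⬝ᵥ y) := by
          nlinarith
        exact pos_of_mul_pos_left h9 hyp.le
      nlinarith [h6, h1, ht0]

omit [DecidableEq ι] in
/-- eigenvectors for an eigenvalue in `(0, ρ]` are near the line of `w` -/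
theorem near (u w : ι → ℝ) (t ρ ε : ℝ) (huw : u ⬝ᵥ w = 0) (hAu : A *ᵥ u = 0)
    (hgap : ∀ z : ι → ℝ, u ⬝ᵥ z = 0 → w ⬝ᵥ z = 0 → t * (z ⬝ᵥ z) ≤ z ⬝ᵥ (A *ᵥ z))
    (hw0 : w ≠ 0) (hρt : ρ < t) (hε : 0 ≤ ε)
    (hr : (A *ᵥ w - ρ • w) ⬝ᵥ (A *ᵥ w - ρ • w) ≤ ε ^ 2)
    (μ : ℝ) (hμ0 : μ ≠ 0) (hμ : μ ≤ ρ) (z : ι → ℝ) (hz : A *ᵥ z = μ • z) (hz0 : z ≠ 0) :
    ∃ (α : ℝ) (y : ι → ℝ), α ≠ 0 ∧ z = α • (w + y) ∧ ∀ i, |y i| * (t - ρ) ≤ ε := by
  have hN := dot_self_pos hw0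
  set N := w ⬝ᵥ w with hNdef
  set α := (w ⬝ᵥ z) / N with hα
  set y := z - α • w with hy
  have huz : u ⬝ᵥ z = 0 := orth hA (by rw [hAu, zero_smul] : A *ᵥ u = (0 : ℝ) • u) hz (Ne.symm hμ0)
  have hyw : w ⬝ᵥ y = 0 := by
    rw [hy, dotProduct_sub, dotProduct_smul, ← hNdef, smul_eq_mul, hα, div_mul_cancel₀ _ hN.ne',
      sub_self]
  have hyu : u ⬝ᵥ y = 0 := by
    rw [hy, dotProduct_sub, dotProduct_smul, huw, huz]; simp
  have hzy : z = α • w + y := by rw [hy]; abel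
  have h1 := hgap y hyu hyw
  have h2 : y ⬝ᵥ (A *ᵥ w) = y ⬝ᵥ (A *ᵥ w - ρ • w) := by
    rw [dotProduct_sub, dotProduct_smul, dotProduct_comm y w, hyw]; simp
  have h3 := cs y (A *ᵥ w - ρ • w)
  rw [← h2] at h3
  have hyy : 0 ≤ y ⬝ᵥ y := by rw [dotProduct]; exact Finset.sum_nonneg fun i _ => mul_self_nonneg _
  have h4 : (y ⬝ᵥ (A *ᵥ w)) ^ 2 ≤ (y ⬝ᵥ y) * ε ^ 2 :=
    h3.trans (mul_le_mul_of_nonneg_left hr hyy)
  have h5 : α * (y ⬝ᵥ (A *ᵥ w)) + y ⬝ᵥ (A *ᵥ y) = μ * (y ⬝ᵥ y) := by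
    have h6 : y ⬝ᵥ (A *ᵥ z) = μ * (y ⬝ᵥ z) := by rw [hz, dotProduct_smul, smul_eq_mul]
    rw [hzy, mulVec_add, mulVec_smul] at h6
    simp only [dotProduct_add, dotProduct_smul, smul_eq_mul] at h6
    rw [dotProduct_comm y w, hyw] at h6
    linarith
  have hgp : 0 < t - ρ := by linarith
  -- (t - μ) yy ≤ |α| |q|
  have h7 : (t - ρ) * (y ⬝ᵥ y) ≤ |α * (y ⬝ᵥ (A *ᵥ w))| := by
    have : (t - μ) * (y ⬝ᵥ y) ≤ -(α * (y ⬝ᵥ (A *ᵥ w))) := by nlinarith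
    have h8 : (t - ρ) * (y ⬝ᵥ y) ≤ (t - μ) * (y ⬝ᵥ y) :=
      mul_le_mul_of_nonneg_right (by linarith) hyy
    exact (h8.trans this).trans (neg_le_abs _)
  have h8 : ((t - ρ) * (y ⬝ᵥ y)) ^ 2 ≤ α ^ 2 * ((y ⬝ᵥ y) * ε ^ 2) := by
    have : ((t - ρ) * (y ⬝ᵥ y)) ^ 2 ≤ |α * (y ⬝ᵥ (A *ᵥ w))| ^ 2 :=
      pow_le_pow_left₀ (mul_nonneg hgp.le hyy) h7 2
    rw [sq_abs] at this
    have h8' : (α * (y ⬝ᵥ (A *ᵥ w))) ^ 2 = α ^ 2 * (y ⬝ᵥ (A *ᵥ w)) ^ 2 := mul_pow _ _ _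
    rw [h8'] at this
    exact this.trans (mul_le_mul_of_nonneg_left h4 (sq_nonneg _))
  have h9 : (t - ρ) ^ 2 * (y ⬝ᵥ y) ≤ α ^ 2 * ε ^ 2 := by
    by_cases hy0 : y ⬝ᵥ y = 0
    · rw [hy0, mul_zero]; positivity
    · have hyp : 0 < y ⬝ᵥ y := lt_of_le_of_ne hyy (Ne.symm hy0)
      have : ((t - ρ) ^ 2 * (y ⬝ᵥ y)) * (y ⬝ᵥ y) ≤ (α ^ 2 * ε ^ 2) * (y ⬝ᵥ y) := by nlinarith
      exact le_of_mul_le_mul_right this hyp
  have hα0 : α ≠ 0 := by
    intro h0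
    rw [h0] at h9
    have : y ⬝ᵥ y ≤ 0 := by
      have h10 : (t - ρ) ^ 2 * (y ⬝ᵥ y) ≤ 0 := by simpa using h9
      by_contra hc
      push Not at hc
      have := mul_pos (pow_pos hgp 2) hc
      linarith
    have hy1 : y = 0 := dotProduct_self_eq_zero.1 (le_antisymm this hyy)
    apply hz0
    rw [hzy, h0, hy1]; simp
  refine ⟨α, α⁻¹ • y, hα0, ?_, fun i => ?_⟩
  · rw [smul_add, smul_smul, mul_inv_cancel₀ hα0, one_smul]; exact hzy
  · have h10 : (y i) ^ 2 ≤ y ⬝ᵥ y := by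
      rw [dotProduct, sq]
      exact Finset.single_le_sum (f := fun i => y i * y i) (fun j _ => mul_self_nonneg _)
        (Finset.mem_univ i)
    have h11 : ((t - ρ) * |y i|) ^ 2 ≤ (|α| * ε) ^ 2 := by
      rw [mul_pow, mul_pow, sq_abs, sq_abs]
      exact (mul_le_mul_of_nonneg_left h10 (sq_nonneg _)).trans h9
    have h12 : (t - ρ) * |y i| ≤ |α| * ε :=
      le_of_sq_le_sq h11 (by positivity)
    have hα1 : 0 < |α| := abs_pos.2 hα0
    rw [Pi.smul_apply, smul_eq_mul, abs_mul, abs_inv]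
    rw [mul_assoc, inv_mul_le_iff₀ hα1]
    linarith

end Q19.Fied
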