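import Pool.Agent.Q19.Fied
import Pool.Agent.Q19.Psd

/-!
# Integer checks that locate the second smallest eigenvalue and its eigenvector
-/

set_option autoImplicit false

namespace Q19.FiedApp

open Matrix Finset Q19.Psd

/-- all integer checks: `L` a symmetric integer matrix with zero row sums, `w` an integer vector
near the Fiedler vector, `P / N` its Rayleigh quotient, `e` a bound for the residual, `T / s` a
lower bound for the form on the complement of `1, w`. -/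
structure Checks (n : ℕ) (L R : Fin n → Fin n → ℤ) (w : Fin n → ℤ) (s T K a b N P e : ℤ) :
    Prop where
  symm : ∀ i j, L i j = L j i
  row : ∀ i, ∑ j, L i j = 0
  sum : ∑ i, w i = 0
  hN : ∑ i, w i * w i = N
  hP : ∑ i, ∑ j, w i * (L i j * w j) = P
  pos : 0 < s ∧ 0 < K ∧ 0 < P ∧ 0 < N ∧ 0 < e ∧ P * s < T * N ∧ e ^ 2 * s < P * T
  res : ∑ i, (N * (∑ j, L i j * w j) - P * w i) ^ 2 ≤ e ^ 2 * N ^ 2
  cert : Cert (fun i j => K * (s * L i j - (if i = j then T else 0) + a) + b * (w i * w j)) R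

/-- the real matrix of an integer matrix -/
def re {n : ℕ} (L : Fin n → Fin n → ℤ) : Matrix (Fin n) (Fin n) ℝ := fun i j => (L i j : ℝ)

variable {n : ℕ} {L R : Fin n → Fin n → ℤ} {w : Fin n → ℤ} {s T K a b N P e : ℤ}

theorem Checks.herm (h : Checks n L R w s T K a b N P e) : (re L).IsHermitian := by
  ext i j
  simp only [conjTranspose_apply, re, star_trivial]
  exact_mod_cast h.symm j i

/-- the real vector of `w` -/
def rv (w : Fin n → ℤ) : Fin n → ℝ := fun i => (w i : ℝ)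

lemma one_dot (z : Fin n → ℝ) : (fun _ => (1 : ℝ)) ⬝ᵥ z = ∑ i, z i := by simp [dotProduct]

theorem Checks.null (h : Checks n L R w s T K a b N P e) :
    re L *ᵥ (fun _ => (1 : ℝ)) = 0 := by
  ext i
  simp only [mulVec, dotProduct, re, mul_one, Pi.zero_apply]
  exact_mod_cast h.row i

theorem Checks.orth (h : Checks n L R w s T K a b N P e) :
    (fun _ => (1 : ℝ)) ⬝ᵥ rv w = 0 := by
  rw [one_dot]
  simp only [rv]
  exact_mod_cast h.sum

theorem Checks.norm (h : Checks n L R w s T K a b N P e) : rv w ⬝ᵥ rv w = N := by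
  simp only [dotProduct, rv]
  exact_mod_cast h.hN

theorem Checks.wne (h : Checks n L R w s T K a b N P e) : rv w ≠ 0 := by
  intro h0
  have := h.norm
  rw [h0] at this
  simp only [dotProduct_zero] at this
  have h1 := h.pos.2.2.2.1
  have : N = 0 := by exact_mod_cast this.symm
  omega

theorem Checks.ray (h : Checks n L R w s T K a b N P e) :
    rv w ⬝ᵥ (re L *ᵥ rv w) = (P / N : ℝ) * (rv w ⬝ᵥ rv w) := by
  rw [h.norm]
  have hN : (N : ℝ) ≠ 0 := by exact_mod_cast h.pos.2.2.2.1.ne'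
  rw [div_mul_cancel₀ _ hN, ← h.hP]
  simp only [dotProduct, mulVec, rv, re]
  push_cast
  apply Finset.sum_congr rfl; intro i _
  rw [Finset.mul_sum]

theorem Checks.resid (h : Checks n L R w s T K a b N P e) :
    (re L *ᵥ rv w - (P / N : ℝ) • rv w) ⬝ᵥ (re L *ᵥ rv w - (P / N : ℝ) • rv w) ≤ (e : ℝ) ^ 2 := by
  have hN : (0 : ℝ) < N := by exact_mod_cast h.pos.2.2.2.1
  have h1 : (∑ i, ((N : ℝ) * (∑ j, (L i j : ℝ) * w j) - P * w i) ^ 2) ≤ (e : ℝ) ^ 2 * (N : ℝ) ^ 2 := by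
    exact_mod_cast h.res
  have h2 : (re L *ᵥ rv w - (P / N : ℝ) • rv w) ⬝ᵥ (re L *ᵥ rv w - (P / N : ℝ) • rv w) *
      (N : ℝ) ^ 2 = ∑ i, ((N : ℝ) * (∑ j, (L i j : ℝ) * w j) - P * w i) ^ 2 := by
    simp only [dotProduct, mulVec, rv, re, Pi.sub_apply, Pi.smul_apply, smul_eq_mul]
    rw [Finset.sum_mul]
    apply Finset.sum_congr rfl; intro i _
    field_simp
  rw [← h2] at h1
  exact le_of_mul_le_mul_right h1 (by positivity)

theorem Checks.gap (h : Checks n L R w s T K a b N P e) (z : Fin n → ℝ)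
    (h1 : (fun _ => (1 : ℝ)) ⬝ᵥ z = 0) (h2 : rv w ⬝ᵥ z = 0) :
    (T / s : ℝ) * (z ⬝ᵥ z) ≤ z ⬝ᵥ (re L *ᵥ z) := by
  have hc := cert_nonneg _ _ h.cert z
  have hs : (0 : ℝ) < s := by exact_mod_cast h.pos.1
  have hK : (0 : ℝ) < K := by exact_mod_cast h.pos.2.1
  have e1 : ∑ i, ∑ j, ((K * (s * L i j - (if i = j then T else 0) + a) + b * (w i * w j) : ℤ) : ℝ)
      * (z i * z j) = K * (s * (z ⬝ᵥ (re L *ᵥ z)) - T * (z ⬝ᵥ z) + a * (∑ i, z i) ^ 2) +
        b * (rv w ⬝ᵥ z) ^ 2 := by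
    have f1 : z ⬝ᵥ (re L *ᵥ z) = ∑ i, ∑ j, (L i j : ℝ) * (z i * z j) := by
      simp only [dotProduct, mulVec, re]
      apply Finset.sum_congr rfl; intro i _
      rw [Finset.mul_sum]
      apply Finset.sum_congr rfl; intro j _
      ring
    have f2 : z ⬝ᵥ z = ∑ i, ∑ j, (if i = j then (1 : ℝ) else 0) * (z i * z j) := by
      simp only [dotProduct]
      apply Finset.sum_congr rfl; intro i _
      simp
    have f3 : (∑ i, z i) ^ 2 = ∑ i, ∑ j, z i * z j := by rw [sq, Finset.sum_mul_sum]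
    have f4 : (rv w ⬝ᵥ z) ^ 2 = ∑ i, ∑ j, ((w i : ℝ) * w j) * (z i * z j) := by
      rw [sq, dotProduct, Finset.sum_mul_sum]
      apply Finset.sum_congr rfl; intro i _
      apply Finset.sum_congr rfl; intro j _
      simp only [rv]; ring
    rw [f1, f2, f3, f4]
    simp only [Finset.mul_sum, ← Finset.sum_add_distrib, ← Finset.sum_sub_distrib]
    apply Finset.sum_congr rfl; intro i _
    apply Finset.sum_congr rfl; intro j _
    by_cases hij : i = j
    · subst hij; simp only [if_true]; push_cast; ring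
    · simp only [if_neg hij]; push_cast; ring
  rw [e1, h2, ← one_dot, h1] at hc
  have h3 : 0 ≤ (K : ℝ) * (s * (z ⬝ᵥ (re L *ᵥ z)) - T * (z ⬝ᵥ z)) := by
    have : (K : ℝ) * (s * (z ⬝ᵥ (re L *ᵥ z)) - T * (z ⬝ᵥ z)) =
      K * (s * (z ⬝ᵥ (re L *ᵥ z)) - T * (z ⬝ᵥ z) + a * 0 ^ 2) + b * 0 ^ 2 := by ring
    rw [this]; exact hc
  have h4 : 0 ≤ (s : ℝ) * (z ⬝ᵥ (re L *ᵥ z)) - T * (z ⬝ᵥ z) := nonneg_of_mul_nonneg_right h3 hK
  rw [div_mul_eq_mul_div, div_le_iff₀ hs]
  linarith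

theorem Checks.rho_pos (h : Checks n L R w s T K a b N P e) : (0 : ℝ) < P / N :=
  div_pos (by exact_mod_cast h.pos.2.2.1) (by exact_mod_cast h.pos.2.2.2.1)

theorem Checks.rho_lt (h : Checks n L R w s T K a b N P e) : (P / N : ℝ) < T / s := by
  have hs : (0 : ℝ) < s := by exact_mod_cast h.pos.1
  have hN : (0 : ℝ) < N := by exact_mod_cast h.pos.2.2.2.1
  rw [div_lt_div_iff₀ hN hs]
  exact_mod_cast h.pos.2.2.2.2.2.1

theorem Checks.posi (h : Checks n L R w s T K a b N P e) :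
    ∀ z : Fin n → ℝ, z ≠ 0 → (fun _ => (1 : ℝ)) ⬝ᵥ z = 0 → 0 < z ⬝ᵥ (re L *ᵥ z) := by
  have hs : (0 : ℝ) < s := by exact_mod_cast h.pos.1
  have hN : (0 : ℝ) < N := by exact_mod_cast h.pos.2.2.2.1
  refine Q19.Fied.pos_of h.herm (fun _ => (1 : ℝ)) (rv w) (T / s) (P / N) e h.orth h.gap h.ray h.wne
    h.rho_pos h.rho_lt h.resid ?_
  rw [h.norm]
  have h1 : (e : ℝ) ^ 2 * s < P * T := by exact_mod_cast h.pos.2.2.2.2.2.2
  have h2 : (P / N : ℝ) * (T / s) * N = P * T / s := by field_simp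
  rw [h2, lt_div_iff₀ hs]
  exact h1

theorem Checks.card_eq {m : ℕ} (hn : n = m + 3) : Fintype.card (Fin n) = m + 3 := by simp [hn]

theorem one_ne (m : ℕ) (hn : n = m + 3) : (fun _ => (1 : ℝ) : Fin n → ℝ) ≠ 0 := by
  intro h0
  subst hn
  have := congrFun h0 0
  simp at this

/-- the eigenvalues -/
theorem Checks.eig (h : Checks n L R w s T K a b N P e) (hA : (re L).IsHermitian)
    {m : ℕ} (hn : n = m + 3) (i0 i1 i2 : Fin (Fintype.card (Fin n)))
    (h0 : i0.1 = m + 2) (h1 : i1.1 = m + 1) (h2 : i2.1 = m) :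
    hA.eigenvalues₀ i0 = 0 ∧ 0 < hA.eigenvalues₀ i1 ∧ hA.eigenvalues₀ i1 ≤ (P / N : ℝ) ∧
      (T / s : ℝ) ≤ hA.eigenvalues₀ i2 := by
  have hN : (0 : ℝ) < N := by exact_mod_cast h.pos.2.2.2.1
  have hcard : Fintype.card (Fin n) = m + 1 + 2 := by simp [hn]
  have hcard' : Fintype.card (Fin n) = m + 3 := by simp [hn]
  obtain ⟨e0, e1⟩ := Q19.Fied.first_zero hA (m + 1) hcard _ (one_ne m hn) h.null h.posi
  have e2 := Q19.Fied.second_le hA (m + 1) hcard _ (rv w) (one_ne m hn) h.null h.posi h.orth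
  have e3 := Q19.Fied.third_ge hA m hcard' _ (rv w) (T / s) h.gap
  have key : ∀ (i : Fin (Fintype.card (Fin n))) (k : ℕ) (hk : k < Fintype.card (Fin n)), i.1 = k →
      hA.eigenvalues₀ i = hA.eigenvalues₀ ⟨k, hk⟩ := by
    intro i k hk hi
    exact congrArg _ (Fin.ext hi)
  rw [key i0 (m + 1 + 1) (by omega) h0, key i1 (m + 1) (by omega) h1, key i2 m (by omega) h2]
  rw [h.ray, h.norm] at e2
  have e4 := le_of_mul_le_mul_right e2 hN
  exact ⟨e0, e1, e4, e3⟩

/-- comparison of the entries of an eigenvector -/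
theorem Checks.cmp (h : Checks n L R w s T K a b N P e) (μ : ℝ) (hμ0 : 0 < μ)
    (hμ : μ ≤ (P / N : ℝ)) (z : Fin n → ℝ) (hz : re L *ᵥ z = μ • z) (hz0 : z ≠ 0) :
    ∃ (α : ℝ) (y : Fin n → ℝ), α ≠ 0 ∧ (∀ i, z i = α * y i) ∧
      ∀ i j, 2 * e * s * N < (w i - w j) * (T * N - P * s) → y j < y i := by
  have hs : (0 : ℝ) < s := by exact_mod_cast h.pos.1
  have hN : (0 : ℝ) < N := by exact_mod_cast h.pos.2.2.2.1
  have he : (0 : ℝ) < e := by exact_mod_cast h.pos.2.2.2.2.1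
  obtain ⟨α, y, hα, hzy, hy⟩ := Q19.Fied.near h.herm _ (rv w) (T / s) (P / N) e h.orth h.null h.gap
    h.wne h.rho_lt he.le h.resid μ hμ0.ne' hμ z hz hz0
  refine ⟨α, fun i => w i + y i, hα, fun i => ?_, fun i j hij => ?_⟩
  · rw [hzy]; simp [rv]
  · have h1 : (2 : ℝ) * e * s * N < (w i - w j) * (T * N - P * s) := by exact_mod_cast hij
    have hg : (0 : ℝ) < T / s - P / N := sub_pos.2 h.rho_lt
    have h2 : ((T : ℝ) * N - P * s) = (T / s - P / N) * (s * N) := by field_simp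
    rw [h2] at h1
    have h3 : (2 : ℝ) * e < (w i - w j) * (T / s - P / N) := by
      have h4 : (2 : ℝ) * e * (s * N) < ((w i - w j) * (T / s - P / N)) * (s * N) := by
        calc (2 : ℝ) * e * (s * N) = 2 * e * s * N := by ring
          _ < _ := h1
          _ = _ := by ring
      exact lt_of_mul_lt_mul_right h4 (by positivity)
    have h5 := hy i
    have h6 := hy j
    have h7 : -|y i| ≤ y i := neg_abs_le _
    have h8 : y j ≤ |y j| := le_abs_self _
    show (w j : ℝ) + y j < w i + y i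
    have h9 : (|y i| + |y j|) * (T / s - P / N) < (w i - w j) * (T / s - P / N) := by nlinarith
    have h10 := lt_of_mul_lt_mul_right h9 hg.le
    linarith

end Q19.FiedApp
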