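import Pool.Agent.Q19.SphDefs

set_option autoImplicit false
set_option linter.unusedVariables false

/-! Vectors in three-dimensional space and subsets of the sphere with distinct distances. -/

open Classical

namespace Pool.Agent.Q19.Sph

/-- vectors -/
abbrev Vc : Type := Fin 3 → ℝ

/-- the dot product -/
def dt (a b : Vc) : ℝ := a 0 * b 0 + a 1 * b 1 + a 2 * b 2

/-- the cross product -/
def cr (a b : Vc) : Vc :=
  ![a 1 * b 2 - a 2 * b 1, a 2 * b 0 - a 0 * b 2, a 0 * b 1 - a 1 * b 0]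

lemma cr0 (a b : Vc) : cr a b 0 = a 1 * b 2 - a 2 * b 1 := rfl
lemma cr1 (a b : Vc) : cr a b 1 = a 2 * b 0 - a 0 * b 2 := rfl
lemma cr2 (a b : Vc) : cr a b 2 = a 0 * b 1 - a 1 * b 0 := rfl

lemma dt_eq (a b : Vc) : a ⬝ᵥ b = dt a b := by
  simp [dotProduct, Fin.sum_univ_three, dt]

lemma dt_comm (a b : Vc) : dt a b = dt b a := by unfold dt; ring

lemma S2.dt_self (x : S2) : dt x.1 x.1 = 1 := by rw [← dt_eq]; exact x.2

lemma vc_ext {a b : Vc} (h0 : a 0 = b 0) (h1 : a 1 = b 1) (h2 : a 2 = b 2) : a = b := by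
  funext i
  fin_cases i
  · exact h0
  · exact h1
  · exact h2

lemma dt_self_pos {p : Vc} (hp : p ≠ 0) : 0 < dt p p := by
  by_contra h
  apply hp
  have h0 := sq_nonneg (p 0)
  have h1 := sq_nonneg (p 1)
  have h2 := sq_nonneg (p 2)
  unfold dt at h
  have e0 : p 0 = 0 := by nlinarith
  have e1 : p 1 = 0 := by nlinarith
  have e2 : p 2 = 0 := by nlinarith
  exact vc_ext e0 e1 e2

lemma dt_sub_smul_left (a b c : Vc) (t : ℝ) : dt (a - t • b) c = dt a c - t * dt b c := by
  simp only [dt, Pi.sub_apply, Pi.smul_apply, smul_eq_mul]; ring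

lemma dt_sub_left (a b c : Vc) : dt (a - b) c = dt a c - dt b c := by
  simp only [dt, Pi.sub_apply]; ring

/-- a vector orthogonal to `a` and `b` is a multiple of the cross product -/
lemma par {a b v : Vc} (h : cr a b ≠ 0) (h1 : dt v a = 0) (h2 : dt v b = 0) :
    ∃ μ : ℝ, v = μ • cr a b := by
  have hp := dt_self_pos h
  refine ⟨dt v (cr a b) / dt (cr a b) (cr a b), ?_⟩
  have key : dt (cr a b) (cr a b) • v = dt v (cr a b) • cr a b := by
    apply vc_ext
    · simp only [dt, cr0, cr1, cr2, Pi.smul_apply, smul_eq_mul] at h1 h2 ⊢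
      linear_combination ((a 2 * b 0 - a 0 * b 2) * b 2 - (a 0 * b 1 - a 1 * b 0) * b 1) * (-h1) + ((a 2 * b 0 - a 0 * b 2) * a 2 - (a 0 * b 1 - a 1 * b 0) * a 1) * h2
    · simp only [dt, cr0, cr1, cr2, Pi.smul_apply, smul_eq_mul] at h1 h2 ⊢
      linear_combination ((a 0 * b 1 - a 1 * b 0) * b 0 - (a 1 * b 2 - a 2 * b 1) * b 2) * (-h1) + ((a 0 * b 1 - a 1 * b 0) * a 0 - (a 1 * b 2 - a 2 * b 1) * a 2) * h2
    · simp only [dt, cr0, cr1, cr2, Pi.smul_apply, smul_eq_mul] at h1 h2 ⊢
      linear_combination ((a 1 * b 2 - a 2 * b 1) * b 1 - (a 2 * b 0 - a 0 * b 2) * b 0) * (-h1) + ((a 1 * b 2 - a 2 * b 1) * a 1 - (a 2 * b 0 - a 0 * b 2) * a 0) * h2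
  have h3 : v = (dt (cr a b) (cr a b))⁻¹ • (dt (cr a b) (cr a b) • v) := by
    rw [smul_smul, inv_mul_cancel₀ hp.ne', one_smul]
  exact h3.trans (by rw [key, smul_smul, div_eq_inv_mul])

/-- parallel unit vectors -/
lemma eq_of_cr {a b : Vc} (ha : dt a a = 1) (hb : dt b b = 1) (h : cr a b = 0) :
    b = a ∨ b = -a := by
  have h0 := congrFun h 0
  have h1 := congrFun h 1
  have h2 := congrFun h 2
  rw [cr0] at h0
  rw [cr1] at h1
  rw [cr2] at h2
  simp only [Pi.zero_apply] at h0 h1 h2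
  have key : b = dt a b • a := by
    apply vc_ext
    · simp only [dt, Pi.smul_apply, smul_eq_mul] at ha ⊢
      linear_combination (-b 0) * ha - a 1 * h2 + a 2 * h1
    · simp only [dt, Pi.smul_apply, smul_eq_mul] at ha ⊢
      linear_combination (-b 1) * ha + a 0 * h2 - a 2 * h0
    · simp only [dt, Pi.smul_apply, smul_eq_mul] at ha ⊢
      linear_combination (-b 2) * ha - a 0 * h1 + a 1 * h0
  have h3 : dt a b * dt a b = 1 := by
    have h4 : dt b b = dt a b * dt a b * dt a a := by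
      conv_lhs => rw [key]
      simp only [dt, Pi.smul_apply, smul_eq_mul]; ring
    rw [ha, hb] at h4
    linarith
  rcases mul_self_eq_one_iff.1 h3 with h4 | h4
  · left; rw [key, h4, one_smul]
  · right; rw [key, h4]; simp

/-- a line meets the sphere in at most two points -/
lemma line_sphere (m m' : Vc) (hm : cr m m' ≠ 0) (t t' : ℝ) :
    {x : S2 | dt x.1 m = t ∧ dt x.1 m' = t'}.Countable := by
  rcases Set.eq_empty_or_nonempty {x : S2 | dt x.1 m = t ∧ dt x.1 m' = t'} with h | ⟨x0, h1, h2⟩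
  · rw [h]; exact Set.countable_empty
  have hp := dt_self_pos hm
  have hsub : {x : S2 | dt x.1 m = t ∧ dt x.1 m' = t'} ⊆
      Subtype.val ⁻¹' ({x0.1, x0.1 + (-2 * dt x0.1 (cr m m') / dt (cr m m') (cr m m')) • cr m m'} :
        Set Vc) := by
    rintro y ⟨h3, h4⟩
    have h5 : dt (y.1 - x0.1) m = 0 := by rw [dt_sub_left, h3, h1, sub_self]
    have h6 : dt (y.1 - x0.1) m' = 0 := by rw [dt_sub_left, h4, h2, sub_self]
    obtain ⟨μ, hμ⟩ := par hm h5 h6
    have h7 : y.1 = x0.1 + μ • cr m m' := by rw [← hμ]; abel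
    have h8 : dt y.1 y.1 = dt x0.1 x0.1 + μ * (2 * dt x0.1 (cr m m') +
        μ * dt (cr m m') (cr m m')) := by
      rw [h7]
      simp only [dt, Pi.add_apply, Pi.smul_apply, smul_eq_mul]; ring
    rw [y.dt_self, x0.dt_self] at h8
    have h9 : μ * (2 * dt x0.1 (cr m m') + μ * dt (cr m m') (cr m m')) = 0 := by linarith
    rcases mul_eq_zero.1 h9 with h10 | h10
    · left
      change y.1 = x0.1
      rw [h7, h10, zero_smul, add_zero]
    · right
      change y.1 = x0.1 + (-2 * dt x0.1 (cr m m') / dt (cr m m') (cr m m')) • cr m m'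
      have h11 : μ = -2 * dt x0.1 (cr m m') / dt (cr m m') (cr m m') := by
        rw [eq_div_iff hp.ne']; linarith
      rw [h7, h11]
  exact ((Set.toFinite _).preimage Subtype.val_injective.injOn).countable.mono hsub

/-- distinct distances -/
def DD (A : Set S2) : Prop :=
  ∀ a ∈ A, ∀ b ∈ A, ∀ c ∈ A, ∀ d ∈ A, a ≠ b → c ≠ d → dt a.1 b.1 = dt c.1 d.1 →
    (a = c ∧ b = d) ∨ (a = d ∧ b = c)

lemma DD.mono {A B : Set S2} (hB : DD B) (h : A ⊆ B) : DD A :=
  fun a ha b hb c hc d hd => hB a (h ha) b (h hb) c (h hc) d (h hd)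

/-- a maximal subset with distinct distances covers -/
lemma exists_DD (A : Set S2) : ∃ M ⊆ A, DD M ∧ ∀ w ∈ A, w ∉ M →
    (∃ a ∈ M, ∃ b ∈ M, a ≠ b ∧ dt w.1 a.1 = dt w.1 b.1) ∨
    (∃ a ∈ M, ∃ b ∈ M, ∃ c ∈ M, dt w.1 a.1 = dt b.1 c.1) := by
  obtain ⟨M, hM⟩ := zorn_subset {M : Set S2 | M ⊆ A ∧ DD M} (by
    intro C hC hch
    refine ⟨⋃₀ C, ⟨Set.sUnion_subset fun s hs => (hC hs).1, ?_⟩,
      fun s hs => Set.subset_sUnion_of_mem hs⟩
    rintro a ⟨s1, hs1, ha⟩ b ⟨s2, hs2, hb⟩ c ⟨s3, hs3, hc⟩ d ⟨s4, hs4, hd⟩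
    have hdir := hch.directedOn
    obtain ⟨u, hu, hu1, hu2⟩ := hdir s1 hs1 s2 hs2
    obtain ⟨v, hv, hv1, hv2⟩ := hdir s3 hs3 s4 hs4
    obtain ⟨w, hw, hw1, hw2⟩ := hdir u hu v hv
    exact (hC hw).2 a (hw1 (hu1 ha)) b (hw1 (hu2 hb)) c (hw2 (hv1 hc)) d (hw2 (hv2 hd)))
  refine ⟨M, hM.prop.1, hM.prop.2, ?_⟩
  intro w hw hwM
  by_contra hcon
  push Not at hcon
  obtain ⟨h1, h2⟩ := hcon
  apply hwM
  have h3 : insert w M ⊆ A ∧ DD (insert w M) := by
    refine ⟨Set.insert_subset hw hM.prop.1, ?_⟩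
    intro a ha b hb c hc d hd hab hcd he
    have hM' := hM.prop.2
    by_cases ea : a = w
    · have hb' : b ∈ M := (Set.mem_insert_iff.1 hb).resolve_left (fun e => hab (ea.trans e.symm))
      rw [ea] at he
      by_cases ec : c = w
      · have hd' : d ∈ M := (Set.mem_insert_iff.1 hd).resolve_left (fun e => hcd (ec.trans e.symm))
        rw [ec] at he
        left
        refine ⟨ea.trans ec.symm, ?_⟩
        by_contra h4
        exact h1 b hb' d hd' h4 he
      · have hc' : c ∈ M := (Set.mem_insert_iff.1 hc).resolve_left ec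
        by_cases ed : d = w
        · rw [ed, dt_comm c.1] at he
          right
          refine ⟨ea.trans ed.symm, ?_⟩
          by_contra h4
          exact h1 b hb' c hc' h4 he
        · have hd' : d ∈ M := (Set.mem_insert_iff.1 hd).resolve_left ed
          exact absurd he (h2 b hb' c hc' d hd')
    · have ha' : a ∈ M := (Set.mem_insert_iff.1 ha).resolve_left ea
      by_cases eb : b = w
      · rw [eb, dt_comm a.1] at he
        by_cases ec : c = w
        · have hd' : d ∈ M :=
            (Set.mem_insert_iff.1 hd).resolve_left (fun e => hcd (ec.trans e.symm))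
          rw [ec] at he
          right
          refine ⟨?_, eb.trans ec.symm⟩
          by_contra h4
          exact h1 a ha' d hd' h4 he
        · have hc' : c ∈ M := (Set.mem_insert_iff.1 hc).resolve_left ec
          by_cases ed : d = w
          · rw [ed, dt_comm c.1] at he
            left
            refine ⟨?_, eb.trans ed.symm⟩
            by_contra h4
            exact h1 a ha' c hc' h4 he
          · have hd' : d ∈ M := (Set.mem_insert_iff.1 hd).resolve_left ed
            exact absurd he (h2 a ha' c hc' d hd')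
      · have hb' : b ∈ M := (Set.mem_insert_iff.1 hb).resolve_left eb
        by_cases ec : c = w
        · have hd' : d ∈ M :=
            (Set.mem_insert_iff.1 hd).resolve_left (fun e => hcd (ec.trans e.symm))
          rw [ec] at he
          exact absurd he.symm (h2 d hd' a ha' b hb')
        · have hc' : c ∈ M := (Set.mem_insert_iff.1 hc).resolve_left ec
          by_cases ed : d = w
          · rw [ed, dt_comm c.1] at he
            exact absurd he.symm (h2 c hc' a ha' b hb')
          · have hd' : d ∈ M := (Set.mem_insert_iff.1 hd).resolve_left ed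
            exact hM' a ha' b hb' c hc' d hd' hab hcd he
  exact hM.le_of_ge h3 (Set.subset_insert _ _) (Set.mem_insert _ _)

/-- either an uncountable subset with distinct distances or an uncountable plane section -/
lemma DD_or (A : Set S2) (hA : ¬ A.Countable) :
    (∃ M ⊆ A, DD M ∧ ¬ M.Countable) ∨
    (∃ a ∈ A, ∃ b ∈ A, a ≠ b ∧ ¬ {x ∈ A | dt x.1 (a.1 - b.1) = 0}.Countable) ∨
    (∃ a ∈ A, ∃ t : ℝ, ¬ {x ∈ A | dt x.1 a.1 = t}.Countable) := by
  obtain ⟨M, hMA, hM, hcov⟩ := exists_DD A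
  by_cases hMc : M.Countable
  swap
  · exact Or.inl ⟨M, hMA, hM, hMc⟩
  right
  by_contra hcon
  push Not at hcon
  obtain ⟨h1, h2⟩ := hcon
  apply hA
  have h3 : A ⊆ M ∪ ((⋃ a ∈ M, ⋃ b ∈ M, {x : S2 | a ≠ b ∧ x ∈ A ∧ dt x.1 (a.1 - b.1) = 0}) ∪
      (⋃ a ∈ M, ⋃ b ∈ M, ⋃ c ∈ M, {x ∈ A | dt x.1 a.1 = dt b.1 c.1})) := by
    intro w hw
    by_cases hwM : w ∈ M
    · exact Or.inl hwM
    right
    rcases hcov w hw hwM with ⟨a, ha, b, hb, hab, he⟩ | ⟨a, ha, b, hb, c, hc, he⟩
    · left
      simp only [Set.mem_iUnion]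
      refine ⟨a, ha, b, hb, hab, hw, ?_⟩
      rw [dt_comm, dt_sub_left, dt_comm a.1, dt_comm b.1, he, sub_self]
    · right
      simp only [Set.mem_iUnion]
      exact ⟨a, ha, b, hb, c, hc, hw, he⟩
  refine Set.Countable.mono h3 (hMc.union (Set.Countable.union ?_ ?_))
  · refine hMc.biUnion fun a ha => hMc.biUnion fun b hb => ?_
    by_cases hab : a = b
    · have : {x : S2 | a ≠ b ∧ x ∈ A ∧ dt x.1 (a.1 - b.1) = 0} = ∅ := by
        ext x; simp [hab]
      rw [this]; exact Set.countable_empty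
    · exact (h1 a (hMA ha) b (hMA hb) hab).mono (fun x hx => hx.2)
  · exact hMc.biUnion fun a ha => hMc.biUnion fun b hb => hMc.biUnion fun c hc =>
      h2 a (hMA ha) _

lemma exists_ne_of_uncountable {A : Set S2} (hA : ¬ A.Countable) (B : Set S2) (hB : B.Countable) :
    ∃ x ∈ A, x ∉ B := by
  by_contra h
  push Not at h
  exact hA (hB.mono h)

/-- every uncountable set of points has an uncountable subset with distinct distances -/
lemma exists_DD_uncountable (W : Set S2) (hW : ¬ W.Countable) :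
    ∃ M ⊆ W, DD M ∧ ¬ M.Countable := by
  -- second stage
  have stage : ∀ (m : Vc) (t : ℝ), m ≠ 0 → ¬ {x ∈ W | dt x.1 m = t}.Countable →
      ∃ M ⊆ W, DD M ∧ ¬ M.Countable := by
    intro m t hm hA
    rcases DD_or _ hA with ⟨M, h1, h2, h3⟩ | ⟨a, ha, b, hb, hab, h1⟩ | ⟨a, ha, s, h1⟩
    · exact ⟨M, h1.trans (Set.sep_subset _ _), h2, h3⟩
    · exfalso
      apply h1
      have h2 : cr m (a.1 - b.1) ≠ 0 := by
        intro h3
        have h4 : dt m (a.1 - b.1) = 0 := by
          rw [dt_comm, dt_sub_left, ha.2, hb.2, sub_self]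
        have h5 : a.1 - b.1 ≠ 0 := fun h6 => hab (Subtype.ext (sub_eq_zero.1 h6))
        have h6 : dt (cr m (a.1 - b.1)) (cr m (a.1 - b.1)) =
            dt m m * dt (a.1 - b.1) (a.1 - b.1) - dt m (a.1 - b.1) ^ 2 := by
          simp only [dt, cr0, cr1, cr2]; ring
        have h8 : dt (0 : Vc) 0 = 0 := by simp [dt]
        rw [h3, h4, h8] at h6
        have h7 := mul_pos (dt_self_pos hm) (dt_self_pos h5)
        linarith
      refine Set.Countable.mono ?_ (line_sphere m (a.1 - b.1) h2 t 0)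
      intro x hx
      exact ⟨hx.1.2, hx.2⟩
    · exfalso
      by_cases h2 : cr m a.1 = 0
      · -- degenerate
        have h0 := congrFun h2 0
        have h1' := congrFun h2 1
        have h2' := congrFun h2 2
        rw [cr0] at h0
        rw [cr1] at h1'
        rw [cr2] at h2'
        simp only [Pi.zero_apply] at h0 h1' h2'
        have ha1 := a.dt_self
        have h3 : m = dt m a.1 • a.1 := by
          apply vc_ext
          · simp only [dt, Pi.smul_apply, smul_eq_mul] at ha1 ⊢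
            linear_combination (-m 0) * ha1 + a.1 1 * h2' - a.1 2 * h1'
          · simp only [dt, Pi.smul_apply, smul_eq_mul] at ha1 ⊢
            linear_combination (-m 1) * ha1 - a.1 0 * h2' + a.1 2 * h0
          · simp only [dt, Pi.smul_apply, smul_eq_mul] at ha1 ⊢
            linear_combination (-m 2) * ha1 + a.1 0 * h1' - a.1 1 * h0
        have h4 : dt m a.1 ≠ 0 := by
          intro h5
          rw [h5, zero_smul] at h3
          exact hm h3
        obtain ⟨x, hx, hxa⟩ := exists_ne_of_uncountable hA {a} (Set.countable_singleton a)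
        apply hxa
        have h5 : dt x.1 m = dt a.1 m := hx.2.trans ha.2.symm
        have h6 : dt x.1 a.1 = 1 := by
          have h7 : dt x.1 m = dt m a.1 * dt x.1 a.1 := by
            conv_lhs => rw [h3]
            simp only [dt, Pi.smul_apply, smul_eq_mul]; ring
          rw [h5, dt_comm a.1 m] at h7
          exact mul_left_cancel₀ h4 (by rw [← h7, mul_one])
        have h7 : dt (x.1 - a.1) (x.1 - a.1) = 0 := by
          have h8 : dt (x.1 - a.1) (x.1 - a.1) = dt x.1 x.1 - 2 * dt x.1 a.1 + dt a.1 a.1 := by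
            simp only [dt, Pi.sub_apply]; ring
          rw [h8, x.dt_self, a.dt_self, h6]; norm_num
        have h8 : x.1 - a.1 = 0 := by
          by_contra h9
          exact (dt_self_pos h9).ne' h7
        exact Subtype.ext (sub_eq_zero.1 h8)
      · apply h1
        refine Set.Countable.mono ?_ (line_sphere m a.1 h2 t s)
        intro x hx
        exact ⟨hx.1.2, hx.2⟩
  rcases DD_or W hW with h | ⟨a, ha, b, hb, hab, h1⟩ | ⟨a, ha, s, h1⟩
  · exact h
  · exact stage (a.1 - b.1) 0 (fun h6 => hab (Subtype.ext (sub_eq_zero.1 h6))) h1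
  · refine stage a.1 s ?_ h1
    intro h2
    have := a.dt_self
    rw [h2] at this
    simp [dt] at this

end Pool.Agent.Q19.Sph
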