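import Pool.Agent.Q19.SphA

set_option autoImplicit false
set_option linter.unusedVariables false

/-! Part 1: if `2 ^ ℵ₁ ≠ 2 ^ ℵ₀` then every uncountable set has the extension property. -/

open Classical Cardinal

namespace Pool.Agent.Q19.Sph

/-- an action by orthogonal matrices -/
structure Rep (Γ : Type) [Group Γ] [MulAction Γ S2] where
  m : Γ → Matrix (Fin 3) (Fin 3) ℝ
  orth : ∀ γ, (m γ).transpose * m γ = 1
  act : ∀ γ (x : S2), (γ • x).1 = (m γ).mulVec x.1
  inj : Function.Injective m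
  one : m 1 = 1

variable {Γ : Type} [Group Γ] [MulAction Γ S2]

lemma Rep.dt_act (ρ : Rep Γ) (γ : Γ) (x y : S2) : dt (γ • x).1 (γ • y).1 = dt x.1 y.1 := by
  rw [ρ.act, ρ.act, ← dt_eq, ← dt_eq, dot_mulVec (ρ.orth γ)]

/-- an element which fixes a basis is trivial -/
lemma Rep.basis (ρ : Rep Γ) {γ : Γ} {a b p : S2} (ha : γ • a = a) (hb : γ • b = b)
    (hp : γ • p = p) (hd : dt p.1 (cr a.1 b.1) ≠ 0) : γ = 1 := by
  have hcr : cr a.1 b.1 ≠ 0 := by
    intro h; apply hd; rw [h]; simp [dt]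
  have ha' : (ρ.m γ).mulVec a.1 = a.1 := by rw [← ρ.act, ha]
  have hb' : (ρ.m γ).mulVec b.1 = b.1 := by rw [← ρ.act, hb]
  have hp' : (ρ.m γ).mulVec p.1 = p.1 := by rw [← ρ.act, hp]
  have key : ∀ v w : Vc, (ρ.m γ).mulVec w = w → dt ((ρ.m γ).mulVec v - v) w = 0 := by
    intro v w hw
    rw [dt_sub_left]
    have h1 := dot_mulVec (ρ.orth γ) v w
    rw [hw, dt_eq, dt_eq] at h1
    rw [h1, sub_self]
  have hall : ∀ v : Vc, (ρ.m γ).mulVec v = v := by
    intro v
    obtain ⟨μ, hμ⟩ := par hcr (key v a.1 ha') (key v b.1 hb')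
    have h1 := key v p.1 hp'
    rw [hμ] at h1
    have h2 : dt (μ • cr a.1 b.1) p.1 = μ * dt p.1 (cr a.1 b.1) := by
      simp only [dt, Pi.smul_apply, smul_eq_mul]; ring
    rw [h2] at h1
    have h3 : μ = 0 := (mul_eq_zero.1 h1).resolve_right hd
    rw [h3, zero_smul] at hμ
    exact sub_eq_zero.1 hμ
  have h1 : ρ.m γ = 1 := by
    apply Matrix.ext_of_mulVec_single
    intro i
    rw [hall, Matrix.one_mulVec]
  exact ρ.inj (h1.trans ρ.one.symm)

/-- an element which fixes two independent points acts by the identity or the reflection -/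
lemma Rep.refl (ρ : Rep Γ) {γ : Γ} {a b : S2} (ha : γ • a = a) (hb : γ • b = b)
    (hcr : cr a.1 b.1 ≠ 0) {n : Vc} (hn : n ≠ 0) (han : dt a.1 n = 0) (hbn : dt b.1 n = 0)
    (x : S2) : γ • x = x ∨ (γ • x).1 = x.1 - (2 * dt x.1 n / dt n n) • n := by
  have hnn := dt_self_pos hn
  obtain ⟨μ, hμ⟩ := par hcr ((dt_comm _ _).trans han) ((dt_comm _ _).trans hbn)
  have hμ0 : μ ≠ 0 := by
    intro h; rw [h, zero_smul] at hμ; exact hn hμ
  have key : ∀ w : S2, γ • w = w → dt ((γ • x).1 - x.1) w.1 = 0 := by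
    intro w hw
    rw [dt_sub_left]
    have h1 := ρ.dt_act γ x w
    rw [hw] at h1
    rw [h1, sub_self]
  obtain ⟨l, hl⟩ := par hcr (key a ha) (key b hb)
  have h1 : (γ • x).1 = x.1 + (l * μ⁻¹) • n := by
    rw [hμ, smul_smul, mul_assoc, inv_mul_cancel₀ hμ0, mul_one, ← hl]; abel
  set t := l * μ⁻¹
  have h2 : dt (γ • x).1 (γ • x).1 = dt x.1 x.1 + t * (2 * dt x.1 n + t * dt n n) := by
    rw [h1]; simp only [dt, Pi.add_apply, Pi.smul_apply, smul_eq_mul]; ring
  rw [S2.dt_self, S2.dt_self] at h2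
  have h3 : t * (2 * dt x.1 n + t * dt n n) = 0 := by linarith
  rcases mul_eq_zero.1 h3 with h4 | h4
  · left
    apply Subtype.ext
    rw [h1, h4, zero_smul, add_zero]
  · right
    have h5 : t = -(2 * dt x.1 n / dt n n) := by
      rw [← neg_div, eq_div_iff hnn.ne']; linarith
    rw [h1, h5, neg_smul, sub_eq_add_neg]

/-- two independent points of an uncountable set -/
lemma exists_indep {A : Set S2} (hA : ¬ A.Countable) :
    ∃ a ∈ A, ∃ b ∈ A, cr a.1 b.1 ≠ 0 := by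
  obtain ⟨a, ha, -⟩ := exists_ne_of_uncountable hA ∅ Set.countable_empty
  obtain ⟨b, hb, hb'⟩ := exists_ne_of_uncountable hA (Subtype.val ⁻¹' ({a.1, -a.1} : Set Vc))
    ((Set.toFinite _).preimage Subtype.val_injective.injOn).countable
  refine ⟨a, ha, b, hb, fun h => hb' ?_⟩
  rcases eq_of_cr a.dt_self b.dt_self h with h1 | h1
  · exact Or.inl h1
  · exact Or.inr h1

lemma mk_matrix_le : #(Matrix (Fin 3) (Fin 3) ℝ) ≤ 𝔠 := by
  have h1 : #(Fin 3 → Fin 3 → ℝ) ≤ 𝔠 := by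
    have h2 : #(Fin 3 → ℝ) ≤ 𝔠 := by
      rw [← Cardinal.power_def, Cardinal.mk_real, Cardinal.mk_fin]
      exact (Cardinal.power_le_power_left Cardinal.continuum_ne_zero
        (Cardinal.natCast_lt_aleph0 (n := 3)).le).trans Cardinal.continuum_power_aleph0.le
    rw [← Cardinal.power_def]
    refine (Cardinal.power_le_power_right h2).trans ?_
    rw [Cardinal.mk_fin]
    exact (Cardinal.power_le_power_left Cardinal.continuum_ne_zero
        (Cardinal.natCast_lt_aleph0 (n := 3)).le).trans Cardinal.continuum_power_aleph0.le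
  exact h1

/-- counting -/
lemma exists_colouring (ρ : Rep Γ) (hc : (2 : Cardinal.{0}) ^ ℵ₁ ≠ 2 ^ ℵ₀) {W : Set S2}
    (hW : ¬ W.Countable) (hDD : DD W) (f : S2 → Fin 2)
    (H : ∀ γ : Γ, γ ≠ 1 → {w ∈ W | γ • w = w}.Countable ∨
      ∃ x, x ∉ W ∧ γ • x ∉ W ∧ f (γ • x) ≠ f x) :
    ∃ g : S2 → Fin 2, (∀ x, x ∉ W → g x = f x) ∧ Distinguishing Γ g := by
  by_contra hcon
  push Not at hcon
  let T : (W → Fin 2) → S2 → Fin 2 := fun g x => if h : x ∈ W then g ⟨x, h⟩ else f x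
  have hT : ∀ g x, x ∉ W → T g x = f x := fun g x hx => dif_neg hx
  have hT' : ∀ g (x : W), T g x.1 = g x := fun g x => dif_pos x.2
  have h1 : ∀ g : W → Fin 2, ∃ γ : Γ, (∀ x, T g (γ • x) = T g x) ∧ γ ≠ 1 := by
    intro g
    have h2 := hcon (T g) (hT g)
    unfold Distinguishing at h2
    push Not at h2
    exact h2
  choose γ hγ hγ1 using h1
  -- the exceptional set is countable
  have hE : ∀ g, {w ∈ W | γ g • w ∈ W}.Countable := by
    intro g
    rcases H (γ g) (hγ1 g) with h2 | ⟨x, hx, hx', h2⟩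
    swap
    · exfalso
      apply h2
      have h3 := hγ g x
      rw [hT g _ hx, hT g _ hx'] at h3
      exact h3
    have h3 : {w ∈ W | γ g • w ∈ W} ⊆
        {w ∈ W | γ g • w = w} ∪ {w ∈ W | γ g • w ∈ W ∧ γ g • w ≠ w} := by
      rintro w ⟨h4, h5⟩
      by_cases h6 : γ g • w = w
      · exact Or.inl ⟨h4, h6⟩
      · exact Or.inr ⟨h4, h5, h6⟩
    refine Set.Countable.mono h3 (h2.union ?_)
    rcases Set.eq_empty_or_nonempty {w ∈ W | γ g • w ∈ W ∧ γ g • w ≠ w} with h4 | ⟨w0, hw0⟩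
    · rw [h4]; exact Set.countable_empty
    have h5 : {w ∈ W | γ g • w ∈ W ∧ γ g • w ≠ w} ⊆ {w0, γ g • w0} := by
      intro w hw
      by_cases h6 : w = w0
      · exact Or.inl h6
      right
      have h7 : γ g • w ≠ γ g • w0 := fun h8 => h6 (MulAction.injective (γ g) h8)
      have h8 := hDD w hw.1 w0 hw0.1 _ hw.2.1 _ hw0.2.1 h6 h7 (ρ.dt_act (γ g) w w0).symm
      rcases h8 with ⟨h9, _⟩ | ⟨h9, _⟩
      · exact absurd h9.symm hw.2.2
      · exact h9
    exact (Set.toFinite _).countable.mono h5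
  have hen : ∀ δ : Γ, ∃ e : ℕ → S2, {w ∈ W | δ • w ∈ W}.Countable →
      {w ∈ W | δ • w ∈ W} ⊆ Set.range e := by
    intro δ
    by_cases h2 : {w ∈ W | δ • w ∈ W}.Countable
    · rcases Set.eq_empty_or_nonempty {w ∈ W | δ • w ∈ W} with h3 | h3
      · obtain ⟨x, -⟩ := exists_ne_of_uncountable hW ∅ Set.countable_empty
        exact ⟨fun _ => x, fun _ => by rw [h3]; exact Set.empty_subset _⟩
      · obtain ⟨e, he⟩ := h2.exists_eq_range h3
        exact ⟨e, fun _ => he.le⟩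
    · obtain ⟨x, -⟩ := exists_ne_of_uncountable hW ∅ Set.countable_empty
      exact ⟨fun _ => x, fun h3 => absurd h3 h2⟩
  choose e he using hen
  let code : (W → Fin 2) → Matrix (Fin 3) (Fin 3) ℝ × (ℕ → Fin 2) :=
    fun g => (ρ.m (γ g), fun n => T g (e (γ g) n))
  have hinj : Function.Injective code := by
    intro g g' hgg
    have h2 : γ g = γ g' := ρ.inj (congrArg Prod.fst hgg)
    have h3 : ∀ n, T g (e (γ g) n) = T g' (e (γ g') n) := fun n =>
      congrFun (congrArg Prod.snd hgg) n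
    funext w
    by_cases h4 : γ g • w.1 ∈ W
    · obtain ⟨n, hn⟩ := he (γ g) (hE g) ⟨w.2, h4⟩
      have h5 := h3 n
      rw [← h2, hn, hT', hT'] at h5
      exact h5
    · have h5 := hγ g w.1
      have h6 := hγ g' w.1
      rw [hT g _ h4, hT'] at h5
      rw [← h2, hT g' _ h4, hT'] at h6
      rw [← h5, h6]
  have h2 := Cardinal.mk_le_of_injective hinj
  rw [Cardinal.mk_prod, Cardinal.lift_id, Cardinal.lift_id] at h2
  have h3 : #(Matrix (Fin 3) (Fin 3) ℝ) * #(ℕ → Fin 2) ≤ 𝔠 := by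
    have h4 : #(ℕ → Fin 2) = 𝔠 := by
      rw [← Cardinal.power_def, Cardinal.mk_fin, Cardinal.mk_nat]
      exact_mod_cast Cardinal.two_power_aleph0
    rw [h4]
    exact (mul_le_mul' mk_matrix_le le_rfl).trans Cardinal.continuum_mul_self.le
  have h4 : #(W → Fin 2) = 2 ^ #W := by
    rw [← Cardinal.power_def, Cardinal.mk_fin]; norm_num
  have h5 : ℵ₁ ≤ #W := by
    rw [← Cardinal.succ_aleph0]
    apply Order.succ_le_of_lt
    rw [← not_le]
    intro h6
    exact hW (Cardinal.le_aleph0_iff_set_countable.1 h6)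
  have h6 : (2 : Cardinal.{0}) ^ ℵ₁ ≤ 2 ^ #W := Cardinal.power_le_power_left two_ne_zero h5
  have h7 : (2 : Cardinal.{0}) ^ ℵ₁ ≤ 2 ^ ℵ₀ := by
    rw [Cardinal.two_power_aleph0]
    exact h6.trans (h4 ▸ (h2.trans h3))
  have h8 : (2 : Cardinal.{0}) ^ ℵ₀ ≤ 2 ^ ℵ₁ :=
    Cardinal.power_le_power_left two_ne_zero (Cardinal.aleph0_le_aleph 1)
  exact hc (le_antisymm h7 h8)

/-- Part 1 for two colours -/
lemma part_one (ρ : Rep Γ) (hc : (2 : Cardinal.{0}) ^ ℵ₁ ≠ 2 ^ ℵ₀) {W : Set S2}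
    (hW : ¬ W.Countable) (hs : TrivialStabilizer Γ W) (c : {x : S2 // x ∉ W} → Fin 2) :
    ∃ c' : S2 → Fin 2, (∀ x : {x : S2 // x ∉ W}, c' x = c x) ∧ Distinguishing Γ c' := by
  obtain ⟨M, hMW, hM, hMc⟩ := exists_DD_uncountable W hW
  let base : S2 → Fin 2 := fun x => if h : x ∉ W then c ⟨x, h⟩ else 0
  have hbase : ∀ x : {x : S2 // x ∉ W}, base x = c x := fun x => dif_pos x.2
  -- the general conclusion
  have fin : ∀ (W2 : Set S2) (f : S2 → Fin 2), W2 ⊆ M → ¬ W2.Countable →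
      (∀ x, x ∉ W → f x = base x) → (∀ γ : Γ, γ ≠ 1 → {w ∈ W2 | γ • w = w}.Countable ∨
      ∃ x, x ∉ W2 ∧ γ • x ∉ W2 ∧ f (γ • x) ≠ f x) →
      ∃ c' : S2 → Fin 2, (∀ x : {x : S2 // x ∉ W}, c' x = c x) ∧ Distinguishing Γ c' := by
    intro W2 f h1 h2 h3 h4
    obtain ⟨g, h5, h6⟩ := exists_colouring ρ hc h2 (hM.mono h1) f h4
    refine ⟨g, fun x => ?_, h6⟩
    rw [h5 x.1 (fun h => x.2 (hMW (h1 h))), h3 x.1 x.2]
    exact hbase x
  by_cases hA : ∀ n : Vc, n ≠ 0 → {w ∈ M | dt w.1 n = 0}.Countable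
  · -- few points on every great circle
    refine fin M base le_rfl hMc (fun x _ => rfl) (fun γ hγ => Or.inl ?_)
    by_contra h1
    obtain ⟨a, ha, b, hb, hab⟩ := exists_indep h1
    apply h1
    refine (hA _ hab).mono ?_
    intro x hx
    refine ⟨hx.1, ?_⟩
    by_contra h2
    exact hγ (ρ.basis ha.2 hb.2 hx.2 h2)
  · push Not at hA
    obtain ⟨n, hn, hW2⟩ := hA
    set W2 := {w ∈ M | dt w.1 n = 0} with hW2'
    by_cases hB : ∀ γ : Γ, γ ≠ 1 → {w ∈ W2 | γ • w = w}.Countable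
    · exact fin W2 base (Set.sep_subset _ _) hW2 (fun x _ => rfl) (fun γ hγ => Or.inl (hB γ hγ))
    push Not at hB
    obtain ⟨γ₀, hγ₀, hF⟩ := hB
    obtain ⟨a, ha, b, hb, hab⟩ := exists_indep hF
    obtain ⟨p, hpW, hp⟩ : ∃ p ∈ W, γ₀ • p ≠ p := by
      by_contra h1
      push Not at h1
      exact hγ₀ (hs γ₀ h1)
    have hnn := dt_self_pos hn
    have hp' := (ρ.refl ha.2 hb.2 hab hn ha.1.2 hb.1.2 p).resolve_left hp
    have hpn : dt p.1 n ≠ 0 := by
      intro h1
      apply hp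
      apply Subtype.ext
      rw [hp', h1]; simp
    have hp'n : dt (γ₀ • p).1 n ≠ 0 := by
      rw [hp', dt_sub_smul_left]
      have h1 : 2 * dt p.1 n / dt n n * dt n n = 2 * dt p.1 n := by field_simp
      rw [h1]
      intro h2
      apply hpn
      linarith
    let f : S2 → Fin 2 := fun x => if x = p then (if base (γ₀ • p) = 0 then 1 else 0) else base x
    refine fin W2 f (Set.sep_subset _ _) hW2 ?_ ?_
    · intro x hx
      have h1 : x ≠ p := fun h => hx (by rw [h]; exact hpW)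
      exact if_neg h1
    · intro γ hγ
      by_cases h1 : {w ∈ W2 | γ • w = w}.Countable
      · exact Or.inl h1
      right
      obtain ⟨a', ha', b', hb', hab'⟩ := exists_indep h1
      have h2 : γ • p = γ₀ • p := by
        rcases ρ.refl ha'.2 hb'.2 hab' hn ha'.1.2 hb'.1.2 p with h3 | h3
        · exfalso
          apply hγ
          apply ρ.basis ha'.2 hb'.2 h3
          intro h4
          obtain ⟨μ, hμ⟩ := par hab' ((dt_comm _ _).trans ha'.1.2) ((dt_comm _ _).trans hb'.1.2)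
          apply hpn
          rw [hμ]
          have h5 : dt p.1 (μ • cr a'.1 b'.1) = μ * dt p.1 (cr a'.1 b'.1) := by
            simp only [dt, Pi.smul_apply, smul_eq_mul]; ring
          rw [h5, h4, mul_zero]
        · exact Subtype.ext (h3.trans hp'.symm)
      refine ⟨p, fun h3 => hpn h3.2, fun h3 => ?_, ?_⟩
      · rw [h2] at h3; exact hp'n h3.2
      · rw [h2]
        have h3 : f (γ₀ • p) = base (γ₀ • p) := if_neg hp
        have h4 : f p = if base (γ₀ • p) = 0 then 1 else 0 := if_pos rfl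
        rw [h3, h4]
        split_ifs with h5
        · rw [h5]; decide
        · exact h5

/-- the distinguishing number is two -/
lemma distNum_eq (ρ : Rep Γ) (hΓ : ∃ γ : Γ, γ ≠ 1) : distNum Γ S2 = 2 := by
  let a : S2 := ⟨![1, 0, 0], by simp [dotProduct, Fin.sum_univ_three]⟩
  let b : S2 := ⟨![3/5, 4/5, 0], by simp [dotProduct, Fin.sum_univ_three]; norm_num⟩
  let p : S2 := ⟨![0, 3/5, 4/5], by simp [dotProduct, Fin.sum_univ_three]; norm_num⟩
  have hab : dt a.1 b.1 = 3/5 := by simp [dt, a, b]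
  have hap : dt a.1 p.1 = 0 := by simp [dt, a, p]
  have hbp : dt b.1 p.1 = 12/25 := by simp [dt, b, p]; norm_num
  have hba : dt b.1 a.1 = 3/5 := by rw [dt_comm]; exact hab
  have hpa : dt p.1 a.1 = 0 := by rw [dt_comm]; exact hap
  have hpb : dt p.1 b.1 = 12/25 := by rw [dt_comm]; exact hbp
  have haa := a.dt_self
  have hbb := b.dt_self
  have hpp := p.dt_self
  have hd : dt p.1 (cr a.1 b.1) ≠ 0 := by
    simp [dt, cr, a, b, p]
  apply IsLeast.csInf_eq
  constructor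
  · let c : S2 → Fin 2 := fun x => if x = a ∨ x = b ∨ x = p then 1 else 0
    refine ⟨c, fun γ hγ => ?_⟩
    have key : ∀ x, (x = a ∨ x = b ∨ x = p) → (γ • x = a ∨ γ • x = b ∨ γ • x = p) := by
      intro x hx
      have h1 : c x = 1 := if_pos hx
      have h2 := hγ x
      rw [h1] at h2
      by_contra h3
      have h4 : c (γ • x) = 0 := if_neg h3
      rw [h4] at h2
      exact absurd h2 (by decide)
    have h1 := ρ.dt_act γ a b
    have h2 := ρ.dt_act γ a p
    have h3 := ρ.dt_act γ b p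
    rw [hab] at h1
    rw [hap] at h2
    rw [hbp] at h3
    have ka := key a (Or.inl rfl)
    have kb := key b (Or.inr (Or.inl rfl))
    have kp := key p (Or.inr (Or.inr rfl))
    rcases ka with e1 | e1 | e1 <;> rcases kb with e2 | e2 | e2 <;>
      rcases kp with e3 | e3 | e3 <;> rw [e1, e2] at h1 <;> rw [e1, e3] at h2 <;>
      rw [e2, e3] at h3 <;>
      first
      | exact ρ.basis e1 e2 e3 hd
      | (exfalso; simp only [hab, hap, hbp, hba, hpa, hpb, haa, hbb, hpp] at h1 h2 h3 <;> linarith)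
  · rintro k ⟨c, hk⟩
    by_contra h
    push Not at h
    interval_cases k
    · exact (c a).elim0
    · obtain ⟨γ, hγ⟩ := hΓ
      exact hγ (hk γ (fun x => Subsingleton.elim _ _))

end Pool.Agent.Q19.Sph
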