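import Mathlib

set_option autoImplicit false
set_option linter.unusedVariables false

/-! A free family of quaternions indexed by any set of size at most the continuum. -/

open Cardinal Quaternion

namespace Pool.Agent.Q19.Sph

/-- the quaternion of a letter -/
def qlet {S R : Type} [CommRing R] (p : S → Fin 3 → R) (s : S) (e : Bool) : ℍ[R] :=
  if e then ⟨1, p s 0, p s 1, p s 2⟩ else ⟨1, -p s 0, -p s 1, -p s 2⟩

/-- the product over a word -/
def QL {S R : Type} [CommRing R] (p : S → Fin 3 → R) : List (S × Bool) → ℍ[R]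
  | [] => 1
  | x :: L => qlet p x.1 x.2 * QL p L

lemma QL_map {S R R' : Type} [CommRing R] [CommRing R'] (f : R →+* R') (p : S → Fin 3 → R)
    (L : List (S × Bool)) :
    (QL (fun s i => f (p s i)) L).re = f (QL p L).re ∧
    (QL (fun s i => f (p s i)) L).imI = f (QL p L).imI ∧
    (QL (fun s i => f (p s i)) L).imJ = f (QL p L).imJ ∧
    (QL (fun s i => f (p s i)) L).imK = f (QL p L).imK := by
  induction L with
  | nil => simp [QL]
  | cons x L ih =>
    obtain ⟨h1, h2, h3, h4⟩ := ih
    rcases x with ⟨s, e⟩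
    cases e
    · simp only [QL, qlet, Bool.false_eq_true, if_false, Quaternion.re_mul, Quaternion.imI_mul,
        Quaternion.imJ_mul, Quaternion.imK_mul, h1, h2, h3, h4, map_add, map_sub, map_mul,
        map_one, map_neg]
      exact ⟨trivial, trivial, trivial, trivial⟩
    · simp only [QL, qlet, if_true, Quaternion.re_mul, Quaternion.imI_mul,
        Quaternion.imJ_mul, Quaternion.imK_mul, h1, h2, h3, h4, map_add, map_sub, map_mul,
        map_one, map_neg]
      exact ⟨trivial, trivial, trivial, trivial⟩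

/-- the sign of a letter -/
def sg (e : Bool) : ℝ := if e then 1 else -1

lemma sg_sq (e : Bool) : sg e * sg e = 1 := by cases e <;> simp [sg]

/-- the images of the first basis vector under the parabolic matrices -/
noncomputable def V {S : Type} (k : S → ℝ) : List (S × Bool) → ℝ × ℝ
  | [] => (1, 0)
  | x :: L => ((V k L).1 + sg x.2 * 5 * ((V k L).1 - k x.1 * (V k L).2) * k x.1,
      (V k L).2 + sg x.2 * 5 * ((V k L).1 - k x.1 * (V k L).2))

/-- ping-pong -/
lemma V_ne {S : Type} (k : S → ℝ) : ∀ (L : List (S × Bool)) (x : S × Bool),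
    FreeGroup.IsReduced (x :: L) →
    (∀ a ∈ x :: L, ∀ b ∈ x :: L, a.1 ≠ b.1 → 1 ≤ |k a.1 - k b.1|) →
    (V k (x :: L)).1 - k x.1 * (V k (x :: L)).2 ≠ 0 ∧
    3 * ((V k (x :: L)).1 - k x.1 * (V k (x :: L)).2) ^ 2 ≤
      sg x.2 * (V k (x :: L)).2 * ((V k (x :: L)).1 - k x.1 * (V k (x :: L)).2) := by
  intro L
  induction L with
  | nil =>
    intro x _ _
    have hs := sg_sq x.2
    simp only [V]
    have e1 : 1 + sg x.2 * 5 * (1 - k x.1 * 0) * k x.1 -
        k x.1 * (0 + sg x.2 * 5 * (1 - k x.1 * 0)) = 1 := by ring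
    rw [e1]
    refine ⟨one_ne_zero, ?_⟩
    nlinarith
  | cons y L ih =>
    intro x hred hk
    have hs := sg_sq x.2
    have hs' := sg_sq y.2
    have hred' : FreeGroup.IsReduced (y :: L) := hred.tail
    obtain ⟨h1, h2⟩ := ih y hred' (fun a ha b hb => hk a (List.mem_cons_of_mem _ ha) b
      (List.mem_cons_of_mem _ hb))
    have hxy : x.1 = y.1 → x.2 = y.2 := by
      have := hred.rel_head
      exact this
    set A := (V k (y :: L)).1 with hA
    set B := (V k (y :: L)).2 with hB
    have e1 : (V k (x :: y :: L)).1 = A + sg x.2 * 5 * (A - k x.1 * B) * k x.1 := rfl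
    have e2 : (V k (x :: y :: L)).2 = B + sg x.2 * 5 * (A - k x.1 * B) := rfl
    have e3 : (V k (x :: y :: L)).1 - k x.1 * (V k (x :: y :: L)).2 = A - k x.1 * B := by
      rw [e1, e2]; ring
    rw [e3, e2]
    by_cases hc : x.1 = y.1
    · rw [hc, hxy hc]
      refine ⟨h1, ?_⟩
      have h3 : 0 ≤ (A - k y.1 * B) ^ 2 := sq_nonneg _
      have h4 : sg y.2 * (B + sg y.2 * 5 * (A - k y.1 * B)) * (A - k y.1 * B) =
          sg y.2 * B * (A - k y.1 * B) + sg y.2 * sg y.2 * 5 * (A - k y.1 * B) ^ 2 := by ring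
      rw [h4, hs']
      linarith
    · have h3 := hk x (List.mem_cons_self ..) y (List.mem_cons_of_mem _ (List.mem_cons_self ..)) hc
      set u' := A - k y.1 * B with hu'
      set u := A - k x.1 * B with hu
      have h4 : u = u' - (k x.1 - k y.1) * B := by rw [hu, hu']; ring
      have h5 : 3 * |u'| ≤ |B| := by
        have h6 : 3 * u' ^ 2 ≤ |B| * |u'| := by
          refine h2.trans ?_
          have h7 : |sg y.2| = 1 := by
            cases y.2 <;> simp [sg]
          calc sg y.2 * B * u' ≤ |sg y.2 * B * u'| := le_abs_self _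
            _ = |B| * |u'| := by rw [abs_mul, abs_mul, h7, one_mul]
        have h7 : 0 < |u'| := abs_pos.2 h1
        have h8 : u' ^ 2 = |u'| * |u'| := by rw [← sq, sq_abs]
        rw [h8] at h6
        nlinarith
      have h6 : |B| - |u'| ≤ |u| := by
        have h7 : |(k x.1 - k y.1) * B| - |u'| ≤ |u| := by
          rw [h4, abs_sub_comm u']
          exact abs_sub_abs_le_abs_sub _ _
        have h8 : |B| ≤ |(k x.1 - k y.1) * B| := by
          rw [abs_mul]
          have := abs_nonneg B
          nlinarith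
        linarith
      have h7 : 2 * |B| ≤ 3 * |u| := by linarith
      have h8 : 0 < |u'| := abs_pos.2 h1
      have h9 : 0 < |u| := by linarith
      refine ⟨abs_pos.1 h9, ?_⟩
      have h10 : sg x.2 * (B + sg x.2 * 5 * u) * u = sg x.2 * B * u + sg x.2 * sg x.2 * 5 * u ^ 2 := by
        ring
      rw [h10, hs]
      have h11 : -(|B| * |u|) ≤ sg x.2 * B * u := by
        have h12 : |sg x.2| = 1 := by
          cases x.2 <;> simp [sg]
        have h13 : |sg x.2 * B * u| = |B| * |u| := by rw [abs_mul, abs_mul, h12, one_mul]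
        rw [← h13]
        exact neg_abs_le _
      have h12 : u ^ 2 = |u| * |u| := by rw [← sq, sq_abs]
      rw [h12]
      nlinarith

/-- the complex parameters of the parabolic matrices -/
noncomputable def pc {S : Type} (k : S → ℝ) (s : S) : Fin 3 → ℂ :=
  ![-(5 * k s * Complex.I), -(5 * ((k s : ℂ) ^ 2 + 1) / 2), -(5 * (1 - (k s : ℂ) ^ 2) / 2 * Complex.I)]

lemma pc0 {S : Type} (k : S → ℝ) (s : S) : pc k s 0 = -(5 * k s * Complex.I) := rfl
lemma pc1 {S : Type} (k : S → ℝ) (s : S) : pc k s 1 = -(5 * ((k s : ℂ) ^ 2 + 1) / 2) := rfl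
lemma pc2 {S : Type} (k : S → ℝ) (s : S) :
    pc k s 2 = -(5 * (1 - (k s : ℂ) ^ 2) / 2 * Complex.I) := rfl

lemma QL_pc {S : Type} (k : S → ℝ) (L : List (S × Bool)) :
    (QL (pc k) L).re + (QL (pc k) L).imI * Complex.I = ((V k L).1 : ℂ) ∧
    -(QL (pc k) L).imJ + (QL (pc k) L).imK * Complex.I = ((V k L).2 : ℂ) := by
  induction L with
  | nil => simp [QL, V]
  | cons x L ih =>
    obtain ⟨h1, h2⟩ := ih
    have hI : Complex.I * Complex.I = -1 := Complex.I_mul_I
    rcases x with ⟨s, e⟩
    set a := (QL (pc k) L).re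
    set b := (QL (pc k) L).imI
    set c := (QL (pc k) L).imJ
    set d := (QL (pc k) L).imK
    cases e
    · simp only [QL, qlet, V, sg, Bool.false_eq_true, if_false, Quaternion.re_mul,
        Quaternion.imI_mul, Quaternion.imJ_mul, Quaternion.imK_mul]
      push_cast
      rw [← h1, ← h2, pc0, pc1, pc2]
      constructor
      · ring_nf
        simp only [Complex.I_sq]
        ring
      · ring_nf
        simp only [Complex.I_sq]
        ring
    · simp only [QL, qlet, V, sg, if_true, Quaternion.re_mul,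
        Quaternion.imI_mul, Quaternion.imJ_mul, Quaternion.imK_mul]
      push_cast
      rw [← h1, ← h2, pc0, pc1, pc2]
      constructor
      · ring_nf
        simp only [Complex.I_sq]
        ring
      · ring_nf
        simp only [Complex.I_sq]
        ring

/-- generic words are not real -/
lemma QL_ne {S : Type} [DecidableEq S] {b : S × Fin 3 → ℝ} (hb : AlgebraicIndependent ℚ b)
    {L : List (S × Bool)} (hL : FreeGroup.IsReduced L) (hne : L ≠ []) :
    ¬ ((QL (fun s i => b (s, i)) L).imJ = 0 ∧ (QL (fun s i => b (s, i)) L).imK = 0) := by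
  rintro ⟨h1, h2⟩
  let X : S → Fin 3 → MvPolynomial (S × Fin 3) ℚ := fun s i => MvPolynomial.X (s, i)
  have hinj : Function.Injective (MvPolynomial.aeval b : MvPolynomial (S × Fin 3) ℚ →ₐ[ℚ] ℝ) := hb
  have e1 : (fun s i => b (s, i)) =
      fun s i => (MvPolynomial.aeval b : MvPolynomial (S × Fin 3) ℚ →ₐ[ℚ] ℝ).toRingHom (X s i) := by
    funext s i
    simp [X]
  rw [e1] at h1 h2
  obtain ⟨-, -, m3, m4⟩ := QL_map (MvPolynomial.aeval b :
    MvPolynomial (S × Fin 3) ℚ →ₐ[ℚ] ℝ).toRingHom X L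
  rw [m3] at h1
  rw [m4] at h2
  have z1 : (QL X L).imJ = 0 := hinj (by rw [map_zero]; exact h1)
  have z2 : (QL X L).imK = 0 := hinj (by rw [map_zero]; exact h2)
  let k : S → ℝ := fun s => ((L.map Prod.fst).idxOf s : ℝ)
  let g := (MvPolynomial.aeval (fun si : S × Fin 3 => pc k si.1 si.2) :
    MvPolynomial (S × Fin 3) ℚ →ₐ[ℚ] ℂ).toRingHom
  have e2 : pc k = fun s i => g (X s i) := by
    funext s i
    simp [g, X]
  obtain ⟨-, -, n3, n4⟩ := QL_map g X L
  rw [← e2, z1, map_zero] at n3
  rw [← e2, z2, map_zero] at n4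
  have h3 := (QL_pc k L).2
  rw [n3, n4] at h3
  have h4 : (V k L).2 = 0 := by
    have h5 : ((V k L).2 : ℂ) = 0 := by rw [← h3]; simp
    exact_mod_cast h5
  obtain ⟨x, L', rfl⟩ := List.exists_cons_of_ne_nil hne
  obtain ⟨h5, h6⟩ := V_ne k L' x hL (by
    intro a ha b hb hab
    have h7 : ((x :: L').map Prod.fst).idxOf a.1 ≠ ((x :: L').map Prod.fst).idxOf b.1 := by
      intro h8
      exact hab ((List.idxOf_inj (List.mem_map_of_mem ha)).1 h8)
    have h8 : ((((x :: L').map Prod.fst).idxOf a.1 : ℤ) - (((x :: L').map Prod.fst).idxOf b.1 : ℤ))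
        ≠ 0 := by
      intro h9
      apply h7
      have : (((x :: L').map Prod.fst).idxOf a.1 : ℤ) = ((x :: L').map Prod.fst).idxOf b.1 := by
        linarith
      exact_mod_cast this
    have h9 := Int.one_le_abs h8
    have h10 : ((1 : ℤ) : ℝ) ≤ ((|(((x :: L').map Prod.fst).idxOf a.1 : ℤ) -
      (((x :: L').map Prod.fst).idxOf b.1 : ℤ)| : ℤ) : ℝ) := by exact_mod_cast h9
    push_cast at h10
    exact h10)
  rw [h4] at h6
  have h7 : 0 < ((V k (x :: L')).1 - k x.1 * 0) ^ 2 := by
    rw [h4] at h5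
    positivity
  nlinarith

/-- an algebraically independent family of real numbers -/
lemma exists_algInd (S : Type) (hS : #S ≤ 𝔠) : ∃ b : S × Fin 3 → ℝ, AlgebraicIndependent ℚ b := by
  obtain ⟨B, hB⟩ := exists_isTranscendenceBasis ℚ ℝ
  have h1 : 𝔠 ≤ #B := by
    by_contra hcon
    push Not at hcon
    have h2 : Algebra.IsAlgebraic (Algebra.adjoin ℚ (Set.range (Subtype.val : B → ℝ))) ℝ :=
      hB.isAlgebraic
    have h3 := Algebra.IsAlgebraic.cardinalMk_le_max
      (Algebra.adjoin ℚ (Set.range (Subtype.val : B → ℝ))) ℝ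
    have h4 : #(Algebra.adjoin ℚ (Set.range (Subtype.val : B → ℝ))) ≤ #(MvPolynomial B ℚ) := by
      rw [Algebra.adjoin_range_eq_range_aeval]
      exact Cardinal.mk_le_of_surjective (AlgHom.rangeRestrict_surjective _)
    have h5 := MvPolynomial.cardinalMk_le_max (σ := B) (R := ℚ)
    rw [Cardinal.mk_real] at h3
    have h6 : #ℚ = ℵ₀ := Cardinal.mkRat
    rw [h6] at h5
    have h7 : max (max ℵ₀ #B) ℵ₀ < 𝔠 :=
      max_lt (max_lt Cardinal.aleph0_lt_continuum hcon) Cardinal.aleph0_lt_continuum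
    have h8 := h3.trans (max_le_max (h4.trans h5) le_rfl)
    exact absurd (h8.trans_lt (max_lt h7 Cardinal.aleph0_lt_continuum)) (lt_irrefl _)
  have h2 : #(S × Fin 3) ≤ #B := by
    refine le_trans ?_ h1
    rw [Cardinal.mk_prod, Cardinal.lift_id, Cardinal.lift_id]
    refine (mul_le_mul' hS (Cardinal.mk_fin 3).le).trans ?_
    exact (mul_le_mul' le_rfl (Cardinal.nat_lt_continuum 3).le).trans
      Cardinal.continuum_mul_self.le
  obtain ⟨f⟩ := h2
  exact ⟨fun s => (f s).1, hB.1.comp f f.injective⟩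

end Pool.Agent.Q19.Sph
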