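import Pool.Agent.Q19.SphB
import Pool.Agent.Q19.SphC

set_option autoImplicit false
set_option linter.unusedVariables false

/-! The free group of rotations and its action on the sphere. -/

open Cardinal Quaternion

namespace Pool.Agent.Q19.Sph

section free

variable {S : Type} (b : S × Fin 3 → ℝ)

/-- the quaternion of a generator -/
def qr (s : S) : ℍ[ℝ] := ⟨1, b (s, 0), b (s, 1), b (s, 2)⟩

lemma qr_ne (s : S) : qr b s ≠ 0 := by
  intro h
  have := congrArg QuaternionAlgebra.re h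
  simp [qr] at this

/-- the homomorphism -/
noncomputable def Ph : FreeGroup S →* (ℍ[ℝ])ˣ :=
  FreeGroup.lift (fun s => Units.mk0 (qr b s) (qr_ne b s))

lemma Ph_of (s : S) : ((Ph b (FreeGroup.of s) : (ℍ[ℝ])ˣ) : ℍ[ℝ]) = qr b s := by
  simp [Ph]

lemma star_eq {q : ℍ[ℝ]} (hq : q ≠ 0) : star q = normSq q • q⁻¹ := by
  have h : normSq q ≠ 0 := fun h => hq (Quaternion.normSq_eq_zero.1 h)
  rw [Quaternion.inv_def, smul_smul, mul_inv_cancel₀ h, one_smul]

lemma QL_Ph (L : List (S × Bool)) : ∃ r : ℝ, 0 < r ∧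
    QL (fun s i => b (s, i)) L = r • ((Ph b (FreeGroup.mk L) : (ℍ[ℝ])ˣ) : ℍ[ℝ]) := by
  induction L with
  | nil =>
    refine ⟨1, one_pos, ?_⟩
    have : FreeGroup.mk ([] : List (S × Bool)) = 1 := rfl
    rw [this, map_one]
    simp [QL]
  | cons x L ih =>
    obtain ⟨r, hr, h⟩ := ih
    rcases x with ⟨s, e⟩
    have h1 : FreeGroup.mk ((s, e) :: L) = FreeGroup.mk [(s, e)] * FreeGroup.mk L := by
      rw [FreeGroup.mul_mk]; rfl
    rw [h1, map_mul, Units.val_mul]
    cases e
    · have h2 : FreeGroup.mk [(s, false)] = (FreeGroup.of s)⁻¹ := rfl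
      have h3 : qlet (fun s i => b (s, i)) s false = star (qr b s) := by
        ext <;> simp [qlet, qr]
      have hn : 0 < normSq (qr b s) := by
        have h4 := Quaternion.normSq_nonneg (a := qr b s)
        refine lt_of_le_of_ne h4 (fun h5 => qr_ne b s (Quaternion.normSq_eq_zero.1 h5.symm))
      refine ⟨normSq (qr b s) * r, mul_pos hn hr, ?_⟩
      rw [h2, map_inv, Units.val_inv_eq_inv_val, Ph_of]
      simp only [QL]
      rw [h3, star_eq (qr_ne b s), h, smul_mul_smul_comm]
    · have h2 : FreeGroup.mk [(s, true)] = FreeGroup.of s := rfl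
      have h3 : qlet (fun s i => b (s, i)) s true = qr b s := rfl
      refine ⟨r, hr, ?_⟩
      rw [h2, Ph_of]
      simp only [QL]
      rw [h3, h, mul_smul_comm]

variable {b}

lemma Ph_ne [DecidableEq S] (hb : AlgebraicIndependent ℚ b) {u : FreeGroup S} (hu : u ≠ 1) :
    ¬ (((Ph b u : (ℍ[ℝ])ˣ) : ℍ[ℝ]).imJ = 0 ∧ ((Ph b u : (ℍ[ℝ])ˣ) : ℍ[ℝ]).imK = 0) := by
  rintro ⟨h1, h2⟩
  have h3 : u.toWord ≠ [] := fun h => hu (FreeGroup.toWord_eq_nil_iff.1 h)
  obtain ⟨r, hr, h⟩ := QL_Ph b u.toWord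
  rw [FreeGroup.mk_toWord] at h
  apply QL_ne hb FreeGroup.isReduced_toWord h3
  rw [h]
  constructor
  · rw [Quaternion.imJ_smul, h1, smul_zero]
  · rw [Quaternion.imK_smul, h2, smul_zero]

lemma Ph_inj [DecidableEq S] (hb : AlgebraicIndependent ℚ b) : Function.Injective (Ph b) := by
  rw [injective_iff_map_eq_one]
  intro u hu
  by_contra h
  apply Ph_ne hb h
  rw [hu]
  simp

end free

/-- quaternions commuting with the same pure quaternion commute -/
lemma comm_of_comm {x y w : ℍ[ℝ]} (hw : w.re = 0) (hw0 : w ≠ 0) (hx : x * w = w * x)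
    (hy : y * w = w * y) : x * y = y * x := by
  have x1 := congrArg QuaternionAlgebra.imI hx
  have x2 := congrArg QuaternionAlgebra.imJ hx
  have x3 := congrArg QuaternionAlgebra.imK hx
  have y1 := congrArg QuaternionAlgebra.imI hy
  have y2 := congrArg QuaternionAlgebra.imJ hy
  have y3 := congrArg QuaternionAlgebra.imK hy
  rw [Quaternion.imI_mul, Quaternion.imI_mul, hw] at x1 y1
  rw [Quaternion.imJ_mul, Quaternion.imJ_mul, hw] at x2 y2
  rw [Quaternion.imK_mul, Quaternion.imK_mul, hw] at x3 y3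
  have a1 : x.imJ * w.imK = x.imK * w.imJ := by linarith
  have a2 : x.imI * w.imK = x.imK * w.imI := by linarith
  have a3 : x.imI * w.imJ = x.imJ * w.imI := by linarith
  have b1 : y.imJ * w.imK = y.imK * w.imJ := by linarith
  have b2 : y.imI * w.imK = y.imK * w.imI := by linarith
  have b3 : y.imI * w.imJ = y.imJ * w.imI := by linarith
  have key : x.imJ * y.imK = x.imK * y.imJ ∧ x.imI * y.imK = x.imK * y.imI ∧
      x.imI * y.imJ = x.imJ * y.imI := by
    by_cases h1 : w.imI = 0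
    · by_cases h2 : w.imJ = 0
      · have h3 : w.imK ≠ 0 := by
          intro h3
          apply hw0
          ext <;> simp [hw, h1, h2, h3]
        rw [h1, mul_zero] at a2 b2
        rw [h2, mul_zero] at a1 b1
        have c1 := (mul_eq_zero.1 a1).resolve_right h3
        have c2 := (mul_eq_zero.1 a2).resolve_right h3
        have c3 := (mul_eq_zero.1 b1).resolve_right h3
        have c4 := (mul_eq_zero.1 b2).resolve_right h3
        rw [c1, c2, c3, c4]; simp
      · have e1 : x.imK = x.imJ * w.imK / w.imJ := by rw [eq_div_iff h2]; linarith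
        have e2 : x.imI = x.imJ * w.imI / w.imJ := by rw [eq_div_iff h2]; linarith
        have e3 : y.imK = y.imJ * w.imK / w.imJ := by rw [eq_div_iff h2]; linarith
        have e4 : y.imI = y.imJ * w.imI / w.imJ := by rw [eq_div_iff h2]; linarith
        rw [e1, e2, e3, e4]
        refine ⟨?_, ?_, ?_⟩ <;> ring
    · have e1 : x.imK = x.imI * w.imK / w.imI := by rw [eq_div_iff h1]; linarith
      have e2 : x.imJ = x.imI * w.imJ / w.imI := by rw [eq_div_iff h1]; linarith
      have e3 : y.imK = y.imI * w.imK / w.imI := by rw [eq_div_iff h1]; linarith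
      have e4 : y.imJ = y.imI * w.imJ / w.imI := by rw [eq_div_iff h1]; linarith
      rw [e1, e2, e3, e4]
      refine ⟨?_, ?_, ?_⟩ <;> ring
  obtain ⟨k1, k2, k3⟩ := key
  ext
  · rw [Quaternion.re_mul, Quaternion.re_mul]; ring
  · rw [Quaternion.imI_mul, Quaternion.imI_mul]; linarith
  · rw [Quaternion.imJ_mul, Quaternion.imJ_mul]; linarith
  · rw [Quaternion.imK_mul, Quaternion.imK_mul]; linarith

/-- the pure quaternion of a point -/
def em (x : S2) : ℍ[ℝ] := ⟨0, x.1 0, x.1 1, x.1 2⟩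

lemma em_inj : Function.Injective em := by
  intro x y h
  apply Subtype.ext
  exact vc_ext (congrArg QuaternionAlgebra.imI h) (congrArg QuaternionAlgebra.imJ h)
    (congrArg QuaternionAlgebra.imK h)

lemma em_ne (x : S2) : em x ≠ 0 := by
  intro h
  have h1 := x.dt_self
  have e0 : x.1 0 = 0 := congrArg QuaternionAlgebra.imI h
  have e1 : x.1 1 = 0 := congrArg QuaternionAlgebra.imJ h
  have e2 : x.1 2 = 0 := congrArg QuaternionAlgebra.imK h
  simp [dt, e0, e1, e2] at h1

/-- the numerator of the rotation matrix -/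
def R0 (q : ℍ[ℝ]) : Matrix (Fin 3) (Fin 3) ℝ :=
  !![q.re ^ 2 + q.imI ^ 2 - q.imJ ^ 2 - q.imK ^ 2, 2 * (q.imI * q.imJ - q.re * q.imK),
      2 * (q.imI * q.imK + q.re * q.imJ);
    2 * (q.imI * q.imJ + q.re * q.imK), q.re ^ 2 - q.imI ^ 2 + q.imJ ^ 2 - q.imK ^ 2,
      2 * (q.imJ * q.imK - q.re * q.imI);
    2 * (q.imI * q.imK - q.re * q.imJ), 2 * (q.imJ * q.imK + q.re * q.imI),
      q.re ^ 2 - q.imI ^ 2 - q.imJ ^ 2 + q.imK ^ 2]

lemma R0_mul (q : ℍ[ℝ]) : (R0 q).transpose * R0 q = (normSq q) ^ 2 • (1 : Matrix (Fin 3) (Fin 3) ℝ) := by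
  have hn : normSq q = q.re ^ 2 + q.imI ^ 2 + q.imJ ^ 2 + q.imK ^ 2 := Quaternion.normSq_def' q
  ext i j
  fin_cases i <;> fin_cases j <;>
    simp [R0, Matrix.mul_apply, Fin.sum_univ_three, hn] <;> ring

lemma R0_det (q : ℍ[ℝ]) : (R0 q).det = (normSq q) ^ 3 := by
  have hn : normSq q = q.re ^ 2 + q.imI ^ 2 + q.imJ ^ 2 + q.imK ^ 2 := Quaternion.normSq_def' q
  rw [Matrix.det_fin_three, hn]
  simp [R0]
  ring

lemma unit_normSq (q : (ℍ[ℝ])ˣ) : normSq (q : ℍ[ℝ]) ≠ 0 := fun h =>
  q.ne_zero (Quaternion.normSq_eq_zero.1 h)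

/-- the rotation of a quaternion -/
noncomputable def rot (q : (ℍ[ℝ])ˣ) : O3 :=
  ⟨(normSq (q : ℍ[ℝ]))⁻¹ • R0 (q : ℍ[ℝ]), by
    rw [Matrix.mem_orthogonalGroup_iff']
    rw [Matrix.transpose_smul, Matrix.smul_mul, Matrix.mul_smul, R0_mul, smul_smul, smul_smul]
    have h := unit_normSq q
    have h1 : (normSq (q : ℍ[ℝ]))⁻¹ * (normSq (q : ℍ[ℝ]))⁻¹ * normSq (q : ℍ[ℝ]) ^ 2 = 1 := by
      field_simp
    rw [h1, one_smul]⟩

lemma rot_mem (q : (ℍ[ℝ])ˣ) : rot q ∈ SO3 := by
  change ((normSq (q : ℍ[ℝ]))⁻¹ • R0 (q : ℍ[ℝ])).det = 1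
  rw [Matrix.det_smul, R0_det, Fintype.card_fin]
  have h := unit_normSq q
  field_simp

lemma em_rot (q : (ℍ[ℝ])ˣ) (x : S2) :
    em (rot q • x) = (q : ℍ[ℝ]) * em x * ((q⁻¹ : (ℍ[ℝ])ˣ) : ℍ[ℝ]) := by
  have h := unit_normSq q
  rw [Units.val_inv_eq_inv_val, Quaternion.inv_def, mul_smul_comm]
  have h1 : (rot q • x).1 = (normSq (q : ℍ[ℝ]))⁻¹ • (R0 (q : ℍ[ℝ])).mulVec x.1 := by
    change ((normSq (q : ℍ[ℝ]))⁻¹ • R0 (q : ℍ[ℝ])).mulVec x.1 = _
    rw [Matrix.smul_mulVec]
  ext
  · simp only [em, Quaternion.re_smul, Quaternion.re_mul, Quaternion.imI_mul, Quaternion.imJ_mul,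
      Quaternion.imK_mul, Quaternion.re_star, Quaternion.imI_star, Quaternion.imJ_star,
      Quaternion.imK_star, smul_eq_mul]
    ring
  · simp only [em, h1, Quaternion.imI_smul, Quaternion.re_mul, Quaternion.imI_mul,
      Quaternion.imJ_mul,
      Quaternion.imK_mul, Quaternion.re_star, Quaternion.imI_star, Quaternion.imJ_star,
      Quaternion.imK_star, smul_eq_mul, Pi.smul_apply, R0, Matrix.mulVec, dotProduct,
      Fin.sum_univ_three]
    simp
    ring
  · simp only [em, h1, Quaternion.imJ_smul, Quaternion.re_mul, Quaternion.imI_mul,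
      Quaternion.imJ_mul,
      Quaternion.imK_mul, Quaternion.re_star, Quaternion.imI_star, Quaternion.imJ_star,
      Quaternion.imK_star, smul_eq_mul, Pi.smul_apply, R0, Matrix.mulVec, dotProduct,
      Fin.sum_univ_three]
    simp
    ring
  · simp only [em, h1, Quaternion.imK_smul, Quaternion.re_mul, Quaternion.imI_mul,
      Quaternion.imJ_mul,
      Quaternion.imK_mul, Quaternion.re_star, Quaternion.imI_star, Quaternion.imJ_star,
      Quaternion.imK_star, smul_eq_mul, Pi.smul_apply, R0, Matrix.mulVec, dotProduct,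
      Fin.sum_univ_three]
    simp
    ring

/-- every quaternion commutes with a point of the sphere -/
lemma exists_axis (q : ℍ[ℝ]) : ∃ w : S2, q * em w = em w * q := by
  let v : Vc := ![q.imI, q.imJ, q.imK]
  by_cases hv : v = 0
  · have e0 : q.imI = 0 := congrFun hv 0
    have e1 : q.imJ = 0 := congrFun hv 1
    have e2 : q.imK = 0 := congrFun hv 2
    refine ⟨⟨![1, 0, 0], by simp [dotProduct, Fin.sum_univ_three]⟩, ?_⟩
    ext <;> simp [em, Quaternion.re_mul, Quaternion.imI_mul, Quaternion.imJ_mul,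
      Quaternion.imK_mul, e0, e1, e2]
  · have hp := dt_self_pos hv
    have h0 : dt v v = q.imI * q.imI + q.imJ * q.imJ + q.imK * q.imK := by
      simp [dt, v]
    set r := (Real.sqrt (dt v v))⁻¹ with hr
    have hr2 : r * r * dt v v = 1 := by
      rw [hr, ← mul_inv, Real.mul_self_sqrt hp.le, inv_mul_cancel₀ hp.ne']
    refine ⟨⟨r • v, ?_⟩, ?_⟩
    · rw [dt_eq]
      have : dt (r • v) (r • v) = r * r * dt v v := by
        simp only [dt, Pi.smul_apply, smul_eq_mul]; ring
      rw [this, hr2]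
    · have e0 : v 0 = q.imI := rfl
      have e1 : v 1 = q.imJ := rfl
      have e2 : v 2 = q.imK := rfl
      ext
      · simp only [em, Quaternion.re_mul, Pi.smul_apply, smul_eq_mul, e0, e1, e2]; ring
      · simp only [em, Quaternion.imI_mul, Pi.smul_apply, smul_eq_mul, e0, e1, e2]; ring
      · simp only [em, Quaternion.imJ_mul, Pi.smul_apply, smul_eq_mul, e0, e1, e2]; ring
      · simp only [em, Quaternion.imK_mul, Pi.smul_apply, smul_eq_mul, e0, e1, e2]; ring

/-- a permutation representation -/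
def psi (F : Type) [Group F] : F →* Equiv.Perm (Option F) where
  toFun y := Equiv.optionCongr (Equiv.mulLeft y)
  map_one' := by
    ext x; cases x <;> simp
  map_mul' y z := by
    ext x; cases x <;> simp [mul_assoc]

/-- conjugates of a free generator by elements of a complementary free factor -/
lemma free_comm {K I : Type} [DecidableEq K] [DecidableEq I] (y : FreeGroup K) (a a' : I)
    (h : FreeGroup.map Sum.inl y * FreeGroup.of (Sum.inr a) * (FreeGroup.map Sum.inl y)⁻¹ *
        FreeGroup.of (Sum.inr a') =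
      FreeGroup.of (Sum.inr a') * (FreeGroup.map Sum.inl y * FreeGroup.of (Sum.inr a) *
        (FreeGroup.map (Sum.inl : K → K ⊕ I) y)⁻¹)) : y = 1 ∧ a = a' := by
  have h1 : a = a' := by
    by_contra hne
    let f : FreeGroup (K ⊕ I) →* Equiv.Perm (Fin 3) := FreeGroup.lift
      (Sum.elim (fun _ => 1) (fun i => if i = a then Equiv.swap 0 1 else Equiv.swap 1 2))
    have hf : ∀ z : FreeGroup K, f (FreeGroup.map Sum.inl z) = 1 := by
      intro z
      have : (f.comp (FreeGroup.map (Sum.inl : K → K ⊕ I))) = 1 := by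
        apply FreeGroup.ext_hom
        intro k
        simp [f]
      exact DFunLike.congr_fun this z
    have h2 := congrArg f h
    simp only [map_mul, map_inv, hf, one_mul, inv_one, mul_one] at h2
    have h3 : f (FreeGroup.of (Sum.inr a)) = Equiv.swap 0 1 := by simp [f]
    have h4 : f (FreeGroup.of (Sum.inr a')) = Equiv.swap 1 2 := by
      simp [f, Ne.symm hne]
    rw [h3, h4] at h2
    exact absurd h2 (by decide)
  refine ⟨?_, h1⟩
  by_contra hy
  subst h1
  let f : FreeGroup (K ⊕ I) →* Equiv.Perm (Option (FreeGroup K)) := FreeGroup.lift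
    (Sum.elim (fun k => psi (FreeGroup K) (FreeGroup.of k)) (fun i => Equiv.swap (some 1) none))
  have hf : ∀ z : FreeGroup K, f (FreeGroup.map Sum.inl z) = psi (FreeGroup K) z := by
    intro z
    have : (f.comp (FreeGroup.map (Sum.inl : K → K ⊕ I))) = psi (FreeGroup K) := by
      apply FreeGroup.ext_hom
      intro k
      simp [f]
    exact DFunLike.congr_fun this z
  have hfa : f (FreeGroup.of (Sum.inr a)) = Equiv.swap (some 1) none := by simp [f]
  have h2 := congrArg f h
  simp only [map_mul, map_inv, hf, hfa] at h2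
  have h3 := Equiv.congr_fun h2 (some 1)
  have p1 : ∀ z x : FreeGroup K, (psi (FreeGroup K) z) (some x) = some (z * x) := fun z x => rfl
  have p2 : ∀ z : FreeGroup K, (psi (FreeGroup K) z) none = none := fun z => rfl
  have p3 : (psi (FreeGroup K) y)⁻¹ = psi (FreeGroup K) y⁻¹ := (map_inv _ _).symm
  rw [p3] at h3
  simp only [Equiv.Perm.mul_apply, Equiv.swap_apply_left, p1, p2, Equiv.swap_apply_right,
    mul_one] at h3
  have h5 : (Equiv.swap (some (1 : FreeGroup K)) none) (some y⁻¹) = some y⁻¹ :=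
    Equiv.swap_apply_of_ne_of_ne (fun h4 => hy (inv_eq_one.1 (Option.some.inj h4))) (by simp)
  rw [h5, p1, mul_inv_cancel, Equiv.swap_apply_left] at h3
  exact absurd h3 (by simp)

end Pool.Agent.Q19.Sph
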