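import Mathlib

set_option autoImplicit false
set_option linter.unusedVariables false

/-! Distinguishing colourings and the precolouring extension property; the groups `O(3)` and
`SO(3)` acting on the unit sphere. -/

namespace Pool.Agent.Q19.Sph

/-- `c` is distinguishing: only the identity of `Γ` preserves it. -/
def Distinguishing (Γ : Type) {X : Type} [Group Γ] [MulAction Γ X] {k : ℕ} (c : X → Fin k) :
    Prop :=
  ∀ γ : Γ, (∀ x, c (γ • x) = c x) → γ = 1

/-- the distinguishing number -/
noncomputable def distNum (Γ X : Type) [Group Γ] [MulAction Γ X] : ℕ :=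
  sInf {k : ℕ | ∃ c : X → Fin k, Distinguishing Γ c}

/-- the pointwise stabilizer of `W` is trivial -/
def TrivialStabilizer (Γ : Type) {X : Type} [Group Γ] [MulAction Γ X] (W : Set X) : Prop :=
  ∀ γ : Γ, (∀ x ∈ W, γ • x = x) → γ = 1

/-- the precolouring extension property of `W` -/
def PrecolouringExtension (Γ : Type) {X : Type} [Group Γ] [MulAction Γ X] (W : Set X) : Prop :=
  ∀ c : {x : X // x ∉ W} → Fin (distNum Γ X),
    ∃ c' : X → Fin (distNum Γ X), (∀ x : {x : X // x ∉ W}, c' x = c x) ∧ Distinguishing Γ c'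

/-- the unit sphere of three-dimensional space -/
abbrev S2 : Type := {v : Fin 3 → ℝ // v ⬝ᵥ v = 1}

/-- the orthogonal group -/
abbrev O3 : Type := Matrix.orthogonalGroup (Fin 3) ℝ

lemma O3.trans (A : O3) : A.1.transpose * A.1 = 1 := (Matrix.mem_orthogonalGroup_iff' _ _).1 A.2

lemma dot_mulVec {M : Matrix (Fin 3) (Fin 3) ℝ} (h : M.transpose * M = 1) (x y : Fin 3 → ℝ) :
    M.mulVec x ⬝ᵥ M.mulVec y = x ⬝ᵥ y := by
  rw [Matrix.dotProduct_mulVec, Matrix.vecMul_mulVec, ← Matrix.dotProduct_mulVec, h,
    Matrix.one_mulVec]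

/-- the natural action of `O(3)` on the sphere -/
instance : MulAction O3 S2 where
  smul A v := ⟨A.1.mulVec v.1, by rw [dot_mulVec A.trans]; exact v.2⟩
  one_smul v := Subtype.ext (Matrix.one_mulVec v.1)
  mul_smul A B v := Subtype.ext (Matrix.mulVec_mulVec v.1 A.1 B.1).symm

/-- the rotation group, as a subgroup of `O(3)` -/
def SO3 : Subgroup O3 where
  carrier := {A | A.1.det = 1}
  one_mem' := Matrix.det_one
  mul_mem' := by
    intro A B hA hB
    change (A.1 * B.1).det = 1
    rw [Matrix.det_mul, show A.1.det = 1 from hA, show B.1.det = 1 from hB, one_mul]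
  inv_mem' := by
    intro A hA
    change (A⁻¹).1.det = 1
    have h1 : (A⁻¹).1 * A.1 = 1 := congrArg Subtype.val (inv_mul_cancel A)
    have h2 := congrArg Matrix.det h1
    rw [Matrix.det_mul, show A.1.det = 1 from hA, mul_one, Matrix.det_one] at h2
    exact h2

end Pool.Agent.Q19.Sph
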