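import Pool.Agent.Q19.SphD

set_option autoImplicit false
set_option linter.unusedVariables false

/-! Part 2: if `2 ^ ℵ₁ = 2 ^ ℵ₀` then there is an uncountable set without the property. -/

open Cardinal Quaternion Classical

namespace Pool.Agent.Q19.Sph

/-- conjugation of a point -/
noncomputable def cj (q : (ℍ[ℝ])ˣ) (x : S2) : S2 := rot q • x

lemma em_cj (q : (ℍ[ℝ])ˣ) (x : S2) :
    em (cj q x) = (q : ℍ[ℝ]) * em x * ((q⁻¹ : (ℍ[ℝ])ˣ) : ℍ[ℝ]) := em_rot q x

lemma cj_one (x : S2) : cj 1 x = x := by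
  apply em_inj
  rw [em_cj]; simp

lemma cj_mul (p q : (ℍ[ℝ])ˣ) (x : S2) : cj (p * q) x = cj p (cj q x) := by
  apply em_inj
  rw [em_cj, em_cj, em_cj, mul_inv_rev, Units.val_mul, Units.val_mul]
  simp only [mul_assoc]

lemma dt_cj (q : (ℍ[ℝ])ˣ) (x y : S2) : dt (cj q x).1 (cj q y).1 = dt x.1 y.1 := by
  have h := dot_mulVec (O3.trans (rot q)) x.1 y.1
  rw [dt_eq, dt_eq] at h
  exact h

lemma em_neg {x y : S2} (h : x.1 = -y.1) : em x = -em y := by
  ext
  · simp [em]
  · simp [em, h]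
  · simp [em, h]
  · simp [em, h]

/-- two rotations which preserve the same point up to sign have commuting squares -/
lemma sq_comm {p q : (ℍ[ℝ])ˣ} {x : S2} (hp : (cj p x).1 = x.1 ∨ (cj p x).1 = -x.1)
    (hq : (cj q x).1 = x.1 ∨ (cj q x).1 = -x.1) : p * p * (q * q) = q * q * (p * p) := by
  have key : ∀ r : (ℍ[ℝ])ˣ, ((cj r x).1 = x.1 ∨ (cj r x).1 = -x.1) →
      ((r * r : (ℍ[ℝ])ˣ) : ℍ[ℝ]) * em x = em x * ((r * r : (ℍ[ℝ])ˣ) : ℍ[ℝ]) := by
    intro r hr
    have h1 : em (cj r x) = em x ∨ em (cj r x) = -em x := by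
      rcases hr with h | h
      · left; rw [Subtype.ext h]
      · right; exact em_neg h
    have h2 : (r : ℍ[ℝ]) * em x = em x * r ∨ (r : ℍ[ℝ]) * em x = -(em x * r) := by
      rw [em_cj] at h1
      rcases h1 with h | h
      · left
        have := congrArg (fun z => z * (r : ℍ[ℝ])) h
        simpa [mul_assoc] using this
      · right
        have := congrArg (fun z => z * (r : ℍ[ℝ])) h
        simpa [mul_assoc] using this
    rw [Units.val_mul, mul_assoc]
    rcases h2 with h | h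
    · rw [h, ← mul_assoc, h, mul_assoc]
    · rw [h, mul_neg, ← mul_assoc, h, neg_mul, neg_neg, mul_assoc]
  apply Units.ext
  rw [Units.val_mul, Units.val_mul (q * q)]
  exact comm_of_comm (w := em x) rfl (em_ne x) (key p hp) (key q hq)

section main

/-- the index set of the points -/
abbrev Iom : Type := (ℵ₁ : Cardinal.{0}).out

/-- the index set of the points of `W` -/
abbrev Jx : Type := Iom × Option Bool

/-- the colourings of `W` -/
abbrev Kx : Type := Jx → Fin 2

abbrev Kp : Type := Kx ⊕ Bool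

abbrev Sx : Type := Kp ⊕ Iom

lemma mk_Iom : #Iom = ℵ₁ := Cardinal.mk_out _

lemma mk_Jx : #Jx = ℵ₁ := by
  rw [Cardinal.mk_prod, Cardinal.lift_id, Cardinal.lift_id, mk_Iom]
  apply Cardinal.mul_eq_left (Cardinal.aleph0_le_aleph 1)
  · exact (Cardinal.lt_aleph0_of_finite _).le.trans (Cardinal.aleph0_le_aleph 1)
  · exact Cardinal.mk_ne_zero _

lemma mk_Sx (h : (2 : Cardinal.{0}) ^ ℵ₁ = 2 ^ ℵ₀) : #Sx ≤ 𝔠 := by
  have h1 : #Kx = 𝔠 := by
    rw [← Cardinal.power_def, Cardinal.mk_fin, mk_Jx]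
    rw [Cardinal.two_power_aleph0] at h
    exact_mod_cast h
  have h2 : #Sx = #Kx + #Bool + #Iom := by
    simp
  rw [h2, h1, mk_Iom]
  have h3 : #Bool ≤ 𝔠 := (Cardinal.lt_aleph0_of_finite _).le.trans Cardinal.aleph0_le_continuum
  exact Cardinal.add_le_of_le Cardinal.aleph0_le_continuum
    (Cardinal.add_le_of_le Cardinal.aleph0_le_continuum le_rfl h3)
    Cardinal.aleph_one_le_continuum

variable (b : Sx × Fin 3 → ℝ)

/-- the axis of a letter -/
noncomputable def ax (a : Iom) : S2 := (exists_axis (qr b (Sum.inr a))).choose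

lemma ax_spec (a : Iom) : qr b (Sum.inr a) * em (ax b a) = em (ax b a) * qr b (Sum.inr a) :=
  (exists_axis (qr b (Sum.inr a))).choose_spec

/-- the action of a word -/
noncomputable def P (u : FreeGroup Sx) (x : S2) : S2 := cj (Ph b u) x

lemma P_one (x : S2) : P b 1 x = x := by
  unfold P; rw [map_one, cj_one]

lemma P_mul (u v : FreeGroup Sx) (x : S2) : P b (u * v) x = P b u (P b v x) := by
  unfold P; rw [map_mul, cj_mul]

variable {b}

/-- the free factor of the letters which are not points -/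
noncomputable abbrev inK (y : FreeGroup Kp) : FreeGroup Sx := FreeGroup.map Sum.inl y

lemma claim (hb : AlgebraicIndependent ℚ b) (y : FreeGroup Kp) (a a' : Iom)
    (h : (P b (inK y) (ax b a)).1 = (ax b a').1 ∨ (P b (inK y) (ax b a)).1 = -(ax b a').1) :
    y = 1 ∧ a = a' := by
  have h1 : em (P b (inK y) (ax b a)) = em (ax b a') ∨
      em (P b (inK y) (ax b a)) = -em (ax b a') := by
    rcases h with h | h
    · left; rw [Subtype.ext h]
    · right; exact em_neg h
  have h0 : em (P b (inK y) (ax b a)) = ((Ph b (inK y) : (ℍ[ℝ])ˣ) : ℍ[ℝ]) * em (ax b a) *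
      (((Ph b (inK y))⁻¹ : (ℍ[ℝ])ˣ) : ℍ[ℝ]) := em_cj _ _
  set Y := Ph b (inK y) with hY
  set A := Ph b (FreeGroup.of (Sum.inr a : Sx)) with hA
  set A' := Ph b (FreeGroup.of (Sum.inr a' : Sx)) with hA'
  have hAc : (A : ℍ[ℝ]) * em (ax b a) = em (ax b a) * A := by
    rw [hA, Ph_of]; exact ax_spec b a
  have hAc' : (A' : ℍ[ℝ]) * em (ax b a') = em (ax b a') * A' := by
    rw [hA', Ph_of]; exact ax_spec b a'
  have h2 : ((Y * A * Y⁻¹ : (ℍ[ℝ])ˣ) : ℍ[ℝ]) * em (P b (inK y) (ax b a)) =
      em (P b (inK y) (ax b a)) * ((Y * A * Y⁻¹ : (ℍ[ℝ])ˣ) : ℍ[ℝ]) := by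
    rw [h0, Units.val_mul, Units.val_mul]
    have e1 : (((Y⁻¹ : (ℍ[ℝ])ˣ) : ℍ[ℝ]) * (Y : ℍ[ℝ])) = 1 := Y.inv_mul
    calc (Y : ℍ[ℝ]) * A * ((Y⁻¹ : (ℍ[ℝ])ˣ) : ℍ[ℝ]) * (Y * em (ax b a) * ((Y⁻¹ : (ℍ[ℝ])ˣ) : ℍ[ℝ]))
        = (Y : ℍ[ℝ]) * A * (((Y⁻¹ : (ℍ[ℝ])ˣ) : ℍ[ℝ]) * Y) * em (ax b a) *
          ((Y⁻¹ : (ℍ[ℝ])ˣ) : ℍ[ℝ]) := by simp only [mul_assoc]
      _ = (Y : ℍ[ℝ]) * (A * em (ax b a)) * ((Y⁻¹ : (ℍ[ℝ])ˣ) : ℍ[ℝ]) := by
          rw [e1, mul_one]; simp only [mul_assoc]
      _ = (Y : ℍ[ℝ]) * (em (ax b a) * A) * ((Y⁻¹ : (ℍ[ℝ])ˣ) : ℍ[ℝ]) := by rw [hAc]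
      _ = (Y : ℍ[ℝ]) * em (ax b a) * (((Y⁻¹ : (ℍ[ℝ])ˣ) : ℍ[ℝ]) * Y) * A *
          ((Y⁻¹ : (ℍ[ℝ])ˣ) : ℍ[ℝ]) := by rw [e1, mul_one]; simp only [mul_assoc]
      _ = Y * em (ax b a) * ((Y⁻¹ : (ℍ[ℝ])ˣ) : ℍ[ℝ]) *
          (Y * A * ((Y⁻¹ : (ℍ[ℝ])ˣ) : ℍ[ℝ])) := by simp only [mul_assoc]
  have h3 : ((Y * A * Y⁻¹ : (ℍ[ℝ])ˣ) : ℍ[ℝ]) * em (ax b a') =
      em (ax b a') * ((Y * A * Y⁻¹ : (ℍ[ℝ])ˣ) : ℍ[ℝ]) := by
    rcases h1 with h1 | h1
    · rw [← h1]; exact h2
    · rw [h1, mul_neg, neg_mul] at h2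
      exact neg_injective h2
  have h4 := comm_of_comm (w := em (ax b a')) rfl (em_ne _) h3 hAc'
  have h5 : Y * A * Y⁻¹ * A' = A' * (Y * A * Y⁻¹) := by
    apply Units.ext
    rw [Units.val_mul, Units.val_mul A']
    exact h4
  rw [hY, hA, hA', ← map_mul, ← map_inv, ← map_mul, ← map_mul, ← map_mul] at h5
  exact free_comm y a a' (Ph_inj hb h5)

/-- the three translates -/
noncomputable def zt : Option Bool → FreeGroup Kp
  | none => 1
  | some e => FreeGroup.of (Sum.inr e)

variable (b) in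
/-- the points of `W` -/
noncomputable def pt (j : Jx) : S2 := P b (inK (zt j.2)) (ax b j.1)

/-- the inclusion of the free group on the colourings -/
noncomputable abbrev inC (u : FreeGroup Kx) : FreeGroup Kp := FreeGroup.map Sum.inl u

/-- projection to the free group on two letters -/
noncomputable def prB : FreeGroup Kp →* FreeGroup Bool :=
  FreeGroup.lift (Sum.elim (fun _ => 1) FreeGroup.of)

lemma prB_inC (u : FreeGroup Kx) : prB (inC u) = 1 := by
  have : prB.comp (FreeGroup.map (Sum.inl : Kx → Kp)) = 1 := by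
    apply FreeGroup.ext_hom
    intro k
    simp [prB]
  exact DFunLike.congr_fun this u

lemma prB_zt (o : Option Bool) : prB (zt o) = (match o with | none => 1 | some e => FreeGroup.of e) := by
  cases o with
  | none => simp [zt]
  | some e => simp [zt, prB]

lemma prB_zt_inj {o o' : Option Bool} (h : prB (zt o) = prB (zt o')) : o = o' := by
  rw [prB_zt, prB_zt] at h
  cases o with
  | none =>
    cases o' with
    | none => rfl
    | some e => exact absurd h.symm (FreeGroup.of_ne_one e)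
  | some e =>
    cases o' with
    | none => exact absurd h (FreeGroup.of_ne_one e)
    | some e' => rw [FreeGroup.of_injective h]

/-- freeness of the action on the points -/
lemma key (hb : AlgebraicIndependent ℚ b) (u : FreeGroup Kx) (j j' : Jx)
    (h : P b (inK (inC u)) (pt b j) = pt b j') : u = 1 ∧ j = j' := by
  have h1 : P b (inK ((zt j'.2)⁻¹ * inC u * zt j.2)) (ax b j.1) = ax b j'.1 := by
    have h2 := congrArg (P b (inK (zt j'.2))⁻¹) h
    unfold pt at h2
    rw [← P_mul, ← P_mul, ← P_mul, inv_mul_cancel, P_one] at h2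
    rw [← h2]
    congr 1
    simp only [inK, map_mul, map_inv]
  obtain ⟨h2, h3⟩ := claim hb _ _ _ (Or.inl (congrArg Subtype.val h1))
  have h4 : inC u * zt j.2 = zt j'.2 := by
    rw [mul_assoc] at h2
    exact (inv_mul_eq_one.1 h2).symm
  have h5 : prB (zt j.2) = prB (zt j'.2) := by
    rw [← h4, map_mul, prB_inC, one_mul]
  have h6 := prB_zt_inj h5
  rw [h6] at h4
  have h7 : inC u = 1 := mul_eq_right.1 h4
  refine ⟨?_, Prod.ext h3 h6⟩
  have h8 : Function.Injective (FreeGroup.map (Sum.inl : Kx → Kp)) := by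
    apply Function.LeftInverse.injective (g := FreeGroup.lift (Sum.elim FreeGroup.of fun _ => 1))
    intro z
    have : (FreeGroup.lift (Sum.elim FreeGroup.of fun _ => 1)).comp
        (FreeGroup.map (Sum.inl : Kx → Kp)) = MonoidHom.id _ := by
      apply FreeGroup.ext_hom
      intro k
      simp
    exact DFunLike.congr_fun this z
  exact h8 (by rw [map_one]; exact h7)

/-- the colour of a point of the orbit -/
noncomputable def col (χ : Kx) (u : FreeGroup Kx) (j : Jx) : Fin 2 :=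
  match u.toWord.getLast? with
  | none => χ j
  | some l => l.1 j

lemma col_mul (χ : Kx) (u : FreeGroup Kx) (j : Jx) :
    col χ (FreeGroup.of χ * u) j = col χ u j := by
  have h1 : (FreeGroup.of χ * u).toWord = FreeGroup.reduce ((χ, true) :: u.toWord) := by
    rw [FreeGroup.toWord_mul, FreeGroup.toWord_of]; rfl
  have h2 : FreeGroup.reduce u.toWord = u.toWord := FreeGroup.reduce_toWord u
  unfold col
  rw [h1, FreeGroup.reduce.cons, h2]
  cases hu : u.toWord with
  | nil => simp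
  | cons y tl =>
    by_cases hc : χ = y.1 ∧ true = !y.2
    · simp only [hc, and_self, if_true]
      cases tl with
      | nil => simp [hc.1]
      | cons z tl => simp [List.getLast?_cons_cons]
    · simp only
      rw [if_neg hc]
      simp [List.getLast?_cons_cons]

variable (b) in
/-- the colouring -/
noncomputable def T (χ : Kx) (x : S2) : Fin 2 :=
  if h : ∃ p : FreeGroup Kx × Jx, x = P b (inK (inC p.1)) (pt b p.2) then
    col χ h.choose.1 h.choose.2 else 0

lemma T_eq (hb : AlgebraicIndependent ℚ b) (χ : Kx) (u : FreeGroup Kx) (j : Jx) :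
    T b χ (P b (inK (inC u)) (pt b j)) = col χ u j := by
  have h : ∃ p : FreeGroup Kx × Jx,
      P b (inK (inC u)) (pt b j) = P b (inK (inC p.1)) (pt b p.2) := ⟨(u, j), rfl⟩
  unfold T
  rw [dif_pos h]
  have h1 := h.choose_spec
  set p := h.choose
  have h2 : P b (inK (inC (p.1⁻¹ * u))) (pt b j) = pt b p.2 := by
    have h3 := congrArg (P b (inK (inC p.1))⁻¹) h1
    rw [← P_mul, ← P_mul, inv_mul_cancel, P_one] at h3
    rw [← h3]
    congr 1
    simp only [map_mul, map_inv]
  obtain ⟨h3, h4⟩ := key hb _ _ _ h2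
  rw [← h4, inv_mul_eq_one.1 h3]

variable {Γ : Type} [Group Γ] [MulAction Γ S2]

/-- Part 2 for two colours -/
lemma part_two (ρ : Rep Γ) (hrot : ∀ q : (ℍ[ℝ])ˣ, ∃ γ : Γ, ∀ x : S2, γ • x = rot q • x)
    (hc : (2 : Cardinal.{0}) ^ ℵ₁ = 2 ^ ℵ₀) :
    ∃ W : Set S2, ¬ W.Countable ∧ TrivialStabilizer Γ W ∧
      ∃ c : {x : S2 // x ∉ W} → Fin 2, ¬ ∃ c' : S2 → Fin 2,
        (∀ x : {x : S2 // x ∉ W}, c' x = c x) ∧ Distinguishing Γ c' := by
  obtain ⟨b, hb⟩ := exists_algInd Sx (mk_Sx hc)
  have hinj : Function.Injective (pt b) := by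
    intro j j' h
    exact (key hb 1 j j' (by simp only [map_one]; rw [P_one]; exact h)).2
  refine ⟨Set.range (pt b), ?_, ?_, ?_⟩
  · intro h
    have h1 : #Jx ≤ ℵ₀ := by
      rw [← Cardinal.mk_range_eq _ hinj]
      exact Cardinal.le_aleph0_iff_set_countable.2 h
    rw [mk_Jx, ← Cardinal.succ_aleph0] at h1
    exact absurd h1 (not_le_of_gt (Order.lt_succ _))
  · -- trivial stabilizer
    intro γ hγ
    have hfix : ∀ j, γ • pt b j = pt b j := fun j => hγ _ ⟨j, rfl⟩
    obtain ⟨a, a', haa⟩ : ∃ a a' : Iom, a ≠ a' := by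
      have h1 : 1 < #Iom := by
        rw [mk_Iom]
        exact Cardinal.one_lt_aleph0.trans_le (Cardinal.aleph0_le_aleph 1)
      rw [Cardinal.one_lt_iff_nontrivial] at h1
      exact exists_pair_ne Iom
    have e0 : ∀ i, pt b (i, none) = ax b i := by
      intro i
      change P b (inK 1) (ax b i) = ax b i
      simp only [map_one]
      exact P_one b _
    have hn : cr (ax b a).1 (ax b a').1 ≠ 0 := by
      intro h
      apply haa
      have h1 := eq_of_cr (ax b a').dt_self (ax b a).dt_self (by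
        have h0 := congrFun h 0
        have h1 := congrFun h 1
        have h2 := congrFun h 2
        rw [cr0] at h0
        rw [cr1] at h1
        rw [cr2] at h2
        simp only [Pi.zero_apply] at h0 h1 h2
        apply vc_ext
        · rw [cr0, Pi.zero_apply]; linarith
        · rw [cr1, Pi.zero_apply]; linarith
        · rw [cr2, Pi.zero_apply]; linarith)
      exact (claim hb 1 a a' (by simp only [map_one]; rw [P_one]; exact h1)).2
    by_contra hγ1
    have hz : ∀ (i : Iom) (e : Bool),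
        dt (pt b (i, some e)).1 (cr (ax b a).1 (ax b a').1) = 0 := by
      intro i e
      by_contra h
      apply hγ1
      apply ρ.basis (a := ax b a) (b := ax b a') (p := pt b (i, some e))
      · rw [← e0]; exact hfix _
      · rw [← e0]; exact hfix _
      · exact hfix _
      · exact h
    -- the normal vector
    have hpos := dt_self_pos hn
    set n := cr (ax b a).1 (ax b a').1 with hn'
    have hr2 : (Real.sqrt (dt n n))⁻¹ * (Real.sqrt (dt n n))⁻¹ * dt n n = 1 := by
      rw [← mul_inv, Real.mul_self_sqrt hpos.le, inv_mul_cancel₀ hpos.ne']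
    let N : S2 := ⟨(Real.sqrt (dt n n))⁻¹ • n, by
      rw [dt_eq]
      have : dt ((Real.sqrt (dt n n))⁻¹ • n) ((Real.sqrt (dt n n))⁻¹ • n) =
          (Real.sqrt (dt n n))⁻¹ * (Real.sqrt (dt n n))⁻¹ * dt n n := by
        simp only [dt, Pi.smul_apply, smul_eq_mul]; ring
      rw [this, hr2]⟩
    have hN : N.1 = (Real.sqrt (dt n n))⁻¹ • n := rfl
    have hpm : ∀ e : Bool, (cj (Ph b (inK (zt (some e))))⁻¹ N).1 = N.1 ∨
        (cj (Ph b (inK (zt (some e))))⁻¹ N).1 = -N.1 := by
      intro e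
      set q := Ph b (inK (zt (some e))) with hq
      have h1 : ∀ i : Iom, dt (cj q⁻¹ N).1 (ax b i).1 = 0 := by
        intro i
        have h2 := dt_cj q (cj q⁻¹ N) (ax b i)
        rw [← cj_mul, mul_inv_cancel, cj_one] at h2
        rw [← h2]
        have h3 : cj q (ax b i) = pt b (i, some e) := rfl
        rw [h3, hN]
        have h4 := hz i e
        have h5 : dt ((Real.sqrt (dt n n))⁻¹ • n) (pt b (i, some e)).1 =
            (Real.sqrt (dt n n))⁻¹ * dt (pt b (i, some e)).1 n := by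
          simp only [dt, Pi.smul_apply, smul_eq_mul]; ring
        rw [h5, h4, mul_zero]
      obtain ⟨μ, hμ⟩ := par hn (h1 a) (h1 a')
      apply eq_of_cr N.dt_self (cj q⁻¹ N).dt_self
      rw [hμ, hN]
      apply vc_ext
      · simp only [cr0, Pi.smul_apply, smul_eq_mul, Pi.zero_apply]; ring
      · simp only [cr1, Pi.smul_apply, smul_eq_mul, Pi.zero_apply]; ring
      · simp only [cr2, Pi.smul_apply, smul_eq_mul, Pi.zero_apply]; ring
    have h1 := sq_comm (hpm false) (hpm true)
    simp only [← map_inv, ← map_mul] at h1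
    have h2 := Ph_inj hb h1
    let f : FreeGroup Sx →* Equiv.Perm (Fin 4) := FreeGroup.lift
      (Sum.elim (Sum.elim (fun _ => 1) (fun e => if e then Equiv.swap 0 1 * Equiv.swap 1 2
        else Equiv.swap 1 2 * Equiv.swap 2 3)) (fun _ => 1))
    have h3 := congrArg f h2
    have f1 : f (inK (zt (some false))) = Equiv.swap 1 2 * Equiv.swap 2 3 := by
      simp [f, zt]
    have f2 : f (inK (zt (some true))) = Equiv.swap 0 1 * Equiv.swap 1 2 := by
      simp [f, zt]
    simp only [map_mul, map_inv] at h3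
    have f1' := f1
    have f2' := f2
    simp only [inK] at f1' f2'
    rw [f1', f2'] at h3
    exact absurd h3 (by decide)
  · -- no distinguishing extension
    refine ⟨fun x => T b (fun _ => 0) x.1, ?_⟩
    rintro ⟨c', h1, h2⟩
    set χ : Kx := fun j => c' (pt b j) with hχ
    have hcT : ∀ x, c' x = T b χ x := by
      intro x
      by_cases hx : x ∈ Set.range (pt b)
      · obtain ⟨j, rfl⟩ := hx
        have h3 := T_eq hb χ 1 j
        simp only [map_one] at h3
        rw [P_one] at h3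
        rw [h3]
        simp [col, hχ]
      · have h3 := h1 ⟨x, hx⟩
        simp only at h3
        rw [h3]
        by_cases h4 : ∃ p : FreeGroup Kx × Jx, x = P b (inK (inC p.1)) (pt b p.2)
        · obtain ⟨⟨u, j⟩, rfl⟩ := h4
          simp only
          rw [T_eq hb, T_eq hb]
          have h5 : u ≠ 1 := by
            rintro rfl
            apply hx
            refine ⟨j, ?_⟩
            simp only [map_one]
            exact (P_one b _).symm
          have h6 : u.toWord ≠ [] := fun h => h5 (FreeGroup.toWord_eq_nil_iff.1 h)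
          unfold col
          rw [List.getLast?_eq_some_getLast h6]
        · unfold T
          rw [dif_neg h4, dif_neg h4]
    obtain ⟨γ, hγ⟩ := hrot (Ph b (inK (inC (FreeGroup.of χ))))
    have hγP : ∀ x, γ • x = P b (inK (inC (FreeGroup.of χ))) x := hγ
    have h3 : γ = 1 := by
      apply h2
      intro x
      rw [hcT, hcT, hγP]
      by_cases h4 : ∃ p : FreeGroup Kx × Jx, x = P b (inK (inC p.1)) (pt b p.2)
      · obtain ⟨⟨u, j⟩, rfl⟩ := h4
        simp only
        rw [← P_mul]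
        have h5 : inK (inC (FreeGroup.of χ)) * inK (inC u) = inK (inC (FreeGroup.of χ * u)) := by
          simp only [inK, inC, map_mul]
        rw [h5, T_eq hb, T_eq hb, col_mul]
      · have h5 : ¬ ∃ p : FreeGroup Kx × Jx,
            P b (inK (inC (FreeGroup.of χ))) x = P b (inK (inC p.1)) (pt b p.2) := by
          rintro ⟨p, hp⟩
          apply h4
          refine ⟨((FreeGroup.of χ)⁻¹ * p.1, p.2), ?_⟩
          have h6 := congrArg (P b (inK (inC (FreeGroup.of χ)))⁻¹) hp
          rw [← P_mul, ← P_mul, inv_mul_cancel, P_one] at h6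
          rw [h6]
          congr 1
          simp only [map_mul, map_inv]
        unfold T
        rw [dif_neg h4, dif_neg h5]
    obtain ⟨j⟩ : Nonempty Jx := by
      rw [← Cardinal.mk_ne_zero_iff, mk_Jx]
      exact (Cardinal.aleph_pos 1).ne'
    have h4 : P b (inK (inC (FreeGroup.of χ))) (pt b j) = pt b j := by
      rw [← hγP, h3, one_smul]
    exact FreeGroup.of_ne_one χ (key hb _ _ _ h4).1

end main

end Pool.Agent.Q19.Sph
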