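import Pool.Agent.Q19.SphE

set_option autoImplicit false
set_option linter.unusedVariables false

/-! The two parts together, for `O(3)` and `SO(3)`. -/

open Cardinal Quaternion

namespace Pool.Agent.Q19.Sph

theorem main {Γ : Type} [Group Γ] [MulAction Γ S2] (ρ : Rep Γ) (hΓ : ∃ γ : Γ, γ ≠ 1)
    (hrot : ∀ q : (ℍ[ℝ])ˣ, ∃ γ : Γ, ∀ x : S2, γ • x = rot q • x) :
    (∃ W : Set S2, ¬ W.Countable ∧ TrivialStabilizer Γ W ∧ ¬ PrecolouringExtension Γ W) ↔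
      (2 : Cardinal.{0}) ^ ℵ₁ = 2 ^ ℵ₀ := by
  have h2 := distNum_eq ρ hΓ
  constructor
  · rintro ⟨W, hW, hs, hP⟩
    by_contra hc
    apply hP
    unfold PrecolouringExtension
    rw [h2]
    intro c
    exact part_one ρ hc hW hs c
  · intro hc
    obtain ⟨W, hW, hs, c, hP⟩ := part_two ρ hrot hc
    refine ⟨W, hW, hs, ?_⟩
    unfold PrecolouringExtension
    rw [h2]
    intro h
    exact hP (h c)

/-- the representation of `O(3)` -/
def repO : Rep O3 where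
  m A := A.1
  orth A := O3.trans A
  act A x := rfl
  inj := Subtype.val_injective
  one := rfl

/-- the representation of `SO(3)` -/
def repSO : Rep SO3 where
  m A := A.1.1
  orth A := O3.trans A.1
  act A x := rfl
  inj := fun A B h => Subtype.ext (Subtype.ext h)
  one := rfl

lemma exists_ne : ∃ q : (ℍ[ℝ])ˣ, rot q ≠ 1 := by
  have h0 : (⟨0, 0, 0, 1⟩ : ℍ[ℝ]) ≠ 0 := by
    intro h
    have := congrArg QuaternionAlgebra.imK h
    simp at this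
  refine ⟨Units.mk0 _ h0, ?_⟩
  intro h
  have h1 := congrFun (congrFun (congrArg Subtype.val h) 0) 0
  have h2 : (rot (Units.mk0 (⟨0, 0, 0, 1⟩ : ℍ[ℝ]) h0)).1 0 0 = -1 := by
    change ((normSq (⟨0, 0, 0, 1⟩ : ℍ[ℝ]))⁻¹ • R0 (⟨0, 0, 0, 1⟩ : ℍ[ℝ])) 0 0 = -1
    rw [Quaternion.normSq_def']
    simp [R0]
  rw [h2] at h1
  have h3 : ((1 : O3).1 : Matrix (Fin 3) (Fin 3) ℝ) 0 0 = 1 := by
    change (1 : Matrix (Fin 3) (Fin 3) ℝ) 0 0 = 1
    simp
  rw [h3] at h1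
  norm_num at h1

theorem mainO : (∃ W : Set S2, ¬ W.Countable ∧ TrivialStabilizer O3 W ∧
    ¬ PrecolouringExtension O3 W) ↔ (2 : Cardinal.{0}) ^ ℵ₁ = 2 ^ ℵ₀ := by
  obtain ⟨q, hq⟩ := exists_ne
  exact main repO ⟨rot q, hq⟩ (fun q => ⟨rot q, fun x => rfl⟩)

theorem mainSO : (∃ W : Set S2, ¬ W.Countable ∧ TrivialStabilizer SO3 W ∧
    ¬ PrecolouringExtension SO3 W) ↔ (2 : Cardinal.{0}) ^ ℵ₁ = 2 ^ ℵ₀ := by
  obtain ⟨q, hq⟩ := exists_ne
  refine main repSO ⟨⟨rot q, rot_mem q⟩, fun h => hq (congrArg Subtype.val h)⟩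
    (fun q => ⟨⟨rot q, rot_mem q⟩, fun x => rfl⟩)

end Pool.Agent.Q19.Sph
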