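import Pool.Agent.Q160.WPal5

/-!
# Sturmian words from the complexity function
-/

set_option autoImplicit false

namespace Pool.Agent.Q19.St

open Q160.WPal

/-- Sturmian: exactly `n + 1` factors of every length `n`. -/
def IsSt (u : ℕ → Bool) : Prop := ∀ n, cpx u n = n + 1

theorem fac_congr {u : ℕ → Bool} {p q n : ℕ} (h : fac u p n = fac u q n) {t : ℕ} (ht : t < n) :
    u (p + t) = u (q + t) := fac_eq_iff.1 h t ht

theorem fac_sub {u : ℕ → Bool} {p q n : ℕ} (h : fac u p n = fac u q n) {t m : ℕ}
    (ht : t + m ≤ n) : fac u (p + t) m = fac u (q + t) m := by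
  rw [fac_eq_iff] at h ⊢
  intro k hk
  have := h (t + k) (by omega)
  rwa [← add_assoc, ← add_assoc] at this

theorem fac_pre {u : ℕ → Bool} {p q n : ℕ} (h : fac u p n = fac u q n) {m : ℕ}
    (hm : m ≤ n) : fac u p m = fac u q m := by
  have := fac_sub h (t := 0) (m := m) (by omega)
  simpa using this

theorem fac_succ {u : ℕ → Bool} {p q n : ℕ} (h : fac u p n = fac u q n)
    (h' : u (p + n) = u (q + n)) : fac u p (n + 1) = fac u q (n + 1) := by
  rw [fac_eq_iff] at h ⊢
  intro k hk
  rcases Nat.lt_succ_iff_lt_or_eq.1 hk with hk | rfl
  · exact h k hk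
  · exact h'

theorem fac_shift {u : ℕ → Bool} {N p n : ℕ} : fac (fun k => u (N + k)) p n = fac u (N + p) n := by
  unfold fac
  apply List.map_congr_left
  intro k _
  simp only [add_assoc]

/-- determinism implies periodicity -/
theorem periodic_of_det {v : ℕ → Bool} {m p q : ℕ} (hpq : p < q) (h0 : fac v p m = fac v q m)
    (hdet : ∀ t, fac v (p + t) m = fac v (q + t) m → v (p + t + m) = v (q + t + m)) :
    ∀ k, p ≤ k → v (k + (q - p)) = v k := by
  have key : ∀ t, fac v (p + t) m = fac v (q + t) m := by
    intro t
    induction t with
    | zero => exact h0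
    | succ t ih =>
      have h1 := fac_succ ih (hdet t ih)
      exact fac_sub h1 (t := 1) (m := m) (by omega)
  intro k hk
  have h1 := fac_succ (key (k - p)) (hdet (k - p) (key (k - p)))
  have h2 := fac_congr h1 (t := 0) (by omega)
  rw [show q + (k - p) + 0 = k + (q - p) by omega, show p + (k - p) + 0 = k by omega] at h2
  exact h2.symm

theorem facN_nonempty (u : ℕ → Bool) (n : ℕ) : (facN u n).Nonempty := ⟨fac u 0 n, 0, rfl⟩

theorem cpx_zero (u : ℕ → Bool) : cpx u 0 = 1 := by
  unfold cpx
  rw [Set.ncard_eq_one]
  refine ⟨[], ?_⟩
  ext w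
  constructor
  · rintro ⟨i, rfl⟩
    simp [fac]
  · intro h
    rw [Set.mem_singleton_iff] at h
    exact ⟨0, by rw [h]; simp [fac]⟩

theorem take_image (u : ℕ → Bool) (n : ℕ) : (fun w => w.take n) '' facN u (n + 1) = facN u n := by
  ext w
  constructor
  · rintro ⟨_, ⟨i, rfl⟩, rfl⟩
    exact ⟨i, fac_take (by omega)⟩
  · rintro ⟨i, rfl⟩
    exact ⟨_, ⟨i, rfl⟩, fac_take (by omega)⟩

theorem tail_image {u : ℕ → Bool} (hr : Recurrent u) (n : ℕ) :
    (fun w => w.drop 1) '' facN u (n + 1) = facN u n := by
  ext w
  constructor
  · rintro ⟨_, ⟨i, rfl⟩, rfl⟩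
    refine ⟨i + 1, ?_⟩
    change (fac u i (n + 1)).drop 1 = _
    rw [fac_drop (by omega)]
    simp
  · rintro ⟨i, rfl⟩
    obtain ⟨j, hj, hj2⟩ := hr i n 1
    refine ⟨_, ⟨j - 1, rfl⟩, ?_⟩
    simp only
    rw [fac_drop (by omega), ← hj2, show j - 1 + 1 = j by omega]
    simp

/-- two collisions of a surjection which drops the cardinality by one have the same value -/
theorem collision {α β : Type*} {A : Set α} {B : Set β} (hA : A.Finite) {f : α → β}
    (hf : f '' A = B) (hc : A.ncard = B.ncard + 1) {a a' b b' : α} (ha : a ∈ A)
    (hb : b ∈ A) (hb' : b' ∈ A) (ha' : a' ∈ A) (hne : a ≠ a') (hne' : b ≠ b')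
    (h : f a = f a') (h' : f b = f b') : f a = f b := by
  by_contra hcon
  have hab : a' ≠ b' := by
    rintro rfl
    exact hcon (h.trans h'.symm)
  have h1 : f '' (A \ {a', b'}) = B := by
    apply Set.Subset.antisymm
    · rw [← hf]
      exact Set.image_mono Set.sdiff_subset
    · rw [← hf]
      rintro _ ⟨x, hx, rfl⟩
      by_cases hxa : x = a'
      · refine ⟨a, ⟨ha, ?_⟩, by rw [h, hxa]⟩
        simp only [Set.mem_insert_iff, Set.mem_singleton_iff, not_or]
        refine ⟨hne, ?_⟩
        rintro rfl
        exact hcon h'.symm
      · by_cases hxb : x = b'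
        · refine ⟨b, ⟨hb, ?_⟩, by rw [h', hxb]⟩
          simp only [Set.mem_insert_iff, Set.mem_singleton_iff, not_or]
          refine ⟨?_, hne'⟩
          rintro rfl
          exact hcon h
        · exact ⟨x, ⟨hx, by simp [hxa, hxb]⟩, rfl⟩
  have h2 : (A \ {a', b'}).ncard + 2 = A.ncard := by
    have h3 : ({a', b'} : Set α).ncard = 2 := Set.ncard_pair hab
    rw [← h3]
    apply Set.ncard_sdiff_add_ncard_of_subset _ hA
    intro x hx
    rcases hx with rfl | hx
    · exact ha'
    · rw [Set.mem_singleton_iff] at hx
      rw [hx]; exact hb'
  have h4 := Set.ncard_image_le (f := f) (hA.subset (Set.sdiff_subset (t := {a', b'})))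
  rw [h1] at h4
  omega

/-- the block at `p` of length `n` is right special -/
def RS (u : ℕ → Bool) (n p : ℕ) : Prop := ∃ q, fac u q n = fac u p n ∧ u (q + n) ≠ u (p + n)

theorem RS.congr {u : ℕ → Bool} {n p p' : ℕ} (h : RS u n p) (he : fac u p n = fac u p' n) :
    RS u n p' := by
  obtain ⟨q, hq, hq'⟩ := h
  by_cases h' : u (p' + n) = u (p + n)
  · exact ⟨q, hq.trans he, by rwa [h']⟩
  · exact ⟨p, he, fun h'' => h' h''.symm⟩

theorem RS.suffix {u : ℕ → Bool} {n p : ℕ} (h : RS u (n + 1) p) : RS u n (p + 1) := by
  obtain ⟨q, hq, hq'⟩ := h
  refine ⟨q + 1, fac_sub hq (t := 1) (by omega), ?_⟩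
  rwa [show q + 1 + n = q + (n + 1) by omega, show p + 1 + n = p + (n + 1) by omega]

section St

variable {u : ℕ → Bool}

theorem not_per (hu : IsSt u) {N q : ℕ} (hq : 0 < q) (h : ∀ p, N ≤ p → u (p + q) = u p) :
    False := by
  have h1 := hu (N + q)
  have hsub : facN u (N + q) ⊆ (fun i => fac u i (N + q)) '' (Set.Iio (N + q)) := by
    rintro _ ⟨i, rfl⟩
    induction i using Nat.strong_induction_on with
    | _ i ih =>
      by_cases hi : i < N + q
      · exact ⟨i, hi, rfl⟩
      · have : fac u i (N + q) = fac u (i - q) (N + q) := by
          rw [fac_eq_iff]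
          intro t _
          have := h (i - q + t) (by omega)
          rw [← this]
          congr 1
          omega
        rw [this]
        exact ih (i - q) (by omega)
  have h2 := Set.ncard_le_ncard hsub ((Set.finite_Iio (N + q)).image _)
  have h3 := Set.ncard_image_le (f := fun i => fac u i (N + q)) (Set.finite_Iio (N + q))
  have h4 : (Set.Iio (N + q)).ncard = N + q := by
    rw [← Finset.coe_range, Set.ncard_coe_finset, Finset.card_range]
  unfold cpx at h1
  omega

theorem recurrent (hu : IsSt u) : Recurrent u := by
  intro i n N
  by_contra hcon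
  push Not at hcon
  set v : ℕ → Bool := fun k => u (N + k) with hv
  have hvn : cpx v n ≤ n := by
    have hsub : facN v n ⊆ facN u n \ {fac u i n} := by
      rintro _ ⟨j, rfl⟩
      rw [fac_shift]
      exact ⟨⟨N + j, rfl⟩, fun h => hcon (N + j) (by omega) h⟩
    have h1 := Set.ncard_le_ncard hsub ((facN_finite' u n).sdiff)
    have h2 := Set.ncard_sdiff_singleton_add_one (show fac u i n ∈ facN u n from ⟨i, rfl⟩)
      (facN_finite' u n)
    have h3 := hu n
    unfold cpx at h3 ⊢
    omega
  obtain ⟨m, hm, hm2⟩ : ∃ m, m < n ∧ cpx v (m + 1) ≤ cpx v m := by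
    by_contra hc
    push Not at hc
    have : ∀ m, m ≤ n → m + 1 ≤ cpx v m := by
      intro m
      induction m with
      | zero => intro _; rw [cpx_zero]
      | succ m ih =>
        intro hm
        have := hc m (by omega)
        have := ih (by omega)
        omega
    have := this n le_rfl
    omega
  have hdet : ∀ p q, fac v p m = fac v q m → v (p + m) = v (q + m) := by
    intro p q hpq
    by_contra hne
    have hinj : Set.InjOn (fun w : List Bool => w.take m) (facN v (m + 1)) := by
      apply Set.injOn_of_ncard_image_eq
      · rw [take_image]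
        have := Set.ncard_image_le (f := fun w : List Bool => w.take m) (facN_finite' v (m + 1))
        rw [take_image] at this
        unfold cpx at hm2
        omega
      · exact facN_finite' v (m + 1)
    have h1 := hinj (show fac v p (m + 1) ∈ facN v (m + 1) from ⟨p, rfl⟩)
      (show fac v q (m + 1) ∈ facN v (m + 1) from ⟨q, rfl⟩) (by
        simp only
        rw [fac_take (by omega), fac_take (by omega), hpq])
    exact hne (fac_congr h1 (by omega))
  obtain ⟨p, q, hpq, he⟩ : ∃ p q, p < q ∧ fac v p m = fac v q m := by
    have hfin : Set.Finite (Set.range (fun p => fac v p m)) := by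
      apply (facN_finite' v m).subset
      rintro _ ⟨p, rfl⟩
      exact ⟨p, rfl⟩
    have := Set.not_injOn_infinite_finite_image (s := Set.univ) (f := fun p => fac v p m)
      Set.infinite_univ (by rwa [Set.image_univ])
    rw [Set.injOn_univ] at this
    unfold Function.Injective at this
    push Not at this
    obtain ⟨p, q, h1, h2⟩ := this
    rcases lt_or_gt_of_ne h2 with h | h
    · exact ⟨p, q, h, h1⟩
    · exact ⟨q, p, h, h1.symm⟩
  have hper := periodic_of_det hpq he (fun t ht => hdet _ _ ht)
  refine not_per hu (N := N + p) (q := q - p) (by omega) ?_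
  intro k hk
  have := hper (k - N) (by omega)
  simp only [hv] at this
  rw [show N + (k - N + (q - p)) = k + (q - p) by omega, show N + (k - N) = k by omega] at this
  exact this

theorem RS_unique (hu : IsSt u) {n p p' : ℕ} (h : RS u n p) (h' : RS u n p') :
    fac u p n = fac u p' n := by
  obtain ⟨q, hq, hq'⟩ := h
  obtain ⟨r, hr, hr'⟩ := h'
  have := collision (facN_finite' u (n + 1)) (take_image u n)
    (by have h1 := hu (n + 1); have h2 := hu n; unfold cpx at h1 h2; omega)
    (a := fac u p (n + 1)) (a' := fac u q (n + 1)) (b := fac u p' (n + 1))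
    (b' := fac u r (n + 1)) ⟨p, rfl⟩ ⟨p', rfl⟩ ⟨r, rfl⟩ ⟨q, rfl⟩
    (fun h => hq' (fac_congr h (by omega)).symm) (fun h => hr' (fac_congr h (by omega)).symm)
    (by rw [fac_take (by omega), fac_take (by omega), hq])
    (by rw [fac_take (by omega), fac_take (by omega), hr])
  rwa [fac_take (by omega), fac_take (by omega)] at this

theorem RS_exists (hu : IsSt u) (n : ℕ) : ∃ p, RS u n p := by
  by_contra hcon
  push Not at hcon
  have hinj : Set.InjOn (fun w : List Bool => w.take n) (facN u (n + 1)) := by
    rintro _ ⟨p, rfl⟩ _ ⟨q, rfl⟩ h
    simp only at h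
    rw [fac_take (by omega), fac_take (by omega)] at h
    apply fac_succ h
    by_contra hne
    exact hcon q ⟨p, h, hne⟩
  have h1 := hinj.ncard_image
  rw [take_image] at h1
  have h2 := hu (n + 1)
  have h3 := hu n
  unfold cpx at h2 h3
  omega

/-- window lemma -/
theorem window (hu : IsSt u) (n p : ℕ) : ∃ t, t ≤ n ∧ RS u n (p + t) := by
  by_contra hcon
  push Not at hcon
  obtain ⟨r, hr⟩ := RS_exists hu n
  -- two equal blocks in the window
  obtain ⟨i, j, hi, hij, hj, he⟩ : ∃ i j, p ≤ i ∧ i < j ∧ j ≤ p + n ∧
      fac u i n = fac u j n := by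
    have hmaps : ∀ t ∈ Finset.range (n + 1), fac u (p + t) n ∈
        ((facN_finite' u n).toFinset.erase (fac u r n)) := by
      intro t ht
      rw [Finset.mem_range] at ht
      refine Finset.mem_erase.2 ⟨?_, ?_⟩
      · intro h
        exact hcon t (by omega) (hr.congr h.symm)
      · rw [Set.Finite.mem_toFinset]
        exact ⟨p + t, rfl⟩
    have hcard : ((facN_finite' u n).toFinset.erase (fac u r n)).card < (Finset.range (n + 1)).card := by
      rw [Finset.card_range, Finset.card_erase_of_mem (by
        rw [Set.Finite.mem_toFinset]; exact ⟨r, rfl⟩), ← Set.ncard_eq_toFinset_card _ (facN_finite' u n)]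
      have := hu n
      unfold cpx at this
      omega
    obtain ⟨x, hx, y, hy, hxy, hf⟩ := Finset.exists_ne_map_eq_of_card_lt_of_maps_to hcard hmaps
    rw [Finset.mem_range] at hx hy
    rcases lt_or_gt_of_ne hxy with h | h
    · exact ⟨p + x, p + y, by omega, by omega, by omega, hf⟩
    · exact ⟨p + y, p + x, by omega, by omega, by omega, hf.symm⟩
  have key : ∀ t, fac u (i + t) n = fac u (j + t) n ∧ ¬ RS u n (i + t) := by
    intro t
    induction t using Nat.strong_induction_on with
    | _ t ih =>
      have h1 : fac u (i + t) n = fac u (j + t) n := by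
        rcases t with _ | t
        · exact he
        · obtain ⟨h1, h2⟩ := ih t (by omega)
          have h3 : u (i + t + n) = u (j + t + n) := by
            by_contra hne
            exact h2 ⟨j + t, h1.symm, fun h => hne h.symm⟩
          have h4 := fac_sub (fac_succ h1 h3) (t := 1) (m := n) (by omega)
          rwa [add_assoc, add_assoc] at h4
      refine ⟨h1, ?_⟩
      by_cases ht : t < j - i
      · have := hcon (i + t - p) (by omega)
        rwa [show p + (i + t - p) = i + t by omega] at this
      · obtain ⟨h2, h3⟩ := ih (t - (j - i)) (by omega)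
        rw [show j + (t - (j - i)) = i + t by omega] at h2
        intro h4
        exact h3 (h4.congr h2.symm)
  refine not_per hu (N := i) (q := j - i) (by omega) ?_
  apply periodic_of_det (m := n) hij he
  intro t ht
  by_contra hne
  exact (key t).2 ⟨j + t, ht.symm, fun h => hne h.symm⟩

/-- every block extends to a right special block -/
theorem RS_ext (hu : IsSt u) (p n : ℕ) : ∃ m, n ≤ m ∧ RS u m p := by
  classical
  obtain ⟨q, hq, he⟩ := recurrent hu p n (p + 1)
  have hex : ∃ s, u (p + s) ≠ u (q + s) := by
    by_contra hcon
    push Not at hcon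
    refine not_per hu (N := p) (q := q - p) (by omega) ?_
    intro k hk
    have := hcon (k - p)
    rw [show p + (k - p) = k by omega, show q + (k - p) = k + (q - p) by omega] at this
    exact this.symm
  refine ⟨Nat.find hex, ?_, q, ?_, fun h => Nat.find_spec hex h.symm⟩
  · by_contra hlt
    push Not at hlt
    exact Nat.find_spec hex (fac_congr he hlt).symm
  · rw [fac_eq_iff]
    intro t ht
    have := Nat.find_min hex ht
    push Not at this
    exact this.symm

/-- uniform recurrence -/
theorem unif (hu : IsSt u) (p n : ℕ) : ∃ N, ∀ q, ∃ t, t ≤ N ∧ fac u (q + t) n = fac u p n := by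
  obtain ⟨m, hm, hRS⟩ := RS_ext hu p n
  refine ⟨m, fun q => ?_⟩
  obtain ⟨t, ht, h⟩ := window hu m q
  exact ⟨t, ht, fac_pre (RS_unique hu h hRS) hm⟩

/-- no palindrome has both `0w0` and `1w1` -/
theorem no_two_pal (hu : IsSt u) {p q n : ℕ} (he : fac u (p + 1) n = fac u (q + 1) n)
    (hpal : ∀ t, t < n → u (p + 1 + t) = u (p + 1 + (n - 1 - t)))
    (hp : u p = u (p + n + 1)) (hq : u q = u (q + n + 1)) (hne : u p ≠ u q) : False := by
  obtain ⟨r, hr⟩ := RS_exists hu (n + 1)
  have hRS : RS u n (p + 1) := ⟨q + 1, he.symm, by
    rw [show q + 1 + n = q + n + 1 by omega, show p + 1 + n = p + n + 1 by omega, ← hp, ← hq]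
    exact fun h => hne h.symm⟩
  have hw : fac u (r + 1) n = fac u (p + 1) n := RS_unique hu hr.suffix hRS
  -- auxiliary statement for the letter which is not `u r`
  have aux : ∀ s, fac u (s + 1) n = fac u (p + 1) n → u s = u (s + n + 1) → u s ≠ u r → False := by
    intro s hs hs2 hsr
    obtain ⟨t, ht, hRt⟩ := window hu (n + 1) s
    have hb := RS_unique hu hRt hr
    have h0 : u (s + t) = u r := fac_congr hb (t := 0) (by omega)
    have hrest : ∀ k, k < n → u (s + t + (1 + k)) = u (p + 1 + k) := by
      intro k hk
      have h1 := fac_congr hb (t := 1 + k) (by omega)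
      have h2 := fac_congr hw (t := k) hk
      rw [h1, ← add_assoc]
      exact h2
    have hws : ∀ k, k < n → u (s + (1 + k)) = u (p + 1 + k) := by
      intro k hk
      have h2 := fac_congr hs (t := k) hk
      rw [← add_assoc]
      exact h2
    rcases Nat.eq_zero_or_pos t with rfl | htp
    · exact hsr h0
    · by_cases htn : t = n + 1
      · subst htn
        apply hsr
        rw [hs2, ← h0]
        rfl
      · have e1 : u (p + 1 + (t - 1)) = u r := by
          rw [← h0, ← hws (t - 1) (by omega)]
          congr 1
          omega
        have e2 : u (p + 1 + (n - t)) = u (s + n + 1) := by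
          rw [← hrest (n - t) (by omega)]
          congr 1
          omega
        have e3 := hpal (t - 1) (by omega)
        rw [show n - 1 - (t - 1) = n - t by omega, e1, e2, ← hs2] at e3
        exact hsr e3.symm
  by_cases hpr : u p = u r
  · exact aux q he.symm hq (fun h => hne (hpr.trans h.symm))
  · exact aux p rfl hp hpr

/-- the language is closed under reversal -/
theorem closedRev (hu : IsSt u) : ClosedRev u := by
  have hrec := recurrent hu
  have key : ∀ n, ∀ p, ∃ q, fac u q n = (fac u p n).reverse := by
    intro n
    induction n using Nat.strong_induction_on with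
    | _ n ih =>
      intro p
      rcases n with _ | _ | n
      · exact ⟨p, by simp [fac]⟩
      · refine ⟨p, ?_⟩
        rw [fac_rev_iff]
        intro t ht
        congr 1
        omega
      · obtain ⟨r1, hr1⟩ := ih (n + 1) (by omega) p
        obtain ⟨r2, hr2⟩ := ih (n + 1) (by omega) (p + 1)
        obtain ⟨s1, hs1, hs1'⟩ := hrec r1 (n + 1) 1
        obtain ⟨r, rfl⟩ : ∃ r, s1 = r + 1 := ⟨s1 - 1, by omega⟩
        rw [← hs1'] at hr1
        rw [fac_rev_iff] at hr1 hr2
        -- `rev w` at `r + 1` followed by `u p`, and at `r2 + 1` preceded by `u (p + n + 1)`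
        have ha : u (r + 1 + n) = u p := by
          have := hr1 n (by omega)
          rw [this]
          congr 1
          omega
        have hb : u r2 = u (p + n + 1) := by
          have := hr2 0 (by omega)
          rw [show r2 + 0 = r2 by omega] at this
          rw [this]
          congr 1
          omega
        have hw1 : ∀ t, t < n → u (r + 1 + t) = u (p + (n - t)) := by
          intro t ht
          have := hr1 t (by omega)
          rw [this]
          congr 1
        have hw2 : ∀ t, t < n → u (r2 + 1 + t) = u (p + (n - t)) := by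
          intro t ht
          have := hr2 (1 + t) (by omega)
          rw [add_assoc, this]
          congr 1
          omega
        by_cases hc : u r = u (p + n + 1)
        · refine ⟨r, ?_⟩
          rw [fac_rev_iff]
          intro t ht
          rcases Nat.eq_zero_or_pos t with rfl | htp
          · rw [show r + 0 = r by omega, hc]
            congr 1
          · by_cases htn : t = n + 1
            · subst htn
              rw [show r + (n + 1) = r + 1 + n by omega, ha]
              congr 1
              omega
            · have := hw1 (t - 1) (by omega)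
              rw [show r + 1 + (t - 1) = r + t by omega] at this
              rw [this]
              congr 1
              omega
        by_cases hd : u (r2 + 1 + n) = u p
        · refine ⟨r2, ?_⟩
          rw [fac_rev_iff]
          intro t ht
          rcases Nat.eq_zero_or_pos t with rfl | htp
          · rw [show r2 + 0 = r2 by omega, hb]
            congr 1
          · by_cases htn : t = n + 1
            · subst htn
              rw [show r2 + (n + 1) = r2 + 1 + n by omega, hd]
              congr 1
              omega
            · have := hw2 (t - 1) (by omega)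
              rw [show r2 + 1 + (t - 1) = r2 + t by omega] at this
              rw [this]
              congr 1
              omega
        -- `rev w` is right special
        have hfac : fac u (r + 1) n = fac u (r2 + 1) n := by
          rw [fac_eq_iff]
          intro t ht
          rw [hw1 t ht, hw2 t ht]
        have hRS1 : RS u n (r + 1) := ⟨r2 + 1, hfac.symm, by rw [ha]; exact hd⟩
        -- `w` is right special: reverse the block at `r`
        obtain ⟨r3, hr3⟩ := ih (n + 1) (by omega) r
        rw [fac_rev_iff] at hr3
        have hw3 : fac u (p + 1) n = fac u r3 n := by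
          rw [fac_eq_iff]
          intro t ht
          have h1 := hr3 t (by omega)
          have h2 := hw1 (n - 1 - t) (by omega)
          rw [h1, show r + (n + 1 - 1 - t) = r + 1 + (n - 1 - t) by omega, h2]
          congr 1
          omega
        have hRS2 : RS u n (p + 1) := by
          refine ⟨r3, hw3.symm, ?_⟩
          have h1 := hr3 n (by omega)
          rw [show n + 1 - 1 - n = 0 by omega] at h1
          rw [h1, show r + 0 = r by omega, show p + 1 + n = p + n + 1 by omega]
          exact hc
        have hww : fac u (p + 1) n = fac u (r + 1) n := RS_unique hu hRS2 hRS1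
        -- so `w` is a palindrome
        have hpal : ∀ t, t < n → u (p + 1 + t) = u (p + 1 + (n - 1 - t)) := by
          intro t ht
          have h1 := fac_congr hww ht
          rw [h1, hw1 t ht]
          congr 1
          omega
        by_cases hab : u p = u (p + n + 1)
        · refine ⟨p, ?_⟩
          rw [fac_rev_iff]
          intro t ht
          rcases Nat.eq_zero_or_pos t with rfl | htp
          · rw [show p + 0 = p by omega, hab]
            congr 1
          · by_cases htn : t = n + 1
            · subst htn
              rw [show p + (n + 1) = p + n + 1 by omega, ← hab]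
              congr 1
              omega
            · have := hpal (t - 1) (by omega)
              rw [show p + 1 + (t - 1) = p + t by omega] at this
              rw [this]
              congr 1
              omega
        · exfalso
          -- `awa` at `r`, `bwb` at `r2`
          have h1 : u r = u p := by
            revert hc hab
            cases u r <;> cases u p <;> cases u (p + n + 1) <;> decide
          have h2 : u (r2 + 1 + n) = u r2 := by
            rw [hb]
            revert hd hab
            cases u (r2 + 1 + n) <;> cases u p <;> cases u (p + n + 1) <;> decide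
          refine no_two_pal hu (p := r) (q := r2) hfac ?_ ?_ ?_ ?_
          · intro t ht
            rw [← fac_congr hww ht, ← fac_congr hww (t := n - 1 - t) (by omega)]
            exact hpal t ht
          · rw [h1, show r + n + 1 = r + 1 + n by omega, ha]
          · rw [show r2 + n + 1 = r2 + 1 + n by omega, h2]
          · rw [h1, hb]
            exact hab
  intro p n
  obtain ⟨q, hq⟩ := key n p
  exact ⟨q, hq.symm⟩

end St

end Pool.Agent.Q19.St
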