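import Pool.Agent.Q19.StA

/-!
# Palindromes of Sturmian words, and skew products over Sturmian words
-/

set_option autoImplicit false

namespace Pool.Agent.Q19.St

open Q160.WPal

/-- parity of the number of ones -/
def par (w : List Bool) : Bool := w.foldr xor false

@[simp] theorem par_nil : par [] = false := rfl

@[simp] theorem par_cons (a : Bool) (w : List Bool) : par (a :: w) = xor a (par w) := rfl

theorem par_append (v w : List Bool) : par (v ++ w) = xor (par v) (par w) := by
  induction v with
  | nil => simp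
  | cons a v ih => simp [ih]

theorem par_wrap (a : Bool) (w : List Bool) : par (a :: (w ++ [a])) = par w := by
  simp [par_append]
  cases a <;> cases par w <;> rfl

/-- palindromic factors of length `n` with an even number of ones -/
def epal (u : ℕ → Bool) (n : ℕ) : Set (List Bool) := {w | w ∈ palN u n ∧ par w = false}

/-- palindromic factors of length `n` with an odd number of ones -/
def opal (u : ℕ → Bool) (n : ℕ) : Set (List Bool) := {w | w ∈ palN u n ∧ par w = true}

theorem palN_finite (u : ℕ → Bool) (n : ℕ) : (palN u n).Finite :=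
  (facN_finite' u n).subset (fun _ h => h.1)

theorem epal_finite (u : ℕ → Bool) (n : ℕ) : (epal u n).Finite :=
  (palN_finite u n).subset (fun _ h => h.1)

theorem opal_finite (u : ℕ → Bool) (n : ℕ) : (opal u n).Finite :=
  (palN_finite u n).subset (fun _ h => h.1)

theorem epal_add_opal (u : ℕ → Bool) (n : ℕ) : (epal u n).ncard + (opal u n).ncard = pcx u n := by
  unfold pcx
  rw [← Set.ncard_union_eq _ (epal_finite u n) (opal_finite u n)]
  · congr 1
    ext w
    simp only [epal, opal, Set.mem_union, Set.mem_setOf_eq]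
    cases par w <;> simp
  · rw [Set.disjoint_left]
    rintro w ⟨_, h⟩ ⟨_, h'⟩
    rw [h] at h'
    exact absurd h' (by decide)

theorem fac_wrap (u : ℕ → Bool) (p n : ℕ) :
    fac u p (n + 2) = u p :: (fac u (p + 1) n ++ [u (p + n + 1)]) := by
  rw [show n + 2 = 1 + (n + 1) by omega, fac_append, fac_append]
  simp [fac]
  congr 1
  omega

/-- the letters of a palindromic block at `p + 1` -/
theorem pal_letters {u : ℕ → Bool} {p n : ℕ} (h : (fac u p n).reverse = fac u p n) :
    ∀ t, t < n → u (p + t) = u (p + (n - 1 - t)) := by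
  rw [eq_comm, fac_rev_iff] at h
  exact h

section

variable {u : ℕ → Bool}

/-- every palindromic factor has a palindromic extension -/
theorem pal_ext (hu : IsSt u) {w : List Bool} {n : ℕ} (hw : w ∈ palN u n) :
    ∃ a, (a :: (w ++ [a])) ∈ palN u (n + 2) := by
  obtain ⟨⟨i, rfl⟩, hpal⟩ := hw
  obtain ⟨j, hj, hij⟩ := recurrent hu i n 1
  obtain ⟨p, rfl⟩ : ∃ p, j = p + 1 := ⟨j - 1, by omega⟩
  rw [← hij] at hpal ⊢
  have hrevext : ∀ a, (a :: (fac u (p + 1) n ++ [a])).reverse =
      a :: (fac u (p + 1) n ++ [a]) := by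
    intro a
    simp [hpal]
  by_cases hab : u p = u (p + n + 1)
  · refine ⟨u p, ⟨p, ?_⟩, hrevext _⟩
    rw [fac_wrap, ← hab]
  · -- the reversed block
    obtain ⟨q, hq⟩ := closedRev hu p (n + 2)
    rw [fac_wrap, fac_wrap] at hq
    simp only [List.reverse_cons, List.reverse_append, List.reverse_nil, List.nil_append,
      List.singleton_append, hpal, List.cons_append, List.cons.injEq] at hq
    obtain ⟨hq1, hq2⟩ := hq
    have hq3 : fac u (p + 1) n = fac u (q + 1) n := List.append_inj_left hq2 (by simp)
    have hq4 : u p = u (q + n + 1) := by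
      have := List.append_inj_right hq2 (by simp)
      simpa using this
    have hRS : RS u n (p + 1) := ⟨q + 1, hq3.symm, by
      rw [show q + 1 + n = q + n + 1 by omega, ← hq4, show p + 1 + n = p + n + 1 by omega]
      exact hab⟩
    obtain ⟨r, hr⟩ := RS_exists hu (n + 1)
    have hrw : fac u (r + 1) n = fac u (p + 1) n := RS_unique hu hr.suffix hRS
    obtain ⟨s, hs, hs2⟩ := hr
    have hsw : fac u (s + 1) n = fac u (p + 1) n := by
      rw [← hrw]
      exact fac_sub hs (t := 1) (by omega)
    have hsr : u s = u r := fac_congr hs (t := 0) (by omega)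
    rw [show s + (n + 1) = s + n + 1 by omega, show r + (n + 1) = r + n + 1 by omega] at hs2
    by_cases h1 : u r = u (r + n + 1)
    · refine ⟨u r, ⟨r, ?_⟩, hrevext _⟩
      rw [fac_wrap, hrw, ← h1]
    · refine ⟨u s, ⟨s, ?_⟩, hrevext _⟩
      have h2 : u s = u (s + n + 1) := by
        rw [hsr]
        revert h1 hs2
        cases u r <;> cases u (r + n + 1) <;> cases u (s + n + 1) <;> decide
      rw [fac_wrap, hsw, ← h2]

theorem pal_ext_unique (hu : IsSt u) {w : List Bool} {n : ℕ} {a b : Bool}
    (ha : (a :: (w ++ [a])) ∈ palN u (n + 2)) (hb : (b :: (w ++ [b])) ∈ palN u (n + 2)) :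
    a = b := by
  obtain ⟨⟨i, hi⟩, hpi⟩ := ha
  obtain ⟨⟨j, hj⟩, hpj⟩ := hb
  rw [fac_wrap, List.cons.injEq] at hi hj
  have hlen : w.length = n := by
    have := congrArg List.length hi.2
    simpa using this
  have hi2 : w = fac u (i + 1) n := List.append_inj_left hi.2 (by simp [hlen])
  have hi3 : a = u (i + n + 1) := by
    have := List.append_inj_right hi.2 (by simp [hlen])
    simpa using this
  have hj2 : w = fac u (j + 1) n := List.append_inj_left hj.2 (by simp [hlen])
  have hj3 : b = u (j + n + 1) := by
    have := List.append_inj_right hj.2 (by simp [hlen])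
    simpa using this
  by_contra hne
  have hwp : (fac u (i + 1) n).reverse = fac u (i + 1) n := by
    rw [← hi2]
    have : (a :: (w ++ [a])).reverse = a :: (w.reverse ++ [a]) := by simp
    rw [this, List.cons.injEq] at hpi
    exact List.append_inj_left hpi.2 (by simp)
  refine no_two_pal hu (p := i) (q := j) (hi2.symm.trans hj2) (pal_letters hwp) ?_ ?_ ?_
  · rw [← hi.1, ← hi3]
  · rw [← hj.1, ← hj3]
  · rw [← hi.1, ← hj.1]
    exact hne

theorem epal_step (hu : IsSt u) (n : ℕ) : (epal u (n + 2)).ncard = (epal u n).ncard := by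
  have himg : (fun w : List Bool => w.tail.dropLast) '' epal u (n + 2) = epal u n := by
    ext w
    constructor
    · rintro ⟨_, ⟨⟨⟨i, rfl⟩, hp⟩, hpar⟩, rfl⟩
      simp only
      have hlet := pal_letters hp
      have he : u (i + n + 1) = u i := by
        have := hlet (n + 1) (by omega)
        rw [show i + (n + 1) = i + n + 1 by omega] at this
        rw [this]
        congr 1
        omega
      rw [fac_wrap, he] at hp hpar ⊢
      simp only [List.tail_cons, List.dropLast_concat]
      refine ⟨⟨⟨i + 1, rfl⟩, ?_⟩, ?_⟩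
      · have : (u i :: (fac u (i + 1) n ++ [u i])).reverse =
            u i :: ((fac u (i + 1) n).reverse ++ [u i]) := by simp
        rw [this, List.cons.injEq] at hp
        exact List.append_inj_left hp.2 (by simp)
      · rwa [par_wrap] at hpar
    · rintro ⟨hw, hpar⟩
      obtain ⟨a, ha⟩ := pal_ext hu hw
      refine ⟨_, ⟨ha, ?_⟩, ?_⟩
      · rw [par_wrap, hpar]
      · simp
  rw [← himg, Set.InjOn.ncard_image]
  rintro v ⟨⟨⟨i, rfl⟩, hp⟩, hpar⟩ w ⟨⟨⟨j, rfl⟩, hp'⟩, hpar'⟩ h
  have e1 : u (i + n + 1) = u i := by
    have := pal_letters hp (n + 1) (by omega)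
    rw [show i + (n + 1) = i + n + 1 by omega] at this
    rw [this]
    congr 1
    omega
  have e2 : u (j + n + 1) = u j := by
    have := pal_letters hp' (n + 1) (by omega)
    rw [show j + (n + 1) = j + n + 1 by omega] at this
    rw [this]
    congr 1
    omega
  have m1 : fac u i (n + 2) ∈ palN u (n + 2) := ⟨⟨i, rfl⟩, hp⟩
  have m2 : fac u j (n + 2) ∈ palN u (n + 2) := ⟨⟨j, rfl⟩, hp'⟩
  simp only at h
  rw [fac_wrap, e1] at m1 h ⊢
  rw [fac_wrap, e2] at m2 h ⊢
  simp only [List.tail_cons, List.dropLast_concat] at h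
  rw [h] at m1 ⊢
  rw [pal_ext_unique hu m1 m2]

theorem epal_one (hu : IsSt u) (n : ℕ) : (epal u n).ncard = 1 := by
  induction n using Nat.strong_induction_on with
  | _ n ih =>
    rcases n with _ | _ | n
    · rw [Set.ncard_eq_one]
      refine ⟨[], ?_⟩
      ext w
      constructor
      · rintro ⟨⟨⟨i, rfl⟩, _⟩, _⟩
        simp [fac]
      · intro h
        rw [Set.mem_singleton_iff] at h
        subst h
        exact ⟨⟨⟨0, by simp [fac]⟩, rfl⟩, rfl⟩
    · -- the letter `false` occurs
      have hex : ∃ i, u i = false := by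
        by_contra hcon
        push Not at hcon
        refine not_per hu (N := 0) (q := 1) (by omega) ?_
        intro p _
        have h1 := hcon p
        have h2 := hcon (p + 1)
        revert h1 h2
        cases u p <;> cases u (p + 1) <;> decide
      obtain ⟨i, hi⟩ := hex
      rw [Set.ncard_eq_one]
      refine ⟨[false], ?_⟩
      ext w
      constructor
      · rintro ⟨⟨⟨j, rfl⟩, _⟩, hpar⟩
        have : fac u j 1 = [u j] := by simp [fac]
        rw [show 0 + 1 = 1 by rfl, this] at hpar ⊢
        simp only [par_cons, par_nil, Bool.xor_false] at hpar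
        rw [hpar]
        rfl
      · intro h
        rw [Set.mem_singleton_iff] at h
        subst h
        refine ⟨⟨⟨i, ?_⟩, rfl⟩, rfl⟩
        simp [fac, hi]
    · rw [epal_step hu, ih n (by omega)]

/-- **All states.** -/
theorem all_states (hu : IsSt u) {X : Type} [Fintype X] [DecidableEq X]
    (T : Bool → X → X) (hT : ∀ a, Function.Injective (T a)) (s : ℕ → X)
    (hs : ∀ p, s (p + 1) = T (u p) (s p))
    (htr : ∀ F : Finset X, F.Nonempty → (∀ a, F.image (T a) = F) → F = Finset.univ)
    (p n : ℕ) (g : X) : ∃ q, fac u q n = fac u p n ∧ s q = g := by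
  classical
  let V : ℕ → ℕ → Finset X := fun p n =>
    Finset.univ.filter (fun x => ∃ q, fac u q n = fac u p n ∧ s q = x)
  have hV : ∀ p n x, x ∈ V p n ↔ ∃ q, fac u q n = fac u p n ∧ s q = x := by
    intro p n x
    simp [V]
  -- minimal size
  obtain ⟨⟨p0, n0⟩, hmin⟩ : ∃ pn : ℕ × ℕ, ∀ qm : ℕ × ℕ, (V pn.1 pn.2).card ≤ (V qm.1 qm.2).card := by
    have hex : ∃ M, ∃ pn : ℕ × ℕ, (V pn.1 pn.2).card = M := ⟨_, ⟨0, 0⟩, rfl⟩
    obtain ⟨pn, hpn⟩ := Nat.find_spec hex
    refine ⟨pn, fun qm => ?_⟩
    rw [hpn]
    exact Nat.find_min' hex ⟨qm, rfl⟩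
  set M := (V p0 n0).card with hM
  have hmin' : ∀ q m, M ≤ (V q m).card := fun q m => hmin (q, m)
  -- action of a word
  have hword : ∀ q q' t, fac u q t = fac u q' t → (s q = s q' ↔ s (q + t) = s (q' + t)) := by
    intro q q' t
    induction t with
    | zero => intro _; simp
    | succ t ih =>
      intro h
      rw [ih (fac_pre h (by omega)), ← add_assoc, ← add_assoc, hs, hs,
        fac_congr h (t := t) (by omega)]
      exact (hT _).eq_iff.symm
  obtain ⟨N, hN⟩ := unif hu p0 n0
  have hcard : ∀ q m, N + n0 ≤ m → (V q m).card = M := by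
    intro q m hm
    apply le_antisymm _ (hmin' q m)
    obtain ⟨t, ht, hw⟩ := hN q
    -- shift by `t`
    have hq : ∀ x : V q m, ∃ r, fac u r m = fac u q m ∧ s r = x.1 := fun x => (hV q m x.1).1 x.2
    choose r hr1 hr2 using hq
    have hinj : Function.Injective (fun x : V q m => (⟨s (r x + t), by
        rw [hV]
        exact ⟨r x + t, (fac_sub (hr1 x) (by omega)).trans hw, rfl⟩⟩ : V p0 n0)) := by
      intro x y hxy
      simp only [Subtype.mk.injEq] at hxy
      have h1 := (hword (r x) (r y) t (fac_pre ((hr1 x).trans (hr1 y).symm) (by omega))).2 hxy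
      rw [hr2, hr2] at h1
      exact Subtype.ext h1
    have := Fintype.card_le_of_injective _ hinj
    simpa [hM] using this
  set L := N + n0 with hL
  let F : ℕ → Finset X := fun q => V q L
  have hmono : ∀ q m m', m ≤ m' → V q m' ⊆ V q m := by
    intro q m m' h x hx
    rw [hV] at hx ⊢
    obtain ⟨r, hr, hrx⟩ := hx
    exact ⟨r, fac_pre hr h, hrx⟩
  have hF : ∀ q, F q = V q (L + 1) := by
    intro q
    symm
    apply Finset.eq_of_subset_of_card_le (hmono q _ _ (by omega))
    rw [hcard q L le_rfl, hcard q (L + 1) (by omega)]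
  have hTF : ∀ q, (F q).image (T (u q)) = F (q + 1) := by
    intro q
    apply Finset.eq_of_subset_of_card_le
    · intro y hy
      obtain ⟨x, hx, rfl⟩ := Finset.mem_image.1 hy
      rw [hF, hV] at hx
      obtain ⟨r, hr, rfl⟩ := hx
      change _ ∈ V (q + 1) L
      rw [hV]
      refine ⟨r + 1, fac_sub hr (t := 1) (by omega), ?_⟩
      have e0 : u r = u q := fac_congr hr (t := 0) (by omega)
      rw [hs, e0]
    · rw [Finset.card_image_of_injective _ (hT _)]
      change (V (q + 1) L).card ≤ (V q L).card
      rw [hcard _ _ le_rfl, hcard _ _ le_rfl]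
  have hD : ∀ m, m ≤ L → ∀ q q', fac u q (L - m) = fac u q' (L - m) → F q = F q' := by
    intro m
    induction m with
    | zero =>
      intro _ q q' h
      rw [Nat.sub_zero] at h
      ext x
      change x ∈ V q L ↔ x ∈ V q' L
      rw [hV, hV, h]
    | succ m ih =>
      intro hm q q' h
      have ih' := ih (by omega)
      set k := L - (m + 1) with hk
      rw [show L - m = k + 1 by omega] at ih'
      by_cases hlet : u (q + k) = u (q' + k)
      · exact ih' q q' (fac_succ h hlet)
      · have hRS : RS u k q := ⟨q', h.symm, fun h' => hlet h'.symm⟩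
        obtain ⟨r, hr⟩ := RS_exists hu (k + 1)
        have hrw : fac u (r + 1) k = fac u q k := RS_unique hu hr.suffix hRS
        obtain ⟨r', hr1, hr2⟩ := hr
        have hrw' : fac u (r' + 1) k = fac u q k := by
          rw [← hrw]
          exact fac_sub hr1 (t := 1) (by omega)
        have h0 : u r' = u r := fac_congr hr1 (t := 0) (by omega)
        have h1 : F r' = F r := ih' _ _ hr1
        have h2 : F (r' + 1) = F (r + 1) := by rw [← hTF, ← hTF, h0, h1]
        rw [show r' + (k + 1) = r' + 1 + k by omega, show r + (k + 1) = r + 1 + k by omega] at hr2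
        -- one of them extends like `q`, the other one like `q'`
        by_cases h3 : u (r + 1 + k) = u (q + k)
        · have h4 : u (r' + 1 + k) = u (q' + k) := by
            revert hlet hr2 h3
            cases u (q + k) <;> cases u (q' + k) <;> cases u (r' + 1 + k) <;>
              cases u (r + 1 + k) <;> decide
          rw [← ih' _ _ (fac_succ hrw h3), ← ih' _ _ (fac_succ (hrw'.trans h) h4), h2]
        · have h3' : u (r + 1 + k) = u (q' + k) := by
            revert hlet h3
            cases u (q + k) <;> cases u (q' + k) <;> cases u (r + 1 + k) <;> decide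
          have h4 : u (r' + 1 + k) = u (q + k) := by
            revert hlet hr2 h3
            cases u (q + k) <;> cases u (q' + k) <;> cases u (r' + 1 + k) <;>
              cases u (r + 1 + k) <;> decide
          rw [← ih' _ _ (fac_succ (hrw.trans h) h3'), ← ih' _ _ (fac_succ hrw' h4), h2]
  have hconst : ∀ q q', F q = F q' := by
    intro q q'
    apply hD L le_rfl q q'
    rw [Nat.sub_self]
    simp [fac]
  have hboth : ∀ a : Bool, ∃ q, u q = a := by
    intro a
    by_contra hcon
    push Not at hcon
    refine not_per hu (N := 0) (q := 1) (by omega) ?_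
    intro p _
    have h1 := hcon p
    have h2 := hcon (p + 1)
    revert h1 h2
    cases a <;> cases u p <;> cases u (p + 1) <;> decide
  have huniv : F 0 = Finset.univ := by
    apply htr
    · refine ⟨s 0, ?_⟩
      change s 0 ∈ V 0 L
      rw [hV]
      exact ⟨0, rfl, rfl⟩
    · intro a
      obtain ⟨q, rfl⟩ := hboth a
      rw [hconst 0 q, hTF, hconst (q + 1) q]
  have hMX : M = Fintype.card X := by
    rw [← hcard 0 L le_rfl]
    change (F 0).card = _
    rw [huniv, Finset.card_univ]
  have hall : V p n = Finset.univ := by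
    apply Finset.eq_univ_of_card
    apply le_antisymm (Finset.card_le_univ _)
    rw [← hMX]
    exact hmin' p n
  have : g ∈ V p n := by rw [hall]; exact Finset.mem_univ g
  exact (hV p n g).1 this

end

end Pool.Agent.Q19.St
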