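import Pool.Agent.Q19.StB

/-!
# Preimages under `S`
-/

set_option autoImplicit false

namespace Pool.Agent.Q19.St

open Q160.WPal

/-- `S x = y` -/
def Pre (x y : ℕ → Bool) : Prop := ∀ p, y p = xor (x p) (x (p + 1))

/-- every block of `y` is covered by blocks of `x` with both first letters -/
def Full (x y : ℕ → Bool) : Prop := ∀ p n, ∃ q, fac y q n = fac y p n ∧ x q ≠ x p

/-- language closed under complement -/
def ClosedComp (x : ℕ → Bool) : Prop := ∀ p n, ∃ q, ∀ t, t < n → x (q + t) = !x (p + t)

section

variable {x y : ℕ → Bool}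

theorem Pre.next (h : Pre x y) (p : ℕ) : x (p + 1) = xor (x p) (y p) := by
  rw [h p]
  cases x p <;> cases x (p + 1) <;> rfl

/-- equality of the first letters and of the differences -/
theorem Pre.eq (h : Pre x y) {p q n : ℕ} (h0 : x p = x q) (hf : fac y p n = fac y q n) :
    fac x p (n + 1) = fac x q (n + 1) := by
  rw [fac_eq_iff]
  intro t
  induction t with
  | zero => intro _; exact h0
  | succ t ih =>
    intro ht
    have h1 := ih (by omega)
    have h2 := fac_congr hf (t := t) (by omega)
    rw [← add_assoc, ← add_assoc, h.next, h.next, h1, h2]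

theorem Pre.compl (h : Pre x y) {p q n : ℕ} (h0 : x q ≠ x p) (hf : fac y q n = fac y p n) :
    ∀ t, t < n + 1 → x (q + t) = !x (p + t) := by
  intro t
  induction t with
  | zero =>
    intro _
    rw [add_zero, add_zero]
    revert h0
    cases x p <;> cases x q <;> decide
  | succ t ih =>
    intro ht
    have h1 := ih (by omega)
    have h2 := fac_congr hf (t := t) (by omega)
    rw [← add_assoc, ← add_assoc, h.next, h.next, h1, h2]
    cases x (p + t) <;> cases y (p + t) <;> rfl

theorem Pre.fac_of (h : Pre x y) {p q n : ℕ} (hf : fac x p (n + 1) = fac x q (n + 1)) :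
    fac y p n = fac y q n := by
  rw [fac_eq_iff]
  intro t ht
  rw [h, h, fac_congr hf (t := t) (by omega), add_assoc, add_assoc,
    fac_congr hf (t := t + 1) (by omega)]

theorem Full.closedComp (h : Pre x y) (hF : Full x y) : ClosedComp x := by
  intro p n
  obtain ⟨q, hq, hne⟩ := hF p n
  exact ⟨q, fun t ht => h.compl hne hq t (by omega)⟩

theorem Full.closedRev (h : Pre x y) (hF : Full x y) (hy : ClosedRev y) : ClosedRev x := by
  intro p n
  rcases n with _ | n
  · exact ⟨p, by simp [fac]⟩
  · obtain ⟨q, hq⟩ := hy p n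
    have hq' := fac_rev_iff.1 hq.symm
    have key : ∀ q, (∀ t, t < n → y (q + t) = y (p + (n - 1 - t))) → x q = x (p + n) →
        (fac x p (n + 1)).reverse ∈ facN x (n + 1) := by
      intro q hq' h0
      refine ⟨q, ?_⟩
      rw [eq_comm, fac_rev_iff]
      intro t
      induction t with
      | zero => intro _; exact h0
      | succ t ih =>
        intro ht
        have h1 := ih (by omega)
        have h2 := hq' t (by omega)
        rw [← add_assoc, h.next, h1, h2, h]
        rw [show p + (n - 1 - t) + 1 = p + (n + 1 - 1 - t) by omega,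
          show p + (n + 1 - 1 - (t + 1)) = p + (n - 1 - t) by omega]
        cases x (p + (n + 1 - 1 - t)) <;> cases x (p + (n - 1 - t)) <;> rfl
    by_cases h0 : x q = x (p + n)
    · exact key q hq' h0
    · obtain ⟨r, hr, hne⟩ := hF q n
      refine key r ?_ ?_
      · intro t ht
        rw [fac_congr hr ht, hq' t ht]
      · revert h0 hne
        cases x q <;> cases x r <;> cases x (p + n) <;> decide

/-- list of differences -/
def dif (w : List Bool) : List Bool := List.zipWith xor w w.tail

theorem dif_fac (h : Pre x y) (p n : ℕ) : dif (fac x p (n + 1)) = fac y p n := by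
  unfold dif
  apply List.ext_getElem
  · simp
  · intro t h1 h2
    rw [fac_getElem, List.getElem_zipWith, List.getElem_tail, fac_getElem, fac_getElem, h]
    rfl

theorem head_fac (x : ℕ → Bool) (p n : ℕ) : (fac x p (n + 1)).headD false = x p := by
  rw [show n + 1 = 1 + n by omega, fac_append]
  simp [fac]

/-- differences and first letter -/
def Phi (w : List Bool) : List Bool × Bool := (dif w, w.headD false)

theorem Phi_fac (h : Pre x y) (p n : ℕ) : Phi (fac x p (n + 1)) = (fac y p n, x p) := by
  unfold Phi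
  rw [dif_fac h, head_fac]

theorem Phi_inj (h : Pre x y) (n : ℕ) : Set.InjOn Phi (facN x (n + 1)) := by
  rintro _ ⟨p, rfl⟩ _ ⟨q, rfl⟩ hpq
  rw [Phi_fac h, Phi_fac h, Prod.mk.injEq] at hpq
  exact h.eq hpq.2 hpq.1

theorem cpx_lift (h : Pre x y) (hF : Full x y) (n : ℕ) : cpx x (n + 1) = 2 * cpx y n := by
  have himg : Phi '' facN x (n + 1) = facN y n ×ˢ (Set.univ : Set Bool) := by
    ext ⟨w, b⟩
    constructor
    · rintro ⟨_, ⟨p, rfl⟩, hp⟩
      rw [Phi_fac h, Prod.mk.injEq] at hp
      exact ⟨⟨p, hp.1.symm⟩, trivial⟩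
    · rintro ⟨⟨p, hp⟩, _⟩
      change w = _ at hp
      by_cases hb : x p = b
      · exact ⟨_, ⟨p, rfl⟩, by rw [Phi_fac h, hp, hb]⟩
      · obtain ⟨q, hq, hne⟩ := hF p n
        refine ⟨_, ⟨q, rfl⟩, ?_⟩
        rw [Phi_fac h, hp, hq, Prod.mk.injEq]
        refine ⟨rfl, ?_⟩
        revert hb hne
        cases x p <;> cases x q <;> cases b <;> decide
  unfold cpx
  rw [← (Phi_inj h n).ncard_image, himg, Set.ncard_prod, Set.ncard_univ, Nat.card_eq_fintype_card,
    Fintype.card_bool, mul_comm]

theorem par_fac (h : Pre x y) (p n : ℕ) : par (fac y p n) = xor (x p) (x (p + n)) := by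
  induction n with
  | zero => simp [fac]
  | succ n ih =>
    rw [fac_append, par_append, ih]
    have : fac y (p + n) 1 = [y (p + n)] := by simp [fac]
    rw [this, par_cons, par_nil, h, ← add_assoc]
    cases x p <;> cases x (p + n) <;> cases x (p + n + 1) <;> rfl

/-- a block is a palindrome or the reverse of its complement iff its difference word is a
palindrome -/
theorem pal_dif (h : Pre x y) (p n : ℕ) (b : Bool) :
    (∀ t, t < n + 1 → x (p + t) = xor b (x (p + (n - t)))) ↔
      (fac y p n).reverse = fac y p n ∧ par (fac y p n) = b := by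
  rw [par_fac h]
  constructor
  · intro hx
    refine ⟨?_, ?_⟩
    · rw [eq_comm, fac_rev_iff]
      intro t ht
      rw [h, h, show p + t + 1 = p + (t + 1) by omega, hx t (by omega), hx (t + 1) (by omega),
        show p + (n - 1 - t) = p + (n - (t + 1)) by omega,
        show p + (n - (t + 1)) + 1 = p + (n - t) by omega]
      cases b <;> cases x (p + (n - t)) <;> cases x (p + (n - (t + 1))) <;> rfl
    · have := hx 0 (by omega)
      rw [add_zero, Nat.sub_zero] at this
      rw [this]
      cases b <;> cases x (p + n) <;> rfl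
  · rintro ⟨h1, h2⟩
    rw [eq_comm, fac_rev_iff] at h1
    intro t
    induction t with
    | zero =>
      intro _
      rw [add_zero, Nat.sub_zero, ← h2]
      cases x p <;> cases x (p + n) <;> rfl
    | succ t ih =>
      intro ht
      have e1 := ih (by omega)
      have e2 := h1 t (by omega)
      have e3 := h (p + (n - 1 - t))
      rw [← add_assoc, h.next, e1, e2, e3, show p + (n - 1 - t) + 1 = p + (n - t) by omega,
        show p + (n - (t + 1)) = p + (n - 1 - t) by omega]
      cases b <;> cases x (p + (n - t)) <;> cases x (p + (n - 1 - t)) <;> rfl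

theorem pal_block (x : ℕ → Bool) (p n : ℕ) : (fac x p (n + 1)).reverse = fac x p (n + 1) ↔
    ∀ t, t < n + 1 → x (p + t) = xor false (x (p + (n - t))) := by
  rw [eq_comm, fac_rev_iff]
  simp only [Bool.false_xor, Nat.add_sub_cancel]

/-- `E`-palindromes: fixed by reversal combined with complement -/
def EpalN (x : ℕ → Bool) (n : ℕ) : Set (List Bool) :=
  {w | w ∈ facN x n ∧ (w.map (!·)).reverse = w}

theorem Epal_block (x : ℕ → Bool) (p n : ℕ) :
    ((fac x p (n + 1)).map (!·)).reverse = fac x p (n + 1) ↔
    ∀ t, t < n + 1 → x (p + t) = xor true (x (p + (n - t))) := by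
  have e : (fac x p (n + 1)).map (!·) = fac (fun k => !x k) p (n + 1) := by
    unfold fac
    rw [List.map_map]
    rfl
  rw [e]
  constructor
  · intro h t ht
    have h1 : t < (fac x p (n + 1)).length := by simpa using ht
    have h2 : t < ((fac (fun k => !x k) p (n + 1)).reverse).length := by simpa using ht
    have e1 : (fac x p (n + 1))[t] = ((fac (fun k => !x k) p (n + 1)).reverse)[t] := by
      simp only [h]
    rw [fac_getElem, List.getElem_reverse, fac_getElem] at e1
    rw [e1]
    simp
  · intro h
    apply List.ext_getElem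
    · simp
    · intro t h1 h2
      rw [fac_getElem, List.getElem_reverse, fac_getElem]
      rw [h t (by simpa using h2)]
      simp

theorem palN_lift (h : Pre x y) (hF : Full x y) (n : ℕ) : pcx x (n + 1) = 2 * (epal y n).ncard := by
  have himg : Phi '' palN x (n + 1) = epal y n ×ˢ (Set.univ : Set Bool) := by
    ext ⟨w, b⟩
    constructor
    · rintro ⟨_, ⟨⟨p, rfl⟩, hpal⟩, hp⟩
      rw [Phi_fac h, Prod.mk.injEq] at hp
      rw [pal_block, pal_dif h] at hpal
      rw [← hp.1]
      exact ⟨⟨⟨⟨p, rfl⟩, hpal.1⟩, hpal.2⟩, trivial⟩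
    · rintro ⟨⟨⟨⟨p, hp⟩, hpal⟩, hpar⟩, _⟩
      change w = _ at hp
      change w.reverse = w at hpal
      change par w = false at hpar
      rw [hp] at hpal hpar
      by_cases hb : x p = b
      · refine ⟨_, ⟨⟨p, rfl⟩, ?_⟩, by rw [Phi_fac h, hp, hb]⟩
        rw [pal_block, pal_dif h]
        exact ⟨hpal, hpar⟩
      · obtain ⟨q, hq, hne⟩ := hF p n
        refine ⟨_, ⟨⟨q, rfl⟩, ?_⟩, ?_⟩
        · rw [pal_block, pal_dif h, hq]
          exact ⟨hpal, hpar⟩
        · rw [Phi_fac h, hp, hq, Prod.mk.injEq]
          refine ⟨rfl, ?_⟩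
          revert hb hne
          cases x p <;> cases x q <;> cases b <;> decide
  unfold pcx
  rw [← ((Phi_inj h n).mono (fun w hw => hw.1)).ncard_image, himg, Set.ncard_prod, Set.ncard_univ,
    Nat.card_eq_fintype_card, Fintype.card_bool, mul_comm]

theorem EpalN_lift (h : Pre x y) (hF : Full x y) (n : ℕ) :
    (EpalN x (n + 1)).ncard = 2 * (opal y n).ncard := by
  have himg : Phi '' EpalN x (n + 1) = opal y n ×ˢ (Set.univ : Set Bool) := by
    ext ⟨w, b⟩
    constructor
    · rintro ⟨_, ⟨⟨p, rfl⟩, hpal⟩, hp⟩
      rw [Phi_fac h, Prod.mk.injEq] at hp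
      rw [Epal_block, pal_dif h] at hpal
      rw [← hp.1]
      exact ⟨⟨⟨⟨p, rfl⟩, hpal.1⟩, hpal.2⟩, trivial⟩
    · rintro ⟨⟨⟨⟨p, hp⟩, hpal⟩, hpar⟩, _⟩
      change w = _ at hp
      change w.reverse = w at hpal
      change par w = true at hpar
      rw [hp] at hpal hpar
      by_cases hb : x p = b
      · refine ⟨_, ⟨⟨p, rfl⟩, ?_⟩, by rw [Phi_fac h, hp, hb]⟩
        rw [Epal_block, pal_dif h]
        exact ⟨hpal, hpar⟩
      · obtain ⟨q, hq, hne⟩ := hF p n
        refine ⟨_, ⟨⟨q, rfl⟩, ?_⟩, ?_⟩
        · rw [Epal_block, pal_dif h, hq]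
          exact ⟨hpal, hpar⟩
        · rw [Phi_fac h, hp, hq, Prod.mk.injEq]
          refine ⟨rfl, ?_⟩
          revert hb hne
          cases x p <;> cases x q <;> cases b <;> decide
  rw [← ((Phi_inj h n).mono (fun w hw => hw.1)).ncard_image, himg, Set.ncard_prod, Set.ncard_univ,
    Nat.card_eq_fintype_card, Fintype.card_bool, mul_comm]

/-- palindromes of even length have even weight -/
theorem par_even_pal {w : List Bool} (hw : w.reverse = w) (hl : w.length % 2 = 0) :
    par w = false := by
  have hp : List.Palindrome w := List.Palindrome.of_reverse_eq hw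
  clear hw
  induction hp with
  | nil => rfl
  | singleton a => simp at hl
  | cons_concat a _ ih =>
    rw [par_wrap]
    apply ih
    simp only [List.length_cons, List.length_append, List.length_nil] at hl
    omega

theorem epal_even (y : ℕ → Bool) {n : ℕ} (hn : n % 2 = 0) : (epal y n).ncard = pcx y n := by
  unfold pcx
  congr 1
  ext w
  constructor
  · exact fun h => h.1
  · intro h
    refine ⟨h, par_even_pal h.2 ?_⟩
    obtain ⟨⟨i, rfl⟩, _⟩ := h
    rw [fac_length']
    exact hn

theorem par_map_not (w : List Bool) : par (w.map (!·)) = xor (par w) (decide (w.length % 2 = 1)) := by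
  induction w with
  | nil => rfl
  | cons a w ih =>
    rw [List.map_cons, par_cons, par_cons, ih, List.length_cons]
    rcases Nat.mod_two_eq_zero_or_one w.length with h | h
    · have h2 : (w.length + 1) % 2 = 1 := by omega
      simp only [h, h2]
      cases a <;> cases par w <;> rfl
    · have h2 : (w.length + 1) % 2 = 0 := by omega
      simp only [h, h2]
      cases a <;> cases par w <;> rfl

theorem epal_odd (hc : ClosedComp y) {n : ℕ} (hn : n % 2 = 1) :
    2 * (epal y n).ncard = pcx y n := by
  have hmapmap : ∀ w : List Bool, (w.map (!·)).map (!·) = w := by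
    intro w
    rw [List.map_map]
    have : ((fun b : Bool => !b) ∘ fun b : Bool => !b) = id := by
      funext b
      cases b <;> rfl
    rw [this, List.map_id]
  have hmem : ∀ w, w ∈ palN y n → w.map (!·) ∈ palN y n := by
    rintro w ⟨⟨p, rfl⟩, hp⟩
    refine ⟨?_, ?_⟩
    · obtain ⟨q, hq⟩ := hc p n
      refine ⟨q, ?_⟩
      unfold fac
      rw [List.map_map]
      apply List.map_congr_left
      intro t ht
      rw [List.mem_range] at ht
      exact (hq t ht).symm
    · rw [← List.map_reverse, hp]
  have hlen : ∀ w, w ∈ palN y n → w.length % 2 = 1 := by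
    rintro w ⟨⟨p, rfl⟩, _⟩
    rw [fac_length']
    exact hn
  have himg : (fun w : List Bool => w.map (!·)) '' epal y n = opal y n := by
    ext w
    constructor
    · rintro ⟨v, ⟨hv, hpar⟩, rfl⟩
      refine ⟨hmem v hv, ?_⟩
      rw [par_map_not, hpar, hlen v hv]
      rfl
    · rintro ⟨hw, hpar⟩
      refine ⟨w.map (!·), ⟨hmem w hw, ?_⟩, hmapmap w⟩
      rw [par_map_not, hpar, hlen w hw]
      rfl
  have h1 : (opal y n).ncard = (epal y n).ncard := by
    rw [← himg, Set.InjOn.ncard_image]
    intro v _ w _ hvw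
    simp only at hvw
    rw [← hmapmap v, ← hmapmap w, hvw]
  have := epal_add_opal y n
  omega

end

end Pool.Agent.Q19.St
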