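import Pool.Agent.Q19.StC

/-!
# Palindromic richness
-/

set_option autoImplicit false

namespace Pool.Agent.Q19.St

open Q160.WPal

variable {x : ℕ → Bool}

theorem facN_shift (hr : Recurrent x) (j n : ℕ) : facN (fun k => x (j + k)) n = facN x n := by
  ext w
  constructor
  · rintro ⟨i, rfl⟩
    rw [fac_shift]
    exact ⟨j + i, rfl⟩
  · rintro ⟨i, rfl⟩
    obtain ⟨k, hk, hk2⟩ := hr i n j
    refine ⟨k - j, ?_⟩
    rw [fac_shift, show j + (k - j) = k by omega, hk2]

/-- the classes (up to reversal) of blocks -/
def Cl (x : ℕ → Bool) (n i j : ℕ) : Prop := fac x i n = fac x j n ∨ fac x i n = (fac x j n).reverse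

theorem Cl.symm {n i j : ℕ} (h : Cl x n i j) : Cl x n j i := by
  rcases h with h | h
  · exact Or.inl h.symm
  · right
    rw [h, List.reverse_reverse]

theorem Cl.trans {n i j k : ℕ} (h : Cl x n i j) (h' : Cl x n j k) : Cl x n i k := by
  rcases h with h | h <;> rcases h' with h' | h'
  · exact Or.inl (h.trans h')
  · exact Or.inr (h.trans h')
  · right; rw [h, h']
  · left; rw [h, h', List.reverse_reverse]

/-- `T = 0` implies the mirror property -/
theorem mirror (hc : ClosedRev x) {n : ℕ} (hT : T x n = 0) {j k : ℕ} (hjk : j < k)
    (hcl : Cl x n k j) (hno : ∀ l, j < l → l < k → ¬ Cl x n l j) :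
    (k = j + 1 ∧ (fac x j (n + 1)).reverse = fac x j (n + 1)) ∨ Cl x (n + 1) j (k - 1) := by
  set v : ℕ → Bool := fun t => x (j + t) with hv
  have hr := hc.recurrent
  have hfN : ∀ m, facN v m = facN x m := fun m => facN_shift hr j m
  have hcv : ClosedRev v := by
    intro i m
    rw [hfN, fac_shift]
    exact hc _ _
  have hTv : T v n = 0 := by
    have hp : ∀ m, palN v m = palN x m := by
      intro m
      unfold palN
      rw [hfN]
    unfold T cpx pcx at hT ⊢
    rw [hfN, hfN, hp, hp]
    exact hT
  have h1 := count_vis hcv n
  have h2 := count_visN hcv (n + 1)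
  have hcard : (VisN v (n + 1)).ncard + 1 = (Vis v n).ncard := by
    unfold T at hTv
    omega
  have h0 : 0 ∈ Vis v n := fun j hj => absurd hj (by omega)
  have hsub : Vis v n \ {0} ⊆ (fun k => k + 1) '' VisN v (n + 1) := by
    rintro i ⟨hi, hi0⟩
    have hi1 : i ≠ 0 := hi0
    refine ⟨i - 1, ⟨?_, ?_⟩, by simp only []; omega⟩
    · intro j hj
      constructor
      · intro h
        rw [fac_eq_iff] at h
        refine (hi (j + 1) (by omega)).1 ?_
        rw [fac_eq_iff]
        intro t ht
        have := h (t + 1) (by omega)
        rw [show j + 1 + t = j + (t + 1) by omega, this]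
        congr 1
        omega
      · intro h
        rw [fac_rev_iff] at h
        refine (hi j (by omega)).2 ?_
        rw [fac_rev_iff]
        intro t ht
        have := h t (by omega)
        rw [this]
        congr 1
        omega
    · intro h
      rw [eq_comm, fac_rev_iff] at h
      refine (hi (i - 1) (by omega)).2 ?_
      rw [fac_rev_iff]
      intro t ht
      have := h t (by omega)
      rw [this]
      congr 1
      omega
  have hfinN : (VisN v (n + 1)).Finite := (Vis_finite v (n + 1)).subset (fun i h => h.1)
  have heq : Vis v n \ {0} = (fun k => k + 1) '' VisN v (n + 1) := by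
    apply Set.eq_of_subset_of_ncard_le hsub _ (hfinN.image _)
    rw [Set.ncard_image_of_injective _ (fun a b h => by simpa using h)]
    have := Set.ncard_sdiff_singleton_add_one h0 (Vis_finite v n)
    omega
  -- apply at `l = k - 1 - j`
  have hk : k - j ∉ Vis v n := by
    intro hvis
    have := hvis 0 (by omega)
    rw [fac_shift, fac_shift, show j + (k - j) = k by omega, Nat.add_zero] at this
    rcases hcl.symm with h | h
    · exact this.1 h
    · exact this.2 h
  have hl : k - 1 - j ∉ VisN v (n + 1) := by
    intro hvis
    have : k - 1 - j + 1 ∈ Vis v n \ {0} := by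
      rw [heq]
      exact ⟨_, hvis, rfl⟩
    rw [show k - 1 - j + 1 = k - j by omega] at this
    exact hk this.1
  by_cases hpal : (fac x (k - 1) (n + 1)).reverse = fac x (k - 1) (n + 1)
  · -- the palindrome case
    have h3 : Cl x n (k - 1) k := by
      right
      rw [eq_comm, fac_rev_iff] at hpal
      rw [fac_rev_iff]
      intro t ht
      rw [hpal t (by omega)]
      congr 1
      omega
    have h4 : k - 1 = j := by
      by_contra hne
      exact hno (k - 1) (by omega) (by omega) (h3.trans hcl)
    left
    refine ⟨by omega, ?_⟩
    rw [h4] at hpal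
    exact hpal
  · right
    have hnv : k - 1 - j ∉ Vis v (n + 1) := by
      intro h
      refine hl ⟨h, ?_⟩
      rw [fac_shift, show j + (k - 1 - j) = k - 1 by omega]
      exact hpal
    unfold Vis at hnv
    simp only [Set.mem_setOf_eq, not_forall] at hnv
    obtain ⟨l, hl1, hl2⟩ := hnv
    rw [fac_shift, fac_shift, show j + (k - 1 - j) = k - 1 by omega] at hl2
    have hCl : Cl x (n + 1) (j + l) (k - 1) := by
      by_contra hcon
      apply hl2
      exact ⟨fun h => hcon (Or.inl h), fun h => hcon (Or.inr h)⟩
    have hor : Cl x n (j + l) j ∨ Cl x n (j + l + 1) j := by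
      rcases hCl with h | h
      · right
        have e : fac x (j + l + 1) n = fac x (k - 1 + 1) n := fac_sub h (t := 1) (by omega)
        rw [show k - 1 + 1 = k by omega] at e
        exact Cl.trans (Or.inl e) hcl
      · left
        have e : fac x (j + l) n = (fac x k n).reverse := by
          rw [fac_rev_iff] at h ⊢
          intro t ht
          rw [h t (by omega)]
          congr 1
          omega
        exact Cl.trans (Or.inr e) hcl
    have hl0 : l = 0 := by
      by_contra hne
      rcases hor with h | h
      · exact hno (j + l) (by omega) (by omega) h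
      · exact hno (j + l + 1) (by omega) (by omega) h
    rw [hl0, add_zero] at hCl
    exact hCl

/-- `T = 0` for all lengths implies that complete returns of palindromes are palindromes -/
theorem palRet (hc : ClosedRev x) (hT : ∀ n, T x n = 0) : PalRet x 0 := by
  classical
  apply palRet_of
  intro n l l' _ hll hsy hocc hno
  by_contra hcon
  -- least mismatch
  have hex : ∃ i, i < l' - l + n ∧ x (l + i) ≠ x (l' + n - 1 - i) := by
    by_contra hne
    push Not at hne
    apply hcon
    intro p q hp hq hpq
    have := hne (p - l) (by omega)
    rw [show l + (p - l) = p by omega, show l' + n - 1 - (p - l) = q by omega] at this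
    exact this
  obtain ⟨hm1, hm2⟩ := Nat.find_spec hex
  have hmin : ∀ i, i < Nat.find hex → x (l + i) = x (l' + n - 1 - i) := by
    intro i hi
    have := Nat.find_min hex hi
    push Not at this
    exact this (by omega)
  set m := Nat.find hex with hm
  -- the pattern `p` is a palindrome: letters
  have hp1 : ∀ t, t < n → x (l + t) = x (l + (n - 1 - t)) := by
    intro t ht
    exact hsy _ _ (by omega) (by omega) (by omega)
  have hp2 : ∀ t, t < n → x (l' + t) = x (l + t) := fun t ht => fac_congr hocc ht
  have hnm : n ≤ m := by
    by_contra hlt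
    push Not at hlt
    apply hm2
    have e1 := hp2 (n - 1 - m) (by omega)
    rw [show l' + n - 1 - m = l' + (n - 1 - m) by omega, e1]
    exact hp1 m hlt
  -- the mismatch is in the first half
  have hhalf : 2 * m < l' - l + n := by
    by_contra hge
    push Not at hge
    have hle : l' - l + n - 1 - m < m ∨ l' - l + n - 1 - m = m := by omega
    rcases hle with h | h
    · have e := hmin _ h
      rw [show l + (l' - l + n - 1 - m) = l' + n - 1 - m by omega,
        show l' + n - 1 - (l' - l + n - 1 - m) = l + m by omega] at e
      exact hm2 e.symm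
    · apply hm2
      congr 1
      omega
  set k := l' + n - m with hk
  have hjk : l < k := by omega
  have hrev : fac x k m = (fac x l m).reverse := by
    rw [fac_rev_iff]
    intro t ht
    have := hmin (m - 1 - t) (by omega)
    rw [this]
    congr 1
    omega
  have hcl : Cl x m k l := Or.inr hrev
  -- no inner occurrence
  have hinner : ∀ s, l < s → s < k → ¬ Cl x m s l := by
    intro s hs1 hs2 h
    rcases h with h | h
    · exact hno s (by omega) (by omega) (fac_pre h hnm)
    · refine hno (s + m - n) (by omega) (by omega) ?_
      rw [fac_rev_iff] at h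
      rw [fac_eq_iff]
      intro t ht
      have := h (m - n + t) (by omega)
      rw [show s + m - n + t = s + (m - n + t) by omega, this,
        show m - 1 - (m - n + t) = n - 1 - t by omega]
      exact (hp1 t ht).symm
  have hk1 : m = 0 → False := by
    intro h0
    have hn0 : n = 0 := by omega
    have hl1 : l' = l + 1 := by
      by_contra hne
      refine hno (l + 1) (by omega) (by omega) ?_
      rw [hn0]
      simp [fac]
    apply hm2
    congr 1
    omega
  rcases mirror hc (hT m) hjk hcl hinner with ⟨h1, _⟩ | h
  · apply hk1
    omega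
  · rcases h with h | h
    · -- equal
      have e : fac x (l + 1) m = fac x (k - 1 + 1) m := fac_sub h (t := 1) (by omega)
      rw [show k - 1 + 1 = k by omega] at e
      have hcl2 : Cl x m (l + 1) l := Cl.trans (Or.inl e) hcl
      by_cases hk2 : l + 1 < k
      · exact hinner (l + 1) (by omega) hk2 hcl2
      · apply hk1
        omega
    · -- reversed
      rw [fac_rev_iff] at h
      have := h m (by omega)
      apply hm2
      rw [this]
      congr 1
      omega

/-! ### counting palindromes -/

/-- palindromic factors of the block at `i` of length `n` -/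
def pals (x : ℕ → Bool) (i n : ℕ) : Set (List Bool) := {v | v <:+: fac x i n ∧ v.reverse = v}

theorem infix_iff (x : ℕ → Bool) (i n : ℕ) (v : List Bool) :
    v <:+: fac x i n ↔ ∃ a b, i ≤ a ∧ a + b ≤ i + n ∧ v = fac x a b := by
  constructor
  · rintro ⟨s, t, hst⟩
    have hlen := congrArg List.length hst
    simp only [List.length_append, fac_length'] at hlen
    refine ⟨i + s.length, v.length, by omega, by omega, ?_⟩
    have e : fac x i n = fac x i s.length ++ (fac x (i + s.length) v.length ++
        fac x (i + s.length + v.length) t.length) := by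
      rw [← fac_append, ← fac_append]
      congr 1
      omega
    rw [e, List.append_assoc] at hst
    have h1 := List.append_inj_right hst (by simp)
    exact List.append_inj_left h1 (by simp)
  · rintro ⟨a, b, h1, h2, rfl⟩
    refine ⟨fac x i (a - i), fac x (a + b) (i + n - a - b), ?_⟩
    have e1 : fac x i (a - i) ++ fac x a b = fac x i (a - i + b) := by
      rw [fac_append]
      congr 2
      omega
    rw [e1]
    have e2 : fac x (a + b) (i + n - a - b) = fac x (i + (a - i + b)) (i + n - a - b) := by
      congr 1
      omega
    rw [e2, ← fac_append]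
    congr 1
    omega

theorem pals_finite (x : ℕ → Bool) (i n : ℕ) : (pals x i n).Finite := by
  have : pals x i n ⊆ ⋃ m ∈ Set.Iic n, facN x m := by
    rintro v ⟨h, _⟩
    rw [infix_iff] at h
    obtain ⟨a, b, h1, h2, rfl⟩ := h
    simp only [Set.mem_Iic, Set.mem_iUnion]
    exact ⟨b, by omega, a, rfl⟩
  refine Set.Finite.subset ?_ this
  exact (Set.finite_Iic n).biUnion (fun m _ => facN_finite' x m)

theorem pals_mono (x : ℕ → Bool) (i n : ℕ) : pals x i n ⊆ pals x i (n + 1) := by
  rintro v ⟨h, hp⟩
  rw [infix_iff] at h
  obtain ⟨a, b, h1, h2, rfl⟩ := h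
  exact ⟨(infix_iff x i (n + 1) _).2 ⟨a, b, h1, by omega, rfl⟩, hp⟩

/-- new palindromes are suffixes -/
theorem pals_new {i n : ℕ} {v : List Bool} (h : v ∈ pals x i (n + 1)) (h' : v ∉ pals x i n) :
    ∃ a b, i ≤ a ∧ a + b = i + n + 1 ∧ v = fac x a b := by
  obtain ⟨h1, hp⟩ := h
  rw [infix_iff] at h1
  obtain ⟨a, b, h2, h3, rfl⟩ := h1
  refine ⟨a, b, h2, ?_, rfl⟩
  by_contra hne
  exact h' ⟨(infix_iff x i n _).2 ⟨a, b, h2, by omega, rfl⟩, hp⟩

/-- richness from returns -/
theorem rich_of_palRet (h : PalRet x 0) (i n : ℕ) : (pals x i n).ncard = n + 1 := by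
  classical
  induction n with
  | zero =>
    rw [Set.ncard_eq_one]
    refine ⟨[], ?_⟩
    ext v
    constructor
    · rintro ⟨hv, _⟩
      rw [infix_iff] at hv
      obtain ⟨a, b, h1, h2, rfl⟩ := hv
      have : b = 0 := by omega
      rw [this]
      simp [fac]
    · intro hv
      rw [Set.mem_singleton_iff] at hv
      rw [hv]
      exact ⟨List.nil_infix, rfl⟩
  | succ n ih =>
    -- longest palindromic suffix
    have hex : ∃ b, b ≤ n + 1 ∧ (fac x (i + n + 1 - b) b).reverse = fac x (i + n + 1 - b) b :=
      ⟨0, by omega, by simp [fac]⟩
    let Q : ℕ → Prop := fun b => (fac x (i + n + 1 - b) b).reverse = fac x (i + n + 1 - b) b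
    set b := Nat.findGreatest Q (n + 1) with hb
    have hQb : Q b := Nat.findGreatest_spec (P := Q) (Nat.zero_le _) (by simp [Q, fac])
    have hbn : b ≤ n + 1 := Nat.findGreatest_le (n + 1)
    have hmax : ∀ c, b < c → c ≤ n + 1 → ¬ Q c := fun c h1 h2 =>
      Nat.findGreatest_is_greatest h1 h2
    set a := i + n + 1 - b with ha
    have hQb' : (fac x a b).reverse = fac x a b := hQb
    have hins : pals x i (n + 1) = insert (fac x a b) (pals x i n) := by
      ext v
      constructor
      · intro hv
        by_cases hv' : v ∈ pals x i n
        · exact Set.mem_insert_of_mem _ hv'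
        · obtain ⟨a', b', h1, h2, rfl⟩ := pals_new hv hv'
          have hab' : a' = i + n + 1 - b' := by omega
          have hb'n : b' ≤ n + 1 := by omega
          have hQ' : Q b' := by
            change (fac x (i + n + 1 - b') b').reverse = _
            rw [← hab']
            exact hv.2
          have hle : b' ≤ b := by
            by_contra hlt
            push Not at hlt
            exact hmax b' hlt hb'n hQ'
          rcases Nat.lt_or_ge b' b with hlt | hge
          · -- occurs as a prefix of the longest palindromic suffix
            exfalso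
            apply hv'
            refine ⟨(infix_iff x i n _).2 ⟨a, b', by omega, by omega, ?_⟩, hv.2⟩
            rw [eq_comm, fac_rev_iff] at hQb'
            have hv2 := hv.2
            rw [eq_comm, fac_rev_iff] at hv2
            rw [fac_eq_iff]
            intro t ht
            rw [hv2 t ht, hQb' t (by omega)]
            congr 1
            omega
          · have : b' = b := by omega
            rw [this] at hab'
            rw [this, hab']
            exact Set.mem_insert _ _
      · intro hv
        rcases hv with rfl | hv
        · exact ⟨(infix_iff x i (n + 1) _).2 ⟨a, b, by omega, by omega, rfl⟩, hQb'⟩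
        · exact pals_mono x i n hv
    have hnew : fac x a b ∉ pals x i n := by
      rintro ⟨h1, _⟩
      rw [infix_iff] at h1
      obtain ⟨a', b', h2, h3, h4⟩ := h1
      have hbb : b' = b := by
        have := congrArg List.length h4
        simpa using this.symm
      rw [hbb] at h3 h4
      -- last earlier occurrence
      let P : ℕ → Prop := fun c => i ≤ c ∧ c < a ∧ fac x c b = fac x a b
      have hP : P a' := ⟨h2, by omega, h4.symm⟩
      have hc := Nat.findGreatest_spec (P := P) (n := a) (by omega : a' ≤ a) hP
      set c := Nat.findGreatest P a with hcdef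
      obtain ⟨hc1, hc2, hc3⟩ := hc
      have hcmax : ∀ d, c < d → d < a → fac x d b ≠ fac x a b := by
        intro d hd1 hd2 hd3
        exact Nat.findGreatest_is_greatest hd1 (by omega) ⟨by omega, hd2, hd3⟩
      have hS := h.ret (Nat.zero_le b) hc2 (by rw [hc3]; exact hQb') hc3 (fun d hd1 hd2 => by
        rw [hc3]; exact hcmax d hd1 hd2)
      refine hmax (a + b - c) (by omega) (by omega) ?_
      change (fac x (i + n + 1 - (a + b - c)) (a + b - c)).reverse = _
      rw [show i + n + 1 - (a + b - c) = c by omega, pal_iff]
      rw [show 2 * c + (a + b - c) = c + a + b by omega]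
      exact hS
    rw [hins, Set.ncard_insert_of_notMem hnew (pals_finite x i n), ih]

/-- returns from richness -/
theorem palRet_of_rich (h : ∀ i n, (pals x i n).ncard = n + 1) : PalRet x 0 := by
  apply palRet_of
  intro n l l' _ hll hsy hocc hno
  by_contra hcon
  -- the complete return `c`, its last letter brings a new palindrome
  obtain ⟨m, hm⟩ : ∃ m, l' + n = l + m + 1 := ⟨l' + n - l - 1, by omega⟩
  obtain ⟨v, hv, hv'⟩ : ∃ v, v ∈ pals x l (m + 1) ∧ v ∉ pals x l m := by
    by_contra hne
    push Not at hne
    have h1 := Set.ncard_le_ncard (show pals x l (m + 1) ⊆ pals x l m from hne)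
      (pals_finite x l m)
    rw [h, h] at h1
    omega
  obtain ⟨a, b, h1, h2, rfl⟩ := pals_new hv hv'
  have hvp := hv.2
  have hvp' := hvp
  rw [eq_comm, fac_rev_iff] at hvp'
  have hp1 : ∀ t, t < n → x (l + t) = x (l + (n - 1 - t)) := by
    intro t ht
    exact hsy _ _ (by omega) (by omega) (by omega)
  have hp2 : ∀ t, t < n → x (l' + t) = x (l + t) := fun t ht => fac_congr hocc ht
  rcases Nat.lt_or_ge n b with hb | hb
  · -- `p` is a prefix of the suffix palindrome
    by_cases hal : a = l
    · apply hcon
      have := pal_iff.1 hvp
      rw [hal] at this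
      rw [show l + l' + n = 2 * l + b by omega]
      exact this
    · refine hno a (by omega) (by omega) ?_
      rw [fac_eq_iff]
      intro t ht
      rw [hvp' t (by omega)]
      have e : a + (b - 1 - t) = l' + (n - 1 - t) := by omega
      rw [e, hp2 _ (by omega)]
      exact (hp1 t ht).symm
  · -- short palindromes occur in the first `p`
    apply hv'
    refine ⟨(infix_iff x l m _).2 ⟨l + (n - b), b, by omega, by omega, ?_⟩, hvp⟩
    rw [fac_eq_iff]
    intro t ht
    have e := hp2 (n - b + t) (by omega)
    rw [show l' + (n - b + t) = a + t by omega] at e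
    rw [e]
    congr 1
    omega

end Pool.Agent.Q19.St
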