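import Mathlib

set_option autoImplicit false
set_option linter.unusedVariables false

/-! Critical 3-stable graphs, part A: Hall's condition, the exceptional set `W`. -/

open Classical

namespace Pool.Agent.Q19.Stab

variable {V : Type*} [Fintype V]

/-- `S` contains no edge of `G`. -/
def Ind (G : SimpleGraph V) (S : Finset V) : Prop := ∀ x ∈ S, ∀ y ∈ S, ¬ G.Adj x y

/-- The setting: `α` is the independence number, every three vertices are avoided by a maximum
independent set, and every edge is critical. -/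
structure Ctx (G : SimpleGraph V) (α : ℕ) : Prop where
  le : ∀ S : Finset V, Ind G S → S.card ≤ α
  st : ∀ S : Finset V, S.card ≤ 3 → ∃ I, Ind G I ∧ I.card = α ∧ Disjoint I S
  crit : ∀ a b, G.Adj a b → ∃ S : Finset V, a ∈ S ∧ b ∈ S ∧ S.card = α + 1 ∧
    ∀ x ∈ S, ∀ y ∈ S, G.Adj x y → (x = a ∧ y = b) ∨ (x = b ∧ y = a)

/-- maximum independent set -/
def MIS (G : SimpleGraph V) (α : ℕ) (I : Finset V) : Prop := Ind G I ∧ I.card = α

/-- the neighbours in `I` of the members of `X` -/
noncomputable def nb (G : SimpleGraph V) (I X : Finset V) : Finset V :=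
  I.filter (fun a => ∃ x ∈ X, G.Adj a x)

variable {G : SimpleGraph V} {α : ℕ} {I : Finset V}

lemma Ind.mono {S T : Finset V} (h : Ind G T) (hST : S ⊆ T) : Ind G S :=
  fun x hx y hy => h x (hST hx) y (hST hy)

lemma mem_nb {X : Finset V} {a : V} : a ∈ nb G I X ↔ a ∈ I ∧ ∃ x ∈ X, G.Adj a x := by
  simp [nb]

lemma nb_sub {X : Finset V} : nb G I X ⊆ I := Finset.filter_subset _ _

lemma nb_union (X Y : Finset V) : nb G I (X ∪ Y) = nb G I X ∪ nb G I Y := by
  ext a
  simp only [mem_nb, Finset.mem_union]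
  constructor
  · rintro ⟨h, x, hx | hx, hax⟩
    · exact Or.inl ⟨h, x, hx, hax⟩
    · exact Or.inr ⟨h, x, hx, hax⟩
  · rintro (⟨h, x, hx, hax⟩ | ⟨h, x, hx, hax⟩)
    · exact ⟨h, x, Or.inl hx, hax⟩
    · exact ⟨h, x, Or.inr hx, hax⟩

lemma nb_mono {X Y : Finset V} (h : X ⊆ Y) : nb G I X ⊆ nb G I Y := by
  intro a
  simp only [mem_nb]
  rintro ⟨h1, x, hx, hax⟩
  exact ⟨h1, x, h hx, hax⟩

/-- supermodularity of the deficiency -/
lemma nb_sup (X Y : Finset V) :
    (nb G I (X ∪ Y)).card + (nb G I (X ∩ Y)).card ≤ (nb G I X).card + (nb G I Y).card := by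
  rw [nb_union, ← Finset.card_union_add_card_inter (nb G I X) (nb G I Y)]
  have h : nb G I (X ∩ Y) ⊆ nb G I X ∩ nb G I Y :=
    Finset.subset_inter (nb_mono Finset.inter_subset_left) (nb_mono Finset.inter_subset_right)
  have := Finset.card_le_card h
  omega

/-- replacing the neighbours of an independent set -/
lemma ind_swap {S X : Finset V} (hS : Ind G S) (hX : Ind G X) :
    Ind G ((S \ nb G S X) ∪ X) := by
  intro x hx y hy hxy
  rw [Finset.mem_union, Finset.mem_sdiff] at hx hy
  rcases hx with ⟨hx, hx'⟩ | hx <;> rcases hy with ⟨hy, hy'⟩ | hy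
  · exact hS x hx y hy hxy
  · exact hx' (mem_nb.2 ⟨hx, y, hy, hxy⟩)
  · exact hy' (mem_nb.2 ⟨hy, x, hx, hxy.symm⟩)
  · exact hX x hx y hy hxy

lemma card_swap {S X : Finset V} (hd : Disjoint S X) :
    ((S \ nb G S X) ∪ X).card + (nb G S X).card = S.card + X.card := by
  rw [Finset.card_union_of_disjoint (hd.mono_left Finset.sdiff_subset)]
  have := Finset.card_sdiff_add_card_eq_card (nb_sub (G := G) (I := S) (X := X))
  omega

/-- (1) -/
lemma card_le_nb (h : Ctx G α) (hI : MIS G α I) {X : Finset V} (hX : Ind G X)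
    (hd : Disjoint I X) : X.card ≤ (nb G I X).card := by
  have h1 := h.le _ (ind_swap hI.1 hX)
  have h2 := card_swap (G := G) hd
  have h3 := hI.2
  omega

/-- (2) -/
lemma mis_card (h : Ctx G α) (hI : MIS G α I) {I' : Finset V} (hI' : MIS G α I') :
    (nb G I (I' \ I)).card = (I' \ I).card ∧ ∀ a ∈ I, (a ∈ I' ↔ a ∉ nb G I (I' \ I)) := by
  have h1 := card_le_nb h hI (hI'.1.mono (Finset.sdiff_subset (s := I') (t := I)))
    Finset.disjoint_sdiff
  have h2 : I' ∩ I ⊆ I \ nb G I (I' \ I) := by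
    intro a ha
    rw [Finset.mem_inter] at ha
    rw [Finset.mem_sdiff]
    refine ⟨ha.2, ?_⟩
    intro h3
    obtain ⟨_, x, hx, hax⟩ := mem_nb.1 h3
    exact hI'.1 a ha.1 x (Finset.mem_sdiff.1 hx).1 hax
  have h3 := Finset.card_le_card h2
  have h4 := Finset.card_sdiff_add_card_eq_card (nb_sub (G := G) (I := I) (X := I' \ I))
  have h5 := Finset.card_sdiff_add_card_inter I' I
  have h6 := hI.2
  have h7 := hI'.2
  refine ⟨by omega, ?_⟩
  intro a ha
  have h8 : I' ∩ I = I \ nb G I (I' \ I) := Finset.eq_of_subset_of_card_le h2 (by omega)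
  constructor
  · intro h9
    have h10 : a ∈ I' ∩ I := Finset.mem_inter.2 ⟨h9, ha⟩
    rw [h8] at h10
    exact (Finset.mem_sdiff.1 h10).2
  · intro h9
    have h10 : a ∈ I \ nb G I (I' \ I) := Finset.mem_sdiff.2 ⟨ha, h9⟩
    rw [← h8] at h10
    exact (Finset.mem_inter.1 h10).1

/-- Hall's theorem for a relation between two finite sets -/
lemma hall (A B : Finset V) (R : V → V → Prop)
    (h : ∀ S ⊆ A, S.card ≤ (B.filter (fun b => ∃ a ∈ S, R a b)).card) :
    ∃ f : V → V, Set.InjOn f A ∧ ∀ a ∈ A, f a ∈ B ∧ R a (f a) := by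
  have h1 := (Finset.all_card_le_biUnion_card_iff_exists_injective
    (fun a : A => B.filter (fun b => R a.1 b))).1 (by
      intro s
      have h2 := h (s.map (Function.Embedding.subtype _)) (by
        intro x hx
        obtain ⟨y, _, hy⟩ := Finset.mem_map.1 hx
        rw [← hy]; exact y.2)
      rw [Finset.card_map] at h2
      refine h2.trans (Finset.card_le_card ?_)
      intro b hb
      rw [Finset.mem_filter] at hb
      obtain ⟨hb, a, ha, hab⟩ := hb
      obtain ⟨y, hy, rfl⟩ := Finset.mem_map.1 ha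
      exact Finset.mem_biUnion.2 ⟨y, hy, Finset.mem_filter.2 ⟨hb, hab⟩⟩)
  obtain ⟨f, hf, hf'⟩ := h1
  refine ⟨fun a => if ha : a ∈ A then f ⟨a, ha⟩ else a, ?_, ?_⟩
  · intro x hx y hy hxy
    simp only [Finset.mem_coe] at hx hy
    simp only [hx, hy, dif_pos] at hxy
    exact congrArg Subtype.val (hf hxy)
  · intro a ha
    simp only [ha, dif_pos]
    have := hf' ⟨a, ha⟩
    rw [Finset.mem_filter] at this
    exact this

/-- (4) Hall's condition for subsets of the maximum independent set -/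
lemma hall_cond (h : Ctx G α) (hI : MIS G α I) : ∀ (k : ℕ) (A : Finset V), A ⊆ I → A.card = k →
    k ≤ (Iᶜ.filter (fun b => ∃ a ∈ A, G.Adj a b)).card := by
  intro k
  induction k using Nat.strong_induction_on with
  | _ k ih =>
    intro A hA hk
    rcases A.eq_empty_or_nonempty with rfl | ⟨a, ha⟩
    · rw [Finset.card_empty] at hk; omega
    obtain ⟨I', h1, h2, h3⟩ := h.st {a} (by simp)
    have haI' : a ∉ I' := fun h4 => Finset.disjoint_left.1 h3 h4 (Finset.mem_singleton_self a)
    have hA1 : Ind G (A \ I') := hI.1.mono (Finset.sdiff_subset.trans hA)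
    have h5 := h.le _ (ind_swap h1 hA1)
    have h6 := card_swap (G := G) (Finset.disjoint_sdiff (s := I') (t := A))
    have h7 : (A \ I').card ≤ (nb G I' (A \ I')).card := by omega
    have h8 : (A ∩ I').card < k := by
      rw [← hk]
      apply Finset.card_lt_card
      rw [Finset.ssubset_iff_of_subset Finset.inter_subset_left]
      exact ⟨a, ha, fun h9 => haI' (Finset.mem_inter.1 h9).2⟩
    have h9 := ih _ h8 (A ∩ I') (Finset.inter_subset_left.trans hA) rfl
    have h10 : nb G I' (A \ I') ∪ Iᶜ.filter (fun b => ∃ a ∈ A ∩ I', G.Adj a b) ⊆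
        Iᶜ.filter (fun b => ∃ a ∈ A, G.Adj a b) := by
      intro b hb
      rw [Finset.mem_union] at hb
      rw [Finset.mem_filter]
      rcases hb with hb | hb
      · obtain ⟨hb1, x, hx, hbx⟩ := mem_nb.1 hb
        rw [Finset.mem_sdiff] at hx
        refine ⟨?_, x, hx.1, hbx.symm⟩
        rw [Finset.mem_compl]
        intro hbI
        exact hI.1 b hbI x (hA hx.1) hbx
      · rw [Finset.mem_filter] at hb
        obtain ⟨hb1, x, hx, hbx⟩ := hb
        exact ⟨hb1, x, (Finset.mem_inter.1 hx).1, hbx⟩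
    have h11 : Disjoint (nb G I' (A \ I')) (Iᶜ.filter (fun b => ∃ a ∈ A ∩ I', G.Adj a b)) := by
      rw [Finset.disjoint_left]
      intro b hb hb'
      rw [Finset.mem_filter] at hb'
      obtain ⟨_, x, hx, hxb⟩ := hb'
      exact h1 x (Finset.mem_inter.1 hx).2 b (nb_sub hb) hxb
    have h12 := Finset.card_le_card h10
    rw [Finset.card_union_of_disjoint h11] at h12
    have h13 := Finset.card_sdiff_add_card_inter A I'
    omega

lemma exists_f (h : Ctx G α) (hI : MIS G α I) :
    ∃ f : V → V, Set.InjOn f I ∧ ∀ a ∈ I, f a ∈ Iᶜ ∧ G.Adj a (f a) :=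
  hall I Iᶜ G.Adj (fun S hS => hall_cond h hI _ S hS rfl)

/-- the deficiency is at most `δ = |J| - |I|` -/
lemma def_le (h : Ctx G α) (hI : MIS G α I) {X : Finset V} (hX : Disjoint I X) :
    X.card + I.card ≤ (nb G I X).card + Iᶜ.card := by
  obtain ⟨f, hf, hf'⟩ := exists_f h hI
  have h1 : (I.filter (fun a => f a ∈ X)) ⊆ nb G I X := by
    intro a ha
    rw [Finset.mem_filter] at ha
    exact mem_nb.2 ⟨ha.1, f a, ha.2, (hf' a ha.1).2⟩
  have h2 := Finset.card_le_card h1
  have h3 : ((I.filter (fun a => f a ∉ X)).image f).card = (I.filter (fun a => f a ∉ X)).card :=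
    Finset.card_image_of_injOn (fun x hx y hy hxy => by
      simp only [Finset.coe_filter, Set.mem_setOf_eq] at hx hy
      exact hf hx.1 hy.1 hxy)
  have h4 : ((I.filter (fun a => f a ∉ X)).image f) ⊆ Iᶜ \ X := by
    intro b hb
    obtain ⟨a, ha, rfl⟩ := Finset.mem_image.1 hb
    rw [Finset.mem_filter] at ha
    exact Finset.mem_sdiff.2 ⟨(hf' a ha.1).1, ha.2⟩
  have h5 := Finset.card_le_card h4
  have h6 : X ⊆ Iᶜ := by
    intro x hx
    rw [Finset.mem_compl]
    exact fun h7 => Finset.disjoint_left.1 hX h7 hx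
  have h7 := Finset.card_sdiff_add_card_eq_card h6
  have h8 := Finset.card_filter_add_card_filter_not (s := I) (fun a => f a ∈ X)
  omega

lemma card_le_compl (h : Ctx G α) (hI : MIS G α I) : I.card ≤ Iᶜ.card := by
  have := def_le h hI (X := ∅) (Finset.disjoint_empty_right _)
  simp [nb] at this
  exact this

/-- `(x, y)` is an edge which is alone in a set `S ⊆ J'` of positive deficiency -/
def Good (G : SimpleGraph V) (I J' : Finset V) (x y : V) : Prop :=
  ∃ S ⊆ J', x ∈ S ∧ y ∈ S ∧ (nb G I S).card + 1 ≤ S.card ∧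
    ∀ u ∈ S, ∀ v ∈ S, G.Adj u v → (u = x ∧ v = y) ∨ (u = y ∧ v = x)

lemma Good.symm {J' : Finset V} {x y : V} (h : Good G I J' x y) : Good G I J' y x := by
  obtain ⟨S, h1, h2, h3, h4, h5⟩ := h
  exact ⟨S, h1, h3, h2, h4, fun u hu v hv huv => (h5 u hu v hv huv).symm⟩

noncomputable def wset (G : SimpleGraph V) (I J' : Finset V) : Finset V :=
  J'.filter (fun x => ∃ y, G.Adj x y ∧ Good G I J' x y)

/-- removing an end of a good edge lowers the maximal deficiency -/
lemma drop (h : Ctx G α) (hI : MIS G α I) {J' : Finset V} (hJ : Disjoint I J') {k : ℕ}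
    (hk : ∀ X ⊆ J', X.card ≤ (nb G I X).card + (k + 1)) {x y : V} (hg : Good G I J' x y) :
    ∀ X ⊆ J'.erase x, X.card ≤ (nb G I X).card + k := by
  obtain ⟨S, h1, h2, h3, h4, h5⟩ := hg
  intro Z hZ
  have hZ' : Z ⊆ J' := hZ.trans (Finset.erase_subset _ _)
  have h6 := hk (Z ∪ S) (Finset.union_subset hZ' h1)
  have h7 : Ind G (Z ∩ S) := by
    intro u hu v hv huv
    rw [Finset.mem_inter] at hu hv
    rcases h5 u hu.2 v hv.2 huv with ⟨ha, hb⟩ | ⟨ha, hb⟩
    · rw [ha] at hu
      exact Finset.notMem_erase _ _ (hZ hu.1)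
    · rw [hb] at hv
      exact Finset.notMem_erase _ _ (hZ hv.1)
  have h8 := card_le_nb h hI h7 (hJ.mono_right (Finset.inter_subset_left.trans hZ'))
  have h9 := nb_sup (G := G) (I := I) Z S
  have h10 := Finset.card_union_add_card_inter Z S
  omega

/-- (5) -/
lemma wset_card (h : Ctx G α) (hI : MIS G α I) : ∀ (k : ℕ) (J' : Finset V), Disjoint I J' →
    (∀ X ⊆ J', X.card ≤ (nb G I X).card + k) → (wset G I J').card + 2 ≤ 2 ^ (k + 1) := by
  intro k
  induction k with
  | zero =>
    intro J' hJ hk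
    have : wset G I J' = ∅ := by
      rw [wset, Finset.filter_eq_empty_iff]
      rintro x hx ⟨y, hxy, S, h1, h2, h3, h4, h5⟩
      have := hk S h1
      omega
    rw [this]; simp
  | succ k ih =>
    intro J' hJ hk
    rcases (wset G I J').eq_empty_or_nonempty with h0 | ⟨x, hx⟩
    · rw [h0]
      have : 2 ^ 1 ≤ 2 ^ (k + 1 + 1) := Nat.pow_le_pow_right (by norm_num) (by omega)
      simpa using this
    rw [wset, Finset.mem_filter] at hx
    obtain ⟨hx, y, hxy, hg⟩ := hx
    have h1 := ih (J'.erase x) (hJ.mono_right (Finset.erase_subset _ _)) (drop h hI hJ hk hg)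
    have h2 := ih (J'.erase y) (hJ.mono_right (Finset.erase_subset _ _))
      (drop h hI hJ hk hg.symm)
    have h3 : wset G I J' ⊆ {x, y} ∪ (wset G I (J'.erase x) ∪ wset G I (J'.erase y)) := by
      intro w hw
      rw [wset, Finset.mem_filter] at hw
      obtain ⟨hw, z, hwz, S, s1, s2, s3, s4, s5⟩ := hw
      by_cases hxS : x ∈ S
      · by_cases hyS : y ∈ S
        · apply Finset.mem_union_left
          rcases s5 x hxS y hyS hxy with ⟨ha, hb⟩ | ⟨ha, hb⟩
          · rw [ha]; simp
          · rw [hb]; simp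
        · apply Finset.mem_union_right
          apply Finset.mem_union_right
          rw [wset, Finset.mem_filter]
          have hs : S ⊆ J'.erase y := fun u hu => Finset.mem_erase.2
            ⟨fun h9 => hyS (h9 ▸ hu), s1 hu⟩
          exact ⟨hs s2, z, hwz, S, hs, s2, s3, s4, s5⟩
      · apply Finset.mem_union_right
        apply Finset.mem_union_left
        rw [wset, Finset.mem_filter]
        have hs : S ⊆ J'.erase x := fun u hu => Finset.mem_erase.2
          ⟨fun h9 => hxS (h9 ▸ hu), s1 hu⟩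
        exact ⟨hs s2, z, hwz, S, hs, s2, s3, s4, s5⟩
    have h4 := Finset.card_le_card h3
    have h5 := Finset.card_union_le {x, y} (wset G I (J'.erase x) ∪ wset G I (J'.erase y))
    have h6 := Finset.card_union_le (wset G I (J'.erase x)) (wset G I (J'.erase y))
    have h7 := Finset.card_le_two (a := x) (b := y)
    have h8 : 2 ^ (k + 1 + 1) = 2 ^ (k + 1) * 2 := pow_succ _ _
    omega

/-- the ends of the edges outside `I` -/
noncomputable def W (G : SimpleGraph V) (I : Finset V) : Finset V :=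
  Iᶜ.filter (fun x => ∃ y ∈ Iᶜ, G.Adj x y)

lemma W_sub (h : Ctx G α) (hI : MIS G α I) : W G I ⊆ wset G I Iᶜ := by
  intro x hx
  rw [W, Finset.mem_filter] at hx
  obtain ⟨hx, y, hy, hxy⟩ := hx
  rw [wset, Finset.mem_filter]
  obtain ⟨S, h1, h2, h3, h4⟩ := h.crit x y hxy
  refine ⟨hx, y, hxy, S \ I, ?_, ?_, ?_, ?_, ?_⟩
  · intro u hu
    rw [Finset.mem_compl]
    exact (Finset.mem_sdiff.1 hu).2
  · exact Finset.mem_sdiff.2 ⟨h1, Finset.mem_compl.1 hx⟩
  · exact Finset.mem_sdiff.2 ⟨h2, Finset.mem_compl.1 hy⟩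
  · have h5 : S ∩ I ⊆ I \ nb G I (S \ I) := by
      intro a ha
      rw [Finset.mem_inter] at ha
      refine Finset.mem_sdiff.2 ⟨ha.2, fun h6 => ?_⟩
      obtain ⟨_, u, hu, hau⟩ := mem_nb.1 h6
      rcases h4 a ha.1 u (Finset.mem_sdiff.1 hu).1 hau with ⟨e, _⟩ | ⟨e, _⟩
      · rw [e] at ha; exact Finset.mem_compl.1 hx ha.2
      · rw [e] at ha; exact Finset.mem_compl.1 hy ha.2
    have h6 := Finset.card_le_card h5
    have h7 := Finset.card_sdiff_add_card_eq_card (nb_sub (G := G) (I := I) (X := S \ I))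
    have h8 := Finset.card_sdiff_add_card_inter S I
    have h9 := hI.2
    omega
  · intro u hu v hv huv
    exact h4 u (Finset.mem_sdiff.1 hu).1 v (Finset.mem_sdiff.1 hv).1 huv

lemma W_card (h : Ctx G α) (hI : MIS G α I) :
    (W G I).card ≤ 2 ^ (Iᶜ.card - I.card + 1) := by
  have h1 := Finset.card_le_card (W_sub h hI)
  have h2 := wset_card h hI (Iᶜ.card - I.card) Iᶜ disjoint_compl_right (by
    intro X hX
    have h3 := def_le h hI (X := X) (disjoint_compl_right.mono_right hX)
    have h4 := card_le_compl h hI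
    omega)
  omega

end Pool.Agent.Q19.Stab
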