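import Pool.Agent.Q19.StabA

set_option autoImplicit false
set_option linter.unusedVariables false

/-! Critical 3-stable graphs, part B: exact matchings and labels. -/

open Classical

namespace Pool.Agent.Q19.Stab

variable {V : Type*} [Fintype V] {G : SimpleGraph V} {α : ℕ} {I : Finset V}

/-- maximum independent sets with trace `T` on `W` -/
def Cls (G : SimpleGraph V) (α : ℕ) (I T : Finset V) (I' : Finset V) : Prop :=
  MIS G α I' ∧ I' ∩ W G I = T

/-- `M` is an exact matching for the class `T` -/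
def Exact (G : SimpleGraph V) (α : ℕ) (I T : Finset V) (M : V → V) : Prop :=
  Set.InjOn M I ∧ (∀ a ∈ I, M a ∈ Iᶜ ∧ G.Adj a (M a)) ∧
    ∀ I', Cls G α I T I' → ∀ a ∈ I, (M a ∈ I' ↔ a ∉ I')

/-- two independent sets outside `I` with the same trace on `W` have independent union -/
lemma ind_union {X Y : Finset V} (hX : Ind G X) (hY : Ind G Y) (hXI : Disjoint I X)
    (hYI : Disjoint I Y) (hW : X ∩ W G I = Y ∩ W G I) : Ind G (X ∪ Y) := by
  have key : ∀ A B : Finset V, Ind G A → Disjoint I A → Disjoint I B →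
      A ∩ W G I = B ∩ W G I → ∀ x ∈ A, ∀ y ∈ B, ¬ G.Adj x y := by
    intro A B hA hAI hBI hAB x hx y hy hxy
    have hx' : x ∈ Iᶜ := Finset.mem_compl.2 (fun h1 => Finset.disjoint_left.1 hAI h1 hx)
    have hy' : y ∈ Iᶜ := Finset.mem_compl.2 (fun h1 => Finset.disjoint_left.1 hBI h1 hy)
    have h2 : y ∈ W G I := Finset.mem_filter.2 ⟨hy', x, hx', hxy.symm⟩
    have h3 : y ∈ A ∩ W G I := by
      rw [hAB]; exact Finset.mem_inter.2 ⟨hy, h2⟩
    exact hA x hx y (Finset.mem_inter.1 h3).1 hxy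
  intro x hx y hy hxy
  rw [Finset.mem_union] at hx hy
  rcases hx with hx | hx <;> rcases hy with hy | hy
  · exact hX x hx y hy hxy
  · exact key X Y hX hXI hYI hW x hx y hy hxy
  · exact key Y X hY hYI hXI hW.symm x hx y hy hxy
  · exact hY x hx y hy hxy

/-- (6) -/
lemma exists_exact (h : Ctx G α) (hI : MIS G α I) (T : Finset V) :
    ∃ M : V → V, Exact G α I T M := by
  obtain ⟨f, hf, hf'⟩ := exists_f h hI
  by_cases hT : ∃ I', Cls G α I T I'
  swap
  · exact ⟨f, hf, hf', fun I' hI' => absurd ⟨I', hI'⟩ hT⟩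
  obtain ⟨I₀, hI₀, hT₀⟩ := hT
  -- the largest set
  have trace : ∀ I', (I' \ I) ∩ W G I = I' ∩ W G I := by
    intro I'
    ext x
    simp only [Finset.mem_inter, Finset.mem_sdiff]
    constructor
    · rintro ⟨⟨h1, _⟩, h2⟩; exact ⟨h1, h2⟩
    · rintro ⟨h1, h2⟩
      refine ⟨⟨h1, ?_⟩, h2⟩
      exact Finset.mem_compl.1 (Finset.mem_filter.1 h2).1
  let P : Finset (Finset V) := Finset.univ.filter (fun X : Finset V =>
    Disjoint I X ∧ Ind G X ∧ (nb G I X).card = X.card ∧ X ∩ W G I = T)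
  have hP : ∀ I', Cls G α I T I' → I' \ I ∈ P := by
    intro I' hI'
    refine Finset.mem_filter.2 ⟨Finset.mem_univ _, Finset.disjoint_sdiff,
      hI'.1.1.mono Finset.sdiff_subset, (mis_card h hI hI'.1).1, ?_⟩
    rw [trace]; exact hI'.2
  obtain ⟨X, hXP, hXmax⟩ := Finset.exists_max_image P Finset.card ⟨_, hP I₀ ⟨hI₀, hT₀⟩⟩
  obtain ⟨-, hXI, hX, hXc, hXT⟩ := Finset.mem_filter.1 hXP
  have hlarge : ∀ Y ∈ P, Y ⊆ X := by
    intro Y hY
    obtain ⟨-, hYI, hY, hYc, hYT⟩ := Finset.mem_filter.1 hY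
    have h1 : Ind G (X ∪ Y) := ind_union hX hY hXI hYI (hXT.trans hYT.symm)
    have h2 : Disjoint I (X ∪ Y) := Finset.disjoint_union_right.2 ⟨hXI, hYI⟩
    have h3 := card_le_nb h hI h1 h2
    have h4 := card_le_nb h hI (h1.mono (Finset.inter_subset_left.trans
      (Finset.subset_union_left (s₁ := X) (s₂ := Y)) : X ∩ Y ⊆ X ∪ Y))
      (hXI.mono_right Finset.inter_subset_left)
    have h5 := nb_sup (G := G) (I := I) X Y
    have h6 := Finset.card_union_add_card_inter X Y
    have h7 : X ∪ Y ∈ P := by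
      refine Finset.mem_filter.2 ⟨Finset.mem_univ _, h2, h1, by omega, ?_⟩
      rw [Finset.union_inter_distrib_right, hXT, hYT, Finset.union_self]
    have h8 := hXmax _ h7
    have h9 : X = X ∪ Y := Finset.eq_of_subset_of_card_le Finset.subset_union_left h8
    rw [h9]; exact Finset.subset_union_right
  -- the matching of X
  obtain ⟨g, hg, hg'⟩ := hall X I (fun x a => G.Adj x a) (by
    intro S hS
    have h1 := card_le_nb h hI (hX.mono hS) (hXI.mono_right hS)
    refine h1.trans (Finset.card_le_card ?_)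
    intro a ha
    obtain ⟨h2, x, hx, hax⟩ := mem_nb.1 ha
    exact Finset.mem_filter.2 ⟨h2, x, hx, hax.symm⟩)
  have himg : X.image g = nb G I X := by
    apply Finset.eq_of_subset_of_card_le
    · intro a ha
      obtain ⟨x, hx, rfl⟩ := Finset.mem_image.1 ha
      exact mem_nb.2 ⟨(hg' x hx).1, x, hx, (hg' x hx).2.symm⟩
    · rw [Finset.card_image_of_injOn hg, hXc]
  have hinv : ∀ a ∈ nb G I X, ∃ x ∈ X, g x = a := by
    intro a ha
    rw [← himg] at ha
    exact Finset.mem_image.1 ha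
  choose! k hk hk' using hinv
  let M : V → V := fun a => if a ∈ nb G I X then k a else f a
  have hM1 : ∀ a ∈ nb G I X, M a = k a := fun a ha => if_pos ha
  have hM2 : ∀ a, a ∉ nb G I X → M a = f a := fun a ha => if_neg ha
  have hfX : ∀ a ∈ I, a ∉ nb G I X → f a ∉ X := fun a ha hna h1 =>
    hna (mem_nb.2 ⟨ha, f a, h1, (hf' a ha).2⟩)
  have hMinj : Set.InjOn M I := by
    intro a ha b hb hab
    simp only [Finset.mem_coe] at ha hb
    by_cases h1 : a ∈ nb G I X <;> by_cases h2 : b ∈ nb G I X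
    · rw [hM1 a h1, hM1 b h2] at hab
      rw [← hk' a h1, ← hk' b h2, hab]
    · rw [hM1 a h1, hM2 b h2] at hab
      exact absurd (hab ▸ hk a h1) (hfX b hb h2)
    · rw [hM2 a h1, hM1 b h2] at hab
      exact absurd (hab.symm ▸ hk b h2) (hfX a ha h1)
    · rw [hM2 a h1, hM2 b h2] at hab
      exact hf ha hb hab
  have hMadj : ∀ a ∈ I, M a ∈ Iᶜ ∧ G.Adj a (M a) := by
    intro a ha
    by_cases h1 : a ∈ nb G I X
    · rw [hM1 a h1]
      refine ⟨Finset.mem_compl.2 (fun h2 => Finset.disjoint_left.1 hXI h2 (hk a h1)), ?_⟩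
      have := (hg' (k a) (hk a h1)).2
      rw [hk' a h1] at this
      exact this.symm
    · rw [hM2 a h1]; exact hf' a ha
  refine ⟨M, hMinj, hMadj, ?_⟩
  intro I' hI' a ha
  constructor
  · intro h1 h2
    exact hI'.1.1 a h2 _ h1 (hMadj a ha).2
  · intro h1
    have hY := hlarge _ (hP I' hI')
    obtain ⟨h2, h3⟩ := mis_card h hI hI'.1
    -- the members of `I` matched into `I'`
    have h4 : (I' \ I).image g = nb G I (I' \ I) := by
      apply Finset.eq_of_subset_of_card_le
      · intro b hb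
        obtain ⟨x, hx, rfl⟩ := Finset.mem_image.1 hb
        exact mem_nb.2 ⟨(hg' x (hY hx)).1, x, hx, (hg' x (hY hx)).2.symm⟩
      · rw [Finset.card_image_of_injOn (hg.mono (Finset.coe_subset.2 hY)), h2]
    have h5 : a ∈ nb G I (I' \ I) := by
      by_contra h6
      exact h1 ((h3 a ha).2 h6)
    have h6 : a ∈ nb G I X := nb_mono hY h5
    rw [← h4] at h5
    obtain ⟨x, hx, hxa⟩ := Finset.mem_image.1 h5
    have h7 : k a = x := hg (hk a h6) (hY hx) ((hk' a h6).trans hxa.symm)
    rw [hM1 a h6, h7]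
    exact (Finset.mem_sdiff.1 hx).1

/-- the exact matching of the class `T` -/
noncomputable def Mt (h : Ctx G α) (hI : MIS G α I) (T : Finset V) : V → V :=
  (exists_exact h hI T).choose

lemma Mt_spec (h : Ctx G α) (hI : MIS G α I) (T : Finset V) : Exact G α I T (Mt h hI T) :=
  (exists_exact h hI T).choose_spec

/-- one step: `N y = M x` -/
def Step (I : Finset V) (M N : V → V) (x y : V) : Prop := x ∈ I ∧ y ∈ I ∧ N y = M x

lemma step_unique {M N : V → V} (hN : Set.InjOn N I) :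
    Relator.RightUnique (Step I M N) := by
  intro x y z hy hz
  exact hN hy.2.1 hz.2.1 (hy.2.2.trans hz.2.2.symm)

/-- (A) -/
lemma fact_A {T : Finset V} {M N : V → V} (hM : ∀ a ∈ I, G.Adj a (M a))
    (hN : Exact G α I T N) {I' : Finset V} (hI' : Cls G α I T I') {x y : V}
    (hx : M x ∉ I') (hxy : Relation.TransGen (Step I M N) x y) : y ∈ I' := by
  induction hxy with
  | single hs =>
    obtain ⟨h1, h2, h3⟩ := hs
    by_contra h4
    have := (hN.2.2 I' hI' _ h2).2 h4
    rw [h3] at this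
    exact hx this
  | tail _ hs ih =>
    obtain ⟨h1, h2, h3⟩ := hs
    by_contra h4
    have := (hN.2.2 I' hI' _ h2).2 h4
    rw [h3] at this
    exact hI'.1.1 _ ih _ this (hM _ h1)

/-- (B) -/
lemma fact_B {K : Finset V} {M N : V → V} (hM : Exact G α I K M)
    (hN : ∀ a ∈ I, G.Adj a (N a)) {C : Finset V} (hC : Cls G α I K C) {x y : V}
    (hx : M x ∈ C) (hxy : Relation.ReflTransGen (Step I M N) x y) : M y ∈ C := by
  induction hxy with
  | refl => exact hx
  | tail _ hs ih =>
    obtain ⟨h1, h2, h3⟩ := hs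
    rw [hM.2.2 C hC _ h2]
    intro h4
    rw [← h3] at ih
    exact hC.1.1 _ h4 _ ih (hN _ h2)

/-- `u` is the label of `x` -/
def Lab (I : Finset V) (M N : V → V) (x u : V) : Prop :=
  ∃ y ∈ I, Relation.ReflTransGen (Step I M N) y x ∧ N y = u ∧ ∀ a ∈ I, M a ≠ u

/-- (L) -/
lemma fact_L {T : Finset V} {M N : V → V} (hM : ∀ a ∈ I, G.Adj a (M a))
    (hN : Exact G α I T N) {I' : Finset V} (hI' : Cls G α I T I') {x : V} (hxI : x ∈ I)
    (hx : x ∉ I') (hMx : M x ∉ I') : ∃ u, Lab I M N x u := by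
  by_contra hcon
  have h1 : ∀ y ∈ I, Relation.ReflTransGen (Step I M N) y x → ∃ a ∈ I, M a = N y := by
    intro y hy hyx
    by_contra h2
    push Not at h2
    exact hcon ⟨N y, y, hy, hyx, rfl, h2⟩
  let P := I.filter (fun y => Relation.ReflTransGen (Step I M N) y x)
  have h2 : ∀ y ∈ P, ∃ a ∈ I, M a = N y := fun y hy =>
    h1 y (Finset.mem_filter.1 hy).1 (Finset.mem_filter.1 hy).2
  choose! p hp hp' using h2
  have h3 : ∀ y ∈ P, p y ∈ P := by
    intro y hy
    refine Finset.mem_filter.2 ⟨hp y hy, ?_⟩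
    exact Relation.ReflTransGen.head ⟨hp y hy, (Finset.mem_filter.1 hy).1, (hp' y hy).symm⟩
      (Finset.mem_filter.1 hy).2
  have h4 : Set.InjOn p P := by
    intro y hy z hz hyz
    simp only [Finset.mem_coe] at hy hz
    have h5 := hp' y hy
    have h6 := hp' z hz
    rw [hyz, h6] at h5
    exact (hN.1 (Finset.mem_filter.1 hz).1 (Finset.mem_filter.1 hy).1 h5).symm
  have h5 : P.image p = P := by
    apply Finset.eq_of_subset_of_card_le
    · intro z hz
      obtain ⟨y, hy, rfl⟩ := Finset.mem_image.1 hz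
      exact h3 y hy
    · rw [Finset.card_image_of_injOn h4]
  have h6 : x ∈ P := Finset.mem_filter.2 ⟨hxI, Relation.ReflTransGen.refl⟩
  have h7 : x ∈ P.image p := by rw [h5]; exact h6
  obtain ⟨y, hy, hyx⟩ := Finset.mem_image.1 h7
  have h8 : ∀ z, Relation.ReflTransGen (Step I M N) z x → z ∉ I' := by
    intro z hz
    induction hz using Relation.ReflTransGen.head_induction_on with
    | refl => exact hx
    | head hs _ ih =>
      obtain ⟨g1, g2, g3⟩ := hs
      intro g4
      have g5 := (hN.2.2 I' hI' _ g2).2 ih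
      rw [g3] at g5
      exact hI'.1.1 _ g4 _ g5 (hM _ g1)
  have h9 := h8 y (Finset.mem_filter.1 hy).2
  have h10 := (hN.2.2 I' hI' y (Finset.mem_filter.1 hy).1).2 h9
  rw [← hp' y hy, hyx] at h10
  exact hMx h10

/-- (Cmp) -/
lemma lab_cmp {M N : V → V} (hN : Set.InjOn N I) {x x' u : V}
    (h1 : Lab I M N x u) (h2 : Lab I M N x' u) :
    Relation.ReflTransGen (Step I M N) x x' ∨ Relation.ReflTransGen (Step I M N) x' x := by
  obtain ⟨y, hy, hyx, hyu, _⟩ := h1
  obtain ⟨z, hz, hzx, hzu, _⟩ := h2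
  have h3 : y = z := hN hy hz (hyu.trans hzu.symm)
  rw [← h3] at hzx
  exact Relation.ReflTransGen.total_of_right_unique (step_unique hN) hyx hzx

end Pool.Agent.Q19.Stab
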