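import Pool.Agent.Q19.StabB

set_option autoImplicit false
set_option linter.unusedVariables false

/-! Critical 3-stable graphs, part C: the injection and the bound. -/

open Classical

namespace Pool.Agent.Q19.Stab

variable {V : Type*} [Fintype V] {G : SimpleGraph V} {α : ℕ} {I : Finset V}

/-- `a` and its partner `M a` are exchanged by two members of the class `K` -/
def EK (G : SimpleGraph V) (α : ℕ) (I K : Finset V) (M : V → V) (a : V) : Prop :=
  a ∈ I ∧ ∃ C C' : Finset V, Cls G α I K C ∧ Cls G α I K C' ∧ M a ∉ C ∧ M a ∈ C' ∧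
    ∀ v, v ≠ a → v ≠ M a → (v ∈ C ↔ v ∈ C')

/-- (7) -/
lemma exists_EK (h : Ctx G α) (hI : MIS G α I) {b : V} (hb : b ∈ Iᶜ) (hbW : b ∉ W G I) :
    ∃ K ⊆ W G I, ∃ a, EK G α I K (Mt h hI K) a ∧ Mt h hI K a = b := by
  -- a neighbour
  have h1 : ∃ a, G.Adj a b := by
    by_contra hcon
    push Not at hcon
    obtain ⟨I', h1, h2, h3⟩ := h.st {b} (by simp)
    have hbI' : b ∉ I' := fun h4 => Finset.disjoint_left.1 h3 h4 (Finset.mem_singleton_self b)
    have h4 : Ind G (insert b I') := by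
      intro x hx y hy hxy
      rw [Finset.mem_insert] at hx hy
      rcases hx with rfl | hx
      · exact hcon _ hxy.symm
      · rcases hy with rfl | hy
        · exact hcon _ hxy
        · exact h1 x hx y hy hxy
    have h5 := h.le _ h4
    rw [Finset.card_insert_of_notMem hbI'] at h5
    omega
  obtain ⟨a, hab⟩ := h1
  have haI : a ∈ I := by
    by_contra h2
    exact hbW (Finset.mem_filter.2 ⟨hb, a, Finset.mem_compl.2 h2, hab.symm⟩)
  have haW : a ∉ W G I := fun h2 => Finset.mem_compl.1 (Finset.mem_filter.1 h2).1 haI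
  have hne : a ≠ b := hab.ne
  obtain ⟨S, s1, s2, s3, s4⟩ := h.crit a b hab
  have hA : MIS G α (S.erase b) := by
    refine ⟨?_, by rw [Finset.card_erase_of_mem s2]; omega⟩
    intro x hx y hy hxy
    rw [Finset.mem_erase] at hx hy
    rcases s4 x hx.2 y hy.2 hxy with ⟨_, e⟩ | ⟨e, _⟩
    · exact hy.1 e
    · exact hx.1 e
  have hA' : MIS G α (S.erase a) := by
    refine ⟨?_, by rw [Finset.card_erase_of_mem s1]; omega⟩
    intro x hx y hy hxy
    rw [Finset.mem_erase] at hx hy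
    rcases s4 x hx.2 y hy.2 hxy with ⟨e, _⟩ | ⟨_, e⟩
    · exact hx.1 e
    · exact hy.1 e
  have hC : Cls G α I (S ∩ W G I) (S.erase b) := by
    refine ⟨hA, ?_⟩
    ext v
    simp only [Finset.mem_inter, Finset.mem_erase]
    constructor
    · rintro ⟨⟨_, h2⟩, h3⟩; exact ⟨h2, h3⟩
    · rintro ⟨h2, h3⟩
      exact ⟨⟨fun e => hbW (e ▸ h3), h2⟩, h3⟩
  have hC' : Cls G α I (S ∩ W G I) (S.erase a) := by
    refine ⟨hA', ?_⟩
    ext v
    simp only [Finset.mem_inter, Finset.mem_erase]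
    constructor
    · rintro ⟨⟨_, h2⟩, h3⟩; exact ⟨h2, h3⟩
    · rintro ⟨h2, h3⟩
      exact ⟨⟨fun e => haW (e ▸ h3), h2⟩, h3⟩
  have hM := Mt_spec h hI (S ∩ W G I)
  have e1 : Mt h hI (S ∩ W G I) a ∉ S.erase b := by
    rw [hM.2.2 _ hC a haI]
    exact fun h2 => h2 (Finset.mem_erase.2 ⟨hne, s1⟩)
  have e2 : Mt h hI (S ∩ W G I) a ∈ S.erase a := by
    rw [hM.2.2 _ hC' a haI]
    exact Finset.notMem_erase _ _
  have e3 : Mt h hI (S ∩ W G I) a = b := by
    by_contra h2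
    exact e1 (Finset.mem_erase.2 ⟨h2, (Finset.mem_erase.1 e2).2⟩)
  refine ⟨S ∩ W G I, Finset.inter_subset_right, a, ⟨haI, _, _, hC, hC', e1, e2, ?_⟩, e3⟩
  intro v hv hv'
  rw [e3] at hv'
  rw [Finset.mem_erase, Finset.mem_erase]
  exact ⟨fun h2 => ⟨hv, h2.2⟩, fun h2 => ⟨hv', h2.2⟩⟩

lemma inj_aux (h : Ctx G α) (hI : MIS G α I) {K : Finset V} {x x' : V}
    (hx : EK G α I K (Mt h hI K) x) (hx' : EK G α I K (Mt h hI K) x') (hne : x ≠ x')
    (hlab : ∀ T ⊆ W G I, (∃ u, Lab I (Mt h hI K) (Mt h hI T) x u) →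
      ∃ u, Lab I (Mt h hI K) (Mt h hI T) x u ∧ Lab I (Mt h hI K) (Mt h hI T) x' u)
    {T₀ : Finset V} (hs : Relation.ReflTransGen (Step I (Mt h hI K) (Mt h hI T₀)) x x') :
    False := by
  have hM := Mt_spec h hI K
  have b1 : ∀ C, Cls G α I K C → Mt h hI K x ∈ C → Mt h hI K x' ∈ C := fun C hC h1 =>
    fact_B hM (fun a ha => ((Mt_spec h hI T₀).2.1 a ha).2) hC h1 hs
  obtain ⟨I', h1, h2, h3⟩ := h.st {x, Mt h hI K x, x'} Finset.card_le_three
  rw [Finset.disjoint_right] at h3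
  have a1 : x ∉ I' := h3 (by simp)
  have a2 : Mt h hI K x ∉ I' := h3 (by simp)
  have a3 : x' ∉ I' := h3 (by simp)
  have hC : Cls G α I (I' ∩ W G I) I' := ⟨⟨h1, h2⟩, rfl⟩
  have hN := Mt_spec h hI (I' ∩ W G I)
  have hex := fact_L (fun a ha => (hM.2.1 a ha).2) hN hC hx.1 a1 a2
  obtain ⟨u, l1, l2⟩ := hlab (I' ∩ W G I) Finset.inter_subset_right hex
  have hcase := lab_cmp hN.1 l1 l2
  have b2 : ∀ C, Cls G α I K C → Mt h hI K x' ∈ C → Mt h hI K x ∈ C := by
    rcases hcase with h4 | h4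
    · exfalso
      rcases Relation.reflTransGen_iff_eq_or_transGen.1 h4 with h5 | h5
      · exact hne h5.symm
      · exact a3 (fact_A (fun a ha => (hM.2.1 a ha).2) hN hC a2 h5)
    · intro C hC' h5
      exact fact_B hM (fun a ha => (hN.2.1 a ha).2) hC' h5 h4
  obtain ⟨hxI, C, C', c1, c2, c3, c4, c5⟩ := hx
  have h6 : Mt h hI K x' ≠ x := by
    intro h7
    have h8 := (hM.2.1 x' hx'.1).1
    rw [h7] at h8
    exact Finset.mem_compl.1 h8 hxI
  have h7 : Mt h hI K x' ≠ Mt h hI K x := fun h8 => hne (hM.1 hx'.1 hxI h8).symm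
  exact c3 (b2 C c1 ((c5 _ h6 h7).2 (b1 C' c2 c4)))

/-- (9) -/
lemma EK_card (h : Ctx G α) (hI : MIS G α I) (K : Finset V) :
    (Finset.univ.filter (fun a => EK G α I K (Mt h hI K) a)).card ≤
      (Iᶜ.card - I.card + 1) ^ (2 ^ (W G I).card) := by
  let M := Mt h hI K
  have hM : Exact G α I K M := Mt_spec h hI K
  let D : Finset V := Iᶜ \ I.image M
  have hD : D.card = Iᶜ.card - I.card := by
    have h1 : I.image M ⊆ Iᶜ := by
      intro b hb
      obtain ⟨a, ha, rfl⟩ := Finset.mem_image.1 hb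
      exact (hM.2.1 a ha).1
    rw [Finset.card_sdiff_of_subset h1, Finset.card_image_of_injOn hM.1]
  have hLD : ∀ T x u, Lab I M (Mt h hI T) x u → u ∈ D := by
    rintro T x u ⟨y, hy, _, h1, h2⟩
    refine Finset.mem_sdiff.2 ⟨?_, ?_⟩
    · rw [← h1]; exact ((Mt_spec h hI T).2.1 y hy).1
    · intro h3
      obtain ⟨a, ha, h4⟩ := Finset.mem_image.1 h3
      exact h2 a ha h4
  let φ : {a // EK G α I K M a} → ((W G I).powerset → Option D) := fun a T =>
    if hu : ∃ u, Lab I M (Mt h hI T.1) a.1 u then some ⟨hu.choose, hLD _ _ _ hu.choose_spec⟩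
    else none
  have key : ∀ a b : {a // EK G α I K M a}, φ a = φ b → ∀ T ⊆ W G I,
      (∃ u, Lab I M (Mt h hI T) a.1 u) →
      ∃ u, Lab I M (Mt h hI T) a.1 u ∧ Lab I M (Mt h hI T) b.1 u := by
    intro a b hab T hT hu
    have h1 := congrFun hab ⟨T, Finset.mem_powerset.2 hT⟩
    simp only [φ] at h1
    rw [dif_pos hu] at h1
    split_ifs at h1 with h2
    have h3 := congrArg Subtype.val (Option.some.inj h1)
    simp only at h3
    refine ⟨hu.choose, hu.choose_spec, ?_⟩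
    rw [h3]
    exact h2.choose_spec
  have hinj : Function.Injective φ := by
    intro a b hab
    by_contra hne
    have hne' : a.1 ≠ b.1 := fun h1 => hne (Subtype.ext h1)
    obtain ⟨I', h1, h2, h3⟩ := h.st {a.1, M a.1, b.1} Finset.card_le_three
    rw [Finset.disjoint_right] at h3
    have a1 : a.1 ∉ I' := h3 (by simp)
    have a2 : M a.1 ∉ I' := h3 (by simp)
    have hC : Cls G α I (I' ∩ W G I) I' := ⟨⟨h1, h2⟩, rfl⟩
    have hN := Mt_spec h hI (I' ∩ W G I)
    have hex := fact_L (fun a ha => (hM.2.1 a ha).2) hN hC a.2.1 a1 a2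
    obtain ⟨u, l1, l2⟩ := key a b hab (I' ∩ W G I) Finset.inter_subset_right hex
    rcases lab_cmp hN.1 l1 l2 with h4 | h4
    · exact inj_aux h hI a.2 b.2 hne' (key a b hab) h4
    · exact inj_aux h hI b.2 a.2 hne'.symm (key b a hab.symm) h4
  have h1 := Fintype.card_le_of_injective φ hinj
  rw [Fintype.card_fun, Fintype.card_option, Fintype.card_coe, Fintype.card_coe,
    Finset.card_powerset, hD, Fintype.card_subtype] at h1
  exact h1

/-- the bound -/
def bd (δ : ℕ) : ℕ :=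
  2 * (2 ^ (δ + 1) + 2 ^ (2 ^ (δ + 1)) * (δ + 1) ^ (2 ^ (2 ^ (δ + 1))))

lemma bd_mono {a b : ℕ} (h : a ≤ b) : bd a ≤ bd b := by
  have h1 : 2 ^ (a + 1) ≤ 2 ^ (b + 1) := Nat.pow_le_pow_right (by norm_num) (by omega)
  have h2 : 2 ^ (2 ^ (a + 1)) ≤ 2 ^ (2 ^ (b + 1)) := Nat.pow_le_pow_right (by norm_num) h1
  have h3 : (a + 1) ^ (2 ^ (2 ^ (a + 1))) ≤ (b + 1) ^ (2 ^ (2 ^ (b + 1))) :=
    (Nat.pow_le_pow_left (by omega) _).trans (Nat.pow_le_pow_right (by omega) h2)
  unfold bd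
  exact Nat.mul_le_mul_left _ (Nat.add_le_add h1 (Nat.mul_le_mul h2 h3))

theorem card_bound (h : Ctx G α) : Fintype.card V ≤ bd (Fintype.card V - 2 * α) := by
  obtain ⟨I, hI1, hI2, -⟩ := h.st ∅ (by simp)
  have hI : MIS G α I := ⟨hI1, hI2⟩
  have h0 : I.card + Iᶜ.card = Fintype.card V := Finset.card_add_card_compl I
  have h00 := card_le_compl h hI
  have hδ : Iᶜ.card - I.card = Fintype.card V - 2 * α := by omega
  set δ := Fintype.card V - 2 * α with hδ'
  have hW := W_card h hI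
  rw [hδ] at hW
  have h1 : Iᶜ \ W G I ⊆ (W G I).powerset.biUnion (fun K =>
      (Finset.univ.filter (fun a => EK G α I K (Mt h hI K) a)).image (Mt h hI K)) := by
    intro b hb
    rw [Finset.mem_sdiff] at hb
    obtain ⟨K, hK, a, ha, hab⟩ := exists_EK h hI hb.1 hb.2
    rw [Finset.mem_biUnion]
    exact ⟨K, Finset.mem_powerset.2 hK, Finset.mem_image.2
      ⟨a, Finset.mem_filter.2 ⟨Finset.mem_univ _, ha⟩, hab⟩⟩
  have h2 := (Finset.card_le_card h1).trans Finset.card_biUnion_le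
  have h3 : ∑ K ∈ (W G I).powerset, ((Finset.univ.filter
      (fun a => EK G α I K (Mt h hI K) a)).image (Mt h hI K)).card ≤
      (W G I).powerset.card * (δ + 1) ^ (2 ^ (W G I).card) := by
    rw [← smul_eq_mul]
    apply Finset.sum_le_card_nsmul
    intro K hK
    refine Finset.card_image_le.trans ?_
    have := EK_card h hI K
    rw [hδ] at this
    exact this
  rw [Finset.card_powerset] at h3
  have h4 : (Iᶜ).card ≤ (W G I).card + (Iᶜ \ W G I).card := by
    have h5 : Iᶜ ⊆ W G I ∪ (Iᶜ \ W G I) := by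
      intro b hb
      rw [Finset.mem_union, Finset.mem_sdiff]
      by_cases h6 : b ∈ W G I
      · exact Or.inl h6
      · exact Or.inr ⟨hb, h6⟩
    exact (Finset.card_le_card h5).trans (Finset.card_union_le _ _)
  have h5 : 2 ^ (W G I).card ≤ 2 ^ (2 ^ (δ + 1)) := Nat.pow_le_pow_right (by norm_num) hW
  have h6 : (δ + 1) ^ (2 ^ (W G I).card) ≤ (δ + 1) ^ (2 ^ (2 ^ (δ + 1))) :=
    Nat.pow_le_pow_right (by omega) h5
  have h7 := Nat.mul_le_mul h5 h6
  unfold bd
  omega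

end Pool.Agent.Q19.Stab
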