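import Pool.Agent.Q19.CentChain

/-!
# Groups with two staircases
-/

set_option autoImplicit false

namespace Q19.ThreeTwo

open Q19.CentChain

/-- facts on the symmetric group of degree three -/
theorem s3_center : ∀ x y c : Equiv.Perm (Fin 3), x * y ≠ y * x → x * c = c * x → y * c = c * y →
    c = 1 := by decide +kernel

theorem s3_cube : ∀ t : Equiv.Perm (Fin 3), t ^ 3 = 1 → t ≠ 1 → ∀ g, g * t = t * g →
    g = 1 ∨ g = t ∨ g = t * t := by decide +kernel

theorem s3_conj : ∀ t : Equiv.Perm (Fin 3), t ^ 3 = 1 → t ≠ 1 → ∀ g, g * t * g⁻¹ = t ∨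
    g * t * g⁻¹ = t * t := by decide +kernel

variable {G : Type*} [Group G] [Finite G]

omit [Finite G] in
/-- A subgroup of index `p` containing a Sylow subgroup... the elementary fact used: if a subgroup
contains a subgroup `P` of index `3` and an element outside `P` then it is everything. -/
theorem eq_top_of_index_three {P H : Subgroup G} (hP : P.index = 3) (hPH : P ≤ H) {t : G}
    (htH : t ∈ H) (htP : t ∉ P) : H = ⊤ := by
  have h1 : P.relIndex H * H.index = P.index := Subgroup.relIndex_mul_index hPH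
  rw [hP] at h1
  have h2 : P.relIndex H ≠ 1 := by
    intro h
    rw [Subgroup.relIndex_eq_one] at h
    exact htP (h htH)
  have h3 : P.relIndex H ∣ 3 := ⟨_, h1.symm⟩
  rcases (Nat.dvd_prime Nat.prime_three).1 h3 with h4 | h4
  · exact absurd h4 h2
  · rw [h4] at h1
    have : H.index = 1 := by omega
    exact Subgroup.index_eq_one.1 this

theorem lower (m : ℕ) (hm : 4 ≤ m) (X1 Y1 X2 Y2 : ℕ → G) (s1 : Staircase m X1 Y1)
    (s2 : Staircase m X2 Y2) (A : G)
    (hgen : Subgroup.closure ({g | ∃ k < m, g = X1 k} ∪ {g | ∃ k < m, g = X2 k} ∪ {A}) = ⊤)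
    (hA : ∀ θ : G →* Equiv.Perm (Fin 3), θ A = 1 ∧
      ∀ i j, i < m → j < m → Commute (θ (X1 i)) (θ (X2 j))) :
    2 ^ (m + 1) ≤ Nat.card G := by
  by_contra hcon
  push Not at hcon
  have htriv : ∀ (X Y : ℕ → G), Staircase m X Y → C X m = ⊥ := by
    intro X Y s
    by_contra hne
    have h1 := s.top m le_rfl
    have h2 : 2 ≤ Nat.card (C X m) := by
      have := (Subgroup.one_lt_card_iff_ne_bot _).2 hne
      omega
    have : 2 ^ m * 2 ≤ 2 ^ m * Nat.card (C X m) := Nat.mul_le_mul_left _ h2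
    rw [pow_succ] at hcon
    omega
  have hb1 := htriv _ _ s1
  have hb2 := htriv _ _ s2
  have hcen : ∀ u : G, (∀ g, Commute g u) → u = 1 := by
    intro u hu
    have : u ∈ C X1 m := mem_C.2 fun k _ => hu _
    rw [hb1] at this
    exact Subgroup.mem_bot.1 this
  have hfact2 : Fact (Nat.Prime 2) := ⟨Nat.prime_two⟩
  have hfact3 : Fact (Nat.Prime 3) := ⟨Nat.prime_three⟩
  have hcard : Nat.card G = 3 * 2 ^ (m - 1) := by
    rcases s1.card hb1 hcon with h | ⟨-, h⟩
    · exfalso
      have hp : IsPGroup 2 G := IsPGroup.of_card h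
      have : Nontrivial G := by
        rw [← Finite.one_lt_card_iff_nontrivial, h]
        exact Nat.one_lt_two_pow (by omega)
      have := hp.center_nontrivial
      obtain ⟨⟨u, hu⟩, hu1⟩ := exists_ne (1 : Subgroup.center G)
      apply hu1
      apply Subtype.ext
      exact hcen u fun g => Subgroup.mem_center_iff.1 hu g
    · exact h
  -- a Sylow 2-subgroup
  obtain ⟨P⟩ : Nonempty (Sylow 2 G) := inferInstance
  have hPcard : Nat.card P = 2 ^ (m - 1) := by
    have h1 := Sylow.card_eq_multiplicity P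
    rw [h1, hcard]
    congr 1
    rw [Nat.factorization_mul (by norm_num) (by positivity), Nat.factorization_pow]
    simp only [Finsupp.add_apply, Finsupp.smul_apply, smul_eq_mul]
    rw [Nat.factorization_eq_zero_of_not_dvd (by norm_num), Nat.prime_two.factorization_self]
    omega
  have hPindex : (P : Subgroup G).index = 3 := by
    have h1 := (P : Subgroup G).card_mul_index
    rw [hcard] at h1
    have h2 : Nat.card (P : Subgroup G) = 2 ^ (m - 1) := hPcard
    rw [h2, mul_comm] at h1
    exact Nat.eq_of_mul_eq_mul_right (by positivity) h1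
  -- the action on the cosets
  obtain ⟨θ, hθ⟩ : ∃ θ : G →* Equiv.Perm (Fin 3), θ.ker ≤ P := by
    have h1 : Nat.card (G ⧸ (P : Subgroup G)) = 3 := hPindex
    have e : G ⧸ (P : Subgroup G) ≃ Fin 3 := Nat.equivFinOfCardPos (by rw [h1]; norm_num) |>.trans
      (finCongr h1)
    refine ⟨(Equiv.permCongrHom e).toMonoidHom.comp (MulAction.toPermHom G (G ⧸ (P : Subgroup G))), ?_⟩
    intro g hg
    rw [MonoidHom.mem_ker, MonoidHom.comp_apply] at hg
    have h2 : MulAction.toPermHom G (G ⧸ (P : Subgroup G)) g = 1 := by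
      apply (Equiv.permCongrHom e).injective
      rw [map_one]; exact hg
    have h3 : g ∈ (MulAction.toPermHom G (G ⧸ (P : Subgroup G))).ker := h2
    rw [← Subgroup.normalCore_eq_ker] at h3
    exact Subgroup.normalCore_le _ h3
  set N := θ.ker with hN
  have hNp : IsPGroup 2 N := P.2.to_le hθ
  have hNne : N ≠ ⊥ := by
    intro h
    have hinj : Function.Injective θ := (MonoidHom.ker_eq_bot_iff θ).1 h
    have h1 := Nat.card_le_card_of_injective _ hinj
    have h2 : Nat.card (Equiv.Perm (Fin 3)) = 6 := by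
      rw [Nat.card_perm]; simp; rfl
    rw [h2, hcard] at h1
    have h3 : 2 ^ 3 ≤ 2 ^ (m - 1) := Nat.pow_le_pow_right (by norm_num) (by omega)
    omega
  have hNnt : Nontrivial N := (Subgroup.nontrivial_iff_ne_bot N).2 hNne
  -- the centre of `N`
  set V : Subgroup G := (Subgroup.center N).map N.subtype with hV
  have hVN : V ≤ N := by
    rintro _ ⟨v, -, rfl⟩
    exact v.2
  have hVc : ∀ v ∈ V, ∀ n ∈ N, Commute n v := by
    rintro _ ⟨v, hv, rfl⟩ n hn
    have := Subgroup.mem_center_iff.1 hv ⟨n, hn⟩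
    exact congrArg Subtype.val this
  have hVmem : ∀ v ∈ N, (∀ n ∈ N, Commute n v) → v ∈ V := by
    intro v hv h
    refine ⟨⟨v, hv⟩, ?_, rfl⟩
    rw [SetLike.mem_coe, Subgroup.mem_center_iff]
    intro n
    exact Subtype.ext (h n n.2)
  have hNn : N.Normal := by rw [hN]; infer_instance
  have hVn : ∀ v ∈ V, ∀ g : G, g * v * g⁻¹ ∈ V := by
    intro v hv g
    apply hVmem _ (hNn.conj_mem v (hVN hv) g)
    intro n hn
    have h1 := hVc v hv (g⁻¹ * n * g) (by simpa using hNn.conj_mem n hn g⁻¹)
    have h2 : g⁻¹ * n * g * v = v * (g⁻¹ * n * g) := h1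
    show n * (g * v * g⁻¹) = g * v * g⁻¹ * n
    calc n * (g * v * g⁻¹) = g * (g⁻¹ * n * g * v) * g⁻¹ := by group
      _ = g * (v * (g⁻¹ * n * g)) * g⁻¹ := by rw [h2]
      _ = _ := by group
  have hVne : V ≠ ⊥ := by
    intro h
    have := hNp.center_nontrivial
    obtain ⟨⟨u, hu⟩, hu1⟩ := exists_ne (1 : Subgroup.center N)
    have h2 : (u : G) ∈ V := ⟨u, hu, rfl⟩
    rw [h, Subgroup.mem_bot] at h2
    apply hu1
    apply Subtype.ext
    exact Subtype.ext h2
  have hVp : IsPGroup 2 V := hNp.to_le hVN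
  -- an element of order three
  obtain ⟨t, ht⟩ := exists_prime_orderOf_dvd_card' (G := G) 3 (by rw [hcard]; exact ⟨_, rfl⟩)
  have ht3 : t ^ 3 = 1 := by rw [← ht]; exact pow_orderOf_eq_one t
  have htP : t ∉ (P : Subgroup G) := by
    intro h
    obtain ⟨k, hk⟩ := P.2 ⟨t, h⟩
    have hk' : t ^ 2 ^ k = 1 := congrArg Subtype.val hk
    have h3 : 3 ∣ 2 ^ k := ht ▸ orderOf_dvd_of_pow_eq_one hk'
    have := Nat.prime_three.dvd_of_dvd_pow h3
    omega
  have htθ : θ t ≠ 1 := fun h => htP (hθ h)
  have htθ3 : θ t ^ 3 = 1 := by rw [← map_pow, ht3, map_one]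
  -- no nontrivial element of `V` commutes with `t`
  have hfree : ∀ v ∈ V, Commute t v → v = 1 := by
    by_contra hcon2
    push Not at hcon2
    obtain ⟨v, hvV, hvt, hv1⟩ := hcon2
    -- conjugates of `t`
    have hconj : ∀ g : G, ∃ n ∈ N, g⁻¹ * t * g = t * n ∨ g⁻¹ * t * g = t * t * n := by
      intro g
      rcases s3_conj (θ t) htθ3 htθ (θ g⁻¹) with h | h
      · refine ⟨t⁻¹ * (g⁻¹ * t * g), ?_, Or.inl (by group)⟩
        rw [hN, MonoidHom.mem_ker, map_mul, map_mul, map_mul]
        have : θ g⁻¹ * θ t * θ g = θ t := by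
          rw [map_inv, inv_inv] at h
          rw [map_inv]; exact h
        rw [this, map_inv, inv_mul_cancel]
      · refine ⟨(t * t)⁻¹ * (g⁻¹ * t * g), ?_, Or.inr (by group)⟩
        rw [hN, MonoidHom.mem_ker, map_mul, map_mul, map_mul]
        have : θ g⁻¹ * θ t * θ g = θ t * θ t := by
          rw [map_inv, inv_inv] at h
          rw [map_inv]; exact h
        rw [this, map_inv, map_mul, inv_mul_cancel]
    let U : Subgroup G := V ⊓ Subgroup.centralizer {t}
    have hUmem : ∀ u, u ∈ U ↔ u ∈ V ∧ Commute t u := by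
      intro u
      rw [Subgroup.mem_inf, Subgroup.mem_centralizer_iff]
      simp [Commute, SemiconjBy]
    have hUn : ∀ u ∈ U, ∀ g : G, g * u * g⁻¹ ∈ U := by
      intro u hu g
      rw [hUmem] at hu ⊢
      refine ⟨hVn u hu.1 g, ?_⟩
      obtain ⟨n, hn, h⟩ := hconj g
      have hun : Commute n u := hVc u hu.1 n hn
      have h1 : Commute (g⁻¹ * t * g) u := by
        rcases h with h | h
        · rw [h]; exact hu.2.mul_left hun
        · rw [h]; exact (hu.2.mul_left hu.2).mul_left hun
      have h2 : g⁻¹ * t * g * u = u * (g⁻¹ * t * g) := h1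
      show t * (g * u * g⁻¹) = g * u * g⁻¹ * t
      calc t * (g * u * g⁻¹) = g * (g⁻¹ * t * g * u) * g⁻¹ := by group
        _ = g * (u * (g⁻¹ * t * g)) * g⁻¹ := by rw [h2]
        _ = _ := by group
    let act : MulAction P U :=
      { smul := fun p u => ⟨(p : G) * u * (p : G)⁻¹, hUn u u.2 p⟩
        one_smul := fun u => Subtype.ext (by show (1 : G) * u * (1 : G)⁻¹ = u; simp)
        mul_smul := fun p q u => Subtype.ext (by
          show ((p : G) * q) * u * ((p : G) * q)⁻¹ = (p : G) * ((q : G) * u * (q : G)⁻¹) * (p : G)⁻¹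
          group) }
    have hUp : IsPGroup 2 U := hVp.to_le inf_le_left
    have hUnt : Nontrivial U := ⟨⟨⟨v, (hUmem v).2 ⟨hvV, hvt⟩⟩, 1, fun h => hv1 (congrArg Subtype.val h)⟩⟩
    have h2U : 2 ∣ Nat.card U := by
      obtain ⟨k, hk0, hk⟩ := hUp.nontrivial_iff_card.1 hUnt
      rw [hk]
      exact dvd_pow_self 2 (by omega)
    obtain ⟨⟨u, hu⟩, hu1, hu2⟩ := P.2.exists_fixed_point_of_prime_dvd_card_of_fixed_point U h2U
      (a := 1) (by
        intro p
        apply Subtype.ext
        show (p : G) * 1 * (p : G)⁻¹ = 1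
        simp)
    have hu3 : ∀ p ∈ (P : Subgroup G), Commute p u := by
      intro p hp
      have := congrArg Subtype.val (hu1 ⟨p, hp⟩)
      have h4 : p * u * p⁻¹ = u := this
      show p * u = u * p
      rw [mul_inv_eq_iff_eq_mul] at h4
      exact h4
    have htop : Subgroup.centralizer {u} = (⊤ : Subgroup G) := by
      apply eq_top_of_index_three hPindex (t := t) _ _ htP
      · intro p hp
        rw [Subgroup.mem_centralizer_iff]
        rintro _ rfl
        exact (hu3 p hp).symm
      · rw [Subgroup.mem_centralizer_iff]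
        rintro _ rfl
        exact ((hUmem _).1 hu).2.symm
    apply hu2
    apply Subtype.ext
    refine (hcen u fun g => ?_).symm
    have : g ∈ Subgroup.centralizer {u} := by rw [htop]; trivial
    rw [Subgroup.mem_centralizer_iff] at this
    exact (this u rfl).symm
  -- `V` has at least four elements
  have hV4 : 4 ≤ Nat.card V := by
    have hVnt : Nontrivial V := (Subgroup.nontrivial_iff_ne_bot V).2 hVne
    obtain ⟨k, hk0, hk⟩ := hVp.nontrivial_iff_card.1 hVnt
    rcases Nat.lt_or_ge k 2 with h | h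
    · exfalso
      have hk1 : k = 1 := by omega
      rw [hk1, pow_one] at hk
      obtain ⟨⟨v, hv⟩, hv1, huniq⟩ := (Nat.card_eq_two_iff' (1 : V)).1 hk
      have hv1' : v ≠ 1 := fun h => hv1 (Subtype.ext h)
      have h2 := huniq ⟨t * v * t⁻¹, hVn v hv t⟩ (by
        intro h
        have h2 : t * v * t⁻¹ = 1 := congrArg Subtype.val h
        apply hv1'
        have : v = t⁻¹ * (t * v * t⁻¹) * t := by group
        rw [this, h2]; group)
      have h3 : t * v * t⁻¹ = v := congrArg Subtype.val h2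
      apply hv1'
      apply hfree v hv
      show t * v = v * t
      rw [mul_inv_eq_iff_eq_mul] at h3
      exact h3
    · rw [hk]
      calc 4 = 2 ^ 2 := by norm_num
        _ ≤ 2 ^ k := Nat.pow_le_pow_right (by norm_num) h
  obtain ⟨hA1, hA2⟩ := hA θ
  -- the three cases
  have hker : ∀ X : ℕ → G, C X m = ⊥ → (∀ k < m, θ (X k) = 1) → False := by
    intro X hX h
    apply hVne
    rw [eq_bot_iff, ← hX]
    intro v hv
    exact mem_C.2 fun k hk => hVc v hv _ (h k hk)
  by_cases c1 : ∃ i j, i < m ∧ j < m ∧ θ (X1 i) * θ (X1 j) ≠ θ (X1 j) * θ (X1 i)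
  · obtain ⟨i, j, hi, hj, h⟩ := c1
    exact hker X2 hb2 fun k hk => s3_center _ _ _ h (hA2 i k hi hk) (hA2 j k hj hk)
  by_cases c2 : ∃ i j, i < m ∧ j < m ∧ θ (X2 i) * θ (X2 j) ≠ θ (X2 j) * θ (X2 i)
  · obtain ⟨i, j, hi, hj, h⟩ := c2
    exact hker X1 hb1 fun k hk => s3_center _ _ _ h (hA2 k i hk hi).symm (hA2 k j hk hj).symm
  push Not at c1 c2
  -- everything commutes
  have hall : ∀ g h : G, Commute (θ g) (θ h) := by
    have hS : ∀ g ∈ ({g | ∃ k < m, g = X1 k} ∪ {g | ∃ k < m, g = X2 k} ∪ {A} : Set G),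
        ∀ h ∈ ({g | ∃ k < m, g = X1 k} ∪ {g | ∃ k < m, g = X2 k} ∪ {A} : Set G),
          Commute (θ g) (θ h) := by
      rintro g ((⟨i, hi, rfl⟩ | ⟨i, hi, rfl⟩) | hgA) h ((⟨j, hj, rfl⟩ | ⟨j, hj, rfl⟩) | hhA)
      · exact c1 i j hi hj
      · exact hA2 i j hi hj
      · rw [Set.mem_singleton_iff] at hhA; rw [hhA, hA1]; exact Commute.one_right _
      · exact (hA2 j i hj hi).symm
      · exact c2 i j hi hj
      · rw [Set.mem_singleton_iff] at hhA; rw [hhA, hA1]; exact Commute.one_right _
      · rw [Set.mem_singleton_iff] at hgA; rw [hgA, hA1]; exact Commute.one_left _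
      · rw [Set.mem_singleton_iff] at hgA; rw [hgA, hA1]; exact Commute.one_left _
      · rw [Set.mem_singleton_iff] at hgA; rw [hgA, hA1]; exact Commute.one_left _
    have h1 : ∀ h ∈ ({g | ∃ k < m, g = X1 k} ∪ {g | ∃ k < m, g = X2 k} ∪ {A} : Set G),
        ∀ g : G, Commute (θ g) (θ h) := by
      intro h hh g
      have : g ∈ (Subgroup.centralizer {θ h}).comap θ := by
        have hle : (⊤ : Subgroup G) ≤ (Subgroup.centralizer {θ h}).comap θ := by
          rw [← hgen, Subgroup.closure_le]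
          intro g hg
          rw [SetLike.mem_coe, Subgroup.mem_comap, Subgroup.mem_centralizer_iff]
          rintro _ rfl
          exact (hS g hg h hh).symm
        exact hle trivial
      rw [Subgroup.mem_comap, Subgroup.mem_centralizer_iff] at this
      exact (this _ rfl).symm
    intro g h
    have : h ∈ (Subgroup.centralizer {θ g}).comap θ := by
      have hle : (⊤ : Subgroup G) ≤ (Subgroup.centralizer {θ g}).comap θ := by
        rw [← hgen, Subgroup.closure_le]
        intro h hh
        rw [SetLike.mem_coe, Subgroup.mem_comap, Subgroup.mem_centralizer_iff]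
        rintro _ rfl
        exact h1 h hh g
      exact hle trivial
    rw [Subgroup.mem_comap, Subgroup.mem_centralizer_iff] at this
    exact this _ rfl
  refine absurd (s1.big hb1 V hV4 fun k hk => ?_) (not_le.2 hcon)
  rcases s3_cube (θ t) htθ3 htθ (θ (X1 k)) (hall _ _) with h | h | h
  · left
    intro v hv
    exact hVc v hv _ h
  · right
    intro v hv hc
    apply hfree v hv
    have hn : t * (X1 k)⁻¹ ∈ N := by
      rw [hN, MonoidHom.mem_ker, map_mul, map_inv, h, mul_inv_cancel]
    have h1 := hVc v hv _ hn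
    have h2 := h1.mul_left hc
    simpa using h2
  · right
    intro v hv hc
    apply hfree v hv
    have hn : t * ((X1 k) * (X1 k))⁻¹ ∈ N := by
      rw [hN, MonoidHom.mem_ker, map_mul, map_inv, map_mul, h]
      have : θ t * (θ t * θ t * (θ t * θ t))⁻¹ = (θ t ^ 3)⁻¹ := by group
      rw [this, htθ3, inv_one]
    have h1 := hVc v hv _ hn
    have h2 := h1.mul_left (hc.mul_left hc)
    have h3 : t * (X1 k * X1 k)⁻¹ * (X1 k * X1 k) = t := by group
    rwa [h3] at h2

end Q19.ThreeTwo
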