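import Mathlib

/-!
# Common transversals of two subgroups

`DT H K` is the set of left transversals of `H` which are right transversals of `K`, and
`P H K = |DT H K| / |H| ^ (G : H)`. For `|H| = |K|` we prove that `P H K` is the product of
`t! / t ^ t` over the double cosets `K g H`, where `t` is the number of left cosets of `H` in it.
-/

namespace Pool.Agent.Q19.Transv

open Finset

section comb

variable {X A B C : Type*}

/-- Common transversals of the fibres of two maps. -/
def DTset (l : X → A) (r : X → B) : Set (Set X) :=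
  {T | (∀ a, ∃! x, x ∈ T ∧ l x = a) ∧ (∀ b, ∃! x, x ∈ T ∧ r x = b)}

/-- Sections of `l` whose image is a transversal of `r`. -/
abbrev Sec (l : X → A) (r : X → B) : Type _ :=
  {s : A → X // (∀ a, l (s a) = a) ∧ Function.Bijective (fun a => r (s a))}

lemma card_DTset (l : X → A) (r : X → B) : Nat.card (DTset l r) = Nat.card (Sec l r) := by
  symm
  have hmem : ∀ s : Sec l r, Set.range s.1 ∈ DTset l r := by
    rintro ⟨s, h1, h2⟩
    refine ⟨fun a => ⟨s a, ⟨⟨a, rfl⟩, h1 a⟩, ?_⟩, fun b => ?_⟩
    · rintro _ ⟨⟨a', rfl⟩, h⟩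
      rw [h1] at h
      rw [h]
    · obtain ⟨a, ha⟩ := h2.surjective b
      refine ⟨s a, ⟨⟨a, rfl⟩, ha⟩, ?_⟩
      rintro _ ⟨⟨a', rfl⟩, h⟩
      rw [h2.injective (h.trans ha.symm)]
  refine Nat.card_congr (Equiv.ofBijective (fun s : Sec l r => (⟨Set.range s.1, hmem s⟩ : DTset l r)) ⟨?_, ?_⟩)
  · rintro ⟨s, h1, h2⟩ ⟨s', h1', h2'⟩ h
    have hr : Set.range s = Set.range s' := congrArg Subtype.val h
    apply Subtype.ext
    funext a
    have : s a ∈ Set.range s' := hr ▸ ⟨a, rfl⟩
    obtain ⟨a', ha'⟩ := this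
    have h3 : a' = a := by rw [← h1' a', ha', h1]
    show s a = s' a
    rw [← ha', h3]
  · rintro ⟨T, h1, h2⟩
    choose s hs using fun a => (h1 a).exists
    have hrange : Set.range s = T := by
      ext x
      constructor
      · rintro ⟨a, rfl⟩
        exact (hs a).1
      · intro hx
        exact ⟨l x, (h1 (l x)).unique (hs _) ⟨hx, rfl⟩⟩
    refine ⟨⟨s, fun a => (hs a).2, ?_, ?_⟩, Subtype.ext hrange⟩
    · intro a a' h
      have h3 := (h2 (r (s a'))).unique ⟨(hs a).1, h⟩ ⟨(hs a').1, rfl⟩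
      rw [← (hs a).2, h3, (hs a').2]
    · intro b
      obtain ⟨x, ⟨hx1, hx2⟩, -⟩ := h2 b
      have : x ∈ Set.range s := hrange ▸ hx1
      obtain ⟨a, rfl⟩ := this
      exact ⟨a, hx2⟩

lemma card_Sec [Finite X] [Fintype A] [Fintype B] [DecidableEq A] [DecidableEq B] (l : X → A) (r : X → B) :
    Nat.card (Sec l r) = ∑ σ : A ≃ B, ∏ a, Nat.card {x : X // l x = a ∧ r x = σ a} := by
  classical
  have := Fintype.ofFinite X
  let Φ : Sec l r → (A ≃ B) := fun s => Equiv.ofBijective _ s.2.2
  rw [Nat.card_eq_fintype_card, ← Finset.card_univ,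
    Finset.card_eq_sum_card_fiberwise (f := Φ) (t := Finset.univ) (fun _ _ => Finset.mem_coe.mpr (Finset.mem_univ _))]
  refine Finset.sum_congr rfl fun σ _ => ?_
  rw [← Nat.card_pi, ← Fintype.card_subtype, ← Nat.card_eq_fintype_card]
  refine Nat.card_congr
    { toFun := fun s a => ⟨s.1.1 a, s.1.2.1 a, ?_⟩
      invFun := fun f => ⟨⟨fun a => (f a).1, fun a => (f a).2.1, ?_⟩, ?_⟩
      left_inv := fun s => rfl
      right_inv := fun f => rfl }
  · exact congrFun (congrArg DFunLike.coe s.2) a
  · have : (fun a => r (f a).1) = σ := funext fun a => (f a).2.2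
    rw [this]
    exact σ.bijective
  · apply Equiv.ext
    intro a
    exact (f a).2.2

lemma card_compat [Fintype A] [Fintype B] [Fintype C] [DecidableEq A] [DecidableEq B] [DecidableEq C]
    (cA : A → C) (cB : B → C)
    (hc : ∀ γ, Fintype.card {a // cA a = γ} = Fintype.card {b // cB b = γ}) :
    ((Finset.univ : Finset (A ≃ B)).filter (fun σ => ∀ a, cA a = cB (σ a))).card =
      ∏ γ, (Fintype.card {a // cA a = γ}).factorial := by
  let e : ∀ γ, ({a // cA a = γ} ≃ {b // cB b = γ}) := fun γ => Fintype.equivOfCardEq (hc γ)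
  let e0 : A ≃ B := (Equiv.sigmaFiberEquiv cA).symm.trans
    ((Equiv.sigmaCongrRight e).trans (Equiv.sigmaFiberEquiv cB))
  have he0 : ∀ a, cB (e0 a) = cA a := fun a => (e (cA a) ⟨a, rfl⟩).2
  rw [← DomMulAct.stabilizer_card, ← Fintype.card_subtype]
  refine Fintype.card_congr
    { toFun := fun σ => ⟨σ.1.trans e0.symm, ?_⟩
      invFun := fun π => ⟨π.1.trans e0, ?_⟩
      left_inv := fun σ => ?_
      right_inv := fun π => ?_ }
  · funext a
    simp only [Function.comp, Equiv.coe_trans]
    rw [← he0, Equiv.apply_symm_apply]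
    exact (σ.2 a).symm
  · intro a
    rw [Equiv.trans_apply, he0]
    exact (congrFun π.2 a).symm
  · apply Subtype.ext
    ext a
    simp
  · apply Subtype.ext
    ext a
    simp

theorem card_formula [Finite X] [Fintype A] [Fintype B] [Fintype C] [DecidableEq C]
    (l : X → A) (r : X → B) (cA : A → C) (cB : B → C) (m : A → ℕ)
    (hm : ∀ a b, Nat.card {x : X // l x = a ∧ r x = b} = if cA a = cB b then m a else 0)
    (hc : ∀ γ, Fintype.card {a // cA a = γ} = Fintype.card {b // cB b = γ}) :
    Nat.card (DTset l r) = (∏ γ, (Fintype.card {a // cA a = γ}).factorial) * ∏ a, m a := by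
  classical
  rw [card_DTset, card_Sec]
  simp_rw [hm]
  have h1 : ∀ σ : A ≃ B, (∏ a, if cA a = cB (σ a) then m a else 0) =
      if ∀ a, cA a = cB (σ a) then ∏ a, m a else 0 := by
    intro σ
    by_cases h : ∀ a, cA a = cB (σ a)
    · rw [if_pos h]
      exact Finset.prod_congr rfl fun a _ => if_pos (h a)
    · rw [if_neg h]
      push Not at h
      obtain ⟨a, ha⟩ := h
      exact Finset.prod_eq_zero (Finset.mem_univ a) (if_neg ha)
  simp_rw [h1]
  rw [← Finset.sum_filter, Finset.sum_const, smul_eq_mul]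
  congr 1
  exact card_compat cA cB hc

end comb


section grp

variable {G : Type*} [Group G]

/-- `T` meets every left coset `gH` in exactly one element. -/
def IsLeftTransversal (H : Subgroup G) (T : Set G) : Prop := ∀ g : G, ∃! t, t ∈ T ∧ g⁻¹ * t ∈ H

/-- `T` meets every right coset `Kg` in exactly one element. -/
def IsRightTransversal (K : Subgroup G) (T : Set G) : Prop := ∀ g : G, ∃! t, t ∈ T ∧ t * g⁻¹ ∈ K

/-- The left transversals of `H` that are right transversals of `K`. -/
def DT (H K : Subgroup G) : Set (Set G) := {T | IsLeftTransversal H T ∧ IsRightTransversal K T}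

/-- The common transversal probability `P_G(H, K)`. -/
noncomputable def P (H K : Subgroup G) : ℚ := (Nat.card (DT H K) : ℚ) / (Nat.card H : ℚ) ^ H.index

lemma DT_eq (H K : Subgroup G) :
    DT H K = DTset (fun x : G => (x : G ⧸ H)) (fun x : G => ((x⁻¹ : G) : G ⧸ K)) := by
  ext T
  have h1 : ∀ g x : G, g⁻¹ * x ∈ H ↔ (x : G ⧸ H) = (g : G ⧸ H) := by
    intro g x
    rw [eq_comm, QuotientGroup.eq]
  have h2 : ∀ g x : G, x * g⁻¹ ∈ K ↔ ((x⁻¹ : G) : G ⧸ K) = ((g⁻¹ : G) : G ⧸ K) := by
    intro g x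
    rw [QuotientGroup.eq, inv_inv]
  constructor
  · rintro ⟨hl, hr⟩
    refine ⟨fun a => ?_, fun b => ?_⟩
    · induction a using QuotientGroup.induction_on with
      | H g => simpa only [h1] using hl g
    · induction b using QuotientGroup.induction_on with
      | H g =>
        have h := hr g⁻¹
        simp only [h2] at h
        rwa [inv_inv g] at h
  · rintro ⟨hl, hr⟩
    refine ⟨fun g => ?_, fun g => ?_⟩
    · simpa only [h1] using hl (g : G ⧸ H)
    · simpa only [h2] using hr ((g⁻¹ : G) : G ⧸ K)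

/-- The set of double cosets, as the set of `K`-orbits on `G ⧸ H`. -/
abbrev Dbl (H K : Subgroup G) : Type _ := MulAction.orbitRel.Quotient K (G ⧸ H)

/-- The double coset of a left coset. -/
def cA (H K : Subgroup G) (a : G ⧸ H) : Dbl H K := Quotient.mk _ a

lemma cA_eq (H K : Subgroup G) (a b : G ⧸ H) : cA H K a = cA H K b ↔ ∃ k : K, k • b = a := by
  unfold cA
  rw [Quotient.eq, MulAction.orbitRel_apply]
  rfl

/-- The double coset of the right coset `K x`, represented by `x⁻¹ K`. -/
def cB (H K : Subgroup G) : G ⧸ K → Dbl H K :=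
  Quotient.lift (fun g : G => cA H K ((g⁻¹ : G) : G ⧸ H)) (by
    intro a b hab
    have hab' : a⁻¹ * b ∈ K := QuotientGroup.leftRel_apply.mp hab
    rw [cA_eq]
    refine ⟨⟨a⁻¹ * b, hab'⟩, ?_⟩
    show ((a⁻¹ * b) • ((b⁻¹ : G) : G ⧸ H)) = _
    rw [MulAction.Quotient.smul_coe, smul_eq_mul]
    congr 1
    group)

lemma cB_mk (H K : Subgroup G) (g : G) : cB H K (g : G ⧸ K) = cA H K ((g⁻¹ : G) : G ⧸ H) := rfl

lemma card_inter [Finite G] (H K : Subgroup G) (a : G ⧸ H) (b : G ⧸ K) [Decidable (cA H K a = cB H K b)] :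
    Nat.card {x : G // (x : G ⧸ H) = a ∧ ((x⁻¹ : G) : G ⧸ K) = b} =
      if cA H K a = cB H K b then Nat.card (MulAction.stabilizer K a) else 0 := by
  by_cases hex : ∃ x : G, (x : G ⧸ H) = a ∧ ((x⁻¹ : G) : G ⧸ K) = b
  · obtain ⟨x, rfl, rfl⟩ := hex
    have h : cA H K (x : G ⧸ H) = cB H K ((x⁻¹ : G) : G ⧸ K) := by
      rw [cB_mk, inv_inv]
    rw [if_pos h]
    refine Nat.card_congr
      { toFun := fun y => ⟨⟨y.1 * x⁻¹, ?_⟩, ?_⟩
        invFun := fun k => ⟨(k.1 : G) * x, ?_, ?_⟩
        left_inv := fun y => by simp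
        right_inv := fun k => by simp }
    · have := y.2.2
      rw [QuotientGroup.eq, inv_inv] at this
      exact this
    · rw [MulAction.mem_stabilizer_iff]
      show ((y.1 * x⁻¹) • (x : G ⧸ H)) = _
      rw [MulAction.Quotient.smul_coe, smul_eq_mul, inv_mul_cancel_right]
      exact y.2.1
    · have := k.2
      rw [MulAction.mem_stabilizer_iff] at this
      exact this
    · rw [QuotientGroup.eq, inv_inv, mul_inv_cancel_right]
      exact k.1.2
  · have hne : ¬ (cA H K a = cB H K b) := by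
      intro h
      apply hex
      induction a using QuotientGroup.induction_on with
      | H g =>
        induction b using QuotientGroup.induction_on with
        | H g' =>
          rw [cB_mk, cA_eq] at h
          obtain ⟨k, hk⟩ := h
          refine ⟨(k : G) * g'⁻¹, hk, ?_⟩
          rw [QuotientGroup.eq]
          simp
    rw [if_neg hne]
    have : IsEmpty {x : G // (x : G ⧸ H) = a ∧ ((x⁻¹ : G) : G ⧸ K) = b} := ⟨fun x => hex ⟨x.1, x.2⟩⟩
    exact Nat.card_of_isEmpty

lemma card_fibers [Finite G] (H K : Subgroup G) (hHK : Nat.card H = Nat.card K) (ω : Dbl H K) :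
    Nat.card {a // cA H K a = ω} = Nat.card {b // cB H K b = ω} := by
  have h1 := QuotientGroup.card_preimage_mk H {a | cA H K a = ω}
  have h2 := QuotientGroup.card_preimage_mk K {b | cB H K b = ω}
  have h3 : Nat.card ((QuotientGroup.mk : G → G ⧸ H) ⁻¹' {a | cA H K a = ω}) =
      Nat.card ((QuotientGroup.mk : G → G ⧸ K) ⁻¹' {b | cB H K b = ω}) := by
    refine Nat.card_congr
      { toFun := fun x => ⟨x.1⁻¹, ?_⟩
        invFun := fun x => ⟨x.1⁻¹, ?_⟩
        left_inv := fun x => by simp
        right_inv := fun x => by simp }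
    · have := x.2
      simp only [Set.mem_preimage, Set.mem_ofPred_eq] at this ⊢
      rw [cB_mk, inv_inv]
      exact this
    · have := x.2
      simp only [Set.mem_preimage, Set.mem_ofPred_eq] at this ⊢
      rw [cB_mk] at this
      exact this
  rw [h1, h2, ← hHK] at h3
  have hpos : 0 < Nat.card H := Nat.card_pos
  exact Nat.eq_of_mul_eq_mul_left hpos h3

/-- The size of a double coset, in left cosets. -/
noncomputable def tt (H K : Subgroup G) (ω : Dbl H K) : ℕ := Nat.card {a // cA H K a = ω}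

lemma tt_cA (H K : Subgroup G) (a : G ⧸ H) : tt H K (cA H K a) = Nat.card (MulAction.orbit K a) := by
  unfold tt
  apply Nat.card_congr
  refine Equiv.subtypeEquivRight ?_
  intro b
  rw [cA_eq]
  rfl

lemma tt_mul [Finite G] (H K : Subgroup G) (a : G ⧸ H) :
    tt H K (cA H K a) * Nat.card (MulAction.stabilizer K a) = Nat.card K := by
  classical
  rw [tt_cA]
  have := Fintype.ofFinite G
  have := Fintype.ofFinite K
  have := Fintype.ofFinite (MulAction.orbit K a)
  have := Fintype.ofFinite (MulAction.stabilizer K a)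
  rw [Nat.card_eq_fintype_card, Nat.card_eq_fintype_card, Nat.card_eq_fintype_card]
  exact MulAction.card_orbit_mul_card_stabilizer_eq_card_group K a

/-- The formula for the common transversal probability. -/
theorem P_formula [Finite G] (H K : Subgroup G) (hHK : Nat.card H = Nat.card K) [Fintype (Dbl H K)] :
    P H K = ∏ ω : Dbl H K, (((tt H K ω).factorial : ℚ) / (tt H K ω : ℚ) ^ (tt H K ω)) := by
  classical
  have := Fintype.ofFinite (G ⧸ H)
  have := Fintype.ofFinite (G ⧸ K)
  have hcount := card_formula (fun x : G => (x : G ⧸ H)) (fun x : G => ((x⁻¹ : G) : G ⧸ K)) (cA H K) (cB H K)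
    (fun a => Nat.card (MulAction.stabilizer K a)) (fun a b => card_inter H K a b)
    (fun ω => by rw [← Nat.card_eq_fintype_card, ← Nat.card_eq_fintype_card]; exact card_fibers H K hHK ω)
  rw [← DT_eq] at hcount
  have hHpos : (Nat.card H : ℚ) ≠ 0 := by exact_mod_cast Nat.card_pos.ne'
  have htpos : ∀ a : G ⧸ H, (tt H K (cA H K a) : ℚ) ≠ 0 := by
    intro a h
    have h1 := tt_mul H K a
    have h2 : tt H K (cA H K a) = 0 := by exact_mod_cast h
    rw [h2, zero_mul] at h1
    exact Nat.card_pos.ne h1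
  have hst : ∀ a : G ⧸ H, (Nat.card (MulAction.stabilizer K a) : ℚ) = (Nat.card H : ℚ) / tt H K (cA H K a) := by
    intro a
    rw [eq_div_iff (htpos a), hHK, ← tt_mul H K a]
    push_cast
    ring
  unfold P
  rw [hcount]
  push_cast
  simp_rw [hst]
  rw [Finset.prod_div_distrib, Finset.prod_const, Finset.card_univ, ← Nat.card_eq_fintype_card]
  have hidx : Nat.card (G ⧸ H) = H.index := rfl
  rw [hidx]
  have hprod : ∏ a : G ⧸ H, (tt H K (cA H K a) : ℚ) = ∏ ω : Dbl H K, (tt H K ω : ℚ) ^ (tt H K ω) := by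
    rw [← Finset.prod_fiberwise (s := Finset.univ) (g := cA H K)]
    refine Finset.prod_congr rfl fun ω _ => ?_
    rw [Finset.prod_congr rfl (g := fun _ => (tt H K ω : ℚ)) (fun a ha => by rw [(Finset.mem_filter.mp ha).2])]
    rw [Finset.prod_const]
    congr 1
    rw [tt, Nat.card_eq_fintype_card, Fintype.card_subtype]
  rw [hprod, Finset.prod_div_distrib]
  have hf : ∀ ω : Dbl H K, Fintype.card {a // cA H K a = ω} = tt H K ω := by
    intro ω
    rw [tt, Nat.card_eq_fintype_card]
  simp_rw [hf]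
  have hpow : (Nat.card H : ℚ) ^ H.index ≠ 0 := pow_ne_zero _ hHpos
  have hpt : ∏ ω : Dbl H K, (tt H K ω : ℚ) ^ (tt H K ω) ≠ 0 := by
    rw [← hprod]
    exact Finset.prod_ne_zero_iff.mpr fun a _ => htpos a
  field_simp



lemma mem_stab (H K : Subgroup G) (k : K) (y : G) :
    k ∈ MulAction.stabilizer K (y : G ⧸ H) ↔ y⁻¹ * (k : G) * y ∈ H := by
  rw [MulAction.mem_stabilizer_iff]
  have h : k • (y : G ⧸ H) = (((k : G) * y : G) : G ⧸ H) := rfl
  rw [h, QuotientGroup.eq, ← inv_mem_iff]
  have : ((k * y : G)⁻¹ * y)⁻¹ = y⁻¹ * (k : G) * y := by group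
  rw [this]

/-- The factor of a double coset of `t` left cosets. -/
def fac (t : ℕ) : ℚ := (t.factorial : ℚ) / (t : ℚ) ^ t

lemma P_fac [Finite G] (H K : Subgroup G) (hHK : Nat.card H = Nat.card K) [Fintype (Dbl H K)] :
    P H K = ∏ ω : Dbl H K, fac (tt H K ω) := P_formula H K hHK

lemma P_by_size [Finite G] (H K : Subgroup G) (hHK : Nat.card H = Nat.card K) [Fintype (Dbl H K)]
    (S : Finset ℕ) (hS : ∀ ω : Dbl H K, tt H K ω ∈ S) :
    P H K = ∏ j ∈ S, fac j ^ ((Finset.univ : Finset (Dbl H K)).filter (fun ω => tt H K ω = j)).card := by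
  rw [P_fac H K hHK, ← Finset.prod_fiberwise_of_maps_to (t := S) (g := tt H K) (fun ω _ => hS ω)]
  refine Finset.prod_congr rfl fun j _ => ?_
  rw [Finset.prod_congr rfl (g := fun _ => fac j) (fun ω hω => by rw [(Finset.mem_filter.mp hω).2]),
    Finset.prod_const]

lemma card_size [Finite G] (H K : Subgroup G) [Fintype (Dbl H K)] (j : ℕ) :
    Nat.card H * (j * ((Finset.univ : Finset (Dbl H K)).filter (fun ω => tt H K ω = j)).card) =
      Nat.card {y : G // tt H K (cA H K (y : G ⧸ H)) = j} := by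
  classical
  have := Fintype.ofFinite (G ⧸ H)
  have h1 := QuotientGroup.card_preimage_mk H {a : G ⧸ H | tt H K (cA H K a) = j}
  have h2 : Nat.card ((QuotientGroup.mk : G → G ⧸ H) ⁻¹' {a : G ⧸ H | tt H K (cA H K a) = j}) =
    Nat.card {y : G // tt H K (cA H K (y : G ⧸ H)) = j} := rfl
  rw [← h2, h1]
  congr 1
  have h3 : Nat.card ({a : G ⧸ H | tt H K (cA H K a) = j}) =
      ((Finset.univ : Finset (G ⧸ H)).filter (fun a => tt H K (cA H K a) = j)).card := by
    rw [Nat.card_eq_fintype_card, ← Fintype.card_subtype]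
    rfl
  rw [h3, Finset.card_eq_sum_card_fiberwise (f := cA H K) (t := (Finset.univ : Finset (Dbl H K)).filter (fun ω => tt H K ω = j))]
  · rw [Finset.sum_congr rfl (g := fun _ => j), Finset.sum_const, smul_eq_mul, mul_comm]
    intro ω hω
    rw [Finset.mem_filter] at hω
    rw [Finset.filter_filter]
    have h4 : (Finset.univ : Finset (G ⧸ H)).filter (fun a => tt H K (cA H K a) = j ∧ cA H K a = ω) =
        (Finset.univ : Finset (G ⧸ H)).filter (fun a => cA H K a = ω) := by
      apply Finset.filter_congr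
      intro a _
      constructor
      · exact fun h => h.2
      · intro h
        exact ⟨by rw [h]; exact hω.2, h⟩
    rw [h4, ← hω.2, tt, Nat.card_eq_fintype_card, Fintype.card_subtype]
  · intro a ha
    rw [Finset.mem_coe, Finset.mem_filter] at ha ⊢
    exact ⟨Finset.mem_univ _, ha.2⟩

lemma tt_dvd [Finite G] (H K : Subgroup G) (ω : Dbl H K) : tt H K ω ∣ Nat.card K := by
  induction ω using Quotient.inductionOn with
  | h a => exact ⟨_, (tt_mul H K a).symm⟩

lemma tt_pos [Finite G] (H K : Subgroup G) (ω : Dbl H K) : 0 < tt H K ω :=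
  Nat.pos_of_dvd_of_pos (tt_dvd H K ω) Nat.card_pos

end grp

end Pool.Agent.Q19.Transv
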