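import Mathlib

/-!
# Non-commuting sets in the group of unitriangular 4 x 4 matrices

Modulo the centre an element of `UU 4 F` is a vector `(a, b, c, d, e)` with `a = g 0 1`,
`b = g 1 2`, `c = g 2 3`, `d = g 0 2`, `e = g 1 3`, and two elements commute iff
`a b' = a' b`, `b c' = b' c` and `a e' + d c' = a' e + d' c`.

* The elements with `b ≠ 0` fall into exactly `q³ - q + 1` commuting classes.
* The elements with `b = 0` form a symplectic space of dimension four, and a non-commuting set is
  a partial ovoid of the symplectic quadrangle `W(3, q)`. In even characteristic there is one of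
  size `q²` none of whose members commutes with an element having `b ≠ 0`; in odd
  characteristic, `q > 3`, there is none of size `q²` at all.

So the largest size `omega (UU 4 F)` of a non-commuting set is at least `q³ + q² - q + 1` for `q`
even and at most `q³ + q² - q` for `q > 3` odd.
-/

set_option linter.unusedSectionVars false

namespace Pool.Agent.Q19.UU4

/-- The group of upper unitriangular `n × n` matrices. -/
def UU (n : ℕ) (F : Type) [Field F] : Subgroup (Matrix.GeneralLinearGroup (Fin n) F) where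
  carrier := {g | (∀ i, (g : Matrix (Fin n) (Fin n) F) i i = 1) ∧
    ∀ i j, j < i → (g : Matrix (Fin n) (Fin n) F) i j = 0}
  one_mem' := by
    refine ⟨fun i => by simp, fun i j hij => ?_⟩
    rw [Units.val_one, Matrix.one_apply_ne (ne_of_gt hij)]
  mul_mem' := by
    rintro a b ⟨ha1, ha2⟩ ⟨hb1, hb2⟩
    refine ⟨fun i => ?_, fun i j hij => ?_⟩
    · rw [Units.val_mul, Matrix.mul_apply, Finset.sum_eq_single i]
      · rw [ha1, hb1, one_mul]
      · intro k _ hk
        rcases lt_or_gt_of_ne hk with h | h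
        · rw [ha2 i k h, zero_mul]
        · rw [hb2 k i h, mul_zero]
      · simp
    · rw [Units.val_mul, Matrix.mul_apply]
      refine Finset.sum_eq_zero fun k _ => ?_
      rcases lt_or_ge k i with h | h
      · rw [ha2 i k h, zero_mul]
      · rw [hb2 k j (lt_of_lt_of_le hij h), mul_zero]
  inv_mem' := by
    rintro a ⟨ha1, ha2⟩
    have hbt : Matrix.BlockTriangular (a : Matrix (Fin n) (Fin n) F) id := fun i j hij => ha2 i j hij
    have hinv : Invertible (a : Matrix (Fin n) (Fin n) F) := Units.invertible a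
    have h := Matrix.blockTriangular_inv_of_blockTriangular hbt
    have hcoe : ((a⁻¹ : Matrix.GeneralLinearGroup (Fin n) F) : Matrix (Fin n) (Fin n) F) =
        (a : Matrix (Fin n) (Fin n) F)⁻¹ := by simp
    have h2 : ∀ i j, j < i → ((a⁻¹ : Matrix.GeneralLinearGroup (Fin n) F) : Matrix (Fin n) (Fin n) F) i j = 0 := by
      intro i j hij
      rw [hcoe]
      exact h hij
    refine ⟨fun i => ?_, h2⟩
    have h3 : (((a⁻¹ * a : Matrix.GeneralLinearGroup (Fin n) F)) : Matrix (Fin n) (Fin n) F) i i = 1 := by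
      simp
    rw [Units.val_mul, Matrix.mul_apply, Finset.sum_eq_single i] at h3
    · rwa [ha1, mul_one] at h3
    · intro k _ hk
      rcases lt_or_gt_of_ne hk with h | h
      · rw [h2 i k h, zero_mul]
      · rw [ha2 k i h, mul_zero]
    · simp

/-- The largest size of a non-commuting subset of a finite group. -/
noncomputable def omega (G : Type) [Group G] : ℕ :=
  sSup {k : ℕ | ∃ X : Finset G, (∀ x ∈ X, ∀ y ∈ X, x ≠ y → x * y ≠ y * x) ∧ X.card = k}

lemma le_omega {G : Type} [Group G] [Finite G] (X : Finset G)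
    (hX : ∀ x ∈ X, ∀ y ∈ X, x ≠ y → x * y ≠ y * x) : X.card ≤ omega G := by
  apply le_csSup
  · refine ⟨Nat.card G, ?_⟩
    rintro k ⟨Y, -, rfl⟩
    have := Fintype.ofFinite G
    rw [Nat.card_eq_fintype_card]
    exact Finset.card_le_univ Y
  · exact ⟨X, hX, rfl⟩

lemma omega_le {G : Type} [Group G] (m : ℕ)
    (h : ∀ X : Finset G, (∀ x ∈ X, ∀ y ∈ X, x ≠ y → x * y ≠ y * x) → X.card ≤ m) : omega G ≤ m := by
  apply csSup_le
  · exact ⟨0, ∅, by simp, by simp⟩
  · rintro k ⟨X, hX, rfl⟩
    exact h X hX

section coords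

variable {F : Type} [Field F]

/-- Matrix entries. -/
def ent (g : UU 4 F) (i j : Fin 4) : F := ((g : Matrix.GeneralLinearGroup (Fin 4) F) : Matrix (Fin 4) (Fin 4) F) i j

lemma commute_iff (g h : UU 4 F) : g * h = h * g ↔
    ent g 0 1 * ent h 1 2 = ent h 0 1 * ent g 1 2 ∧
    ent g 1 2 * ent h 2 3 = ent h 1 2 * ent g 2 3 ∧
    ent g 0 1 * ent h 1 3 + ent g 0 2 * ent h 2 3 = ent h 0 1 * ent g 1 3 + ent h 0 2 * ent g 2 3 := by
  obtain ⟨g, hg1, hg2⟩ := g
  obtain ⟨h, hh1, hh2⟩ := h
  have e1 : (⟨g, hg1, hg2⟩ : UU 4 F) * ⟨h, hh1, hh2⟩ = ⟨h, hh1, hh2⟩ * ⟨g, hg1, hg2⟩ ↔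
      (g : Matrix (Fin 4) (Fin 4) F) * (h : Matrix (Fin 4) (Fin 4) F) = h * g := by
    rw [Subtype.ext_iff, Units.ext_iff]
    rfl
  rw [e1, ← Matrix.ext_iff]
  simp only [ent, Matrix.mul_apply, Fin.sum_univ_four]
  have g10 := hg2 1 0 (by decide)
  have g20 := hg2 2 0 (by decide)
  have g21 := hg2 2 1 (by decide)
  have g30 := hg2 3 0 (by decide)
  have g31 := hg2 3 1 (by decide)
  have g32 := hg2 3 2 (by decide)
  have h10 := hh2 1 0 (by decide)
  have h20 := hh2 2 0 (by decide)
  have h21 := hh2 2 1 (by decide)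
  have h30 := hh2 3 0 (by decide)
  have h31 := hh2 3 1 (by decide)
  have h32 := hh2 3 2 (by decide)
  constructor
  · intro H
    have H1 := H 0 2
    have H2 := H 1 3
    have H3 := H 0 3
    simp only [hg1, hh1, g10, g32, h10, h32] at H1 H2 H3
    refine ⟨?_, ?_, ?_⟩
    · linear_combination H1
    · linear_combination H2
    · linear_combination H3
  · rintro ⟨H1, H2, H3⟩ i j
    fin_cases i <;> fin_cases j <;>
    simp [hg1, hh1, g10, g20, g21, g30, g31, g32, h10, h20, h21, h30, h31, h32]
    all_goals first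
      | linear_combination H1
      | linear_combination H2
      | linear_combination H3
      | ring

/-- The matrix with given entries. -/
def mkM (a b c d e : F) : Matrix (Fin 4) (Fin 4) F :=
  !![1, a, d, 0; 0, 1, b, e; 0, 0, 1, c; 0, 0, 0, 1]

lemma det_mkM (a b c d e : F) : (mkM a b c d e).det ≠ 0 := by
  have h : Matrix.BlockTriangular (mkM a b c d e) id := by
    intro i j hij
    fin_cases i <;> fin_cases j <;> first | rfl | exact absurd hij (by decide)
  rw [Matrix.det_of_isUpperTriangular h]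
  simp [mkM, Fin.prod_univ_four]

/-- The element of `UU 4 F` with given entries. -/
noncomputable def mkU (a b c d e : F) : UU 4 F :=
  ⟨Matrix.GeneralLinearGroup.mkOfDetNeZero (mkM a b c d e) (det_mkM a b c d e), by
    constructor
    · intro i
      fin_cases i <;> rfl
    · intro i j hij
      fin_cases i <;> fin_cases j <;> first | rfl | exact absurd hij (by decide)⟩

lemma ent_mkU (a b c d e : F) : ent (mkU a b c d e) 0 1 = a ∧ ent (mkU a b c d e) 1 2 = b ∧
    ent (mkU a b c d e) 2 3 = c ∧ ent (mkU a b c d e) 0 2 = d ∧ ent (mkU a b c d e) 1 3 = e :=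
  ⟨rfl, rfl, rfl, rfl, rfl⟩

lemma mkU_commute (a b c d e a' b' c' d' e' : F) :
    mkU a b c d e * mkU a' b' c' d' e' = mkU a' b' c' d' e' * mkU a b c d e ↔
    a * b' = a' * b ∧ b * c' = b' * c ∧ a * e' + d * c' = a' * e + d' * c := by
  rw [commute_iff]
  rfl

end coords


section even

variable {F : Type} [Field F] [Fintype F] [DecidableEq F]

/-- Index type of the non-commuting set in characteristic two. -/
abbrev Ix (F : Type) [Field F] : Type := (F × F) ⊕ (Fˣ × F × F) ⊕ (Fˣ × F) ⊕ Unit

/-- The non-commuting set in characteristic two. -/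
noncomputable def pt (β : F) : Ix F → UU 4 F
  | Sum.inl (c, d) => mkU 1 0 c d (d ^ 2 + d * c + β * c ^ 2)
  | Sum.inr (Sum.inl (a, c, e)) => mkU (a : F) 1 c 0 e
  | Sum.inr (Sum.inr (Sum.inl (c, d))) => mkU 0 1 (c : F) d 0
  | Sum.inr (Sum.inr (Sum.inr ())) => mkU 0 1 0 0 0

lemma pt_noncomm [CharP F 2] (β : F) (hβ : ∀ x : F, x ^ 2 + x ≠ β) (i j : Ix F) (hij : i ≠ j) :
    pt β i * pt β j ≠ pt β j * pt β i := by
  have h2 : (2 : F) = 0 := CharTwo.two_eq_zero
  rcases i with ⟨c, d⟩ | ⟨a, c, e⟩ | ⟨c, d⟩ | ⟨⟩ <;> rcases j with ⟨c', d'⟩ | ⟨a', c', e'⟩ | ⟨c', d'⟩ | ⟨⟩ <;>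
    simp only [pt] <;> rw [Ne, mkU_commute] <;> rintro ⟨h1, h3, h4⟩
  · -- both in the b = 0 part
    have key : (d + d') ^ 2 + (d + d') * (c + c') + β * (c + c') ^ 2 = 0 := by
      linear_combination h4 + (d * d' + d ^ 2 + c * d + β * c * c' + β * c ^ 2 + c * d') * h2
    by_cases hc : c + c' = 0
    · rw [hc] at key
      have hd : d + d' = 0 := by
        have : (d + d') ^ 2 = 0 := by linear_combination key
        exact pow_eq_zero_iff (two_ne_zero) |>.mp this
      apply hij
      have e1 : c = c' := by linear_combination hc - c' * h2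
      have e2 : d = d' := by linear_combination hd - d' * h2
      rw [e1, e2]
    · apply hβ ((d + d') / (c + c'))
      field_simp
      linear_combination key - β * (c + c') ^ 2 * h2
  · simp at h1
  · simp at h1
  · simp at h1
  · simp at h1
  · apply hij
    have e1 : a = a' := Units.ext (by linear_combination h1)
    have e2 : c = c' := by linear_combination -h3
    subst e1
    subst e2
    have e3 : (a : F) * (e' - e) = 0 := by linear_combination h4
    have e4 : e' - e = 0 := (mul_eq_zero.mp e3).resolve_left a.ne_zero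
    have e5 : e = e' := by linear_combination -e4
    rw [e5]
  · simp at h1
  · simp at h1
  · simp at h1
  · exact a'.ne_zero (by linear_combination -h1)
  · apply hij
    have e1 : c = c' := Units.ext (by linear_combination -h3)
    subst e1
    have e3 : (c : F) * (d - d') = 0 := by linear_combination h4
    have e4 : d - d' = 0 := (mul_eq_zero.mp e3).resolve_left c.ne_zero
    have e5 : d = d' := by linear_combination e4
    rw [e5]
  · exact c.ne_zero (by linear_combination -h3)
  · simp at h1
  · exact a'.ne_zero (by linear_combination -h1)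
  · simp at h3
  · exact hij rfl

lemma card_Ix : Fintype.card (Ix F) + Fintype.card F = Fintype.card F ^ 3 + Fintype.card F ^ 2 + 1 := by
  have h1 : 1 ≤ Fintype.card F := Fintype.card_pos
  simp only [Fintype.card_sum, Fintype.card_prod, Fintype.card_units, Fintype.card_unit]
  obtain ⟨m, hm⟩ : ∃ m, Fintype.card F = m + 1 := ⟨Fintype.card F - 1, by omega⟩
  rw [hm]
  simp only [Nat.add_sub_cancel]
  ring

omit [DecidableEq F] in
/-- The lower bound in characteristic two. -/
theorem omega_even [CharP F 2] :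
    Fintype.card F ^ 3 + Fintype.card F ^ 2 + 1 ≤ omega (UU 4 F) + Fintype.card F := by
  classical
  have hβ : ∃ β : F, ∀ x : F, x ^ 2 + x ≠ β := by
    by_contra hcon
    push Not at hcon
    have hsurj : Function.Surjective (fun x : F => x ^ 2 + x) := hcon
    have hinj := Finite.injective_iff_surjective.mpr hsurj
    have h2 : (2 : F) = 0 := CharTwo.two_eq_zero
    have : (0 : F) = 1 := hinj (by simp only; linear_combination -h2)
    exact zero_ne_one this
  obtain ⟨β, hβ⟩ := hβ
  have hinj : Function.Injective (pt β) := by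
    intro i j h
    by_contra hij
    exact pt_noncomm β hβ i j hij (by rw [h])
  have hle := le_omega (Finset.univ.map ⟨pt β, hinj⟩) (by
    intro x hx y hy hxy
    rw [Finset.mem_map] at hx hy
    obtain ⟨i, -, rfl⟩ := hx
    obtain ⟨j, -, rfl⟩ := hy
    exact pt_noncomm β hβ i j (fun h => hxy (by rw [h])))
  rw [Finset.card_map, Finset.card_univ] at hle
  have := card_Ix (F := F)
  omega

end even


section odd

variable {F : Type} [Field F]

/-- Vectors `(a, c, d, e)`. -/
abbrev V (F : Type) : Type := F × F × F × F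

/-- The alternating form describing commutation in the part `b = 0`. -/
def B (x y : V F) : F := x.1 * y.2.2.2 - y.1 * x.2.2.2 + x.2.2.1 * y.2.1 - y.2.2.1 * x.2.1

lemma B_self (x : V F) : B x x = 0 := by unfold B; ring

lemma B_swap (x y : V F) : B y x = - B x y := by unfold B; ring

/-- Homogeneous coordinates on the projective line. -/
def pr [DecidableEq F] (x y : F) : Option F := if x = 0 then none else some (y / x)

lemma pr_eq [DecidableEq F] {x y x' y' : F} (h : pr x y = pr x' y') : x * y' = x' * y := by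
  unfold pr at h
  by_cases hx : x = 0 <;> by_cases hx' : x' = 0
  · rw [hx, hx']; ring
  · simp [hx, hx'] at h
  · simp [hx, hx'] at h
  · simp only [hx, hx', if_false, Option.some.injEq] at h
    field_simp at h
    linear_combination -h

/-- Pairwise non-perpendicular sets of vectors. -/
def PO (K : Finset (V F)) : Prop := ∀ x ∈ K, ∀ y ∈ K, x ≠ y → B x y ≠ 0

lemma PO.eq {K : Finset (V F)} (hK : PO K) {x y : V F} (hx : x ∈ K) (hy : y ∈ K) (h : B x y = 0) : x = y := by
  by_contra hne
  exact hK x hx y hy hne h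

/-- Maps preserving the form. -/
def Iso (f : V F → V F) : Prop := ∀ x y, B (f x) (f y) = B x y

lemma Iso.comp {f g : V F → V F} (hf : Iso f) (hg : Iso g) : Iso (f ∘ g) := fun x y => by
  simp only [Function.comp, hf (g x) (g y), hg x y]

lemma PO.injOn {K : Finset (V F)} (hK : PO K) {f : V F → V F} (hf : Iso f) : Set.InjOn f K := by
  intro x hx y hy hxy
  apply hK.eq hx hy
  rw [← hf x y, hxy, B_self]

lemma PO.image [DecidableEq F] {K : Finset (V F)} (hK : PO K) {f : V F → V F} (hf : Iso f) : PO (K.image f) := by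
  intro x hx y hy hxy
  rw [Finset.mem_image] at hx hy
  obtain ⟨x, hx, rfl⟩ := hx
  obtain ⟨y, hy, rfl⟩ := hy
  rw [hf]
  exact hK x hx y hy (fun h => hxy (by rw [h]))

variable [Fintype F] [DecidableEq F]

lemma two_le_card : 2 ≤ Fintype.card F := Fintype.one_lt_card

lemma hyp_bound (K : Finset (V F)) (hK : PO K) (hcard : Fintype.card F ^ 2 ≤ K.card) :
    (K.filter (fun v => v.2.1 = 0 ∧ v.2.2.1 = 0)).card ≤ 2 := by
  set q := Fintype.card F with hq
  have hq2 : 2 ≤ q := two_le_card
  set H := K.filter (fun v => v.2.1 = 0 ∧ v.2.2.1 = 0) with hH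
  by_contra hcon
  push Not at hcon
  have hHK : H ⊆ K := Finset.filter_subset _ _
  let g : V F → Option F := fun v => pr v.1 v.2.2.2
  let f : V F → Option F × Option F := fun v => (g v, pr v.2.1 v.2.2.1)
  have hmem : ∀ v ∈ H, v.2.1 = 0 ∧ v.2.2.1 = 0 := fun v hv => (Finset.mem_filter.mp hv).2
  have hg : ∀ v ∈ K, ∀ h ∈ H, g v = g h → v = h := by
    intro v hv h hh hgv
    have h1 := pr_eq hgv
    have h2 := hmem h hh
    apply hK.eq hv (hHK hh)
    unfold B
    rw [h2.1, h2.2]
    linear_combination h1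
  have hcardH : (H.image g).card = H.card :=
    Finset.card_image_of_injOn (fun x hx y hy hxy => hg x (hHK hx) y hy hxy)
  have hf : Set.InjOn f (K \ H : Finset (V F)) := by
    intro x hx y hy hxy
    simp only [f, Prod.mk.injEq] at hxy
    have h1 := pr_eq hxy.1
    have h2 := pr_eq hxy.2
    rw [Finset.mem_coe, Finset.mem_sdiff] at hx hy
    apply hK.eq hx.1 hy.1
    unfold B
    linear_combination h1 - h2
  have hmaps : (K \ H).image f ⊆ (Finset.univ \ H.image g) ×ˢ (Finset.univ : Finset (Option F)) := by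
    intro p hp
    rw [Finset.mem_image] at hp
    obtain ⟨v, hv, rfl⟩ := hp
    rw [Finset.mem_sdiff] at hv
    simp only [Finset.mem_product, Finset.mem_sdiff, Finset.mem_univ, true_and, and_true, f]
    intro hgv
    rw [Finset.mem_image] at hgv
    obtain ⟨h, hh, hgh⟩ := hgv
    have := hg v hv.1 h hh hgh.symm
    exact hv.2 (this ▸ hh)
  have h1 := Finset.card_le_card hmaps
  rw [Finset.card_image_of_injOn hf, Finset.card_product, Finset.card_univ, Fintype.card_option, ← hq] at h1
  have h2 : (K \ H).card + H.card = K.card := Finset.card_sdiff_add_card_eq_card hHK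
  have h3 : (Finset.univ \ H.image g).card + H.card = q + 1 := by
    have := Finset.card_sdiff_add_card_eq_card (Finset.subset_univ (H.image g))
    rw [hcardH, Finset.card_univ, Fintype.card_option] at this
    exact this
  set k := H.card
  set m := (Finset.univ \ H.image g).card
  have h4 : q ^ 2 ≤ m * (q + 1) + k := by omega
  have h5 : m + 3 ≤ q + 1 := by omega
  nlinarith

lemma iso_T (γ δ : F) : Iso (fun v : V F => (v.1, v.2.1 - γ * v.1, v.2.2.1 - δ * v.1, v.2.2.2 + δ * v.2.1 - γ * v.2.2.1)) := by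
  intro x y
  unfold B
  ring

lemma hyp_bound' (K : Finset (V F)) (hK : PO K) (hcard : Fintype.card F ^ 2 ≤ K.card) (γ δ : F) :
    (K.filter (fun v => v.2.1 = γ * v.1 ∧ v.2.2.1 = δ * v.1)).card ≤ 2 := by
  let T : V F → V F := fun v => (v.1, v.2.1 - γ * v.1, v.2.2.1 - δ * v.1, v.2.2.2 + δ * v.2.1 - γ * v.2.2.1)
  have hT : Iso T := iso_T γ δ
  have h1 := hyp_bound (K.image T) (hK.image hT) (by rwa [Finset.card_image_of_injOn (hK.injOn hT)])
  refine le_trans ?_ h1
  rw [← Finset.card_image_of_injOn ((hK.injOn hT).mono (s₁ := (K.filter (fun v => v.2.1 = γ * v.1 ∧ v.2.2.1 = δ * v.1) : Finset (V F))) (fun x hx => (Finset.mem_filter.mp hx).1))]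
  apply Finset.card_le_card
  intro v hv
  rw [Finset.mem_image] at hv
  obtain ⟨x, hx, rfl⟩ := hv
  rw [Finset.mem_filter] at hx
  rw [Finset.mem_filter]
  refine ⟨Finset.mem_image_of_mem _ hx.1, ?_, ?_⟩
  · simp only [T]; rw [hx.2.1]; ring
  · simp only [T]; rw [hx.2.2]; ring

lemma collisions (ψ : F → F) : 2 * (Fintype.card F - (Finset.univ.image ψ).card) ≤
    ((Finset.univ : Finset F).offDiag.filter (fun p => ψ p.1 = ψ p.2)).card := by
  have h1 : (Finset.univ : Finset F).card = ∑ b ∈ Finset.univ.image ψ, ((Finset.univ : Finset F).filter (fun a => ψ a = b)).card :=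
    Finset.card_eq_sum_card_fiberwise (fun a _ => Finset.mem_image_of_mem ψ (Finset.mem_univ a))
  have h2 : ((Finset.univ : Finset F).offDiag.filter (fun p => ψ p.1 = ψ p.2)).card =
      ∑ b ∈ Finset.univ.image ψ, (((Finset.univ : Finset F).offDiag.filter (fun p => ψ p.1 = ψ p.2)).filter (fun p => ψ p.1 = b)).card :=
    Finset.card_eq_sum_card_fiberwise (fun a _ => Finset.mem_image_of_mem ψ (Finset.mem_univ _))
  have h3 : ∀ b ∈ Finset.univ.image ψ, 2 * ((Finset.univ : Finset F).filter (fun a => ψ a = b)).card ≤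
      (((Finset.univ : Finset F).offDiag.filter (fun p => ψ p.1 = ψ p.2)).filter (fun p => ψ p.1 = b)).card + 2 := by
    intro b hb
    have h4 : ((Finset.univ : Finset F).offDiag.filter (fun p => ψ p.1 = ψ p.2)).filter (fun p => ψ p.1 = b) =
        ((Finset.univ : Finset F).filter (fun a => ψ a = b)).offDiag := by
      ext ⟨s, t⟩
      simp only [Finset.mem_filter, Finset.mem_offDiag, Finset.mem_univ, true_and]
      constructor
      · rintro ⟨⟨h, h'⟩, h''⟩
        exact ⟨h'', h' ▸ h'', h⟩
      · rintro ⟨h, h', h''⟩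
        exact ⟨⟨h'', h.trans h'.symm⟩, h⟩
    rw [h4, Finset.offDiag_card]
    set s := ((Finset.univ : Finset F).filter (fun a => ψ a = b)).card
    rcases Nat.lt_or_ge s 2 with h | h
    · interval_cases s <;> omega
    · obtain ⟨m, hm⟩ : ∃ m, s = m + 2 := ⟨s - 2, by omega⟩
      rw [hm]
      have : (m + 2) * (m + 2) - (m + 2) = m * m + 3 * m + 2 := by
        have : (m + 2) * (m + 2) = (m * m + 3 * m + 2) + (m + 2) := by ring
        omega
      rw [this]
      nlinarith
  have h5 := Finset.sum_le_sum h3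
  rw [← Finset.mul_sum, ← h1, Finset.sum_add_distrib, ← h2, Finset.sum_const, Finset.card_univ, smul_eq_mul] at h5
  omega



lemma total_collisions (φ : F → F) :
    ∑ γ : F, ((Finset.univ : Finset F).offDiag.filter (fun p => γ * p.1 - φ p.1 = γ * p.2 - φ p.2)).card ≤
      Fintype.card F * Fintype.card F - Fintype.card F := by
  have h1 : ∀ γ : F, ((Finset.univ : Finset F).offDiag.filter (fun p => γ * p.1 - φ p.1 = γ * p.2 - φ p.2)).card =
      ∑ p ∈ (Finset.univ : Finset F).offDiag, if γ * p.1 - φ p.1 = γ * p.2 - φ p.2 then 1 else 0 := by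
    intro γ
    rw [Finset.card_filter]
  simp_rw [h1]
  rw [Finset.sum_comm]
  have h2 : ∀ p ∈ (Finset.univ : Finset F).offDiag,
      ∑ γ : F, (if γ * p.1 - φ p.1 = γ * p.2 - φ p.2 then 1 else 0) ≤ 1 := by
    intro p hp
    rw [Finset.mem_offDiag] at hp
    rw [← Finset.card_filter, Finset.card_le_one]
    intro x hx y hy
    rw [Finset.mem_filter] at hx hy
    have h : (x - y) * (p.1 - p.2) = 0 := by linear_combination hx.2 - hy.2
    rcases mul_eq_zero.mp h with h | h
    · exact sub_eq_zero.mp h
    · exact absurd (sub_eq_zero.mp h) hp.2.2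
  refine (Finset.sum_le_sum h2).trans ?_
  rw [Finset.sum_const, Finset.offDiag_card, Finset.card_univ, smul_eq_mul, mul_one]

lemma step2 (hq : 3 < Fintype.card F) (hodd : Odd (Fintype.card F)) (K : Finset (V F)) (hK : PO K)
    (hcard : K.card = Fintype.card F ^ 2)
    (hz : Fintype.card F + 1 ≤ (K.filter (fun v => v.1 = 0)).card) : False := by
  set q := Fintype.card F with hqdef
  set A := K.filter (fun v => v.1 = 0) with hA
  have hAK : A ⊆ K := Finset.filter_subset _ _
  have hA0 : ∀ v ∈ A, v.1 = 0 := fun v hv => (Finset.mem_filter.mp hv).2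
  let g : V F → Option F := fun v => pr v.2.1 v.2.2.1
  have hginj : Set.InjOn g A := by
    intro x hx y hy hxy
    have h := pr_eq hxy
    apply hK.eq (hAK hx) (hAK hy)
    unfold B
    rw [hA0 x hx, hA0 y hy]
    linear_combination -h
  have hcardA : A.card = q + 1 := by
    have h1 : A.card ≤ q + 1 := by
      rw [← Finset.card_image_of_injOn hginj, hqdef, ← Fintype.card_option, ← Finset.card_univ]
      exact Finset.card_le_card (Finset.subset_univ _)
    omega
  have himg : A.image g = Finset.univ := by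
    apply Finset.eq_univ_of_card
    rw [Finset.card_image_of_injOn hginj, hcardA, Fintype.card_option]
  -- nonvanishing of `(c, d)`
  have hnz : ∀ v ∈ A, v.2.1 = 0 → v.2.2.1 ≠ 0 := by
    intro v hv hc hd
    obtain ⟨y, hy, hyv⟩ := Finset.exists_mem_ne (by omega : 1 < A.card) v
    apply hK v (hAK hv) y (hAK hy) hyv.symm
    unfold B
    rw [hA0 v hv, hA0 y hy, hc, hd]
    ring
  have hex : ∀ o : Option F, ∃ v ∈ A, g v = o := by
    intro o
    have : o ∈ A.image g := himg ▸ Finset.mem_univ o
    rw [Finset.mem_image] at this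
    exact this
  obtain ⟨w, hwA, hw⟩ := hex none
  have hwc : w.2.1 = 0 := by
    by_contra h
    simp [g, pr, h] at hw
  have hwd := hnz w hwA hwc
  choose x hxA hx using fun t : F => hex (some t)
  have hxc : ∀ t, (x t).2.1 ≠ 0 := by
    intro t h
    have := hx t
    simp [g, pr, h] at this
  have hxd : ∀ t, (x t).2.2.1 = t * (x t).2.1 := by
    intro t
    have h := hx t
    simp only [g, pr, hxc t, if_false, Option.some.injEq] at h
    rw [div_eq_iff (hxc t)] at h
    exact h
  let φ : F → F := fun t => (x t).2.2.2 / (x t).2.1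
  set γ₀ : F := w.2.2.2 / w.2.2.1 with hγ₀
  set U := K.filter (fun v => v.1 ≠ 0) with hU
  have hUcard : A.card + U.card = K.card := Finset.card_filter_add_card_filter_not (s := K) (fun v => v.1 = 0)
  have hUK : U ⊆ K := Finset.filter_subset _ _
  have hU0 : ∀ v ∈ U, v.1 ≠ 0 := fun v hv => (Finset.mem_filter.mp hv).2
  have hneA : ∀ v ∈ U, ∀ y ∈ A, B v y ≠ 0 := by
    intro v hv y hy
    apply hK v (hUK hv) y (hAK hy)
    rintro rfl
    exact hU0 v hv (hA0 v hy)
  let Γ : V F → F := fun v => v.2.1 / v.1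
  let Δ : V F → F := fun v => v.2.2.1 / v.1
  have hΓ : ∀ v ∈ U, Γ v ≠ γ₀ := by
    intro v hv h
    apply hneA v hv w hwA
    simp only [Γ, hγ₀] at h
    rw [div_eq_div_iff (hU0 v hv) hwd] at h
    unfold B
    rw [hA0 w hwA, hwc]
    linear_combination -h
  have hΔ : ∀ v ∈ U, ∀ t, Γ v * t - φ t ≠ Δ v := by
    intro v hv t h
    apply hneA v hv (x t) (hxA t)
    have hv0 := hU0 v hv
    have hxc' := hxc t
    simp only [Γ, Δ, φ] at h
    field_simp at h
    unfold B
    rw [hA0 _ (hxA t), hxd t]
    linear_combination -h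
  -- the fibres
  have hfib : ∀ γ : F, (U.filter (fun v => Γ v = γ)).card ≤
      2 * (q - (Finset.univ.image (fun t => γ * t - φ t)).card) := by
    intro γ
    have h1 : ∀ v ∈ U.filter (fun v => Γ v = γ), Δ v ∈ Finset.univ \ Finset.univ.image (fun t => γ * t - φ t) := by
      intro v hv
      rw [Finset.mem_filter] at hv
      rw [Finset.mem_sdiff]
      refine ⟨Finset.mem_univ _, ?_⟩
      rw [Finset.mem_image]
      rintro ⟨t, -, ht⟩
      exact hΔ v hv.1 t (hv.2 ▸ ht)
    have h2 : ∀ δ ∈ Finset.univ \ Finset.univ.image (fun t => γ * t - φ t),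
        ((U.filter (fun v => Γ v = γ)).filter (fun v => Δ v = δ)).card ≤ 2 := by
      intro δ _
      refine le_trans (Finset.card_le_card ?_) (hyp_bound' K hK hcard.ge γ δ)
      intro v hv
      rw [Finset.mem_filter, Finset.mem_filter] at hv
      rw [Finset.mem_filter]
      refine ⟨hUK hv.1.1, ?_, ?_⟩
      · rw [← hv.1.2]; exact (div_mul_cancel₀ _ (hU0 v hv.1.1)).symm
      · rw [← hv.2]; exact (div_mul_cancel₀ _ (hU0 v hv.1.1)).symm
    have h3 := Finset.card_le_mul_card_image_of_maps_to h1 2 h2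
    have h4 := Finset.card_sdiff_add_card_eq_card (Finset.subset_univ (Finset.univ.image (fun t => γ * t - φ t)))
    rw [Finset.card_univ, ← hqdef] at h4
    omega
  have hfib2 : ∀ γ : F, (U.filter (fun v => Γ v = γ)).card ≤ q := by
    intro γ
    rw [hqdef, ← Finset.card_univ]
    apply Finset.card_le_card_of_injOn (fun v => (v.2.2.2 - γ * v.2.2.1) / v.1) (fun _ _ => Finset.mem_univ _)
    intro v hv y hy hvy
    rw [Finset.mem_coe, Finset.mem_filter] at hv hy
    simp only at hvy
    rw [div_eq_div_iff (hU0 v hv.1) (hU0 y hy.1)] at hvy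
    apply hK.eq (hUK hv.1) (hUK hy.1)
    have e1 : v.2.1 = γ * v.1 := by rw [← hv.2]; exact (div_mul_cancel₀ _ (hU0 v hv.1)).symm
    have e2 : y.2.1 = γ * y.1 := by rw [← hy.2]; exact (div_mul_cancel₀ _ (hU0 y hy.1)).symm
    unfold B
    rw [e1, e2]
    linear_combination -hvy
  have hsum : U.card = ∑ γ ∈ Finset.univ.erase γ₀, (U.filter (fun v => Γ v = γ)).card :=
    Finset.card_eq_sum_card_fiberwise (fun v hv => Finset.mem_coe.mpr (Finset.mem_erase.mpr ⟨hΓ v hv, Finset.mem_univ _⟩))
  have hper : ∀ γ ∈ Finset.univ.erase γ₀, 2 * (U.filter (fun v => Γ v = γ)).card ≤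
      ((Finset.univ : Finset F).offDiag.filter (fun p => γ * p.1 - φ p.1 = γ * p.2 - φ p.2)).card + (q - 1) := by
    intro γ _
    have h1 := hfib γ
    have h2 := hfib2 γ
    have h3 := collisions (fun t => γ * t - φ t)
    obtain ⟨m, hm⟩ := hodd
    omega
  have hfinal := Finset.sum_le_sum hper
  rw [← Finset.mul_sum, ← hsum, Finset.sum_add_distrib, Finset.sum_const, Finset.card_erase_of_mem (Finset.mem_univ _),
    Finset.card_univ, ← hqdef, smul_eq_mul] at hfinal
  have htot := total_collisions φ
  have hle : ∑ γ ∈ Finset.univ.erase γ₀, ((Finset.univ : Finset F).offDiag.filter (fun p => γ * p.1 - φ p.1 = γ * p.2 - φ p.2)).card ≤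
      ∑ γ : F, ((Finset.univ : Finset F).offDiag.filter (fun p => γ * p.1 - φ p.1 = γ * p.2 - φ p.2)).card :=
    Finset.sum_le_sum_of_subset (Finset.subset_univ _)
  rw [← hqdef] at htot
  obtain ⟨m, hm⟩ : ∃ m, q = m + 4 := ⟨q - 4, by omega⟩
  have e1 : q * q - q = m * m + 7 * m + 12 := by
    have : q * q = (m * m + 7 * m + 12) + q := by rw [hm]; ring
    omega
  have e2 : (q - 1) * (q - 1) = m * m + 6 * m + 9 := by
    have : q - 1 = m + 3 := by omega
    rw [this]; ring
  have e3 : K.card = m * m + 8 * m + 16 := by rw [hcard, hm]; ring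
  rw [e2] at hfinal
  rw [e1] at htot
  omega

/-- The form preserving maps act transitively on nonzero vectors. -/
lemma exists_iso (z : V F) (hz : z ≠ 0) : ∃ f : V F → V F, Iso f ∧ f z = (0, 0, 0, 1) := by
  -- first case: last coordinate nonzero
  have key : ∀ z : V F, z.2.2.2 ≠ 0 → ∃ f : V F → V F, Iso f ∧ f z = (0, 0, 0, 1) := by
    intro z he
    refine ⟨fun v => (B v z, v.2.1 - v.2.2.2 / z.2.2.2 * z.2.1, v.2.2.1 - v.2.2.2 / z.2.2.2 * z.2.2.1,
      v.2.2.2 / z.2.2.2), ?_, ?_⟩
    · intro x y
      unfold B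
      field_simp
      ring
    · refine Prod.ext ?_ (Prod.ext ?_ (Prod.ext ?_ ?_))
      · exact B_self z
      · simp only; field_simp; ring
      · simp only; field_simp; ring
      · simp only; field_simp
  -- second case: first coordinate nonzero
  have key2 : ∀ z : V F, z.1 ≠ 0 → ∃ f : V F → V F, Iso f ∧ f z = (0, 0, 0, 1) := by
    intro z ha
    let J : V F → V F := fun v => (-v.2.2.2, v.2.1, v.2.2.1, v.1)
    have hJ : Iso J := by intro x y; unfold B; simp only [J]; ring
    obtain ⟨f, hf, hfz⟩ := key (J z) ha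
    exact ⟨f ∘ J, hf.comp hJ, hfz⟩
  by_cases he : z.2.2.2 = 0
  · by_cases ha : z.1 = 0
    · let S : V F → V F := fun v => (v.2.2.1, v.2.2.2, v.1, v.2.1)
      have hS : Iso S := by intro x y; unfold B; simp only [S]; ring
      by_cases hd : z.2.2.1 = 0
      · have hc : z.2.1 ≠ 0 := by
          intro hc
          apply hz
          exact Prod.ext ha (Prod.ext hc (Prod.ext hd he))
        obtain ⟨f, hf, hfz⟩ := key (S z) hc
        exact ⟨f ∘ S, hf.comp hS, hfz⟩
      · obtain ⟨f, hf, hfz⟩ := key2 (S z) hd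
        exact ⟨f ∘ S, hf.comp hS, hfz⟩
    · exact key2 z ha
  · exact key z he

lemma nondeg (x y : V F) (h : ∀ w, B x w = B y w) : x = y := by
  have h1 := h (0, 0, 0, 1)
  have h2 := h (1, 0, 0, 0)
  have h3 := h (0, 1, 0, 0)
  have h4 := h (0, 0, 1, 0)
  simp only [B] at h1 h2 h3 h4
  refine Prod.ext ?_ (Prod.ext ?_ (Prod.ext ?_ ?_))
  · linear_combination h1
  · linear_combination -h4
  · linear_combination h3
  · linear_combination -h2

lemma card_perp (x : V F) (hx : x ≠ 0) :
    (Finset.univ.filter (fun z : V F => B x z = 0)).card = Fintype.card F ^ 3 := by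
  obtain ⟨f, hf, hfx⟩ := exists_iso x hx
  have hinj : Function.Injective f := by
    intro a b hab
    apply nondeg
    intro w
    rw [← hf a w, ← hf b w, hab]
  have hbij : Function.Bijective f := Finite.injective_iff_bijective.mp hinj
  have h1 : (Finset.univ.filter (fun z : V F => B x z = 0)).card = (Finset.univ.filter (fun z : V F => z.1 = 0)).card := by
    apply Finset.card_bijective f hbij
    intro z
    simp only [Finset.mem_filter, Finset.mem_univ, true_and]
    rw [← hf x z, hfx]
    simp [B]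
  rw [h1]
  have h2 : (Finset.univ.filter (fun z : V F => z.1 = 0)) = ({0} : Finset F) ×ˢ (Finset.univ : Finset (F × F × F)) := by
    ext z
    rw [Finset.mem_product]
    simp only [Finset.mem_filter, Finset.mem_univ, true_and, and_true, Finset.mem_singleton]
  rw [h2, Finset.card_product, Finset.card_singleton, Finset.card_univ]
  simp only [Fintype.card_prod]
  ring

lemma step1 (K : Finset (V F)) (hK : PO K) (hcard : K.card = Fintype.card F ^ 2) :
    ∃ z : V F, z ≠ 0 ∧ Fintype.card F + 1 ≤ (K.filter (fun x => B x z = 0)).card := by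
  by_contra hcon
  push Not at hcon
  set q := Fintype.card F with hqdef
  have hq2 : 2 ≤ q := two_le_card
  have h0K : (0 : V F) ∉ K := by
    intro h0
    obtain ⟨y, hy, hy0⟩ := Finset.exists_mem_ne (by rw [hcard]; nlinarith : 1 < K.card) (0 : V F)
    apply hK 0 h0 y hy hy0.symm
    simp [B]
  have hsum : ∑ z : V F, (K.filter (fun x => B x z = 0)).card = q ^ 2 * q ^ 3 := by
    have e1 : ∀ z : V F, (K.filter (fun x => B x z = 0)).card = ∑ x ∈ K, if B x z = 0 then 1 else 0 := by
      intro z; rw [Finset.card_filter]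
    simp_rw [e1]
    rw [Finset.sum_comm]
    have e2 : ∀ x ∈ K, ∑ z : V F, (if B x z = 0 then 1 else 0) = q ^ 3 := by
      intro x hx
      rw [← Finset.card_filter]
      exact card_perp x (fun h => h0K (h ▸ hx))
    rw [Finset.sum_congr rfl e2, Finset.sum_const, hcard, smul_eq_mul]
  have hbound : ∀ z : V F, (K.filter (fun x => B x z = 0)).card ≤
      (if z = 0 then q ^ 2 else 0) + (if z ∈ K then 1 else 0) + (if z ≠ 0 ∧ z ∉ K then q else 0) := by
    intro z
    by_cases hz0 : z = 0
    · subst hz0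
      have := Finset.card_filter_le K (fun x => B x 0 = 0)
      simp only [if_true, hcard] at *
      omega
    · by_cases hzK : z ∈ K
      · have : K.filter (fun x => B x z = 0) ⊆ {z} := by
          intro x hx
          rw [Finset.mem_filter] at hx
          rw [Finset.mem_singleton]
          exact hK.eq hx.1 hzK hx.2
        have := Finset.card_le_card this
        rw [Finset.card_singleton] at this
        simp only [hz0, hzK, if_false, if_true]
        omega
      · have := hcon z hz0
        simp only [hz0, hzK, if_false, ne_eq, not_false_eq_true, and_self, if_true]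
        omega
  have h1 := Finset.sum_le_sum (fun z (_ : z ∈ (Finset.univ : Finset (V F))) => hbound z)
  rw [hsum, Finset.sum_add_distrib, Finset.sum_add_distrib] at h1
  have h2 : ∑ z : V F, (if z = 0 then q ^ 2 else 0) = q ^ 2 := by simp
  have h3 : ∑ z : V F, (if z ∈ K then 1 else 0) = q ^ 2 := by
    rw [← Finset.card_filter, ← hcard]
    congr 1
    ext z; simp
  have h4 : ∑ z : V F, (if z ≠ 0 ∧ z ∉ K then q else 0) + (q ^ 2 + 1) * q = q ^ 4 * q := by
    have e1 : ∑ z : V F, (if z ≠ 0 ∧ z ∉ K then q else 0) = (Finset.univ \ (insert (0 : V F) K)).card * q := by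
      rw [← Finset.sum_filter, Finset.sum_const, smul_eq_mul]
      congr 2
      ext z
      simp
    have e2 := Finset.card_sdiff_add_card_eq_card (Finset.subset_univ (insert (0 : V F) K))
    rw [Finset.card_insert_of_notMem h0K, hcard, Finset.card_univ] at e2
    have e3 : Fintype.card (V F) = q ^ 4 := by
      simp only [Fintype.card_prod, ← hqdef]
      ring
    rw [e1, ← e3, ← e2]
    ring
  rw [h2, h3] at h1
  have h5 : q ^ 2 * q ^ 3 + (q ^ 2 + 1) * q ≤ q ^ 2 + q ^ 2 + q ^ 4 * q := by omega
  have h6 : q ^ 2 * q ^ 3 = q ^ 4 * q := by ring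
  have h7 : (q ^ 2 + 1) * q ≤ q ^ 2 + q ^ 2 := by omega
  nlinarith

/-- There is no set of `q²` pairwise non-perpendicular vectors for `q > 3` odd. -/
theorem no_ovoid (hq : 3 < Fintype.card F) (hodd : Odd (Fintype.card F)) (K : Finset (V F)) (hK : PO K) :
    K.card < Fintype.card F ^ 2 := by
  by_contra hcon
  push Not at hcon
  obtain ⟨K', hK'sub, hK'⟩ := Finset.exists_subset_card_eq hcon
  have hPO : PO K' := fun x hx y hy => hK x (hK'sub hx) y (hK'sub hy)
  obtain ⟨z, hz, hr⟩ := step1 K' hPO hK'
  obtain ⟨f, hf, hfz⟩ := exists_iso z hz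
  refine step2 hq hodd (K'.image f) (hPO.image hf) ?_ ?_
  · rw [Finset.card_image_of_injOn (hPO.injOn hf), hK']
  · refine hr.trans ?_
    rw [← Finset.card_image_of_injOn ((hPO.injOn hf).mono (s₁ := (K'.filter (fun x => B x z = 0) : Finset (V F))) (fun x hx => (Finset.mem_filter.mp hx).1))]
    apply Finset.card_le_card
    intro v hv
    rw [Finset.mem_image] at hv
    obtain ⟨x, hx, rfl⟩ := hv
    rw [Finset.mem_filter] at hx
    rw [Finset.mem_filter]
    refine ⟨Finset.mem_image_of_mem _ hx.1, ?_⟩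
    have h1 := hf x z
    rw [hfz, hx.2] at h1
    simpa [B] using h1

end odd


section upper

variable {F : Type} [Field F] [Fintype F]

/-- The upper bound for `q > 3` odd. -/
theorem omega_odd (hq : 3 < Fintype.card F) (hodd : Odd (Fintype.card F)) :
    omega (UU 4 F) + Fintype.card F ≤ Fintype.card F ^ 3 + Fintype.card F ^ 2 := by
  classical
  set q := Fintype.card F with hqdef
  have hle : omega (UU 4 F) ≤ q ^ 3 + q ^ 2 - q := by
    apply omega_le
    intro X hX
    set X0 := X.filter (fun g => ent g 1 2 = 0) with hX0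
    set X1 := X.filter (fun g => ¬ ent g 1 2 = 0) with hX1
    have hsplit : X0.card + X1.card = X.card := Finset.card_filter_add_card_filter_not _
    -- the part `b = 0`
    let v : UU 4 F → V F := fun g => (ent g 0 1, ent g 2 3, ent g 0 2, ent g 1 3)
    have hv : ∀ x ∈ X0, ∀ y ∈ X0, x ≠ y → B (v x) (v y) ≠ 0 := by
      intro x hx y hy hxy h
      rw [hX0, Finset.mem_filter] at hx hy
      apply hX x hx.1 y hy.1 hxy
      rw [commute_iff, hx.2, hy.2]
      refine ⟨by ring, by ring, ?_⟩
      simp only [B, v] at h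
      linear_combination h
    have hvinj : Set.InjOn v X0 := by
      intro x hx y hy hxy
      by_contra hne
      apply hv x hx y hy hne
      rw [hxy, B_self]
    have hPO : PO (X0.image v) := by
      intro x hx y hy hxy
      rw [Finset.mem_image] at hx hy
      obtain ⟨x, hx, rfl⟩ := hx
      obtain ⟨y, hy, rfl⟩ := hy
      exact hv x hx y hy (fun h => hxy (by rw [h]))
    have h0 := no_ovoid hq hodd (X0.image v) hPO
    rw [Finset.card_image_of_injOn hvinj, ← hqdef] at h0
    -- the part `b ≠ 0`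
    let u : UU 4 F → F × F × F := fun g =>
      (ent g 0 1 / ent g 1 2, ent g 2 3 / ent g 1 2,
        (ent g 0 1 * ent g 1 3 - ent g 2 3 * ent g 0 2) / (ent g 1 2) ^ 2)
    have huinj : Set.InjOn u X1 := by
      intro x hx y hy hxy
      by_contra hne
      rw [Finset.mem_coe, hX1, Finset.mem_filter] at hx hy
      apply hX x hx.1 y hy.1 hne
      rw [commute_iff]
      have hxb := hx.2
      have hyb := hy.2
      simp only [u, Prod.mk.injEq] at hxy
      obtain ⟨e1, e2, e3⟩ := hxy
      rw [div_eq_div_iff hxb hyb] at e1 e2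
      rw [div_eq_div_iff (pow_ne_zero 2 hxb) (pow_ne_zero 2 hyb)] at e3
      refine ⟨by linear_combination e1, by linear_combination -e2, ?_⟩
      have h : (ent x 1 2 * ent y 1 2) * (ent x 0 1 * ent y 1 3 + ent x 0 2 * ent y 2 3 -
          (ent y 0 1 * ent x 1 3 + ent y 0 2 * ent x 2 3)) = 0 := by
        linear_combination (ent y 1 3 * ent x 1 2 + ent x 1 3 * ent y 1 2) * e1 -
          (ent x 0 2 * ent y 1 2 + ent y 0 2 * ent x 1 2) * e2 - e3
      exact sub_eq_zero.mp ((mul_eq_zero.mp h).resolve_left (mul_ne_zero hxb hyb))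
    have hmaps : X1.image u ⊆ Finset.univ.filter (fun p : F × F × F => ¬ (p.1 = 0 ∧ p.2.1 = 0 ∧ p.2.2 ≠ 0)) := by
      intro p hp
      rw [Finset.mem_image] at hp
      obtain ⟨x, hx, rfl⟩ := hp
      rw [Finset.mem_filter] at hx
      rw [Finset.mem_filter]
      refine ⟨Finset.mem_univ _, ?_⟩
      rintro ⟨h1, h2, h3⟩
      apply h3
      simp only [u] at h1 h2 ⊢
      rw [div_eq_zero_iff, or_iff_left hx.2] at h1 h2
      rw [h1, h2]
      simp
    have h1 := Finset.card_le_card hmaps
    rw [Finset.card_image_of_injOn huinj] at h1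
    have h2 : (Finset.univ.filter (fun p : F × F × F => (p.1 = 0 ∧ p.2.1 = 0 ∧ p.2.2 ≠ 0))).card +
        (Finset.univ.filter (fun p : F × F × F => ¬ (p.1 = 0 ∧ p.2.1 = 0 ∧ p.2.2 ≠ 0))).card = q ^ 3 := by
      rw [Finset.card_filter_add_card_filter_not, Finset.card_univ]
      simp only [Fintype.card_prod, ← hqdef]
      ring
    have h3 : (Finset.univ.filter (fun p : F × F × F => (p.1 = 0 ∧ p.2.1 = 0 ∧ p.2.2 ≠ 0))).card = q - 1 := by
      have : (Finset.univ.filter (fun p : F × F × F => (p.1 = 0 ∧ p.2.1 = 0 ∧ p.2.2 ≠ 0))) =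
          ({0} : Finset F) ×ˢ (({0} : Finset F) ×ˢ ((Finset.univ : Finset F).erase 0)) := by
        ext p
        simp only [Finset.mem_filter, Finset.mem_univ, true_and, Finset.mem_product, Finset.mem_singleton,
          Finset.mem_erase, and_true]
      rw [this, Finset.card_product, Finset.card_product, Finset.card_erase_of_mem (Finset.mem_univ _),
        Finset.card_singleton, Finset.card_univ]
      ring
    omega
  have : q ≤ q ^ 2 := by nlinarith
  omega

/-- The values in even characteristic exceed `q³ + q² - q`, those in odd characteristic do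
not, so no real polynomial gives `omega (UU 4 F)` for all large finite fields. -/
theorem not_polynomial (P : Polynomial ℝ) (q₀ : ℕ) :
    ∃ (F : Type) (_ : Field F) (_ : Fintype F), q₀ ≤ Fintype.card F ∧
      (omega (UU 4 F) : ℝ) ≠ P.eval (Fintype.card F : ℝ) := by
  by_contra hcon
  push Not at hcon
  let R : Polynomial ℝ := P - (Polynomial.X ^ 3 + Polynomial.X ^ 2 - Polynomial.X)
  have heven : ∀ N : ℕ, ∃ x : ℝ, (N : ℝ) ≤ x ∧ 1 ≤ R.eval x := by
    intro N
    set n := max (max N q₀) 1 with hn
    have hn1 : n ≠ 0 := by omega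
    have : Fact (Nat.Prime 2) := ⟨Nat.prime_two⟩
    let _ : Fintype (GaloisField 2 n) := Fintype.ofFinite _
    have hc : Fintype.card (GaloisField 2 n) = 2 ^ n := by
      rw [← Nat.card_eq_fintype_card, GaloisField.card 2 n hn1]
    have hlt : n < 2 ^ n := Nat.lt_two_pow_self
    have h1 := hcon (GaloisField 2 n) inferInstance inferInstance (by rw [hc]; omega)
    have h2 := omega_even (F := GaloisField 2 n)
    rw [hc] at h1 h2
    refine ⟨((2 ^ n : ℕ) : ℝ), ?_, ?_⟩
    · exact_mod_cast (by omega : N ≤ 2 ^ n)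
    · simp only [R, Polynomial.eval_sub, Polynomial.eval_add, Polynomial.eval_pow, Polynomial.eval_X]
      rw [← h1]
      have h3 : (((2 ^ n : ℕ) : ℝ)) ^ 3 + (((2 ^ n : ℕ) : ℝ)) ^ 2 + 1 ≤
          (omega (UU 4 (GaloisField 2 n)) : ℝ) + ((2 ^ n : ℕ) : ℝ) := by exact_mod_cast h2
      linarith
  have hodd : ∀ N : ℕ, ∃ x : ℝ, (N : ℝ) ≤ x ∧ R.eval x ≤ 0 := by
    intro N
    obtain ⟨p, hp1, hp⟩ := Nat.exists_infinite_primes (max (max N q₀) 4)
    have : Fact (Nat.Prime p) := ⟨hp⟩
    have hc : Fintype.card (ZMod p) = p := ZMod.card p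
    have h1 := hcon (ZMod p) inferInstance inferInstance (by rw [hc]; omega)
    have h2 := omega_odd (F := ZMod p) (by rw [hc]; omega)
      (by rw [hc]; exact hp.odd_of_ne_two (by omega))
    rw [hc] at h1 h2
    refine ⟨(p : ℝ), ?_, ?_⟩
    · exact_mod_cast (by omega : N ≤ p)
    · simp only [R, Polynomial.eval_sub, Polynomial.eval_add, Polynomial.eval_pow, Polynomial.eval_X]
      rw [← h1]
      have h3 : (omega (UU 4 (ZMod p)) : ℝ) + (p : ℝ) ≤ (p : ℝ) ^ 3 + (p : ℝ) ^ 2 := by exact_mod_cast h2
      linarith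
  rcases le_or_gt R.degree 0 with hdeg | hdeg
  · obtain ⟨x, -, hx⟩ := heven 0
    obtain ⟨y, -, hy⟩ := hodd 0
    rw [Polynomial.eq_C_of_degree_le_zero hdeg] at hx hy
    simp only [Polynomial.eval_C] at hx hy
    linarith
  · rcases le_total 0 R.leadingCoeff with hl | hl
    · have ht := Polynomial.tendsto_atTop_of_leadingCoeff_nonneg R hdeg hl
      have he := ht.eventually_gt_atTop 0
      rw [Filter.eventually_atTop] at he
      obtain ⟨a, ha⟩ := he
      obtain ⟨y, hy1, hy⟩ := hodd ⌈a⌉₊
      have := ha y ((Nat.le_ceil a).trans hy1)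
      linarith
    · have ht := Polynomial.tendsto_atBot_of_leadingCoeff_nonpos R hdeg hl
      have he := ht.eventually_lt_atBot 1
      rw [Filter.eventually_atTop] at he
      obtain ⟨a, ha⟩ := he
      obtain ⟨y, hy1, hy⟩ := heven ⌈a⌉₊
      have := ha y ((Nat.le_ceil a).trans hy1)
      linarith

end upper

end Pool.Agent.Q19.UU4
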