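import Mathlib

set_option autoImplicit false
set_option linter.unusedVariables false

/-! The affine Lie algebra of `sl_2`, its vacuum modules, vertex algebras. -/

attribute [local instance 100] LieRing.ofAssociativeRing

namespace Pool.Agent.Q19.Va

universe u

/-- the Lie algebra `sl_2` of traceless matrices -/
def Sl2 (K : Type u) [Field K] : Type u := LieAlgebra.SpecialLinear.sl (Fin 2) K

noncomputable instance (K : Type u) [Field K] : LieRing (Sl2 K) :=
  (inferInstance : LieRing (LieAlgebra.SpecialLinear.sl (Fin 2) K))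

noncomputable instance (K : Type u) [Field K] : LieAlgebra K (Sl2 K) :=
  (inferInstance : LieAlgebra K (LieAlgebra.SpecialLinear.sl (Fin 2) K))

section

variable {K : Type u} [Field K]

/-- the trace form -/
def tf (x y : Sl2 K) : K := Matrix.trace (x.1 * y.1)

lemma tf_add_left (x x' y : Sl2 K) : tf (x + x') y = tf x y + tf x' y := by
  change Matrix.trace ((x.1 + x'.1) * y.1) = _
  rw [add_mul, Matrix.trace_add]; rfl

lemma tf_smul_left (r : K) (x y : Sl2 K) : tf (r • x) y = r * tf x y := by
  change Matrix.trace ((r • x.1) * y.1) = _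
  rw [Matrix.smul_mul, Matrix.trace_smul]; rfl

lemma tf_comm (x y : Sl2 K) : tf x y = tf y x := Matrix.trace_mul_comm _ _

lemma tf_add_right (x y y' : Sl2 K) : tf x (y + y') = tf x y + tf x y' := by
  rw [tf_comm, tf_add_left, tf_comm y, tf_comm y']

lemma tf_smul_right (r : K) (x y : Sl2 K) : tf x (r • y) = r * tf x y := by
  rw [tf_comm, tf_smul_left, tf_comm y]

lemma tf_zero_left (y : Sl2 K) : tf 0 y = 0 := by
  have := tf_smul_left 0 (0 : Sl2 K) y
  simpa using this

lemma tf_zero_right (y : Sl2 K) : tf y 0 = 0 := by rw [tf_comm, tf_zero_left]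

lemma tf_neg_left (x y : Sl2 K) : tf (-x) y = -tf x y := by
  have := tf_smul_left (-1) x y
  simpa using this

lemma tf_inv (x y z : Sl2 K) : tf ⁅x, y⁆ z = tf x ⁅y, z⁆ := by
  change Matrix.trace ((x.1 * y.1 - y.1 * x.1) * z.1) =
    Matrix.trace (x.1 * (y.1 * z.1 - z.1 * y.1))
  rw [sub_mul, mul_sub, Matrix.trace_sub, Matrix.trace_sub, mul_assoc,
    mul_assoc y.1, Matrix.trace_mul_comm y.1, mul_assoc x.1 z.1]

/-- the bracket of the loop algebra: `⁅t^m x, t^n y⁆ = t^(m+n) ⁅x, y⁆` -/
noncomputable def lb (X Y : ℤ →₀ Sl2 K) : ℤ →₀ Sl2 K :=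
  X.sum fun m x => Y.sum fun n y => Finsupp.single (m + n) ⁅x, y⁆

/-- the cocycle: `(t^m x, t^n y) ↦ m δ_(m+n,0) tr (x y)` -/
noncomputable def cc (X Y : ℤ →₀ Sl2 K) : K :=
  X.sum fun m x => Y.sum fun n y => if m + n = 0 then (m : K) * tf x y else 0

lemma lb_add_left (X X' Y : ℤ →₀ Sl2 K) : lb (X + X') Y = lb X Y + lb X' Y := by
  unfold lb
  rw [Finsupp.sum_add_index']
  · intro m; simp
  · intro m x x'
    rw [← Finsupp.sum_add]
    apply Finsupp.sum_congr
    intro n _
    rw [add_lie, Finsupp.single_add]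

lemma lb_add_right (X Y Y' : ℤ →₀ Sl2 K) : lb X (Y + Y') = lb X Y + lb X Y' := by
  unfold lb
  rw [← Finsupp.sum_add]
  apply Finsupp.sum_congr
  intro m _
  rw [Finsupp.sum_add_index']
  · intro n; simp
  · intro n y y'
    rw [lie_add, Finsupp.single_add]

lemma lb_zero_left (Y : ℤ →₀ Sl2 K) : lb 0 Y = 0 := by simp [lb]

lemma lb_zero_right (Y : ℤ →₀ Sl2 K) : lb Y 0 = 0 := by simp [lb]

lemma lb_smul_right (r : K) (X Y : ℤ →₀ Sl2 K) : lb X (r • Y) = r • lb X Y := by
  unfold lb
  rw [Finsupp.smul_sum]
  apply Finsupp.sum_congr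
  intro m _
  rw [Finsupp.sum_smul_index', Finsupp.smul_sum]
  · apply Finsupp.sum_congr
    intro n _
    rw [lie_smul, Finsupp.smul_single]
  · intro n; simp

lemma lb_single (m n : ℤ) (x y : Sl2 K) :
    lb (Finsupp.single m x) (Finsupp.single n y) = Finsupp.single (m + n) ⁅x, y⁆ := by
  unfold lb
  rw [Finsupp.sum_single_index, Finsupp.sum_single_index]
  · simp
  · simp

lemma cc_add_left (X X' Y : ℤ →₀ Sl2 K) : cc (X + X') Y = cc X Y + cc X' Y := by
  unfold cc
  rw [Finsupp.sum_add_index']
  · intro m; simp [tf_zero_left]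
  · intro m x x'
    rw [← Finsupp.sum_add]
    apply Finsupp.sum_congr
    intro n _
    split_ifs
    · rw [tf_add_left, mul_add]
    · simp

lemma cc_add_right (X Y Y' : ℤ →₀ Sl2 K) : cc X (Y + Y') = cc X Y + cc X Y' := by
  unfold cc
  rw [← Finsupp.sum_add]
  apply Finsupp.sum_congr
  intro m _
  rw [Finsupp.sum_add_index']
  · intro n; simp [tf_zero_right]
  · intro n y y'
    split_ifs
    · rw [tf_add_right, mul_add]
    · simp

lemma cc_zero_left (Y : ℤ →₀ Sl2 K) : cc 0 Y = 0 := by simp [cc]

lemma cc_zero_right (Y : ℤ →₀ Sl2 K) : cc Y 0 = 0 := by simp [cc]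

lemma cc_smul_right (r : K) (X Y : ℤ →₀ Sl2 K) : cc X (r • Y) = r * cc X Y := by
  unfold cc
  rw [← smul_eq_mul, Finsupp.smul_sum]
  apply Finsupp.sum_congr
  intro m _
  rw [Finsupp.sum_smul_index', Finsupp.smul_sum]
  · apply Finsupp.sum_congr
    intro n _
    rw [smul_eq_mul]
    split_ifs
    · rw [tf_smul_right]; ring
    · simp
  · intro n; simp [tf_zero_right]

lemma cc_single (m n : ℤ) (x y : Sl2 K) :
    cc (Finsupp.single m x) (Finsupp.single n y) = if m + n = 0 then (m : K) * tf x y else 0 := by
  unfold cc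
  rw [Finsupp.sum_single_index, Finsupp.sum_single_index]
  · simp [tf_zero_right]
  · simp [tf_zero_left]

lemma lb_comm (X Y : ℤ →₀ Sl2 K) : lb X Y = -lb Y X := by
  induction X using Finsupp.induction_linear with
  | zero => rw [lb_zero_left, lb_zero_right, neg_zero]
  | add X X' h h' => rw [lb_add_left, lb_add_right, h, h', neg_add]
  | single m x =>
    induction Y using Finsupp.induction_linear with
    | zero => rw [lb_zero_left, lb_zero_right, neg_zero]
    | add Y Y' h h' => rw [lb_add_left, lb_add_right, h, h', neg_add]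
    | single n y =>
      rw [lb_single, lb_single, ← lie_skew x y, Finsupp.single_neg, add_comm m n]

lemma lb_self (X : ℤ →₀ Sl2 K) : lb X X = 0 := by
  induction X using Finsupp.induction_linear with
  | zero => exact lb_zero_left _
  | add X X' h h' =>
    rw [lb_add_left, lb_add_right, lb_add_right, h, h', lb_comm X' X, zero_add, add_zero,
      add_neg_cancel]
  | single m x => rw [lb_single, lie_self, Finsupp.single_zero]

lemma cc_comm (X Y : ℤ →₀ Sl2 K) : cc X Y = -cc Y X := by
  induction X using Finsupp.induction_linear with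
  | zero => rw [cc_zero_left, cc_zero_right, neg_zero]
  | add X X' h h' => rw [cc_add_left, cc_add_right, h, h', neg_add]
  | single m x =>
    induction Y using Finsupp.induction_linear with
    | zero => rw [cc_zero_left, cc_zero_right, neg_zero]
    | add Y Y' h h' => rw [cc_add_left, cc_add_right, h, h', neg_add]
    | single n y =>
      rw [cc_single, cc_single, add_comm n m]
      split_ifs with h
      · have h1 : n = -m := by omega
        rw [h1, tf_comm y x]
        push_cast
        ring
      · simp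

lemma cc_self (X : ℤ →₀ Sl2 K) : cc X X = 0 := by
  induction X using Finsupp.induction_linear with
  | zero => exact cc_zero_left _
  | add X X' h h' =>
    rw [cc_add_left, cc_add_right, cc_add_right, h, h', cc_comm X' X, zero_add, add_zero,
      add_neg_cancel]
  | single m x =>
    rw [cc_single]
    split_ifs with h
    · have h1 : m = 0 := by omega
      rw [h1]; simp
    · rfl

lemma lb_jacobi (X Y Z : ℤ →₀ Sl2 K) : lb X (lb Y Z) = lb (lb X Y) Z + lb Y (lb X Z) := by
  induction X using Finsupp.induction_linear with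
  | zero => simp [lb_zero_left, lb_zero_right]
  | add X X' h h' => simp only [lb_add_left, lb_add_right, h, h']; abel
  | single m x =>
    induction Y using Finsupp.induction_linear with
    | zero => simp [lb_zero_left, lb_zero_right]
    | add Y Y' h h' => simp only [lb_add_left, lb_add_right, h, h']; abel
    | single n y =>
      induction Z using Finsupp.induction_linear with
      | zero => simp [lb_zero_right]
      | add Z Z' h h' => simp only [lb_add_right, h, h']; abel
      | single k z =>
        simp only [lb_single]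
        rw [leibniz_lie, Finsupp.single_add]
        congr 2
        · ring
        · ring

lemma cc_jacobi (X Y Z : ℤ →₀ Sl2 K) : cc X (lb Y Z) = cc (lb X Y) Z + cc Y (lb X Z) := by
  induction X using Finsupp.induction_linear with
  | zero => simp [lb_zero_left, cc_zero_left, cc_zero_right]
  | add X X' h h' => simp only [lb_add_left, cc_add_left, cc_add_right, h, h']; abel
  | single m x =>
    induction Y using Finsupp.induction_linear with
    | zero => simp [lb_zero_left, lb_zero_right, cc_zero_left, cc_zero_right]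
    | add Y Y' h h' => simp only [lb_add_left, lb_add_right, cc_add_left, cc_add_right, h, h']; abel
    | single n y =>
      induction Z using Finsupp.induction_linear with
      | zero => simp [lb_zero_right, cc_zero_right]
      | add Z Z' h h' => simp only [lb_add_right, cc_add_right, h, h']; abel
      | single k z =>
        simp only [lb_single, cc_single]
        have e1 : m + n + k = m + (n + k) := by ring
        have e2 : n + (m + k) = m + (n + k) := by ring
        rw [e1, e2]
        split_ifs with h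
        · have h1 : tf y ⁅x, z⁆ = -tf x ⁅y, z⁆ := by
            rw [← tf_inv, ← lie_skew, tf_neg_left, tf_inv]
          rw [h1, tf_inv]
          push_cast
          ring
        · simp

end

/-- the affine Lie algebra `sl_2 ⊗ K[t, t⁻¹] ⊕ K c`; an element is a pair of a loop and a
multiple of `c` -/
def Aff (K : Type u) [Field K] : Type u := (ℤ →₀ Sl2 K) × K

section

variable {K : Type u} [Field K]

noncomputable instance : AddCommGroup (Aff K) :=
  (inferInstance : AddCommGroup ((ℤ →₀ Sl2 K) × K))

noncomputable instance : Module K (Aff K) :=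
  (inferInstance : Module K ((ℤ →₀ Sl2 K) × K))

lemma Aff.ext' {x y : Aff K} (h1 : x.1 = y.1) (h2 : x.2 = y.2) : x = y := Prod.ext h1 h2

noncomputable instance : Bracket (Aff K) (Aff K) where
  bracket x y := (lb x.1 y.1, cc x.1 y.1)

lemma br_fst (x y : Aff K) : (⁅x, y⁆ : Aff K).1 = lb x.1 y.1 := rfl
lemma br_snd (x y : Aff K) : (⁅x, y⁆ : Aff K).2 = cc x.1 y.1 := rfl
lemma add_fst (x y : Aff K) : (x + y).1 = x.1 + y.1 := rfl
lemma add_snd (x y : Aff K) : (x + y).2 = x.2 + y.2 := rfl
lemma smul_fst (r : K) (y : Aff K) : (r • y).1 = r • y.1 := rfl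
lemma smul_snd (r : K) (y : Aff K) : (r • y).2 = r * y.2 := rfl

noncomputable instance : LieRing (Aff K) where
  add_lie x y z := Aff.ext' (lb_add_left _ _ _) (cc_add_left _ _ _)
  lie_add x y z := Aff.ext' (lb_add_right _ _ _) (cc_add_right _ _ _)
  lie_self x := Aff.ext' (lb_self _) (cc_self _)
  leibniz_lie x y z := Aff.ext' (lb_jacobi _ _ _) (cc_jacobi _ _ _)

noncomputable instance : LieAlgebra K (Aff K) where
  lie_smul r x y := Aff.ext' (lb_smul_right _ _ _) (cc_smul_right _ _ _)

/-- the element `x_n = t^n ⊗ x` -/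
noncomputable def el (x : Sl2 K) (n : ℤ) : Aff K := (Finsupp.single n x, 0)

/-- the central element `c` -/
noncomputable def cel : Aff K := (0, 1)

lemma br_el (x y : Sl2 K) (m n : ℤ) :
    ⁅el x m, el y n⁆ = el ⁅x, y⁆ (m + n) + (if m + n = 0 then (m : K) * tf x y else 0) • cel := by
  apply Aff.ext'
  · rw [br_fst, add_fst, smul_fst]
    change lb (Finsupp.single m x) (Finsupp.single n y) = Finsupp.single (m + n) ⁅x, y⁆ + _ • 0
    rw [lb_single, smul_zero, add_zero]
  · rw [br_snd, add_snd, smul_snd]
    change cc (Finsupp.single m x) (Finsupp.single n y) = 0 + _ * 1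
    rw [cc_single, mul_one, zero_add]

lemma br_cel (x : Aff K) : ⁅(cel : Aff K), x⁆ = 0 :=
  Aff.ext' (lb_zero_left x.1) (cc_zero_left x.1)

lemma br_cel' (x : Aff K) : ⁅x, (cel : Aff K)⁆ = 0 :=
  Aff.ext' (lb_zero_right x.1) (cc_zero_right x.1)

lemma el_add (x y : Sl2 K) (n : ℤ) : el (x + y) n = el x n + el y n :=
  Aff.ext' (Finsupp.single_add _ _ _) (by rw [add_snd]; exact (add_zero _).symm)

lemma el_smul (r : K) (x : Sl2 K) (n : ℤ) : el (r • x) n = r • el x n :=
  Aff.ext' (by rw [smul_fst]; exact (Finsupp.smul_single _ _ _).symm)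
    (by rw [smul_snd]; exact (mul_zero _).symm)

lemma el_zero (n : ℤ) : el (0 : Sl2 K) n = 0 :=
  Aff.ext' (Finsupp.single_zero _) rfl

lemma el_neg (x : Sl2 K) (n : ℤ) : el (-x) n = -el x n := by
  rw [eq_neg_iff_add_eq_zero, ← el_add, neg_add_cancel, el_zero]

/-- an element from its two components -/
def mkA (X : ℤ →₀ Sl2 K) (r : K) : Aff K := (X, r)

lemma mkA_eq (X : ℤ →₀ Sl2 K) (r : K) : mkA X r = mkA X 0 + r • cel := by
  apply Aff.ext'
  · rw [add_fst, smul_fst]
    change X = X + r • 0
    rw [smul_zero, add_zero]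
  · rw [add_snd, smul_snd]
    change r = 0 + r * 1
    rw [mul_one, zero_add]

lemma mkA_add (X Y : ℤ →₀ Sl2 K) : mkA (X + Y) 0 = mkA X 0 + mkA Y 0 :=
  Aff.ext' rfl (by rw [add_snd]; exact (add_zero _).symm)

/-- the elements `x_n` and `c` span -/
lemma Aff.ind {P : Aff K → Prop} (h0 : P 0) (ha : ∀ x y, P x → P y → P (x + y))
    (he : ∀ x n, P (el x n)) (hc : ∀ r : K, P (r • cel)) (z : Aff K) : P z := by
  have h1 : ∀ X : ℤ →₀ Sl2 K, P (mkA X 0) := by
    intro X
    induction X using Finsupp.induction_linear with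
    | zero => exact h0
    | add X Y hX hY => rw [mkA_add]; exact ha _ _ hX hY
    | single n x => exact he x n
  have h2 : z = mkA z.1 z.2 := rfl
  rw [h2, mkA_eq]
  exact ha _ _ (h1 _) (hc _)

end

/-- the enveloping algebra of the affine Lie algebra -/
abbrev UAff (K : Type u) [Field K] : Type u := UniversalEnvelopingAlgebra K (Aff K)

/-- the canonical map -/
noncomputable abbrev iA {K : Type u} [Field K] (z : Aff K) : UAff K :=
  UniversalEnvelopingAlgebra.ι K z

/-- the left ideal generated by the `x_n`, `n ≥ 0`, and `c - κ` -/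
noncomputable def Jv (K : Type u) [Field K] (κ : K) : Submodule (UAff K) (UAff K) :=
  Submodule.span (UAff K)
    ({u | ∃ (x : Sl2 K) (n : ℤ), 0 ≤ n ∧ u = iA (el x n)} ∪ {iA cel - algebraMap K (UAff K) κ})

/-- the universal affine vertex algebra `V^κ(sl_2)`, as a module -/
abbrev Vk (K : Type u) [Field K] (κ : K) : Type u := UAff K ⧸ Jv K κ

/-- the vacuum vector -/
noncomputable def vac {K : Type u} [Field K] (κ : K) : Vk K κ := Submodule.Quotient.mk 1

/-- the algebra `Z₀'` generated by the elements `(x_n)^p - (x^[p])_(np)` -/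
noncomputable def Z0 (K : Type u) [Field K] (p : ℕ) : Subalgebra K (UAff K) :=
  Algebra.adjoin K {u | ∃ (x y : Sl2 K) (n : ℤ), y.1 = x.1 ^ p ∧
    u = iA (el x n) ^ p - iA (el y (n * p))}

/-- the `p`-centre of `V^κ(sl_2)` -/
def pCentre (K : Type u) [Field K] (p : ℕ) (κ : K) : Set (Vk K κ) :=
  {v | ∃ z ∈ Z0 K p, v = z • vac κ}

/-- the left-hand side of the Borcherds identity for the products `P n a b = a_(n) b` -/
noncomputable def borL {V : Type u} [AddCommGroup V] (P : ℤ → V → V → V) (a b c : V)
    (l m n : ℤ) : V :=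
  ∑ᶠ i : ℕ, (Ring.choose m i) • P (m + n - i) (P (l + i) a b) c

/-- the right-hand side of the Borcherds identity -/
noncomputable def borR {V : Type u} [AddCommGroup V] (P : ℤ → V → V → V) (a b c : V)
    (l m n : ℤ) : V :=
  ∑ᶠ i : ℕ, ((-1) ^ i * Ring.choose l i) •
    (P (m + l - i) a (P (n + i) b c) - (Int.negOnePow l : ℤ) • P (n + l - i) b (P (m + i) a c))

/-- vertex algebras over a field, with all products `a_(n) b` and the Borcherds identity -/
structure VertexAlgebra (K : Type u) [Field K] (V : Type u) [AddCommGroup V] [Module K V] where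
  /-- the vacuum -/
  one : V
  /-- the products `a_(n) b` -/
  prod : ℤ → V → V → V
  add_prod : ∀ n a a' b, prod n (a + a') b = prod n a b + prod n a' b
  prod_add : ∀ n a b b', prod n a (b + b') = prod n a b + prod n a b'
  smul_prod : ∀ n (r : K) a b, prod n (r • a) b = r • prod n a b
  prod_smul : ∀ n (r : K) a b, prod n a (r • b) = r • prod n a b
  truncation : ∀ a b, ∃ N : ℤ, ∀ n, N ≤ n → prod n a b = 0
  one_prod : ∀ n b, prod n one b = if n = -1 then b else 0
  prod_one : ∀ n a, 0 ≤ n → prod n a one = 0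
  prod_neg_one : ∀ a, prod (-1) a one = a
  borcherds : ∀ a b c l m n, borL prod a b c l m n = borR prod a b c l m n

/-- the centre of a vertex algebra -/
def VertexAlgebra.centre {K : Type u} [Field K] {V : Type u} [AddCommGroup V] [Module K V]
    (A : VertexAlgebra K V) : Set V :=
  {v | ∀ (a : V) (n : ℤ), 0 ≤ n → A.prod n a v = 0}

end Pool.Agent.Q19.Va
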