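import Pool.Agent.Q19.VaA

set_option autoImplicit false
set_option linter.unusedVariables false

/-! The universal property of the vacuum module. -/

attribute [local instance 100] LieRing.ofAssociativeRing

namespace Pool.Agent.Q19.Va

universe u

variable {K : Type u} [Field K] {κ : K}

/-- induction on the enveloping algebra -/
lemma UAff.ind {L : Type u} [LieRing L] [LieAlgebra K L]
    {P : UniversalEnvelopingAlgebra K L → Prop} (h1 : P 1)
    (ha : ∀ u v, P u → P v → P (u + v)) (hs : ∀ (r : K) u, P u → P (r • u))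
    (hz : ∀ (z : L) u, P u → P (UniversalEnvelopingAlgebra.ι K z * u))
    (u : UniversalEnvelopingAlgebra K L) : P u := by
  -- the subspace of good elements as a left ideal
  let S : Subalgebra K (UniversalEnvelopingAlgebra K L) :=
    { carrier := {w | ∀ u, P u → P (w * u)}
      mul_mem' := by
        intro a b ha' hb' u hu
        rw [mul_assoc]
        exact ha' _ (hb' _ hu)
      add_mem' := by
        intro a b ha' hb' u hu
        rw [add_mul]
        exact ha _ _ (ha' _ hu) (hb' _ hu)
      algebraMap_mem' := by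
        intro r u hu
        rw [← Algebra.smul_def]
        exact hs r u hu }
  let f : L →ₗ⁅K⁆ S :=
    { toFun := fun z => ⟨UniversalEnvelopingAlgebra.ι K z, fun u hu => hz z u hu⟩
      map_add' := fun x y => Subtype.ext (map_add _ _ _)
      map_smul' := fun r x => Subtype.ext (map_smul _ _ _)
      map_lie' := by
        intro x y
        apply Subtype.ext
        exact LieHom.map_lie _ _ _ }
  have h2 : S.val.comp (UniversalEnvelopingAlgebra.lift K f) =
      AlgHom.id K (UniversalEnvelopingAlgebra K L) := by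
    apply UniversalEnvelopingAlgebra.hom_ext
    apply LieHom.ext
    intro z
    change (UniversalEnvelopingAlgebra.lift K f (UniversalEnvelopingAlgebra.ι K z)).1 =
      UniversalEnvelopingAlgebra.ι K z
    rw [UniversalEnvelopingAlgebra.lift_ι_apply]
    rfl
  have h3 : u ∈ S := by
    have h4 := DFunLike.congr_fun h2 u
    change (UniversalEnvelopingAlgebra.lift K f u).1 = u at h4
    rw [← h4]
    exact (UniversalEnvelopingAlgebra.lift K f u).2
  have h5 := h3 1 h1
  rwa [mul_one] at h5

/-- induction on the vacuum module -/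
lemma Vk.ind {P : Vk K κ → Prop} (h1 : P (vac κ)) (ha : ∀ u v, P u → P v → P (u + v))
    (hs : ∀ (r : K) u, P u → P (r • u)) (hz : ∀ (z : Aff K) u, P u → P (iA z • u))
    (v : Vk K κ) : P v := by
  obtain ⟨w, rfl⟩ := Submodule.Quotient.mk_surjective _ v
  have h2 : ∀ w : UAff K, P (w • vac κ) := by
    intro w
    induction w using UAff.ind with
    | h1 => rw [one_smul]; exact h1
    | ha u v hu hv => rw [add_smul]; exact ha _ _ hu hv
    | hs r u hu => rw [smul_assoc]; exact hs r _ hu
    | hz z u hu => rw [mul_smul]; exact hz z _ hu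
  have h3 := h2 w
  rw [vac, ← Submodule.Quotient.mk_smul, smul_eq_mul, mul_one] at h3
  exact h3

/-- the action of `x_n` on `V` -/
noncomputable def act (κ : K) (x : Sl2 K) (n : ℤ) : Module.End K (Vk K κ) :=
  Module.toModuleEnd K (S := UAff K) (Vk K κ) (iA (el x n))

lemma act_apply (x : Sl2 K) (n : ℤ) (v : Vk K κ) : act κ x n v = iA (el x n) • v := rfl

lemma gen_smul_vac {x : Sl2 K} {n : ℤ} (hn : 0 ≤ n) : iA (el x n) • vac κ = 0 := by
  rw [vac, ← Submodule.Quotient.mk_smul, smul_eq_mul, mul_one, Submodule.Quotient.mk_eq_zero]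
  exact Submodule.subset_span (Or.inl ⟨x, n, hn, rfl⟩)

lemma act_vac {x : Sl2 K} {n : ℤ} (hn : 0 ≤ n) : act κ x n (vac κ) = 0 := gen_smul_vac hn

lemma cel_comm (u : UAff K) : iA cel * u = u * iA cel := by
  induction u using UAff.ind with
  | h1 => rw [one_mul, mul_one]
  | ha u v hu hv => rw [mul_add, add_mul, hu, hv]
  | hs r u hu => rw [mul_smul_comm, smul_mul_assoc, hu]
  | hz z u hu =>
    have h1 : iA cel * iA z = iA z * iA cel := by
      have h2 : ⁅(iA (cel : Aff K) : UAff K), (iA z : UAff K)⁆ = 0 := by
        rw [← LieHom.map_lie, br_cel, map_zero]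
      rw [LieRing.of_associative_ring_bracket, sub_eq_zero] at h2
      exact h2
    rw [← mul_assoc, h1, mul_assoc, hu, mul_assoc]

/-- `c` acts by `κ` -/
lemma cel_smul (v : Vk K κ) : (iA cel : UAff K) • v = κ • v := by
  obtain ⟨w, rfl⟩ := Submodule.Quotient.mk_surjective _ v
  rw [← Submodule.Quotient.mk_smul, ← Submodule.Quotient.mk_smul, Submodule.Quotient.eq,
    smul_eq_mul, cel_comm]
  have h1 : w * iA cel - κ • w = w • (iA cel - algebraMap K (UAff K) κ) := by
    rw [smul_eq_mul, mul_sub, ← Algebra.commutes, ← Algebra.smul_def]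
  rw [h1]
  exact Submodule.smul_mem _ _ (Submodule.subset_span (Or.inr rfl))

/-- commutation of the operators -/
lemma act_comm (x y : Sl2 K) (m n : ℤ) (v : Vk K κ) : act κ x m (act κ y n v) =
    act κ y n (act κ x m v) + act κ ⁅x, y⁆ (m + n) v +
      ((if m + n = 0 then (m : K) * tf x y else 0) * κ) • v := by
  have h1 : (iA (el x m) : UAff K) * iA (el y n) = iA (el y n) * iA (el x m) +
      iA (el ⁅x, y⁆ (m + n)) + (if m + n = 0 then (m : K) * tf x y else 0) • iA cel := by
    have h2 : ⁅(iA (el x m) : UAff K), (iA (el y n) : UAff K)⁆ =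
        iA (el ⁅x, y⁆ (m + n)) + (if m + n = 0 then (m : K) * tf x y else 0) • iA cel := by
      rw [← LieHom.map_lie, br_el, map_add, map_smul]
    rw [LieRing.of_associative_ring_bracket] at h2
    rw [add_assoc, ← h2]
    abel
  rw [act_apply, act_apply, ← mul_smul, h1, add_smul, add_smul, smul_assoc, cel_smul,
    smul_smul, mul_smul]
  rfl

/-- the universal property -/
lemma Vk.lift {M : Type u} [AddCommGroup M] [Module K M]
    (φ : Aff K →ₗ⁅K⁆ Module.End K M) (m : M)
    (h0 : ∀ (x : Sl2 K) (n : ℤ), 0 ≤ n → φ (el x n) m = 0) (hc : φ cel m = κ • m) :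
    ∃ Φ : Vk K κ →ₗ[K] M, Φ (vac κ) = m ∧ ∀ (z : Aff K) (v : Vk K κ), Φ (iA z • v) = φ z (Φ v) := by
  let F := UniversalEnvelopingAlgebra.lift K φ
  let G : UAff K →ₗ[K] M := (LinearMap.applyₗ m) ∘ₗ F.toLinearMap
  have hG : ∀ u, G u = F u m := fun u => rfl
  have hJ : ∀ u ∈ Jv K κ, G u = 0 := by
    intro u hu
    unfold Jv at hu
    induction hu using Submodule.span_induction with
    | mem x hx =>
      rcases hx with ⟨x, n, hn, rfl⟩ | hx
      · rw [hG]
        have : F (iA (el x n)) = φ (el x n) := UniversalEnvelopingAlgebra.lift_ι_apply K φ _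
        rw [this]; exact h0 x n hn
      · rw [Set.mem_singleton_iff] at hx
        rw [hx, hG, map_sub]
        have : F (iA cel) = φ cel := UniversalEnvelopingAlgebra.lift_ι_apply K φ _
        rw [this, AlgHom.commutes]
        change φ cel m - (algebraMap K (Module.End K M) κ) m = 0
        rw [hc, Module.algebraMap_end_apply, sub_self]
    | zero => exact map_zero _
    | add x y _ _ hx hy => rw [map_add, hx, hy, add_zero]
    | smul a x _ hx =>
      rw [hG, smul_eq_mul, map_mul]
      change F a (F x m) = 0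
      rw [← hG, hx, map_zero]
  let Φ : Vk K κ →ₗ[K] M :=
    { toFun := Quotient.lift (fun u => G u) (by
        intro a b hab
        have h1 : a - b ∈ Jv K κ := (Submodule.quotientRel_def _).1 hab
        have h2 := hJ _ h1
        rw [map_sub, sub_eq_zero] at h2
        exact h2)
      map_add' := by
        intro a b
        obtain ⟨a, rfl⟩ := Submodule.Quotient.mk_surjective _ a
        obtain ⟨b, rfl⟩ := Submodule.Quotient.mk_surjective _ b
        exact map_add G a b
      map_smul' := by
        intro r a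
        obtain ⟨a, rfl⟩ := Submodule.Quotient.mk_surjective _ a
        exact map_smul G r a }
  have hΦ : ∀ u : UAff K, Φ (Submodule.Quotient.mk u) = G u := fun u => rfl
  refine ⟨Φ, ?_, ?_⟩
  · change G 1 = m
    rw [hG, map_one]; rfl
  · intro z v
    obtain ⟨w, rfl⟩ := Submodule.Quotient.mk_surjective _ v
    rw [← Submodule.Quotient.mk_smul, hΦ, hΦ, hG, hG, smul_eq_mul, map_mul]
    have : F (iA z) = φ z := UniversalEnvelopingAlgebra.lift_ι_apply K φ _
    rw [this]; rfl

end Pool.Agent.Q19.Va
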