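import Pool.Agent.Q19.VaB

set_option autoImplicit false
set_option linter.unusedVariables false

/-! Operators on the vacuum module defined by derivations of the affine Lie algebra. -/

attribute [local instance 100] LieRing.ofAssociativeRing

namespace Pool.Agent.Q19.Va

universe u

variable {K : Type u} [Field K] {κ : K}

/-- the action as a homomorphism of Lie algebras -/
noncomputable def actL (κ : K) : Aff K →ₗ⁅K⁆ Module.End K (Vk K κ) :=
  (Algebra.lsmul K K (Vk K κ) : UAff K →ₐ[K] Module.End K (Vk K κ)).toLieHom.comp
    (UniversalEnvelopingAlgebra.ι K)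

lemma actL_apply (z : Aff K) (v : Vk K κ) : actL κ z v = iA z • v := rfl

lemma actL_el (x : Sl2 K) (n : ℤ) : actL κ (el x n) = act κ x n := rfl

lemma actL_cel (v : Vk K κ) : actL κ cel v = κ • v := cel_smul v

lemma actL_lie (y z : Aff K) (v : Vk K κ) :
    actL κ ⁅y, z⁆ v = actL κ y (actL κ z v) - actL κ z (actL κ y v) := by
  rw [LieHom.map_lie, LieRing.of_associative_ring_bracket]
  rfl

/-- the extension of a derivation to the vacuum module -/
lemma exists_op (d : Aff K →ₗ[K] Aff K) (hd : ∀ y z, d ⁅y, z⁆ = ⁅d y, z⁆ + ⁅y, d z⁆)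
    (hdc : d cel = 0) (ω : Vk K κ)
    (h : ∀ (x : Sl2 K) (n : ℤ), 0 ≤ n → act κ x n ω + actL κ (d (el x n)) (vac κ) = 0) :
    ∃ D : Module.End K (Vk K κ), D (vac κ) = ω ∧
      ∀ (z : Aff K) (v : Vk K κ), D (actL κ z v) = actL κ z (D v) + actL κ (d z) v := by
  let φ : Aff K →ₗ⁅K⁆ Module.End K (Vk K κ × Vk K κ) :=
    { toFun := fun z => (actL κ z ∘ₗ LinearMap.fst K _ _).prod
        (actL κ z ∘ₗ LinearMap.snd K _ _ + actL κ (d z) ∘ₗ LinearMap.fst K _ _)
      map_add' := by
        intro y z
        apply LinearMap.ext
        rintro ⟨u, w⟩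
        apply Prod.ext
        · simp
        · simp only [map_add, LinearMap.prod_apply, Function.prod_apply, LinearMap.add_apply,
            LinearMap.comp_apply, LinearMap.snd_apply, LinearMap.fst_apply, Prod.snd_add]
          abel
      map_smul' := by
        intro r z
        apply LinearMap.ext
        rintro ⟨u, w⟩
        apply Prod.ext
        · simp
        · simp
      map_lie' := by
        intro y z
        apply LinearMap.ext
        rintro ⟨u, w⟩
        rw [LieRing.of_associative_ring_bracket]
        apply Prod.ext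
        · simp only [LinearMap.prod_apply, Function.prod_apply, LinearMap.add_apply,
            LinearMap.comp_apply, LinearMap.snd_apply, LinearMap.fst_apply, LinearMap.sub_apply,
            Module.End.mul_apply, Prod.fst_sub]
          exact actL_lie y z u
        · simp only [LinearMap.prod_apply, Function.prod_apply, LinearMap.add_apply,
            LinearMap.comp_apply, LinearMap.snd_apply, LinearMap.fst_apply, LinearMap.sub_apply,
            Module.End.mul_apply, Prod.snd_sub]
          rw [hd, map_add, LinearMap.add_apply, actL_lie, actL_lie, actL_lie, map_add, map_add]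
          abel }
  obtain ⟨Φ, h1, h2⟩ := Vk.lift (κ := κ) φ (vac κ, ω) (by
    intro x n hn
    apply Prod.ext
    · exact act_vac hn
    · exact h x n hn) (by
    apply Prod.ext
    · exact cel_smul (vac κ)
    · change actL κ (cel : Aff K) ω + actL κ (d (cel : Aff K)) (vac κ) = κ • ω
      rw [hdc, actL_cel, map_zero, LinearMap.zero_apply, add_zero])
  have h3 : ∀ v, (Φ v).1 = v := by
    intro v
    induction v using Vk.ind with
    | h1 => rw [h1]
    | ha u v hu hv => rw [map_add, Prod.fst_add, hu, hv]
    | hs r u hu => rw [map_smul, Prod.smul_fst, hu]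
    | hz z u hu =>
      rw [h2]
      change actL κ z (Φ u).1 = iA z • u
      rw [hu]; rfl
  refine ⟨LinearMap.snd K _ _ ∘ₗ Φ, ?_, ?_⟩
  · change (Φ (vac κ)).2 = ω
    rw [h1]
  · intro z v
    change (Φ (iA z • v)).2 = _
    rw [h2]
    change actL κ z (Φ v).2 + actL κ (d z) (Φ v).1 = _
    rw [h3]; rfl

/-- a diagonal shift on loops -/
noncomputable def shift (c : ℤ → K) (s : ℤ) : Aff K →ₗ[K] Aff K where
  toFun z := mkA (z.1.sum fun n x => Finsupp.single (n + s) (c n • x)) 0
  map_add' y z := by
    rw [← mkA_add]
    congr 1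
    rw [add_fst, Finsupp.sum_add_index']
    · intro n; simp
    · intro n x x'; rw [smul_add, Finsupp.single_add]
  map_smul' r z := by
    apply Aff.ext'
    · rw [smul_fst]
      change ((r • z).1.sum fun n x => Finsupp.single (n + s) (c n • x)) =
        r • (z.1.sum fun n x => Finsupp.single (n + s) (c n • x))
      rw [smul_fst, Finsupp.sum_smul_index', Finsupp.smul_sum]
      · apply Finsupp.sum_congr
        intro n _
        rw [Finsupp.smul_single, smul_comm]
      · intro n; simp
    · rw [smul_snd]
      exact (mul_zero _).symm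

lemma shift_el (c : ℤ → K) (s : ℤ) (x : Sl2 K) (n : ℤ) :
    shift c s (el x n) = c n • el x (n + s) := by
  apply Aff.ext'
  · rw [smul_fst]
    change ((Finsupp.single n x).sum fun n x => Finsupp.single (n + s) (c n • x)) =
      c n • Finsupp.single (n + s) x
    rw [Finsupp.sum_single_index, Finsupp.smul_single]
    simp
  · rw [smul_snd]
    exact (mul_zero _).symm

lemma shift_cel (c : ℤ → K) (s : ℤ) : shift c s cel = 0 := by
  apply Aff.ext'
  · change ((0 : ℤ →₀ Sl2 K).sum fun n x => Finsupp.single (n + s) (c n • x)) = 0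
    rw [Finsupp.sum_zero_index]
  · rfl

lemma shift_der (c : ℤ → K) (s : ℤ) (h1 : ∀ m n, c (m + n) = c m + c n)
    (h2 : ∀ m n : ℤ, m + n + s = 0 → c m * ((m : K) + s) + c n * m = 0) (y z : Aff K) :
    shift c s ⁅y, z⁆ = ⁅shift c s y, z⁆ + ⁅y, shift c s z⁆ := by
  induction y using Aff.ind with
  | h0 => simp
  | ha y y' hy hy' => rw [add_lie, map_add, hy, hy', map_add, add_lie, add_lie]; abel
  | hc r => rw [smul_lie, br_cel, smul_zero, map_zero, map_smul, shift_cel, smul_zero, zero_lie,
      smul_lie, br_cel, smul_zero, add_zero]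
  | he x m =>
    induction z using Aff.ind with
    | h0 => simp
    | ha z z' hz hz' => rw [lie_add, map_add, hz, hz', map_add, lie_add, lie_add]; abel
    | hc r => rw [lie_smul, br_cel', smul_zero, map_zero, map_smul, shift_cel, smul_zero, lie_zero,
        lie_smul, br_cel', smul_zero, add_zero]
    | he y n =>
      rw [br_el, map_add, map_smul, shift_cel, smul_zero, add_zero, shift_el, shift_el, shift_el,
        smul_lie, lie_smul, br_el, br_el, h1, smul_add, smul_add]
      have e1 : m + s + n = m + n + s := by ring
      have e2 : m + (n + s) = m + n + s := by ring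
      rw [e1, e2, add_smul]
      have e3 : (c m • (if m + n + s = 0 then ((m + s : ℤ) : K) * tf x y else 0) • (cel : Aff K)) +
          c n • (if m + n + s = 0 then (m : K) * tf x y else 0) • (cel : Aff K) = 0 := by
        split_ifs with h
        · rw [smul_smul, smul_smul, ← add_smul]
          have h3 := h2 m n h
          have h4 : c m * (((m + s : ℤ) : K) * tf x y) + c n * ((m : K) * tf x y) = 0 := by
            push_cast
            linear_combination tf x y * h3
          rw [h4, zero_smul]
        · simp
      rw [add_add_add_comm, e3, add_zero]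

/-- the words with negative exponents span the vacuum module -/
lemma Vk.negInd {P : Vk K κ → Prop} (h1 : P (vac κ)) (ha : ∀ u v, P u → P v → P (u + v))
    (hs : ∀ (r : K) u, P u → P (r • u)) (hz : ∀ (x : Sl2 K) (n : ℤ) u, n < 0 → P u → P (act κ x n u))
    (v : Vk K κ) : P v := by
  let S : Submodule K (Vk K κ) := sInf {S | vac κ ∈ S ∧ ∀ (x : Sl2 K) (n : ℤ), n < 0 →
    ∀ u ∈ S, act κ x n u ∈ S}
  have hS1 : vac κ ∈ S := by
    rw [Submodule.mem_sInf]
    exact fun T hT => hT.1
  have hS2 : ∀ (x : Sl2 K) (n : ℤ), n < 0 → ∀ u ∈ S, act κ x n u ∈ S := by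
    intro x n hn u hu
    rw [Submodule.mem_sInf] at hu ⊢
    exact fun T hT => hT.2 x n hn u (hu T hT)
  have hS3 : ∀ u ∈ S, ∀ (x : Sl2 K) (n : ℤ), act κ x n u ∈ S := by
    intro u hu
    let T : Submodule K (Vk K κ) :=
      { carrier := {u | u ∈ S ∧ ∀ (x : Sl2 K) (n : ℤ), act κ x n u ∈ S}
        add_mem' := by
          intro a b ha' hb'
          refine ⟨S.add_mem ha'.1 hb'.1, fun x n => ?_⟩
          rw [map_add]; exact S.add_mem (ha'.2 x n) (hb'.2 x n)
        zero_mem' := by
          refine ⟨S.zero_mem, fun x n => ?_⟩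
          rw [map_zero]; exact S.zero_mem
        smul_mem' := by
          intro r a ha'
          refine ⟨S.smul_mem r ha'.1, fun x n => ?_⟩
          rw [map_smul]; exact S.smul_mem r (ha'.2 x n) }
    have hT : u ∈ T := by
      have h2 : S ≤ T := by
        apply sInf_le
        constructor
        · refine ⟨hS1, fun x n => ?_⟩
          rcases lt_or_ge n 0 with hn | hn
          · exact hS2 x n hn _ hS1
          · rw [act_vac hn]; exact S.zero_mem
        · rintro x n hn u ⟨hu1, hu2⟩
          refine ⟨hu2 x n, fun y m => ?_⟩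
          rw [act_comm]
          exact S.add_mem (S.add_mem (hS2 x n hn _ (hu2 y m)) (hu2 _ _)) (S.smul_mem _ hu1)
      exact h2 hu
    exact hT.2
  have h2 : ∀ v, v ∈ S := by
    intro v
    induction v using Vk.ind with
    | h1 => exact hS1
    | ha u v hu hv => exact S.add_mem hu hv
    | hs r u hu => exact S.smul_mem r hu
    | hz z u hu =>
      change actL κ z u ∈ S
      induction z using Aff.ind with
      | h0 => rw [map_zero]; exact S.zero_mem
      | ha y z hy hz => rw [map_add]; exact S.add_mem hy hz
      | he x n => exact hS3 u hu x n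
      | hc r =>
        rw [map_smul, LinearMap.smul_apply, actL_cel]
        exact S.smul_mem r (S.smul_mem κ hu)
  let T : Submodule K (Vk K κ) :=
    { carrier := {u | P u}
      add_mem' := fun {a b} ha' hb' => ha a b ha' hb'
      zero_mem' := by
        have := hs 0 _ h1
        rw [zero_smul] at this
        exact this
      smul_mem' := fun r a ha' => hs r a ha' }
  have h3 : S ≤ T := sInf_le ⟨h1, fun x n hn u hu => hz x n u hn hu⟩
  exact h3 (h2 v)

end Pool.Agent.Q19.Va
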