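import Pool.Agent.Q19.VaC

set_option autoImplicit false
set_option linter.unusedVariables false

/-! The enveloping algebra of a subalgebra with a complementary subalgebra as a module. -/

attribute [local instance 100] LieRing.ofAssociativeRing

namespace Pool.Agent.Q19.Va

universe u

section general

variable {K : Type u} [Field K] {L : Type u} [LieRing L] [LieAlgebra K L]

/-- the enveloping algebra of a subalgebra -/
abbrev US (A : LieSubalgebra K L) : Type u := UniversalEnvelopingAlgebra K A

/-- the map `A → U(A)` -/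
noncomputable abbrev iS (A : LieSubalgebra K L) (a : A) : US A :=
  UniversalEnvelopingAlgebra.ι K a

lemma iS_lie (A : LieSubalgebra K L) (a b : A) :
    iS A ⁅a, b⁆ = iS A a * iS A b - iS A b * iS A a := by
  rw [← LieRing.of_associative_ring_bracket, ← LieHom.map_lie]

/-- the action of `A` on linear maps -/
noncomputable def thIn (A : LieSubalgebra K L) (a : A) (φ : L →ₗ[K] US A) : L →ₗ[K] US A where
  toFun z := iS A a * φ z - φ ⁅(a : L), z⁆
  map_add' x y := by simp only [map_add, lie_add, mul_add]; abel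
  map_smul' r x := by simp only [map_smul, lie_smul, mul_smul_comm, smul_sub, RingHom.id_apply]

lemma thIn_apply (A : LieSubalgebra K L) (a : A) (φ : L →ₗ[K] US A) (z : L) :
    thIn A a φ z = iS A a * φ z - φ ⁅(a : L), z⁆ := rfl

/-- the same as a homomorphism of Lie algebras -/
noncomputable def th (A : LieSubalgebra K L) : A →ₗ⁅K⁆ Module.End K (L →ₗ[K] US A) where
  toFun a :=
    { toFun := thIn A a
      map_add' := by
        intro φ ψ
        apply LinearMap.ext
        intro z
        simp only [thIn_apply, LinearMap.add_apply, mul_add]; abel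
      map_smul' := by
        intro r φ
        apply LinearMap.ext
        intro z
        simp only [thIn_apply, LinearMap.smul_apply, mul_smul_comm, smul_sub, RingHom.id_apply] }
  map_add' a b := by
    apply LinearMap.ext
    intro φ
    apply LinearMap.ext
    intro z
    change thIn A (a + b) φ z = thIn A a φ z + thIn A b φ z
    have h1 : ((a + b : A) : L) = (a : L) + b := rfl
    rw [thIn_apply, thIn_apply, thIn_apply, iS, map_add, h1, add_lie, map_add, add_mul]
    abel
  map_smul' r a := by
    apply LinearMap.ext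
    intro φ
    apply LinearMap.ext
    intro z
    change thIn A (r • a) φ z = r • thIn A a φ z
    have h1 : ((r • a : A) : L) = r • (a : L) := rfl
    rw [thIn_apply, thIn_apply, iS, map_smul, h1, smul_lie, map_smul, smul_mul_assoc, smul_sub]
  map_lie' := by
    intro a b
    rw [LieRing.of_associative_ring_bracket]
    apply LinearMap.ext
    intro φ
    apply LinearMap.ext
    intro z
    change thIn A ⁅a, b⁆ φ z = thIn A a (thIn A b φ) z - thIn A b (thIn A a φ) z
    have h1 : ((⁅a, b⁆ : A) : L) = ⁅(a : L), (b : L)⁆ := rfl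
    simp only [thIn_apply]
    rw [iS_lie, h1, lie_lie, map_sub]
    noncomm_ring

lemma th_apply (A : LieSubalgebra K L) (a : A) (φ : L →ₗ[K] US A) (z : L) :
    th A a φ z = iS A a * φ z - φ ⁅(a : L), z⁆ := rfl

/-- `L` acts on `U(A)` if `A` has a complementary subalgebra with a character -/
lemma exists_induced (A : LieSubalgebra K L) (π : L →ₗ[K] A) (hπ : ∀ a : A, π a = a)
    (χ : L →ₗ[K] K) (hχ : ∀ a : A, χ a = 0)
    (hB : ∀ y z : L, π y = 0 → π z = 0 → π ⁅y, z⁆ = 0 ∧ χ ⁅y, z⁆ = 0) :
    ∃ Λ : L →ₗ⁅K⁆ Module.End K (UniversalEnvelopingAlgebra K A),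
      (∀ (a : A) u, Λ a u = iS A a * u) ∧ ∀ z : L, Λ z 1 = iS A (π z) + χ z • 1 := by
  let F := UniversalEnvelopingAlgebra.lift K (th A)
  let φ₀ : L →ₗ[K] US A := (UniversalEnvelopingAlgebra.ι K : A →ₗ⁅K⁆ US A).toLinearMap ∘ₗ π +
    LinearMap.toSpanSingleton K (US A) 1 ∘ₗ χ
  have hφ₀ : ∀ z, φ₀ z = iS A (π z) + χ z • 1 := fun z => rfl
  let g : L → US A → US A := fun z u => F u φ₀ z
  have g1 : ∀ z, g z 1 = iS A (π z) + χ z • 1 := by
    intro z
    change F 1 φ₀ z = _
    rw [map_one]
    exact hφ₀ z
  have gmul : ∀ (z : L) (a : A) (u : US A), g z (iS A a * u) = iS A a * g z u + g ⁅z, (a : L)⁆ u := by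
    intro z a u
    change F (iS A a * u) φ₀ z = iS A a * F u φ₀ z + F u φ₀ ⁅z, (a : L)⁆
    rw [map_mul]
    have h1 : F (iS A a) = th A a := UniversalEnvelopingAlgebra.lift_ι_apply K (th A) a
    rw [h1]
    change th A a (F u φ₀) z = _
    rw [th_apply, ← lie_skew, map_neg]
    abel
  have gaddu : ∀ (z : L) (u v : US A), g z (u + v) = g z u + g z v := by
    intro z u v
    change F (u + v) φ₀ z = _
    rw [show F (u + v) = F u + F v from map_add F u v]; rfl
  have gsmulu : ∀ (z : L) (r : K) (u : US A), g z (r • u) = r • g z u := by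
    intro z r u
    change F (r • u) φ₀ z = _
    rw [map_smul]; rfl
  have gaddz : ∀ (y z : L) (u : US A), g (y + z) u = g y u + g z u := fun y z u => map_add _ _ _
  have gsubz : ∀ (y z : L) (u : US A), g (y - z) u = g y u - g z u := fun y z u => map_sub _ _ _
  have gsmulz : ∀ (r : K) (z : L) (u : US A), g (r • z) u = r • g z u := fun r z u => map_smul _ _ _
  have gsubu : ∀ (z : L) (u v : US A), g z (u - v) = g z u - g z v := by
    intro z u v
    change F (u - v) φ₀ z = _
    rw [map_sub]; rfl
  -- elements of `A` act by left multiplication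
  have gA : ∀ (a : A) (u : US A), g a u = iS A a * u := by
    intro a u
    induction u using UAff.ind generalizing a with
    | h1 => rw [g1, hπ, hχ, zero_smul, add_zero, mul_one]
    | ha u v hu hv => rw [gaddu, hu, hv, mul_add]
    | hs r u hu => rw [gsmulu, hu, mul_smul_comm]
    | hz b u hu =>
      have h1 := gmul (a : L) b u
      have h2 : (⁅(a : L), (b : L)⁆ : L) = ((⁅a, b⁆ : A) : L) := rfl
      rw [h2, hu, hu] at h1
      refine h1.trans ?_
      rw [iS_lie]
      noncomm_ring
  -- the bracket
  have glie : ∀ (u : US A) (y z : L), g ⁅y, z⁆ u = g y (g z u) - g z (g y u) := by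
    intro u
    induction u using UAff.ind with
    | h1 =>
      intro y z
      have hy : ∀ w : L, g w 1 = iS A (π w) * 1 + χ w • 1 := by intro w; rw [g1, mul_one]
      have gsm : ∀ (w : L) (r : K), g w (r • (1 : US A)) = r • g w 1 := fun w r => gsmulu w r 1
      rw [hy z, hy y, gaddu, gaddu, gmul, gmul, gsm, gsm, hy y, hy z]
      -- the remaining part
      have hb := hB (y - π y) (z - π z) (by rw [map_sub, hπ, sub_self])
        (by rw [map_sub, hπ, sub_self])
      have e1 : ⁅y - (π y : L), z - (π z : L)⁆ = ⁅y, z⁆ - ⁅y, (π z : L)⁆ - ⁅(π y : L), z⁆ +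
          ((⁅π y, π z⁆ : A) : L) := by
        rw [LieSubalgebra.coe_bracket, sub_lie, lie_sub, lie_sub]; abel
      have e2 : g ⁅y - (π y : L), z - (π z : L)⁆ 1 = 0 := by
        rw [g1, hb.1, hb.2, show iS A 0 = 0 from map_zero _, zero_smul, add_zero]
      rw [e1, gaddz, gsubz, gsubz, gA] at e2
      have e3 : g ⁅z, (π y : L)⁆ 1 = -g ⁅(π y : L), z⁆ 1 := by
        rw [← lie_skew]
        exact map_neg (F 1 φ₀) _
      rw [e3]
      rw [iS_lie] at e2
      have e5 : g ⁅y, z⁆ 1 = g ⁅y, (π z : L)⁆ 1 + g ⁅(π y : L), z⁆ 1 -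
          (iS A (π y) * iS A (π z) - iS A (π z) * iS A (π y)) * 1 := by
        have e6 := e2
        rw [add_eq_zero_iff_eq_neg, sub_eq_iff_eq_add, sub_eq_iff_eq_add] at e6
        rw [e6]; abel
      rw [e5]
      simp only [mul_one, mul_add, mul_smul_comm, smul_add, smul_smul, mul_comm (χ z) (χ y)]
      abel
    | ha u v hu hv =>
      intro y z
      rw [gaddu, hu, hv, gaddu, gaddu, gaddu, gaddu]; abel
    | hs r u hu =>
      intro y z
      rw [gsmulu, hu, gsmulu, gsmulu, gsmulu, gsmulu, smul_sub]
    | hz a u hu =>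
      intro y z
      change g ⁅y, z⁆ (iS A a * u) = g y (g z (iS A a * u)) - g z (g y (iS A a * u))
      rw [gmul, gmul, gmul, gaddu, gaddu, gmul, gmul, hu y z]
      have e1 : (⁅⁅y, z⁆, (a : L)⁆ : L) = ⁅⁅y, (a : L)⁆, z⁆ + ⁅y, ⁅z, (a : L)⁆⁆ := by
        rw [← lie_skew ⁅y, z⁆, leibniz_lie, ← lie_skew y (a : L), ← lie_skew z (a : L), neg_lie,
          lie_neg, neg_add]
      rw [e1, gaddz, hu ⁅y, (a : L)⁆ z, hu y ⁅z, (a : L)⁆]
      noncomm_ring
  refine ⟨{ toFun := fun z => { toFun := g z, map_add' := gaddu z, map_smul' := gsmulu z }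
            map_add' := fun y z => LinearMap.ext fun u => gaddz y z u
            map_smul' := fun r z => LinearMap.ext fun u => gsmulz r z u
            map_lie' := ?_ }, ?_, ?_⟩
  · intro y z
    rw [LieRing.of_associative_ring_bracket]
    apply LinearMap.ext
    intro u
    exact glie u y z
  · intro a u
    exact gA a u
  · intro z
    exact g1 z

end general

end Pool.Agent.Q19.Va
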