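import Pool.Agent.Q19.VaD

set_option autoImplicit false
set_option linter.unusedVariables false

/-! Evaluation of the vacuum module at `t = 1`. -/

attribute [local instance 100] LieRing.ofAssociativeRing

namespace Pool.Agent.Q19.Va

universe u

variable {K : Type u} [Field K] {κ : K}

lemma lb_apply_zero (P : ℤ → Prop) (hP : ∀ m n, P m → P n → P (m + n)) (X Y : ℤ →₀ Sl2 K)
    (hX : ∀ n, ¬ P n → X n = 0) (hY : ∀ n, ¬ P n → Y n = 0) (n : ℤ) (hn : ¬ P n) :
    lb X Y n = 0 := by
  unfold lb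
  rw [Finsupp.sum_apply]
  apply Finset.sum_eq_zero
  intro m hm
  change (Y.sum fun k y => Finsupp.single (m + k) ⁅X m, y⁆) n = 0
  rw [Finsupp.sum_apply]
  apply Finset.sum_eq_zero
  intro k hk
  change (Finsupp.single (m + k) ⁅X m, Y k⁆) n = 0
  rw [Finsupp.single_apply, if_neg]
  intro h
  apply hn
  rw [← h]
  apply hP
  · by_contra h1
    exact (Finsupp.mem_support_iff.1 hm) (hX m h1)
  · by_contra h1
    exact (Finsupp.mem_support_iff.1 hk) (hY k h1)

lemma cc_zero_of (P : ℤ → Prop) (hP : ∀ m n, P m → P n → m + n = 0 → m = 0) (X Y : ℤ →₀ Sl2 K)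
    (hX : ∀ n, ¬ P n → X n = 0) (hY : ∀ n, ¬ P n → Y n = 0) : cc X Y = 0 := by
  unfold cc
  apply Finset.sum_eq_zero
  intro m hm
  apply Finset.sum_eq_zero
  intro k hk
  simp only
  split_ifs with h
  · have h1 : P m := by
      by_contra h1
      exact (Finsupp.mem_support_iff.1 hm) (hX m h1)
    have h2 : P k := by
      by_contra h1
      exact (Finsupp.mem_support_iff.1 hk) (hY k h1)
    rw [hP m k h1 h2 h]
    simp
  · rfl

/-- the loops with negative exponents only -/
noncomputable def NegA (K : Type u) [Field K] : LieSubalgebra K (Aff K) where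
  carrier := {z | z.2 = 0 ∧ ∀ n, ¬ (n < 0) → z.1 n = 0}
  add_mem' := by
    rintro a b ⟨ha1, ha2⟩ ⟨hb1, hb2⟩
    refine ⟨by rw [add_snd, ha1, hb1, add_zero], fun n hn => ?_⟩
    rw [add_fst, Finsupp.add_apply, ha2 n hn, hb2 n hn, add_zero]
  zero_mem' := ⟨rfl, fun n hn => rfl⟩
  smul_mem' := by
    rintro r a ⟨ha1, ha2⟩
    refine ⟨by rw [smul_snd, ha1, mul_zero], fun n hn => ?_⟩
    rw [smul_fst, Finsupp.smul_apply, ha2 n hn, smul_zero]
  lie_mem' := by
    rintro a b ⟨ha1, ha2⟩ ⟨hb1, hb2⟩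
    refine ⟨?_, ?_⟩
    · rw [br_snd]
      exact cc_zero_of (fun n => n < 0) (by intro m n h1 h2 h3; omega) _ _ ha2 hb2
    · intro n hn
      rw [br_fst]
      exact lb_apply_zero (fun n => n < 0) (by intro m n h1 h2; omega) _ _ ha2 hb2 n hn

/-- the projection to the negative part -/
noncomputable def prN (K : Type u) [Field K] : Aff K →ₗ[K] NegA K where
  toFun z := ⟨mkA (z.1.filter (fun n => n < 0)) 0, rfl, fun n hn =>
    Finsupp.filter_apply_neg (fun n : ℤ => n < 0) z.1 hn⟩
  map_add' y z := by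
    apply Subtype.ext
    change mkA ((y + z).1.filter _) 0 = mkA _ 0 + mkA _ 0
    rw [← mkA_add, add_fst, Finsupp.filter_add]
  map_smul' r z := by
    apply Subtype.ext
    apply Aff.ext'
    · change (r • z).1.filter _ = r • z.1.filter _
      rw [smul_fst, Finsupp.filter_smul]
    · exact (mul_zero r).symm

lemma prN_fst (z : Aff K) : (prN K z).1.1 = z.1.filter (fun n => n < 0) := rfl

lemma prN_self (a : NegA K) : prN K (a : Aff K) = a := by
  apply Subtype.ext
  apply Aff.ext'
  · rw [prN_fst, Finsupp.filter_eq_self_iff]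
    intro n hn
    by_contra h
    exact hn (a.2.2 n h)
  · exact a.2.1.symm

lemma prN_eq_zero {z : Aff K} (h : prN K z = 0) : ∀ n, ¬ (0 ≤ n) → z.1 n = 0 := by
  intro n hn
  have h1 := congrArg (fun a : NegA K => a.1.1 n) h
  have h2 : (prN K z).1.1 n = z.1 n := by
    rw [prN_fst]
    exact Finsupp.filter_apply_pos (fun n : ℤ => n < 0) z.1 (not_le.1 hn)
  rw [← h2]
  exact h1

lemma prN_zero_of {z : Aff K} (h : ∀ n, n < 0 → z.1 n = 0) : prN K z = 0 := by
  apply Subtype.ext
  apply Aff.ext'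
  · rw [prN_fst]
    ext n : 1
    by_cases hn : n < 0
    · exact (Finsupp.filter_apply_pos (fun n : ℤ => n < 0) z.1 hn).trans (h n hn)
    · exact Finsupp.filter_apply_neg (fun n : ℤ => n < 0) z.1 hn
  · rfl

/-- the character -/
noncomputable def chi (κ : K) : Aff K →ₗ[K] K where
  toFun z := κ * z.2
  map_add' y z := by rw [add_snd, mul_add]
  map_smul' r z := by rw [smul_snd, RingHom.id_apply, smul_eq_mul]; ring

/-- evaluation at `t = 1` -/
noncomputable def ev (X : ℤ →₀ Sl2 K) : Sl2 K := X.sum fun _ x => x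

lemma ev_add (X Y : ℤ →₀ Sl2 K) : ev (X + Y) = ev X + ev Y := by
  unfold ev
  exact Finsupp.sum_add_index' (fun _ => rfl) (fun _ _ _ => rfl)

lemma ev_smul (r : K) (X : ℤ →₀ Sl2 K) : ev (r • X) = r • ev X := by
  unfold ev
  rw [Finsupp.sum_smul_index' (fun _ => rfl), Finsupp.smul_sum]

lemma ev_zero : ev (0 : ℤ →₀ Sl2 K) = 0 := Finsupp.sum_zero_index

lemma ev_single (n : ℤ) (x : Sl2 K) : ev (Finsupp.single n x) = x :=
  Finsupp.sum_single_index rfl

lemma ev_lb (X Y : ℤ →₀ Sl2 K) : ev (lb X Y) = ⁅ev X, ev Y⁆ := by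
  induction X using Finsupp.induction_linear with
  | zero => rw [lb_zero_left, ev_zero, zero_lie]
  | add X X' h h' => rw [lb_add_left, ev_add, h, h', ev_add, add_lie]
  | single m x =>
    induction Y using Finsupp.induction_linear with
    | zero => rw [lb_zero_right, ev_zero, lie_zero]
    | add Y Y' h h' => rw [lb_add_right, ev_add, h, h', ev_add, lie_add]
    | single n y => rw [lb_single, ev_single, ev_single, ev_single]

/-- the evaluation homomorphism -/
noncomputable def sig {M : Type u} [AddCommGroup M] [Module K M]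
    (ρ : Sl2 K →ₗ⁅K⁆ Module.End K M) : NegA K →ₗ⁅K⁆ Module.End K M where
  toFun a := ρ (ev a.1.1)
  map_add' a b := by
    change ρ (ev (a.1 + b.1).1) = _
    rw [add_fst, ev_add, map_add]
  map_smul' r a := by
    change ρ (ev (r • a.1).1) = _
    rw [smul_fst, ev_smul, map_smul]; rfl
  map_lie' := by
    intro a b
    change ρ (ev (⁅a.1, b.1⁆ : Aff K).1) = _
    rw [br_fst, ev_lb, LieHom.map_lie]

/-- the linear map `ψ` -/
theorem exists_psi (κ : K) {M : Type u} [AddCommGroup M] [Module K M]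
    (ρ : Sl2 K →ₗ⁅K⁆ Module.End K M) :
    ∃ ψ : Vk K κ →ₗ[K] Module.End K M, ψ (vac κ) = 1 ∧
      ∀ (x : Sl2 K) (n : ℤ) (v : Vk K κ), n < 0 → ψ (act κ x n v) = ρ x * ψ v := by
  obtain ⟨Λ, h1, h2⟩ := exists_induced (NegA K) (prN K) prN_self (chi κ)
    (by
      intro a
      change κ * a.1.2 = 0
      rw [a.2.1, mul_zero])
    (by
      intro y z hy hz
      have hy' := prN_eq_zero hy
      have hz' := prN_eq_zero hz
      constructor
      · apply prN_zero_of
        intro n hn
        rw [br_fst]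
        exact lb_apply_zero (fun n => 0 ≤ n) (by intro m n h1 h2; omega) _ _ hy' hz' n
          (not_le.2 hn)
      · change κ * (⁅y, z⁆ : Aff K).2 = 0
        rw [br_snd, cc_zero_of (fun n => 0 ≤ n) (by intro m n h1 h2 h3; omega) _ _ hy' hz',
          mul_zero])
  obtain ⟨Φ, h3, h4⟩ := Vk.lift (κ := κ) Λ (1 : US (NegA K)) (by
    intro x n hn
    rw [h2]
    have e1 : prN K (el x n) = 0 := by
      apply prN_zero_of
      intro m hm
      change (Finsupp.single n x) m = 0
      rw [Finsupp.single_apply, if_neg (by omega)]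
    have e2 : chi κ (el x n) = 0 := mul_zero κ
    rw [e1, e2, zero_smul, add_zero]
    exact map_zero _) (by
    rw [h2]
    have e1 : prN K (cel : Aff K) = 0 := by
      apply prN_zero_of
      intro m hm
      rfl
    have e2 : chi κ (cel : Aff K) = κ := mul_one κ
    rw [e1, e2, show iS (NegA K) 0 = 0 from map_zero _, zero_add])
  let F := UniversalEnvelopingAlgebra.lift K (sig ρ)
  refine ⟨F.toLinearMap ∘ₗ Φ, ?_, ?_⟩
  · change F (Φ (vac κ)) = 1
    rw [h3, map_one]
  · intro x n v hn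
    change F (Φ (iA (el x n) • v)) = ρ x * F (Φ v)
    rw [h4]
    have hmem : el x n ∈ NegA K := by
      refine ⟨rfl, fun m hm => ?_⟩
      change (Finsupp.single n x) m = 0
      rw [Finsupp.single_apply, if_neg (by omega)]
    have h5 := h1 ⟨el x n, hmem⟩ (Φ v)
    change Λ (el x n) (Φ v) = _ at h5
    rw [h5, map_mul]
    have h6 : F (iS (NegA K) ⟨el x n, hmem⟩) = ρ x := by
      have h7 : F (iS (NegA K) ⟨el x n, hmem⟩) = sig ρ ⟨el x n, hmem⟩ :=
        UniversalEnvelopingAlgebra.lift_ι_apply K (sig ρ) _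
      rw [h7]
      change ρ (ev (Finsupp.single n x)) = ρ x
      rw [ev_single]
    rw [h6]

end Pool.Agent.Q19.Va
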