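import Pool.Agent.Q19.VaE

set_option autoImplicit false
set_option linter.unusedVariables false

/-! The operators `D = L₋₂` and `N = L₀`. -/

attribute [local instance 100] LieRing.ofAssociativeRing

namespace Pool.Agent.Q19.Va

universe u

variable {K : Type u} [Field K] {κ : K}

/-- a traceless matrix -/
def mk2 (a b c : K) : Sl2 K := ⟨!![a, b; c, -a], by
  change Matrix.trace !![a, b; c, -a] = 0
  simp [Matrix.trace_fin_two]⟩

def ee : Sl2 K := mk2 0 1 0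
def ff : Sl2 K := mk2 0 0 1
def hh : Sl2 K := mk2 1 0 0

lemma mk2_val (a b c : K) : (mk2 a b c).1 = !![a, b; c, -a] := rfl

lemma sl2_ext {x y : Sl2 K} (h0 : x.1 0 0 = y.1 0 0) (h1 : x.1 0 1 = y.1 0 1)
    (h2 : x.1 1 0 = y.1 1 0) : x = y := by
  have hx : x.1.trace = 0 := x.2
  have hy : y.1.trace = 0 := y.2
  rw [Matrix.trace_fin_two] at hx hy
  apply Subtype.ext
  ext i j
  fin_cases i <;> fin_cases j
  · exact h0
  · exact h1
  · exact h2
  · change x.1 1 1 = y.1 1 1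
    linear_combination hx - hy - h0

lemma eta (y : Sl2 K) : y = mk2 (y.1 0 0) (y.1 0 1) (y.1 1 0) :=
  sl2_ext rfl rfl rfl

lemma mk2_eq (a b c : K) : mk2 a b c = a • hh + b • ee + c • ff := by
  apply sl2_ext
  · change a = a * 1 + b * 0 + c * 0
    ring
  · change b = a * 0 + b * 1 + c * 0
    ring
  · change c = a * 0 + b * 0 + c * 1
    ring

lemma lie_val (x y : Sl2 K) : ⁅x, y⁆.1 = x.1 * y.1 - y.1 * x.1 := rfl

lemma lie_mk2 (a b c a' b' c' : K) : ⁅mk2 a b c, mk2 a' b' c'⁆ =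
    mk2 (b * c' - b' * c) (2 * (a * b' - a' * b)) (2 * (c * a' - c' * a)) := by
  apply sl2_ext
  · rw [lie_val, mk2_val, mk2_val, mk2_val]
    simp [Matrix.mul_apply, Fin.sum_univ_two]; ring
  · rw [lie_val, mk2_val, mk2_val, mk2_val]
    simp [Matrix.mul_apply, Fin.sum_univ_two]; ring
  · rw [lie_val, mk2_val, mk2_val, mk2_val]
    simp [Matrix.mul_apply, Fin.sum_univ_two]; ring

lemma tf_mk2 (a b c a' b' c' : K) :
    tf (mk2 a b c) (mk2 a' b' c') = 2 * (a * a') + b * c' + c * b' := by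
  unfold tf
  rw [mk2_val, mk2_val, Matrix.trace_fin_two]
  simp [Matrix.mul_apply, Fin.sum_univ_two]; ring

lemma act_add (x y : Sl2 K) (n : ℤ) (v : Vk K κ) :
    act κ (x + y) n v = act κ x n v + act κ y n v := by
  rw [← actL_el, ← actL_el, ← actL_el, el_add, map_add]; rfl

lemma act_smul (r : K) (x : Sl2 K) (n : ℤ) (v : Vk K κ) : act κ (r • x) n v = r • act κ x n v := by
  rw [← actL_el, ← actL_el, el_smul, map_smul]; rfl

lemma act_mk2 (a b c : K) (n : ℤ) (v : Vk K κ) : act κ (mk2 a b c) n v =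
    a • act κ hh n v + b • act κ ee n v + c • act κ ff n v := by
  rw [mk2_eq, act_add, act_add, act_smul, act_smul, act_smul]

/-- the vector `a₋₁ b₋₁ |0⟩` -/
noncomputable def Tv (κ : K) (a b : Sl2 K) : Vk K κ := act κ a (-1) (act κ b (-1) (vac κ))

lemma act_one (y b : Sl2 K) (n : ℤ) (hn : 0 ≤ n) : act κ y n (act κ b (-1) (vac κ)) =
    act κ ⁅y, b⁆ (n - 1) (vac κ) + ((if n = 1 then tf y b else 0) * κ) • vac κ := by
  rw [act_comm, act_vac hn, map_zero, zero_add]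
  have e : n + -1 = n - 1 := by ring
  rw [e]
  congr 3
  by_cases h : n = 1
  · subst h; simp
  · rw [if_neg h, if_neg (by omega)]

lemma act_Tv0 (y a b : Sl2 K) : act κ y 0 (Tv κ a b) = Tv κ a ⁅y, b⁆ + Tv κ ⁅y, a⁆ b := by
  unfold Tv
  rw [act_comm, act_one y b 0 le_rfl]
  simp

lemma act_Tv1 (y a b : Sl2 K) : act κ y 1 (Tv κ a b) = (κ * tf y b) • act κ a (-1) (vac κ) +
    act κ ⁅⁅y, a⁆, b⁆ (-1) (vac κ) + (κ * tf y a) • act κ b (-1) (vac κ) := by
  unfold Tv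
  rw [act_comm, act_one y b 1 (by norm_num)]
  have e1 : act κ ⁅y, b⁆ (1 - 1) (vac κ) = 0 := act_vac (by norm_num)
  have e2 : act κ ⁅y, a⁆ (1 + -1) (act κ b (-1) (vac κ)) = act κ ⁅⁅y, a⁆, b⁆ (-1) (vac κ) := by
    have := act_one (κ := κ) ⁅y, a⁆ b 0 le_rfl
    simpa using this
  rw [e1, e2, zero_add, map_smul]
  simp [mul_comm]

lemma act_Tv2 (y a b : Sl2 K) : act κ y 2 (Tv κ a b) = (κ * tf ⁅y, a⁆ b) • vac κ := by
  unfold Tv
  rw [act_comm, act_one y b 2 (by norm_num)]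
  have e1 : act κ ⁅y, b⁆ (2 - 1) (vac κ) = 0 := act_vac (by norm_num)
  have e2 : act κ ⁅y, a⁆ (2 + -1) (act κ b (-1) (vac κ)) = (κ * tf ⁅y, a⁆ b) • vac κ := by
    have h := act_one (κ := κ) ⁅y, a⁆ b 1 (by norm_num)
    have h' : act κ ⁅⁅y, a⁆, b⁆ (1 - 1) (vac κ) = 0 := act_vac (by norm_num)
    rw [h', zero_add, if_pos rfl, mul_comm] at h
    simpa using h
  rw [e1, e2]
  simp

lemma act_Tv3 (y a b : Sl2 K) (n : ℤ) (hn : 3 ≤ n) : act κ y n (Tv κ a b) = 0 := by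
  unfold Tv
  rw [act_comm, act_one y b n (by omega)]
  have e1 : act κ ⁅y, b⁆ (n - 1) (vac κ) = 0 := act_vac (by omega)
  have e2 : act κ ⁅y, a⁆ (n + -1) (act κ b (-1) (vac κ)) = 0 := by
    rw [act_one _ _ _ (by omega), if_neg (by omega)]
    have h' : act κ ⁅⁅y, a⁆, b⁆ (n + -1 - 1) (vac κ) = 0 := act_vac (by omega)
    rw [h']; simp
  rw [e1, e2, if_neg (by omega), if_neg (by omega)]
  simp

/-- the conformal vector, up to the factor `2 (κ + 2)` -/
noncomputable def om0 (κ : K) : Vk K κ :=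
  Tv κ ee ff + Tv κ ff ee + (1 / 2 : K) • Tv κ hh hh

lemma Tv_mk2_left (a b c : K) (x : Sl2 K) : Tv κ (mk2 a b c) x =
    a • Tv κ hh x + b • Tv κ ee x + c • Tv κ ff x := act_mk2 _ _ _ _ _

lemma Tv_mk2_right (a b c : K) (x : Sl2 K) : Tv κ x (mk2 a b c) =
    a • Tv κ x hh + b • Tv κ x ee + c • Tv κ x ff := by
  unfold Tv
  rw [act_mk2, map_add, map_add, map_smul, map_smul, map_smul]

lemma lie_ee (a b c : K) : ⁅mk2 a b c, (ee : Sl2 K)⁆ = mk2 (-c) (2 * a) 0 := by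
  rw [ee, lie_mk2]; congr 1 <;> ring

lemma lie_ff (a b c : K) : ⁅mk2 a b c, (ff : Sl2 K)⁆ = mk2 b 0 (-2 * a) := by
  rw [ff, lie_mk2]; congr 1 <;> ring

lemma lie_hh (a b c : K) : ⁅mk2 a b c, (hh : Sl2 K)⁆ = mk2 0 (-2 * b) (2 * c) := by
  rw [hh, lie_mk2]; congr 1 <;> ring

lemma act_om0_0 (h2 : (2 : K) ≠ 0) (y : Sl2 K) : act κ y 0 (om0 κ) = 0 := by
  rw [eta y]
  set a := y.1 0 0
  set b := y.1 0 1
  set c := y.1 1 0
  unfold om0
  rw [map_add, map_add, map_smul, act_Tv0, act_Tv0, act_Tv0, lie_ee, lie_ff, lie_hh,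
    Tv_mk2_left, Tv_mk2_left, Tv_mk2_left, Tv_mk2_right, Tv_mk2_right, Tv_mk2_right]
  match_scalars <;> field_simp <;> ring

lemma act_om0_1 (h2 : (2 : K) ≠ 0) (y : Sl2 K) :
    act κ y 1 (om0 κ) = (2 * (κ + 2)) • act κ y (-1) (vac κ) := by
  rw [eta y]
  set a := y.1 0 0
  set b := y.1 0 1
  set c := y.1 1 0
  unfold om0
  rw [map_add, map_add, map_smul, act_Tv1, act_Tv1, act_Tv1, lie_ee, lie_ff, lie_hh,
    lie_ff, lie_ee, lie_hh, ee, ff, hh, tf_mk2, tf_mk2, tf_mk2, act_mk2, act_mk2, act_mk2, act_mk2,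
    act_mk2, act_mk2, act_mk2]
  match_scalars <;> field_simp <;> ring

lemma act_om0_2 (h2 : (2 : K) ≠ 0) (y : Sl2 K) : act κ y 2 (om0 κ) = 0 := by
  rw [eta y]
  set a := y.1 0 0
  set b := y.1 0 1
  set c := y.1 1 0
  unfold om0
  rw [map_add, map_add, map_smul, act_Tv2, act_Tv2, act_Tv2, lie_ee, lie_ff, lie_hh,
    ee, ff, hh, tf_mk2, tf_mk2, tf_mk2]
  match_scalars
  ring

lemma act_om0_3 (y : Sl2 K) (n : ℤ) (hn : 3 ≤ n) : act κ y n (om0 κ) = 0 := by
  unfold om0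
  rw [map_add, map_add, map_smul, act_Tv3 _ _ _ _ hn, act_Tv3 _ _ _ _ hn, act_Tv3 _ _ _ _ hn]
  simp

/-- the conformal vector -/
noncomputable def om (κ : K) : Vk K κ := (2 * (κ + 2))⁻¹ • om0 κ

/-- the operator `D` -/
lemma exists_D (h2 : (2 : K) ≠ 0) (hκ : κ + 2 ≠ 0) : ∃ D : Module.End K (Vk K κ),
    D (vac κ) = om κ ∧ ∀ (x : Sl2 K) (n : ℤ) (v : Vk K κ),
      D (act κ x n v) = act κ x n (D v) - (n : K) • act κ x (n - 2) v := by
  obtain ⟨D, h1, h3⟩ := exists_op (κ := κ) (shift (fun n => -(n : K)) (-2))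
    (shift_der _ _ (by intro m n; push_cast; ring) (by
      intro m n h
      have h4 : n = 2 - m := by omega
      rw [h4]
      push_cast
      ring)) (shift_cel _ _) (om κ) (by
    intro x n hn
    rw [shift_el, map_smul, LinearMap.smul_apply, actL_el]
    unfold om
    rw [map_smul]
    have hne : 2 * (κ + 2) ≠ 0 := mul_ne_zero h2 hκ
    rcases lt_or_ge n 3 with h | h
    · interval_cases n
      · rw [act_om0_0 h2]; simp
      · rw [act_om0_1 h2, smul_smul, inv_mul_cancel₀ hne]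
        simp
      · rw [act_om0_2 h2, show (2 : ℤ) + -2 = 0 by norm_num, act_vac le_rfl]; simp
    · rw [act_om0_3 x n h, act_vac (by omega)]; simp)
  refine ⟨D, h1, fun x n v => ?_⟩
  have h4 := h3 (el x n) v
  rw [shift_el, map_smul, LinearMap.smul_apply, actL_el, actL_el, neg_smul] at h4
  rw [h4, sub_eq_add_neg (act κ x n (D v)), sub_eq_add_neg n 2]

/-- the degree operator `N` -/
lemma exists_N (κ : K) : ∃ N : Module.End K (Vk K κ),
    N (vac κ) = 0 ∧ ∀ (x : Sl2 K) (n : ℤ) (v : Vk K κ),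
      N (act κ x n v) = act κ x n (N v) - (n : K) • act κ x n v := by
  obtain ⟨N, h1, h3⟩ := exists_op (κ := κ) (shift (fun n => -(n : K)) 0)
    (shift_der _ _ (by intro m n; push_cast; ring) (by
      intro m n h
      have h4 : n = - m := by omega
      rw [h4]
      push_cast
      ring)) (shift_cel _ _) 0 (by
    intro x n hn
    rw [shift_el, map_smul, LinearMap.smul_apply, actL_el, add_zero, act_vac hn]
    simp)
  refine ⟨N, h1, fun x n v => ?_⟩
  have h4 := h3 (el x n) v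
  rw [shift_el, map_smul, LinearMap.smul_apply, actL_el, add_zero, actL_el, neg_smul] at h4
  rw [h4, sub_eq_add_neg (act κ x n (N v))]

end Pool.Agent.Q19.Va
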