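import Pool.Agent.Q19.VaF

set_option autoImplicit false
set_option linter.unusedVariables false

/-! Characteristic `p`: powers of `D`, `p`-th powers of elements, the polynomial `X^p - X`. -/

attribute [local instance 100] LieRing.ofAssociativeRing

namespace Pool.Agent.Q19.Va

universe u

variable {K : Type u} [Field K] {κ : K}

/-- `∏ (x + 2 j) = x^p - x` -/
lemma prod_eq (p : ℕ) [hp : Fact p.Prime] [CharP K p] (h2 : (2 : K) ≠ 0) (x : K) :
    ∏ j ∈ Finset.range p, (x + 2 * j) = x ^ p - x := by
  classical
  let f : Polynomial K := ∏ j ∈ Finset.range p, (Polynomial.X - Polynomial.C (-(2 * (j : K))))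
  let g : Polynomial K := Polynomial.X ^ p - Polynomial.X
  have hp1 : 1 < p := hp.out.one_lt
  have hf1 : f.Monic := Polynomial.monic_prod_of_monic _ _ fun j _ => Polynomial.monic_X_sub_C _
  have hf2 : f.natDegree = p := by
    rw [Polynomial.natDegree_prod_of_monic _ _ fun j _ => Polynomial.monic_X_sub_C _]
    simp only [Polynomial.natDegree_X_sub_C, Finset.sum_const, Finset.card_range, smul_eq_mul,
      mul_one]
  have hg1 : g.Monic := by
    apply Polynomial.monic_X_pow_sub
    rw [Polynomial.degree_X]
    exact_mod_cast hp1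
  have hg2 : g.natDegree = p := FiniteField.X_pow_card_sub_X_natDegree_eq K hp1
  have hcast : ∀ i j : ℕ, i < p → j < p → (i : K) = j → i = j := by
    intro i j hi hj hij
    have h3 := (CharP.natCast_eq_natCast K p).1 hij
    unfold Nat.ModEq at h3
    rwa [Nat.mod_eq_of_lt hi, Nat.mod_eq_of_lt hj] at h3
  have hfg : f = g := by
    apply Polynomial.eq_of_degree_sub_lt_of_eval_finset_eq
      ((Finset.range p).image (fun j : ℕ => -(2 * (j : K))))
    · rw [Finset.card_image_of_injOn, Finset.card_range]
      · have h3 : (f - g).degree < f.degree := by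
          apply Polynomial.degree_sub_lt
          · rw [Polynomial.degree_eq_natDegree hf1.ne_zero, Polynomial.degree_eq_natDegree
              hg1.ne_zero, hf2, hg2]
          · exact hf1.ne_zero
          · rw [hf1.leadingCoeff, hg1.leadingCoeff]
        rwa [Polynomial.degree_eq_natDegree hf1.ne_zero, hf2] at h3
      · intro i hi j hj hij
        simp only [Finset.coe_range, Set.mem_Iio] at hi hj
        apply hcast i j hi hj
        exact mul_left_cancel₀ h2 (neg_injective hij)
    · intro y hy
      obtain ⟨j, hj, rfl⟩ := Finset.mem_image.1 hy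
      have h3 : f.eval (-(2 * (j : K))) = 0 := by
        rw [Polynomial.eval_prod]
        apply Finset.prod_eq_zero hj
        simp
      have h4 : g.eval (-(2 * (j : K))) = 0 := by
        have h5 : (-(2 * (j : K))) ^ p = -(2 * (j : K)) := by
          have h6 := map_intCast (frobenius K p) (-(2 * (j : ℤ)))
          rw [frobenius_def] at h6
          push_cast at h6
          exact h6
        simp only [g, Polynomial.eval_sub, Polynomial.eval_pow, Polynomial.eval_X, h5, sub_self]
      rw [h3, h4]
  have h3 := congrArg (Polynomial.eval x) hfg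
  simp only [f, g, Polynomial.eval_prod, Polynomial.eval_sub, Polynomial.eval_pow,
    Polynomial.eval_X, Polynomial.eval_C, sub_neg_eq_add] at h3
  exact h3

/-- `ad (X) ^ p = ad (X ^ p)` -/
lemma ad_pow {R : Type u} [Ring R] [Algebra K R] [Nontrivial R] (p : ℕ) [hp : Fact p.Prime]
    [CharP K p] (X W : R) : ((LinearMap.mulLeft K X - LinearMap.mulRight K X) ^ p) W =
      X ^ p * W - W * X ^ p := by
  have : CharP (Module.End K R) p := by
    have : Nontrivial (Module.End K R) := inferInstance
    exact charP_of_injective_algebraMap (algebraMap K (Module.End K R)).injective p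
  rw [sub_pow_char_of_commute p (LinearMap.commute_mulLeft_right X X), LinearMap.pow_mulLeft,
    LinearMap.pow_mulRight]
  rfl

/-- the vacuum module is not trivial -/
lemma vac_ne (κ : K) : vac κ ≠ 0 := by
  obtain ⟨ψ, h1, -⟩ := exists_psi (M := K) κ 0
  intro h
  rw [h, map_zero] at h1
  exact one_ne_zero (congrArg (fun f : Module.End K K => f 1) h1).symm

instance : Nontrivial (Vk K κ) := ⟨vac κ, 0, vac_ne κ⟩

/-- `D ^ p` commutes with the action -/
lemma D_pow_comm (p : ℕ) [hp : Fact p.Prime] [CharP K p] (h2 : (2 : K) ≠ 0)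
    {D : Module.End K (Vk K κ)}
    (hD : ∀ (x : Sl2 K) (n : ℤ) (v : Vk K κ),
      D (act κ x n v) = act κ x n (D v) - (n : K) • act κ x (n - 2) v)
    (x : Sl2 K) (n : ℤ) (v : Vk K κ) : (D ^ p) (act κ x n v) = act κ x n ((D ^ p) v) := by
  have h1 := ad_pow (K := K) p D (act κ x n)
  have h3 : ∀ k : ℕ, ((LinearMap.mulLeft K D - LinearMap.mulRight K D) ^ k) (act κ x n) =
      (∏ j ∈ Finset.range k, (-((n : K) - 2 * j))) • act κ x (n - 2 * k) := by
    intro k
    induction k with
    | zero => simp
    | succ k ih =>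
      rw [pow_succ', Module.End.mul_apply, ih, map_smul, Finset.prod_range_succ, mul_smul]
      congr 1
      apply LinearMap.ext
      intro u
      change D (act κ x (n - 2 * k) u) - act κ x (n - 2 * k) (D u) =
        (-((n : K) - 2 * k)) • act κ x (n - 2 * (k + 1 : ℕ)) u
      rw [hD]
      have e : n - 2 * (k : ℤ) - 2 = n - 2 * ((k + 1 : ℕ) : ℤ) := by push_cast; ring
      rw [e]
      push_cast
      rw [neg_smul]
      abel
  have h4 : ∏ j ∈ Finset.range p, (-((n : K) - 2 * j)) = 0 := by
    have h5 := prod_eq (K := K) p h2 (-(n : K))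
    have h6 : ∏ j ∈ Finset.range p, (-((n : K) - 2 * j)) =
        ∏ j ∈ Finset.range p, (-(n : K) + 2 * j) := by
      apply Finset.prod_congr rfl
      intro j _
      ring
    rw [h6, h5]
    have h7 := map_intCast (frobenius K p) (-n)
    rw [frobenius_def] at h7
    push_cast at h7
    rw [h7, sub_self]
  rw [h3, h4, zero_smul] at h1
  have h5 := congrArg (fun f : Module.End K (Vk K κ) => f v) h1
  simp only [LinearMap.zero_apply, LinearMap.sub_apply, Module.End.mul_apply] at h5
  exact sub_eq_zero.1 h5.symm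

/-- iterated brackets -/
lemma ad_act (x w : Sl2 K) (n m : ℤ) (k : ℕ) :
    ((LinearMap.mulLeft K (act κ x n) - LinearMap.mulRight K (act κ x n)) ^ (k + 2)) (act κ w m) =
      act κ ((fun y => ⁅x, y⁆)^[k + 2] w) (m + (k + 2 : ℕ) * n) := by
  have hc : ∀ y z : Sl2 K, tf y ⁅y, z⁆ = 0 := by
    intro y z
    rw [← tf_inv, lie_self, tf_zero_left]
  have h1 : ∀ (z : Sl2 K) (l : ℤ), (LinearMap.mulLeft K (act κ x n) -
      LinearMap.mulRight K (act κ x n)) (act κ z l) = act κ ⁅x, z⁆ (n + l) +
        ((if n + l = 0 then (n : K) * tf x z else 0) * κ) • 1 := by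
    intro z l
    apply LinearMap.ext
    intro u
    change act κ x n (act κ z l u) - act κ z l (act κ x n u) = _
    rw [act_comm]
    simp only [LinearMap.add_apply, LinearMap.smul_apply, Module.End.one_apply]
    abel
  have h2 : (LinearMap.mulLeft K (act κ x n) - LinearMap.mulRight K (act κ x n)) 1 = 0 := by
    simp
  induction k with
  | zero =>
    rw [pow_succ', pow_one, Module.End.mul_apply, h1, map_add, map_smul, h2, h1, hc]
    simp only [mul_zero, ite_self, zero_mul, zero_smul, add_zero, smul_zero]
    change act κ ⁅x, ⁅x, w⁆⁆ _ = act κ ⁅x, ⁅x, w⁆⁆ _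
    congr 1
    push_cast
    ring
  | succ k ih =>
    have e : k + 1 + 2 = (k + 2) + 1 := by ring
    rw [e, pow_succ', Module.End.mul_apply, ih, h1]
    have h3 : (fun y => ⁅x, y⁆)^[k + 2 + 1] w = ⁅x, (fun y => ⁅x, y⁆)^[k + 2] w⁆ :=
      Function.iterate_succ_apply' _ _ _
    have h4 : tf x ((fun y => ⁅x, y⁆)^[k + 2] w) = 0 := by
      rw [Function.iterate_succ_apply']
      exact hc _ _
    rw [h3, h4]
    simp only [mul_zero, ite_self, zero_mul, zero_smul, add_zero]
    congr 1
    push_cast
    ring

/-- iterated brackets in `sl_2` -/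
lemma ad_mat (p : ℕ) [hp : Fact p.Prime] [CharP K p] {x y : Sl2 K} (hy : y.1 = x.1 ^ p)
    (w : Sl2 K) : (fun z => ⁅x, z⁆)^[p] w = ⁅y, w⁆ := by
  have h1 : ∀ k : ℕ, ((fun z : Sl2 K => ⁅x, z⁆)^[k] w).1 =
      ((LinearMap.mulLeft K x.1 - LinearMap.mulRight K x.1) ^ k) w.1 := by
    intro k
    induction k with
    | zero => rfl
    | succ k ih =>
      rw [Function.iterate_succ_apply', pow_succ', Module.End.mul_apply, ← ih]
      rfl
  apply Subtype.ext
  rw [h1, ad_pow (K := K) p x.1 w.1, lie_val, hy]

/-- `p`-th powers of nonnegative elements agree with the restricted structure -/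
lemma pow_act (p : ℕ) [hp : Fact p.Prime] [CharP K p] {x y : Sl2 K} (hy : y.1 = x.1 ^ p)
    {n : ℤ} (hn : 0 ≤ n) : act κ x n ^ p = act κ y (n * p) := by
  obtain ⟨k, hk⟩ : ∃ k, p = k + 2 := ⟨p - 2, by have := hp.out.two_le; omega⟩
  have hcomm : ∀ (w : Sl2 K) (m : ℤ) (u : Vk K κ),
      (act κ x n ^ p) (act κ w m u) - act κ w m ((act κ x n ^ p) u) =
        act κ y (n * p) (act κ w m u) - act κ w m (act κ y (n * p) u) := by
    intro w m u
    have h1 := ad_pow (K := K) p (act κ x n) (act κ w m)
    have h2 := ad_act (κ := κ) x w n m k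
    rw [← hk, h1, ad_mat p hy w] at h2
    have h3 := congrArg (fun f : Module.End K (Vk K κ) => f u) h2
    simp only [LinearMap.sub_apply, Module.End.mul_apply] at h3
    rw [h3, act_comm y w (n * p) m u]
    have h4 : ((n * p : ℤ) : K) = 0 := by
      push_cast
      rw [CharP.cast_eq_zero, mul_zero]
    rw [h4]
    simp only [zero_mul, ite_self, zero_smul, add_zero]
    have e : m + (p : ℤ) * n = n * p + m := by ring
    rw [e]
    abel
  apply LinearMap.ext
  intro v
  induction v using Vk.negInd with
  | h1 =>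
    rw [act_vac (by positivity), hk, pow_succ, Module.End.mul_apply, act_vac hn, map_zero]
  | ha u v hu hv => rw [map_add, map_add, hu, hv]
  | hs r u hu => rw [map_smul, map_smul, hu]
  | hz w m u hm hu =>
    have h1 := hcomm w m u
    rw [hu] at h1
    have h2 := sub_left_injective h1
    exact h2

end Pool.Agent.Q19.Va
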