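import Pool.Agent.Q19.VaG

set_option autoImplicit false
set_option linter.unusedVariables false

/-! The Verma module, its tensor product with the natural module, and the conclusion. -/

attribute [local instance 100] LieRing.ofAssociativeRing

namespace Pool.Agent.Q19.Va

universe u

variable {K : Type u} [Field K] {κ : K}

open Polynomial in
/-- the operator `F` -/
noncomputable def Fo (K : Type u) [Field K] : Module.End K (Polynomial K) :=
  LinearMap.mulLeft K X

open Polynomial in
/-- the operator `H` -/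
noncomputable def Ho (l : K) : Module.End K (Polynomial K) :=
  l • 1 - (2 : K) • (LinearMap.mulLeft K X * derivative)

open Polynomial in
/-- the operator `E` -/
noncomputable def Eo (l : K) : Module.End K (Polynomial K) :=
  l • derivative - LinearMap.mulLeft K X * (derivative * derivative)

lemma Fo_apply (q : Polynomial K) : Fo K q = Polynomial.X * q := rfl

lemma Ho_apply (l : K) (q : Polynomial K) :
    Ho l q = l • q - (2 : K) • (Polynomial.X * Polynomial.derivative q) := rfl

lemma Eo_apply (l : K) (q : Polynomial K) : Eo l q = l • Polynomial.derivative q -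
    Polynomial.X * Polynomial.derivative (Polynomial.derivative q) := rfl

lemma rel_EF (l : K) : Eo l * Fo K = Fo K * Eo l + Ho l := by
  apply LinearMap.ext
  intro q
  change Eo l (Fo K q) = Fo K (Eo l q) + Ho l q
  simp only [Fo_apply, Eo_apply, Ho_apply, Polynomial.derivative_mul, Polynomial.derivative_X,
    Polynomial.derivative_add, one_mul, Polynomial.smul_eq_C_mul, map_ofNat]
  ring

lemma rel_HE (l : K) : Ho l * Eo l = Eo l * Ho l + (2 : K) • Eo l := by
  apply LinearMap.ext
  intro q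
  change Ho l (Eo l q) = Eo l (Ho l q) + (2 : K) • Eo l q
  simp only [Eo_apply, Ho_apply, Polynomial.derivative_mul, Polynomial.derivative_X,
    Polynomial.derivative_add, Polynomial.derivative_sub, Polynomial.derivative_smul, one_mul,
    Polynomial.smul_eq_C_mul, map_ofNat, Polynomial.derivative_C, zero_mul, zero_add,
    Polynomial.derivative_ofNat]
  ring

lemma rel_HF (l : K) : Ho l * Fo K = Fo K * Ho l - (2 : K) • Fo K := by
  apply LinearMap.ext
  intro q
  change Ho l (Fo K q) = Fo K (Ho l q) - (2 : K) • Fo K q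
  simp only [Fo_apply, Ho_apply, Polynomial.derivative_mul, Polynomial.derivative_X, one_mul,
    Polynomial.smul_eq_C_mul, map_ofNat]
  ring

/-- the Verma module as a homomorphism -/
noncomputable def rhoW (l : K) : Sl2 K →ₗ⁅K⁆ Module.End K (Polynomial K) where
  toFun x := x.1 0 0 • Ho l + x.1 0 1 • Eo l + x.1 1 0 • Fo K
  map_add' x y := by
    change (x.1 0 0 + y.1 0 0) • Ho l + (x.1 0 1 + y.1 0 1) • Eo l + (x.1 1 0 + y.1 1 0) • Fo K = _
    module
  map_smul' r x := by
    change (r * x.1 0 0) • Ho l + (r * x.1 0 1) • Eo l + (r * x.1 1 0) • Fo K = _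
    rw [RingHom.id_apply]
    module
  map_lie' := by
    intro x y
    rw [LieRing.of_associative_ring_bracket, eta x, eta y, lie_mk2]
    set a := x.1 0 0
    set b := x.1 0 1
    set c := x.1 1 0
    set a' := y.1 0 0
    set b' := y.1 0 1
    set c' := y.1 1 0
    change (b * c' - b' * c) • Ho l + (2 * (a * b' - a' * b)) • Eo l +
      (2 * (c * a' - c' * a)) • Fo K =
      (a • Ho l + b • Eo l + c • Fo K) * (a' • Ho l + b' • Eo l + c' • Fo K) -
      (a' • Ho l + b' • Eo l + c' • Fo K) * (a • Ho l + b • Eo l + c • Fo K)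
    simp only [mul_add, add_mul, smul_mul_assoc, mul_smul_comm, rel_EF, rel_HE, rel_HF]
    module

lemma rhoW_apply (l : K) (x : Sl2 K) :
    rhoW l x = x.1 0 0 • Ho l + x.1 0 1 • Eo l + x.1 1 0 • Fo K := rfl

lemma rhoW_ff (l : K) : rhoW l ff = Fo K := by
  rw [rhoW_apply]
  change (0 : K) • Ho l + (0 : K) • Eo l + (1 : K) • Fo K = Fo K
  module

/-- the diagonal action -/
noncomputable def dg (f : Module.End K (Polynomial K)) :
    Module.End K (Polynomial K × Polynomial K) := f.prodMap f

lemma dg_apply (f : Module.End K (Polynomial K)) (a b : Polynomial K) :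
    dg f (a, b) = (f a, f b) := rfl

lemma dg_mul (f g : Module.End K (Polynomial K)) : dg (f * g) = dg f * dg g := by
  apply LinearMap.ext
  rintro ⟨a, b⟩
  rfl

lemma dg_pow (f : Module.End K (Polynomial K)) (n : ℕ) : dg (f ^ n) = dg f ^ n := by
  induction n with
  | zero => rw [pow_zero, pow_zero]; rfl
  | succ n ih => rw [pow_succ, pow_succ, dg_mul, ih]

/-- the matrix action -/
noncomputable def mt (A : Matrix (Fin 2) (Fin 2) K) :
    Module.End K (Polynomial K × Polynomial K) where
  toFun v := (A 0 0 • v.1 + A 0 1 • v.2, A 1 0 • v.1 + A 1 1 • v.2)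
  map_add' v w := by
    apply Prod.ext
    · simp only [Prod.fst_add, Prod.snd_add]; module
    · simp only [Prod.fst_add, Prod.snd_add]; module
  map_smul' r v := by
    apply Prod.ext
    · simp only [Prod.smul_fst, Prod.smul_snd, RingHom.id_apply]; module
    · simp only [Prod.smul_fst, Prod.smul_snd, RingHom.id_apply]; module

lemma mt_apply (A : Matrix (Fin 2) (Fin 2) K) (a b : Polynomial K) :
    mt A (a, b) = (A 0 0 • a + A 0 1 • b, A 1 0 • a + A 1 1 • b) := rfl

lemma mt_one : mt (1 : Matrix (Fin 2) (Fin 2) K) = 1 := by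
  apply LinearMap.ext
  rintro ⟨a, b⟩
  rw [mt_apply]
  simp

lemma mt_mul (A B : Matrix (Fin 2) (Fin 2) K) : mt (A * B) = mt A * mt B := by
  apply LinearMap.ext
  rintro ⟨a, b⟩
  change mt (A * B) (a, b) = mt A (mt B (a, b))
  rw [mt_apply, mt_apply, mt_apply]
  simp only [Matrix.mul_apply, Fin.sum_univ_two]
  apply Prod.ext
  · simp only; module
  · simp only; module

lemma mt_pow (A : Matrix (Fin 2) (Fin 2) K) (n : ℕ) : mt (A ^ n) = mt A ^ n := by
  induction n with
  | zero => rw [pow_zero, pow_zero, mt_one]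
  | succ n ih => rw [pow_succ, pow_succ, mt_mul, ih]

lemma dg_mt (f : Module.End K (Polynomial K)) (A : Matrix (Fin 2) (Fin 2) K) :
    dg f * mt A = mt A * dg f := by
  apply LinearMap.ext
  rintro ⟨a, b⟩
  change dg f (mt A (a, b)) = mt A (dg f (a, b))
  rw [mt_apply, dg_apply, dg_apply, mt_apply, map_add, map_add, map_smul, map_smul, map_smul,
    map_smul]

/-- the tensor product of the Verma module with the natural module -/
noncomputable def rhoM (l : K) :
    Sl2 K →ₗ⁅K⁆ Module.End K (Polynomial K × Polynomial K) where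
  toFun x := dg (rhoW l x) + mt x.1
  map_add' x y := by
    apply LinearMap.ext
    rintro ⟨a, b⟩
    rw [map_add]
    change (rhoW l x a + rhoW l y a, rhoW l x b + rhoW l y b) +
      ((x.1 0 0 + y.1 0 0) • a + (x.1 0 1 + y.1 0 1) • b,
        (x.1 1 0 + y.1 1 0) • a + (x.1 1 1 + y.1 1 1) • b) =
      ((rhoW l x a, rhoW l x b) + (x.1 0 0 • a + x.1 0 1 • b, x.1 1 0 • a + x.1 1 1 • b)) +
      ((rhoW l y a, rhoW l y b) + (y.1 0 0 • a + y.1 0 1 • b, y.1 1 0 • a + y.1 1 1 • b))
    apply Prod.ext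
    · simp only [Prod.fst_add]; module
    · simp only [Prod.snd_add]; module
  map_smul' r x := by
    apply LinearMap.ext
    rintro ⟨a, b⟩
    rw [map_smul, RingHom.id_apply]
    change (r • rhoW l x a, r • rhoW l x b) +
      ((r * x.1 0 0) • a + (r * x.1 0 1) • b, (r * x.1 1 0) • a + (r * x.1 1 1) • b) =
      r • ((rhoW l x a, rhoW l x b) + (x.1 0 0 • a + x.1 0 1 • b, x.1 1 0 • a + x.1 1 1 • b))
    apply Prod.ext
    · simp only [Prod.fst_add, Prod.smul_fst]; module
    · simp only [Prod.snd_add, Prod.smul_snd]; module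
  map_lie' := by
    intro x y
    rw [LieRing.of_associative_ring_bracket, LieHom.map_lie, LieRing.of_associative_ring_bracket,
      lie_val]
    have e1 : dg (rhoW l x * rhoW l y - rhoW l y * rhoW l x) =
        dg (rhoW l x) * dg (rhoW l y) - dg (rhoW l y) * dg (rhoW l x) := by
      apply LinearMap.ext
      rintro ⟨a, b⟩
      rfl
    have e2 : mt (x.1 * y.1 - y.1 * x.1) = mt x.1 * mt y.1 - mt y.1 * mt x.1 := by
      rw [← mt_mul, ← mt_mul]
      apply LinearMap.ext
      rintro ⟨a, b⟩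
      change ((x.1 * y.1 - y.1 * x.1) 0 0 • a + (x.1 * y.1 - y.1 * x.1) 0 1 • b,
        (x.1 * y.1 - y.1 * x.1) 1 0 • a + (x.1 * y.1 - y.1 * x.1) 1 1 • b) =
        ((x.1 * y.1) 0 0 • a + (x.1 * y.1) 0 1 • b, (x.1 * y.1) 1 0 • a + (x.1 * y.1) 1 1 • b) -
        ((y.1 * x.1) 0 0 • a + (y.1 * x.1) 0 1 • b, (y.1 * x.1) 1 0 • a + (y.1 * x.1) 1 1 • b)
      simp only [Matrix.sub_apply]
      apply Prod.ext
      · simp only [Prod.fst_sub]; module
      · simp only [Prod.snd_sub]; module
    rw [e1, e2, add_mul, mul_add, mul_add, add_mul, mul_add, mul_add, dg_mt (rhoW l x) y.1,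
      dg_mt (rhoW l y) x.1]
    abel

lemma rhoM_apply (l : K) (x : Sl2 K) : rhoM l x = dg (rhoW l x) + mt x.1 := rfl

lemma rhoM_pair (l : K) (x : Sl2 K) (a b : Polynomial K) : rhoM l x (a, b) =
    (rhoW l x a + (x.1 0 0 • a + x.1 0 1 • b), rhoW l x b + (x.1 1 0 • a + x.1 1 1 • b)) := rfl

/-- diagonal operators commuting with `F` -/
def Dg (K : Type u) [Field K] : Subalgebra K (Module.End K (Polynomial K × Polynomial K)) where
  carrier := {s | ∃ f : Module.End K (Polynomial K), f * Fo K = Fo K * f ∧ s = dg f}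
  mul_mem' := by
    rintro _ _ ⟨f, hf, rfl⟩ ⟨g, hg, rfl⟩
    exact ⟨f * g, by rw [mul_assoc, hg, ← mul_assoc, hf, mul_assoc], (dg_mul f g).symm⟩
  add_mem' := by
    rintro _ _ ⟨f, hf, rfl⟩ ⟨g, hg, rfl⟩
    refine ⟨f + g, by rw [add_mul, hf, hg, mul_add], ?_⟩
    apply LinearMap.ext
    rintro ⟨a, b⟩
    rfl
  algebraMap_mem' := by
    intro r
    refine ⟨algebraMap K _ r, Algebra.commutes _ _, ?_⟩
    apply LinearMap.ext
    rintro ⟨a, b⟩
    rfl

/-- the `p`-character is diagonal -/
lemma zeta_mem (p : ℕ) [hp : Fact p.Prime] [CharP K p] (l : K) {x y : Sl2 K}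
    (hy : y.1 = x.1 ^ p) : rhoM l x ^ p - rhoM l y ∈ Dg K := by
  have hc : CharP (Module.End K (Polynomial K × Polynomial K)) p :=
    charP_of_injective_algebraMap
      (algebraMap K (Module.End K (Polynomial K × Polynomial K))).injective p
  refine ⟨rhoW l x ^ p - rhoW l y, ?_, ?_⟩
  · -- commutes with F
    have h1 := ad_pow (K := K) p (rhoW l x) (rhoW l ff)
    have h2 : ∀ k : ℕ, ((LinearMap.mulLeft K (rhoW l x) - LinearMap.mulRight K (rhoW l x)) ^ k)
        (rhoW l ff) = rhoW l ((fun z => ⁅x, z⁆)^[k] ff) := by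
      intro k
      induction k with
      | zero => rfl
      | succ k ih =>
        rw [pow_succ', Module.End.mul_apply, ih, Function.iterate_succ_apply', LieHom.map_lie]
        rfl
    rw [h2, ad_mat p hy, LieHom.map_lie, LieRing.of_associative_ring_bracket] at h1
    rw [rhoW_ff] at h1
    rw [sub_mul, mul_sub]
    have h3 : rhoW l x ^ p * Fo K = Fo K * rhoW l x ^ p + (rhoW l y * Fo K - Fo K * rhoW l y) := by
      rw [h1]; abel
    rw [h3]
    abel
  · have h1 : rhoM l x ^ p = dg (rhoW l x ^ p) + mt y.1 := by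
      rw [rhoM_apply, add_pow_char_of_commute p (dg_mt (rhoW l x) x.1), dg_pow, hy, mt_pow]
    rw [h1, rhoM_apply]
    have e1 : dg (rhoW l x ^ p - rhoW l y) = dg (rhoW l x ^ p) - dg (rhoW l y) := by
      apply LinearMap.ext
      rintro ⟨a, b⟩
      rfl
    rw [e1]
    abel

/-- the Casimir operator -/
noncomputable def Cas {R : Type u} [Ring R] [Algebra K R] (ρ : Sl2 K →ₗ⁅K⁆ R) : R :=
  ρ ee * ρ ff + ρ ff * ρ ee + (1 / 2 : K) • (ρ hh * ρ hh)

lemma lie_ef : ⁅(ee : Sl2 K), (ff : Sl2 K)⁆ = (hh : Sl2 K) := by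
  rw [ee, lie_ff]
  congr 1
  ring

lemma lie_he : ⁅(hh : Sl2 K), (ee : Sl2 K)⁆ = (2 : K) • (ee : Sl2 K) := by
  rw [hh, lie_ee]
  apply sl2_ext
  · change -(0 : K) = 2 * 0
    ring
  · change 2 * (1 : K) = 2 * 1
    ring
  · change (0 : K) = 2 * 0
    ring

lemma lie_hf : ⁅(hh : Sl2 K), (ff : Sl2 K)⁆ = (-2 : K) • (ff : Sl2 K) := by
  rw [hh, lie_ff]
  apply sl2_ext
  · change (0 : K) = -2 * 0
    ring
  · change (0 : K) = -2 * 0
    ring
  · change -2 * (1 : K) = -2 * 1
    ring

lemma cas_comm {R : Type u} [Ring R] [Algebra K R] (h2 : (2 : K) ≠ 0) (ρ : Sl2 K →ₗ⁅K⁆ R)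
    (x : Sl2 K) : Cas ρ * ρ x = ρ x * Cas ρ := by
  have r1 : ρ ee * ρ ff = ρ ff * ρ ee + ρ hh := by
    have h := LieHom.map_lie ρ ee ff
    rw [lie_ef, LieRing.of_associative_ring_bracket] at h
    rw [h]; abel
  have r2 : ρ hh * ρ ee = ρ ee * ρ hh + (2 : K) • ρ ee := by
    have h := LieHom.map_lie ρ hh ee
    rw [lie_he, LieRing.of_associative_ring_bracket, map_smul] at h
    rw [h]; abel
  have r3 : ρ hh * ρ ff = ρ ff * ρ hh + (-2 : K) • ρ ff := by
    have h := LieHom.map_lie ρ hh ff
    rw [lie_hf, LieRing.of_associative_ring_bracket, map_smul] at h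
    rw [h]; abel
  set E := ρ ee
  set F := ρ ff
  set H := ρ hh
  have hC : Cas ρ = (2 : K) • (F * E) + H + (1 / 2 : K) • (H * H) := by
    change E * F + F * E + (1 / 2 : K) • (H * H) = _
    rw [r1]; module
  have cE : Cas ρ * E = E * Cas ρ := by
    rw [hC]
    have t1 : H * H * E = E * (H * H) + (4 : K) • (E * H) + (4 : K) • E := by
      rw [mul_assoc, r2, mul_add, mul_smul_comm, ← mul_assoc, r2, add_mul, smul_mul_assoc,
        mul_assoc]
      module
    have t2 : E * (F * E) = F * E * E + H * E := by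
      rw [← mul_assoc, r1, add_mul]
    simp only [add_mul, mul_add, smul_mul_assoc, mul_smul_comm, t1, t2, r2]
    match_scalars <;> field_simp <;> ring
  have cF : Cas ρ * F = F * Cas ρ := by
    rw [hC]
    have t1 : H * H * F = F * (H * H) + (-4 : K) • (F * H) + (4 : K) • F := by
      rw [mul_assoc, r3, mul_add, mul_smul_comm, ← mul_assoc, r3, add_mul, smul_mul_assoc,
        mul_assoc]
      module
    have t2 : F * E * F = F * (F * E) + F * H := by
      rw [mul_assoc, r1, mul_add]
    simp only [add_mul, mul_add, smul_mul_assoc, mul_smul_comm, t1, t2, r3]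
    match_scalars <;> field_simp <;> ring
  have cH : Cas ρ * H = H * Cas ρ := by
    have h1 : H = E * F - F * E := by rw [r1]; abel
    rw [h1, mul_sub, sub_mul, ← mul_assoc, ← mul_assoc, cE, cF, mul_assoc, mul_assoc, cE, cF,
      mul_assoc, mul_assoc]
  rw [eta x, mk2_eq, map_add, map_add, map_smul, map_smul, map_smul]
  change Cas ρ * (_ • H + _ • E + _ • F) = (_ • H + _ • E + _ • F) * Cas ρ
  simp only [mul_add, add_mul, smul_mul_assoc, mul_smul_comm, cE, cF, cH]

/-- the Casimir operator on a highest weight vector -/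
lemma cas_hw {M : Type u} [AddCommGroup M] [Module K M] (ρ : Sl2 K →ₗ⁅K⁆ Module.End K M) {u : M}
    {ν : K} (hE : ρ ee u = 0) (hH : ρ hh u = ν • u) : Cas ρ u = (ν + ν ^ 2 / 2) • u := by
  have r1 : ρ ee * ρ ff = ρ ff * ρ ee + ρ hh := by
    have h := LieHom.map_lie ρ ee ff
    rw [lie_ef, LieRing.of_associative_ring_bracket] at h
    rw [h]; abel
  unfold Cas
  rw [r1]
  change ρ ff (ρ ee u) + ρ hh u + ρ ff (ρ ee u) + (1 / 2 : K) • ρ hh (ρ hh u) = _
  rw [hE, map_zero, hH, map_smul, hH]
  module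

end Pool.Agent.Q19.Va
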