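import Pool.Agent.Q19.VaH

set_option autoImplicit false
set_option linter.unusedVariables false

/-! The conclusion. -/

attribute [local instance 100] LieRing.ofAssociativeRing

namespace Pool.Agent.Q19.Va

universe u

variable {K : Type u} [Field K] {κ : K}

/-- `ψ` of the powers of `D` -/
lemma psi_pow (h2 : (2 : K) ≠ 0) {M : Type u} [AddCommGroup M] [Module K M]
    (ρ : Sl2 K →ₗ⁅K⁆ Module.End K M) {ψ : Vk K κ →ₗ[K] Module.End K M} (hψ1 : ψ (vac κ) = 1)
    (hψ : ∀ (x : Sl2 K) (n : ℤ) (v : Vk K κ), n < 0 → ψ (act κ x n v) = ρ x * ψ v)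
    {D : Module.End K (Vk K κ)} (hD0 : D (vac κ) = om κ)
    (hD : ∀ (x : Sl2 K) (n : ℤ) (v : Vk K κ),
      D (act κ x n v) = act κ x n (D v) - (n : K) • act κ x (n - 2) v)
    {m : M} {c : K} (hm : Cas ρ m = (2 * (κ + 2) * c) • m) (hκ : κ + 2 ≠ 0) (k : ℕ) :
    ψ ((D ^ k) (vac κ)) m = (∏ j ∈ Finset.range k, (c + 2 * j)) • m := by
  obtain ⟨N, hN0, hN⟩ := exists_N κ
  set Om : Module.End K M := (2 * (κ + 2))⁻¹ • Cas ρ with hOm
  have hTv : ∀ a b : Sl2 K, ψ (Tv κ a b) = ρ a * ρ b := by
    intro a b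
    unfold Tv
    rw [hψ _ _ _ (by norm_num), hψ _ _ _ (by norm_num), hψ1, mul_one]
  have hom : ψ (om κ) = Om := by
    unfold om om0
    rw [map_smul, map_add, map_add, map_smul, hTv, hTv, hTv]
    rfl
  have hOmc : ∀ x, Om * ρ x = ρ x * Om := by
    intro x
    rw [hOm, smul_mul_assoc, mul_smul_comm, cas_comm h2]
  -- first claim
  have c1 : ∀ v : Vk K κ, ψ (D v) = Om * ψ v + ψ (N v) := by
    intro v
    induction v using Vk.negInd with
    | h1 => rw [hD0, hom, hψ1, hN0, mul_one, map_zero, add_zero]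
    | ha u v hu hv => rw [map_add, map_add, hu, hv, map_add, map_add, map_add, mul_add]; abel
    | hs r u hu => rw [map_smul, map_smul, hu, map_smul, map_smul, map_smul, smul_add,
        mul_smul_comm]
    | hz x n u hn hu =>
      rw [hD, hN, map_sub, map_sub, map_smul, map_smul, hψ x n _ hn, hψ x n _ hn, hψ x n _ hn,
        hψ x (n - 2) _ (by omega), hu, mul_add, ← mul_assoc, ← mul_assoc, hOmc]
      abel
  -- second claim
  have c2 : ∀ v : Vk K κ, N (D v) = D (N v) + (2 : K) • D v := by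
    intro v
    induction v using Vk.negInd with
    | h1 =>
      rw [hD0, hN0, map_zero, zero_add]
      have hNT : ∀ a b : Sl2 K, N (Tv κ a b) = (2 : K) • Tv κ a b := by
        intro a b
        unfold Tv
        rw [hN, hN, hN0, map_zero, map_sub, map_zero, map_smul]
        push_cast
        module
      unfold om om0
      rw [map_smul, map_add, map_add, map_smul, hNT, hNT, hNT]
      module
    | ha u v hu hv => rw [map_add, map_add, hu, hv, map_add, map_add]; module
    | hs r u hu => rw [map_smul, map_smul, hu, map_smul, map_smul]; module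
    | hz x n u hn hu =>
      rw [hD, hN, map_sub, map_sub, map_smul, map_smul, hN, hN, hD, hD, hu, map_add, map_smul]
      push_cast
      module
  have c3 : ∀ k : ℕ, N ((D ^ k) (vac κ)) = (2 * k : K) • (D ^ k) (vac κ) := by
    intro k
    induction k with
    | zero => simp [hN0]
    | succ k ih =>
      rw [pow_succ', Module.End.mul_apply, c2, ih, map_smul]
      push_cast
      module
  induction k with
  | zero => simp [hψ1]
  | succ k ih =>
    rw [pow_succ', Module.End.mul_apply, c1, c3, map_smul, Finset.prod_range_succ]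
    change Om (ψ ((D ^ k) (vac κ)) m) + (2 * (k : K)) • (ψ ((D ^ k) (vac κ)) m) = _
    have h3 : Om m = c • m := by
      rw [hOm, LinearMap.smul_apply, hm, smul_smul]
      congr 1
      field_simp
    rw [ih, map_smul, h3]
    module

/-- the main theorem -/
theorem exists_central [IsAlgClosed K] (p : ℕ) [hp : Fact p.Prime] [CharP K p] (hp2 : p ≠ 2)
    (hκ : κ ≠ -2) : ∃ v : Vk K κ, v ∉ pCentre K p κ ∧
      (∀ (x : Sl2 K) (n : ℤ), 0 ≤ n → iA (el x n) • v = 0) := by
  have h2 : (2 : K) ≠ 0 := by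
    intro h
    have h1 : ((2 : ℕ) : K) = 0 := by exact_mod_cast h
    rw [CharP.cast_eq_zero_iff K p] at h1
    exact hp2 ((Nat.prime_dvd_prime_iff_eq hp.out Nat.prime_two).1 h1)
  have hκ' : κ + 2 ≠ 0 := fun h => hκ (eq_neg_of_add_eq_zero_left h)
  obtain ⟨D, hD0, hD⟩ := exists_D (κ := κ) h2 hκ'
  refine ⟨(D ^ p) (vac κ), ?_, ?_⟩
  swap
  · intro x n hn
    rw [← act_apply, ← D_pow_comm p h2 hD, act_vac hn, map_zero]
  -- choice of the parameter
  obtain ⟨τ, hτ⟩ : ∃ τ : K, τ ^ p - τ ≠ 0 := by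
    by_contra h
    push Not at h
    have hp1 : 1 < p := hp.out.one_lt
    have h1 : (Polynomial.X ^ p - Polynomial.X : Polynomial K) = 0 := by
      apply Polynomial.funext
      intro r
      simp only [Polynomial.eval_sub, Polynomial.eval_pow, Polynomial.eval_X, Polynomial.eval_zero]
      exact h r
    exact FiniteField.X_pow_card_sub_X_ne_zero K hp1 h1
  set l : K := τ * (κ + 2) - 1 with hl
  obtain ⟨ψ, hψ1, hψ⟩ := exists_psi κ (rhoM l)
  rintro ⟨z, hz, hvz⟩
  -- the image of the `p`-centre is diagonal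
  have hS : ∀ z ∈ Z0 K p, ∃ s ∈ Dg K, ∀ u : Vk K κ, ψ (z • u) = s * ψ u := by
    intro z hz
    unfold Z0 at hz
    induction hz using Algebra.adjoin_induction with
    | mem z hz =>
      obtain ⟨x, y, n, hy, rfl⟩ := hz
      have hsub : ∀ u : Vk K κ, (iA (el x n) ^ p - iA (el y (n * p))) • u =
          (act κ x n ^ p) u - act κ y (n * p) u := by
        intro u
        rw [sub_smul]
        congr 1
        have hk : ∀ k : ℕ, (iA (el x n) ^ k : UAff K) • u = (act κ x n ^ k) u := by
          intro k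
          induction k with
          | zero => rw [pow_zero, pow_zero, one_smul]; rfl
          | succ k ih => rw [pow_succ', pow_succ', mul_smul, ih]; rfl
        exact hk p
      rcases lt_or_ge n 0 with hn | hn
      · refine ⟨_, zeta_mem p l hy, fun u => ?_⟩
        rw [hsub, map_sub, hψ y _ _ (mul_neg_of_neg_of_pos hn (by
          exact_mod_cast hp.out.pos)), sub_mul]
        congr 1
        have hk : ∀ k : ℕ, ψ ((act κ x n ^ k) u) = rhoM l x ^ k * ψ u := by
          intro k
          induction k with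
          | zero => rw [pow_zero, pow_zero, one_mul]; rfl
          | succ k ih =>
            rw [pow_succ', pow_succ', Module.End.mul_apply, hψ _ _ _ hn, ih, mul_assoc]
        exact hk p
      · refine ⟨0, (Dg K).zero_mem, fun u => ?_⟩
        rw [hsub, pow_act p hy hn, sub_self, map_zero, zero_mul]
    | algebraMap r =>
      refine ⟨algebraMap K _ r, (Dg K).algebraMap_mem r, fun u => ?_⟩
      rw [algebraMap_smul, map_smul, Algebra.smul_def]
    | add a b _ _ ha hb =>
      obtain ⟨s, hs, hs'⟩ := ha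
      obtain ⟨t, ht, ht'⟩ := hb
      refine ⟨s + t, (Dg K).add_mem hs ht, fun u => ?_⟩
      rw [add_smul, map_add, hs', ht', add_mul]
    | mul a b _ _ ha hb =>
      obtain ⟨s, hs, hs'⟩ := ha
      obtain ⟨t, ht, ht'⟩ := hb
      refine ⟨s * t, (Dg K).mul_mem hs ht, fun u => ?_⟩
      rw [mul_smul, hs', ht', mul_assoc]
  obtain ⟨s, ⟨f, hf, rfl⟩, hs⟩ := hS z hz
  have hv : ψ ((D ^ p) (vac κ)) = dg f := by rw [hvz, hs, hψ1, mul_one]
  -- the two highest weight vectors
  have e_ee : (ee : Sl2 K).1 = !![0, 1; 0, -0] := rfl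
  have e_hh : (hh : Sl2 K).1 = !![1, 0; 0, -1] := rfl
  have wE : ∀ q, rhoW l ee q = Eo l q := by
    intro q
    rw [rhoW_apply]
    change (0 : K) • Ho l q + (1 : K) • Eo l q + (0 : K) • Fo K q = Eo l q
    module
  have wH : ∀ q, rhoW l hh q = Ho l q := by
    intro q
    rw [rhoW_apply]
    change (1 : K) • Ho l q + (0 : K) • Eo l q + (0 : K) • Fo K q = Ho l q
    module
  have hE1 : rhoM l ee ((1 : Polynomial K), (0 : Polynomial K)) = 0 := by
    rw [rhoM_pair, wE, wE, Eo_apply, Eo_apply, e_ee]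
    simp
  have hH1 : rhoM l hh ((1 : Polynomial K), (0 : Polynomial K)) =
      (l + 1) • ((1 : Polynomial K), (0 : Polynomial K)) := by
    rw [rhoM_pair, wH, wH, Ho_apply, Ho_apply, e_hh]
    apply Prod.ext
    · simp [Polynomial.smul_eq_C_mul]
    · simp
  have hE2 : rhoM l ee ((Polynomial.X : Polynomial K), -Polynomial.C l) = 0 := by
    rw [rhoM_pair, wE, wE, Eo_apply, Eo_apply, e_ee]
    simp [Polynomial.smul_eq_C_mul]
  have hH2 : rhoM l hh ((Polynomial.X : Polynomial K), -Polynomial.C l) =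
      (l - 1) • ((Polynomial.X : Polynomial K), -Polynomial.C l) := by
    rw [rhoM_pair, wH, wH, Ho_apply, Ho_apply, e_hh]
    apply Prod.ext
    · have hC : (Polynomial.C (2 : K)) = 2 := map_ofNat _ 2
      simp [Polynomial.smul_eq_C_mul, hC]
      ring
    · simp [Polynomial.smul_eq_C_mul]
      ring
  have hC1 := cas_hw (rhoM l) hE1 hH1
  have hC2 := cas_hw (rhoM l) hE2 hH2
  set c1 : K := (2 * (κ + 2))⁻¹ * ((l + 1) + (l + 1) ^ 2 / 2) with hc1
  set c2 : K := (2 * (κ + 2))⁻¹ * ((l - 1) + (l - 1) ^ 2 / 2) with hc2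
  have hne : 2 * (κ + 2) ≠ 0 := mul_ne_zero h2 hκ'
  have p1 := psi_pow h2 (rhoM l) hψ1 hψ hD0 hD (c := c1) (by
    rw [hC1, hc1, mul_inv_cancel_left₀ hne]) hκ' p
  have p2 := psi_pow h2 (rhoM l) hψ1 hψ hD0 hD (c := c2) (by
    rw [hC2, hc2, mul_inv_cancel_left₀ hne]) hκ' p
  rw [hv, prod_eq p h2] at p1 p2
  rw [dg_apply] at p1 p2
  have q1 : f 1 = (c1 ^ p - c1) • (1 : Polynomial K) := congrArg Prod.fst p1
  have q2 : f Polynomial.X = (c2 ^ p - c2) • (Polynomial.X : Polynomial K) := congrArg Prod.fst p2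
  have q3 : f Polynomial.X = (c1 ^ p - c1) • (Polynomial.X : Polynomial K) := by
    have h3 := congrArg (fun g : Module.End K (Polynomial K) => g 1) hf
    change f (Polynomial.X * 1) = Polynomial.X * f 1 at h3
    rw [mul_one, q1, mul_smul_comm, mul_one] at h3
    exact h3
  have q4 : c1 ^ p - c1 = c2 ^ p - c2 := by
    rw [q2] at q3
    have h3 := congrArg (fun q : Polynomial K => q.coeff 1) q3
    simp only [Polynomial.coeff_smul, Polynomial.coeff_X_one, smul_eq_mul, mul_one] at h3
    exact h3.symm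
  have q5 : c1 - c2 = τ := by
    have h4 : l + 1 = τ * (κ + 2) := by rw [hl]; ring
    rw [hc1, hc2, ← mul_sub]
    have h5 : ((l + 1) + (l + 1) ^ 2 / 2) - ((l - 1) + (l - 1) ^ 2 / 2) = 2 * (l + 1) := by
      field_simp
      ring
    rw [h5, h4]
    field_simp
  have q6 : τ ^ p - τ = 0 := by
    rw [← q5, sub_pow_char c1 c2]
    linear_combination q4
  exact hτ q6

/-- for every vertex algebra structure the vector is central -/
theorem central_of (A : VertexAlgebra K (Vk K κ)) (h1 : A.one = vac κ)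
    (hA : ∀ (x : Sl2 K) (n : ℤ) (u : Vk K κ), A.prod n (iA (el x (-1)) • vac κ) u =
      iA (el x n) • u) {v : Vk K κ} (hv : ∀ (x : Sl2 K) (n : ℤ), 0 ≤ n → iA (el x n) • v = 0) :
    v ∈ A.centre := by
  have hz0 : ∀ n a, A.prod n a 0 = 0 := by
    intro n a
    have := A.prod_smul n (0 : K) a 0
    rwa [zero_smul, zero_smul] at this
  intro a
  induction a using Vk.negInd with
  | h1 =>
    intro n hn
    rw [← h1, A.one_prod, if_neg (by omega)]
  | ha u w hu hw =>
    intro n hn
    rw [A.add_prod, hu n hn, hw n hn, add_zero]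
  | hs r u hu =>
    intro n hn
    rw [A.smul_prod, hu n hn, smul_zero]
  | hz x m u hm hu =>
    intro n hn
    have e1 : act κ x m u = A.prod m (iA (el x (-1)) • vac κ) u := (hA x m u).symm
    rw [e1]
    set a := iA (el x (-1)) • vac κ with ha
    have hav : ∀ k : ℤ, 0 ≤ k → A.prod k a v = 0 := fun k hk => by rw [hA, hv x k hk]
    have hb := A.borcherds a u v m 0 n
    unfold borL borR at hb
    rw [finsum_eq_single _ 0 (by
      intro i hi
      obtain ⟨j, rfl⟩ := Nat.exists_eq_succ_of_ne_zero hi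
      rw [Ring.choose_zero_succ, zero_smul])] at hb
    rw [Ring.choose_zero_right, one_smul] at hb
    simp only [Nat.cast_zero, add_zero, sub_zero, zero_add] at hb
    rw [hb]
    rw [finsum_eq_zero_of_forall_eq_zero]
    intro i
    rw [hu (n + i) (by omega), hav i (by omega), hz0, hz0, smul_zero, sub_zero, smul_zero]

end Pool.Agent.Q19.Va
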