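import Pool.Agent.Q19.VaI

set_option autoImplicit false
set_option linter.unusedVariables false

/-! The statement in terms of short definitions. -/

namespace Pool.Agent.Q19.Va

universe u

/-- the universal affine vertex algebra `V^κ(sl_2)` -/
def VV (K : Type u) [Field K] (κ : K) : Type u := Vk K κ

noncomputable instance (K : Type u) [Field K] (κ : K) : AddCommGroup (VV K κ) :=
  (inferInstance : AddCommGroup (Vk K κ))

noncomputable instance (K : Type u) [Field K] (κ : K) : Module K (VV K κ) :=
  (inferInstance : Module K (Vk K κ))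

/-- the vacuum vector -/
noncomputable def one {K : Type u} [Field K] (κ : K) : VV K κ := vac κ

/-- the operator `x_n` on `V^κ(sl_2)` -/
noncomputable def op {K : Type u} [Field K] {κ : K} (x : Sl2 K) (n : ℤ) (v : VV K κ) : VV K κ :=
  let w : Vk K κ := v
  iA (el x n) • w

theorem final (K : Type u) [Field K] [IsAlgClosed K] (p : ℕ) [Fact p.Prime] [CharP K p]
    (hp : p ≠ 2) (κ : K) (hκ : κ ≠ -2) :
    ∃ v : VV K κ, v ∉ pCentre K p κ ∧
      (∀ (x : Sl2 K) (n : ℤ), 0 ≤ n → op x n v = 0) ∧
      ∀ A : VertexAlgebra K (VV K κ), A.one = one κ →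
        (∀ (x : Sl2 K) (n : ℤ) (u : VV K κ), A.prod n (op x (-1) (one κ)) u = op x n u) →
        v ∈ A.centre := by
  obtain ⟨v, h1, h2⟩ := exists_central (κ := κ) p hp hκ
  refine ⟨v, h1, h2, fun A hA1 hA2 => ?_⟩
  exact central_of (κ := κ) A hA1 hA2 h2

end Pool.Agent.Q19.Va
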